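import Pool.Agent.T2H01.QI.Stm3

/-! # ABL (helper80): bounds for the test polynomials by Abel summation -/

set_option autoImplicit false

noncomputable section

open MeasureTheory Metric Set Filter Topology
open scoped NNReal ENNReal

namespace Pool.Agent.T2H01.QI

namespace ABL

/-- Abel summation -/
lemma abel_eq (w : ℕ → ℂ) (b : ℕ → ℂ) (K : ℕ) (hK : 2 ≤ K) :
    ∑ k ∈ Finset.Icc 2 K, w k * b k = w K * (∑ k ∈ Finset.Icc 2 K, b k) +
      ∑ n ∈ Finset.Ico 2 K, (w n - w (n + 1)) * ∑ k ∈ Finset.Icc 2 n, b k := by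
  induction K, hK using Nat.le_induction with
  | base => simp
  | succ K hK ih =>
    rw [Finset.sum_Icc_succ_top (by omega), Finset.sum_Icc_succ_top (by omega), ih,
      Finset.sum_Ico_succ_top hK]
    ring

lemma abel_le (w : ℕ → ℝ) (b : ℕ → ℂ) (K : ℕ) (hK : 2 ≤ K) (M V : ℝ) (hM0 : 0 ≤ M)
    (hM : ∀ n, n ≤ K → ‖∑ k ∈ Finset.Icc 2 n, b k‖ ≤ M)
    (hV : |w K| + ∑ n ∈ Finset.Ico 2 K, |w n - w (n + 1)| ≤ V) :
    ‖∑ k ∈ Finset.Icc 2 K, (w k : ℂ) * b k‖ ≤ V * M := by
  rw [abel_eq (fun k => (w k : ℂ)) b K hK]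
  refine (norm_add_le _ _).trans ?_
  have h1 : ‖(w K : ℂ) * ∑ k ∈ Finset.Icc 2 K, b k‖ ≤ |w K| * M := by
    rw [norm_mul, Complex.norm_real, Real.norm_eq_abs]
    exact mul_le_mul_of_nonneg_left (hM K le_rfl) (abs_nonneg _)
  have h2 : ‖∑ n ∈ Finset.Ico 2 K, ((w n : ℂ) - (w (n + 1) : ℂ)) * ∑ k ∈ Finset.Icc 2 n, b k‖ ≤
      (∑ n ∈ Finset.Ico 2 K, |w n - w (n + 1)|) * M := by
    refine (norm_sum_le _ _).trans ?_
    rw [Finset.sum_mul]
    refine Finset.sum_le_sum fun n hn => ?_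
    rw [Finset.mem_Ico] at hn
    rw [norm_mul, ← Complex.ofReal_sub, Complex.norm_real, Real.norm_eq_abs]
    exact mul_le_mul_of_nonneg_left (hM n hn.2.le) (abs_nonneg _)
  calc _ ≤ |w K| * M + (∑ n ∈ Finset.Ico 2 K, |w n - w (n + 1)|) * M := add_le_add h1 h2
    _ = (|w K| + ∑ n ∈ Finset.Ico 2 K, |w n - w (n + 1)|) * M := by ring
    _ ≤ V * M := mul_le_mul_of_nonneg_right hV hM0

lemma var_anti (w : ℕ → ℝ) (hw : ∀ k, 2 ≤ k → w (k + 1) ≤ w k) (K : ℕ) (hK : 2 ≤ K) :
    ∑ n ∈ Finset.Ico 2 K, |w n - w (n + 1)| = w 2 - w K := by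
  induction K, hK using Nat.le_induction with
  | base => simp
  | succ K hK ih =>
    rw [Finset.sum_Ico_succ_top hK, ih, abs_of_nonneg (by linarith [hw K hK])]
    ring

lemma var_mono (w : ℕ → ℝ) (hw : ∀ k, 2 ≤ k → w k ≤ w (k + 1)) (K : ℕ) (hK : 2 ≤ K) :
    ∑ n ∈ Finset.Ico 2 K, |w n - w (n + 1)| = w K - w 2 := by
  induction K, hK using Nat.le_induction with
  | base => simp
  | succ K hK ih =>
    rw [Finset.sum_Ico_succ_top hK, ih, abs_of_nonpos (by linarith [hw K hK])]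
    ring

lemma exp_norm (k : ℕ) (t : ℝ) : ‖Complex.exp (-(Complex.I * ((k : ℂ) * (t : ℂ))))‖ = 1 := by
  have h : -(Complex.I * ((k : ℂ) * (t : ℂ))) = ((-(k * t) : ℝ) : ℂ) * Complex.I := by
    push_cast
    ring
  rw [h, Complex.norm_exp_ofReal_mul_I]

lemma term_int (ε : ℝ → ℝ) (hm : Measurable ε) (hb : ∀ t, |ε t| ≤ 1) (k : ℕ) (a b : ℝ) :
    IntervalIntegrable (fun t : ℝ => (ε t : ℂ) * Complex.exp (-(Complex.I * ((k : ℂ) * (t : ℂ)))))
      volume a b := by
  have hc : IntervalIntegrable (fun _ : ℝ => (1 : ℝ)) volume a b := intervalIntegrable_const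
  refine hc.mono_fun' ?_ ?_
  · apply Measurable.aestronglyMeasurable
    apply Measurable.mul
    · exact Complex.measurable_ofReal.comp hm
    · apply Continuous.measurable
      fun_prop
  · refine Filter.Eventually.of_forall fun t => ?_
    simp only
    rw [norm_mul, exp_norm, mul_one, Complex.norm_real, Real.norm_eq_abs]
    exact hb t

/-- the partial sums -/
lemma partial_le (C : ℝ) (hC : 0 < C) (K : ℕ) (hK : 2 ≤ K) (z : ℂ)
    (hKER : ∀ m n : ℕ, n ≤ K →
      ∫ t in (0 : ℝ)..(2 * Real.pi), ‖∑ k ∈ Finset.Icc m n, (z * Complex.exp (-(Complex.I * t))) ^ k‖ ≤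
      C * (1 + Real.log K)) (ε : ℝ → ℝ) (hm : Measurable ε) (hb : ∀ t, |ε t| ≤ 1) (j : ℕ) (hj : j ≤ 2)
    (n : ℕ) (hn : n ≤ K) :
    ‖∑ k ∈ Finset.Icc 2 n, ec ε k * z ^ (k - j)‖ ≤ C * (1 + Real.log K) := by
  have hlog : 0 ≤ Real.log K := Real.log_natCast_nonneg K
  have hR : 0 ≤ C * (1 + Real.log K) := by positivity
  rcases Nat.lt_or_ge n 2 with h2 | h2
  · rw [Finset.Icc_eq_empty (by omega), Finset.sum_empty, norm_zero]
    exact hR
  have h1 : ∑ k ∈ Finset.Icc 2 n, ec ε k * z ^ (k - j) = ((1 / Real.pi : ℝ) : ℂ) *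
      ∫ t in (0 : ℝ)..(2 * Real.pi), ∑ k ∈ Finset.Icc 2 n,
        ((ε t : ℂ) * Complex.exp (-(Complex.I * ((k : ℂ) * (t : ℂ))))) * z ^ (k - j) := by
    rw [intervalIntegral.integral_finsetSum, Finset.mul_sum]
    · refine Finset.sum_congr rfl fun k _ => ?_
      rw [intervalIntegral.integral_mul_const]
      unfold ec
      ring
    · intro k _
      exact (term_int ε hm hb k _ _).mul_const _
  have hker := hKER (2 - j) (n - j) (by omega)
  have h3 : ∀ t : ℝ, ‖∑ k ∈ Finset.Icc 2 n,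
        ((ε t : ℂ) * Complex.exp (-(Complex.I * ((k : ℂ) * (t : ℂ))))) * z ^ (k - j)‖ ≤
      ‖∑ k ∈ Finset.Icc (2 - j) (n - j), (z * Complex.exp (-(Complex.I * t))) ^ k‖ := by
    intro t
    have h4 : ∑ k ∈ Finset.Icc 2 n,
        ((ε t : ℂ) * Complex.exp (-(Complex.I * ((k : ℂ) * (t : ℂ))))) * z ^ (k - j) =
        ((ε t : ℂ) * Complex.exp (-(Complex.I * ((j : ℂ) * (t : ℂ))))) *
          ∑ k ∈ Finset.Icc (2 - j) (n - j), (z * Complex.exp (-(Complex.I * t))) ^ k := by
      rw [Finset.mul_sum]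
      refine Finset.sum_nbij' (fun k => k - j) (fun l => l + j) ?_ ?_ ?_ ?_ ?_
      · intro k hk
        rw [Finset.mem_Icc] at hk ⊢
        omega
      · intro l hl
        rw [Finset.mem_Icc] at hl ⊢
        omega
      · intro k hk
        rw [Finset.mem_Icc] at hk
        omega
      · intro l hl
        omega
      · intro k hk
        rw [Finset.mem_Icc] at hk
        have h5 : Complex.exp (-(Complex.I * ((k : ℂ) * (t : ℂ)))) =
            Complex.exp (-(Complex.I * ((j : ℂ) * (t : ℂ)))) *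
              Complex.exp (-(Complex.I * (t : ℂ))) ^ (k - j) := by
          rw [← Complex.exp_nat_mul, ← Complex.exp_add]
          congr 1
          rw [Nat.cast_sub (by omega)]
          ring
        rw [h5, mul_pow]
        ring
    rw [h4, norm_mul, norm_mul, exp_norm, mul_one, Complex.norm_real, Real.norm_eq_abs]
    calc |ε t| * _ ≤ 1 * ‖∑ k ∈ Finset.Icc (2 - j) (n - j), (z * Complex.exp (-(Complex.I * t))) ^ k‖ :=
          mul_le_mul_of_nonneg_right (hb t) (norm_nonneg _)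
      _ = _ := one_mul _
  have h6 : ‖∫ t in (0 : ℝ)..(2 * Real.pi), ∑ k ∈ Finset.Icc 2 n,
        ((ε t : ℂ) * Complex.exp (-(Complex.I * ((k : ℂ) * (t : ℂ))))) * z ^ (k - j)‖ ≤
      ∫ t in (0 : ℝ)..(2 * Real.pi),
        ‖∑ k ∈ Finset.Icc (2 - j) (n - j), (z * Complex.exp (-(Complex.I * t))) ^ k‖ := by
    refine intervalIntegral.norm_integral_le_of_norm_le (by positivity) ?_ ?_
    · exact Filter.Eventually.of_forall fun t _ => h3 t
    · apply Continuous.intervalIntegrable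
      fun_prop
  rw [h1, norm_mul, Complex.norm_real, Real.norm_of_nonneg (by positivity)]
  have hpi : 1 / Real.pi ≤ 1 := by
    rw [div_le_one Real.pi_pos]
    linarith [Real.pi_gt_three]
  calc 1 / Real.pi * _ ≤ 1 * (C * (1 + Real.log K)) :=
        mul_le_mul hpi (h6.trans hker) (norm_nonneg _) (by norm_num)
    _ = _ := one_mul _

end ABL

open ABL in
theorem pABL (hKER : S_KER) : S_ABL := by
  obtain ⟨C, hC, hker⟩ := hKER
  refine ⟨2 * C, by positivity, ?_⟩
  intro K hK ε hm hb z hz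
  have hlog : 0 ≤ Real.log K := Real.log_natCast_nonneg K
  have hM0 : 0 ≤ C * (1 + Real.log K) := by positivity
  have hp := fun (j : ℕ) (hj : j ≤ 2) (n : ℕ) (hn : n ≤ K) =>
    partial_le C hC K hK z (hker K hK z hz) ε hm hb j hj n hn
  have hK1 : (2 : ℝ) ≤ K := by exact_mod_cast hK
  refine ⟨?_, ?_, ?_⟩
  · have h := abel_le (fun k => 1 / ((k : ℝ) - 1)) (fun k => ec ε k * z ^ (k - 0)) K hK _ 1 hM0
      (fun n hn => hp 0 (by norm_num) n hn) ?_
    · have e : P0 K (ec ε) z = ∑ k ∈ Finset.Icc 2 K, ((1 / ((k : ℝ) - 1) : ℝ) : ℂ) *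
          (ec ε k * z ^ (k - 0)) := by
        unfold P0
        refine Finset.sum_congr rfl fun k _ => ?_
        rw [Nat.sub_zero]
        push_cast
        ring
      rw [e]
      refine h.trans ?_
      nlinarith
    · rw [var_anti (fun k => 1 / ((k : ℝ) - 1)) ?_ K hK]
      · have h1 : (0 : ℝ) < (K : ℝ) - 1 := by linarith
        rw [abs_of_pos (by positivity)]
        norm_num
      · intro k hk
        have hk1 : (2 : ℝ) ≤ k := by exact_mod_cast hk
        push_cast
        exact one_div_le_one_div_of_le (by linarith) (by linarith)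
  · have h := abel_le (fun k => (k : ℝ) / ((k : ℝ) - 1)) (fun k => ec ε k * z ^ (k - 1)) K hK _ 2 hM0
      (fun n hn => hp 1 (by norm_num) n hn) ?_
    · have e : P1 K (ec ε) z = ∑ k ∈ Finset.Icc 2 K, (((k : ℝ) / ((k : ℝ) - 1) : ℝ) : ℂ) *
          (ec ε k * z ^ (k - 1)) := by
        unfold P1
        refine Finset.sum_congr rfl fun k _ => ?_
        push_cast
        ring
      rw [e]
      refine h.trans ?_
      nlinarith
    · rw [var_anti (fun k => (k : ℝ) / ((k : ℝ) - 1)) ?_ K hK]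
      · have h1 : (0 : ℝ) < (K : ℝ) - 1 := by linarith
        rw [abs_of_pos (by positivity)]
        norm_num
      · intro k hk
        have hk1 : (2 : ℝ) ≤ k := by exact_mod_cast hk
        push_cast
        rw [div_le_div_iff₀ (by linarith) (by linarith)]
        nlinarith
  · have h := abel_le (fun k => (k : ℝ)) (fun k => ec ε k * z ^ (k - 2)) K hK _ (2 * K) hM0
      (fun n hn => hp 2 le_rfl n hn) ?_
    · have e : P2 K (ec ε) z = ∑ k ∈ Finset.Icc 2 K, (((k : ℝ) : ℝ) : ℂ) *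
          (ec ε k * z ^ (k - 2)) := by
        unfold P2
        refine Finset.sum_congr rfl fun k _ => ?_
        push_cast
        ring
      rw [e]
      refine h.trans (le_of_eq ?_)
      ring
    · rw [var_mono (fun k => (k : ℝ)) ?_ K hK]
      · rw [abs_of_nonneg (by positivity)]
        push_cast
        linarith
      · intro k hk
        push_cast
        linarith

end Pool.Agent.T2H01.QI
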