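import Pool.Agent.T2H01.QI.Stm2

set_option autoImplicit false

noncomputable section

open MeasureTheory Metric Set Filter Topology
open scoped NNReal ENNReal

namespace Pool.Agent.T2H01.QI

namespace ALLP

lemma vol_ball (x : E2) {r : ℝ} (hr : 0 ≤ r) : volume.real (ball x r) = Real.pi * r ^ 2 := by
  rw [Measure.real, EuclideanSpace.volume_ball_fin_two, ENNReal.toReal_mul, ENNReal.toReal_pow,
    ENNReal.toReal_ofReal hr, ENNReal.toReal_ofReal Real.pi_pos.le]
  ring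

lemma asym_le {Ω : Set E2} (x : E2) :
    asym Ω ≤ volume.real (symmDiff Ω (ball x (rad Ω))) / volume.real (ball x (rad Ω)) := by
  unfold asym
  refine ciInf_le ⟨0, ?_⟩ x
  rintro _ ⟨y, rfl⟩
  positivity

lemma asym_nonneg (Ω : Set E2) : 0 ≤ asym Ω := by
  unfold asym
  exact Real.iInf_nonneg fun x => by positivity

lemma rad_nonneg (Ω : Set E2) : 0 ≤ rad Ω := Real.sqrt_nonneg _

lemma rad_sq (Ω : Set E2) : Real.pi * rad Ω ^ 2 = volume.real Ω := by
  unfold rad
  rw [Real.sq_sqrt (by positivity)]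
  field_simp

lemma asym_two (Ω : Set E2) (hb : Bornology.IsBounded Ω) (h : 0 < volume.real Ω) : asym Ω ≤ 2 := by
  refine (asym_le (0 : E2)).trans ?_
  have hv := vol_ball (0 : E2) (rad_nonneg Ω)
  rw [rad_sq] at hv
  rw [hv, div_le_iff₀ h]
  have hsub : symmDiff Ω (ball (0:E2) (rad Ω)) ⊆ Ω ∪ ball (0:E2) (rad Ω) :=
    fun x hx => by
      rcases hx with hx | hx
      · exact Or.inl hx.1
      · exact Or.inr hx.1
  have hfin1 : volume Ω ≠ ⊤ := hb.measure_lt_top.ne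
  have hfin2 : volume (ball (0:E2) (rad Ω)) ≠ ⊤ := measure_ball_lt_top.ne
  have h1 : volume.real (symmDiff Ω (ball (0:E2) (rad Ω))) ≤ volume.real (Ω ∪ ball (0:E2) (rad Ω)) :=
    measureReal_mono hsub (measure_union_lt_top hfin1.lt_top hfin2.lt_top).ne
  have h2 := measureReal_union_le (μ := (volume : Measure E2)) Ω (ball (0:E2) (rad Ω))
  rw [hv] at h2
  linarith

/-- the essential infimum of `|u|` -/
lemma ess (Ω : Set E2) (u : E2 → ℝ) (h : 0 < volume.real Ω) :
    ∃ c₀ : ℝ, 0 ≤ c₀ ∧ (∀ᵐ x ∂volume.restrict Ω, c₀ ≤ |u x|) ∧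
      ∀ c : ℝ, (∀ᵐ x ∂volume.restrict Ω, c ≤ |u x|) → c ≤ c₀ := by
  set S : Set ℝ := {c | ∀ᵐ x ∂volume.restrict Ω, c ≤ |u x|} with hS
  have h0 : (0 : ℝ) ∈ S := by
    show ∀ᵐ x ∂volume.restrict Ω, (0 : ℝ) ≤ |u x|
    exact Eventually.of_forall fun x => abs_nonneg (u x)
  have hb : BddAbove S := by
    by_contra hcon
    rw [not_bddAbove_iff] at hcon
    have hall : ∀ᵐ x ∂volume.restrict Ω, ∀ n : ℕ, (n : ℝ) ≤ |u x| := by
      rw [ae_all_iff]
      intro n
      obtain ⟨c, hc, hn⟩ := hcon n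
      filter_upwards [hc] with x hx
      exact hn.le.trans hx
    have hF : ∀ᵐ x ∂volume.restrict Ω, False := by
      filter_upwards [hall] with x hx
      obtain ⟨n, hn⟩ := exists_nat_gt (|u x|)
      exact absurd (hx n) (not_le.2 hn)
    have hz : volume.restrict Ω = 0 := by
      rwa [Filter.eventually_false_iff_eq_bot, ae_eq_bot] at hF
    have : volume Ω = 0 := by
      have := congrArg (fun μ : Measure E2 => μ univ) hz
      simpa using this
    rw [Measure.real, this] at h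
    simp at h
  refine ⟨sSup S, le_csSup hb h0, ?_, fun c hc => le_csSup hb hc⟩
  have hall : ∀ᵐ x ∂volume.restrict Ω, ∀ n : ℕ, sSup S - 1 / ((n : ℝ) + 1) ≤ |u x| := by
    rw [ae_all_iff]
    intro n
    obtain ⟨c, hc, hn⟩ := exists_lt_of_lt_csSup ⟨0, h0⟩
      (show sSup S - 1 / ((n : ℝ) + 1) < sSup S by
        have : 0 < 1 / ((n : ℝ) + 1) := by positivity
        linarith)
    filter_upwards [hc] with x hx
    exact hn.le.trans hx
  filter_upwards [hall] with x hx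
  by_contra hcon
  push Not at hcon
  obtain ⟨n, hn⟩ := exists_nat_one_div_lt (sub_pos.2 hcon)
  have := hx n
  linarith

lemma symm3 {Ω C : Set E2} (hΩf : volume Ω ≠ ⊤) (hC : C ⊆ Ω) (hCm : MeasurableSet C) (a : E2) :
    volume.real (symmDiff Ω (ball a (rad Ω))) ≤
      2 * volume.real (Ω \ C) + volume.real (symmDiff C (ball a (rad C))) := by
  have hCf : volume C ≠ ⊤ := ((measure_mono hC).trans_lt (lt_top_iff_ne_top.2 hΩf)).ne
  have hdiff : volume.real (Ω \ C) = volume.real Ω - volume.real C := measureReal_sdiff hC hCm hΩf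
  have h1 : volume.real (symmDiff Ω C) = volume.real (Ω \ C) := by
    rw [symmDiff_comm, symmDiff_of_le hC]
  have hCle : volume.real C ≤ volume.real Ω := measureReal_mono hC hΩf
  have hrr : rad C ≤ rad Ω := by
    unfold rad
    apply Real.sqrt_le_sqrt
    gcongr
  have hbB : ball a (rad C) ⊆ ball a (rad Ω) := ball_subset_ball hrr
  have hBf : volume (ball a (rad Ω)) ≠ ⊤ := measure_ball_lt_top.ne
  have hbf : volume (ball a (rad C)) ≠ ⊤ := measure_ball_lt_top.ne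
  have h3 : volume.real (symmDiff (ball a (rad C)) (ball a (rad Ω))) = volume.real (Ω \ C) := by
    rw [symmDiff_of_le hbB, measureReal_sdiff hbB measurableSet_ball hBf,
      vol_ball a (rad_nonneg Ω), vol_ball a (rad_nonneg C), rad_sq, rad_sq, hdiff]
  have t1 := measureReal_symmDiff_le (μ := volume) (s := Ω) (t := C) (ball a (rad Ω)) hΩf hCf
  have t2 := measureReal_symmDiff_le (μ := volume) (s := C) (t := ball a (rad C)) (ball a (rad Ω))
    hCf hbf
  linarith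

lemma rob_sol {Ω : Set E2} {β : ℝ} {u : E2 → ℝ} (h : IsRobin Ω β u) : IsSol Ω β u := by
  obtain ⟨G, g, ν, -, h1, h2, -, h3⟩ := h
  exact ⟨G, g, h1, h2, h3⟩

end ALLP

open ALLP in
theorem pALL (hPERF : S_PERF) (hPOS : S_POS) (hFLX : S_FLX) (hRES : S_RES) (hCMP : S_CMP)
    (hBIG : S_BIG) (hCONN : S_CONN) (hSHP : S_SHP) : S_ALL := by
  intro β m hβ hm
  have hp := Real.pi_pos
  obtain ⟨R, hRdef⟩ : ∃ R : ℝ, R = Real.sqrt (m / Real.pi) := ⟨_, rfl⟩
  have hR : 0 < R := by rw [hRdef]; positivity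
  have hR2 : Real.pi * R ^ 2 = m := by
    rw [hRdef, Real.sq_sqrt (by positivity)]
    field_simp
  obtain ⟨δs, C₀, hδs, hC₀, hcn⟩ := hCONN β (R / 2) R hβ (by positivity) (by linarith)
  obtain ⟨δ₀, hδ₀def⟩ : ∃ δ₀ : ℝ, δ₀ = min δs (min (R / (40 * β)) 1) := ⟨_, rfl⟩
  have hδ₀ : 0 < δ₀ := by rw [hδ₀def]; positivity
  have hδ₀1 : δ₀ ≤ δs := by rw [hδ₀def]; exact min_le_left _ _
  have hδ₀2 : δ₀ ≤ R / (40 * β) := by
    rw [hδ₀def]; exact (min_le_right _ _).trans (min_le_left _ _)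
  have hδ₀3 : δ₀ ≤ 1 := by rw [hδ₀def]; exact (min_le_right _ _).trans (min_le_right _ _)
  obtain ⟨K, hKdef⟩ : ∃ K : ℝ, K = (16 * Real.pi * β * R + C₀) / m := ⟨_, rfl⟩
  have hK : 0 < K := by rw [hKdef]; positivity
  have hK6 : 0 < K ^ (6 / 5 : ℝ) := Real.rpow_pos_of_pos hK _
  obtain ⟨C, hCdef⟩ : ∃ C : ℝ, C = min ((K ^ (6 / 5 : ℝ))⁻¹) (δ₀ / 4) := ⟨_, rfl⟩
  have hC : 0 < C := by rw [hCdef]; positivity
  have hC1 : C ≤ (K ^ (6 / 5 : ℝ))⁻¹ := by rw [hCdef]; exact min_le_left _ _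
  have hC2 : C ≤ δ₀ / 4 := by rw [hCdef]; exact min_le_right _ _
  refine ⟨C, hC, fun Ω u hL hV hRob => ?_⟩
  have hVpos : 0 < volume.real Ω := by rw [hV]; exact hm
  have hRΩ : rad Ω = R := by unfold rad; rw [hV, hRdef]
  have hne : Ω.Nonempty := by
    by_contra h
    rw [Set.not_nonempty_iff_eq_empty] at h
    rw [h] at hVpos
    simp at hVpos
  have hΩf : volume Ω ≠ ⊤ := hL.2.1.measure_lt_top.ne
  have hSol := rob_sol hRob
  obtain ⟨c₀, hc₀, hc₀ae, hc₀max⟩ := ess Ω u hVpos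
  have hpos := hPOS Ω hL β hβ u hSol
  have hc₀u : ∀ᵐ x ∂volume.restrict Ω, c₀ ≤ u x := by
    filter_upwards [hc₀ae, hpos] with x h1 h2
    rwa [abs_of_nonneg h2] at h1
  have hflx := hFLX Ω hL β hβ u hSol c₀ hc₀ae
  rw [hV] at hflx
  obtain ⟨G, g, hH1, -⟩ := id hSol
  have hshp := hSHP Ω hL.1 hL.2.1 hne u β c₀ hβ hc₀ hH1.1 hc₀max
  have ha0 := asym_nonneg Ω
  have ha2 := asym_two Ω hL.2.1 hVpos
  -- the main claim
  have key : ∀ δ : ℝ, 0 < δ → δ ≤ δ₀ → R / (2 * β) - c₀ ≤ δ → C * asym Ω ^ (6 / 5 : ℝ) ≤ δ := by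
    intro δ hδ hδle hδc
    have hx1 : δ * (40 * β) ≤ R := by
      have := hδle.trans hδ₀2
      rwa [le_div_iff₀ (by positivity)] at this
    obtain ⟨x, hx⟩ : ∃ x : ℝ, x = 2 * β * δ / R := ⟨_, rfl⟩
    have hxR : x * R = 2 * β * δ := by rw [hx]; field_simp
    have hx0 : 0 < x := by rw [hx]; positivity
    have hx20 : x ≤ 1 / 20 := by
      rw [hx, div_le_iff₀ hR]
      linarith
    have hP0 : 0 ≤ (per Ω).toReal := ENNReal.toReal_nonneg
    have hbc : R / 2 * (1 - x) ≤ β * c₀ := by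
      have h1 : β * (R / (2 * β) - c₀) ≤ β * δ := mul_le_mul_of_nonneg_left hδc hβ.le
      have h2 : β * (R / (2 * β) - c₀) = R / 2 - β * c₀ := by field_simp
      nlinarith
    have hPx : (1 - x) * (per Ω).toReal ≤ 2 * Real.pi * R := by
      have h1 : R / 2 * (1 - x) * (per Ω).toReal ≤ Real.pi * R ^ 2 := by
        rw [hR2]
        exact (mul_le_mul_of_nonneg_right hbc hP0).trans hflx
      have h2 : R * ((1 - x) * (per Ω).toReal) ≤ R * (2 * Real.pi * R) := by nlinarith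
      exact le_of_mul_le_mul_left h2 hR
    have hper : (per Ω).toReal ≤ 2 * Real.pi * rad Ω * (1 + 2 * x) := by
      rw [hRΩ]
      have h1 : (1 - x) * (per Ω).toReal * (1 + 2 * x) ≤ 2 * Real.pi * R * (1 + 2 * x) :=
        mul_le_mul_of_nonneg_right hPx (by positivity)
      have h2 : (per Ω).toReal ≤ (1 - x) * (per Ω).toReal * (1 + 2 * x) := by
        have : 0 ≤ (per Ω).toReal * (x - 2 * x ^ 2) := by
          apply mul_nonneg hP0
          nlinarith
        nlinarith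
      linarith
    obtain ⟨z, hz, hbig⟩ := hBIG Ω hL hne (2 * x) (by positivity) (by linarith) hper
    obtain ⟨hCL, hCc, -, -⟩ := hCMP Ω hL z hz
    have hsub : connectedComponentIn Ω z ⊆ Ω := connectedComponentIn_subset Ω z
    obtain ⟨D, hD⟩ : ∃ D : Set E2, D = connectedComponentIn Ω z := ⟨_, rfl⟩
    have hRobC := hRES Ω hL β u hRob z hz
    rw [← hD] at hbig hCL hCc hsub hRobC
    have hCm : MeasurableSet D := hCL.1.measurableSet
    have hCu : ∀ᵐ x ∂volume.restrict D, c₀ ≤ u x := ae_restrict_of_ae_restrict_of_subset hsub hc₀u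
    have hdiff : volume.real (Ω \ D) = volume.real Ω - volume.real D := measureReal_sdiff hsub hCm hΩf
    have hDle : volume.real D ≤ volume.real Ω := measureReal_mono hsub hΩf
    have hDR : rad D ≤ R := by
      rw [← hRΩ]
      unfold rad
      apply Real.sqrt_le_sqrt
      gcongr
    have hRD : R / 2 ≤ rad D := by
      have h1 := rad_sq D
      rw [hRΩ] at hbig
      have h2 : Real.pi * (R / 2) ^ 2 ≤ Real.pi * rad D ^ 2 := by
        rw [h1]
        have h3 : volume.real D = m - volume.real (Ω \ D) := by rw [hdiff, hV]; ring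
        rw [h3, ← hR2]
        have h4 : 2 * Real.pi * (2 * x) * R ^ 2 ≤ 2 * Real.pi * (2 * (1 / 20)) * R ^ 2 := by gcongr
        have h5 : 0 ≤ Real.pi * R ^ 2 := by positivity
        nlinarith
      have h6 : (R / 2) ^ 2 ≤ rad D ^ 2 := le_of_mul_le_mul_left h2 hp
      exact le_of_sq_le_sq h6 (rad_nonneg D)
    have hcond : rad D / (2 * β) - c₀ ≤ δ := by
      have : rad D / (2 * β) ≤ R / (2 * β) := by gcongr
      linarith
    obtain ⟨a, ha⟩ := hcn D u c₀ δ hCL hCc hRD hDR hRobC hCu hcond hδ (hδle.trans hδ₀1)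
    have hs := symm3 hΩf hsub hCm a
    have hasy := asym_le (Ω := Ω) a
    rw [vol_ball a (rad_nonneg Ω), rad_sq, hV] at hasy
    have hδ56 : δ ≤ δ ^ (5 / 6 : ℝ) := by
      have := Real.rpow_le_rpow_of_exponent_ge hδ (hδle.trans hδ₀3) (show (5 / 6 : ℝ) ≤ 1 by norm_num)
      rwa [Real.rpow_one] at this
    have hfin : asym Ω ≤ K * δ ^ (5 / 6 : ℝ) := by
      refine hasy.trans ?_
      rw [hKdef, div_mul_eq_mul_div]
      apply div_le_div_of_nonneg_right _ hm.le
      refine hs.trans ?_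
      have h1 : 2 * volume.real (Ω \ D) ≤ 16 * Real.pi * β * R * δ := by
        rw [hRΩ] at hbig
        have h2 : 2 * Real.pi * (2 * x) * R ^ 2 = 4 * Real.pi * R * (x * R) := by ring
        rw [h2, hxR] at hbig
        nlinarith
      have h3 : 16 * Real.pi * β * R * δ ≤ 16 * Real.pi * β * R * δ ^ (5 / 6 : ℝ) := by gcongr
      nlinarith
    have hpow : asym Ω ^ (6 / 5 : ℝ) ≤ K ^ (6 / 5 : ℝ) * δ := by
      have h1 := Real.rpow_le_rpow ha0 hfin (show (0 : ℝ) ≤ 6 / 5 by norm_num)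
      rw [Real.mul_rpow hK.le (by positivity), ← Real.rpow_mul hδ.le] at h1
      norm_num at h1
      exact h1
    calc C * asym Ω ^ (6 / 5 : ℝ) ≤ (K ^ (6 / 5 : ℝ))⁻¹ * (K ^ (6 / 5 : ℝ) * δ) := by
          apply mul_le_mul hC1 hpow (Real.rpow_nonneg ha0 _) (by positivity)
      _ = δ := by field_simp
  refine le_trans ?_ hshp
  rw [hRΩ]
  rcases le_or_gt (R / (2 * β) - c₀) 0 with h0 | h0
  · -- then the asymmetry vanishes
    have h1 : C * asym Ω ^ (6 / 5 : ℝ) ≤ 0 := by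
      refine le_of_forall_pos_le_add fun ε hε => ?_
      rw [zero_add]
      have := key (min ε δ₀) (lt_min hε hδ₀) (min_le_right _ _) (h0.trans (lt_min hε hδ₀).le)
      exact this.trans (min_le_left _ _)
    rw [ENNReal.ofReal_of_nonpos h1]
    exact bot_le
  · apply ENNReal.ofReal_le_ofReal
    rcases le_or_gt (R / (2 * β) - c₀) δ₀ with h1 | h1
    · exact key _ h0 h1 le_rfl
    · have h2 : asym Ω ^ (6 / 5 : ℝ) ≤ 4 := by
        have h3 := Real.rpow_le_rpow ha0 ha2 (show (0 : ℝ) ≤ 6 / 5 by norm_num)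
        have h4 : (2 : ℝ) ^ (6 / 5 : ℝ) ≤ 2 ^ (2 : ℝ) :=
          Real.rpow_le_rpow_of_exponent_le (by norm_num) (by norm_num)
        have h5 : (2 : ℝ) ^ (2 : ℝ) = 4 := by norm_num
        linarith
      have h6 : C * asym Ω ^ (6 / 5 : ℝ) ≤ δ₀ / 4 * 4 :=
        mul_le_mul hC2 h2 (Real.rpow_nonneg ha0 _) (by positivity)
      linarith

end Pool.Agent.T2H01.QI
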