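import Pool.Agent.T2H01.QI.Stm3
import Pool.Agent.T2H01.QI.ALL

set_option autoImplicit false

noncomputable section

open MeasureTheory Metric Set Filter Topology
open scoped NNReal ENNReal

namespace Pool.Agent.T2H01.QI

open ALLP in
theorem ALL2b.aux (hPOS : S_POS) (hFLX : S_FLX) (hRES : S_RES) (hCMP : S_CMP)
    (hBIG : S_BIG) (hCONN2 : S_CONN2) (hSHP : S_SHP) (q P : ℝ) (hq : 1 / 2 < q) (hq1 : q < 1)
    (hqP : q * P = 1) (hP2 : P ≤ 2) (β m : ℝ) (hβ : 0 < β) (hm : 0 < m) : ∃ C : ℝ, 0 < C ∧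
      ∀ (Ω : Set E2) (u : E2 → ℝ), IsLip Ω →
    volume.real Ω = m → IsRobin Ω β u →
      ENNReal.ofReal (C * asym Ω ^ P) ≤
        eLpNorm (fun x => vsol β (rad Ω) x - usharp Ω u x) ⊤ (volume.restrict (ball 0 (rad Ω))) := by
  have hPpos : 0 < P := by
    by_contra h
    push Not at h
    nlinarith
  have hp := Real.pi_pos
  obtain ⟨R, hRdef⟩ : ∃ R : ℝ, R = Real.sqrt (m / Real.pi) := ⟨_, rfl⟩
  have hR : 0 < R := by rw [hRdef]; positivity
  have hR2 : Real.pi * R ^ 2 = m := by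
    rw [hRdef, Real.sq_sqrt (by positivity)]
    field_simp
  obtain ⟨δs, C₀, hδs, hC₀, hcn⟩ := hCONN2 q β (R / 2) R hq hq1 hβ (by positivity) (by linarith)
  obtain ⟨δ₀, hδ₀def⟩ : ∃ δ₀ : ℝ, δ₀ = min δs (min (R / (40 * β)) 1) := ⟨_, rfl⟩
  have hδ₀ : 0 < δ₀ := by rw [hδ₀def]; positivity
  have hδ₀1 : δ₀ ≤ δs := by rw [hδ₀def]; exact min_le_left _ _
  have hδ₀2 : δ₀ ≤ R / (40 * β) := by
    rw [hδ₀def]; exact (min_le_right _ _).trans (min_le_left _ _)
  have hδ₀3 : δ₀ ≤ 1 := by rw [hδ₀def]; exact (min_le_right _ _).trans (min_le_right _ _)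
  obtain ⟨K, hKdef⟩ : ∃ K : ℝ, K = (16 * Real.pi * β * R + C₀) / m := ⟨_, rfl⟩
  have hK : 0 < K := by rw [hKdef]; positivity
  have hK6 : 0 < K ^ P := Real.rpow_pos_of_pos hK _
  obtain ⟨C, hCdef⟩ : ∃ C : ℝ, C = min ((K ^ P)⁻¹) (δ₀ / 4) := ⟨_, rfl⟩
  have hC : 0 < C := by rw [hCdef]; positivity
  have hC1 : C ≤ (K ^ P)⁻¹ := by rw [hCdef]; exact min_le_left _ _
  have hC2 : C ≤ δ₀ / 4 := by rw [hCdef]; exact min_le_right _ _
  refine ⟨C, hC, fun Ω u hL hV hRob => ?_⟩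
  have hVpos : 0 < volume.real Ω := by rw [hV]; exact hm
  have hRΩ : rad Ω = R := by unfold rad; rw [hV, hRdef]
  have hne : Ω.Nonempty := by
    by_contra h
    rw [Set.not_nonempty_iff_eq_empty] at h
    rw [h] at hVpos
    simp at hVpos
  have hΩf : volume Ω ≠ ⊤ := hL.2.1.measure_lt_top.ne
  have hSol := rob_sol hRob
  obtain ⟨c₀, hc₀, hc₀ae, hc₀max⟩ := ess Ω u hVpos
  have hpos := hPOS Ω hL β hβ u hSol
  have hc₀u : ∀ᵐ x ∂volume.restrict Ω, c₀ ≤ u x := by
    filter_upwards [hc₀ae, hpos] with x h1 h2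
    rwa [abs_of_nonneg h2] at h1
  have hflx := hFLX Ω hL β hβ u hSol c₀ hc₀ae
  rw [hV] at hflx
  obtain ⟨G, g, hH1, -⟩ := id hSol
  have hshp := hSHP Ω hL.1 hL.2.1 hne u β c₀ hβ hc₀ hH1.1 hc₀max
  have ha0 := asym_nonneg Ω
  have ha2 := asym_two Ω hL.2.1 hVpos
  -- the main claim
  have key : ∀ δ : ℝ, 0 < δ → δ ≤ δ₀ → R / (2 * β) - c₀ ≤ δ → C * asym Ω ^ P ≤ δ := by
    intro δ hδ hδle hδc
    have hx1 : δ * (40 * β) ≤ R := by
      have := hδle.trans hδ₀2
      rwa [le_div_iff₀ (by positivity)] at this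
    obtain ⟨x, hx⟩ : ∃ x : ℝ, x = 2 * β * δ / R := ⟨_, rfl⟩
    have hxR : x * R = 2 * β * δ := by rw [hx]; field_simp
    have hx0 : 0 < x := by rw [hx]; positivity
    have hx20 : x ≤ 1 / 20 := by
      rw [hx, div_le_iff₀ hR]
      linarith
    have hP0 : 0 ≤ (per Ω).toReal := ENNReal.toReal_nonneg
    have hbc : R / 2 * (1 - x) ≤ β * c₀ := by
      have h1 : β * (R / (2 * β) - c₀) ≤ β * δ := mul_le_mul_of_nonneg_left hδc hβ.le
      have h2 : β * (R / (2 * β) - c₀) = R / 2 - β * c₀ := by field_simp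
      nlinarith
    have hPx : (1 - x) * (per Ω).toReal ≤ 2 * Real.pi * R := by
      have h1 : R / 2 * (1 - x) * (per Ω).toReal ≤ Real.pi * R ^ 2 := by
        rw [hR2]
        exact (mul_le_mul_of_nonneg_right hbc hP0).trans hflx
      have h2 : R * ((1 - x) * (per Ω).toReal) ≤ R * (2 * Real.pi * R) := by nlinarith
      exact le_of_mul_le_mul_left h2 hR
    have hper : (per Ω).toReal ≤ 2 * Real.pi * rad Ω * (1 + 2 * x) := by
      rw [hRΩ]
      have h1 : (1 - x) * (per Ω).toReal * (1 + 2 * x) ≤ 2 * Real.pi * R * (1 + 2 * x) :=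
        mul_le_mul_of_nonneg_right hPx (by positivity)
      have h2 : (per Ω).toReal ≤ (1 - x) * (per Ω).toReal * (1 + 2 * x) := by
        have : 0 ≤ (per Ω).toReal * (x - 2 * x ^ 2) := by
          apply mul_nonneg hP0
          nlinarith
        nlinarith
      linarith
    obtain ⟨z, hz, hbig⟩ := hBIG Ω hL hne (2 * x) (by positivity) (by linarith) hper
    obtain ⟨hCL, hCc, -, -⟩ := hCMP Ω hL z hz
    have hsub : connectedComponentIn Ω z ⊆ Ω := connectedComponentIn_subset Ω z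
    obtain ⟨D, hD⟩ : ∃ D : Set E2, D = connectedComponentIn Ω z := ⟨_, rfl⟩
    have hRobC := hRES Ω hL β u hRob z hz
    rw [← hD] at hbig hCL hCc hsub hRobC
    have hCm : MeasurableSet D := hCL.1.measurableSet
    have hCu : ∀ᵐ x ∂volume.restrict D, c₀ ≤ u x := ae_restrict_of_ae_restrict_of_subset hsub hc₀u
    have hdiff : volume.real (Ω \ D) = volume.real Ω - volume.real D := measureReal_sdiff hsub hCm hΩf
    have hDle : volume.real D ≤ volume.real Ω := measureReal_mono hsub hΩf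
    have hDR : rad D ≤ R := by
      rw [← hRΩ]
      unfold rad
      apply Real.sqrt_le_sqrt
      gcongr
    have hRD : R / 2 ≤ rad D := by
      have h1 := rad_sq D
      rw [hRΩ] at hbig
      have h2 : Real.pi * (R / 2) ^ 2 ≤ Real.pi * rad D ^ 2 := by
        rw [h1]
        have h3 : volume.real D = m - volume.real (Ω \ D) := by rw [hdiff, hV]; ring
        rw [h3, ← hR2]
        have h4 : 2 * Real.pi * (2 * x) * R ^ 2 ≤ 2 * Real.pi * (2 * (1 / 20)) * R ^ 2 := by gcongr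
        have h5 : 0 ≤ Real.pi * R ^ 2 := by positivity
        nlinarith
      have h6 : (R / 2) ^ 2 ≤ rad D ^ 2 := le_of_mul_le_mul_left h2 hp
      exact le_of_sq_le_sq h6 (rad_nonneg D)
    have hcond : rad D / (2 * β) - c₀ ≤ δ := by
      have : rad D / (2 * β) ≤ R / (2 * β) := by gcongr
      linarith
    obtain ⟨a, ha⟩ := hcn D u c₀ δ hCL hCc hRD hDR hRobC hCu hcond hδ (hδle.trans hδ₀1)
    have hs := symm3 hΩf hsub hCm a
    have hasy := asym_le (Ω := Ω) a
    rw [vol_ball a (rad_nonneg Ω), rad_sq, hV] at hasy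
    have hδ56 : δ ≤ δ ^ q := by
      have := Real.rpow_le_rpow_of_exponent_ge hδ (hδle.trans hδ₀3) hq1.le
      rwa [Real.rpow_one] at this
    have hfin : asym Ω ≤ K * δ ^ q := by
      refine hasy.trans ?_
      rw [hKdef, div_mul_eq_mul_div]
      apply div_le_div_of_nonneg_right _ hm.le
      refine hs.trans ?_
      have h1 : 2 * volume.real (Ω \ D) ≤ 16 * Real.pi * β * R * δ := by
        rw [hRΩ] at hbig
        have h2 : 2 * Real.pi * (2 * x) * R ^ 2 = 4 * Real.pi * R * (x * R) := by ring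
        rw [h2, hxR] at hbig
        nlinarith
      have h3 : 16 * Real.pi * β * R * δ ≤ 16 * Real.pi * β * R * δ ^ q := by gcongr
      nlinarith
    have hpow : asym Ω ^ P ≤ K ^ P * δ := by
      have h1 := Real.rpow_le_rpow ha0 hfin hPpos.le
      rw [Real.mul_rpow hK.le (by positivity), ← Real.rpow_mul hδ.le, hqP, Real.rpow_one] at h1
      exact h1
    calc C * asym Ω ^ P ≤ (K ^ P)⁻¹ * (K ^ P * δ) := by
          apply mul_le_mul hC1 hpow (Real.rpow_nonneg ha0 _) (by positivity)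
      _ = δ := by field_simp
  refine le_trans ?_ hshp
  rw [hRΩ]
  rcases le_or_gt (R / (2 * β) - c₀) 0 with h0 | h0
  · -- then the asymmetry vanishes
    have h1 : C * asym Ω ^ P ≤ 0 := by
      refine le_of_forall_pos_le_add fun ε hε => ?_
      rw [zero_add]
      have := key (min ε δ₀) (lt_min hε hδ₀) (min_le_right _ _) (h0.trans (lt_min hε hδ₀).le)
      exact this.trans (min_le_left _ _)
    rw [ENNReal.ofReal_of_nonpos h1]
    exact bot_le
  · apply ENNReal.ofReal_le_ofReal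
    rcases le_or_gt (R / (2 * β) - c₀) δ₀ with h1 | h1
    · exact key _ h0 h1 le_rfl
    · have h2 : asym Ω ^ P ≤ 4 := by
        have h3 := Real.rpow_le_rpow ha0 ha2 hPpos.le
        have h4 : (2 : ℝ) ^ P ≤ 2 ^ (2 : ℝ) :=
          Real.rpow_le_rpow_of_exponent_le (by norm_num) hP2
        have h5 : (2 : ℝ) ^ (2 : ℝ) = 4 := by norm_num
        linarith
      have h6 : C * asym Ω ^ P ≤ δ₀ / 4 * 4 :=
        mul_le_mul hC2 h2 (Real.rpow_nonneg ha0 _) (by positivity)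
      linarith


theorem pALL2b (hPOS : S_POS) (hFLX : S_FLX) (hRES : S_RES) (hCMP : S_CMP)
    (hBIG : S_BIG) (hCONN2 : S_CONN2) (hSHP : S_SHP) : S_ALL2 := by
  intro β m p hβ hm hp
  obtain ⟨q, hqd⟩ : ∃ q : ℝ, q = max (1 / p) (3 / 4) := ⟨_, rfl⟩
  have hp0 : 0 < p := by linarith
  have hq1 : q < 1 := by
    rw [hqd]
    exact max_lt ((div_lt_one hp0).2 hp) (by norm_num)
  have hq34 : 3 / 4 ≤ q := by rw [hqd]; exact le_max_right _ _
  have hqp : 1 / p ≤ q := by rw [hqd]; exact le_max_left _ _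
  have hq0 : 0 < q := by linarith
  have hPp : 1 / q ≤ p := by
    rw [div_le_iff₀ hq0]
    rw [div_le_iff₀ hp0] at hqp
    linarith
  have hP2 : 1 / q ≤ 2 := by
    rw [div_le_iff₀ hq0]
    linarith
  obtain ⟨C, hC, h⟩ := ALL2b.aux hPOS hFLX hRES hCMP hBIG hCONN2 hSHP q (1 / q) (by linarith) hq1
    (by field_simp) hP2 β m hβ hm
  refine ⟨C / 2 ^ (p - 1 / q), by positivity, fun Ω u hΩ hv hu => le_trans ?_ (h Ω u hΩ hv hu)⟩
  refine ENNReal.ofReal_le_ofReal ?_
  have h0 := ALLP.asym_nonneg Ω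
  have h2 := ALLP.asym_two Ω hΩ.2.1 (by rw [hv]; exact hm)
  have hP0 : 0 < 1 / q := by positivity
  rcases h0.eq_or_lt with h0' | h0'
  · rw [← h0', Real.zero_rpow (by linarith), Real.zero_rpow (by linarith)]
    simp
  · have e : asym Ω ^ p = asym Ω ^ (1 / q) * asym Ω ^ (p - 1 / q) := by
      rw [← Real.rpow_add h0']
      congr 1
      ring
    have h3 : asym Ω ^ (p - 1 / q) ≤ 2 ^ (p - 1 / q) := Real.rpow_le_rpow h0 h2 (by linarith)
    rw [e, div_mul_eq_mul_div, div_le_iff₀ (by positivity)]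
    have h4 : 0 ≤ C * asym Ω ^ (1 / q) := by positivity
    nlinarith [mul_le_mul_of_nonneg_left h3 h4]

end Pool.Agent.T2H01.QI
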