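import Pool.Agent.T2H01.QI.Stm

/-!
# QI: ARE, the area of a bounded open set and its support numbers
-/

set_option autoImplicit false

noncomputable section

open MeasureTheory Metric Set Filter Topology
open scoped NNReal ENNReal

namespace Pool.Agent.T2H01.QI

namespace ARE

lemma nd_period (N : ℕ) (hN : 0 < N) (j : ℕ) : nd N (j + N) = nd N j := by
  have hN' : (N : ℝ) ≠ 0 := by exact_mod_cast hN.ne'
  unfold nd dir
  have h : 2 * Real.pi * ((j + N : ℕ) : ℝ) / N = 2 * Real.pi * j / N + 2 * Real.pi := by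
    push_cast
    field_simp
  rw [h, Real.cos_add_two_pi, Real.sin_add_two_pi]

lemma inner_nd (N : ℕ) (hN : 0 < N) (x : E2) (j : ℕ) :
    inner ℝ x (nd N (j + 1)) + inner ℝ x (nd N (j + (N - 1))) =
      2 * Real.cos (2 * Real.pi / N) * inner ℝ x (nd N j) := by
  have hN' : (N : ℝ) ≠ 0 := by exact_mod_cast hN.ne'
  have h1 : 2 * Real.pi * ((j + 1 : ℕ) : ℝ) / N = 2 * Real.pi * j / N + 2 * Real.pi / N := by
    push_cast
    field_simp
  have h2 : 2 * Real.pi * ((j + (N - 1) : ℕ) : ℝ) / N =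
      2 * Real.pi * j / N - 2 * Real.pi / N + 2 * Real.pi := by
    push_cast [Nat.cast_sub (show 1 ≤ N from hN)]
    field_simp
    ring
  unfold nd dir
  rw [h1, h2, Real.cos_add_two_pi, Real.sin_add_two_pi]
  simp only [PiLp.inner_apply, Fin.sum_univ_two, RCLike.inner_apply, conj_trivial]
  simp [Real.cos_add, Real.sin_add, Real.cos_sub, Real.sin_sub]
  ring

lemma norm_nd (N j : ℕ) : ‖nd N j‖ = 1 := by
  unfold nd dir
  simp [EuclideanSpace.norm_eq, Fin.sum_univ_two]

lemma bdd {Ω : Set E2} (hb : Bornology.IsBounded Ω) (n : E2) :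
    BddAbove ((fun x : E2 => inner ℝ x n) '' Ω) := by
  obtain ⟨R, hR⟩ := hb.subset_closedBall (0 : E2)
  refine ⟨R * ‖n‖, ?_⟩
  rintro _ ⟨x, hx, rfl⟩
  have h1 := hR hx
  rw [mem_closedBall, dist_zero_right] at h1
  exact (real_inner_le_norm x n).trans (mul_le_mul_of_nonneg_right h1 (norm_nonneg _))

lemma le_hs {Ω : Set E2} (hb : Bornology.IsBounded Ω) (n : E2) {x : E2} (hx : x ∈ Ω) :
    inner ℝ x n ≤ hs Ω n := le_csSup (bdd hb n) ⟨x, hx, rfl⟩

end ARE

theorem pARE (hTRI : S_TRI) (hCOV : S_COV) (hQTR : S_QTR) : S_ARE := by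
  intro Ω hΩ hb hne N hN
  have hN0 : 0 < N := by omega
  have hNr : (5 : ℝ) ≤ N := by exact_mod_cast hN
  obtain ⟨a, ha⟩ := hne
  obtain ⟨h, hh⟩ : ∃ h : ℕ → ℝ, h = fun j => hs Ω (nd N j) - inner ℝ a (nd N j) := ⟨_, rfl⟩
  have hper : ∀ j, hs Ω (nd N (j + N)) = hs Ω (nd N j) := fun j => by rw [ARE.nd_period N hN0]
  have hper' : ∀ j, h (j + N) = h j := fun j => by rw [hh]; simp only [ARE.nd_period N hN0]
  have hpi := Real.pi_pos
  have hang : 2 * Real.pi / N ≤ 2 * Real.pi / 5 := by gcongr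
  have hang0 : 0 < 2 * Real.pi / N := by positivity
  have hcos : 0 < Real.cos (2 * Real.pi / N) :=
    Real.cos_pos_of_mem_Ioo ⟨by linarith, by linarith⟩
  have hsin : 0 < Real.sin (2 * Real.pi / N) := Real.sin_pos_of_pos_of_lt_pi hang0 (by linarith)
  -- all the points
  have hpt : ∀ x ∈ Ω, ∀ j, inner ℝ (x - a) (nd N j) ≤ h j := by
    intro x hx j
    rw [hh, inner_sub_left]
    have := ARE.le_hs hb (nd N j) hx
    simp only
    linarith
  -- positivity
  have hpos : ∀ j, 0 < h j := by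
    intro j
    obtain ⟨r, hr, hball⟩ := Metric.isOpen_iff.1 hΩ a ha
    have h1 : a + (r / 2) • nd N j ∈ Ω := by
      apply hball
      rw [mem_ball, dist_eq_norm, add_sub_cancel_left, norm_smul, ARE.norm_nd, mul_one,
        Real.norm_eq_abs, abs_of_pos (by linarith)]
      linarith
    have h2 := hpt _ h1 j
    rw [add_sub_cancel_left, inner_smul_left, real_inner_self_eq_norm_sq, ARE.norm_nd] at h2
    simp only [conj_trivial] at h2
    linarith
  -- convexity
  have hconv : ∀ j, 2 * Real.cos (2 * Real.pi / N) * h j ≤ h (j + 1) + h (j + (N - 1)) := by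
    intro j
    obtain ⟨B, hB⟩ : ∃ B, B = h (j + 1) + h (j + (N - 1)) := ⟨_, rfl⟩
    rw [← hB]
    have h1 : hs Ω (nd N j) ≤ B / (2 * Real.cos (2 * Real.pi / N)) + inner ℝ a (nd N j) := by
      refine csSup_le ⟨_, a, ha, rfl⟩ ?_
      rintro _ ⟨x, hx, rfl⟩
      have h2 := ARE.inner_nd N hN0 (x - a) j
      have h3 := hpt x hx (j + 1)
      have h4 := hpt x hx (j + (N - 1))
      have h5 : inner ℝ (x - a) (nd N j) ≤ B / (2 * Real.cos (2 * Real.pi / N)) := by
        rw [le_div_iff₀ (by positivity)]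
        linarith
      rw [inner_sub_left] at h5
      simp only
      linarith
    have h6 : h j ≤ B / (2 * Real.cos (2 * Real.pi / N)) := by
      rw [hh]
      simp only
      linarith
    rw [le_div_iff₀ (by positivity)] at h6
    linarith
  obtain ⟨s, hs'⟩ : ∃ s : ℕ → ℝ, s = fun j =>
      (h (j + 1) - h j * Real.cos (2 * Real.pi / N)) / Real.sin (2 * Real.pi / N) := ⟨_, rfl⟩
  obtain ⟨s', hs''⟩ : ∃ s' : ℕ → ℝ, s' = fun j =>
      (h (j + (N - 1)) - h j * Real.cos (2 * Real.pi / N)) / Real.sin (2 * Real.pi / N) := ⟨_, rfl⟩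
  have hss : ∀ j, s j + s' j = (h (j + 1) + h (j + (N - 1)) -
      2 * Real.cos (2 * Real.pi / N) * h j) / Real.sin (2 * Real.pi / N) := by
    intro j
    rw [hs', hs'']
    simp only
    ring
  have hss0 : ∀ j, 0 ≤ s j + s' j := by
    intro j
    rw [hss]
    exact div_nonneg (by linarith [hconv j]) hsin.le
  have hcover : Ω ⊆ (fun x => x + -a) ⁻¹'
      (⋃ j ∈ Finset.range N, tri (2 * Real.pi * j / N) (h j) (s j) (s' j)) := by
    intro x hx
    obtain ⟨j, hj, hxj⟩ := hCOV N hN h hper' hpos hconv (x - a) (fun j => hpt x hx j)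
    rw [Set.mem_preimage, ← sub_eq_add_neg]
    simp only [Set.mem_iUnion]
    refine ⟨j, Finset.mem_range.2 hj, ?_⟩
    rw [hs', hs'']
    exact hxj
  have hvol : volume Ω ≤ ENNReal.ofReal (∑ j ∈ Finset.range N, h j * (s j + s' j) / 2) := by
    refine (measure_mono hcover).trans ?_
    rw [measure_preimage_add_right]
    refine (measure_biUnion_finset_le _ _).trans ?_
    rw [ENNReal.ofReal_sum_of_nonneg (fun j _ => by
      have := hss0 j
      have := (hpos j).le
      positivity)]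
    exact Finset.sum_le_sum fun j _ => hTRI _ _ _ _ (hpos j) (hss0 j)
  have hQ : Q N (fun j => hs Ω (nd N j)) = ∑ j ∈ Finset.range N, h j * (s j + s' j) / 2 := by
    rw [← hQTR N hN (fun j => hs Ω (nd N j)) hper a]
    unfold Q
    rw [Finset.mul_sum]
    refine Finset.sum_congr rfl fun j _ => ?_
    rw [hss]
    rw [hh]
    simp only
    field_simp
  rw [hQ, measureReal_def]
  refine ENNReal.toReal_le_of_le_ofReal (Finset.sum_nonneg fun j _ => ?_) hvol
  have := hss0 j
  have := (hpos j).le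
  positivity

end Pool.Agent.T2H01.QI
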