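import Pool.Agent.T2H01.QI.Stm2

set_option autoImplicit false

noncomputable section

open MeasureTheory Metric Set Filter Topology
open scoped NNReal ENNReal

namespace Pool.Agent.T2H01.QI

theorem pAREA (hPOL : S_POL) : S_AREA := by
  intro a ρ hc hp hpos
  have h := (hPOL a ρ hc hp hpos).2 (fun _ => 1) continuous_const
  have h1 : ∫ x in star a ρ, (1 : ℝ) = volume.real (star a ρ) := by
    rw [setIntegral_const]; simp
  rw [h1] at h
  rw [h, ← intervalIntegral.integral_const_mul]
  refine intervalIntegral.integral_congr fun θ _ => ?_
  simp only [mul_one]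
  rw [integral_id]
  ring

end Pool.Agent.T2H01.QI
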