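import Pool.Agent.T2H01.QI.Stm2

/-!
Package ASY of project QI (helper1), MP_832dec_an. Written by helper55.
-/

set_option autoImplicit false

noncomputable section

open MeasureTheory Metric Set Filter Topology
open scoped NNReal ENNReal

namespace Pool.Agent.T2H01.QI

namespace ASY

lemma vball (x : E2) {r : ℝ} (hr : 0 ≤ r) : volume.real (ball x r) = Real.pi * r ^ 2 := by
  rw [Measure.real, EuclideanSpace.volume_ball_fin_two, ENNReal.toReal_mul, ENNReal.toReal_pow,
    ENNReal.toReal_ofReal hr, ENNReal.toReal_ofReal Real.pi_pos.le]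
  ring

/-- polar form -/
lemma polar (x : E2) : ∃ θ : ℝ, x = ‖x‖ • dir θ := by
  have h1 : ‖x‖ = ‖zc x‖ := by
    rw [EuclideanSpace.norm_eq, Complex.norm_def, Complex.normSq_apply]
    unfold zc
    simp [Fin.sum_univ_two, sq]
  refine ⟨Complex.arg (zc x), ?_⟩
  rw [h1]
  ext i
  fin_cases i
  · have h2 := Complex.norm_mul_cos_arg (zc x)
    simp only [dir]
    simp
    rfl
  · have h2 := Complex.norm_mul_sin_arg (zc x)
    simp only [dir]
    simp
    rfl

/-- Cauchy-Schwarz -/
lemma cs (g : ℝ → ℝ) (hg : Continuous g) :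
    (∫ θ in (0 : ℝ)..(2 * Real.pi), |g θ|) ≤ 3 * Real.sqrt (∫ θ in (0 : ℝ)..(2 * Real.pi), g θ ^ 2) := by
  set J : ℝ := ∫ θ in (0 : ℝ)..(2 * Real.pi), |g θ| with hJ
  set M : ℝ := ∫ θ in (0 : ℝ)..(2 * Real.pi), g θ ^ 2 with hM
  have hpi := Real.pi_pos
  have hpi2 : 2 * Real.pi ≤ 9 := by
    have := Real.pi_lt_four
    linarith
  have hJ0 : 0 ≤ J := intervalIntegral.integral_nonneg (by positivity) fun θ _ => abs_nonneg _
  have hM0 : 0 ≤ M := intervalIntegral.integral_nonneg (by positivity) fun θ _ => sq_nonneg _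
  have key : J ^ 2 ≤ 2 * Real.pi * M := by
    have h0 : 0 ≤ ∫ θ in (0 : ℝ)..(2 * Real.pi), (|g θ| - J / (2 * Real.pi)) ^ 2 :=
      intervalIntegral.integral_nonneg (by positivity) fun θ _ => sq_nonneg _
    have h1 : (∫ θ in (0 : ℝ)..(2 * Real.pi), (|g θ| - J / (2 * Real.pi)) ^ 2) =
        M - 2 * (J / (2 * Real.pi)) * J + (2 * Real.pi) * (J / (2 * Real.pi)) ^ 2 := by
      have e : ∀ θ, (|g θ| - J / (2 * Real.pi)) ^ 2 =
          (g θ ^ 2 - 2 * (J / (2 * Real.pi)) * |g θ|) + (J / (2 * Real.pi)) ^ 2 := by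
        intro θ
        rw [sub_sq, sq_abs]
        ring
      simp_rw [e]
      have c1 : Continuous fun θ => g θ ^ 2 := hg.pow 2
      have c2 : Continuous fun θ => 2 * (J / (2 * Real.pi)) * |g θ| := continuous_const.mul hg.abs
      have c3 : Continuous fun θ => g θ ^ 2 - 2 * (J / (2 * Real.pi)) * |g θ| := c1.sub c2
      rw [intervalIntegral.integral_add (c3.intervalIntegrable _ _) (continuous_const.intervalIntegrable _ _),
        intervalIntegral.integral_sub (c1.intervalIntegrable _ _) (c2.intervalIntegrable _ _),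
        intervalIntegral.integral_const_mul, intervalIntegral.integral_const]
      simp only [sub_zero, smul_eq_mul]
      rfl
    rw [h1] at h0
    have h2 : M - 2 * (J / (2 * Real.pi)) * J + (2 * Real.pi) * (J / (2 * Real.pi)) ^ 2 =
        (2 * Real.pi * M - J ^ 2) / (2 * Real.pi) := by
      field_simp
      ring
    rw [h2] at h0
    have h3 : 0 ≤ 2 * Real.pi * M - J ^ 2 := by
      by_contra hneg
      push Not at hneg
      have : (2 * Real.pi * M - J ^ 2) / (2 * Real.pi) < 0 := div_neg_of_neg_of_pos hneg (by positivity)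
      linarith
    linarith
  have h4 : J ^ 2 ≤ (3 * Real.sqrt M) ^ 2 := by
    rw [mul_pow, Real.sq_sqrt hM0]
    nlinarith
  exact abs_le_of_sq_le_sq' h4 (by positivity) |>.2

end ASY

theorem pASY (hGE0 : S_GE0) (hGE2 : S_GE2) (hPOL : S_POL) (hSO : S_SO) (hDM : S_DM) : S_ASY := by
  intro Ω hO hB hN hD
  obtain ⟨hgc, hgp, -, -⟩ := hGE0 Ω hB hN
  obtain ⟨hM0, hMD, -⟩ := hDM Ω hO hB hN
  obtain ⟨hsub, -, -⟩ := hSO Ω hO hB hN hD
  set D : ℝ := Real.pi * mr Ω ^ 2 - volume.real Ω with hDdef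
  set r : ℝ := mr Ω with hr
  set a : E2 := ctr Ω with ha
  have hD0 : 0 ≤ D := by linarith
  have hr0 : 0 < r := lt_of_le_of_lt (by positivity) hD
  have hpi := Real.pi_pos
  have hg : ∀ θ, |gg Ω θ| < r := by
    intro θ
    have h1 := hGE2 Ω hO hB hN θ
    have h2 : |gg Ω θ| ≤ 5 * Real.sqrt D := by
      have h3 : gg Ω θ ^ 2 ≤ (5 * Real.sqrt D) ^ 2 := by
        rw [mul_pow, Real.sq_sqrt hD0]
        norm_num
        exact h1
      exact abs_le_of_sq_le_sq h3 (by positivity)
    exact lt_of_le_of_lt h2 hD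
  -- the star shaped set
  obtain ⟨q, hq⟩ : ∃ q : ℝ → ℝ, q = fun θ => max (r + gg Ω θ) (rad Ω) := ⟨_, rfl⟩
  have hqc : Continuous q := by
    rw [hq]
    exact (continuous_const.add hgc).max continuous_const
  have hqp : ∀ θ, q (θ + 2 * Real.pi) = q θ := by
    intro θ
    simp only [hq, hgp θ]
  have hq0 : ∀ θ, 0 < q θ := by
    intro θ
    have h1 := (abs_lt.mp (hg θ)).1
    have h2 : r + gg Ω θ ≤ q θ := by rw [hq]; exact le_max_left _ _
    linarith
  obtain ⟨hcomp, hint⟩ := hPOL a q hqc hqp hq0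
  have hrad0 : 0 ≤ rad Ω := Real.sqrt_nonneg _
  have hvol0 : 0 ≤ volume.real Ω := measureReal_nonneg
  have hrad : Real.pi * rad Ω ^ 2 = volume.real Ω := by
    unfold rad
    rw [Real.sq_sqrt (by positivity)]
    field_simp
  have hSfin : volume (star a q) ≠ ⊤ := hcomp.measure_lt_top.ne
  have hBfin : volume (ball a (rad Ω)) ≠ ⊤ := measure_ball_lt_top.ne
  have hOfin : volume Ω ≠ ⊤ := hB.measure_lt_top.ne
  have hS : volume.real (star a q) = (1 / 2) * ∫ θ in (0 : ℝ)..(2 * Real.pi), q θ ^ 2 := by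
    have h1 := hint (fun _ => 1) continuous_const
    rw [setIntegral_const, smul_eq_mul, mul_one] at h1
    rw [h1, ← intervalIntegral.integral_const_mul]
    refine intervalIntegral.integral_congr fun θ _ => ?_
    simp only [mul_one]
    rw [integral_id]
    ring
  have hBS : ball a (rad Ω) ⊆ star a q := by
    intro x hx
    rw [mem_ball, dist_eq_norm] at hx
    obtain ⟨θ, hθ⟩ := ASY.polar (x - a)
    refine ⟨‖x - a‖, θ, norm_nonneg _, ?_, ?_⟩
    · rw [hq]
      exact hx.le.trans (le_max_right _ _)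
    · rw [← hθ]
      abel
  have hOS : Ω ⊆ star a q := by
    intro x hx
    obtain ⟨s, θ, h1, h2, h3⟩ := hsub hx
    refine ⟨s, θ, h1, ?_, h3⟩
    rw [hq]
    exact h2.trans (le_max_left _ _)
  have hvB : volume.real (ball a (rad Ω)) = volume.real Ω := by
    rw [ASY.vball a hrad0, hrad]
  -- measures
  have m1 : volume.real (symmDiff Ω (ball a (rad Ω))) =
      volume.real (Ω \ ball a (rad Ω)) + volume.real (ball a (rad Ω) \ Ω) :=
    measureReal_symmDiff_eq hO.measurableSet measurableSet_ball hOfin hBfin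
  have m2 : volume.real (Ω ∩ ball a (rad Ω)) + volume.real (Ω \ ball a (rad Ω)) = volume.real Ω := by
    rw [Measure.real, Measure.real, Measure.real, ← ENNReal.toReal_add
      (measure_ne_top_of_subset inter_subset_left hOfin) (measure_ne_top_of_subset diff_subset hOfin),
      measure_inter_add_diff Ω measurableSet_ball]
  have m3 : volume.real (ball a (rad Ω) ∩ Ω) + volume.real (ball a (rad Ω) \ Ω) =
      volume.real (ball a (rad Ω)) := by
    rw [Measure.real, Measure.real, Measure.real, ← ENNReal.toReal_add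
      (measure_ne_top_of_subset inter_subset_left hBfin) (measure_ne_top_of_subset diff_subset hBfin),
      measure_inter_add_diff (ball a (rad Ω)) hO.measurableSet]
  have m4 : volume.real (star a q ∩ ball a (rad Ω)) + volume.real (star a q \ ball a (rad Ω)) =
      volume.real (star a q) := by
    rw [Measure.real, Measure.real, Measure.real, ← ENNReal.toReal_add
      (measure_ne_top_of_subset inter_subset_left hSfin) (measure_ne_top_of_subset diff_subset hSfin),
      measure_inter_add_diff (star a q) measurableSet_ball]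
  have m5 : volume.real (Ω \ ball a (rad Ω)) ≤ volume.real (star a q \ ball a (rad Ω)) :=
    ENNReal.toReal_mono (measure_ne_top_of_subset diff_subset hSfin)
      (measure_mono (diff_subset_diff_left hOS))
  rw [inter_comm] at m3
  rw [inter_eq_self_of_subset_right hBS] at m4
  -- the integral
  have hJ := ASY.cs (gg Ω) hgc
  have hMM : MM Ω = ∫ θ in (0 : ℝ)..(2 * Real.pi), gg Ω θ ^ 2 := rfl
  rw [← hMM] at hJ
  have hle : rad Ω ≤ r := by
    have h1 : Real.pi * rad Ω ^ 2 ≤ Real.pi * r ^ 2 := by rw [hrad]; linarith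
    have h2 : rad Ω ^ 2 ≤ r ^ 2 := le_of_mul_le_mul_left h1 hpi
    exact abs_le_of_sq_le_sq' h2 hr0.le |>.2
  have c1 : Continuous fun θ => r ^ 2 + 2 * r * |gg Ω θ| := by fun_prop
  have c2 : Continuous fun θ => gg Ω θ ^ 2 := hgc.pow 2
  have c3 : Continuous fun θ => 2 * r * |gg Ω θ| := by fun_prop
  have hint2 : ∫ θ in (0 : ℝ)..(2 * Real.pi), q θ ^ 2 ≤
      2 * Real.pi * r ^ 2 + 2 * r * (∫ θ in (0 : ℝ)..(2 * Real.pi), |gg Ω θ|) + MM Ω := by
    have h1 : ∫ θ in (0 : ℝ)..(2 * Real.pi), q θ ^ 2 ≤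
        ∫ θ in (0 : ℝ)..(2 * Real.pi), ((r ^ 2 + 2 * r * |gg Ω θ|) + gg Ω θ ^ 2) := by
      refine intervalIntegral.integral_mono_on (by positivity) ((hqc.pow 2).intervalIntegrable _ _)
        ((c1.add c2).intervalIntegrable _ _) fun θ _ => ?_
      have h2 : q θ ≤ r + |gg Ω θ| := by
        rw [hq]
        refine max_le ?_ ?_
        · linarith [le_abs_self (gg Ω θ)]
        · linarith [abs_nonneg (gg Ω θ)]
      have h3 : q θ ^ 2 ≤ (r + |gg Ω θ|) ^ 2 := pow_le_pow_left₀ (hq0 θ).le h2 2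
      calc q θ ^ 2 ≤ (r + |gg Ω θ|) ^ 2 := h3
        _ = (r ^ 2 + 2 * r * |gg Ω θ|) + gg Ω θ ^ 2 := by rw [add_sq, sq_abs]
    refine h1.trans (le_of_eq ?_)
    rw [intervalIntegral.integral_add (c1.intervalIntegrable _ _) (c2.intervalIntegrable _ _),
      intervalIntegral.integral_add (continuous_const.intervalIntegrable _ _) (c3.intervalIntegrable _ _),
      intervalIntegral.integral_const_mul, intervalIntegral.integral_const]
    simp only [sub_zero, smul_eq_mul]
    rfl
  have hfin : volume.real (star a q \ ball a (rad Ω)) ≤ 3 * r * Real.sqrt (MM Ω) + MM Ω + D := by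
    have h1 : volume.real (star a q \ ball a (rad Ω)) = volume.real (star a q) - volume.real Ω := by
      rw [← hvB]; linarith
    rw [h1, hS]
    have h2 : r * (∫ θ in (0 : ℝ)..(2 * Real.pi), |gg Ω θ|) ≤ r * (3 * Real.sqrt (MM Ω)) :=
      mul_le_mul_of_nonneg_left hJ hr0.le
    have h3 : D = Real.pi * r ^ 2 - volume.real Ω := rfl
    have h4 : 2 * r * (∫ θ in (0 : ℝ)..(2 * Real.pi), |gg Ω θ|) = 2 * (r * (∫ θ in (0 : ℝ)..(2 * Real.pi), |gg Ω θ|)) := by ring
    have h5 : r * (3 * Real.sqrt (MM Ω)) = 3 * r * Real.sqrt (MM Ω) := by ring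
    have h6 : 2 * Real.pi * r ^ 2 = 2 * (Real.pi * r ^ 2) := by ring
    rw [h4, h6] at hint2
    rw [h5] at h2
    linarith
  calc volume.real (symmDiff Ω (ball a (rad Ω)))
      = 2 * volume.real (Ω \ ball a (rad Ω)) := by rw [m1]; linarith
    _ ≤ 2 * (3 * r * Real.sqrt (MM Ω) + MM Ω + D) := by linarith

end Pool.Agent.T2H01.QI
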