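import Pool.Agent.T2H01.QI.Stm2

/-! Package BIG of the project QI: the greatest component. -/

set_option autoImplicit false

noncomputable section

open MeasureTheory Metric Set Filter Topology
open scoped NNReal ENNReal

namespace Pool.Agent.T2H01.QI

namespace BIG

theorem core (hSUM : S_SUM) (hVOL : S_VOL) (hCMP : S_CMP) (hPERF : S_PERF) (hLIM : S_LIM)
    (Ω : Set E2) (hΩ : IsLip Ω) (τ : ℝ) (hτ : 0 < τ) (hτR : Real.pi * τ < volume.real Ω) :
    ∃ z ∈ Ω, volume.real Ω - Real.pi * τ ≤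
      Real.pi * (Real.sqrt (volume.real (connectedComponentIn Ω z) / Real.pi) *
        ((per Ω).toReal / (2 * Real.pi))) := by
  have hpi := Real.pi_pos
  obtain ⟨F, hF, h1, h2⟩ := hVOL Ω hΩ.1 hΩ.2.1 (Real.pi * τ) (by positivity)
  have hne : F.Nonempty := by
    rw [Finset.nonempty_iff_ne_empty]
    intro h0
    rw [h0, Finset.sum_empty] at h1
    linarith
  have hfac : ∀ C ∈ F, IsLip C ∧ IsConnected C ∧ per C < ⊤ ∧ C ⊆ Ω ∧ per C ≤ per Ω := by
    intro C hC
    obtain ⟨z, hz, rfl⟩ := hF C hC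
    obtain ⟨a1, a2, a3, _⟩ := hCMP Ω hΩ z hz
    exact ⟨a1, a2, hPERF _ a1, connectedComponentIn_subset _ _, measure_mono a3⟩
  have hperΩ := hPERF Ω hΩ
  set q : Set E2 → ℝ := fun C => (per C).toReal / (2 * Real.pi) with hq
  have hq0 : ∀ C, 0 ≤ q C := fun C => by rw [hq]; positivity
  have hlim : ∀ C ∈ F, volume.real C ≤ Real.pi * (q C) ^ 2 := by
    intro C hC
    obtain ⟨a1, a2, a3, _, _⟩ := hfac C hC
    exact (hLIM C a1 a2 a3).1
  obtain ⟨C₁, hC₁, hmax⟩ := Finset.exists_max_image F (fun C => volume.real C) hne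
  have hsum : ∑ C ∈ F, q C ≤ (per Ω).toReal / (2 * Real.pi) := by
    have e1 : ∑ C ∈ F, q C = (∑ C ∈ F, (per C).toReal) / (2 * Real.pi) := by
      rw [Finset.sum_div]
    rw [e1, ← ENNReal.toReal_sum (fun C hC => (hfac C hC).2.2.1.ne)]
    have := ENNReal.toReal_mono hperΩ.ne (hSUM Ω hΩ F hF)
    gcongr
  have hs : ∀ C ∈ F, Real.sqrt (volume.real C / Real.pi) ≤ q C := by
    intro C hC
    rw [Real.sqrt_le_iff]
    refine ⟨hq0 C, ?_⟩
    rw [div_le_iff₀ hpi]
    linarith [hlim C hC]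
  have hv : ∀ C : Set E2, volume.real C = Real.pi * (Real.sqrt (volume.real C / Real.pi) *
      Real.sqrt (volume.real C / Real.pi)) := by
    intro C
    rw [Real.mul_self_sqrt (by positivity)]
    field_simp
  obtain ⟨z, hz, hzC⟩ := hF C₁ hC₁
  refine ⟨z, hz, ?_⟩
  rw [← hzC]
  refine h1.trans ?_
  calc ∑ C ∈ F, volume.real C
      ≤ ∑ C ∈ F, Real.pi * (Real.sqrt (volume.real C₁ / Real.pi) * q C) := by
        refine Finset.sum_le_sum fun C hC => ?_
        rw [hv C]
        have g1 : Real.sqrt (volume.real C / Real.pi) ≤ Real.sqrt (volume.real C₁ / Real.pi) :=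
          Real.sqrt_le_sqrt (by have := hmax C hC; gcongr)
        have g2 := hs C hC
        gcongr
    _ = Real.pi * (Real.sqrt (volume.real C₁ / Real.pi) * ∑ C ∈ F, q C) := by
        rw [Finset.mul_sum, Finset.mul_sum]
    _ ≤ _ := by gcongr

end BIG

open BIG in
theorem pBIG (hSUM : S_SUM) (hVOL : S_VOL) (hCMP : S_CMP) (hPERF : S_PERF) (hLIM : S_LIM) :
    S_BIG := by
  intro Ω hΩ hne η hη0 hη1 hper
  have hpi := Real.pi_pos
  have hΩf : volume Ω ≠ ⊤ := hΩ.2.1.measure_lt_top.ne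
  have hV0 : 0 < volume.real Ω := ENNReal.toReal_pos (hΩ.1.measure_pos volume hne).ne' hΩf
  have hRV : Real.pi * rad Ω ^ 2 = volume.real Ω := by
    unfold rad
    rw [Real.sq_sqrt (by positivity)]
    field_simp
  have hR0 : 0 < rad Ω := by
    unfold rad
    exact Real.sqrt_pos.2 (by positivity)
  set R := rad Ω with hR
  set P : ℝ := (per Ω).toReal / (2 * Real.pi) with hP
  have hPR : P ≤ R * (1 + η) := by
    rw [hP, div_le_iff₀ (by positivity)]
    linarith
  set sz : E2 → ℝ := fun z => Real.sqrt (volume.real (connectedComponentIn Ω z) / Real.pi) with hsz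
  have hsz0 : ∀ z, 0 ≤ sz z := fun z => Real.sqrt_nonneg _
  have hszV : ∀ z, volume.real (connectedComponentIn Ω z) = Real.pi * sz z ^ 2 := by
    intro z
    simp only [hsz]
    rw [Real.sq_sqrt (by positivity)]
    field_simp
  have claim : ∀ τ : ℝ, 0 < τ → τ ≤ R ^ 2 / 10 → ∃ z ∈ Ω, R ^ 2 - τ ≤ sz z * (R * (1 + η)) := by
    intro τ hτ hτ2
    have hτR : Real.pi * τ < volume.real Ω := by
      rw [← hRV]
      have : τ < R ^ 2 := by nlinarith [pow_pos hR0 2]
      exact mul_lt_mul_of_pos_left this hpi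
    obtain ⟨z, hz, h1⟩ := core hSUM hVOL hCMP hPERF hLIM Ω hΩ τ hτ hτR
    refine ⟨z, hz, ?_⟩
    rw [← hRV] at h1
    have h2 : R ^ 2 - τ ≤ sz z * P := by
      refine le_of_mul_le_mul_left ?_ hpi
      have : Real.pi * (R ^ 2 - τ) = Real.pi * R ^ 2 - Real.pi * τ := by ring
      rw [this]
      exact h1
    exact h2.trans (mul_le_mul_of_nonneg_left hPR (hsz0 z))
  -- components with large area
  have big : ∀ τ : ℝ, τ ≤ R ^ 2 / 10 → ∀ z, R ^ 2 - τ ≤ sz z * (R * (1 + η)) →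
      R ^ 2 / 2 < sz z ^ 2 := by
    intro τ hτ z hz
    have h1 : 9 / 10 * R ≤ sz z * (1 + η) := by
      have h2 : R * (9 / 10 * R) ≤ R * (sz z * (1 + η)) := by nlinarith
      exact le_of_mul_le_mul_left h2 hR0
    have h3 : sz z * (1 + η) ≤ sz z * (11 / 10) :=
      mul_le_mul_of_nonneg_left (by linarith) (hsz0 z)
    have h4 : 9 / 11 * R ≤ sz z := by linarith
    have h5 : (9 / 11 * R) ^ 2 ≤ sz z ^ 2 := pow_le_pow_left₀ (by positivity) h4 2
    nlinarith [pow_pos hR0 2]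
  have uniq : ∀ z w, z ∈ Ω → w ∈ Ω → R ^ 2 / 2 < sz z ^ 2 → R ^ 2 / 2 < sz w ^ 2 →
      connectedComponentIn Ω z = connectedComponentIn Ω w := by
    intro z w hz hw h1 h2
    by_contra hneq
    have hdisj : Disjoint (connectedComponentIn Ω z) (connectedComponentIn Ω w) := by
      rw [Set.disjoint_left]
      intro y hy1 hy2
      exact hneq ((connectedComponentIn_eq hy1).trans (connectedComponentIn_eq hy2).symm)
    have hwm : MeasurableSet (connectedComponentIn Ω w) := (hCMP Ω hΩ w hw).1.1.measurableSet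
    have h3 : volume.real (connectedComponentIn Ω z ∪ connectedComponentIn Ω w) ≤ volume.real Ω :=
      measureReal_mono (Set.union_subset (connectedComponentIn_subset _ _)
        (connectedComponentIn_subset _ _)) hΩf
    have hfz : volume (connectedComponentIn Ω z) ≠ ⊤ :=
      ((measure_mono (connectedComponentIn_subset _ _)).trans_lt (lt_top_iff_ne_top.2 hΩf)).ne
    have hfw : volume (connectedComponentIn Ω w) ≠ ⊤ :=
      ((measure_mono (connectedComponentIn_subset _ _)).trans_lt (lt_top_iff_ne_top.2 hΩf)).ne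
    rw [measureReal_union hdisj hwm hfz hfw, hszV, hszV, ← hRV] at h3
    have h4 : Real.pi * (sz z ^ 2 + sz w ^ 2) ≤ Real.pi * R ^ 2 := by linarith
    have h5 := le_of_mul_le_mul_left h4 hpi
    linarith
  obtain ⟨z0, hz0, h0⟩ := claim (R ^ 2 / 10) (by positivity) le_rfl
  have hb0 := big _ le_rfl z0 h0
  have hlim : R ^ 2 ≤ sz z0 * (R * (1 + η)) := by
    by_contra hcon
    push Not at hcon
    set τ : ℝ := min (R ^ 2 / 10) ((R ^ 2 - sz z0 * (R * (1 + η))) / 2) with hτ
    have hτ0 : 0 < τ := lt_min (by positivity) (by linarith)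
    obtain ⟨z, hz, h1⟩ := claim τ hτ0 (min_le_left _ _)
    have h2 := big τ (min_le_left _ _) z h1
    have h3 := uniq z z0 hz hz0 h2 hb0
    have h4 : sz z = sz z0 := by simp only [hsz]; rw [h3]
    rw [h4] at h1
    have h5 : τ ≤ (R ^ 2 - sz z0 * (R * (1 + η))) / 2 := min_le_right _ _
    linarith
  refine ⟨z0, hz0, ?_⟩
  have hCm : MeasurableSet (connectedComponentIn Ω z0) := (hCMP Ω hΩ z0 hz0).1.1.measurableSet
  have hsub := connectedComponentIn_subset Ω z0
  rw [measureReal_sdiff hsub hCm hΩf, hszV, ← hRV]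
  have h1 : R ≤ sz z0 * (1 + η) := by
    have h2 : R * R ≤ R * (sz z0 * (1 + η)) := by nlinarith
    exact le_of_mul_le_mul_left h2 hR0
  have h2 : R ^ 2 ≤ (sz z0 * (1 + η)) ^ 2 := pow_le_pow_left₀ hR0.le h1 2
  have h3 : R ^ 2 * (1 - 2 * η) ≤ sz z0 ^ 2 := by
    have h4 : (R ^ 2 * (1 - 2 * η)) * (1 + η) ^ 2 ≤ sz z0 ^ 2 * (1 + η) ^ 2 := by
      have h5 : (1 - 2 * η) * (1 + η) ^ 2 ≤ 1 := by
        have : (1 - 2 * η) * (1 + η) ^ 2 = 1 - η ^ 2 * (3 + 2 * η) := by ring
        rw [this]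
        have : 0 ≤ η ^ 2 * (3 + 2 * η) := by positivity
        linarith
      have h6 : R ^ 2 * ((1 - 2 * η) * (1 + η) ^ 2) ≤ R ^ 2 * 1 :=
        mul_le_mul_of_nonneg_left h5 (sq_nonneg R)
      nlinarith
    exact le_of_mul_le_mul_right h4 (by positivity)
  have h4 := mul_le_mul_of_nonneg_left h3 hpi.le
  linarith

end Pool.Agent.T2H01.QI
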