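import Pool.Agent.T2H01.QI.Stm

/-! Package CHN of the project QI: the chain rule in the Sobolev space. -/

set_option autoImplicit false

noncomputable section

open MeasureTheory Metric Set Filter Topology
open scoped NNReal ENNReal Convolution
open ContinuousLinearMap (lsmul)

namespace Pool.Agent.T2H01.QI

namespace CHN

/-- the mollifiers -/
def bmp (k : ℕ) : ContDiffBump (0 : E2) where
  rIn := 1 / ((k : ℝ) + 1)
  rOut := 2 / ((k : ℝ) + 1)
  rIn_pos := by positivity
  rIn_lt_rOut := by gcongr; norm_num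

/-- the normed mollifiers -/
def rho (k : ℕ) : E2 → ℝ := (bmp k).normed volume

/-- the mollified function -/
def mol (k : ℕ) (h : E2 → ℝ) : E2 → ℝ := rho k ⋆[lsmul ℝ ℝ, volume] h

theorem rOut_eq (k : ℕ) : (bmp k).rOut = 2 / ((k : ℝ) + 1) := rfl

theorem rOut_tend : Tendsto (fun k => (bmp k).rOut) atTop (𝓝 0) := by
  simp only [rOut_eq]
  have h := tendsto_one_div_add_atTop_nhds_zero_nat (𝕜 := ℝ)
  have h2 := h.const_mul 2
  rw [mul_zero] at h2
  refine h2.congr fun k => ?_
  ring

theorem ae_conv {h : E2 → ℝ} (hh : LocallyIntegrable h volume) :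
    ∀ᵐ x, Tendsto (fun k => mol k h x) atTop (𝓝 (h x)) := by
  refine ContDiffBump.ae_convolution_tendsto_right_of_locallyIntegrable (φ := bmp) (K := 2)
    rOut_tend (Eventually.of_forall fun k => ?_) hh
  show 2 / ((k : ℝ) + 1) ≤ 2 * (1 / ((k : ℝ) + 1))
  exact le_of_eq (by ring)

theorem rho_int (k : ℕ) : Integrable (rho k) := (bmp k).integrable_normed

theorem rho_nn (k : ℕ) (x : E2) : 0 ≤ rho k x := (bmp k).nonneg_normed x

theorem mol_int (k : ℕ) {h : E2 → ℝ} (hh : Integrable h) : Integrable (mol k h) :=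
  (rho_int k).integrable_convolution (lsmul ℝ ℝ) hh

theorem mol_norm (k : ℕ) {h : E2 → ℝ} (hh : Integrable h) :
    ∫ x, ‖mol k h x‖ ≤ ∫ x, ‖h x‖ := by
  have h1 : ∫ x, mol k (fun y => ‖h y‖) x = ∫ x, ‖h x‖ := by
    have := integral_convolution (μ := (volume : Measure E2)) (ν := volume) (lsmul ℝ ℝ) (rho_int k)
      hh.norm
    unfold mol
    rw [this]
    have e : ∫ x, rho k x = 1 := (bmp k).integral_normed
    rw [e]
    simp
  rw [← h1]
  refine integral_mono (mol_int k hh).norm (mol_int k hh.norm) fun x => ?_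
  show ‖mol k h x‖ ≤ mol k (fun y => ‖h y‖) x
  unfold mol
  rw [convolution_def, convolution_def]
  refine (norm_integral_le_integral_norm _).trans (le_of_eq ?_)
  refine integral_congr_ae (Eventually.of_forall fun t => ?_)
  simp only [ContinuousLinearMap.lsmul_apply, smul_eq_mul, norm_mul, Real.norm_of_nonneg (rho_nn k t)]

theorem mol_sub (k : ℕ) {h g : E2 → ℝ} (hh : Integrable h) (hg : Integrable g) :
    ∀ᵐ x, mol k (fun y => h y - g y) x = mol k h x - mol k g x := by
  filter_upwards [(rho_int k).ae_convolution_exists (lsmul ℝ ℝ) hh,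
    (rho_int k).ae_convolution_exists (lsmul ℝ ℝ) hg] with x h1 h2
  unfold mol
  rw [convolution_def, convolution_def, convolution_def, ← integral_sub h1.integrable h2.integrable]
  refine integral_congr_ae (Eventually.of_forall fun t => ?_)
  simp only [ContinuousLinearMap.lsmul_apply, smul_eq_mul]
  ring

theorem l1_cont {g : E2 → ℝ} (hg : Continuous g) (hgc : HasCompactSupport g) :
    ∀ ε : ℝ, 0 < ε → ∀ᶠ k in atTop, ∫ x, ‖mol k g x - g x‖ ≤ ε := by
  intro ε hε
  obtain ⟨r, hr⟩ : ∃ r : ℝ, tsupport g ⊆ closedBall 0 r :=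
    hgc.isCompact.isBounded.subset_closedBall 0
  obtain ⟨V, hV⟩ : ∃ V : ℝ, V = volume.real (closedBall (0 : E2) (r + 2)) := ⟨_, rfl⟩
  have hV0 : 0 ≤ V := by rw [hV]; exact measureReal_nonneg
  have huc := hgc.uniformContinuous_of_continuous hg
  rw [Metric.uniformContinuous_iff] at huc
  obtain ⟨δ, hδ, hδ2⟩ := huc (ε / (V + 1)) (by positivity)
  have he1 : ∀ᶠ k in atTop, (bmp k).rOut < δ := rOut_tend.eventually_lt_const hδ
  have he2 : ∀ᶠ k in atTop, (bmp k).rOut < 1 := rOut_tend.eventually_lt_const one_pos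
  filter_upwards [he1, he2] with k hk1 hk2
  have hpt : ∀ x, ‖mol k g x - g x‖ ≤
      (closedBall (0 : E2) (r + 2)).indicator (fun _ => ε / (V + 1)) x := by
    intro x
    rw [← dist_eq_norm]
    by_cases hx : x ∈ closedBall (0 : E2) (r + 2)
    · rw [indicator_of_mem hx]
      refine ContDiffBump.dist_normed_convolution_le hg.aestronglyMeasurable fun y hy => ?_
      exact (hδ2 ((mem_ball.1 hy).trans hk1)).le
    · rw [indicator_of_notMem hx]
      refine ContDiffBump.dist_normed_convolution_le hg.aestronglyMeasurable fun y hy => ?_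
      have hz : ∀ z : E2, dist z x < 1 → g z = 0 := by
        intro z hz
        by_contra hne
        have h1 : z ∈ closedBall (0 : E2) r := hr (subset_tsupport g hne)
        apply hx
        rw [mem_closedBall] at h1 ⊢
        have := dist_triangle x z 0
        rw [dist_comm] at hz
        linarith
      rw [hz y ((mem_ball.1 hy).trans hk2), hz x (by rw [dist_self]; exact one_pos), dist_self]
  have hi : Integrable ((closedBall (0 : E2) (r + 2)).indicator (fun _ => ε / (V + 1))) := by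
    rw [integrable_indicator_iff measurableSet_closedBall]
    exact integrableOn_const measure_closedBall_lt_top.ne
  have hgi : Integrable g := hg.integrable_of_hasCompactSupport hgc
  refine (integral_mono ((mol_int k hgi).sub hgi).norm hi hpt).trans ?_
  rw [integral_indicator measurableSet_closedBall, setIntegral_const, ← hV, smul_eq_mul]
  rw [mul_div_assoc', div_le_iff₀ (by positivity)]
  nlinarith

theorem l1 {h : E2 → ℝ} (hh : Integrable h) :
    Tendsto (fun k => ∫ x, ‖mol k h x - h x‖) atTop (𝓝 0) := by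
  rw [Metric.tendsto_atTop']
  intro ε hε
  obtain ⟨g, hg1, hg2, hg3, hg4⟩ :=
    hh.exists_hasCompactSupport_integral_sub_le (ε := ε / 4) (by positivity)
  obtain ⟨k₀, hk₀⟩ := eventually_atTop.1 (l1_cont hg3 hg1 (ε / 4) (by positivity))
  refine ⟨k₀, fun k hk => ?_⟩
  have h1 := hk₀ k hk.le
  have h2 := mol_norm k (hh.sub hg4)
  have h2' : ∫ x, ‖mol k (fun y => h y - g y) x‖ ≤ ε / 4 := h2.trans hg2
  rw [Real.dist_eq, sub_zero, abs_of_nonneg (integral_nonneg fun _ => norm_nonneg _)]
  have hle : ∫ x, ‖mol k h x - h x‖ ≤ ∫ x, (‖mol k (fun y => h y - g y) x‖ +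
      ‖mol k g x - g x‖ + ‖h x - g x‖) := by
    refine integral_mono_ae ((mol_int k hh).sub hh).norm
      ((((mol_int k (hh.sub hg4)).norm).add ((mol_int k hg4).sub hg4).norm).add
        (hh.sub hg4).norm) ?_
    filter_upwards [mol_sub k hh hg4] with x hx
    rw [hx]
    have e : mol k h x - h x = (mol k h x - mol k g x) + (mol k g x - g x) - (h x - g x) := by ring
    rw [e]
    exact (norm_sub_le _ _).trans (add_le_add_left (norm_add_le _ _) _)
  have i1 : Integrable (fun x => ‖mol k (fun y => h y - g y) x‖) := (mol_int k (hh.sub hg4)).norm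
  have i2 : Integrable (fun x => ‖mol k g x - g x‖) := ((mol_int k hg4).sub hg4).norm
  have i3 : Integrable (fun x => ‖h x - g x‖) := (hh.sub hg4).norm
  have i12 : Integrable (fun x => ‖mol k (fun y => h y - g y) x‖ + ‖mol k g x - g x‖) := i1.add i2
  rw [integral_add i12 i3, integral_add i1 i2] at hle
  linarith

/-! ### derivatives -/

theorem rho_cs (k : ℕ) : HasCompactSupport (rho k) := (bmp k).hasCompactSupport_normed

theorem rho_cd (k : ℕ) : ContDiff ℝ (⊤ : ℕ∞) (rho k) := (bmp k).contDiff_normed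

theorem rho_ts (k : ℕ) : tsupport (rho k) = closedBall 0 (bmp k).rOut := (bmp k).tsupport_normed_eq

theorem mol_cd (k : ℕ) {h : E2 → ℝ} (hh : LocallyIntegrable h volume) :
    ContDiff ℝ (⊤ : ℕ∞) (mol k h) :=
  (rho_cs k).contDiff_convolution_left (lsmul ℝ ℝ) (rho_cd k) hh

theorem rho_fc (k : ℕ) : Continuous (fderiv ℝ (rho k)) :=
  (rho_cd k).continuous_fderiv (by simp)

theorem mol_deriv (k : ℕ) {h : E2 → ℝ} (hh : LocallyIntegrable h volume) (x v : E2) :
    fderiv ℝ (mol k h) x v = ∫ t, fderiv ℝ (rho k) (x - t) v * h t := by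
  have h1 := (rho_cs k).hasFDerivAt_convolution_left (lsmul ℝ ℝ) (bmp k).contDiff_normed hh x
  have h2 : fderiv ℝ (mol k h) x =
      (fderiv ℝ (rho k) ⋆[(lsmul ℝ ℝ).precompL E2, volume] h) x := h1.fderiv
  rw [h2, convolution_eq_swap]
  have h3 : ConvolutionExistsAt (fderiv ℝ (rho k)) h x ((lsmul ℝ ℝ).precompL E2) volume :=
    ((rho_cs k).fderiv ℝ).convolutionExists_left _ (rho_fc k) hh x
  have h4 := h3.integrable_swap
  rw [ContinuousLinearMap.integral_apply h4]
  refine integral_congr_ae (Eventually.of_forall fun t => ?_)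
  simp only [ContinuousLinearMap.precompL_apply, ContinuousLinearMap.lsmul_apply, smul_eq_mul]

theorem mol_weak {Ω : Set E2} (hΩ : IsOpen Ω) {u : E2 → ℝ} {G : E2 → E2} (hu : IsH1 Ω u G)
    (hUi : Integrable (Ω.indicator u)) (k : ℕ) (x : E2) (hx : closedBall x (bmp k).rOut ⊆ Ω)
    (i : Fin 2) :
    fderiv ℝ (mol k (Ω.indicator u)) x (EuclideanSpace.single i 1) =
      mol k (Ω.indicator fun y => G y i) x := by
  obtain ⟨v, hv⟩ : ∃ v : E2, v = EuclideanSpace.single i 1 := ⟨_, rfl⟩
  have hη1 : ContDiff ℝ (⊤ : ℕ∞) (fun t : E2 => rho k (x - t)) :=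
    (rho_cd k).comp (contDiff_const.sub contDiff_id)
  have hηd : ∀ t : E2, fderiv ℝ (fun t : E2 => rho k (x - t)) t v = -fderiv ℝ (rho k) (x - t) v := by
    intro t
    have h1 : HasFDerivAt (rho k) (fderiv ℝ (rho k) (x - t)) (x - t) :=
      ((rho_cd k).differentiable (by simp) (x - t)).hasFDerivAt
    have h2 : HasFDerivAt (fun t : E2 => x - t) (-ContinuousLinearMap.id ℝ E2) t :=
      (hasFDerivAt_id t).const_sub x
    have h3 := (h1.comp t h2).fderiv
    have h4 : (rho k ∘ fun t : E2 => x - t) = fun t : E2 => rho k (x - t) := rfl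
    rw [h4] at h3
    rw [h3]
    simp
  have hsub : tsupport (fun t : E2 => rho k (x - t)) ⊆ closedBall x (bmp k).rOut := by
    refine closure_minimal ?_ isClosed_closedBall
    intro t ht
    have h1 : x - t ∈ tsupport (rho k) := subset_tsupport _ ht
    rw [rho_ts, mem_closedBall, dist_zero_right] at h1
    rw [mem_closedBall, dist_comm, dist_eq_norm]
    exact h1
  have hηc : HasCompactSupport (fun t : E2 => rho k (x - t)) :=
    HasCompactSupport.of_support_subset_isCompact (isCompact_closedBall x (bmp k).rOut)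
      ((subset_tsupport _).trans hsub)
  have h5 := hu.2.2 _ hη1 hηc (hsub.trans hx) i
  rw [← hv] at h5
  simp only [hηd] at h5
  rw [← hv, mol_deriv k hUi.locallyIntegrable]
  have e1 : ∫ t, fderiv ℝ (rho k) (x - t) v * Ω.indicator u t =
      ∫ t in Ω, fderiv ℝ (rho k) (x - t) v * u t := by
    rw [← integral_indicator hΩ.measurableSet]
    refine integral_congr_ae (Eventually.of_forall fun t => ?_)
    by_cases ht : t ∈ Ω
    · simp [ht]
    · simp [ht]
  have e2 : mol k (Ω.indicator fun y => G y i) x = ∫ t in Ω, G t i * rho k (x - t) := by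
    unfold mol
    rw [convolution_eq_swap, ← integral_indicator hΩ.measurableSet]
    refine integral_congr_ae (Eventually.of_forall fun t => ?_)
    by_cases ht : t ∈ Ω
    · simp [ht, mul_comm]
    · simp [ht]
  rw [e1, e2]
  have e3 : ∫ t in Ω, u t * -fderiv ℝ (rho k) (x - t) v =
      -∫ t in Ω, fderiv ℝ (rho k) (x - t) v * u t := by
    rw [← integral_neg]
    refine integral_congr_ae (Eventually.of_forall fun t => ?_)
    simp only
    ring
  rw [e3] at h5
  exact neg_injective h5

/-- the chain rule for smooth functions -/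
theorem ibp {w : E2 → ℝ} (hw : ContDiff ℝ (⊤ : ℕ∞) w) {F : ℝ → ℝ} (hF : ContDiff ℝ 1 F)
    {ψ : E2 → ℝ} (hψ : ContDiff ℝ (⊤ : ℕ∞) ψ) (hψc : HasCompactSupport ψ) (v : E2) :
    ∫ x, F (w x) * fderiv ℝ ψ x v = -∫ x, deriv F (w x) * fderiv ℝ w x v * ψ x := by
  have hd : ∀ x, HasFDerivAt (fun x => F (w x)) (deriv F (w x) • fderiv ℝ w x) x := by
    intro x
    exact ((hF.differentiable (by simp) (w x)).hasDerivAt).comp_hasFDerivAt x
      (hw.differentiable (by simp) x).hasFDerivAt
  have hwc : Continuous w := hw.continuous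
  have hwf : Continuous (fderiv ℝ w) := hw.continuous_fderiv (by simp)
  have hFd : Continuous (deriv F) := hF.continuous_deriv (by simp)
  have hψf : Continuous (fderiv ℝ ψ) := hψ.continuous_fderiv (by simp)
  have hfe : ∀ x, fderiv ℝ (fun x => F (w x)) x v = deriv F (w x) * fderiv ℝ w x v := by
    intro x
    rw [(hd x).fderiv]
    simp
  have h := integral_mul_fderiv_eq_neg_fderiv_mul_of_integrable (μ := (volume : Measure E2))
    (f := fun x => F (w x)) (g := ψ) (v := v) ?_ ?_ ?_ (fun x _ => (hd x).differentiableAt)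
    (fun x _ => hψ.differentiable (by simp) x)
  · simp only [hfe] at h
    exact h
  · simp only [hfe]
    refine Continuous.integrable_of_hasCompactSupport ?_ (hψc.mul_left)
    exact ((hFd.comp hwc).mul (hwf.clm_apply continuous_const)).mul hψ.continuous
  · refine Continuous.integrable_of_hasCompactSupport ?_ (HasCompactSupport.mul_left ?_)
    · exact (hF.continuous.comp hwc).mul (hψf.clm_apply continuous_const)
    · exact (hψc.fderiv ℝ).comp_left (g := fun L : E2 →L[ℝ] ℝ => L v) (by simp)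
  · exact Continuous.integrable_of_hasCompactSupport ((hF.continuous.comp hwc).mul hψ.continuous)
      (hψc.mul_left)

theorem lip {F : ℝ → ℝ} {K : ℝ} (hF : ContDiff ℝ 1 F) (hK : ∀ t, |deriv F t| ≤ K) (s t : ℝ) :
    ‖F t - F s‖ ≤ K * ‖t - s‖ :=
  Convex.norm_image_sub_le_of_norm_deriv_le (s := univ)
    (fun x _ => hF.differentiable (by simp) x) (fun x _ => hK x) convex_univ (mem_univ _)
    (mem_univ _)

theorem F_le {F : ℝ → ℝ} {K : ℝ} (hF : ContDiff ℝ 1 F) (hK : ∀ t, |deriv F t| ≤ K) (t : ℝ) :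
    ‖F t‖ ≤ ‖F 0‖ + K * ‖t‖ := by
  have h := lip hF hK 0 t
  rw [sub_zero] at h
  have e : F t = F 0 + (F t - F 0) := by ring
  rw [e]
  exact (norm_add_le _ _).trans (by linarith)

theorem intF {F : ℝ → ℝ} {K : ℝ} (hF : ContDiff ℝ 1 F) (hK : ∀ t, |deriv F t| ≤ K) {U : E2 → ℝ}
    (hU : Integrable U) {D : E2 → ℝ} (hD : Continuous D) (hDc : HasCompactSupport D) {M : ℝ}
    (hM : ∀ x, ‖D x‖ ≤ M) : Integrable (fun x => F (U x) * D x) := by
  have hK0 : 0 ≤ K := (abs_nonneg _).trans (hK 0)
  have hDi : Integrable D := hD.integrable_of_hasCompactSupport hDc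
  refine Integrable.mono' (g := fun x => ‖F 0‖ * ‖D x‖ + K * M * ‖U x‖)
    ((hDi.norm.const_mul _).add (hU.norm.const_mul _))
    ((hF.continuous.comp_aestronglyMeasurable hU.1).mul hD.aestronglyMeasurable)
    (Eventually.of_forall fun x => ?_)
  rw [norm_mul]
  have h1 := F_le hF hK (U x)
  have h2 := hM x
  calc ‖F (U x)‖ * ‖D x‖ ≤ (‖F 0‖ + K * ‖U x‖) * ‖D x‖ := by gcongr
    _ = ‖F 0‖ * ‖D x‖ + K * ‖U x‖ * ‖D x‖ := by ring
    _ ≤ ‖F 0‖ * ‖D x‖ + K * ‖U x‖ * M := by gcongr
    _ = _ := by ring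

theorem lim1 {F : ℝ → ℝ} {K : ℝ} (hF : ContDiff ℝ 1 F) (hK : ∀ t, |deriv F t| ≤ K) {U : E2 → ℝ}
    (hU : Integrable U) {D : E2 → ℝ} (hD : Continuous D) (hDc : HasCompactSupport D) :
    Tendsto (fun k => ∫ x, F (mol k U x) * D x) atTop (𝓝 (∫ x, F (U x) * D x)) := by
  have hK0 : 0 ≤ K := (abs_nonneg _).trans (hK 0)
  obtain ⟨M, hM⟩ := hDc.exists_bound_of_continuous hD
  rw [tendsto_iff_norm_sub_tendsto_zero]
  have h0 := (l1 hU).const_mul (K * M)
  rw [mul_zero] at h0
  refine squeeze_zero (fun k => norm_nonneg _) (fun k => ?_) h0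
  rw [← integral_sub (intF hF hK (mol_int k hU) hD hDc hM) (intF hF hK hU hD hDc hM),
    ← integral_const_mul]
  refine norm_integral_le_of_norm_le (((mol_int k hU).sub hU).norm.const_mul _)
    (Eventually.of_forall fun x => ?_)
  rw [← sub_mul, norm_mul]
  have h1 := lip hF hK (U x) (mol k U x)
  have h2 := hM x
  calc ‖F (mol k U x) - F (U x)‖ * ‖D x‖ ≤ (K * ‖mol k U x - U x‖) * M := by gcongr
    _ = _ := by ring

theorem intD {F : ℝ → ℝ} {K : ℝ} (hF : ContDiff ℝ 1 F) (hK : ∀ t, |deriv F t| ≤ K) {U Γ : E2 → ℝ}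
    (hU : Integrable U) (hΓ : Integrable Γ) {D : E2 → ℝ} (hD : Continuous D) {M : ℝ}
    (hM : ∀ x, ‖D x‖ ≤ M) : Integrable (fun x => deriv F (U x) * Γ x * D x) := by
  have hK0 : 0 ≤ K := (abs_nonneg _).trans (hK 0)
  have hFd : Continuous (deriv F) := hF.continuous_deriv (by simp)
  refine Integrable.mono' (g := fun x => K * M * ‖Γ x‖) (hΓ.norm.const_mul _)
    (((hFd.comp_aestronglyMeasurable hU.1).mul hΓ.1).mul hD.aestronglyMeasurable)
    (Eventually.of_forall fun x => ?_)
  rw [norm_mul, norm_mul]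
  have h1 : ‖deriv F (U x)‖ ≤ K := hK _
  have h2 := hM x
  calc ‖deriv F (U x)‖ * ‖Γ x‖ * ‖D x‖ ≤ K * ‖Γ x‖ * M := by gcongr
    _ = _ := by ring

theorem lim2 {F : ℝ → ℝ} {K : ℝ} (hF : ContDiff ℝ 1 F) (hK : ∀ t, |deriv F t| ≤ K) {U Γ : E2 → ℝ}
    (hU : Integrable U) (hΓ : Integrable Γ) {D : E2 → ℝ} (hD : Continuous D)
    (hDc : HasCompactSupport D) :
    Tendsto (fun k => ∫ x, deriv F (mol k U x) * mol k Γ x * D x) atTop
      (𝓝 (∫ x, deriv F (U x) * Γ x * D x)) := by
  have hK0 : 0 ≤ K := (abs_nonneg _).trans (hK 0)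
  have hFd : Continuous (deriv F) := hF.continuous_deriv (by simp)
  obtain ⟨M, hM⟩ := hDc.exists_bound_of_continuous hD
  have hM0 : 0 ≤ M := (norm_nonneg _).trans (hM 0)
  -- first part
  have h1 : Tendsto (fun k => ∫ x, deriv F (mol k U x) * (mol k Γ x - Γ x) * D x) atTop (𝓝 0) := by
    rw [tendsto_zero_iff_norm_tendsto_zero]
    have h0 := (l1 hΓ).const_mul (K * M)
    rw [mul_zero] at h0
    refine squeeze_zero (fun k => norm_nonneg _) (fun k => ?_) h0
    rw [← integral_const_mul]
    refine norm_integral_le_of_norm_le (((mol_int k hΓ).sub hΓ).norm.const_mul _)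
      (Eventually.of_forall fun x => ?_)
    rw [norm_mul, norm_mul]
    have h1 : ‖deriv F (mol k U x)‖ ≤ K := hK _
    have h2 := hM x
    calc ‖deriv F (mol k U x)‖ * ‖mol k Γ x - Γ x‖ * ‖D x‖ ≤ K * ‖mol k Γ x - Γ x‖ * M := by gcongr
      _ = _ := by ring
  -- second part
  have h2 : Tendsto (fun k => ∫ x, deriv F (mol k U x) * Γ x * D x) atTop
      (𝓝 (∫ x, deriv F (U x) * Γ x * D x)) := by
    refine tendsto_integral_of_dominated_convergence (fun x => K * M * ‖Γ x‖)
      (fun k => (intD hF hK (mol_int k hU) hΓ hD hM).1) (hΓ.norm.const_mul _)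
      (fun k => Eventually.of_forall fun x => ?_) ?_
    · rw [norm_mul, norm_mul]
      have h1 : ‖deriv F (mol k U x)‖ ≤ K := hK _
      have h2 := hM x
      calc ‖deriv F (mol k U x)‖ * ‖Γ x‖ * ‖D x‖ ≤ K * ‖Γ x‖ * M := by gcongr
        _ = _ := by ring
    · filter_upwards [ae_conv hU.locallyIntegrable] with x hx
      exact (((hFd.tendsto _).comp hx).mul_const _).mul_const _
  have h3 := h1.add h2
  rw [zero_add] at h3
  refine h3.congr fun k => ?_
  rw [← integral_add]
  · refine integral_congr_ae (Eventually.of_forall fun x => ?_)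
    simp only
    ring
  · exact intD hF hK (mol_int k hU) ((mol_int k hΓ).sub hΓ) hD hM
  · exact intD hF hK (mol_int k hU) hΓ hD hM

end CHN

open CHN in
theorem pCHN : S_CHN := by
  intro Ω hΩ hb u G hu F K hF hK
  have hΩm := hΩ.measurableSet
  have hK0 : 0 ≤ K := (abs_nonneg _).trans (hK 0)
  have hFd : Continuous (deriv F) := hF.continuous_deriv (by simp)
  have hfin : IsFiniteMeasure (volume.restrict Ω : Measure E2) :=
    ⟨by rw [Measure.restrict_apply_univ]; exact hb.measure_lt_top⟩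
  refine ⟨?_, ?_, ?_⟩
  · have h0 : MemLp (fun x => K * ‖u x‖) 2 (volume.restrict Ω) := hu.1.norm.const_mul K
    have h00 : MemLp (fun _ : E2 => ‖F 0‖) 2 (volume.restrict Ω) := memLp_const _
    have h1 : MemLp (fun x => ‖F 0‖ + K * ‖u x‖) 2 (volume.restrict Ω) := h00.add h0
    have hm : AEStronglyMeasurable (fun x => F (u x)) (volume.restrict Ω) :=
      hF.continuous.comp_aestronglyMeasurable hu.1.1
    have hbd : ∀ᵐ x ∂(volume.restrict Ω : Measure E2), ‖F (u x)‖ ≤ ‖F 0‖ + K * ‖u x‖ :=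
      Eventually.of_forall fun x => F_le hF hK (u x)
    exact MemLp.mono' h1 hm hbd
  · have h1 : MemLp (fun x => K * ‖G x‖) 2 (volume.restrict Ω) := hu.2.1.norm.const_mul K
    have hm : AEStronglyMeasurable (fun x => deriv F (u x) • G x) (volume.restrict Ω) :=
      (hFd.comp_aestronglyMeasurable hu.1.1).smul hu.2.1.1
    have hbd : ∀ᵐ x ∂(volume.restrict Ω : Measure E2), ‖deriv F (u x) • G x‖ ≤ K * ‖G x‖ := by
      refine Eventually.of_forall fun x => ?_
      rw [norm_smul]
      have : ‖deriv F (u x)‖ ≤ K := hK _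
      gcongr
    exact MemLp.mono' h1 hm hbd
  · intro ψ hψ hψc hψs i
    obtain ⟨U, hU⟩ : ∃ U : E2 → ℝ, U = Ω.indicator u := ⟨_, rfl⟩
    obtain ⟨Γ, hΓ⟩ : ∃ Γ : E2 → ℝ, Γ = Ω.indicator (fun y => G y i) := ⟨_, rfl⟩
    obtain ⟨v, hv⟩ : ∃ v : E2, v = EuclideanSpace.single i 1 := ⟨_, rfl⟩
    have hUi : Integrable U := by
      rw [hU, integrable_indicator_iff hΩm]
      exact hu.1.integrable (by norm_num)
    have hΓi : Integrable Γ := by
      rw [hΓ, integrable_indicator_iff hΩm]
      have h1 : Integrable G (volume.restrict Ω) := hu.2.1.integrable (by norm_num)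
      exact (EuclideanSpace.proj (𝕜 := ℝ) i).integrable_comp h1
    rw [← hv]
    have hψf : Continuous (fderiv ℝ ψ) := hψ.continuous_fderiv (by simp)
    have hD : Continuous (fun x => fderiv ℝ ψ x v) := hψf.clm_apply continuous_const
    have hDc : HasCompactSupport (fun x => fderiv ℝ ψ x v) :=
      (hψc.fderiv ℝ).comp_left (g := fun L : E2 →L[ℝ] ℝ => L v) (by simp)
    have l1 := lim1 hF hK hUi hD hDc
    have l2 := (lim2 hF hK hUi hΓi hψ.continuous hψc).neg
    obtain ⟨δ, hδ, hδΩ⟩ := hψc.isCompact.exists_cthickening_subset_open hΩ hψs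
    have hev : ∀ᶠ k in atTop, ∫ x, F (mol k U x) * fderiv ℝ ψ x v =
        -∫ x, deriv F (mol k U x) * mol k Γ x * ψ x := by
      filter_upwards [rOut_tend.eventually_lt_const hδ] with k hk
      rw [ibp (mol_cd k hUi.locallyIntegrable) hF hψ hψc v]
      congr 1
      refine integral_congr_ae (Eventually.of_forall fun x => ?_)
      simp only
      by_cases hx : x ∈ tsupport ψ
      · have h1 : closedBall x (bmp k).rOut ⊆ Ω := by
          refine Subset.trans ?_ hδΩ
          exact (closedBall_subset_closedBall hk.le).trans (closedBall_subset_cthickening hx δ)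
        have h2 := mol_weak hΩ hu (by rw [← hU]; exact hUi) k x h1 i
        rw [← hU, ← hv, ← hΓ] at h2
        rw [h2]
      · rw [image_eq_zero_of_notMem_tsupport hx, mul_zero, mul_zero]
    have hlim := tendsto_nhds_unique (l1.congr' hev) l2
    have e1 : ∫ x in Ω, F (u x) * fderiv ℝ ψ x v = ∫ x, F (U x) * fderiv ℝ ψ x v := by
      have k1 : ∫ x in Ω, F (U x) * fderiv ℝ ψ x v = ∫ x, F (U x) * fderiv ℝ ψ x v := by
        refine setIntegral_eq_integral_of_forall_compl_eq_zero (fun x hx => ?_)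
        have h1 : x ∉ tsupport (fderiv ℝ ψ) := fun h => hx (hψs (tsupport_fderiv_subset ℝ h))
        rw [image_eq_zero_of_notMem_tsupport h1]
        simp
      rw [← k1]
      refine setIntegral_congr_fun hΩm fun x hx => ?_
      simp only [hU, indicator_of_mem hx]
    have e2 : ∫ x in Ω, (deriv F (u x) • G x) i * ψ x = ∫ x, deriv F (U x) * Γ x * ψ x := by
      have k1 : ∫ x in Ω, deriv F (U x) * Γ x * ψ x = ∫ x, deriv F (U x) * Γ x * ψ x := by
        refine setIntegral_eq_integral_of_forall_compl_eq_zero (fun x hx => ?_)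
        rw [image_eq_zero_of_notMem_tsupport (fun h => hx (hψs h)), mul_zero]
      rw [← k1]
      refine setIntegral_congr_fun hΩm fun x hx => ?_
      simp only [hU, hΓ, indicator_of_mem hx, PiLp.smul_apply, smul_eq_mul]
    rw [e1, e2]
    exact hlim

end Pool.Agent.T2H01.QI
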