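import Pool.Agent.T2H01.QI.Stm2

/-!
# QI package CMB: the main estimate
-/

set_option autoImplicit false
set_option maxHeartbeats 1000000

noncomputable section

open MeasureTheory Metric Set Filter Topology
open scoped NNReal ENNReal

namespace Pool.Agent.T2H01.QI

namespace CMB

lemma arith (r β b G Γ P D M F A B Q x κ : ℝ) (hr : 0 < r) (hβ : 0 < β) (hκ : 2 ≤ κ)
    (hx : 0 < x) (hΓ : 0 ≤ Γ) (hD : 0 ≤ D) (hM : 0 ≤ M) (hP : 2 * Real.pi * r ≤ P)
    (hQ : Q = (P - 2 * Real.pi * r) + (12 * D + 14 * M) / r)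
    (h1 : |A - x * r * G| ≤ 4 * x * D + 3 / 2 * (κ + 1) * x * M)
    (h2 : |B - (κ + 1) * x * G| ≤ 8 * (κ + 2) * (x / r) * D + 6 * (κ + 2) ^ 2 * (x / r) * M)
    (h3 : |F - B| ≤ 3 * x * Q)
    (h4 : |b * F - A| ≤ (3 * κ * (x / r) + 3 * β * x) * Γ)
    (hb1 : 5 * r / 12 ≤ b) (hb2 : b ≤ 7 * r / 12) :
    |G| ≤ 1000 * ((1 / r ^ 2 + β / r) * Γ + (P - 2 * Real.pi * r) + D / r + (κ + 2) * M / r) := by
  have hb0 : 0 < b := by linarith [mul_pos (by norm_num : (0 : ℝ) < 5) hr]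
  have hQ0 : 0 ≤ Q := by
    rw [hQ]
    have : 0 ≤ (12 * D + 14 * M) / r := by positivity
    linarith
  -- the combination
  have hcomb : x * G * (b * (κ + 1) - r) =
      (b * F - A) - b * (F - B) - b * (B - (κ + 1) * x * G) + (A - x * r * G) := by ring
  have hle : |x * G * (b * (κ + 1) - r)| ≤ (3 * κ * (x / r) + 3 * β * x) * Γ + b * (3 * x * Q) +
      b * (8 * (κ + 2) * (x / r) * D + 6 * (κ + 2) ^ 2 * (x / r) * M) +
      (4 * x * D + 3 / 2 * (κ + 1) * x * M) := by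
    rw [hcomb]
    have e1 := abs_add_le ((b * F - A) - b * (F - B) - b * (B - (κ + 1) * x * G)) (A - x * r * G)
    have e2 := abs_sub ((b * F - A) - b * (F - B)) (b * (B - (κ + 1) * x * G))
    have e3 := abs_sub (b * F - A) (b * (F - B))
    have e4 : |b * (F - B)| ≤ b * (3 * x * Q) := by
      rw [abs_mul, abs_of_pos hb0]
      exact mul_le_mul_of_nonneg_left h3 hb0.le
    have e5 : |b * (B - (κ + 1) * x * G)| ≤
        b * (8 * (κ + 2) * (x / r) * D + 6 * (κ + 2) ^ 2 * (x / r) * M) := by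
      rw [abs_mul, abs_of_pos hb0]
      exact mul_le_mul_of_nonneg_left h2 hb0.le
    linarith
  have hlow : r * (κ + 1) / 12 ≤ b * (κ + 1) - r := by nlinarith
  have hlow0 : 0 < r * (κ + 1) / 12 := by positivity
  have hG : x * |G| * (r * (κ + 1) / 12) ≤ |x * G * (b * (κ + 1) - r)| := by
    rw [abs_mul, abs_mul, abs_of_pos hx, abs_of_pos (lt_of_lt_of_le hlow0 hlow)]
    exact mul_le_mul_of_nonneg_left hlow (mul_nonneg hx.le (abs_nonneg _))
  have hup : (3 * κ * (x / r) + 3 * β * x) * Γ + b * (3 * x * Q) +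
      b * (8 * (κ + 2) * (x / r) * D + 6 * (κ + 2) ^ 2 * (x / r) * M) +
      (4 * x * D + 3 / 2 * (κ + 1) * x * M) ≤
      (3 * κ * (x / r) + 3 * β * x) * Γ + 7 * r / 12 * (3 * x * Q) +
      7 * r / 12 * (8 * (κ + 2) * (x / r) * D + 6 * (κ + 2) ^ 2 * (x / r) * M) +
      (4 * x * D + 3 / 2 * (κ + 1) * x * M) := by
    have e1 : b * (3 * x * Q) ≤ 7 * r / 12 * (3 * x * Q) :=
      mul_le_mul_of_nonneg_right hb2 (by positivity)
    have e2 : b * (8 * (κ + 2) * (x / r) * D + 6 * (κ + 2) ^ 2 * (x / r) * M) ≤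
        7 * r / 12 * (8 * (κ + 2) * (x / r) * D + 6 * (κ + 2) ^ 2 * (x / r) * M) :=
      mul_le_mul_of_nonneg_right hb2 (by positivity)
    linarith
  -- divide by x
  have hmain : x * (|G| * (r * (κ + 1))) ≤ x * (36 * (κ / r + β) * Γ + 21 * r * Q +
      56 * (κ + 2) * D + 42 * (κ + 2) ^ 2 * M + 48 * D + 18 * (κ + 1) * M) := by
    have e1 : 12 * (x * |G| * (r * (κ + 1) / 12)) = x * (|G| * (r * (κ + 1))) := by ring
    have e2 : 12 * ((3 * κ * (x / r) + 3 * β * x) * Γ + 7 * r / 12 * (3 * x * Q) +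
      7 * r / 12 * (8 * (κ + 2) * (x / r) * D + 6 * (κ + 2) ^ 2 * (x / r) * M) +
      (4 * x * D + 3 / 2 * (κ + 1) * x * M)) = x * (36 * (κ / r + β) * Γ + 21 * r * Q +
      56 * (κ + 2) * D + 42 * (κ + 2) ^ 2 * M + 48 * D + 18 * (κ + 1) * M) := by
      field_simp
      ring
    rw [← e1, ← e2]
    linarith
  have hmain2 := le_of_mul_le_mul_left hmain hx
  have hrQ : r * Q = r * (P - 2 * Real.pi * r) + 12 * D + 14 * M := by
    rw [hQ]
    field_simp
    ring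
  have htar : 36 * (κ / r + β) * Γ + 21 * r * Q +
      56 * (κ + 2) * D + 42 * (κ + 2) ^ 2 * M + 48 * D + 18 * (κ + 1) * M ≤
      (r * (κ + 1)) * (1000 * ((1 / r ^ 2 + β / r) * Γ + (P - 2 * Real.pi * r) + D / r +
        (κ + 2) * M / r)) := by
    have e1 : (r * (κ + 1)) * (1000 * ((1 / r ^ 2 + β / r) * Γ + (P - 2 * Real.pi * r) + D / r +
        (κ + 2) * M / r)) = 1000 * (κ + 1) * ((1 / r + β) * Γ) +
          1000 * (κ + 1) * (r * (P - 2 * Real.pi * r)) + 1000 * (κ + 1) * D +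
          1000 * ((κ + 1) * (κ + 2)) * M := by
      have q1 : r * (1 / r ^ 2) = 1 / r := by field_simp
      have q2 : r * (β / r) = β := by field_simp
      have q3 : r * (D / r) = D := by field_simp
      have q4 : r * ((κ + 2) * M / r) = (κ + 2) * M := by field_simp
      linear_combination 1000 * (κ + 1) * Γ * q1 + 1000 * (κ + 1) * Γ * q2 +
        1000 * (κ + 1) * q3 + 1000 * (κ + 1) * q4
    rw [e1]
    have e2 : 36 * (κ / r + β) * Γ ≤ 1000 * (κ + 1) * ((1 / r + β) * Γ) := by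
      have g1 : 36 * (κ / r + β) ≤ 1000 * (κ + 1) * (1 / r + β) := by
        have g2 : κ / r = κ * (1 / r) := by ring
        rw [g2]
        have g3 : 0 < 1 / r := by positivity
        nlinarith [mul_pos (by linarith : (0 : ℝ) < κ) g3, mul_pos (by linarith : (0 : ℝ) < κ) hβ]
      calc 36 * (κ / r + β) * Γ ≤ (1000 * (κ + 1) * (1 / r + β)) * Γ :=
            mul_le_mul_of_nonneg_right g1 hΓ
        _ = 1000 * (κ + 1) * ((1 / r + β) * Γ) := by ring
    have e3 : 21 * r * Q = 21 * (r * (P - 2 * Real.pi * r)) + 252 * D + 294 * M := by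
      have : 21 * r * Q = 21 * (r * Q) := by ring
      rw [this, hrQ]
      ring
    rw [e3]
    have hPr : 0 ≤ r * (P - 2 * Real.pi * r) := mul_nonneg hr.le (by linarith)
    have e4 : 21 * (r * (P - 2 * Real.pi * r)) ≤ 1000 * (κ + 1) * (r * (P - 2 * Real.pi * r)) :=
      mul_le_mul_of_nonneg_right (by linarith) hPr
    have e5 : (252 + 56 * (κ + 2) + 48) * D ≤ 1000 * (κ + 1) * D :=
      mul_le_mul_of_nonneg_right (by linarith) hD
    have e6 : (294 + 42 * (κ + 2) ^ 2 + 18 * (κ + 1)) * M ≤ 1000 * ((κ + 1) * (κ + 2)) * M :=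
      mul_le_mul_of_nonneg_right (by nlinarith) hM
    linarith
  have hfin := le_trans hmain2 htar
  have hpos : 0 < r * (κ + 1) := by positivity
  rw [mul_comm] at hfin
  exact le_of_mul_le_mul_left hfin hpos

lemma pow_bd (r ϱ : ℝ) (k j : ℕ) (hr : 0 < r) (hϱ0 : 0 ≤ ϱ) (hj : j ≤ k)
    (hϱ : ϱ ≤ r + r / (k + 4)) : ϱ ^ j ≤ 3 * r ^ j := by
  have h1 : ϱ ≤ r * Real.exp (1 / ((k : ℝ) + 4)) := by
    have h2 := Real.add_one_le_exp (1 / ((k : ℝ) + 4))
    have h3 : r + r / ((k : ℝ) + 4) = r * (1 / ((k : ℝ) + 4) + 1) := by ring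
    rw [h3] at hϱ
    exact le_trans hϱ (mul_le_mul_of_nonneg_left h2 hr.le)
  have h2 : ϱ ^ j ≤ (r * Real.exp (1 / ((k : ℝ) + 4))) ^ j := pow_le_pow_left₀ hϱ0 h1 j
  have h3 : (r * Real.exp (1 / ((k : ℝ) + 4))) ^ j = r ^ j * Real.exp ((j : ℝ) * (1 / ((k : ℝ) + 4))) := by
    rw [mul_pow, ← Real.exp_nat_mul]
  have h4 : (j : ℝ) * (1 / ((k : ℝ) + 4)) ≤ 1 := by
    have hk : (j : ℝ) ≤ (k : ℝ) := by exact_mod_cast hj
    have hk0 : (0 : ℝ) < (k : ℝ) + 4 := by positivity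
    rw [mul_one_div, div_le_one hk0]
    linarith
  have h5 : Real.exp ((j : ℝ) * (1 / ((k : ℝ) + 4))) ≤ 3 := by
    have := Real.exp_le_exp.2 h4
    have h6 := Real.exp_one_lt_d9
    linarith
  rw [h3] at h2
  have h7 : r ^ j * Real.exp ((j : ℝ) * (1 / ((k : ℝ) + 4))) ≤ r ^ j * 3 :=
    mul_le_mul_of_nonneg_left h5 (by positivity)
  linarith

end CMB

open CMB in
theorem pCMB (hPERF : S_PERF) (hGE0 : S_GE0) (hGE1 : S_GE1) (hDM : S_DM) (hSO : S_SO) (hMO : S_MO)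
    (hBDY : S_BDY) (hKEY : S_KEY) : S_CMB := by
  intro Ω hΩ hcon β c₀ hβ u hu hc0 hr hbc k c hk hc hsq
  have hper := hPERF Ω hΩ
  have hopen := hΩ.1
  have hbdd := hΩ.2.1
  have hne : Ω.Nonempty := hcon.nonempty
  obtain ⟨-, -, hg0, -⟩ := hGE0 Ω hbdd hne
  have hge1 := hGE1 Ω hΩ hcon hper
  obtain ⟨hM0, hMD, -⟩ := hDM Ω hopen hbdd hne
  obtain ⟨hΓ, hkey⟩ := hKEY Ω hΩ β c₀ hβ u hu hc0
  obtain ⟨G', g', ν, hν, -⟩ := hu
  have hMO1 := hMO Ω hopen hbdd hne hr k c hc hsq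
  have hk2 : (2 : ℝ) ≤ (k : ℝ) := by exact_mod_cast hk
  have hD0 : 0 ≤ Real.pi * mr Ω ^ 2 - volume.real Ω := by linarith
  have hs0 := Real.sqrt_nonneg (Real.pi * mr Ω ^ 2 - volume.real Ω)
  have hsq30 : 30 * Real.sqrt (Real.pi * mr Ω ^ 2 - volume.real Ω) ≤ mr Ω :=
    le_trans (mul_le_mul_of_nonneg_right (by linarith) hs0) hsq
  have hMO0 := hMO Ω hopen hbdd hne hr 0 1 (by simp) (by
    push_cast
    linarith)
  obtain ⟨-, -, hball⟩ := hSO Ω hopen hbdd hne (by linarith)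
  have hB := fun ϱ h1 h2 => hBDY Ω ν hopen hbdd hper hν (ctr Ω) (mr Ω) ϱ hr h1 h2 k c hc
  set r := mr Ω with hrdef
  set D := Real.pi * r ^ 2 - volume.real Ω with hD
  set a := ctr Ω with ha
  have hϱ2 : r + 5 * Real.sqrt D ≤ 2 * r := by linarith
  have hϱ0 : 0 < r + 5 * Real.sqrt D := by linarith
  have hϱk : r + 5 * Real.sqrt D ≤ r + r / (k + 4) := by
    have hk0 : (0 : ℝ) < (k : ℝ) + 4 := by linarith
    have : 5 * Real.sqrt D ≤ r / (k + 4) := by
      rw [le_div_iff₀ hk0]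
      linarith
    linarith
  have hb := hB (r + 5 * Real.sqrt D) hϱ2 hball
  have hke := hkey k c a (r + 5 * Real.sqrt D) hc hϱ0 hball
  have hpk := pow_bd r (r + 5 * Real.sqrt D) k k hr hϱ0.le le_rfl hϱk
  have hpk1 := pow_bd r (r + 5 * Real.sqrt D) k (k - 1) hr hϱ0.le (Nat.sub_le _ _) hϱk
  have hrk : r ^ (k - 1) = r ^ k / r := by
    rw [eq_div_iff hr.ne', pow_sub_one_mul (by omega)]
  have hk0 : k ≠ 0 := by omega
  -- first moment
  have m1 := hMO1 1 0 1 (by intro s _ _; norm_num)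
  -- second moment
  have m2 := hMO1 ((3 * k / 2 + 3) / r) (-(k / 2 + 2) / r ^ 3) (2 * (k + 2) / r) (by
    intro s hs0 hs1
    have e1 : (3 * (k : ℝ) / 2 + 3) / r + -((k : ℝ) / 2 + 2) / r ^ 3 * s ^ 2 =
        ((3 * (k : ℝ) / 2 + 3) - ((k : ℝ) / 2 + 2) * (s / r) ^ 2) / r := by
      field_simp
      ring
    have e2 : 0 ≤ s / r := by positivity
    have e3 : s / r ≤ 5 / 4 := by
      rw [div_le_iff₀ hr]
      linarith
    have e4 : (s / r) ^ 2 ≤ 25 / 16 := by nlinarith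
    have e5 : 0 ≤ (s / r) ^ 2 := sq_nonneg _
    have e6 : ((k : ℝ) / 2 + 2) * (s / r) ^ 2 ≤ ((k : ℝ) / 2 + 2) * (25 / 16) :=
      mul_le_mul_of_nonneg_left e4 (by linarith)
    have e7 : 0 ≤ ((k : ℝ) / 2 + 2) * (s / r) ^ 2 := mul_nonneg (by linarith) e5
    rw [e1, abs_le]
    constructor
    · rw [neg_le_iff_add_nonneg, ← add_div]
      refine div_nonneg ?_ hr.le
      linarith
    · refine div_le_div_of_nonneg_right ?_ hr.le
      linarith)
  have m0 := hMO0 (3 / r) (-(2 / r ^ 3)) (3 / r) (by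
    intro s hs0 hs1
    have e1 : 3 / r + -(2 / r ^ 3) * s ^ 2 = (3 - 2 * (s / r) ^ 2) / r := by
      field_simp
      ring
    have e2 : 0 ≤ s / r := by positivity
    have e3 : s / r ≤ 5 / 4 := by
      rw [div_le_iff₀ hr]
      linarith
    have e4 : (s / r) ^ 2 ≤ 25 / 16 := by nlinarith
    have e5 : 0 ≤ (s / r) ^ 2 := sq_nonneg _
    rw [e1, abs_le]
    constructor
    · rw [neg_le_iff_add_nonneg, ← add_div]
      refine div_nonneg ?_ hr.le
      linarith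
    · refine div_le_div_of_nonneg_right ?_ hr.le
      linarith)
  have hx : 0 < r ^ k := by positivity
  set M := MM Ω with hM
  set G := cf (gg Ω) k c with hG
  set P := (per Ω).toReal with hP
  set Γ := volume.real Ω / β - c₀ * P with hΓd
  set A := ∫ x in Ω, hp k c a x with hA
  set F := ∫ x in frontier Ω, hp k c a x ∂μH[1] with hF
  set B := ∫ x in Ω, hp k c a x * ((3 * k / 2 + 3) / r + (-(k / 2 + 2) / r ^ 3) * ‖x - a‖ ^ 2)
    with hBd
  set C0 := ∫ x in Ω, (3 / r - 2 / r ^ 3 * ‖x - a‖ ^ 2) with hC0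
  have n1 : |A - r ^ k * r * G| ≤ 4 * r ^ k * D + 3 / 2 * ((k : ℝ) + 1) * r ^ k * M := by
    have h := m1
    simp only [zero_mul, add_zero, mul_one, if_neg hk0, sub_zero, abs_one, abs_zero, mul_zero] at h
    rw [pow_succ] at h
    refine le_trans h (le_of_eq ?_)
    ring
  have n2 : |B - ((k : ℝ) + 1) * r ^ k * G| ≤ 8 * ((k : ℝ) + 2) * (r ^ k / r) * D +
      6 * ((k : ℝ) + 2) ^ 2 * (r ^ k / r) * M := by
    have h := m2
    rw [if_neg hk0, sub_zero] at h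
    have e1 : r ^ (k + 1) * ((3 * (k : ℝ) / 2 + 3) / r + -((k : ℝ) / 2 + 2) / r ^ 3 * r ^ 2) =
        ((k : ℝ) + 1) * r ^ k := by
      rw [pow_succ]
      field_simp
      ring
    rw [e1] at h
    have e2 : |(3 * (k : ℝ) / 2 + 3) / r| = (3 * (k : ℝ) / 2 + 3) / r := abs_of_pos (by positivity)
    have e3 : |-((k : ℝ) / 2 + 2) / r ^ 3| = ((k : ℝ) / 2 + 2) / r ^ 3 := by
      rw [neg_div, abs_neg]
      exact abs_of_pos (by positivity)
    rw [e2, e3] at h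
    have e4 : 3 / 2 * r ^ k * (((k : ℝ) + 1) * ((3 * (k : ℝ) / 2 + 3) / r) +
        ((k : ℝ) + 3) * (((k : ℝ) / 2 + 2) / r ^ 3) * r ^ 2) * M =
        3 / 2 * (2 * (k : ℝ) ^ 2 + 8 * k + 9) * (r ^ k / r * M) := by
      field_simp
      ring
    rw [e4] at h
    have e5 : 3 / 2 * (2 * (k : ℝ) ^ 2 + 8 * k + 9) * (r ^ k / r * M) ≤
        6 * ((k : ℝ) + 2) ^ 2 * (r ^ k / r * M) :=
      mul_le_mul_of_nonneg_right (by nlinarith) (by positivity)
    have e6 : 4 * r ^ k * (2 * ((k : ℝ) + 2) / r) * D = 8 * ((k : ℝ) + 2) * (r ^ k / r) * D := by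
      ring
    rw [e6] at h
    linarith
  have n0 : P - C0 ≤ (P - 2 * Real.pi * r) + (12 * D + 14 * M) / r := by
    have h := m0
    rw [hg0 1, mul_zero, sub_zero, if_pos rfl] at h
    have e1 : ∫ x in Ω, hp 0 1 a x * (3 / r + -(2 / r ^ 3) * ‖x - a‖ ^ 2) = C0 := by
      rw [hC0]
      refine integral_congr_ae (Eventually.of_forall fun x => ?_)
      simp only [hp, pow_zero, mul_one, Complex.one_re]
      ring
    rw [e1] at h
    have e2 : 2 * Real.pi * (1 : ℂ).re * (3 / r * r ^ 2 / 2 + -(2 / r ^ 3) * r ^ 4 / 4) =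
        2 * Real.pi * r := by
      rw [Complex.one_re]
      field_simp
      ring
    rw [e2] at h
    have e3 : |3 / r| = 3 / r := abs_of_pos (by positivity)
    have e4 : |-(2 / r ^ 3)| = 2 / r ^ 3 := by
      rw [abs_neg]
      exact abs_of_pos (by positivity)
    rw [e3, e4] at h
    have e5 : 4 * r ^ 0 * (3 / r) * D + 3 / 2 * r ^ 0 * ((((0 : ℕ) : ℝ) + 1) * (3 / r) +
        (((0 : ℕ) : ℝ) + 3) * (2 / r ^ 3) * r ^ 2) * M = (12 * D + 27 / 2 * M) / r := by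
      push_cast
      field_simp
      ring
    rw [e5] at h
    have h2 := (abs_le.1 h).1
    have e6 : (12 * D + 27 / 2 * M) / r ≤ (12 * D + 14 * M) / r :=
      div_le_div_of_nonneg_right (by linarith) hr.le
    linarith
  have hQ0 : 0 ≤ (P - 2 * Real.pi * r) + (12 * D + 14 * M) / r := by
    have : 0 ≤ (12 * D + 14 * M) / r := by positivity
    linarith
  have n3 : |F - B| ≤ 3 * r ^ k * ((P - 2 * Real.pi * r) + (12 * D + 14 * M) / r) := by
    refine le_trans hb ?_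
    refine le_trans (mul_le_mul_of_nonneg_left n0 (by positivity)) ?_
    exact mul_le_mul_of_nonneg_right hpk hQ0
  have n4 : |β * c₀ * F - A| ≤ (3 * (k : ℝ) * (r ^ k / r) + 3 * β * r ^ k) * Γ := by
    refine le_trans hke (mul_le_mul_of_nonneg_right ?_ hΓ)
    rw [← hrk]
    have g1 : (k : ℝ) * (r + 5 * Real.sqrt D) ^ (k - 1) ≤ (k : ℝ) * (3 * r ^ (k - 1)) :=
      mul_le_mul_of_nonneg_left hpk1 (by linarith)
    have g2 : β * (r + 5 * Real.sqrt D) ^ k ≤ β * (3 * r ^ k) :=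
      mul_le_mul_of_nonneg_left hpk hβ.le
    linarith
  have hb' := abs_le.1 hbc
  exact arith r β (β * c₀) G Γ P D M F A B _ (r ^ k) k hr hβ hk2 hx hΓ hD0 hM0 hge1 rfl n1 n2 n3 n4
    (by linarith [hb'.1]) (by linarith [hb'.2])

end Pool.Agent.T2H01.QI
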