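import Pool.Agent.T2H01.QI.Stm

/-! # Package CMP: components of Lipschitz sets -/

set_option autoImplicit false

noncomputable section

open MeasureTheory Metric Set Filter Topology
open scoped NNReal ENNReal

namespace Pool.Agent.T2H01.QI

namespace CMP

lemma notMem {Ω : Set E2} (hO : IsOpen Ω) {z x : E2}
    (hx : x ∈ frontier (connectedComponentIn Ω z)) : x ∉ Ω := by
  intro hxΩ
  have hCo : IsOpen (connectedComponentIn Ω z) := hO.connectedComponentIn
  have hDo : IsOpen (connectedComponentIn Ω x) := hO.connectedComponentIn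
  rw [hCo.frontier_eq, Set.mem_diff] at hx
  obtain ⟨w, hw1, hw2⟩ := mem_closure_iff.mp hx.1 _ hDo (mem_connectedComponentIn hxΩ)
  have e1 := connectedComponentIn_eq hw1
  have e2 := connectedComponentIn_eq hw2
  apply hx.2
  rw [e2, ← e1]
  exact mem_connectedComponentIn hxΩ

lemma front {Ω : Set E2} (hO : IsOpen Ω) (z : E2) :
    frontier (connectedComponentIn Ω z) ⊆ frontier Ω := by
  intro x hx
  rw [hO.frontier_eq, Set.mem_diff]
  exact ⟨closure_mono (connectedComponentIn_subset Ω z) (frontier_subset_closure hx),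
    notMem hO hx⟩

lemma near (hLOC : S_LOC) {Ω : Set E2} (hΩ : IsLip Ω) {x : E2} (hx : x ∈ frontier Ω) :
    ∃ ρ : ℝ, 0 < ρ ∧ ∀ z : E2, x ∈ frontier (connectedComponentIn Ω z) →
      ball x ρ ∩ Ω ⊆ connectedComponentIn Ω z := by
  obtain ⟨ρ, hρ, z', hz', hsub⟩ := hLOC Ω hΩ x hx
  refine ⟨ρ, hρ, fun z hz => ?_⟩
  obtain ⟨w, hw1, hw2⟩ := mem_closure_iff.mp (frontier_subset_closure hz) _ isOpen_ball
    (mem_ball_self hρ)
  have e1 := connectedComponentIn_eq (hsub ⟨hw1, connectedComponentIn_subset Ω z hw2⟩)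
  have e2 := connectedComponentIn_eq hw2
  rw [e2, ← e1]
  exact hsub

end CMP

open CMP

theorem pCMP (hLOC : S_LOC) : S_CMP := by
  intro Ω hΩ z hz
  have hO := hΩ.1
  have hCo : IsOpen (connectedComponentIn Ω z) := hO.connectedComponentIn
  refine ⟨⟨hCo, hΩ.2.1.subset (connectedComponentIn_subset Ω z), ?_⟩,
    isConnected_connectedComponentIn_iff.mpr hz, front hO z, ?_⟩
  · intro x hx
    obtain ⟨e, r, f, hr, hK, hch⟩ := hΩ.2.2 x (front hO z hx)
    obtain ⟨ρ, hρ, hsub⟩ := near hLOC hΩ (front hO z hx)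
    refine ⟨e, min r ρ, f, lt_min hr hρ, hK, fun y hy => ?_⟩
    have hy1 : dist y x < r := lt_of_lt_of_le hy (min_le_left _ _)
    have hy2 : dist y x < ρ := lt_of_lt_of_le hy (min_le_right _ _)
    rw [← hch y hy1]
    exact ⟨fun h => connectedComponentIn_subset Ω z h, fun h => hsub z hx ⟨hy2, h⟩⟩
  · intro w _ hne
    rw [Set.disjoint_left]
    intro x hx1 hx2
    obtain ⟨ρ, hρ, hsub⟩ := near hLOC hΩ (front hO z hx2)
    obtain ⟨v, hv1, hv2⟩ := mem_closure_iff.mp (frontier_subset_closure hx1) _ isOpen_ball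
      (mem_ball_self hρ)
    have hvΩ : v ∈ Ω := connectedComponentIn_subset Ω w hv2
    have e1 := connectedComponentIn_eq (hsub z hx2 ⟨hv1, hvΩ⟩)
    have e2 := connectedComponentIn_eq hv2
    exact hne (e2.trans e1.symm)

end Pool.Agent.T2H01.QI
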