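import Pool.Agent.T2H01.QI.Stm2

/-!
# Package CONN: the connected case
-/

set_option autoImplicit false

noncomputable section

open MeasureTheory Metric Set Filter Topology
open scoped NNReal ENNReal

namespace Pool.Agent.T2H01.QI

namespace CONN

lemma dir_add_pi (θ : ℝ) : dir (θ + Real.pi) = -dir θ := by
  ext i
  fin_cases i <;> simp [dir, Real.cos_add_pi, Real.sin_add_pi]

lemma bdd {Ω : Set E2} (hb : Bornology.IsBounded Ω) (n : E2) :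
    BddAbove ((fun x : E2 => inner ℝ x n) '' Ω) := by
  obtain ⟨R, hR⟩ := hb.exists_norm_le
  refine ⟨R * ‖n‖, ?_⟩
  rintro _ ⟨x, hx, rfl⟩
  exact (real_inner_le_norm x n).trans (mul_le_mul_of_nonneg_right (hR x hx) (norm_nonneg n))

lemma hs_add_neg {Ω : Set E2} (hb : Bornology.IsBounded Ω) (hne : Ω.Nonempty) (n : E2) :
    0 ≤ hs Ω n + hs Ω (-n) := by
  obtain ⟨x, hx⟩ := hne
  have h1 : inner ℝ x n ≤ hs Ω n := le_csSup (bdd hb n) ⟨x, hx, rfl⟩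
  have h2 : inner ℝ x (-n) ≤ hs Ω (-n) := le_csSup (bdd hb (-n)) ⟨x, hx, rfl⟩
  rw [inner_neg_right] at h2
  linarith

lemma mr_nonneg {Ω : Set E2} (hb : Bornology.IsBounded Ω) (hne : Ω.Nonempty) : 0 ≤ mr Ω := by
  unfold mr
  refine div_nonneg ?_ (by positivity)
  by_cases hi : IntervalIntegrable (fun θ => hs Ω (dir θ)) volume 0 (2 * Real.pi)
  · have hp := Real.pi_pos
    have h1 : IntervalIntegrable (fun θ => hs Ω (dir θ)) volume 0 Real.pi :=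
      hi.mono_set (by
        rw [uIcc_of_le hp.le, uIcc_of_le (by linarith)]
        exact Icc_subset_Icc le_rfl (by linarith))
    have h2 : IntervalIntegrable (fun θ => hs Ω (dir θ)) volume Real.pi (2 * Real.pi) :=
      hi.mono_set (by
        rw [uIcc_of_le (by linarith), uIcc_of_le (by linarith)]
        exact Icc_subset_Icc hp.le le_rfl)
    rw [← intervalIntegral.integral_add_adjacent_intervals h1 h2]
    have h3 : ∫ θ in Real.pi..(2 * Real.pi), hs Ω (dir θ) =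
        ∫ θ in (0 : ℝ)..Real.pi, hs Ω (dir (θ + Real.pi)) := by
      rw [intervalIntegral.integral_comp_add_right (fun θ => hs Ω (dir θ))]
      congr 1 <;> ring
    have h4 : IntervalIntegrable (fun θ => hs Ω (dir (θ + Real.pi))) volume 0 Real.pi := by
      have h5 := h2.comp_add_right Real.pi
      have e1 : Real.pi - Real.pi = 0 := by ring
      have e2 : 2 * Real.pi - Real.pi = Real.pi := by ring
      rw [e1, e2] at h5
      exact h5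
    rw [h3, ← intervalIntegral.integral_add h1 h4]
    refine intervalIntegral.integral_nonneg hp.le fun θ _ => ?_
    rw [dir_add_pi]
    exact hs_add_neg hb hne (dir θ)
  · rw [intervalIntegral.integral_undef hi]

lemma bounds {β ρ r P c₀ δ D Γ : ℝ} (hβ : 0 < β) (hρ : 0 < ρ) (hr : 0 ≤ r)
    (hD : D = Real.pi * r ^ 2 - Real.pi * ρ ^ 2) (hD0 : 0 ≤ D) (h1 : 2 * Real.pi * r ≤ P)
    (hΓ : Γ = Real.pi * ρ ^ 2 / β - c₀ * P) (hΓ0 : 0 ≤ Γ) (hδ : 0 < δ)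
    (hc : ρ / (2 * β) - c₀ ≤ δ) (hs : 2000 * β * δ ≤ ρ) :
    ρ ≤ r ∧ r ≤ ρ + 4 * (β * δ) ∧ P ≤ 2 * Real.pi * ρ + 8 * Real.pi * (β * δ) ∧
      Γ ≤ 2 * Real.pi * ρ * δ ∧ |β * c₀ - r / 2| ≤ r / 12 ∧ D ≤ 12 * Real.pi * ρ * (β * δ) ∧
      25 * D < r ^ 2 := by
  have hp := Real.pi_pos
  have hp4 := Real.pi_lt_four
  set p := Real.pi with hpdef
  obtain ⟨x, hx⟩ : ∃ x, x = β * δ := ⟨_, rfl⟩
  have hx0 : 0 < x := hx ▸ mul_pos hβ hδ
  have hxs : 2000 * x ≤ ρ := by rw [hx]; linarith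
  rw [← hx]
  have hρr : ρ ≤ r := by
    by_contra h
    push Not at h
    have : r ^ 2 < ρ ^ 2 := by nlinarith
    nlinarith
  obtain ⟨b, hb⟩ : ∃ b, b = β * c₀ := ⟨_, rfl⟩
  have hb1 : ρ / 2 - x ≤ b := by
    have h := mul_le_mul_of_nonneg_left hc hβ.le
    have e : β * (ρ / (2 * β) - c₀) = ρ / 2 - β * c₀ := by field_simp
    rw [e, ← hb, ← hx] at h
    linarith
  have hb0 : 0 < b := by linarith
  have hc0 : 0 < c₀ := by
    by_contra h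
    push Not at h
    have : b ≤ 0 := by rw [hb]; exact mul_nonpos_of_nonneg_of_nonpos hβ.le h
    linarith
  have hP0 : 0 ≤ P := le_trans (by positivity) h1
  have hbP : b * P ≤ p * ρ ^ 2 := by
    have h := mul_nonneg hβ.le hΓ0
    rw [hΓ] at h
    have e : β * (p * ρ ^ 2 / β - c₀ * P) = p * ρ ^ 2 - b * P := by
      rw [hb]; field_simp
    rw [e] at h
    linarith
  have hPρ : 2 * p * ρ ≤ P := le_trans (by nlinarith) h1
  have hP : P ≤ 2 * p * ρ + 8 * p * x := by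
    by_contra h
    push Not at h
    have h2 : (ρ / 2 - x) * P ≤ b * P := mul_le_mul_of_nonneg_right hb1 hP0
    have h3 : (ρ / 2 - x) * (2 * p * ρ + 8 * p * x) < (ρ / 2 - x) * P :=
      mul_lt_mul_of_pos_left h (by linarith)
    have h4 : 0 ≤ p * x * (ρ - 4 * x) := by
      refine mul_nonneg (by positivity) (by linarith)
    nlinarith
  have hb2 : b ≤ ρ / 2 := by
    have h2 : b * (2 * p * ρ) ≤ b * P := mul_le_mul_of_nonneg_left hPρ hb0.le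
    have h3 : (2 * p * ρ) * b ≤ (2 * p * ρ) * (ρ / 2) := by nlinarith
    exact le_of_mul_le_mul_left h3 (by positivity)
  have hr2 : r ≤ ρ + 4 * x := by
    have h2 : (2 * p) * r ≤ (2 * p) * (ρ + 4 * x) := by nlinarith
    exact le_of_mul_le_mul_left h2 (by positivity)
  have hDle : D ≤ 12 * p * ρ * x := by
    have h2 : (r - ρ) * (r + ρ) ≤ (4 * x) * (3 * ρ) :=
      mul_le_mul (by linarith) (by linarith) (by linarith) (by linarith)
    have h3 := mul_le_mul_of_nonneg_left h2 hp.le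
    rw [hD]
    nlinarith
  refine ⟨hρr, hr2, hP, ?_, ?_, hDle, ?_⟩
  · have h2 : c₀ * (2 * p * ρ) ≤ c₀ * P := mul_le_mul_of_nonneg_left hPρ hc0.le
    have h3 := mul_le_mul_of_nonneg_left hc (show (0 : ℝ) ≤ 2 * p * ρ by positivity)
    have e : 2 * p * ρ * (ρ / (2 * β) - c₀) = p * ρ ^ 2 / β - c₀ * (2 * p * ρ) := by
      field_simp
    rw [e] at h3
    rw [hΓ]
    linarith
  · rw [← hb, abs_le]
    constructor <;> linarith
  · have h2 : 12 * p * ρ * x ≤ 12 * 4 * ρ * x := by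
      have : 0 ≤ ρ * x := by positivity
      nlinarith
    have h3 : ρ * (2000 * x) ≤ ρ * ρ := mul_le_mul_of_nonneg_left hxs hρ.le
    have h4 : ρ ^ 2 ≤ r ^ 2 := by nlinarith
    have h5 : 0 < ρ ^ 2 := by positivity
    nlinarith

lemma rpow_facts {δ : ℝ} (hδ : 0 < δ) (hδ1 : δ ≤ 1) :
    δ ^ (5 / 3 : ℝ) ≤ δ ^ (5 / 6 : ℝ) ∧ δ ≤ δ ^ (5 / 6 : ℝ) ∧
      Real.sqrt (δ ^ (5 / 3 : ℝ)) = δ ^ (5 / 6 : ℝ) := by
  refine ⟨Real.rpow_le_rpow_of_exponent_ge hδ hδ1 (by norm_num), ?_, ?_⟩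
  · nth_rewrite 1 [← Real.rpow_one δ]
    exact Real.rpow_le_rpow_of_exponent_ge hδ hδ1 (by norm_num)
  · rw [Real.sqrt_eq_rpow, ← Real.rpow_mul hδ.le]
    norm_num

end CONN

open CONN in
/-- CONN. -/
theorem pCONN (hPERF : S_PERF) (hGE1 : S_GE1) (hDM : S_DM) (hKEY : S_KEY) (hCMB : S_CMB)
    (hOPT : S_OPT) (hASY : S_ASY) : S_CONN := by
  intro β ρ₁ ρ₂ hβ hρ₁ hρ₁₂
  have hp := Real.pi_pos
  have hρ₂ : 0 < ρ₂ := lt_of_lt_of_le hρ₁ hρ₁₂
  obtain ⟨C₁, hC₁⟩ : ∃ C₁ : ℝ, C₁ = (1 / ρ₁ ^ 2 + β / ρ₁) * (2 * Real.pi * ρ₂) +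
    20 * Real.pi * β := ⟨_, rfl⟩
  have hC₁0 : 0 < C₁ := by rw [hC₁]; positivity
  obtain ⟨C₂, hC₂⟩ : ∃ C₂ : ℝ, C₂ = C₁ + 12 * Real.pi * ρ₂ * β := ⟨_, rfl⟩
  have hC₂0 : 0 < C₂ := by rw [hC₂]; positivity
  obtain ⟨δo, C₃, hδo, hC₃, hopt⟩ := hOPT 2000 C₂ ρ₁ (by norm_num) hC₂0 hρ₁
  refine ⟨min δo (min 1 (ρ₁ / (2000 * β))), 2 * (6 * ρ₂ * Real.sqrt C₃ + C₃ + C₂),
    lt_min hδo (lt_min one_pos (by positivity)), by positivity, ?_⟩
  intro Ω u c₀ δ hΩ hconn h1 h2 hu hc hδ1 hδ hδs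
  have hδo' : δ ≤ δo := hδs.trans (min_le_left _ _)
  have hδ1' : δ ≤ 1 := hδs.trans ((min_le_right _ _).trans (min_le_left _ _))
  have hδρ : δ ≤ ρ₁ / (2000 * β) := hδs.trans ((min_le_right _ _).trans (min_le_right _ _))
  have hsm : 2000 * β * δ ≤ rad Ω := by
    rw [le_div_iff₀ (by positivity)] at hδρ
    linarith
  have hρ : 0 < rad Ω := lt_of_lt_of_le hρ₁ h1
  have hvol : volume.real Ω = Real.pi * rad Ω ^ 2 := by
    unfold rad
    rw [Real.sq_sqrt (div_nonneg measureReal_nonneg hp.le)]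
    field_simp
  have hper := hPERF Ω hΩ
  have hge1 := hGE1 Ω hΩ hconn hper
  obtain ⟨hM0, hMD, hMK⟩ := hDM Ω hΩ.1 hΩ.2.1 hconn.nonempty
  obtain ⟨D, hD⟩ : ∃ D, D = Real.pi * mr Ω ^ 2 - volume.real Ω := ⟨_, rfl⟩
  obtain ⟨M, hM⟩ : ∃ M, M = MM Ω := ⟨_, rfl⟩
  obtain ⟨Γ, hΓ⟩ : ∃ Γ, Γ = volume.real Ω / β - c₀ * (per Ω).toReal := ⟨_, rfl⟩
  rw [← hD, ← hM] at hMD
  rw [← hM] at hM0
  have hΓ0 : 0 ≤ Γ := by
    rw [hΓ]
    exact (hKEY Ω hΩ β c₀ hβ u hu hc).1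
  have hD0 : 0 ≤ D := by linarith
  obtain ⟨b1, b2, b3, b4, b5, b6, b7⟩ := bounds (β := β) (ρ := rad Ω) (r := mr Ω)
    (P := (per Ω).toReal) (c₀ := c₀) (δ := δ) (D := D) (Γ := Γ) hβ hρ
    (mr_nonneg hΩ.2.1 hconn.nonempty) (by rw [hD, hvol]) hD0 hge1 (by rw [hΓ, hvol]) hΓ0 hδ hδ1 hsm
  have hr0 : 0 < mr Ω := lt_of_lt_of_le hρ b1
  have hρ₁r : ρ₁ ≤ mr Ω := h1.trans b1
  have hDC : D ≤ C₂ * δ := by
    have e1 : 12 * Real.pi * rad Ω * (β * δ) ≤ 12 * Real.pi * ρ₂ * (β * δ) := by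
      have : 0 ≤ 12 * Real.pi * (β * δ) := by positivity
      nlinarith
    have e2 : 0 ≤ C₁ * δ := by positivity
    rw [hC₂]
    nlinarith
  have hMD' : M ≤ D := by linarith
  have hak : ∀ k : ℕ, 2 ≤ k → 5 * (k + 4) * Real.sqrt D ≤ ρ₁ →
      cf (gg Ω) k 1 ^ 2 + cf (gg Ω) k (-Complex.I) ^ 2 ≤
        2000 ^ 2 * (C₂ * δ + (k + 2) * M / ρ₁) ^ 2 := by
    intro k hk hkD
    have hbd : ∀ c : ℂ, ‖c‖ ≤ 1 → |cf (gg Ω) k c| ≤ 1000 * (C₂ * δ + (k + 2) * M / ρ₁) := by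
      intro c hcn
      have h := hCMB Ω hΩ hconn β c₀ hβ u hu hc hr0 b5 k c hk hcn
        (by rw [← hD]; exact hkD.trans hρ₁r)
      rw [← hD, ← hM, ← hΓ] at h
      refine h.trans (mul_le_mul_of_nonneg_left ?_ (by norm_num))
      have t1 : (1 / mr Ω ^ 2 + β / mr Ω) * Γ ≤
          (1 / ρ₁ ^ 2 + β / ρ₁) * (2 * Real.pi * ρ₂ * δ) := by
        refine mul_le_mul ?_ ?_ hΓ0 (by positivity)
        · refine add_le_add ?_ ?_
          · exact one_div_le_one_div_of_le (by positivity) (pow_le_pow_left₀ hρ₁.le hρ₁r 2)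
          · exact div_le_div_of_nonneg_left hβ.le hρ₁ hρ₁r
        · refine b4.trans ?_
          have : 0 ≤ 2 * Real.pi * δ := by positivity
          nlinarith
      have t2 : (per Ω).toReal - 2 * Real.pi * mr Ω ≤ 8 * Real.pi * β * δ := by
        have : 2 * Real.pi * rad Ω ≤ 2 * Real.pi * mr Ω :=
          mul_le_mul_of_nonneg_left b1 (by positivity)
        linarith
      have t3 : D / mr Ω ≤ 12 * Real.pi * β * δ := by
        rw [div_le_iff₀ hr0]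
        have : 12 * Real.pi * (β * δ) * rad Ω ≤ 12 * Real.pi * (β * δ) * mr Ω :=
          mul_le_mul_of_nonneg_left b1 (by positivity)
        nlinarith
      have t4 : (k + 2) * M / mr Ω ≤ (k + 2) * M / ρ₁ :=
        div_le_div_of_nonneg_left (by positivity) hρ₁ hρ₁r
      have t5 : 0 ≤ 12 * Real.pi * ρ₂ * β * δ := by positivity
      have t6 : C₂ * δ = (1 / ρ₁ ^ 2 + β / ρ₁) * (2 * Real.pi * ρ₂ * δ) +
          20 * Real.pi * β * δ + 12 * Real.pi * ρ₂ * β * δ := by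
        rw [hC₂, hC₁]; ring
      rw [t6]
      linarith
    have hX : 0 ≤ C₂ * δ + (k + 2) * M / ρ₁ := by positivity
    have s1 := hbd 1 (by simp)
    have s2 := hbd (-Complex.I) (by simp)
    have q1 : cf (gg Ω) k 1 ^ 2 ≤ (1000 * (C₂ * δ + (k + 2) * M / ρ₁)) ^ 2 := by
      rw [← sq_abs (cf (gg Ω) k 1)]
      exact pow_le_pow_left₀ (abs_nonneg _) s1 2
    have q2 : cf (gg Ω) k (-Complex.I) ^ 2 ≤ (1000 * (C₂ * δ + (k + 2) * M / ρ₁)) ^ 2 := by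
      rw [← sq_abs (cf (gg Ω) k (-Complex.I))]
      exact pow_le_pow_left₀ (abs_nonneg _) s2 2
    rw [mul_pow] at q1 q2
    have q3 : 0 ≤ (C₂ * δ + (k + 2) * M / ρ₁) ^ 2 := by positivity
    linarith
  have hMle : M ≤ C₃ * δ ^ (5 / 3 : ℝ) := by
    refine hopt δ D M (fun k => cf (gg Ω) k 1 ^ 2 + cf (gg Ω) k (-Complex.I) ^ 2) hδ hδo' hD0 hDC
      hM0 hMD' hak ?_
    intro K hK
    have h := hMK K hK
    rw [← hD, ← hM] at h
    exact h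
  have hsq : 5 * Real.sqrt D < mr Ω := by
    have e : 5 * Real.sqrt D = Real.sqrt (25 * D) := by
      rw [Real.sqrt_mul (by norm_num), show (25 : ℝ) = 5 ^ 2 by norm_num, Real.sqrt_sq (by norm_num)]
    rw [e, Real.sqrt_lt' hr0]
    exact b7
  have hasy := hASY Ω hΩ.1 hΩ.2.1 hconn.nonempty (by rw [← hD]; exact hsq)
  rw [← hD, ← hM] at hasy
  refine ⟨ctr Ω, hasy.trans ?_⟩
  obtain ⟨f1, f2, f3⟩ := rpow_facts hδ hδ1'
  have hE0 : 0 ≤ δ ^ (5 / 6 : ℝ) := Real.rpow_nonneg hδ.le _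
  have g1 : Real.sqrt M ≤ Real.sqrt C₃ * δ ^ (5 / 6 : ℝ) := by
    rw [← f3, ← Real.sqrt_mul hC₃.le]
    exact Real.sqrt_le_sqrt hMle
  have g2 : mr Ω ≤ 2 * ρ₂ := by
    have : 4 * (β * δ) ≤ rad Ω := by
      have : 0 ≤ β * δ := by positivity
      linarith
    linarith
  have g3 : 3 * mr Ω * Real.sqrt M ≤ 3 * (2 * ρ₂) * (Real.sqrt C₃ * δ ^ (5 / 6 : ℝ)) :=
    mul_le_mul (by linarith) g1 (Real.sqrt_nonneg _) (by positivity)
  have g4 : M ≤ C₃ * δ ^ (5 / 6 : ℝ) := hMle.trans (mul_le_mul_of_nonneg_left f1 hC₃.le)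
  have g5 : D ≤ C₂ * δ ^ (5 / 6 : ℝ) := hDC.trans (mul_le_mul_of_nonneg_left f2 hC₂0.le)
  nlinarith

end Pool.Agent.T2H01.QI
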