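import Pool.Agent.T2H01.QI.Stm

/-! # Project QI, package CON: from the directions to a disc -/

set_option autoImplicit false

noncomputable section

open MeasureTheory Metric Set Filter Topology
open scoped NNReal ENNReal

namespace Pool.Agent.T2H01.QI

namespace CON

theorem inner_dir (v : E2) (θ : ℝ) : inner ℝ v (dir θ) = v 0 * Real.cos θ + v 1 * Real.sin θ := by
  simp [dir, PiLp.inner_apply, Fin.sum_univ_two, mul_comm]

theorem polar (v : E2) : ∃ φ : ℝ, v 0 = ‖v‖ * Real.cos φ ∧ v 1 = ‖v‖ * Real.sin φ := by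
  set z : ℂ := ⟨v 0, v 1⟩ with hz
  have hn : ‖z‖ = ‖v‖ := by
    rw [EuclideanSpace.norm_eq, Complex.norm_def, Complex.normSq_apply, Fin.sum_univ_two]
    simp [hz, sq_abs]
    ring_nf
  refine ⟨z.arg, ?_, ?_⟩
  · rw [← hn, Complex.norm_mul_cos_arg]
  · rw [← hn, Complex.norm_mul_sin_arg]

theorem dir_shift (N : ℕ) (hN : 0 < N) (k : ℤ) :
    dir (2 * Real.pi * k / N) = nd N (k % N).toNat := by
  have hN' : (0 : ℤ) < N := by exact_mod_cast hN
  have h0 : 0 ≤ k % (N : ℤ) := Int.emod_nonneg _ (by omega)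
  have h1 : ((k % (N : ℤ)).toNat : ℤ) = k % N := Int.toNat_of_nonneg h0
  have h2 : (((k % (N : ℤ)).toNat : ℕ) : ℝ) = ((k % (N : ℤ) : ℤ) : ℝ) := by
    exact_mod_cast congrArg (fun z : ℤ => (z : ℝ)) h1
  have h3 : (k : ℝ) = ((k % (N : ℤ) : ℤ) : ℝ) + N * ((k / (N : ℤ) : ℤ) : ℝ) := by
    exact_mod_cast (Int.emod_add_mul_ediv k N).symm
  have hNr : (N : ℝ) ≠ 0 := by positivity
  have h4 : 2 * Real.pi * k / N = 2 * Real.pi * (((k % (N : ℤ)).toNat : ℕ) : ℝ) / N +
      ((k / (N : ℤ) : ℤ) : ℝ) * (2 * Real.pi) := by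
    rw [h2]
    nth_rewrite 1 [h3]
    field_simp
  unfold nd dir
  rw [h4, Real.cos_add_int_mul_two_pi, Real.sin_add_int_mul_two_pi]

theorem bdd (Ω : Set E2) (hb : Bornology.IsBounded Ω) (n : E2) :
    BddAbove ((fun x : E2 => inner ℝ x n) '' Ω) := by
  obtain ⟨R, hR⟩ := hb.exists_norm_le
  refine ⟨R * ‖n‖, ?_⟩
  rintro _ ⟨x, hx, rfl⟩
  exact (real_inner_le_norm x n).trans (mul_le_mul_of_nonneg_right (hR x hx) (norm_nonneg _))

end CON

open CON in
theorem pCON : S_CON := by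
  intro Ω hb N hN a ρ hρ h x hx
  have hNr : (5 : ℝ) ≤ N := by exact_mod_cast hN
  have hNpos : 0 < N := by omega
  have hpi := Real.pi_pos
  have hc : 0 < Real.cos (Real.pi / N) := by
    apply Real.cos_pos_of_mem_Ioo
    constructor
    · have : 0 < Real.pi / N := by positivity
      linarith
    · rw [div_lt_div_iff₀ (by positivity) (by norm_num)]
      nlinarith
  rw [mem_closedBall, dist_eq_norm, le_div_iff₀ hc]
  set v : E2 := x - a with hv
  obtain ⟨φ, h0, h1⟩ := polar v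
  set k : ℤ := round (φ * N / (2 * Real.pi)) with hk
  have hkb : |φ * N / (2 * Real.pi) - k| ≤ 1 / 2 := abs_sub_round _
  have hdiff : |φ - 2 * Real.pi * k / N| ≤ Real.pi / N := by
    have e : φ - 2 * Real.pi * k / N = (2 * Real.pi / N) * (φ * N / (2 * Real.pi) - k) := by
      field_simp
    rw [e, abs_mul, abs_of_pos (by positivity : 0 < 2 * Real.pi / (N : ℝ))]
    calc 2 * Real.pi / N * |φ * N / (2 * Real.pi) - k| ≤ 2 * Real.pi / N * (1 / 2) :=
          mul_le_mul_of_nonneg_left hkb (by positivity)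
      _ = Real.pi / N := by ring
  have hcos : Real.cos (Real.pi / N) ≤ Real.cos (φ - 2 * Real.pi * k / N) := by
    rw [← Real.cos_abs (φ - 2 * Real.pi * k / N)]
    refine Real.cos_le_cos_of_nonneg_of_le_pi (abs_nonneg _) ?_ hdiff
    rw [div_le_iff₀ (by positivity)]
    nlinarith
  have hin : inner ℝ v (nd N (k % N).toNat) = ‖v‖ * Real.cos (φ - 2 * Real.pi * k / N) := by
    rw [← dir_shift N hNpos k, inner_dir, h0, h1, Real.cos_sub]; ring
  have hlt : (k % (N : ℤ)).toNat < N := by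
    have h0' : (0 : ℤ) < N := by exact_mod_cast hNpos
    have := Int.emod_lt_of_pos k h0'
    have := Int.emod_nonneg k (show (N : ℤ) ≠ 0 by omega)
    omega
  have hle : inner ℝ x (nd N (k % N).toNat) ≤ hs Ω (nd N (k % N).toNat) :=
    le_csSup (bdd Ω hb _) ⟨x, hx, rfl⟩
  have h5 := h _ hlt
  have h6 : inner ℝ v (nd N (k % N).toNat) ≤ ρ := by
    rw [hv, inner_sub_left]; linarith
  rw [hin] at h6
  exact (mul_le_mul_of_nonneg_left hcos (norm_nonneg _)).trans h6

end Pool.Agent.T2H01.QI
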