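import Pool.Agent.T2H01.QI.Stm

set_option autoImplicit false

noncomputable section

open MeasureTheory Metric Set Filter Topology
open scoped NNReal ENNReal

namespace Pool.Agent.T2H01.QI

namespace COV

theorem inner_dir (x : E2) (θ : ℝ) :
    inner ℝ x (dir θ) = x 0 * Real.cos θ + x 1 * Real.sin θ := by
  simp [dir, PiLp.inner_apply, Fin.sum_univ_two]
  ring

theorem ext2 (x y : E2) (h0 : x 0 = y 0) (h1 : x 1 = y 1) : x = y := by
  ext i
  fin_cases i
  · exact h0
  · exact h1

theorem dir_zero (θ : ℝ) : (dir θ) 0 = Real.cos θ := by simp [dir]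

theorem dir_one (θ : ℝ) : (dir θ) 1 = Real.sin θ := by simp [dir]

theorem nd_periodic (N : ℕ) (hN : 5 ≤ N) (j : ℕ) : nd N (j + N) = nd N j := by
  have hN0 : (N : ℝ) ≠ 0 := by
    have : (5 : ℝ) ≤ N := by exact_mod_cast hN
    linarith
  have h : 2 * Real.pi * ((j + N : ℕ) : ℝ) / N = 2 * Real.pi * j / N + 2 * Real.pi := by
    push_cast
    field_simp
  unfold nd dir
  rw [h, Real.cos_add_two_pi, Real.sin_add_two_pi]

end COV

open COV in
theorem pCOV : S_COV := by
  intro N hN h hper hpos hconv x hx
  have hN5 : (5 : ℝ) ≤ N := by exact_mod_cast hN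
  have hN0 : (N : ℝ) ≠ 0 := by linarith
  have hpi := Real.pi_pos
  have hα0 : 0 < 2 * Real.pi / N := by positivity
  have hα1 : 2 * Real.pi / N < Real.pi / 2 := by
    rw [div_lt_iff₀ (by linarith)]
    nlinarith
  have hsin : 0 < Real.sin (2 * Real.pi / N) :=
    Real.sin_pos_of_pos_of_lt_pi hα0 (by linarith)
  have hcos1 : Real.cos (2 * Real.pi / N) < 1 := by
    have h1 := Real.sin_sq_add_cos_sq (2 * Real.pi / N)
    nlinarith
  set α : ℝ := 2 * Real.pi / N with hα
  set a : ℕ → ℝ := fun j => inner ℝ x (nd N j) with ha
  have haf : ∀ j, a j = x 0 * Real.cos (2 * Real.pi * j / N) + x 1 * Real.sin (2 * Real.pi * j / N) :=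
    fun j => inner_dir x _
  have haper : ∀ j, a (j + N) = a j := by
    intro j
    simp only [ha]
    rw [nd_periodic N hN j]
  have hang1 : ∀ j : ℕ, 2 * Real.pi * ((j + 1 : ℕ) : ℝ) / N = 2 * Real.pi * j / N + α := by
    intro j
    rw [hα]
    push_cast
    ring
  have hang2 : ∀ j : ℕ, 2 * Real.pi * ((j + (N - 1) : ℕ) : ℝ) / N =
      2 * Real.pi * j / N - α + 2 * Real.pi := by
    intro j
    rw [hα]
    have : ((j + (N - 1) : ℕ) : ℝ) = j + N - 1 := by
      rw [Nat.cast_add, Nat.cast_sub (by omega)]
      push_cast
      ring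
    rw [this]
    field_simp
    ring
  have ha1 : ∀ j, a (j + 1) = x 0 * Real.cos (2 * Real.pi * j / N + α) +
      x 1 * Real.sin (2 * Real.pi * j / N + α) := by
    intro j
    rw [haf, hang1]
  have ha2 : ∀ j, a (j + (N - 1)) = x 0 * Real.cos (2 * Real.pi * j / N - α) +
      x 1 * Real.sin (2 * Real.pi * j / N - α) := by
    intro j
    rw [haf, hang2, Real.cos_add_two_pi, Real.sin_add_two_pi]
  by_cases hx0 : x = 0
  · refine ⟨0, by omega, 0, ⟨le_refl _, zero_le_one⟩,
      (h (0 + 1) - h 0 * Real.cos α) / Real.sin α, ⟨?_, le_refl _⟩, ?_⟩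
    · have h1 := hconv 0
      have h2 : 0 ≤ (h (0 + 1) - h 0 * Real.cos α) / Real.sin α +
          (h (0 + (N - 1)) - h 0 * Real.cos α) / Real.sin α := by
        rw [← add_div]
        apply div_nonneg _ hsin.le
        linarith
      linarith
    · rw [zero_smul]
      exact hx0
  · obtain ⟨j, hj, hmax⟩ := Finset.exists_max_image (Finset.range N) (fun j => a j / h j)
      ⟨0, Finset.mem_range.2 (by omega)⟩
    rw [Finset.mem_range] at hj
    have hP : Function.Periodic (fun i : ℕ => a i / h i) N := by
      intro i
      show a (i + N) / h (i + N) = a i / h i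
      rw [haper, hper]
    have hall : ∀ i, a i / h i ≤ a j / h j := by
      intro i
      have h1 := hP.map_mod_nat i
      rw [← h1]
      exact hmax _ (Finset.mem_range.2 (Nat.mod_lt _ (by omega)))
    -- positivity
    have hlam : 0 < a j / h j := by
      by_contra hneg
      have hneg' : ∀ i, a i ≤ 0 := by
        intro i
        have h1 : a i / h i ≤ 0 := (hall i).trans (not_lt.1 hneg)
        by_contra h2
        exact absurd h1 (not_le.2 (div_pos (not_le.1 h2) (hpos i)))
      have hrec : ∀ i, a (i + 1) + a (i + (N - 1)) = 2 * Real.cos α * a i := by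
        intro i
        rw [ha1, ha2, haf, Real.cos_add, Real.cos_sub, Real.sin_add, Real.sin_sub]
        ring
      have hPa : Function.Periodic a N := haper
      have hs1 : ∀ m : ℕ, ∑ i ∈ Finset.range N, a (i + m) = ∑ i ∈ Finset.range N, a i := by
        intro m
        induction m with
        | zero => simp
        | succ m ih =>
          rw [← ih]
          have e1 := Finset.sum_range_succ (fun i => a (i + m)) N
          have e2 := Finset.sum_range_succ' (fun i => a (i + m)) N
          have e3 : a (N + m) = a (0 + m) := by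
            rw [Nat.add_comm N m, haper, Nat.zero_add]
          have e4 : ∑ i ∈ Finset.range N, a (i + (m + 1)) = ∑ i ∈ Finset.range N, a (i + 1 + m) := by
            refine Finset.sum_congr rfl fun i _ => ?_
            congr 1
            omega
          rw [e4]
          linarith
      have hsum : ∑ i ∈ Finset.range N, (a (i + 1) + a (i + (N - 1))) =
          ∑ i ∈ Finset.range N, 2 * Real.cos α * a i := Finset.sum_congr rfl fun i _ => hrec i
      rw [Finset.sum_add_distrib, hs1, hs1, ← Finset.mul_sum] at hsum
      have hS : ∑ i ∈ Finset.range N, a i = 0 := by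
        have h1 : (1 - Real.cos α) * ∑ i ∈ Finset.range N, a i = 0 := by linarith
        rcases mul_eq_zero.1 h1 with h2 | h2
        · linarith
        · exact h2
      have hz : ∀ i ∈ Finset.range N, a i = 0 := by
        have h1 : ∑ i ∈ Finset.range N, -a i = 0 := by
          rw [Finset.sum_neg_distrib, hS, neg_zero]
        have h2 := (Finset.sum_eq_zero_iff_of_nonneg (fun i _ => by
          have := hneg' i
          linarith)).1 h1
        intro i hi
        have := h2 i hi
        linarith
      have hz0 := hz 0 (Finset.mem_range.2 (by omega))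
      have hz1 := hz 1 (Finset.mem_range.2 (by omega))
      rw [haf] at hz0
      have hz1' := ha1 0
      rw [zero_add, hz1] at hz1'
      simp only [Nat.cast_zero, mul_zero, zero_div, Real.cos_zero, Real.sin_zero, mul_one, add_zero,
        zero_add] at hz0 hz1'
      rw [hz0, zero_mul, zero_add] at hz1'
      have hx1 : x 1 = 0 := by
        rcases mul_eq_zero.1 hz1'.symm with h1 | h1
        · exact h1
        · exact absurd h1 hsin.ne'
      exact hx0 (ext2 x 0 (by simpa using hz0) (by simpa using hx1))
    have hle : a j / h j ≤ 1 := by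
      rw [div_le_one (hpos j)]
      exact hx j
    set lam : ℝ := a j / h j with hlamdef
    set θ : ℝ := 2 * Real.pi * j / N with hθ
    set b : ℝ := -(x 0 * Real.sin θ) + x 1 * Real.cos θ with hb
    have haj : a j = lam * h j := by
      rw [hlamdef, div_mul_cancel₀ _ (hpos j).ne']
    have haj' : a j = x 0 * Real.cos θ + x 1 * Real.sin θ := haf j
    have hup : a (j + 1) ≤ lam * h (j + 1) := by
      have h1 := hall (j + 1)
      rwa [div_le_iff₀ (hpos _)] at h1
    have hdn : a (j + (N - 1)) ≤ lam * h (j + (N - 1)) := by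
      have h1 := hall (j + (N - 1))
      rwa [div_le_iff₀ (hpos _)] at h1
    have e1 : a (j + 1) = lam * h j * Real.cos α + b * Real.sin α := by
      rw [ha1, ← haj, haj', hb, Real.cos_add, Real.sin_add]
      ring
    have e2 : a (j + (N - 1)) = lam * h j * Real.cos α - b * Real.sin α := by
      rw [ha2, ← haj, haj', hb, Real.cos_sub, Real.sin_sub]
      ring
    refine ⟨j, hj, lam, ⟨hlam.le, hle⟩, b / lam, ⟨?_, ?_⟩, ?_⟩
    · rw [neg_le, ← neg_div, div_le_div_iff₀ hlam hsin]
      nlinarith
    · rw [div_le_div_iff₀ hlam hsin]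
      nlinarith
    · have hsc := Real.sin_sq_add_cos_sq θ
      have g0 : lam * (h j * Real.cos θ + b / lam * Real.cos (θ + Real.pi / 2)) = x 0 := by
        rw [Real.cos_add_pi_div_two]
        have : lam * (h j * Real.cos θ + b / lam * -Real.sin θ) =
            (lam * h j) * Real.cos θ - b * Real.sin θ := by
          field_simp
          ring
        rw [this, ← haj, haj', hb]
        linear_combination (x 0) * hsc
      have g1 : lam * (h j * Real.sin θ + b / lam * Real.sin (θ + Real.pi / 2)) = x 1 := by
        rw [Real.sin_add_pi_div_two]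
        have : lam * (h j * Real.sin θ + b / lam * Real.cos θ) =
            (lam * h j) * Real.sin θ + b * Real.cos θ := by
          field_simp
        rw [this, ← haj, haj', hb]
        linear_combination (x 1) * hsc
      refine ext2 _ _ ?_ ?_
      · simp only [PiLp.smul_apply, PiLp.add_apply, dir_zero, smul_eq_mul]
        exact g0.symm
      · simp only [PiLp.smul_apply, PiLp.add_apply, dir_one, smul_eq_mul]
        exact g1.symm

end Pool.Agent.T2H01.QI
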