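import Pool.Agent.T2H01.QI.Stm

/-!
# QI: DIRV, the variation in one direction
-/

set_option autoImplicit false

noncomputable section

open MeasureTheory Metric Set Filter Topology
open scoped NNReal ENNReal

namespace Pool.Agent.T2H01.QI

namespace DIRV

lemma line {w w' : ℝ → ℝ} (hw : ∀ s, HasDerivAt w (w' s) s) (hc : Continuous w') {R : ℝ}
    (hR : ∀ s, R < |s| → w s = 0) {s₀ : ℝ} (h1 : 1 ≤ w s₀) : (2 : ℝ≥0∞) ≤ ∫⁻ s, ‖w' s‖ₑ := by
  have hs₀ : |s₀| ≤ R := by
    by_contra hcon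
    push Not at hcon
    have := hR s₀ hcon
    linarith
  have hR0 : 0 ≤ R := (abs_nonneg _).trans hs₀
  obtain ⟨hs1, hs2⟩ := abs_le.1 hs₀
  have ha : w (-(R + 1)) = 0 := hR _ (by rw [abs_neg, abs_of_nonneg (by linarith)]; linarith)
  have hb : w (R + 1) = 0 := hR _ (by rw [abs_of_nonneg (by linarith)]; linarith)
  have I1 : ∫ s in (-(R + 1))..s₀, w' s = w s₀ - w (-(R + 1)) :=
    intervalIntegral.integral_eq_sub_of_hasDerivAt (fun s _ => hw s) (hc.intervalIntegrable _ _)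
  have I2 : ∫ s in s₀..(R + 1), w' s = w (R + 1) - w s₀ :=
    intervalIntegral.integral_eq_sub_of_hasDerivAt (fun s _ => hw s) (hc.intervalIntegrable _ _)
  rw [intervalIntegral.integral_of_le (by linarith), ha, sub_zero] at I1
  rw [intervalIntegral.integral_of_le (by linarith), hb, zero_sub] at I2
  have J1 := enorm_integral_le_lintegral_enorm (μ := volume.restrict (Ioc (-(R + 1)) s₀)) w'
  have J2 := enorm_integral_le_lintegral_enorm (μ := volume.restrict (Ioc s₀ (R + 1))) w'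
  rw [I1] at J1
  rw [I2, enorm_neg] at J2
  have h3 : (1 : ℝ≥0∞) ≤ ‖w s₀‖ₑ := by
    rw [Real.enorm_eq_ofReal (by linarith)]
    exact ENNReal.one_le_ofReal.2 h1
  calc (2 : ℝ≥0∞) = 1 + 1 := by norm_num
    _ ≤ (∫⁻ s in Ioc (-(R + 1)) s₀, ‖w' s‖ₑ) + ∫⁻ s in Ioc s₀ (R + 1), ‖w' s‖ₑ :=
        add_le_add (h3.trans J1) (h3.trans J2)
    _ = ∫⁻ s in Ioc (-(R + 1)) s₀ ∪ Ioc s₀ (R + 1), ‖w' s‖ₑ := by
        rw [lintegral_union measurableSet_Ioc]
        rw [Set.disjoint_left]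
        intro x hx hx'
        exact absurd hx.2 (not_le.2 hx'.1)
    _ ≤ ∫⁻ s, ‖w' s‖ₑ := setLIntegral_le_lintegral _ _

lemma dir_quarter (θ : ℝ) : dir (θ + Real.pi / 2) = !₂[-Real.sin θ, Real.cos θ] := by
  unfold dir
  rw [Real.cos_add_pi_div_two, Real.sin_add_pi_div_two]

lemma basis (θ : ℝ) : ∃ b : OrthonormalBasis (Fin 2) ℝ E2, b 0 = dir θ ∧
    b 1 = dir (θ + Real.pi / 2) := by
  have hon : Orthonormal ℝ ![dir θ, dir (θ + Real.pi / 2)] := by
    rw [dir_quarter]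
    have h := Real.sin_sq_add_cos_sq θ
    constructor
    · intro i
      fin_cases i
      · simp [dir, EuclideanSpace.norm_eq, Fin.sum_univ_two]
      · simp [EuclideanSpace.norm_eq, Fin.sum_univ_two]
    · intro i j hij
      fin_cases i <;> fin_cases j
      · exact absurd rfl hij
      · simp [dir, PiLp.inner_apply, Fin.sum_univ_two]
        ring
      · simp [dir, PiLp.inner_apply, Fin.sum_univ_two]
        ring
      · exact absurd rfl hij
  have hon' : Orthonormal ℝ ((Set.univ : Set (Fin 2)).domRestrict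
      ![dir θ, dir (θ + Real.pi / 2)]) :=
    hon.comp _ Subtype.val_injective
  obtain ⟨b, hb⟩ := hon'.exists_orthonormalBasis_extension_of_card_eq (by simp)
  exact ⟨b, hb 0 (Set.mem_univ _), hb 1 (Set.mem_univ _)⟩

/-- Fubini in the coordinates given by an orthonormal basis. -/
lemma fubini (b : OrthonormalBasis (Fin 2) ℝ E2) {F : E2 → ℝ≥0∞} (hF : Measurable F) :
    ∫⁻ x, F x = ∫⁻ p : ℝ, ∫⁻ s : ℝ, F (p • b 0 + s • b 1) := by
  have he : MeasurePreserving (fun z : ℝ × ℝ => z.1 • b 0 + z.2 • b 1) volume volume := by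
    have h1 := b.measurePreserving_repr_symm
    have h2 := PiLp.volume_preserving_toLp (Fin 2)
    have h3 := (volume_preserving_finTwoArrow ℝ).symm
    have h := h1.comp (h2.comp h3)
    convert h using 1
    funext z
    simp only [Function.comp_apply]
    rw [← b.sum_repr (b.repr.symm _), Fin.sum_univ_two]
    simp [MeasurableEquiv.finTwoArrow]
  rw [← he.lintegral_comp hF, Measure.volume_eq_prod, lintegral_prod]
  exact (hF.comp (by fun_prop)).aemeasurable

end DIRV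

theorem pDIRV : S_DIRV := by
  intro u hu hcs h0 θ A hA
  obtain ⟨b, hb0, hb1⟩ := DIRV.basis θ
  rw [← hb0, ← hb1]
  have hcont : Continuous fun x => fderiv ℝ u x (b 1) :=
    (hu.continuous_fderiv (by norm_num)).clm_apply continuous_const
  have hF : Measurable fun x => ‖fderiv ℝ u x (b 1)‖ₑ := hcont.enorm.measurable
  rw [DIRV.fubini b hF]
  obtain ⟨R, hR⟩ := hcs.isCompact.isBounded.subset_closedBall (0 : E2)
  have hzero : ∀ x : E2, R < ‖x‖ → u x = 0 := by
    intro x hx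
    by_contra hne
    have := hR (subset_tsupport _ hne)
    rw [mem_closedBall, dist_zero_right] at this
    linarith
  have hn0 : ‖b 0‖ = 1 := b.norm_eq_one 0
  have hn1 : ‖b 1‖ = 1 := b.norm_eq_one 1
  have h01 : inner ℝ (b 0) (b 1) = 0 := b.orthonormal.2 (by decide)
  have h10 : inner ℝ (b 1) (b 0) = 0 := b.orthonormal.2 (by decide)
  have hnorm : ∀ p s : ℝ, |s| ≤ ‖p • b 0 + s • b 1‖ := by
    intro p s
    have h2 : inner ℝ (p • b 0 + s • b 1) (b 1) = s := by
      rw [inner_add_left, inner_smul_left, inner_smul_left, h01, real_inner_self_eq_norm_sq, hn1]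
      simp
    have h3 := abs_real_inner_le_norm (p • b 0 + s • b 1) (b 1)
    rw [h2, hn1, mul_one] at h3
    exact h3
  have hsub : ((fun x : E2 => inner ℝ x (b 0)) '' A) ⊆
      {p : ℝ | (2 : ℝ≥0∞) ≤ ∫⁻ s : ℝ, ‖fderiv ℝ u (p • b 0 + s • b 1) (b 1)‖ₑ} := by
    rintro p ⟨x, hx, rfl⟩
    show (2 : ℝ≥0∞) ≤ ∫⁻ s : ℝ, ‖fderiv ℝ u ((inner ℝ x (b 0) : ℝ) • b 0 + s • b 1) (b 1)‖ₑ
    have hxe : x = (inner ℝ x (b 0) : ℝ) • b 0 + (inner ℝ x (b 1) : ℝ) • b 1 := by
      have h := b.sum_repr x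
      rw [Fin.sum_univ_two] at h
      rw [b.repr_apply_apply, b.repr_apply_apply, real_inner_comm x, real_inner_comm x] at h
      exact h.symm
    refine DIRV.line (w := fun s => u ((inner ℝ x (b 0) : ℝ) • b 0 + s • b 1)) (R := R)
      (s₀ := inner ℝ x (b 1)) ?_ ?_ ?_ ?_
    · intro s
      have h1 : HasFDerivAt u (fderiv ℝ u ((inner ℝ x (b 0) : ℝ) • b 0 + s • b 1))
          ((inner ℝ x (b 0) : ℝ) • b 0 + s • b 1) :=
        ((hu.differentiable (by norm_num)) _).hasFDerivAt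
      have h2 : HasDerivAt (fun s : ℝ => (inner ℝ x (b 0) : ℝ) • b 0 + s • b 1) (b 1) s := by
        have := ((hasDerivAt_id s).smul_const (b 1)).const_add ((inner ℝ x (b 0) : ℝ) • b 0)
        simpa using this
      exact h1.comp_hasDerivAt s h2
    · exact hcont.comp (by fun_prop)
    · intro s hs
      exact hzero _ (hs.trans_le (hnorm _ s))
    · show 1 ≤ u ((inner ℝ x (b 0) : ℝ) • b 0 + (inner ℝ x (b 1) : ℝ) • b 1)
      rw [← hxe]
      exact hA x hx
  calc 2 * volume ((fun x : E2 => inner ℝ x (b 0)) '' A) ≤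
        2 * volume {p : ℝ | (2 : ℝ≥0∞) ≤ ∫⁻ s : ℝ, ‖fderiv ℝ u (p • b 0 + s • b 1) (b 1)‖ₑ} := by
        gcongr
    _ ≤ _ := by
        refine mul_meas_ge_le_lintegral ?_ 2
        refine Measurable.lintegral_prod_right'
          (f := fun z : ℝ × ℝ => ‖fderiv ℝ u (z.1 • b 0 + z.2 • b 1) (b 1)‖ₑ) ?_
        exact hF.comp (by fun_prop)

end Pool.Agent.T2H01.QI
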