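import Pool.Agent.T2H01.QI.Stm2

/-! Package DIVX of project QI (helper1), by helper94. -/

set_option autoImplicit false

noncomputable section

open MeasureTheory Metric Set Filter Topology
open scoped NNReal ENNReal

namespace Pool.Agent.T2H01.QI

namespace DIVX

lemma inner_gp (k : ℕ) (c : ℂ) (a x : E2) :
    inner ℝ (gp k c a x) (x - a) = k * hp k c a x := by
  have h1 : inner ℝ (gp k c a x) (x - a) =
      (c * k * (zc x - zc a) ^ (k - 1)).re * (x 0 - a 0) +
      (Complex.I * c * k * (zc x - zc a) ^ (k - 1)).re * (x 1 - a 1) := by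
    rw [gp, PiLp.inner_apply, Fin.sum_univ_two]
    simp
    ring
  rw [h1, hp]
  rcases Nat.eq_zero_or_pos k with h | h
  · subst h
    simp
  · have h2 : (zc x - zc a) ^ k = (zc x - zc a) ^ (k - 1) * (zc x - zc a) := by
      rw [← pow_succ, Nat.sub_add_cancel h]
    have h3 : zc x - zc a = ⟨x 0 - a 0, x 1 - a 1⟩ := by
      apply Complex.ext <;> simp [zc]
    rw [h2]
    obtain ⟨w, hw⟩ : ∃ w : ℂ, w = (zc x - zc a) ^ (k - 1) := ⟨_, rfl⟩
    rw [← hw, h3]
    simp only [Complex.mul_re, Complex.mul_im, Complex.I_re, Complex.I_im, Complex.natCast_re,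
      Complex.natCast_im]
    ring

end DIVX

open DIVX in
theorem pDIVX (hHARM : S_HARM) : S_DIVX := by
  intro a r hr
  refine ⟨?_, ?_, ?_⟩
  · unfold Xf
    exact ContDiff.smul ((contDiff_const.sub (((contDiff_id.sub contDiff_const).norm_sq
      ℝ).div_const _)).div_const _) (contDiff_id.sub contDiff_const)
  · intro x hx
    rw [Xf, norm_smul, Real.norm_eq_abs, abs_div, abs_of_pos (show (0 : ℝ) < 2 * r by positivity),
      div_mul_eq_mul_div, div_le_one (by positivity)]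
    obtain ⟨t, ht⟩ : ∃ t : ℝ, t = ‖x - a‖ := ⟨_, rfl⟩
    have ht0 : 0 ≤ t := ht ▸ norm_nonneg _
    rw [← ht] at hx ⊢
    obtain ⟨τ, hτ⟩ : ∃ τ : ℝ, t = τ * r := ⟨t / r, by field_simp⟩
    have hτ0 : 0 ≤ τ := by
      rw [hτ] at ht0
      exact (mul_nonneg_iff_of_pos_right hr).mp ht0
    have hτ2 : τ ≤ 2 := by
      rw [hτ] at hx
      exact le_of_mul_le_mul_right hx hr
    have h1 : t ^ 2 / r ^ 2 = τ ^ 2 := by
      rw [hτ]
      field_simp
    rw [h1, hτ, ← mul_assoc]
    refine mul_le_mul_of_nonneg_right ?_ hr.le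
    rcases abs_cases (3 - τ ^ 2) with ⟨h, -⟩ | ⟨h, -⟩
    · rw [h]
      nlinarith [mul_nonneg (sq_nonneg (τ - 1)) (show 0 ≤ τ + 2 by linarith)]
    · rw [h]
      nlinarith [mul_nonneg (sq_nonneg (τ + 1)) (show 0 ≤ 2 - τ by linarith)]
  · intro k c hc x
    obtain ⟨hφ, -, -, hgr, -, -⟩ := hHARM k c a hc
    have dφ : HasFDerivAt (hp k c a) (fderiv ℝ (hp k c a) x) x :=
      (hφ.differentiable (by simp) x).hasFDerivAt
    obtain ⟨L, ds, hL⟩ : ∃ L : E2 →L[ℝ] ℝ,
        HasFDerivAt (fun y : E2 => (3 - ‖y - a‖ ^ 2 / r ^ 2) / (2 * r)) L x ∧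
        ∀ v, L v = -(2 * inner ℝ (x - a) v * (r ^ 2)⁻¹) * (2 * r)⁻¹ := by
      have ds : HasFDerivAt (fun y : E2 => (3 - ‖y - a‖ ^ 2 / r ^ 2) / (2 * r)) _ x :=
        (((((hasFDerivAt_id x).sub_const a).norm_sq).mul_const ((r ^ 2)⁻¹)).const_sub 3).mul_const
          ((2 * r)⁻¹)
      refine ⟨_, ds, fun v => ?_⟩
      simp
      rw [inner_sub_left]
      ring
    have dall := (dφ.mul ds).smul ((hasFDerivAt_id x).sub_const a)
    have hfun : (fun y => hp k c a y • Xf a r y) =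
        fun y => (hp k c a y * ((3 - ‖y - a‖ ^ 2 / r ^ 2) / (2 * r))) • (id y - a) := by
      funext y
      rw [Xf, smul_smul]
      rfl
    have hG0 : fderiv ℝ (hp k c a) x (EuclideanSpace.single 0 1) = gp k c a x 0 := by
      rw [hgr, EuclideanSpace.inner_single_right]
      simp
    have hG1 : fderiv ℝ (hp k c a) x (EuclideanSpace.single 1 1) = gp k c a x 1 := by
      rw [hgr, EuclideanSpace.inner_single_right]
      simp
    have hL0 : L (EuclideanSpace.single 0 1) = -(2 * (x 0 - a 0) * (r ^ 2)⁻¹) * (2 * r)⁻¹ := by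
      rw [hL, EuclideanSpace.inner_single_right]
      simp
    have hL1 : L (EuclideanSpace.single 1 1) = -(2 * (x 1 - a 1) * (r ^ 2)⁻¹) * (2 * r)⁻¹ := by
      rw [hL, EuclideanSpace.inner_single_right]
      simp
    have hin : gp k c a x 0 * (x 0 - a 0) + gp k c a x 1 * (x 1 - a 1) = k * hp k c a x := by
      rw [← inner_gp, PiLp.inner_apply, Fin.sum_univ_two]
      simp
      ring
    have hnorm : ‖x - a‖ ^ 2 = (x 0 - a 0) ^ 2 + (x 1 - a 1) ^ 2 := by
      rw [EuclideanSpace.real_norm_sq_eq, Fin.sum_univ_two]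
      simp
    rw [divg, hfun]
    have hF : HasFDerivAt (fun y => (hp k c a y * ((3 - ‖y - a‖ ^ 2 / r ^ 2) / (2 * r))) •
        (id y - a)) _ x := dall
    rw [hF.fderiv, Fin.sum_univ_two]
    simp only [_root_.add_apply, _root_.smul_apply, Pi.mul_apply,
      ContinuousLinearMap.smulRight_apply, ContinuousLinearMap.id_apply, PiLp.add_apply,
      PiLp.smul_apply, smul_eq_mul, id, PiLp.sub_apply, hG0, hG1, hL0, hL1]
    rw [hnorm]
    have e0 : (EuclideanSpace.single (0 : Fin 2) (1 : ℝ)) 0 = 1 := by simp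
    have e1 : (EuclideanSpace.single (1 : Fin 2) (1 : ℝ)) 1 = 1 := by simp
    rw [e0, e1]
    have hr' : r ≠ 0 := hr.ne'
    field_simp
    linear_combination (3 * r ^ 2 - ((x 0 - a 0) ^ 2 + (x 1 - a 1) ^ 2)) * hin

end Pool.Agent.T2H01.QI
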