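import Pool.Agent.T2H01.QI.Stm2

/-!
# Package DM of the project QI
-/

set_option autoImplicit false

noncomputable section

open MeasureTheory Metric Set Filter Topology
open scoped NNReal ENNReal

namespace Pool.Agent.T2H01.QI

namespace DM

theorem icc_eq (a : ℕ → ℝ) (h1 : a 1 = 0) (n : ℕ) :
    ∑ i ∈ Finset.range n, a (i + 1) = ∑ k ∈ Finset.Icc 2 n, a k := by
  induction n with
  | zero => simp
  | succ n ih =>
    rw [Finset.sum_range_succ, ih]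
    by_cases hn : n = 0
    · subst hn; simp [h1]
    · rw [Finset.sum_Icc_succ_top (by omega)]

theorem tail (a : ℕ → ℝ) (ha : ∀ k, 0 ≤ a k) (D : ℝ) (K : ℕ) (hK : 1 ≤ K)
    (h : ∀ N : ℕ, (1 / (2 * Real.pi)) * ∑ k ∈ Finset.Icc 2 N, ((k : ℝ) ^ 2 - 1) * a k ≤ D) (N : ℕ)
    (hN : K ≤ N) :
    (1 / Real.pi) * ∑ k ∈ Finset.Icc 2 N, a k ≤
      (1 / Real.pi) * ∑ k ∈ Finset.Icc 2 K, a k + 2 * D / K ^ 2 := by
  have hpi := Real.pi_pos
  have hK0 : (0 : ℝ) < K := by exact_mod_cast (by omega : 0 < K)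
  have hsplit : ∑ k ∈ Finset.Icc 2 N, a k ≤ ∑ k ∈ Finset.Icc 2 K, a k +
      (1 / (K : ℝ) ^ 2) * ∑ k ∈ Finset.Icc 2 N, ((k : ℝ) ^ 2 - 1) * a k := by
    rw [← Finset.sum_filter_add_sum_filter_not (Finset.Icc 2 N) (fun k => k ≤ K)]
    have e1 : (Finset.Icc 2 N).filter (fun k => k ≤ K) = Finset.Icc 2 K := by
      ext k; simp only [Finset.mem_filter, Finset.mem_Icc]; omega
    rw [e1]
    have e2 : ∑ k ∈ (Finset.Icc 2 N).filter (fun k => ¬ k ≤ K), a k ≤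
        (1 / (K : ℝ) ^ 2) * ∑ k ∈ (Finset.Icc 2 N).filter (fun k => ¬ k ≤ K), ((k : ℝ) ^ 2 - 1) * a k := by
      rw [Finset.mul_sum]
      apply Finset.sum_le_sum
      intro k hk
      simp only [Finset.mem_filter, Finset.mem_Icc, not_le] at hk
      have hk2 : (K : ℝ) + 1 ≤ k := by exact_mod_cast hk.2
      have h3 : (K : ℝ) ^ 2 ≤ (k : ℝ) ^ 2 - 1 := by nlinarith
      have h4 : 1 ≤ (1 / (K : ℝ) ^ 2) * ((k : ℝ) ^ 2 - 1) := by
        rw [one_div, ← div_eq_inv_mul, one_le_div (by positivity)]; exact h3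
      calc a k = 1 * a k := (one_mul _).symm
        _ ≤ ((1 / (K : ℝ) ^ 2) * ((k : ℝ) ^ 2 - 1)) * a k := mul_le_mul_of_nonneg_right h4 (ha k)
        _ = _ := by ring
    have e3 : ∑ k ∈ (Finset.Icc 2 N).filter (fun k => ¬ k ≤ K), ((k : ℝ) ^ 2 - 1) * a k ≤
        ∑ k ∈ Finset.Icc 2 N, ((k : ℝ) ^ 2 - 1) * a k := by
      apply Finset.sum_le_sum_of_subset_of_nonneg (Finset.filter_subset _ _)
      intro k hk _
      have hk1 : (2 : ℝ) ≤ k := by exact_mod_cast (Finset.mem_Icc.1 hk).1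
      have : (0 : ℝ) ≤ (k : ℝ) ^ 2 - 1 := by nlinarith
      exact mul_nonneg this (ha k)
    have e4 : (1 / (K : ℝ) ^ 2) * ∑ k ∈ (Finset.Icc 2 N).filter (fun k => ¬ k ≤ K), ((k : ℝ) ^ 2 - 1) * a k ≤
        (1 / (K : ℝ) ^ 2) * ∑ k ∈ Finset.Icc 2 N, ((k : ℝ) ^ 2 - 1) * a k :=
      mul_le_mul_of_nonneg_left e3 (by positivity)
    linarith
  have hS : ∑ k ∈ Finset.Icc 2 N, ((k : ℝ) ^ 2 - 1) * a k ≤ 2 * Real.pi * D := by
    have := h N
    rw [one_div, ← div_eq_inv_mul, div_le_iff₀ (by positivity)] at this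
    linarith
  have h5 : ∑ k ∈ Finset.Icc 2 N, a k ≤ ∑ k ∈ Finset.Icc 2 K, a k +
      (1 / (K : ℝ) ^ 2) * (2 * Real.pi * D) :=
    hsplit.trans (by
      have := mul_le_mul_of_nonneg_left hS (by positivity : (0 : ℝ) ≤ 1 / (K : ℝ) ^ 2)
      linarith)
  calc (1 / Real.pi) * ∑ k ∈ Finset.Icc 2 N, a k ≤ (1 / Real.pi) * (∑ k ∈ Finset.Icc 2 K, a k +
      (1 / (K : ℝ) ^ 2) * (2 * Real.pi * D)) := mul_le_mul_of_nonneg_left h5 (by positivity)
    _ = _ := by field_simp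

theorem two_thirds (a : ℕ → ℝ) (ha : ∀ k, 0 ≤ a k) (D : ℝ)
    (h : ∀ N : ℕ, (1 / (2 * Real.pi)) * ∑ k ∈ Finset.Icc 2 N, ((k : ℝ) ^ 2 - 1) * a k ≤ D) (N : ℕ) :
    (1 / Real.pi) * ∑ k ∈ Finset.Icc 2 N, a k ≤ (2 / 3) * D := by
  have hpi := Real.pi_pos
  have h1 : ∑ k ∈ Finset.Icc 2 N, 3 * a k ≤ ∑ k ∈ Finset.Icc 2 N, ((k : ℝ) ^ 2 - 1) * a k := by
    apply Finset.sum_le_sum
    intro k hk
    have hk1 : (2 : ℝ) ≤ k := by exact_mod_cast (Finset.mem_Icc.1 hk).1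
    apply mul_le_mul_of_nonneg_right _ (ha k)
    nlinarith
  rw [← Finset.mul_sum] at h1
  have h2 := h N
  have h3 : (1 / (2 * Real.pi)) * (3 * ∑ k ∈ Finset.Icc 2 N, a k) ≤ D :=
    (mul_le_mul_of_nonneg_left h1 (by positivity)).trans h2
  calc (1 / Real.pi) * ∑ k ∈ Finset.Icc 2 N, a k =
      (2 / 3) * ((1 / (2 * Real.pi)) * (3 * ∑ k ∈ Finset.Icc 2 N, a k)) := by field_simp
    _ ≤ _ := mul_le_mul_of_nonneg_left h3 (by norm_num)

end DM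

theorem pDM (hGE0 : S_GE0) (hGE2 : S_GE2) (hGE3 : S_GE3) (hPARS : S_PARS) : S_DM := by
  intro Ω hO hB hne
  obtain ⟨hc, hp, h0, h1⟩ := hGE0 Ω hB hne
  have hs := hPARS (gg Ω) hc hp h0
  have hge := hGE3 Ω hO hB hne
  set a : ℕ → ℝ := fun k => cf (gg Ω) k 1 ^ 2 + cf (gg Ω) k (-Complex.I) ^ 2 with ha
  have ha0 : ∀ k, 0 ≤ a k := fun k => by simp only [ha]; positivity
  have ha1 : a 1 = 0 := by simp only [ha]; rw [h1, h1]; norm_num
  have hs' : HasSum (fun k : ℕ => (1 / Real.pi) * a (k + 1)) (MM Ω) := hs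
  have ht : Tendsto (fun n : ℕ => (1 / Real.pi) * ∑ k ∈ Finset.Icc 2 n, a k) atTop (𝓝 (MM Ω)) := by
    have := hs'.tendsto_sum_nat
    refine this.congr (fun n => ?_)
    rw [← DM.icc_eq a ha1 n, Finset.mul_sum]
  refine ⟨?_, ?_, ?_⟩
  · exact intervalIntegral.integral_nonneg (by positivity) (fun θ _ => sq_nonneg _)
  · exact le_of_tendsto' ht (fun N => DM.two_thirds a ha0 _ hge N)
  · intro K hK
    refine le_of_tendsto ht ?_
    filter_upwards [eventually_ge_atTop K] with N hN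
    exact DM.tail a ha0 _ K hK hge N hN

end Pool.Agent.T2H01.QI
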