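import Pool.Agent.T2H01.QI.Stm

/-!
# Package FLX: the flux through the boundary
-/

set_option autoImplicit false

noncomputable section

open MeasureTheory Metric Set Filter Topology
open scoped NNReal ENNReal

namespace Pool.Agent.T2H01.QI

namespace FLX

theorem h1_one {Ω : Set E2} (hb : Bornology.IsBounded Ω) :
    IsH1 Ω (fun _ => (1 : ℝ)) (fun _ => (0 : E2)) := by
  have hfin : IsFiniteMeasure (volume.restrict Ω) := ⟨by
    rw [Measure.restrict_apply_univ]
    exact hb.measure_lt_top⟩
  refine ⟨memLp_const 1, memLp_const 0, ?_⟩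
  intro ψ hψ hc hs i
  have h0 : ∀ x, x ∉ Ω → fderiv ℝ ψ x (EuclideanSpace.single i 1) = 0 := by
    intro x hx
    have : x ∉ tsupport (fderiv ℝ ψ) := fun h => hx (hs (tsupport_fderiv_subset ℝ h))
    rw [image_eq_zero_of_notMem_tsupport this]
    simp
  have h1 : ∫ x in Ω, (1 : ℝ) * fderiv ℝ ψ x (EuclideanSpace.single i 1) =
      ∫ x, (1 : ℝ) * fderiv ℝ ψ x (EuclideanSpace.single i 1) := by
    apply setIntegral_eq_integral_of_forall_compl_eq_zero
    intro x hx
    rw [h0 x hx, mul_zero]
  have hcf : HasCompactSupport (fun x => fderiv ℝ ψ x (EuclideanSpace.single i 1)) := by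
    have := hc.fderiv (𝕜 := ℝ)
    exact this.comp_left (g := fun L : E2 →L[ℝ] ℝ => L (EuclideanSpace.single i 1)) (by simp)
  have hcont : Continuous (fun x => fderiv ℝ ψ x (EuclideanSpace.single i 1)) :=
    (hψ.continuous_fderiv (by simp)).clm_apply continuous_const
  have hint : Integrable (fun x => fderiv ℝ ψ x (EuclideanSpace.single i (1 : ℝ))) volume :=
    hcont.integrable_of_hasCompactSupport hcf
  have hintψ : Integrable ψ volume := hψ.continuous.integrable_of_hasCompactSupport hc
  have h2 : ∫ x, (1 : ℝ) * fderiv ℝ ψ x (EuclideanSpace.single i 1) = 0 := by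
    have h3 := integral_mul_fderiv_eq_neg_fderiv_mul_of_integrable (μ := (volume : Measure E2))
      (f := fun _ : E2 => (1 : ℝ)) (g := ψ) (v := EuclideanSpace.single i (1 : ℝ))
      (by simp) (by simpa using hint) (by simpa using hintψ)
      (fun x _ => differentiableAt_const _) (fun x _ => (hψ.differentiable (by simp)) x)
    rw [h3]
    simp
  rw [h1, h2]
  simp

end FLX

open FLX in
theorem pFLX (hPERF : S_PERF) (hPOS : S_POS) (hTR2 : S_TR2) : S_FLX := by
  intro Ω hΩ β hβ u hu c hc
  have hpos := hPOS Ω hΩ β hβ u hu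
  have hper := hPERF Ω hΩ
  obtain ⟨G, g, hH1, hTr, hid⟩ := hu
  have hfinV : IsFiniteMeasure (volume.restrict Ω) := ⟨by
    rw [Measure.restrict_apply_univ]
    exact hΩ.2.1.measure_lt_top⟩
  have hfinH : IsFiniteMeasure ((μH[1] : Measure E2).restrict (frontier Ω)) := ⟨by
    rw [Measure.restrict_apply_univ]
    exact hper⟩
  have hcu : ∀ᵐ x ∂volume.restrict Ω, c ≤ u x := by
    filter_upwards [hc, hpos] with x hx hx0
    rwa [abs_of_nonneg hx0] at hx
  have hcg := hTR2 Ω hΩ.1 hΩ.2.1 u g c hH1.1 hTr hcu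
  have htr1 : IsTrace Ω (fun _ => (1 : ℝ)) (fun _ => (1 : ℝ)) := by
    refine ⟨memLp_const 1, Eventually.of_forall fun x => ?_⟩
    simp
  have h := hid (fun _ => (1 : ℝ)) (fun _ => (0 : E2)) (fun _ => (1 : ℝ)) (h1_one hΩ.2.1) htr1
  simp only [inner_zero_right, integral_zero, zero_add, mul_one] at h
  have hvol : ∫ x in Ω, (1 : ℝ) = volume.real Ω := by simp
  rw [hvol] at h
  rw [← h, mul_assoc]
  refine mul_le_mul_of_nonneg_left ?_ hβ.le
  have hgi : Integrable g ((μH[1] : Measure E2).restrict (frontier Ω)) :=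
    hTr.1.integrable (by norm_num)
  have h1 : ∫ x in frontier Ω, c ∂(μH[1] : Measure E2) ≤ ∫ x in frontier Ω, g x ∂μH[1] :=
    integral_mono_ae (integrable_const _) hgi hcg
  refine le_trans (le_of_eq ?_) h1
  rw [integral_const, smul_eq_mul, mul_comm]
  congr 1
  simp [per, Measure.real]

end Pool.Agent.T2H01.QI
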