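import Pool.Agent.T2H01.QI.Stm2

/-! Package GE0 of project QI (helper1), by helper18. -/

set_option autoImplicit false

noncomputable section

open MeasureTheory Metric Set Filter Topology
open scoped NNReal ENNReal

namespace Pool.Agent.T2H01.QI

namespace GE0

lemma dir_zero (θ : ℝ) : (dir θ) 0 = Real.cos θ := by simp [dir]

lemma dir_one (θ : ℝ) : (dir θ) 1 = Real.sin θ := by simp [dir]

lemma inner_dir (a : E2) (θ : ℝ) : inner ℝ a (dir θ) = a 0 * Real.cos θ + a 1 * Real.sin θ := by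
  rw [PiLp.inner_apply, Fin.sum_univ_two, dir_zero, dir_one]
  simp only [RCLike.inner_apply, conj_trivial]
  ring

lemma dir_cont : Continuous dir := by
  unfold dir
  refine (PiLp.continuous_toLp 2 _).comp ?_
  refine continuous_pi fun i => ?_
  fin_cases i
  · exact Real.continuous_cos
  · exact Real.continuous_sin

lemma gg_eq (Ω : Set E2) (θ : ℝ) : gg Ω θ =
    hs Ω (dir θ) - ((ctr Ω) 0 * Real.cos θ + (ctr Ω) 1 * Real.sin θ) - mr Ω := by
  unfold gg hc
  rw [inner_dir]

lemma ctr_zero (Ω : Set E2) (hc : Continuous (fun θ => hs Ω (dir θ))) :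
    (ctr Ω) 0 = (1 / Real.pi) * ∫ θ in (0 : ℝ)..(2 * Real.pi), hs Ω (dir θ) * Real.cos θ := by
  have h := (EuclideanSpace.proj (𝕜 := ℝ) (0 : Fin 2) : E2 →L[ℝ] ℝ).intervalIntegral_comp_comm
    (μ := volume) (a := 0) (b := 2 * Real.pi) (f := fun θ => hs Ω (dir θ) • dir θ)
    ((hc.smul dir_cont).intervalIntegrable _ _)
  have e : (ctr Ω) 0 = (1 / Real.pi) * (EuclideanSpace.proj (𝕜 := ℝ) (0 : Fin 2) : E2 →L[ℝ] ℝ)
      (∫ θ in (0 : ℝ)..(2 * Real.pi), hs Ω (dir θ) • dir θ) := by
    unfold ctr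
    simp
  rw [e, ← h]
  congr 1

lemma ctr_one (Ω : Set E2) (hc : Continuous (fun θ => hs Ω (dir θ))) :
    (ctr Ω) 1 = (1 / Real.pi) * ∫ θ in (0 : ℝ)..(2 * Real.pi), hs Ω (dir θ) * Real.sin θ := by
  have h := (EuclideanSpace.proj (𝕜 := ℝ) (1 : Fin 2) : E2 →L[ℝ] ℝ).intervalIntegral_comp_comm
    (μ := volume) (a := 0) (b := 2 * Real.pi) (f := fun θ => hs Ω (dir θ) • dir θ)
    ((hc.smul dir_cont).intervalIntegrable _ _)
  have e : (ctr Ω) 1 = (1 / Real.pi) * (EuclideanSpace.proj (𝕜 := ℝ) (1 : Fin 2) : E2 →L[ℝ] ℝ)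
      (∫ θ in (0 : ℝ)..(2 * Real.pi), hs Ω (dir θ) • dir θ) := by
    unfold ctr
    simp
  rw [e, ← h]
  congr 1

/-- integral of `(h - (a cos + b sin) - m) (x + y cos + z sin)` -/
lemma int_gen (h : ℝ → ℝ) (hh : Continuous h) (a b m x y z : ℝ) :
    ∫ θ in (0 : ℝ)..(2 * Real.pi), (h θ - (a * Real.cos θ + b * Real.sin θ) - m) *
        (x + y * Real.cos θ + z * Real.sin θ) =
      x * (∫ θ in (0 : ℝ)..(2 * Real.pi), h θ) +
      y * (∫ θ in (0 : ℝ)..(2 * Real.pi), h θ * Real.cos θ) +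
      z * (∫ θ in (0 : ℝ)..(2 * Real.pi), h θ * Real.sin θ) -
      (Real.pi * a * y + Real.pi * b * z + 2 * Real.pi * m * x) := by
  have hc := Real.continuous_cos
  have hs := Real.continuous_sin
  have i1 : ∀ f : ℝ → ℝ, Continuous f → IntervalIntegrable f volume 0 (2 * Real.pi) :=
    fun f hf => hf.intervalIntegrable _ _
  have e : ∀ θ : ℝ, (h θ - (a * Real.cos θ + b * Real.sin θ) - m) *
        (x + y * Real.cos θ + z * Real.sin θ) =
      (x * h θ + y * (h θ * Real.cos θ) + z * (h θ * Real.sin θ)) -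
      (((a * y) * (Real.cos θ ^ 2) + (b * z) * (Real.sin θ ^ 2) +
        (a * z + b * y) * (Real.sin θ * Real.cos θ)) +
        ((a * x + m * y) * Real.cos θ + (b * x + m * z) * Real.sin θ + m * x)) := by
    intro θ
    ring
  simp only [e]
  rw [intervalIntegral.integral_sub (i1 _ (by fun_prop)) (i1 _ (by fun_prop)),
    intervalIntegral.integral_add (i1 _ (by fun_prop)) (i1 _ (by fun_prop)),
    intervalIntegral.integral_add (i1 _ (by fun_prop)) (i1 _ (by fun_prop)),
    intervalIntegral.integral_add (i1 _ (by fun_prop)) (i1 _ (by fun_prop)),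
    intervalIntegral.integral_add (i1 _ (by fun_prop)) (i1 _ (by fun_prop)),
    intervalIntegral.integral_add (i1 _ (by fun_prop)) (i1 _ (by fun_prop)),
    intervalIntegral.integral_add (i1 _ (by fun_prop)) (i1 _ (by fun_prop)),
    intervalIntegral.integral_add (i1 _ (by fun_prop)) (i1 _ (by fun_prop))]
  simp only [intervalIntegral.integral_const_mul, integral_cos_sq, integral_sin_sq,
    integral_sin_mul_cos₁, integral_cos, integral_sin, intervalIntegral.integral_const,
    Real.sin_two_pi, Real.cos_two_pi, Real.sin_zero, Real.cos_zero, smul_eq_mul]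
  ring

end GE0

open GE0 in
theorem pGE0 (hHCT : S_HCT) : S_GE0 := by
  intro Ω hb hne
  obtain ⟨hcont, hper⟩ := hHCT Ω hb hne
  have hpi := Real.pi_pos
  have hg : gg Ω = fun θ => hs Ω (dir θ) -
      ((ctr Ω) 0 * Real.cos θ + (ctr Ω) 1 * Real.sin θ) - mr Ω := funext (gg_eq Ω)
  have hmr : ∫ θ in (0 : ℝ)..(2 * Real.pi), hs Ω (dir θ) = 2 * Real.pi * mr Ω := by
    unfold mr
    field_simp
  have h0 : ∫ θ in (0 : ℝ)..(2 * Real.pi), hs Ω (dir θ) * Real.cos θ = Real.pi * (ctr Ω) 0 := by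
    rw [ctr_zero Ω hcont]
    field_simp
  have h1 : ∫ θ in (0 : ℝ)..(2 * Real.pi), hs Ω (dir θ) * Real.sin θ = Real.pi * (ctr Ω) 1 := by
    rw [ctr_one Ω hcont]
    field_simp
  have key : ∀ x y z : ℝ, ∫ θ in (0 : ℝ)..(2 * Real.pi), gg Ω θ *
      (x + y * Real.cos θ + z * Real.sin θ) = 0 := by
    intro x y z
    simp only [gg_eq]
    rw [int_gen _ hcont, hmr, h0, h1]
    ring
  refine ⟨?_, ?_, ?_, ?_⟩
  · rw [hg]
    have hc := Real.continuous_cos
    have hs := Real.continuous_sin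
    exact (hcont.sub (by fun_prop)).sub continuous_const
  · intro θ
    rw [gg_eq, gg_eq, hper, Real.cos_add_two_pi, Real.sin_add_two_pi]
  · intro c
    have := key c.re 0 0
    unfold cf
    refine Eq.trans ?_ this
    refine intervalIntegral.integral_congr fun θ _ => ?_
    simp
  · intro c
    have := key 0 c.re (-c.im)
    unfold cf
    refine Eq.trans ?_ this
    refine intervalIntegral.integral_congr fun θ _ => ?_
    have e : (c * Complex.exp (Complex.I * (((1 : ℕ) : ℂ) * (θ : ℂ)))).re =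
        c.re * Real.cos θ - c.im * Real.sin θ := by
      have e1 : Complex.I * (((1 : ℕ) : ℂ) * (θ : ℂ)) = (θ : ℂ) * Complex.I := by
        push_cast
        ring
      rw [e1, Complex.mul_re, Complex.exp_ofReal_mul_I_re, Complex.exp_ofReal_mul_I_im]
    simp only [e]
    ring

end Pool.Agent.T2H01.QI
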