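import Pool.Agent.T2H01.QI.Stm2

/-! Package GE1 of project QI (helper1), by helper94. -/

set_option autoImplicit false

noncomputable section

open MeasureTheory Metric Set Filter Topology
open scoped NNReal ENNReal

namespace Pool.Agent.T2H01.QI

namespace GE1

/-- upper estimate of an integral by a Riemann sum -/
lemma riem (f : ℝ → ℝ) (hf : Continuous f) (T ε : ℝ) (hT : 0 < T) (N : ℕ) (hN : 0 < N)
    (h : ∀ j < N, ∀ x ∈ Icc (T * j / N) (T * ((j + 1 : ℕ) : ℝ) / N), f x ≤ f (T * j / N) + ε) :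
    ∫ x in (0 : ℝ)..T, f x ≤ (T / N) * ∑ j ∈ Finset.range N, f (T * j / N) + T * ε := by
  have hN' : (0 : ℝ) < N := by exact_mod_cast hN
  have h0 : (T * ((0 : ℕ) : ℝ) / N) = 0 := by simp
  have h1 : (T * (N : ℝ) / N) = T := by field_simp
  have h2 := intervalIntegral.sum_integral_adjacent_intervals (f := f) (μ := volume) (n := N)
    (a := fun j : ℕ => T * (j : ℝ) / N) (fun k _ => hf.intervalIntegrable _ _)
  simp only [h0, h1] at h2
  rw [← h2, Finset.mul_sum]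
  have h3 : T * ε = ∑ j ∈ Finset.range N, (T / N) * ε := by
    rw [Finset.sum_const, Finset.card_range, nsmul_eq_mul]
    field_simp
  rw [h3, ← Finset.sum_add_distrib]
  refine Finset.sum_le_sum fun j hj => ?_
  have hle : T * (j : ℝ) / N ≤ T * ((j + 1 : ℕ) : ℝ) / N := by
    rw [div_le_div_iff_of_pos_right hN']
    push_cast
    nlinarith
  calc ∫ x in (T * (j : ℝ) / N)..(T * ((j + 1 : ℕ) : ℝ) / N), f x
      ≤ ∫ x in (T * (j : ℝ) / N)..(T * ((j + 1 : ℕ) : ℝ) / N), (f (T * j / N) + ε) :=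
        intervalIntegral.integral_mono_on hle (hf.intervalIntegrable _ _)
          (continuous_const.intervalIntegrable _ _) (h j (Finset.mem_range.mp hj))
    _ = T / N * f (T * j / N) + T / N * ε := by
        rw [intervalIntegral.integral_const, smul_eq_mul]
        push_cast
        field_simp
        ring

end GE1

open GE1 in
theorem pGE1 (hWID : S_WID) (hHCT : S_HCT) : S_GE1 := by
  intro Ω hLip hcon hper
  have hbd : Bornology.IsBounded Ω := hLip.2.1
  have hne : Ω.Nonempty := hcon.nonempty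
  obtain ⟨hcont, -⟩ := hHCT Ω hbd hne
  obtain ⟨f, hf⟩ : ∃ f : ℝ → ℝ, f = fun θ => hs Ω (dir θ) := ⟨_, rfl⟩
  obtain ⟨P, hP'⟩ : ∃ P : ℝ, P = (per Ω).toReal := ⟨_, rfl⟩
  have hP : 0 ≤ P := hP' ▸ ENNReal.toReal_nonneg
  have hpi := Real.pi_pos
  rw [← hf] at hcont
  have hmr : 2 * Real.pi * mr Ω = ∫ θ in (0 : ℝ)..(2 * Real.pi), f θ := by
    rw [mr, hf]
    field_simp
  rw [hmr, ← hP']
  refine le_of_forall_pos_le_add fun η hη => ?_
  have huc : UniformContinuousOn f (Icc 0 (2 * Real.pi)) :=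
    isCompact_Icc.uniformContinuousOn_of_continuous hcont.continuousOn
  obtain ⟨δ, hδ, hδ'⟩ := Metric.uniformContinuousOn_iff.mp huc (η / (4 * Real.pi)) (by positivity)
  obtain ⟨M, hM⟩ := exists_nat_gt (max (2 * Real.pi / δ) (Real.pi ^ 2 * P / η))
  have hM1 : 2 * Real.pi / δ < M := (le_max_left _ _).trans_lt hM
  have hM2 : Real.pi ^ 2 * P / η < M := (le_max_right _ _).trans_lt hM
  have hM0 : (0 : ℝ) < M := lt_trans (by positivity) hM1
  have hMn : 0 < M := by exact_mod_cast hM0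
  rw [div_lt_iff₀ hδ] at hM1
  rw [div_lt_iff₀ hη] at hM2
  have hN : 0 < 2 * M := by omega
  have hcast : ((2 * M : ℕ) : ℝ) = 2 * M := by push_cast; ring
  have h1 := riem f hcont (2 * Real.pi) (η / (4 * Real.pi)) (by positivity) (2 * M) hN (by
    intro j hj x hx
    have hj' : ((j + 1 : ℕ) : ℝ) ≤ ((2 * M : ℕ) : ℝ) := by exact_mod_cast hj
    have hNp : (0 : ℝ) < ((2 * M : ℕ) : ℝ) := by exact_mod_cast hN
    have ha : 0 ≤ 2 * Real.pi * (j : ℝ) / ((2 * M : ℕ) : ℝ) := by positivity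
    have hb : 2 * Real.pi * ((j + 1 : ℕ) : ℝ) / ((2 * M : ℕ) : ℝ) ≤ 2 * Real.pi := by
      rw [div_le_iff₀ hNp]
      nlinarith
    have hab : 2 * Real.pi * ((j + 1 : ℕ) : ℝ) / ((2 * M : ℕ) : ℝ) -
        2 * Real.pi * (j : ℝ) / ((2 * M : ℕ) : ℝ) < δ := by
      rw [← sub_div, div_lt_iff₀ hNp, hcast]
      push_cast
      nlinarith
    have h2 := hδ' x ⟨ha.trans hx.1, hx.2.trans hb⟩ (2 * Real.pi * (j : ℝ) / ((2 * M : ℕ) : ℝ))
      ⟨ha, (hx.1.trans hx.2).trans hb⟩ (by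
        rw [Real.dist_eq, abs_of_nonneg (by linarith [hx.1])]
        linarith [hx.2])
    rw [Real.dist_eq] at h2
    linarith [(abs_lt.mp h2).2])
  have h2 := hWID Ω hLip hcon hper M hMn
  have h3 : ∑ j ∈ Finset.range (2 * M), hs Ω (nd (2 * M) j) =
      ∑ j ∈ Finset.range (2 * M), f (2 * Real.pi * j / ((2 * M : ℕ) : ℝ)) := by
    rw [hf]
    rfl
  rw [h3, ← hP', hcast] at h2
  rw [hcast] at h1
  refine h1.trans ?_
  obtain ⟨S, hS⟩ : ∃ S : ℝ, S = ∑ j ∈ Finset.range (2 * M), f (2 * Real.pi * j / (2 * (M : ℝ))) :=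
    ⟨_, rfl⟩
  rw [← hS] at h2 ⊢
  have h4 : 2 * Real.pi * (η / (4 * Real.pi)) = η / 2 := by
    field_simp
    ring
  rw [h4]
  have h5 : 2 * Real.pi / (2 * (M : ℝ)) * S ≤
      2 * Real.pi / (2 * (M : ℝ)) * ((2 * (2 * M) / Real.pi + Real.pi) * P / 4) :=
    mul_le_mul_of_nonneg_left (by linarith) (by positivity)
  have h6 : 2 * Real.pi / (2 * (M : ℝ)) * ((2 * (2 * M) / Real.pi + Real.pi) * P / 4) =
      P + Real.pi ^ 2 * P / (4 * M) := by
    field_simp
    ring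
  have h7 : Real.pi ^ 2 * P / (4 * M) ≤ η / 4 := by
    rw [div_le_iff₀ (by positivity)]
    nlinarith
  linarith

end Pool.Agent.T2H01.QI
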