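import Pool.Agent.T2H01.QI.Stm

/-!
# QI, package LIM: the limit of infinitely many directions
-/

set_option autoImplicit false

noncomputable section

open MeasureTheory Metric Set Filter Topology
open scoped NNReal ENNReal

namespace Pool.Agent.T2H01.QI

namespace LIM

theorem nd_opp {M : ℕ} (hM : 0 < M) (j : ℕ) : nd (2 * M) (M + j) = -nd (2 * M) j := by
  unfold nd dir
  have hM' : (M : ℝ) ≠ 0 := by exact_mod_cast hM.ne'
  have e : 2 * Real.pi * ((M + j : ℕ) : ℝ) / ((2 * M : ℕ) : ℝ) =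
      2 * Real.pi * j / ((2 * M : ℕ) : ℝ) + Real.pi := by
    push_cast
    field_simp
    ring
  rw [e, Real.cos_add_pi, Real.sin_add_pi]
  ext i
  fin_cases i <;> simp

theorem sum_nd {M : ℕ} (hM : 0 < M) : ∑ j ∈ Finset.range (2 * M), nd (2 * M) j = 0 := by
  rw [two_mul, Finset.sum_range_add, ← two_mul, ← Finset.sum_add_distrib]
  refine Finset.sum_eq_zero fun j _ => ?_
  rw [nd_opp hM]
  simp

theorem hs_ge {Ω : Set E2} (hb : Bornology.IsBounded Ω) {x : E2} (hx : x ∈ Ω) (n : E2) :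
    inner ℝ x n ≤ hs Ω n := by
  refine le_csSup ?_ ⟨x, hx, rfl⟩
  obtain ⟨R, hR⟩ := hb.exists_norm_le
  refine ⟨R * ‖n‖, ?_⟩
  rintro _ ⟨y, hy, rfl⟩
  exact (real_inner_le_norm y n).trans (mul_le_mul_of_nonneg_right (hR y hy) (norm_nonneg n))

theorem mean_nonneg {Ω : Set E2} (hb : Bornology.IsBounded Ω) (hne : Ω.Nonempty) {M : ℕ}
    (hM : 0 < M) : 0 ≤ (∑ j ∈ Finset.range (2 * M), hs Ω (nd (2 * M) j)) / ((2 * M : ℕ) : ℝ) := by
  obtain ⟨x, hx⟩ := hne
  have h1 : (0 : ℝ) = ∑ j ∈ Finset.range (2 * M), inner ℝ x (nd (2 * M) j) := by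
    rw [← inner_sum, sum_nd hM, inner_zero_right]
  have h2 : 0 ≤ ∑ j ∈ Finset.range (2 * M), hs Ω (nd (2 * M) j) := by
    rw [h1]
    exact Finset.sum_le_sum fun j _ => hs_ge hb hx _
  positivity

theorem tend_inv : Tendsto (fun M : ℕ => Real.pi / ((2 * M : ℕ) : ℝ)) atTop (𝓝 0) := by
  have h1 : Tendsto (fun M : ℕ => ((2 * M : ℕ) : ℝ)) atTop atTop :=
    tendsto_natCast_atTop_atTop.comp (tendsto_id.const_mul_atTop' (by norm_num : 0 < 2))
  exact h1.const_div_atTop Real.pi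

theorem tend_cos : Tendsto (fun M : ℕ => Real.cos (Real.pi / ((2 * M : ℕ) : ℝ))) atTop (𝓝 1) := by
  have h := (Real.continuous_cos.tendsto 0).comp tend_inv
  rwa [Real.cos_zero] at h

theorem tend_tan : Tendsto (fun M : ℕ => ((2 * M : ℕ) : ℝ) * Real.tan (Real.pi / ((2 * M : ℕ) : ℝ)))
    atTop (𝓝 Real.pi) := by
  have hd : HasDerivAt Real.tan (1 / Real.cos 0 ^ 2) 0 := Real.hasDerivAt_tan (by simp)
  rw [Real.cos_zero] at hd
  have h1 := hd.tendsto_slope_zero
  have h2 : Tendsto (fun M : ℕ => Real.pi / ((2 * M : ℕ) : ℝ)) atTop (𝓝[≠] 0) := by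
    rw [tendsto_nhdsWithin_iff]
    refine ⟨tend_inv, ?_⟩
    filter_upwards [eventually_gt_atTop 0] with M hM
    have : (0 : ℝ) < ((2 * M : ℕ) : ℝ) := by exact_mod_cast (by omega : 0 < 2 * M)
    have := Real.pi_pos
    have h3 : 0 < Real.pi / ((2 * M : ℕ) : ℝ) := by positivity
    exact h3.ne'
  have h3 := (h1.comp h2).const_mul Real.pi
  simp only [one_pow, div_one, mul_one] at h3
  refine h3.congr' ?_
  filter_upwards [eventually_gt_atTop 0] with M hM
  have h4 : ((2 * M : ℕ) : ℝ) ≠ 0 := by exact_mod_cast (by omega : 2 * M ≠ 0)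
  have h5 := Real.pi_ne_zero
  simp only [Function.comp, zero_add, Real.tan_zero, sub_zero, smul_eq_mul]
  field_simp

theorem tend_r (R P : ℝ) : Tendsto (fun M : ℕ => R + Real.pi * P / (4 * ((2 * M : ℕ) : ℝ))) atTop
    (𝓝 R) := by
  have h := (tend_inv.mul_const (P / 4)).const_add R
  simp only [zero_mul, add_zero] at h
  refine h.congr fun M => ?_
  congr 1
  rw [div_mul_div_comm]
  ring

end LIM

open LIM in
theorem pLIM (hWID : S_WID) (hSUPB : S_SUPB) (hCON : S_CON) : S_LIM := by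
  intro Ω hL hc hP
  set P := (per Ω).toReal with hPdef
  set R := P / (2 * Real.pi) with hR
  have hpi := Real.pi_pos
  have hP0 : 0 ≤ P := ENNReal.toReal_nonneg
  have hR0 : 0 ≤ R := by rw [hR]; positivity
  have hopen := hL.1
  have hb := hL.2.1
  have hne := hc.nonempty
  set rr : ℕ → ℝ := fun M => R + Real.pi * P / (4 * ((2 * M : ℕ) : ℝ)) with hrr
  set T : ℕ → ℝ := fun M => ((2 * M : ℕ) : ℝ) * Real.tan (Real.pi / ((2 * M : ℕ) : ℝ)) with hT
  set E : ℕ → ℝ := fun M => T M * rr M ^ 2 - volume.real Ω with hE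
  have hEt : Tendsto E atTop (𝓝 (Real.pi * R ^ 2 - volume.real Ω)) :=
    (tend_tan.mul ((tend_r R P).pow 2)).sub_const _
  -- the main facts for large `M`
  have hmain : ∀ M : ℕ, 3 ≤ M → 0 ≤ E M ∧
      ∃ a : E2, Ω ⊆ closedBall a ((rr M + 5 * Real.sqrt (E M)) /
        Real.cos (Real.pi / ((2 * M : ℕ) : ℝ))) := by
    intro M hM
    have hM0 : 0 < M := by omega
    have hN5 : 5 ≤ 2 * M := by omega
    have hN : (0 : ℝ) < ((2 * M : ℕ) : ℝ) := by exact_mod_cast (by omega : 0 < 2 * M)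
    have hN6 : (6 : ℝ) ≤ ((2 * M : ℕ) : ℝ) := by exact_mod_cast (by omega : 6 ≤ 2 * M)
    obtain ⟨a, ha⟩ := hSUPB Ω hopen hb hne (2 * M) hN5
    simp only at ha
    set r := (∑ j ∈ Finset.range (2 * M), hs Ω (nd (2 * M) j)) / ((2 * M : ℕ) : ℝ) with hr
    have hr0 : 0 ≤ r := mean_nonneg hb hne hM0
    have hrle : r ≤ rr M := by
      have hw := hWID Ω hL hc hP M hM0
      rw [← hPdef] at hw
      have e1 : ∑ j ∈ Finset.range (2 * M), hs Ω (nd (2 * M) j) = r * ((2 * M : ℕ) : ℝ) := by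
        rw [hr]
        field_simp
      rw [e1] at hw
      have e2 : rr M * (4 * ((2 * M : ℕ) : ℝ)) =
          (2 * ((2 * M : ℕ) : ℝ) / Real.pi + Real.pi) * P := by
        simp only [hrr, hR]
        field_simp
        ring
      have hw' : r * (4 * ((2 * M : ℕ) : ℝ)) ≤ rr M * (4 * ((2 * M : ℕ) : ℝ)) := by
        rw [e2]
        calc r * (4 * ((2 * M : ℕ) : ℝ)) = 4 * (r * ((2 * M : ℕ) : ℝ)) := by ring
          _ ≤ _ := hw
      exact le_of_mul_le_mul_right hw' (by positivity)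
    have hang0 : 0 < Real.pi / ((2 * M : ℕ) : ℝ) := by positivity
    have hang : Real.pi / ((2 * M : ℕ) : ℝ) < Real.pi / 2 :=
      div_lt_div_of_pos_left hpi (by norm_num) (by linarith)
    have hT0 : 0 ≤ T M := by
      simp only [hT]
      exact mul_nonneg hN.le (Real.tan_nonneg_of_nonneg_of_le_pi_div_two hang0.le hang.le)
    have hcos : 0 < Real.cos (Real.pi / ((2 * M : ℕ) : ℝ)) :=
      Real.cos_pos_of_mem_Ioo ⟨by linarith, hang⟩
    have hDE : T M * r ^ 2 - volume.real Ω ≤ E M := by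
      simp only [hE]
      have : r ^ 2 ≤ rr M ^ 2 := pow_le_pow_left₀ hr0 hrle 2
      have := mul_le_mul_of_nonneg_left this hT0
      linarith
    have hEnn : 0 ≤ E M := by
      have h1 := ha 0 (by omega)
      have h2 : 0 ≤ 25 * (T M * r ^ 2 - volume.real Ω) := le_trans (sq_nonneg _) h1
      linarith
    refine ⟨hEnn, a, ?_⟩
    refine hCON Ω hb (2 * M) hN5 a (rr M + 5 * Real.sqrt (E M))
      (add_nonneg (hr0.trans hrle) (by positivity)) fun j hj => ?_
    have h1 := ha j hj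
    have h2 : (hs Ω (nd (2 * M) j) - r - inner ℝ a (nd (2 * M) j)) ^ 2 ≤
        (5 * Real.sqrt (E M)) ^ 2 := by
      rw [mul_pow, Real.sq_sqrt hEnn]
      refine h1.trans ?_
      have : (25 : ℝ) * (T M * r ^ 2 - volume.real Ω) ≤ 25 * E M := by linarith
      calc (25 : ℝ) * (((2 * M : ℕ) : ℝ) * Real.tan (Real.pi / ((2 * M : ℕ) : ℝ)) * r ^ 2 -
            volume.real Ω) ≤ 25 * E M := this
        _ = 5 ^ 2 * E M := by norm_num
    have h3 := abs_le_of_sq_le_sq h2 (by positivity)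
    have h4 := (abs_le.1 h3).2
    linarith
  refine ⟨?_, ?_⟩
  · have h1 : 0 ≤ Real.pi * R ^ 2 - volume.real Ω := by
      refine ge_of_tendsto hEt ?_
      filter_upwards [eventually_ge_atTop 3] with M hM
      exact (hmain M hM).1
    linarith
  · intro η hη
    have hlim : Tendsto (fun M => (rr M + 5 * Real.sqrt (E M)) /
        Real.cos (Real.pi / ((2 * M : ℕ) : ℝ))) atTop
        (𝓝 ((R + 5 * Real.sqrt (Real.pi * R ^ 2 - volume.real Ω)) / 1)) :=
      ((tend_r R P).add ((hEt.sqrt).const_mul 5)).div tend_cos one_ne_zero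
    rw [div_one] at hlim
    have hev := (tendsto_order.1 hlim).2
      (R + 5 * Real.sqrt (Real.pi * R ^ 2 - volume.real Ω) + η) (by linarith)
    obtain ⟨M, hM1, hM2⟩ := (hev.and (eventually_ge_atTop 3)).exists
    obtain ⟨_, a, ha⟩ := hmain M hM2
    exact ⟨a, ha.trans (closedBall_subset_closedBall hM1.le)⟩

end Pool.Agent.T2H01.QI
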