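import Pool.Agent.T2H01.QI.Stm

/-! # Package ORT: orthogonal decomposition of the support numbers -/

set_option autoImplicit false

noncomputable section

open MeasureTheory Metric Set Filter Topology
open scoped NNReal ENNReal

namespace Pool.Agent.T2H01.QI

namespace ORT

lemma nd_zero (N j : ℕ) : (nd N j) 0 = Real.cos (2 * Real.pi * j / N) := by simp [nd, dir]

lemma nd_one (N j : ℕ) : (nd N j) 1 = Real.sin (2 * Real.pi * j / N) := by simp [nd, dir]

lemma inner_nd (a : E2) (N j : ℕ) : inner ℝ a (nd N j) =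
    a 0 * Real.cos (2 * Real.pi * j / N) + a 1 * Real.sin (2 * Real.pi * j / N) := by
  rw [PiLp.inner_apply, Fin.sum_univ_two, nd_zero, nd_one]
  simp only [RCLike.inner_apply, conj_trivial]
  ring

lemma csum {N : ℕ} (hN : 5 ≤ N) {k : ℕ} (hk : k = 1 ∨ k = 2) :
    ∑ j ∈ Finset.range N,
      Complex.exp (((k * (2 * Real.pi * j / N) : ℝ) : ℂ) * Complex.I) = 0 := by
  have hN0 : N ≠ 0 := by omega
  have hprim := Complex.isPrimitiveRoot_exp N hN0
  set ζ : ℂ := Complex.exp (2 * Real.pi * Complex.I / N) with hζ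
  have hx : ζ ^ k ≠ 1 := by
    intro h
    have h1 := (hprim.pow_eq_one_iff_dvd k).1 h
    have h2 := Nat.le_of_dvd (by rcases hk with rfl | rfl <;> norm_num) h1
    rcases hk with rfl | rfl <;> omega
  have hx1 : (ζ ^ k) ^ N = 1 := by
    rw [← pow_mul, mul_comm, pow_mul, hprim.pow_eq_one, one_pow]
  have hterm : ∀ j ∈ Finset.range N,
      Complex.exp (((k * (2 * Real.pi * j / N) : ℝ) : ℂ) * Complex.I) = (ζ ^ k) ^ j := by
    intro j _
    rw [hζ, ← pow_mul, ← Complex.exp_nat_mul]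
    congr 1
    push_cast
    ring
  rw [Finset.sum_congr rfl hterm, geom_sum_eq hx, hx1, sub_self, zero_div]

lemma cos_sum {N : ℕ} (hN : 5 ≤ N) {k : ℕ} (hk : k = 1 ∨ k = 2) :
    ∑ j ∈ Finset.range N, Real.cos (k * (2 * Real.pi * j / N)) = 0 := by
  have h := congrArg Complex.re (csum hN hk)
  rw [Complex.re_sum, Complex.zero_re] at h
  simpa only [Complex.exp_ofReal_mul_I_re] using h

lemma sin_sum {N : ℕ} (hN : 5 ≤ N) {k : ℕ} (hk : k = 1 ∨ k = 2) :
    ∑ j ∈ Finset.range N, Real.sin (k * (2 * Real.pi * j / N)) = 0 := by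
  have h := congrArg Complex.im (csum hN hk)
  rw [Complex.im_sum, Complex.zero_im] at h
  simpa only [Complex.exp_ofReal_mul_I_im] using h

lemma c1 {N : ℕ} (hN : 5 ≤ N) : ∑ j ∈ Finset.range N, Real.cos (2 * Real.pi * j / N) = 0 := by
  have h := cos_sum hN (k := 1) (Or.inl rfl)
  simpa only [Nat.cast_one, one_mul] using h

lemma s1 {N : ℕ} (hN : 5 ≤ N) : ∑ j ∈ Finset.range N, Real.sin (2 * Real.pi * j / N) = 0 := by
  have h := sin_sum hN (k := 1) (Or.inl rfl)
  simpa only [Nat.cast_one, one_mul] using h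

lemma cc {N : ℕ} (hN : 5 ≤ N) :
    ∑ j ∈ Finset.range N, Real.cos (2 * Real.pi * j / N) ^ 2 = N / 2 := by
  have h := cos_sum hN (k := 2) (Or.inr rfl)
  have h1 : ∀ j : ℕ, Real.cos (2 * Real.pi * j / N) ^ 2 =
      1 / 2 + Real.cos ((2 : ℕ) * (2 * Real.pi * j / N)) / 2 := fun j => by
    rw [Nat.cast_two, Real.cos_sq]
  have h2 : ∑ j ∈ Finset.range N, Real.cos ((2 : ℕ) * (2 * Real.pi * j / N)) / 2 = 0 := by
    rw [← Finset.sum_div, h, zero_div]
  simp_rw [h1]
  rw [Finset.sum_add_distrib, h2]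
  simp
  ring

lemma ss {N : ℕ} (hN : 5 ≤ N) :
    ∑ j ∈ Finset.range N, Real.sin (2 * Real.pi * j / N) ^ 2 = N / 2 := by
  have h1 : ∀ j : ℕ, Real.sin (2 * Real.pi * j / N) ^ 2 =
      1 - Real.cos (2 * Real.pi * j / N) ^ 2 := fun j => Real.sin_sq _
  simp_rw [h1]
  rw [Finset.sum_sub_distrib, cc hN]
  simp
  ring

lemma cs {N : ℕ} (hN : 5 ≤ N) :
    ∑ j ∈ Finset.range N, Real.cos (2 * Real.pi * j / N) * Real.sin (2 * Real.pi * j / N) = 0 := by
  have h := sin_sum hN (k := 2) (Or.inr rfl)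
  have h1 : ∀ j : ℕ, Real.cos (2 * Real.pi * j / N) * Real.sin (2 * Real.pi * j / N) =
      Real.sin ((2 : ℕ) * (2 * Real.pi * j / N)) / 2 := fun j => by
    rw [Nat.cast_two, Real.sin_two_mul]
    ring
  simp_rw [h1]
  rw [← Finset.sum_div, h, zero_div]

lemma shift {N : ℕ} {g : ℕ → ℝ} (hg : ∀ j, g (j + N) = g j) (m : ℕ) :
    ∑ j ∈ Finset.range N, g (j + m) = ∑ j ∈ Finset.range N, g j := by
  induction m with
  | zero => rfl
  | succ m ih =>
    rw [← ih]
    have h1 := Finset.sum_range_succ (fun j => g (j + m)) N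
    have h2 := Finset.sum_range_succ' (fun j => g (j + m)) N
    rw [h1] at h2
    have h3 : g (N + m) = g (0 + m) := by rw [add_comm N m, hg, zero_add]
    have h4 : ∑ j ∈ Finset.range N, g (j + (m + 1)) = ∑ j ∈ Finset.range N, g (j + 1 + m) :=
      Finset.sum_congr rfl fun j _ => by rw [add_assoc, add_comm 1 m]
    rw [h4]
    linarith

lemma nd_add (N j : ℕ) (hN : 5 ≤ N) :
    Real.cos (2 * Real.pi * ((j + N : ℕ) : ℝ) / N) = Real.cos (2 * Real.pi * j / N) ∧
    Real.sin (2 * Real.pi * ((j + N : ℕ) : ℝ) / N) = Real.sin (2 * Real.pi * j / N) := by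
  have hN0 : (N : ℝ) ≠ 0 := by
    have : N ≠ 0 := by omega
    exact_mod_cast this
  have h : 2 * Real.pi * ((j + N : ℕ) : ℝ) / N = 2 * Real.pi * j / N + 2 * Real.pi := by
    push_cast
    field_simp
  rw [h, Real.cos_add_two_pi, Real.sin_add_two_pi]
  exact ⟨rfl, rfl⟩

lemma tan_half {N : ℕ} (hN : 5 ≤ N) :
    (1 - Real.cos (2 * Real.pi / N)) / Real.sin (2 * Real.pi / N) = Real.tan (Real.pi / N) := by
  have hN0 : (5 : ℝ) ≤ N := by exact_mod_cast hN
  have hπ := Real.pi_pos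
  have h1 : 0 < Real.pi / N := by positivity
  have h2 : Real.pi / N < Real.pi / 2 := by
    apply div_lt_div_of_pos_left hπ (by norm_num) (by linarith)
  have hs : 0 < Real.sin (Real.pi / N) := Real.sin_pos_of_pos_of_lt_pi h1 (by linarith)
  have hc : 0 < Real.cos (Real.pi / N) := Real.cos_pos_of_mem_Ioo ⟨by linarith, h2⟩
  rw [show 2 * Real.pi / N = 2 * (Real.pi / N) by ring, Real.sin_two_mul, Real.cos_two_mul,
    Real.tan_eq_sin_div_cos]
  have h3 : 1 - (2 * Real.cos (Real.pi / N) ^ 2 - 1) = 2 * Real.sin (Real.pi / N) ^ 2 := by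
    rw [Real.sin_sq]
    ring
  rw [h3]
  field_simp

end ORT

open ORT in
theorem pORT (hQTR : S_QTR) : S_ORT := by
  intro N hN h hper
  have hN0 : (N : ℝ) ≠ 0 := by
    have : N ≠ 0 := by omega
    exact_mod_cast this
  obtain ⟨c, hc⟩ : ∃ c : ℕ → ℝ, ∀ j, c j = Real.cos (2 * Real.pi * j / N) :=
    ⟨_, fun _ => rfl⟩
  obtain ⟨s, hs⟩ : ∃ s : ℕ → ℝ, ∀ j, s j = Real.sin (2 * Real.pi * j / N) :=
    ⟨_, fun _ => rfl⟩
  have hc1 : ∑ j ∈ Finset.range N, c j = 0 := by simp_rw [hc]; exact c1 hN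
  have hs1 : ∑ j ∈ Finset.range N, s j = 0 := by simp_rw [hs]; exact s1 hN
  have hcc : ∑ j ∈ Finset.range N, c j ^ 2 = N / 2 := by simp_rw [hc]; exact cc hN
  have hss : ∑ j ∈ Finset.range N, s j ^ 2 = N / 2 := by simp_rw [hs]; exact ss hN
  have hcs : ∑ j ∈ Finset.range N, c j * s j = 0 := by simp_rw [hc, hs]; exact cs hN
  set a : E2 := !₂[2 / N * ∑ j ∈ Finset.range N, h j * c j,
    2 / N * ∑ j ∈ Finset.range N, h j * s j] with ha
  have ha0 : a 0 = 2 / N * ∑ j ∈ Finset.range N, h j * c j := by simp [ha]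
  have ha1 : a 1 = 2 / N * ∑ j ∈ Finset.range N, h j * s j := by simp [ha]
  have hin : ∀ j, inner ℝ a (nd N j) = a 0 * c j + a 1 * s j := fun j => by
    rw [inner_nd, hc, hs]
  refine ⟨a, ?_⟩
  intro r g
  have hr : r = (∑ j ∈ Finset.range N, h j) / N := rfl
  have hg : ∀ j, g j = h j - r - (a 0 * c j + a 1 * s j) := fun j => by
    show h j - r - inner ℝ a (nd N j) = _
    rw [hin]
  clear_value g r
  have hsum : ∑ j ∈ Finset.range N, g j = 0 := by
    simp_rw [hg]
    rw [Finset.sum_sub_distrib, Finset.sum_sub_distrib, Finset.sum_add_distrib, ← Finset.mul_sum,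
      ← Finset.mul_sum, hc1, hs1, hr]
    simp
    field_simp
    simp
  have hgc : ∑ j ∈ Finset.range N, g j * c j = 0 := by
    have h1 : ∀ j, g j * c j = h j * c j - r * c j - a 0 * c j ^ 2 - a 1 * (c j * s j) :=
      fun j => by
        rw [hg]
        ring
    simp_rw [h1]
    rw [Finset.sum_sub_distrib, Finset.sum_sub_distrib, Finset.sum_sub_distrib, ← Finset.mul_sum,
      ← Finset.mul_sum, ← Finset.mul_sum, hc1, hcc, hcs, ha0]
    field_simp
    ring
  have hgs : ∑ j ∈ Finset.range N, g j * s j = 0 := by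
    have h1 : ∀ j, g j * s j = h j * s j - r * s j - a 0 * (c j * s j) - a 1 * s j ^ 2 :=
      fun j => by
        rw [hg]
        ring
    simp_rw [h1]
    rw [Finset.sum_sub_distrib, Finset.sum_sub_distrib, Finset.sum_sub_distrib, ← Finset.mul_sum,
      ← Finset.mul_sum, ← Finset.mul_sum, hs1, hss, hcs, ha1]
    field_simp
    ring
  refine ⟨hsum, ?_, ?_⟩
  · ext i
    rw [WithLp.ofLp_sum, Finset.sum_apply]
    fin_cases i
    · simp only [Fin.zero_eta, PiLp.smul_apply, smul_eq_mul, nd_zero, ← hc, hgc]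
      simp
    · simp only [Fin.mk_one, PiLp.smul_apply, smul_eq_mul, nd_one, ← hs, hgs]
      simp
  · have hgper : ∀ j, g (j + N) = g j := fun j => by
      rw [hg, hg, hper, hc, hc, hs, hs, (nd_add N j hN).1, (nd_add N j hN).2]
    have h1 := hQTR N hN h hper a
    have h2 : (fun j => h j - inner ℝ a (nd N j)) = fun j => r + g j := funext fun j => by
      rw [hin, hg]
      ring
    rw [h2] at h1
    rw [← h1]
    unfold Q
    have hb1 := shift hgper 1
    have hb2 := shift hgper (N - 1)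
    rw [hsum] at hb1 hb2
    have h3 : ∑ j ∈ Finset.range N, (r + g j) * (r + g (j + 1) + (r + g (j + (N - 1))) -
        2 * Real.cos (2 * Real.pi / N) * (r + g j)) =
        N * (2 * (1 - Real.cos (2 * Real.pi / N)) * r ^ 2) +
        ∑ j ∈ Finset.range N, g j * (g (j + 1) + g (j + (N - 1)) -
          2 * Real.cos (2 * Real.pi / N) * g j) := by
      have h4 : ∀ j, (r + g j) * (r + g (j + 1) + (r + g (j + (N - 1))) -
          2 * Real.cos (2 * Real.pi / N) * (r + g j)) =
          2 * (1 - Real.cos (2 * Real.pi / N)) * r ^ 2 + r * g (j + 1) + r * g (j + (N - 1)) +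
          (2 - 4 * Real.cos (2 * Real.pi / N)) * r * g j +
          g j * (g (j + 1) + g (j + (N - 1)) - 2 * Real.cos (2 * Real.pi / N) * g j) :=
        fun j => by ring
      have h5 : ∑ j ∈ Finset.range N, r * g (j + 1) = 0 := by rw [← Finset.mul_sum, hb1, mul_zero]
      have h6 : ∑ j ∈ Finset.range N, r * g (j + (N - 1)) = 0 := by
        rw [← Finset.mul_sum, hb2, mul_zero]
      have h7 : ∑ j ∈ Finset.range N, (2 - 4 * Real.cos (2 * Real.pi / N)) * r * g j = 0 := by
        rw [← Finset.mul_sum, hsum, mul_zero]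
      simp_rw [h4]
      rw [Finset.sum_add_distrib, Finset.sum_add_distrib, Finset.sum_add_distrib,
        Finset.sum_add_distrib, h5, h6, h7, Finset.sum_const, Finset.card_range, nsmul_eq_mul]
      simp
    rw [h3, mul_add, ← tan_half hN]
    congr 1
    ring

end Pool.Agent.T2H01.QI
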