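import Pool.Agent.T2H01.QI.Stm

/-!
# QI, package SUPB: the support numbers are close to those of a disc
-/

set_option autoImplicit false

noncomputable section

open MeasureTheory Metric Set Filter Topology
open scoped NNReal ENNReal

namespace Pool.Agent.T2H01.QI

namespace SUPB

theorem nd_per {N : ℕ} (hN : 0 < N) (j : ℕ) : nd N (j + N) = nd N j := by
  unfold nd dir
  have hN' : (N : ℝ) ≠ 0 := by exact_mod_cast hN.ne'
  have e : 2 * Real.pi * ((j + N : ℕ) : ℝ) / N = 2 * Real.pi * j / N + 2 * Real.pi := by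
    push_cast
    field_simp
  rw [e, Real.cos_add_two_pi, Real.sin_add_two_pi]

theorem sum_shift {N : ℕ} (F : ℕ → ℝ) (hF : ∀ j, F (j + N) = F j) (c : ℕ) :
    ∑ j ∈ Finset.range N, F (j + c) = ∑ j ∈ Finset.range N, F j := by
  induction c with
  | zero => simp
  | succ c ih =>
    rw [← ih]
    have h1 := Finset.sum_range_succ (fun j => F (j + c)) N
    have h2 := Finset.sum_range_succ' (fun j => F (j + c)) N
    have h3 : F (N + c) = F (0 + c) := by
      rw [add_comm N c, hF, zero_add]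
    have h4 : ∑ j ∈ Finset.range N, F (j + 1 + c) = ∑ j ∈ Finset.range N, F (j + (c + 1)) :=
      Finset.sum_congr rfl fun j _ => by rw [show j + 1 + c = j + (c + 1) by ring]
    rw [h1] at h2
    rw [← h4]
    linarith

theorem abs_diff_le {N : ℕ} (g : ℕ → ℝ) {i j : ℕ} (hij : i ≤ j) (hj : j < N) :
    |g j - g i| ≤ ∑ k ∈ Finset.range N, |g (k + 1) - g k| := by
  have h1 : g j - g i = ∑ k ∈ Finset.Ico i j, (g (k + 1) - g k) :=
    (Finset.sum_Ico_sub g hij).symm
  rw [h1]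
  refine (Finset.abs_sum_le_sum_abs _ _).trans ?_
  refine Finset.sum_le_sum_of_subset_of_nonneg ?_ fun k _ _ => abs_nonneg _
  intro k hk
  rw [Finset.mem_Ico] at hk
  exact Finset.mem_range.2 (by omega)

theorem sq_le {N : ℕ} (hN : 0 < N) (g : ℕ → ℝ) (h0 : ∑ j ∈ Finset.range N, g j = 0) {j : ℕ}
    (hj : j < N) : g j ^ 2 ≤ N * ∑ k ∈ Finset.range N, (g (k + 1) - g k) ^ 2 := by
  set V := ∑ k ∈ Finset.range N, |g (k + 1) - g k| with hV
  have hN' : (0 : ℝ) < N := by exact_mod_cast hN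
  have h1 : ∀ i ∈ Finset.range N, |g j - g i| ≤ V := by
    intro i hi
    rw [Finset.mem_range] at hi
    rcases le_total i j with h | h
    · exact abs_diff_le g h hj
    · rw [abs_sub_comm]
      exact abs_diff_le g h hi
  have h2 : (N : ℝ) * g j = ∑ i ∈ Finset.range N, (g j - g i) := by
    rw [Finset.sum_sub_distrib, h0, Finset.sum_const, Finset.card_range, nsmul_eq_mul, sub_zero]
  have h3 : |(N : ℝ) * g j| ≤ N * V := by
    rw [h2]
    refine (Finset.abs_sum_le_sum_abs _ _).trans ((Finset.sum_le_sum h1).trans ?_)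
    rw [Finset.sum_const, Finset.card_range, nsmul_eq_mul]
  rw [abs_mul, abs_of_pos hN'] at h3
  have h4 : |g j| ≤ V := le_of_mul_le_mul_left h3 hN'
  have h5 : V ^ 2 ≤ N * ∑ k ∈ Finset.range N, (g (k + 1) - g k) ^ 2 := by
    have := sq_sum_le_card_mul_sum_sq (s := Finset.range N) (f := fun k => |g (k + 1) - g k|)
    rw [Finset.card_range] at this
    simp only [sq_abs] at this
    exact this
  have h6 : g j ^ 2 ≤ V ^ 2 := by
    rw [← sq_abs (g j)]
    exact pow_le_pow_left₀ (abs_nonneg _) h4 2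
  exact h6.trans h5

theorem Q_eq {N : ℕ} (hN : 0 < N) (g : ℕ → ℝ) (hg : ∀ j, g (j + N) = g j) :
    Q N g = (1 / (2 * Real.sin (2 * Real.pi / N))) *
      (2 * (1 - Real.cos (2 * Real.pi / N)) * ∑ j ∈ Finset.range N, g j ^ 2 -
        ∑ j ∈ Finset.range N, (g (j + 1) - g j) ^ 2) := by
  unfold Q
  congr 1
  set c := Real.cos (2 * Real.pi / N)
  have h1 : ∑ j ∈ Finset.range N, g j * g (j + (N - 1)) =
      ∑ j ∈ Finset.range N, g (j + 1) * g j := by
    have := sum_shift (N := N) (fun j => g (j + 1) * g j) (fun j => by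
      show g (j + N + 1) * g (j + N) = g (j + 1) * g j
      rw [show j + N + 1 = j + 1 + N by ring, hg, hg]) (N - 1)
    rw [← this]
    refine Finset.sum_congr rfl fun j _ => ?_
    show _ = g (j + (N - 1) + 1) * g (j + (N - 1))
    rw [show j + (N - 1) + 1 = j + N by omega, hg]
  have h2 : ∑ j ∈ Finset.range N, g (j + 1) ^ 2 = ∑ j ∈ Finset.range N, g j ^ 2 :=
    sum_shift (N := N) (fun j => g j ^ 2) (fun j => by
      show g (j + N) ^ 2 = g j ^ 2
      rw [hg]) 1
  have h3 : ∑ j ∈ Finset.range N, g j * (g (j + 1) + g (j + (N - 1)) - 2 * c * g j) =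
      ∑ j ∈ Finset.range N, g (j + 1) * g j + ∑ j ∈ Finset.range N, g j * g (j + (N - 1)) -
        2 * c * ∑ j ∈ Finset.range N, g j ^ 2 := by
    rw [Finset.mul_sum, ← Finset.sum_add_distrib, ← Finset.sum_sub_distrib]
    refine Finset.sum_congr rfl fun j _ => ?_
    ring
  have h4 : ∑ j ∈ Finset.range N, (g (j + 1) - g j) ^ 2 =
      ∑ j ∈ Finset.range N, g (j + 1) ^ 2 + ∑ j ∈ Finset.range N, g j ^ 2 -
        2 * ∑ j ∈ Finset.range N, g (j + 1) * g j := by
    rw [Finset.mul_sum, ← Finset.sum_add_distrib, ← Finset.sum_sub_distrib]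
    refine Finset.sum_congr rfl fun j _ => ?_
    ring
  rw [h3, h4, h1, h2]
  ring

theorem cos_ge {N : ℕ} (hN : 5 ≤ N) : 1 / 4 ≤ Real.cos (2 * Real.pi / N) := by
  have hN' : (5 : ℝ) ≤ N := by exact_mod_cast hN
  have hpi := Real.pi_pos
  have h1 : 2 * Real.pi / N ≤ 2 * (Real.pi / 5) := by
    rw [div_le_iff₀ (by linarith)]
    nlinarith
  have h2 : Real.cos (2 * (Real.pi / 5)) ≤ Real.cos (2 * Real.pi / N) :=
    Real.cos_le_cos_of_nonneg_of_le_pi (by positivity) (by linarith) h1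
  refine le_trans ?_ h2
  rw [Real.cos_two_mul, Real.cos_pi_div_five]
  have h5 : Real.sqrt 5 ^ 2 = 5 := Real.sq_sqrt (by norm_num)
  have h6 : (2 : ℝ) ≤ Real.sqrt 5 := Real.le_sqrt_of_sq_le (by norm_num)
  nlinarith

end SUPB

open SUPB in
theorem pSUPB (hARE : S_ARE) (hORT : S_ORT) (hWIR : S_WIR) : S_SUPB := by
  intro Ω hΩ hb hne N hN
  have hN0 : 0 < N := by omega
  have hN' : (5 : ℝ) ≤ N := by exact_mod_cast hN
  have hper : ∀ j, (fun j => hs Ω (nd N j)) (j + N) = (fun j => hs Ω (nd N j)) j := by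
    intro j
    simp only [nd_per hN0]
  obtain ⟨a, ha⟩ := hORT N hN (fun j => hs Ω (nd N j)) hper
  refine ⟨a, ?_⟩
  simp only at ha ⊢
  set r := (∑ j ∈ Finset.range N, hs Ω (nd N j)) / N with hr
  set g : ℕ → ℝ := fun j => hs Ω (nd N j) - r - inner ℝ a (nd N j) with hg
  obtain ⟨h0, h1, hQ⟩ := ha
  have hgper : ∀ j, g (j + N) = g j := by
    intro j
    simp only [hg, nd_per hN0]
  have hW := hWIR N hN g hgper h0 h1
  have hA := hARE Ω hΩ hb hne N hN
  rw [hQ, Q_eq hN0 g hgper] at hA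
  set S2 := ∑ j ∈ Finset.range N, g j ^ 2 with hS2
  set D2 := ∑ j ∈ Finset.range N, (g (j + 1) - g j) ^ 2 with hD2
  have hS0 : 0 ≤ S2 := Finset.sum_nonneg fun _ _ => sq_nonneg _
  have hD0 : 0 ≤ D2 := Finset.sum_nonneg fun _ _ => sq_nonneg _
  set δ := 2 * Real.pi / (N : ℝ) with hδ
  have hpi := Real.pi_pos
  have hδ0 : 0 < δ := by rw [hδ]; positivity
  have hδpi : δ < Real.pi := by
    rw [hδ, div_lt_iff₀ (by linarith)]
    nlinarith
  have hsin : 0 < Real.sin δ := Real.sin_pos_of_pos_of_lt_pi hδ0 hδpi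
  have hsinle : Real.sin δ ≤ δ := Real.sin_le hδ0.le
  have hcos : 1 / 4 ≤ Real.cos δ := cos_ge hN
  have hcos1 : Real.cos δ < 1 := by
    have h := Real.cos_lt_cos_of_nonneg_of_le_pi (le_refl (0 : ℝ)) hδpi.le hδ0
    rwa [Real.cos_zero] at h
  have hc2 : Real.cos (4 * Real.pi / N) = 2 * Real.cos δ ^ 2 - 1 := by
    rw [← Real.cos_two_mul, hδ]
    congr 1
    ring
  rw [hc2] at hW
  -- `2 (1 - cos δ) S2 ≤ (2/5) D2`
  have hkey : 2 * (1 - Real.cos δ) * S2 ≤ 2 / 5 * D2 := by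
    have h2 : 2 * (1 - (2 * Real.cos δ ^ 2 - 1)) * S2 =
        (2 * (1 - Real.cos δ) * S2) * (2 * (1 + Real.cos δ)) := by ring
    rw [h2] at hW
    have h3 : 0 ≤ 2 * (1 - Real.cos δ) * S2 := by
      have : 0 ≤ 1 - Real.cos δ := by linarith
      positivity
    nlinarith
  set D := (N : ℝ) * Real.tan (Real.pi / N) * r ^ 2 - volume.real Ω with hD
  have hDge : 3 / 10 * D2 ≤ Real.sin δ * D := by
    have h2 : -(1 / (2 * Real.sin δ) * (2 * (1 - Real.cos δ) * S2 - D2)) ≤ D := by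
      rw [hD]
      linarith
    have h3 : Real.sin δ * -(1 / (2 * Real.sin δ) * (2 * (1 - Real.cos δ) * S2 - D2)) ≤
        Real.sin δ * D := mul_le_mul_of_nonneg_left h2 hsin.le
    have h4 : Real.sin δ * -(1 / (2 * Real.sin δ) * (2 * (1 - Real.cos δ) * S2 - D2)) =
        (D2 - 2 * (1 - Real.cos δ) * S2) / 2 := by
      field_simp
      ring
    rw [h4] at h3
    linarith
  have hDnn : 0 ≤ D := by
    by_contra hneg
    push Not at hneg
    have : Real.sin δ * D < 0 := mul_neg_of_pos_of_neg hsin hneg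
    linarith
  intro j hj
  have hj2 := sq_le hN0 g h0 hj
  have hNδ : (N : ℝ) * δ = 2 * Real.pi := by
    rw [hδ]
    field_simp
  have hfin : (N : ℝ) * D2 ≤ 25 * D := by
    have h5 : (N : ℝ) * (3 / 10 * D2) ≤ N * (Real.sin δ * D) :=
      mul_le_mul_of_nonneg_left hDge (by linarith)
    have h6 : (N : ℝ) * (Real.sin δ * D) ≤ 2 * Real.pi * D := by
      rw [← hNδ, mul_assoc]
      exact mul_le_mul_of_nonneg_left (mul_le_mul_of_nonneg_right hsinle hDnn) (by linarith)
    have h7 : Real.pi < 3.15 := Real.pi_lt_d2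
    nlinarith
  exact hj2.trans hfin

end Pool.Agent.T2H01.QI
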