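import Pool.Agent.T2H01.QI.Stm2
import Pool.Agent.T2H01.QI.SUPB
import Pool.Agent.T2H01.QI.ORT
import Pool.Agent.T2H01.QI.LIM

/-!
# QI, package GE2: the support function is close to that of a disc
-/

set_option autoImplicit false

noncomputable section

open MeasureTheory Metric Set Filter Topology
open scoped NNReal ENNReal

namespace Pool.Agent.T2H01.QI

namespace GE2

open SUPB in
theorem supb' (hARE : S_ARE) (hORT : S_ORT) (hWIR : S_WIR) :
    ∀ Ω : Set E2, IsOpen Ω → Bornology.IsBounded Ω → Ω.Nonempty → ∀ N : ℕ, 5 ≤ N → ∃ a : E2,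
    let r := (∑ j ∈ Finset.range N, hs Ω (nd N j)) / N
    (∑ j ∈ Finset.range N, (hs Ω (nd N j) - r - inner ℝ a (nd N j)) • nd N j = 0) ∧
    ∀ j < N, (hs Ω (nd N j) - r - inner ℝ a (nd N j)) ^ 2 ≤
      25 * (N * Real.tan (Real.pi / N) * r ^ 2 - volume.real Ω) := by
  intro Ω hΩ hb hne N hN
  have hN0 : 0 < N := by omega
  have hN' : (5 : ℝ) ≤ N := by exact_mod_cast hN
  have hper : ∀ j, (fun j => hs Ω (nd N j)) (j + N) = (fun j => hs Ω (nd N j)) j := by
    intro j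
    simp only [nd_per hN0]
  obtain ⟨a, ha⟩ := hORT N hN (fun j => hs Ω (nd N j)) hper
  refine ⟨a, ?_⟩
  simp only at ha ⊢
  set r := (∑ j ∈ Finset.range N, hs Ω (nd N j)) / N with hr
  set g : ℕ → ℝ := fun j => hs Ω (nd N j) - r - inner ℝ a (nd N j) with hg
  obtain ⟨h0, h1, hQ⟩ := ha
  refine ⟨h1, ?_⟩
  have hgper : ∀ j, g (j + N) = g j := by
    intro j
    simp only [hg, nd_per hN0]
  have hW := hWIR N hN g hgper h0 h1
  have hA := hARE Ω hΩ hb hne N hN
  rw [hQ, Q_eq hN0 g hgper] at hA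
  set S2 := ∑ j ∈ Finset.range N, g j ^ 2 with hS2
  set D2 := ∑ j ∈ Finset.range N, (g (j + 1) - g j) ^ 2 with hD2
  have hS0 : 0 ≤ S2 := Finset.sum_nonneg fun _ _ => sq_nonneg _
  have hD0 : 0 ≤ D2 := Finset.sum_nonneg fun _ _ => sq_nonneg _
  set δ := 2 * Real.pi / (N : ℝ) with hδ
  have hpi := Real.pi_pos
  have hδ0 : 0 < δ := by rw [hδ]; positivity
  have hδpi : δ < Real.pi := by
    rw [hδ, div_lt_iff₀ (by linarith)]
    nlinarith
  have hsin : 0 < Real.sin δ := Real.sin_pos_of_pos_of_lt_pi hδ0 hδpi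
  have hsinle : Real.sin δ ≤ δ := Real.sin_le hδ0.le
  have hcos : 1 / 4 ≤ Real.cos δ := cos_ge hN
  have hcos1 : Real.cos δ < 1 := by
    have h := Real.cos_lt_cos_of_nonneg_of_le_pi (le_refl (0 : ℝ)) hδpi.le hδ0
    rwa [Real.cos_zero] at h
  have hc2 : Real.cos (4 * Real.pi / N) = 2 * Real.cos δ ^ 2 - 1 := by
    rw [← Real.cos_two_mul, hδ]
    congr 1
    ring
  rw [hc2] at hW
  -- `2 (1 - cos δ) S2 ≤ (2/5) D2`
  have hkey : 2 * (1 - Real.cos δ) * S2 ≤ 2 / 5 * D2 := by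
    have h2 : 2 * (1 - (2 * Real.cos δ ^ 2 - 1)) * S2 =
        (2 * (1 - Real.cos δ) * S2) * (2 * (1 + Real.cos δ)) := by ring
    rw [h2] at hW
    have h3 : 0 ≤ 2 * (1 - Real.cos δ) * S2 := by
      have : 0 ≤ 1 - Real.cos δ := by linarith
      positivity
    nlinarith
  set D := (N : ℝ) * Real.tan (Real.pi / N) * r ^ 2 - volume.real Ω with hD
  have hDge : 3 / 10 * D2 ≤ Real.sin δ * D := by
    have h2 : -(1 / (2 * Real.sin δ) * (2 * (1 - Real.cos δ) * S2 - D2)) ≤ D := by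
      rw [hD]
      linarith
    have h3 : Real.sin δ * -(1 / (2 * Real.sin δ) * (2 * (1 - Real.cos δ) * S2 - D2)) ≤
        Real.sin δ * D := mul_le_mul_of_nonneg_left h2 hsin.le
    have h4 : Real.sin δ * -(1 / (2 * Real.sin δ) * (2 * (1 - Real.cos δ) * S2 - D2)) =
        (D2 - 2 * (1 - Real.cos δ) * S2) / 2 := by
      field_simp
      ring
    rw [h4] at h3
    linarith
  have hDnn : 0 ≤ D := by
    by_contra hneg
    push Not at hneg
    have : Real.sin δ * D < 0 := mul_neg_of_pos_of_neg hsin hneg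
    linarith
  intro j hj
  have hj2 := sq_le hN0 g h0 hj
  have hNδ : (N : ℝ) * δ = 2 * Real.pi := by
    rw [hδ]
    field_simp
  have hfin : (N : ℝ) * D2 ≤ 25 * D := by
    have h5 : (N : ℝ) * (3 / 10 * D2) ≤ N * (Real.sin δ * D) :=
      mul_le_mul_of_nonneg_left hDge (by linarith)
    have h6 : (N : ℝ) * (Real.sin δ * D) ≤ 2 * Real.pi * D := by
      rw [← hNδ, mul_assoc]
      exact mul_le_mul_of_nonneg_left (mul_le_mul_of_nonneg_right hsinle hDnn) (by linarith)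
    have h7 : Real.pi < 3.15 := Real.pi_lt_d2
    nlinarith
  exact hj2.trans hfin

/-- Riemann sums of continuous functions. -/
theorem riemann (F : ℝ → ℝ) (hF : Continuous F) :
    Tendsto (fun N : ℕ => 2 * Real.pi / N * ∑ j ∈ Finset.range N, F (2 * Real.pi * j / N)) atTop
      (𝓝 (∫ θ in (0 : ℝ)..(2 * Real.pi), F θ)) := by
  rw [Metric.tendsto_atTop]
  intro ε hε
  have hpi := Real.pi_pos
  obtain ⟨T, hT⟩ : ∃ T : ℝ, T = 2 * Real.pi := ⟨_, rfl⟩
  rw [← hT]
  have hT0 : 0 < T := by rw [hT]; positivity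
  have huc : UniformContinuousOn F (Icc 0 T) :=
    isCompact_Icc.uniformContinuousOn_of_continuous hF.continuousOn
  rw [Metric.uniformContinuousOn_iff] at huc
  obtain ⟨δ, hδ, h⟩ := huc (ε / (2 * T)) (by positivity)
  obtain ⟨N0, hN0⟩ := exists_nat_gt (T / δ)
  refine ⟨N0 + 1, fun N hN => ?_⟩
  have hNpos : (0 : ℝ) < N := by exact_mod_cast (by omega : 0 < N)
  have hstep : T / N < δ := by
    rw [div_lt_iff₀ hNpos]
    rw [div_lt_iff₀ hδ] at hN0
    have : (N0 : ℝ) ≤ N := by exact_mod_cast (by omega : N0 ≤ N)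
    nlinarith
  obtain ⟨x, hx⟩ : ∃ x : ℕ → ℝ, ∀ j, x j = T * j / N := ⟨_, fun _ => rfl⟩
  have hxs : ∀ j, x (j + 1) - x j = T / N := by
    intro j
    rw [hx, hx]
    push_cast
    ring
  have hx0 : x 0 = 0 := by rw [hx]; simp
  have hxN : x N = T := by
    rw [hx]
    field_simp
  have hint : ∑ j ∈ Finset.range N, ∫ θ in (x j)..(x (j + 1)), F θ = ∫ θ in (0 : ℝ)..T, F θ := by
    have := intervalIntegral.sum_integral_adjacent_intervals (f := F) (μ := volume) (a := x)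
      (n := N) (fun k _ => hF.intervalIntegrable _ _)
    rw [this, hx0, hxN]
  have hsum : T / N * ∑ j ∈ Finset.range N, F (T * j / N) =
      ∑ j ∈ Finset.range N, ∫ _θ in (x j)..(x (j + 1)), F (x j) := by
    rw [Finset.mul_sum]
    refine Finset.sum_congr rfl fun j _ => ?_
    rw [intervalIntegral.integral_const, smul_eq_mul, hxs, hx]
  rw [dist_eq_norm, Real.norm_eq_abs, hsum, ← hint, ← Finset.sum_sub_distrib]
  have hb : ∀ j ∈ Finset.range N,
      |(∫ _θ in (x j)..(x (j + 1)), F (x j)) - ∫ θ in (x j)..(x (j + 1)), F θ| ≤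
        ε / (2 * T) * (T / N) := by
    intro j hj
    rw [Finset.mem_range] at hj
    rw [← intervalIntegral.integral_sub (by simp) (hF.intervalIntegrable _ _)]
    have hle : x j ≤ x (j + 1) := by
      have := hxs j
      have h0 : 0 < T / N := by positivity
      linarith
    have h1 := intervalIntegral.norm_integral_le_of_norm_le_const (a := x j) (b := x (j + 1))
      (C := ε / (2 * T)) (f := fun θ => F (x j) - F θ) ?_
    · rw [Real.norm_eq_abs, hxs, abs_of_pos (by positivity : 0 < T / (N : ℝ))] at h1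
      exact h1
    · intro θ hθ
      rw [Set.uIoc_of_le hle] at hθ
      rw [Real.norm_eq_abs, ← Real.dist_eq]
      have hj0 : 0 ≤ x j := by rw [hx]; positivity
      have hj1 : x (j + 1) ≤ T := by
        rw [hx, div_le_iff₀ hNpos]
        have : ((j + 1 : ℕ) : ℝ) ≤ N := by exact_mod_cast hj
        nlinarith
      refine (h (x j) ⟨hj0, hle.trans hj1⟩ θ ⟨hj0.trans hθ.1.le, hθ.2.trans hj1⟩ ?_).le
      rw [Real.dist_eq, abs_lt]
      have := hxs j
      constructor <;> linarith [hθ.1, hθ.2]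
  refine (Finset.abs_sum_le_sum_abs _ _).trans_lt ?_
  refine (Finset.sum_le_sum hb).trans_lt ?_
  rw [Finset.sum_const, Finset.card_range, nsmul_eq_mul]
  have : (N : ℝ) * (ε / (2 * T) * (T / N)) = ε / 2 := by
    field_simp
  rw [this]
  linarith

/-- The vector `a` is determined. -/
theorem a_eq {N : ℕ} (hN : 5 ≤ N) (h : ℕ → ℝ) (r : ℝ) (a : E2)
    (H : ∑ j ∈ Finset.range N, (h j - r - inner ℝ a (nd N j)) • nd N j = 0) :
    a 0 = 1 / Real.pi * (2 * Real.pi / N *
        ∑ j ∈ Finset.range N, h j * Real.cos (2 * Real.pi * j / N)) ∧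
      a 1 = 1 / Real.pi * (2 * Real.pi / N *
        ∑ j ∈ Finset.range N, h j * Real.sin (2 * Real.pi * j / N)) := by
  have hN0 : (N : ℝ) ≠ 0 := by
    have : N ≠ 0 := by omega
    exact_mod_cast this
  have hpi := Real.pi_pos.ne'
  have h0 := congrArg (fun v : E2 => v 0) H
  have h1 := congrArg (fun v : E2 => v 1) H
  simp only [WithLp.ofLp_sum, Finset.sum_apply, PiLp.smul_apply, smul_eq_mul, ORT.nd_zero,
    ORT.nd_one, PiLp.zero_apply, ORT.inner_nd] at h0 h1
  have e0 : ∑ j ∈ Finset.range N, (h j - r - (a 0 * Real.cos (2 * Real.pi * j / N) +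
      a 1 * Real.sin (2 * Real.pi * j / N))) * Real.cos (2 * Real.pi * j / N) =
      ∑ j ∈ Finset.range N, h j * Real.cos (2 * Real.pi * j / N) - a 0 * (N / 2) := by
    have : ∀ j : ℕ, (h j - r - (a 0 * Real.cos (2 * Real.pi * j / N) +
      a 1 * Real.sin (2 * Real.pi * j / N))) * Real.cos (2 * Real.pi * j / N) =
      h j * Real.cos (2 * Real.pi * j / N) - r * Real.cos (2 * Real.pi * j / N) -
      a 0 * Real.cos (2 * Real.pi * j / N) ^ 2 -
      a 1 * (Real.cos (2 * Real.pi * j / N) * Real.sin (2 * Real.pi * j / N)) := fun j => by ring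
    simp_rw [this]
    rw [Finset.sum_sub_distrib, Finset.sum_sub_distrib, Finset.sum_sub_distrib, ← Finset.mul_sum,
      ← Finset.mul_sum, ← Finset.mul_sum, ORT.c1 hN, ORT.cc hN, ORT.cs hN]
    ring
  have e1 : ∑ j ∈ Finset.range N, (h j - r - (a 0 * Real.cos (2 * Real.pi * j / N) +
      a 1 * Real.sin (2 * Real.pi * j / N))) * Real.sin (2 * Real.pi * j / N) =
      ∑ j ∈ Finset.range N, h j * Real.sin (2 * Real.pi * j / N) - a 1 * (N / 2) := by
    have : ∀ j : ℕ, (h j - r - (a 0 * Real.cos (2 * Real.pi * j / N) +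
      a 1 * Real.sin (2 * Real.pi * j / N))) * Real.sin (2 * Real.pi * j / N) =
      h j * Real.sin (2 * Real.pi * j / N) - r * Real.sin (2 * Real.pi * j / N) -
      a 0 * (Real.cos (2 * Real.pi * j / N) * Real.sin (2 * Real.pi * j / N)) -
      a 1 * Real.sin (2 * Real.pi * j / N) ^ 2 := fun j => by ring
    simp_rw [this]
    rw [Finset.sum_sub_distrib, Finset.sum_sub_distrib, Finset.sum_sub_distrib, ← Finset.mul_sum,
      ← Finset.mul_sum, ← Finset.mul_sum, ORT.s1 hN, ORT.ss hN, ORT.cs hN]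
    ring
  rw [e0] at h0
  rw [e1] at h1
  rw [sub_eq_zero] at h0 h1
  constructor
  · rw [h0]
    field_simp
  · rw [h1]
    field_simp

theorem tend_dbl : Tendsto (fun M : ℕ => 2 * M) atTop atTop :=
  tendsto_id.const_mul_atTop' (by norm_num : 0 < 2)

end GE2

open GE2 in
theorem pGE2 (hHCT : S_HCT) (hARE : S_ARE) (hORT : S_ORT) (hWIR : S_WIR) : S_GE2 := by
  intro Ω hΩ hb hne
  obtain ⟨hc0, hper⟩ := hHCT Ω hb hne
  have hpi := Real.pi_pos
  obtain ⟨H, hH⟩ : ∃ H : ℝ → ℝ, ∀ θ, H θ = hs Ω (dir θ) := ⟨_, fun _ => rfl⟩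
  have hHc : Continuous H := by
    have : H = fun θ => hs Ω (dir θ) := funext hH
    rw [this]; exact hc0
  have hHper : ∀ θ, H (θ + 2 * Real.pi) = H θ := fun θ => by rw [hH, hH, hper]
  -- components of the centre
  have hdirc : Continuous dir := by
    unfold dir
    fun_prop
  have hvint : IntervalIntegrable (fun θ => hs Ω (dir θ) • dir θ) volume 0 (2 * Real.pi) :=
    (hc0.smul hdirc).intervalIntegrable _ _
  have hctr : ∀ i : Fin 2, (ctr Ω) i =
      1 / Real.pi * ∫ θ in (0 : ℝ)..(2 * Real.pi), H θ * (dir θ) i := by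
    intro i
    unfold ctr
    rw [PiLp.smul_apply, smul_eq_mul]
    congr 1
    have := ContinuousLinearMap.intervalIntegral_comp_comm
      (EuclideanSpace.proj i : E2 →L[ℝ] ℝ) hvint
    have e : (EuclideanSpace.proj i : E2 →L[ℝ] ℝ)
        (∫ θ in (0 : ℝ)..(2 * Real.pi), hs Ω (dir θ) • dir θ) =
        (∫ θ in (0 : ℝ)..(2 * Real.pi), hs Ω (dir θ) • dir θ) i := rfl
    rw [← e, ← this]
    refine intervalIntegral.integral_congr fun θ _ => ?_
    simp [hH]
  have hd0 : ∀ θ, (dir θ) 0 = Real.cos θ := fun θ => by simp [dir]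
  have hd1 : ∀ θ, (dir θ) 1 = Real.sin θ := fun θ => by simp [dir]
  have hinner : ∀ (v : E2) (θ : ℝ), inner ℝ v (dir θ) = v 0 * Real.cos θ + v 1 * Real.sin θ := by
    intro v θ
    rw [PiLp.inner_apply, Fin.sum_univ_two, hd0, hd1]
    simp only [RCLike.inner_apply, conj_trivial]
    ring
  have hnd : ∀ N j : ℕ, nd N j = dir (2 * Real.pi * j / N) := fun _ _ => rfl
  -- limits
  have hRc := (riemann (fun θ => H θ * Real.cos θ) (hHc.mul Real.continuous_cos)).comp tend_dbl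
  have hRs := (riemann (fun θ => H θ * Real.sin θ) (hHc.mul Real.continuous_sin)).comp tend_dbl
  have hRm := (riemann H hHc).comp tend_dbl
  -- the sequence of vectors
  have key : ∀ M : ℕ, ∃ a : E2, 3 ≤ M →
      a 0 = 1 / Real.pi * (2 * Real.pi / ((2 * M : ℕ) : ℝ) *
        ∑ j ∈ Finset.range (2 * M), H (2 * Real.pi * j / ((2 * M : ℕ) : ℝ)) *
          Real.cos (2 * Real.pi * j / ((2 * M : ℕ) : ℝ))) ∧
      a 1 = 1 / Real.pi * (2 * Real.pi / ((2 * M : ℕ) : ℝ) *
        ∑ j ∈ Finset.range (2 * M), H (2 * Real.pi * j / ((2 * M : ℕ) : ℝ)) *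
          Real.sin (2 * Real.pi * j / ((2 * M : ℕ) : ℝ))) ∧
      ∀ j < 2 * M, (H (2 * Real.pi * j / ((2 * M : ℕ) : ℝ)) -
          (∑ j ∈ Finset.range (2 * M), H (2 * Real.pi * j / ((2 * M : ℕ) : ℝ))) /
            ((2 * M : ℕ) : ℝ) -
          (a 0 * Real.cos (2 * Real.pi * j / ((2 * M : ℕ) : ℝ)) +
            a 1 * Real.sin (2 * Real.pi * j / ((2 * M : ℕ) : ℝ)))) ^ 2 ≤
        25 * (((2 * M : ℕ) : ℝ) * Real.tan (Real.pi / ((2 * M : ℕ) : ℝ)) *
          ((∑ j ∈ Finset.range (2 * M), H (2 * Real.pi * j / ((2 * M : ℕ) : ℝ))) /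
            ((2 * M : ℕ) : ℝ)) ^ 2 - volume.real Ω) := by
    intro M
    by_cases hM : 3 ≤ M
    · have h5 : 5 ≤ 2 * M := by omega
      obtain ⟨a, ha1, ha2⟩ := supb' hARE hORT hWIR Ω hΩ hb hne (2 * M) h5
      refine ⟨a, fun _ => ?_⟩
      obtain ⟨b0, b1⟩ := a_eq h5 _ _ _ ha1
      simp only [hnd, ← hH, hinner] at ha2 b0 b1
      exact ⟨b0, b1, ha2⟩
    · exact ⟨0, fun h => absurd h hM⟩
  choose a ha using key
  have ha0 : Tendsto (fun M : ℕ => (a M) 0) atTop (𝓝 ((ctr Ω) 0)) := by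
    rw [hctr 0]
    simp_rw [hd0]
    refine (hRc.const_mul (1 / Real.pi)).congr' ?_
    filter_upwards [eventually_ge_atTop 3] with M hM
    exact ((ha M hM).1).symm
  have ha1 : Tendsto (fun M : ℕ => (a M) 1) atTop (𝓝 ((ctr Ω) 1)) := by
    rw [hctr 1]
    simp_rw [hd1]
    refine (hRs.const_mul (1 / Real.pi)).congr' ?_
    filter_upwards [eventually_ge_atTop 3] with M hM
    exact ((ha M hM).2.1).symm
  have hr : Tendsto (fun M : ℕ => (∑ j ∈ Finset.range (2 * M),
      H (2 * Real.pi * j / ((2 * M : ℕ) : ℝ))) / ((2 * M : ℕ) : ℝ)) atTop (𝓝 (mr Ω)) := by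
    have h1 := hRm.const_mul (1 / (2 * Real.pi))
    have h2 : mr Ω = 1 / (2 * Real.pi) * ∫ θ in (0 : ℝ)..(2 * Real.pi), H θ := by
      unfold mr
      rw [intervalIntegral.integral_congr (fun θ _ => (hH θ).symm)]
      ring
    rw [h2]
    refine h1.congr' ?_
    filter_upwards [eventually_ge_atTop 3] with M hM
    have hM0 : ((2 * M : ℕ) : ℝ) ≠ 0 := by exact_mod_cast (by omega : 2 * M ≠ 0)
    simp only [Function.comp]
    field_simp
  have hrhs := ((LIM.tend_tan.mul (hr.pow 2)).sub_const (volume.real Ω)).const_mul 25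
  -- a periodic function
  have hggc : Continuous (gg Ω) := by
    have : gg Ω = fun θ => H θ - ((ctr Ω) 0 * Real.cos θ + (ctr Ω) 1 * Real.sin θ) - mr Ω := by
      funext θ
      unfold gg hc
      rw [hinner, hH]
    rw [this]
    fun_prop
  have hggp : Function.Periodic (gg Ω) (2 * Real.pi) := by
    intro θ
    unfold gg hc
    rw [hinner, hinner, ← hH, ← hH, hHper, Real.cos_add_two_pi, Real.sin_add_two_pi]
  intro θ
  obtain ⟨t, ht, hteq⟩ := hggp.exists_mem_Ico₀ (by positivity) θ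
  rw [hteq]
  obtain ⟨J, hJ⟩ : ∃ J : ℕ → ℕ, ∀ M, J M = ⌊t * ((2 * M : ℕ) : ℝ) / (2 * Real.pi)⌋₊ :=
    ⟨_, fun _ => rfl⟩
  have hJlt : ∀ M : ℕ, 3 ≤ M → J M < 2 * M := by
    intro M hM
    rw [hJ, Nat.floor_lt (by
      have := ht.1
      positivity)]
    have h0 : (0 : ℝ) < ((2 * M : ℕ) : ℝ) := by exact_mod_cast (by omega : 0 < 2 * M)
    rw [div_lt_iff₀ (by positivity)]
    nlinarith [ht.2]
  have hJt : Tendsto (fun M : ℕ => 2 * Real.pi * (J M) / ((2 * M : ℕ) : ℝ)) atTop (𝓝 t) := by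
    have h1 : Tendsto (fun M : ℕ => t - 2 * Real.pi / ((2 * M : ℕ) : ℝ)) atTop (𝓝 t) := by
      have := (LIM.tend_inv.const_mul 2).const_sub t
      simp only [mul_zero, sub_zero] at this
      refine this.congr fun M => ?_
      ring
    refine tendsto_of_tendsto_of_tendsto_of_le_of_le' h1 tendsto_const_nhds ?_ ?_
    · filter_upwards [eventually_ge_atTop 3] with M hM
      have h0 : (0 : ℝ) < ((2 * M : ℕ) : ℝ) := by exact_mod_cast (by omega : 0 < 2 * M)
      have h2 := Nat.lt_floor_add_one (t * ((2 * M : ℕ) : ℝ) / (2 * Real.pi))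
      rw [← hJ, div_lt_iff₀ (by positivity)] at h2
      rw [sub_le_iff_le_add, ← add_div, le_div_iff₀ h0]
      nlinarith
    · filter_upwards [eventually_ge_atTop 3] with M hM
      have h0 : (0 : ℝ) < ((2 * M : ℕ) : ℝ) := by exact_mod_cast (by omega : 0 < 2 * M)
      have h2 := Nat.floor_le (a := t * ((2 * M : ℕ) : ℝ) / (2 * Real.pi)) (by
        have := ht.1
        positivity)
      rw [← hJ, le_div_iff₀ (by positivity)] at h2
      rw [div_le_iff₀ h0]
      nlinarith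
  have hlhs : Tendsto (fun M : ℕ => (H (2 * Real.pi * (J M) / ((2 * M : ℕ) : ℝ)) -
      (∑ j ∈ Finset.range (2 * M), H (2 * Real.pi * j / ((2 * M : ℕ) : ℝ))) /
        ((2 * M : ℕ) : ℝ) -
      ((a M) 0 * Real.cos (2 * Real.pi * (J M) / ((2 * M : ℕ) : ℝ)) +
        (a M) 1 * Real.sin (2 * Real.pi * (J M) / ((2 * M : ℕ) : ℝ)))) ^ 2) atTop
      (𝓝 ((H t - mr Ω - ((ctr Ω) 0 * Real.cos t + (ctr Ω) 1 * Real.sin t)) ^ 2)) := by
    refine Tendsto.pow (Tendsto.sub (Tendsto.sub ?_ hr) (Tendsto.add (ha0.mul ?_) (ha1.mul ?_))) 2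
    · exact (hHc.tendsto t).comp hJt
    · exact (Real.continuous_cos.tendsto t).comp hJt
    · exact (Real.continuous_sin.tendsto t).comp hJt
  have hfin := le_of_tendsto_of_tendsto hlhs hrhs (by
    filter_upwards [eventually_ge_atTop 3] with M hM
    exact (ha M hM).2.2 (J M) (hJlt M hM))
  have e : gg Ω t = H t - mr Ω - ((ctr Ω) 0 * Real.cos t + (ctr Ω) 1 * Real.sin t) := by
    unfold gg hc
    rw [hinner, hH]
    ring
  rw [e]
  exact hfin

end Pool.Agent.T2H01.QI
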