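import Pool.Agent.T2H01.QI.Stm

set_option autoImplicit false

noncomputable section

open MeasureTheory Metric Set Filter Topology
open scoped NNReal ENNReal

namespace Pool.Agent.T2H01.QI

namespace QTR

theorem sum_shift (N : ℕ) (F : ℕ → ℝ) (hF : ∀ j, F (j + N) = F j) :
    ∑ j ∈ Finset.range N, F (j + 1) = ∑ j ∈ Finset.range N, F j := by
  have h1 := Finset.sum_range_succ' F N
  have h2 := Finset.sum_range_succ F N
  have h3 : F N = F 0 := by simpa using hF 0
  linarith

theorem inner_dir (a : E2) (t : ℝ) : inner ℝ a (dir t) = a 0 * Real.cos t + a 1 * Real.sin t := by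
  rw [PiLp.inner_apply, Fin.sum_univ_two]
  simp [dir]
  ring

theorem inner_nd_add (N : ℕ) (hN : 0 < N) (a : E2) (j : ℕ) :
    inner ℝ a (nd N (j + N)) = inner ℝ a (nd N j) := by
  have hN' : (N : ℝ) ≠ 0 := by positivity
  have e : 2 * Real.pi * ((j + N : ℕ) : ℝ) / N = 2 * Real.pi * j / N + 2 * Real.pi := by
    push_cast
    field_simp
  unfold nd
  rw [inner_dir, inner_dir, e, Real.cos_add_two_pi, Real.sin_add_two_pi]

theorem inner_nd_rec (N : ℕ) (hN : 0 < N) (a : E2) (j : ℕ) :
    inner ℝ a (nd N (j + 1)) + inner ℝ a (nd N (j + (N - 1))) =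
      2 * Real.cos (2 * Real.pi / N) * inner ℝ a (nd N j) := by
  have hN' : (N : ℝ) ≠ 0 := by positivity
  have e1 : 2 * Real.pi * ((j + 1 : ℕ) : ℝ) / N = 2 * Real.pi * j / N + 2 * Real.pi / N := by
    push_cast
    ring
  have e2 : 2 * Real.pi * ((j + (N - 1) : ℕ) : ℝ) / N
      = (2 * Real.pi * j / N - 2 * Real.pi / N) + 2 * Real.pi := by
    push_cast [Nat.cast_sub hN]
    field_simp
    ring
  unfold nd
  rw [inner_dir, inner_dir, inner_dir, e1, e2, Real.cos_add_two_pi, Real.sin_add_two_pi,
    Real.cos_add, Real.sin_add, Real.cos_sub, Real.sin_sub]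
  ring

end QTR

open QTR in
theorem pQTR : S_QTR := by
  intro N hN h hper a
  have hN0 : 0 < N := by omega
  set p : ℕ → ℝ := fun j => inner ℝ a (nd N j) with hp
  set c : ℝ := Real.cos (2 * Real.pi / N) with hc
  have pper : ∀ j, p (j + N) = p j := fun j => inner_nd_add N hN0 a j
  have prec : ∀ j, p (j + 1) + p (j + (N - 1)) = 2 * c * p j := fun j => inner_nd_rec N hN0 a j
  have hidx : ∀ j, j + 1 + (N - 1) = j + N := fun j => by omega
  -- first shift
  have s1 : ∑ j ∈ Finset.range N, p j * h (j + 1) = ∑ j ∈ Finset.range N, p (j + (N - 1)) * h j := by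
    have := sum_shift N (fun j => p (j + (N - 1)) * h j) (fun j => by
      have : j + N + (N - 1) = (j + (N - 1)) + N := by omega
      simp only [this, pper, hper])
    rw [← this]
    apply Finset.sum_congr rfl
    intro j _
    simp only [hidx, pper]
  have s2 : ∑ j ∈ Finset.range N, p (j + 1) * h j = ∑ j ∈ Finset.range N, p j * h (j + (N - 1)) := by
    have := sum_shift N (fun j => p j * h (j + (N - 1))) (fun j => by
      have : j + N + (N - 1) = (j + (N - 1)) + N := by omega
      simp only [this, pper, hper])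
    rw [← this]
    apply Finset.sum_congr rfl
    intro j _
    simp only [hidx, hper]
  have key : ∑ j ∈ Finset.range N, p j * (h (j + 1) + h (j + (N - 1)) - 2 * c * h j) = 0 := by
    have e1 : ∑ j ∈ Finset.range N, p j * (h (j + 1) + h (j + (N - 1)) - 2 * c * h j)
        = ∑ j ∈ Finset.range N, p j * h (j + 1) + ∑ j ∈ Finset.range N, p j * h (j + (N - 1))
          - ∑ j ∈ Finset.range N, 2 * c * p j * h j := by
      rw [← Finset.sum_add_distrib, ← Finset.sum_sub_distrib]
      apply Finset.sum_congr rfl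
      intro j _
      ring
    rw [e1, s1, ← s2, ← Finset.sum_add_distrib, ← Finset.sum_sub_distrib]
    apply Finset.sum_eq_zero
    intro j _
    have := prec j
    linear_combination (h j) * this
  unfold Q
  congr 1
  have e2 : ∀ j, (h j - p j) * ((h (j + 1) - p (j + 1)) + (h (j + (N - 1)) - p (j + (N - 1)))
      - 2 * c * (h j - p j)) = h j * (h (j + 1) + h (j + (N - 1)) - 2 * c * h j)
        - p j * (h (j + 1) + h (j + (N - 1)) - 2 * c * h j) := by
    intro j
    have := prec j
    linear_combination (-(h j - p j)) * this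
  calc ∑ j ∈ Finset.range N, (h j - p j) * ((h (j + 1) - p (j + 1)) + (h (j + (N - 1)) - p (j + (N - 1)))
      - 2 * c * (h j - p j))
      = ∑ j ∈ Finset.range N, (h j * (h (j + 1) + h (j + (N - 1)) - 2 * c * h j)
        - p j * (h (j + 1) + h (j + (N - 1)) - 2 * c * h j)) :=
        Finset.sum_congr rfl (fun j _ => e2 j)
    _ = ∑ j ∈ Finset.range N, h j * (h (j + 1) + h (j + (N - 1)) - 2 * c * h j) := by
        rw [Finset.sum_sub_distrib, key, sub_zero]

end Pool.Agent.T2H01.QI
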