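import Pool.Agent.T2H01.QI.Stm

/-! Package WIR of project QI (helper1), by helper94: the discrete Wirtinger inequality. -/

set_option autoImplicit false

noncomputable section

open MeasureTheory Metric Set Filter Topology
open scoped NNReal ENNReal

namespace Pool.Agent.T2H01.QI

namespace WIR

/-- the root of unity -/
def om (N : ℕ) : ℂ := Complex.exp (((2 * Real.pi / N : ℝ) : ℂ) * Complex.I)

lemma om_pow (N k : ℕ) :
    om N ^ k = Complex.exp (((2 * Real.pi * k / N : ℝ) : ℂ) * Complex.I) := by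
  rw [om, ← Complex.exp_nat_mul]
  congr 1
  push_cast
  ring

lemma norm_om (N : ℕ) : ‖om N‖ = 1 := Complex.norm_exp_ofReal_mul_I _

lemma om_prim {N : ℕ} (hN : N ≠ 0) : IsPrimitiveRoot (om N) N := by
  have h := Complex.isPrimitiveRoot_exp N hN
  convert h using 1
  rw [om]
  congr 1
  push_cast
  ring

/-- the discrete Fourier transform -/
def ft (N : ℕ) (g : ℕ → ℂ) (k : ℕ) : ℂ := ∑ j ∈ Finset.range N, g j * om N ^ (j * k)

lemma conj_om (N : ℕ) : (starRingEnd ℂ) (om N) = (om N)⁻¹ := (Complex.inv_eq_conj (norm_om N)).symm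

lemma geom {N : ℕ} (hN : N ≠ 0) {j l : ℕ} (hj : j < N) (hl : l < N) :
    ∑ k ∈ Finset.range N, (om N ^ j * (om N)⁻¹ ^ l) ^ k = if j = l then (N : ℂ) else 0 := by
  have hom : om N ≠ 0 := by
    intro h
    have := norm_om N
    rw [h, norm_zero] at this
    exact zero_ne_one this
  have hp := (om_prim hN).pow_eq_one
  by_cases h : j = l
  · subst h
    rw [if_pos rfl, ← mul_pow, mul_inv_cancel₀ hom]
    simp
  · rw [if_neg h]
    have hz : om N ^ j * (om N)⁻¹ ^ l ≠ 1 := by
      intro h1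
      apply h
      refine (om_prim hN).pow_inj hj hl ?_
      have h2 : om N ^ j * (om N)⁻¹ ^ l * om N ^ l = om N ^ l := by rw [h1, one_mul]
      rw [mul_assoc, ← mul_pow, inv_mul_cancel₀ hom, one_pow, mul_one] at h2
      exact h2
    have h3 := geom_sum_mul (om N ^ j * (om N)⁻¹ ^ l) N
    have h4 : (om N ^ j * (om N)⁻¹ ^ l) ^ N = 1 := by
      rw [mul_pow, ← pow_mul, ← pow_mul, mul_comm j N, mul_comm l N, pow_mul, pow_mul, inv_pow,
        hp]
      simp
    rw [h4, sub_self] at h3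
    exact (mul_eq_zero.mp h3).resolve_right (sub_ne_zero.mpr hz)

lemma parseval {N : ℕ} (hN : N ≠ 0) (g : ℕ → ℂ) :
    ∑ k ∈ Finset.range N, ‖ft N g k‖ ^ 2 = N * ∑ j ∈ Finset.range N, ‖g j‖ ^ 2 := by
  have key : ∀ z : ℂ, ((‖z‖ ^ 2 : ℝ) : ℂ) = z * (starRingEnd ℂ) z := by
    intro z
    rw [Complex.mul_conj, Complex.normSq_eq_norm_sq]
  have h : ((∑ k ∈ Finset.range N, ‖ft N g k‖ ^ 2 : ℝ) : ℂ) =
      ((N * ∑ j ∈ Finset.range N, ‖g j‖ ^ 2 : ℝ) : ℂ) := by
    rw [Complex.ofReal_sum, Complex.ofReal_mul, Complex.ofReal_sum]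
    simp only [key]
    have h1 : ∀ k ∈ Finset.range N, ft N g k * (starRingEnd ℂ) (ft N g k) =
        ∑ j ∈ Finset.range N, ∑ l ∈ Finset.range N,
          g j * (starRingEnd ℂ) (g l) * (om N ^ j * (om N)⁻¹ ^ l) ^ k := by
      intro k _
      rw [ft, map_sum, Finset.sum_mul_sum]
      refine Finset.sum_congr rfl fun j _ => Finset.sum_congr rfl fun l _ => ?_
      rw [map_mul, map_pow, conj_om, mul_pow, pow_mul, pow_mul]
      ring
    rw [Finset.sum_congr rfl h1, Finset.sum_comm]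
    have h2 : ∀ j ∈ Finset.range N, ∑ k ∈ Finset.range N, ∑ l ∈ Finset.range N,
        g j * (starRingEnd ℂ) (g l) * (om N ^ j * (om N)⁻¹ ^ l) ^ k =
        (N : ℂ) * (g j * (starRingEnd ℂ) (g j)) := by
      intro j hj
      rw [Finset.sum_comm]
      have h3 : ∀ l ∈ Finset.range N, ∑ k ∈ Finset.range N,
          g j * (starRingEnd ℂ) (g l) * (om N ^ j * (om N)⁻¹ ^ l) ^ k =
          if j = l then (N : ℂ) * (g j * (starRingEnd ℂ) (g l)) else 0 := by
        intro l hl
        rw [← Finset.mul_sum, geom hN (Finset.mem_range.mp hj) (Finset.mem_range.mp hl)]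
        split_ifs
        · ring
        · ring
      rw [Finset.sum_congr rfl h3, Finset.sum_ite_eq, if_pos hj]
    rw [Finset.sum_congr rfl h2, ← Finset.mul_sum, Complex.ofReal_natCast]
  exact_mod_cast h

lemma ft_shift {N : ℕ} (hN : N ≠ 0) (g : ℕ → ℂ) (hg : g N = g 0) (k : ℕ) :
    om N ^ k * ft N (fun j => g (j + 1)) k = ft N g k := by
  have hp := (om_prim hN).pow_eq_one
  have h1 := Finset.sum_range_succ' (fun j => g j * om N ^ (j * k)) N
  have h2 := Finset.sum_range_succ (fun j => g j * om N ^ (j * k)) N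
  rw [h1] at h2
  rw [hg, zero_mul, pow_zero, pow_mul (om N) N k, hp, one_pow] at h2
  have h3 := add_right_cancel h2
  rw [ft, ft, ← h3, Finset.mul_sum]
  refine Finset.sum_congr rfl fun j _ => ?_
  rw [add_mul, pow_add, one_mul]
  ring

lemma norm_one_sub (N k : ℕ) : ‖1 - om N ^ k‖ ^ 2 = 2 * (1 - Real.cos (2 * Real.pi * k / N)) := by
  rw [om_pow, ← Complex.normSq_eq_norm_sq, Complex.normSq_apply, Complex.sub_re, Complex.sub_im,
    Complex.exp_ofReal_mul_I_re, Complex.exp_ofReal_mul_I_im, Complex.one_re, Complex.one_im]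
  nlinarith [Real.sin_sq_add_cos_sq (2 * Real.pi * k / N)]

lemma cos_le {N k : ℕ} (hN : 5 ≤ N) (h2 : 2 ≤ k) (hk : k + 2 ≤ N) :
    Real.cos (2 * Real.pi * k / N) ≤ Real.cos (4 * Real.pi / N) := by
  have hN0 : (0 : ℝ) < N := by
    have : 0 < N := by omega
    exact_mod_cast this
  have hpi := Real.pi_pos
  have h2' : (2 : ℝ) ≤ k := by exact_mod_cast h2
  have hk' : (k : ℝ) + 2 ≤ N := by exact_mod_cast hk
  have h0 : 0 ≤ 4 * Real.pi / N := by positivity
  rcases le_total (2 * k) N with h | h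
  · have h' : 2 * (k : ℝ) ≤ N := by exact_mod_cast h
    refine Real.cos_le_cos_of_nonneg_of_le_pi h0 ?_ ?_
    · rw [div_le_iff₀ hN0]
      nlinarith
    · rw [div_le_div_iff_of_pos_right hN0]
      nlinarith
  · have h' : (N : ℝ) ≤ 2 * k := by exact_mod_cast h
    rw [← Real.cos_two_pi_sub]
    refine Real.cos_le_cos_of_nonneg_of_le_pi h0 ?_ ?_
    · rw [sub_le_iff_le_add, ← sub_le_iff_le_add', le_div_iff₀ hN0]
      nlinarith
    · rw [le_sub_iff_add_le, ← add_div, div_le_iff₀ hN0]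
      nlinarith

end WIR

open WIR in
theorem pWIR : S_WIR := by
  intro N hN g hper hsum hnd
  have hN0 : N ≠ 0 := by omega
  have hNpos : (0 : ℝ) < N := by
    have : 0 < N := by omega
    exact_mod_cast this
  set G : ℕ → ℂ := fun j => (g j : ℂ) with hG
  have hGN : G N = G 0 := by
    rw [hG]
    have := hper 0
    rw [zero_add] at this
    simp only [this]
  -- the vanishing coefficients
  have c0 : ft N G 0 = 0 := by
    rw [ft]
    have h1 : ∑ j ∈ Finset.range N, G j * om N ^ (j * 0) =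
        ((∑ j ∈ Finset.range N, g j : ℝ) : ℂ) := by
      rw [Complex.ofReal_sum]
      refine Finset.sum_congr rfl fun j _ => ?_
      rw [mul_zero, pow_zero, mul_one]
    rw [h1, hsum, Complex.ofReal_zero]
  have hc : ∑ j ∈ Finset.range N, g j * Real.cos (2 * Real.pi * j / N) = 0 := by
    have h1 := congrArg (fun v : E2 => v 0) hnd
    simpa [nd, dir, Finset.sum_apply] using h1
  have hs' : ∑ j ∈ Finset.range N, g j * Real.sin (2 * Real.pi * j / N) = 0 := by
    have h1 := congrArg (fun v : E2 => v 1) hnd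
    simpa [nd, dir, Finset.sum_apply] using h1
  have c1 : ft N G 1 = 0 := by
    rw [ft]
    refine Complex.ext ?_ ?_
    · rw [Complex.re_sum, Complex.zero_re, ← hc]
      refine Finset.sum_congr rfl fun j _ => ?_
      rw [mul_one, om_pow, hG, Complex.re_ofReal_mul, Complex.exp_ofReal_mul_I_re]
    · rw [Complex.im_sum, Complex.zero_im, ← hs']
      refine Finset.sum_congr rfl fun j _ => ?_
      rw [mul_one, om_pow, hG, Complex.im_ofReal_mul, Complex.exp_ofReal_mul_I_im]
  have c2 : ft N G (N - 1) = 0 := by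
    have h1 : ft N G (N - 1) = (starRingEnd ℂ) (ft N G 1) := by
      rw [ft, ft, map_sum]
      refine Finset.sum_congr rfl fun j _ => ?_
      rw [map_mul, map_pow, conj_om, hG]
      simp only [Complex.conj_ofReal, mul_one]
      congr 1
      rw [inv_pow]
      refine eq_inv_of_mul_eq_one_left ?_
      rw [← pow_add]
      have h2 : j * (N - 1) + j = N * j := by
        obtain ⟨M, rfl⟩ : ∃ M, N = M + 1 := ⟨N - 1, by omega⟩
        simp only [Nat.add_sub_cancel]
        ring
      rw [h2, pow_mul, (om_prim hN0).pow_eq_one, one_pow]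
    rw [h1, c1, map_zero]
  -- the differences
  have hd : ∀ k, ‖ft N (fun j => G (j + 1) - G j) k‖ ^ 2 =
      ‖1 - om N ^ k‖ ^ 2 * ‖ft N G k‖ ^ 2 := by
    intro k
    have h1 : ft N (fun j => G (j + 1) - G j) k = ft N (fun j => G (j + 1)) k - ft N G k := by
      rw [ft, ft, ft, ← Finset.sum_sub_distrib]
      refine Finset.sum_congr rfl fun j _ => ?_
      ring
    have h2 : om N ^ k * ft N (fun j => G (j + 1) - G j) k = (1 - om N ^ k) * ft N G k := by
      rw [h1, mul_sub, ft_shift hN0 G hGN]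
      ring
    have h3 := congrArg (fun z : ℂ => ‖z‖ ^ 2) h2
    simp only [norm_mul, norm_pow, norm_om, one_pow, one_mul] at h3
    rw [h3, mul_pow]
  have hk : ∀ k ∈ Finset.range N, 2 * (1 - Real.cos (4 * Real.pi / N)) * ‖ft N G k‖ ^ 2 ≤
      ‖ft N (fun j => G (j + 1) - G j) k‖ ^ 2 := by
    intro k hk
    have hk' := Finset.mem_range.mp hk
    rw [hd]
    by_cases h : ft N G k = 0
    · rw [h]; simp
    · have hk0 : k ≠ 0 := fun h0 => h (h0 ▸ c0)
      have hk1 : k ≠ 1 := fun h0 => h (h0 ▸ c1)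
      have hk2 : k ≠ N - 1 := fun h0 => h (h0 ▸ c2)
      rw [norm_one_sub]
      refine mul_le_mul_of_nonneg_right ?_ (sq_nonneg _)
      have := cos_le hN (k := k) (by omega) (by omega)
      linarith
  have h1 := Finset.sum_le_sum hk
  rw [← Finset.mul_sum, parseval hN0, parseval hN0] at h1
  have h2 : ∀ j, ‖G j‖ ^ 2 = g j ^ 2 := by
    intro j
    rw [hG]
    simp only [Complex.norm_real, Real.norm_eq_abs, sq_abs]
  have h3 : ∀ j, ‖G (j + 1) - G j‖ ^ 2 = (g (j + 1) - g j) ^ 2 := by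
    intro j
    rw [hG]
    simp only
    rw [← Complex.ofReal_sub, Complex.norm_real, Real.norm_eq_abs, sq_abs]
  simp only [h2, h3] at h1
  have h4 : (N : ℝ) * (2 * (1 - Real.cos (4 * Real.pi / N)) * ∑ j ∈ Finset.range N, g j ^ 2) ≤
      N * ∑ j ∈ Finset.range N, (g (j + 1) - g j) ^ 2 := by
    calc _ = 2 * (1 - Real.cos (4 * Real.pi / N)) * (N * ∑ j ∈ Finset.range N, g j ^ 2) := by ring
      _ ≤ _ := h1
  exact le_of_mul_le_mul_left h4 hNpos

end Pool.Agent.T2H01.QI
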