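import Pool.Agent.T2H01.QI.GE0
import Pool.Agent.T2H01.QI.WIR
import Pool.Agent.T2H01.QI.SUPB
import Pool.Agent.T2H01.QI.QTR

/-! Package GE3 of project QI (helper1), by helper18: Hurwitz inequality for the support function. -/

set_option autoImplicit false

noncomputable section

open MeasureTheory Metric Set Filter Topology
open scoped NNReal ENNReal

namespace Pool.Agent.T2H01.QI

namespace GE3

open WIR

/-- Riemann sums -/
lemma riem (f : ℝ → ℂ) (hf : Continuous f) :
    Tendsto (fun N : ℕ => (∑ j ∈ Finset.range N, f (2 * Real.pi * j / N)) / (N : ℂ)) atTop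
      (𝓝 ((∫ θ in (0 : ℝ)..(2 * Real.pi), f θ) / ((2 * Real.pi : ℝ) : ℂ))) := by
  have hpi := Real.pi_pos
  rw [Metric.tendsto_atTop]
  intro ε hε
  have huc : UniformContinuousOn f (Icc 0 (2 * Real.pi)) :=
    isCompact_Icc.uniformContinuousOn_of_continuous hf.continuousOn
  obtain ⟨δ, hδ, hδ'⟩ := (Metric.uniformContinuousOn_iff.1 huc) (ε / 2) (by positivity)
  obtain ⟨N0, hN0⟩ := exists_nat_gt (2 * Real.pi / δ)
  refine ⟨N0 + 1, fun n hn => ?_⟩
  have hn0 : (0 : ℝ) < n := by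
    have : 0 < n := by omega
    exact_mod_cast this
  have hnN : (N0 : ℝ) < n := by
    have : N0 < n := by omega
    exact_mod_cast this
  have hstep : 2 * Real.pi / n < δ := by
    rw [div_lt_iff₀ hn0]
    rw [div_lt_iff₀ hδ] at hN0
    nlinarith
  set a : ℕ → ℝ := fun j => 2 * Real.pi * j / n with ha
  have ha1 : ∀ j, a (j + 1) - a j = 2 * Real.pi / n := by
    intro j
    simp only [ha]
    push_cast
    field_simp
    ring
  have hmono : ∀ j, a j ≤ a (j + 1) := fun j => by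
    have := ha1 j
    have h2 : 0 < 2 * Real.pi / n := by positivity
    linarith
  have ha0 : ∀ j, 0 ≤ a j := fun j => by
    simp only [ha]
    positivity
  have han : ∀ j, j ≤ n → a j ≤ 2 * Real.pi := fun j hj => by
    simp only [ha]
    rw [div_le_iff₀ hn0]
    have : (j : ℝ) ≤ n := by exact_mod_cast hj
    nlinarith
  have hsum : ∑ j ∈ Finset.range n, ∫ θ in (a j)..(a (j + 1)), f θ =
      ∫ θ in (0 : ℝ)..(2 * Real.pi), f θ := by
    have h := intervalIntegral.sum_integral_adjacent_intervals (f := f) (μ := volume) (a := a)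
      (n := n) (fun k _ => hf.intervalIntegrable _ _)
    rw [h]
    have e0 : a 0 = 0 := by simp [ha]
    have e1 : a n = 2 * Real.pi := by
      simp only [ha]
      field_simp
    rw [e0, e1]
  have hb : ∀ j ∈ Finset.range n, ‖(∫ θ in (a j)..(a (j + 1)), f θ) -
      ((2 * Real.pi / n : ℝ) : ℂ) * f (a j)‖ ≤ ε / 2 * (2 * Real.pi / n) := by
    intro j hj
    have hj' : j + 1 ≤ n := by
      have := Finset.mem_range.1 hj
      omega
    have e1 : ((2 * Real.pi / n : ℝ) : ℂ) * f (a j) = ∫ θ in (a j)..(a (j + 1)), f (a j) := by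
      rw [intervalIntegral.integral_const, ha1, Complex.real_smul]
    rw [e1, ← intervalIntegral.integral_sub (hf.intervalIntegrable _ _)
      (continuous_const.intervalIntegrable _ _)]
    have h2 : ‖∫ θ in (a j)..(a (j + 1)), (f θ - f (a j))‖ ≤ ε / 2 * |a (j + 1) - a j| := by
      refine intervalIntegral.norm_integral_le_of_norm_le_const fun θ hθ => ?_
      rw [Set.uIoc_of_le (hmono j)] at hθ
      have h3 := hδ' θ ⟨(ha0 j).trans hθ.1.le, hθ.2.trans (han (j + 1) hj')⟩ (a j)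
        ⟨ha0 j, han j (by omega)⟩ (by
          rw [Real.dist_eq, abs_of_pos (by linarith [hθ.1])]
          have := ha1 j
          linarith [hθ.2])
      rw [dist_eq_norm] at h3
      exact h3.le
    rw [ha1, abs_of_pos (by positivity)] at h2
    exact h2
  have hT : ‖(∫ θ in (0 : ℝ)..(2 * Real.pi), f θ) -
      ((2 * Real.pi / n : ℝ) : ℂ) * ∑ j ∈ Finset.range n, f (a j)‖ ≤ ε / 2 * (2 * Real.pi) := by
    rw [← hsum, Finset.mul_sum, ← Finset.sum_sub_distrib]
    refine (norm_sum_le _ _).trans ((Finset.sum_le_sum hb).trans (le_of_eq ?_))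
    rw [Finset.sum_const, Finset.card_range, nsmul_eq_mul]
    field_simp
  have hfin : (∑ j ∈ Finset.range n, f (2 * Real.pi * j / n)) / (n : ℂ) -
      (∫ θ in (0 : ℝ)..(2 * Real.pi), f θ) / ((2 * Real.pi : ℝ) : ℂ) =
      -(((∫ θ in (0 : ℝ)..(2 * Real.pi), f θ) -
      ((2 * Real.pi / n : ℝ) : ℂ) * ∑ j ∈ Finset.range n, f (a j)) / ((2 * Real.pi : ℝ) : ℂ)) := by
    have hnC : (n : ℂ) ≠ 0 := by exact_mod_cast hn0.ne'
    have hpC : (Real.pi : ℂ) ≠ 0 := by exact_mod_cast hpi.ne'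
    simp only [ha]
    push_cast
    field_simp
    ring
  rw [dist_eq_norm, hfin, norm_neg, norm_div, Complex.norm_real, Real.norm_eq_abs,
    abs_of_pos (by positivity : (0 : ℝ) < 2 * Real.pi)]
  refine lt_of_le_of_lt (div_le_div_of_nonneg_right hT (by positivity)) ?_
  rw [mul_div_assoc, div_self (by positivity), mul_one]
  linarith

lemma sin_lim (a : ℝ) : Tendsto (fun N : ℕ => (N : ℝ) * Real.sin (a / N)) atTop (𝓝 a) := by
  have h : HasDerivAt (fun x : ℝ => Real.sin (a * x)) a 0 := by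
    have h1 : HasDerivAt (fun x : ℝ => a * x) a 0 := by
      simpa using (hasDerivAt_id (0 : ℝ)).const_mul a
    have h2 := h1.sin
    simpa using h2
  have h2 := h.tendsto_slope_zero
  have h3 : Tendsto (fun N : ℕ => ((N : ℝ))⁻¹) atTop (𝓝[≠] (0 : ℝ)) := by
    refine tendsto_nhdsWithin_iff.2 ⟨tendsto_inv_atTop_nhds_zero_nat, ?_⟩
    filter_upwards [eventually_gt_atTop 0] with N hN
    have : (N : ℝ) ≠ 0 := by exact_mod_cast hN.ne'
    exact inv_ne_zero this
  refine (h2.comp h3).congr fun N => ?_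
  simp [div_eq_mul_inv]

/-- `N (cos δ - cos kδ) / sin δ` -/
lemma ck_lim (k : ℕ) : Tendsto (fun N : ℕ => (N : ℝ) *
    (Real.cos (2 * Real.pi / N) - Real.cos (2 * Real.pi * k / N)) / Real.sin (2 * Real.pi / N))
    atTop (𝓝 (Real.pi * ((k : ℝ) ^ 2 - 1))) := by
  have hpi := Real.pi_pos
  have h1 := sin_lim (Real.pi * (1 + k))
  have h2 := sin_lim (Real.pi * (1 - k))
  have h3 := sin_lim (2 * Real.pi)
  have h4 := (((h1.mul h2).const_mul (-2)).div h3 (by positivity))
  have e : -2 * (Real.pi * (1 + (k : ℝ)) * (Real.pi * (1 - k))) / (2 * Real.pi) =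
      Real.pi * ((k : ℝ) ^ 2 - 1) := by
    field_simp
    ring
  rw [e] at h4
  refine h4.congr' ?_
  filter_upwards [eventually_ge_atTop 5] with N hN
  have hN0 : (0 : ℝ) < N := by
    have : 0 < N := by omega
    exact_mod_cast this
  have hN5 : (5 : ℝ) ≤ N := by exact_mod_cast hN
  have hs : 0 < Real.sin (2 * Real.pi / N) := by
    refine Real.sin_pos_of_pos_of_lt_pi (by positivity) ?_
    rw [div_lt_iff₀ hN0]
    nlinarith
  rw [Real.cos_sub_cos]
  have e1 : (2 * Real.pi / N + 2 * Real.pi * k / N) / 2 = Real.pi * (1 + k) / N := by ring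
  have e2 : (2 * Real.pi / N - 2 * Real.pi * k / N) / 2 = Real.pi * (1 - k) / N := by ring
  rw [e1, e2]
  simp only [Pi.div_apply]
  field_simp

lemma conj_ft {N : ℕ} (hN : N ≠ 0) (f : ℕ → ℝ) {k : ℕ} (hk : k ≤ N) :
    ft N (fun j => (f j : ℂ)) (N - k) = (starRingEnd ℂ) (ft N (fun j => (f j : ℂ)) k) := by
  rw [ft, ft, map_sum]
  refine Finset.sum_congr rfl fun j _ => ?_
  rw [map_mul, map_pow, conj_om]
  simp only [Complex.conj_ofReal]
  congr 1
  rw [inv_pow]
  refine eq_inv_of_mul_eq_one_left ?_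
  rw [← pow_add]
  have h2 : j * (N - k) + j * k = N * j := by
    rw [← Nat.mul_add, Nat.sub_add_cancel hk, Nat.mul_comm]
  rw [h2, pow_mul, (om_prim hN).pow_eq_one, one_pow]

lemma norm_ft {N : ℕ} (hN : N ≠ 0) (f : ℕ → ℝ) {k : ℕ} (hk : k ≤ N) :
    ‖ft N (fun j => (f j : ℂ)) (N - k)‖ = ‖ft N (fun j => (f j : ℂ)) k‖ := by
  rw [conj_ft hN f hk, Complex.norm_conj]

lemma cos_symm {N k : ℕ} (hN : N ≠ 0) (hk : k ≤ N) :
    Real.cos (2 * Real.pi * ((N - k : ℕ) : ℝ) / N) = Real.cos (2 * Real.pi * k / N) := by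
  have hN0 : (N : ℝ) ≠ 0 := by exact_mod_cast hN
  rw [Nat.cast_sub hk]
  have e : 2 * Real.pi * ((N : ℝ) - k) / N = 2 * Real.pi - 2 * Real.pi * k / N := by
    field_simp
  rw [e, Real.cos_two_pi_sub]

lemma cos_le' {N k : ℕ} (hk : 1 ≤ k) (hkN : k < N) :
    Real.cos (2 * Real.pi * k / N) ≤ Real.cos (2 * Real.pi / N) := by
  have hpi := Real.pi_pos
  have hN0 : (0 : ℝ) < N := by
    have : 0 < N := by omega
    exact_mod_cast this
  have main : ∀ l : ℕ, 1 ≤ l → 2 * l ≤ N →
      Real.cos (2 * Real.pi * l / N) ≤ Real.cos (2 * Real.pi / N) := by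
    intro l hl hlN
    have hl1 : (1 : ℝ) ≤ l := by exact_mod_cast hl
    have hl2 : 2 * (l : ℝ) ≤ N := by exact_mod_cast hlN
    refine Real.cos_le_cos_of_nonneg_of_le_pi (by positivity) ?_ ?_
    · rw [div_le_iff₀ hN0]
      nlinarith
    · refine div_le_div_of_nonneg_right ?_ hN0.le
      nlinarith
  rcases le_total (2 * k) N with h | h
  · exact main k hk h
  · rw [← cos_symm (by omega) hkN.le]
    exact main (N - k) (by omega) (by omega)

/-- the area of the polygon by the discrete Fourier transform -/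
lemma Qft {N : ℕ} (hN : 5 ≤ N) (f : ℕ → ℝ) (hf : ∀ j, f (j + N) = f j) :
    Q N f = 1 / (N * Real.sin (2 * Real.pi / N)) *
      ∑ k ∈ Finset.range N, ‖ft N (fun j => (f j : ℂ)) k‖ ^ 2 *
        (Real.cos (2 * Real.pi * k / N) - Real.cos (2 * Real.pi / N)) := by
  have hN0 : N ≠ 0 := by omega
  have hNR : (0 : ℝ) < N := by
    have : 0 < N := by omega
    exact_mod_cast this
  rw [SUPB.Q_eq (by omega) f hf]
  set G : ℕ → ℂ := fun j => (f j : ℂ) with hG
  have hGN : G N = G 0 := by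
    have := hf 0
    rw [zero_add] at this
    simp only [hG, this]
  have h1 : (N : ℝ) * ∑ j ∈ Finset.range N, f j ^ 2 = ∑ k ∈ Finset.range N, ‖ft N G k‖ ^ 2 := by
    rw [parseval hN0 G]
    congr 1
    refine Finset.sum_congr rfl fun j _ => ?_
    simp only [hG]
    rw [Complex.norm_real, Real.norm_eq_abs, sq_abs]
  have h2 : (N : ℝ) * ∑ j ∈ Finset.range N, (f (j + 1) - f j) ^ 2 =
      ∑ k ∈ Finset.range N, ‖ft N G k‖ ^ 2 * (2 * (1 - Real.cos (2 * Real.pi * k / N))) := by
    have h3 := parseval hN0 (fun j => G (j + 1) - G j)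
    have h4 : ∑ j ∈ Finset.range N, ‖G (j + 1) - G j‖ ^ 2 =
        ∑ j ∈ Finset.range N, (f (j + 1) - f j) ^ 2 := by
      refine Finset.sum_congr rfl fun j _ => ?_
      simp only [hG]
      rw [← Complex.ofReal_sub, Complex.norm_real, Real.norm_eq_abs, sq_abs]
    rw [h4] at h3
    rw [← h3]
    refine Finset.sum_congr rfl fun k _ => ?_
    have h5 : ft N (fun j => G (j + 1) - G j) k = ft N (fun j => G (j + 1)) k - ft N G k := by
      simp only [ft, sub_mul, Finset.sum_sub_distrib]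
    have h6 := ft_shift hN0 G hGN k
    have h7 : ft N (fun j => G (j + 1)) k - ft N G k =
        (1 - om N ^ k) * ft N (fun j => G (j + 1)) k := by
      rw [← h6]
      ring
    have h8 : ‖ft N (fun j => G (j + 1)) k‖ = ‖ft N G k‖ := by
      rw [← h6, norm_mul, norm_pow, norm_om, one_pow, one_mul]
    rw [h5, h7, norm_mul, mul_pow, norm_one_sub, h8]
    ring
  have h3 : 2 * (1 - Real.cos (2 * Real.pi / N)) * ∑ j ∈ Finset.range N, f j ^ 2 -
      ∑ j ∈ Finset.range N, (f (j + 1) - f j) ^ 2 =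
      (1 / N) * (2 * ∑ k ∈ Finset.range N, ‖ft N G k‖ ^ 2 *
        (Real.cos (2 * Real.pi * k / N) - Real.cos (2 * Real.pi / N))) := by
    have e1 : ∑ j ∈ Finset.range N, f j ^ 2 = (1 / N) * ∑ k ∈ Finset.range N, ‖ft N G k‖ ^ 2 := by
      rw [← h1]
      field_simp
    have e2 : ∑ j ∈ Finset.range N, (f (j + 1) - f j) ^ 2 = (1 / N) *
        ∑ k ∈ Finset.range N, ‖ft N G k‖ ^ 2 * (2 * (1 - Real.cos (2 * Real.pi * k / N))) := by
      rw [← h2]
      field_simp
    rw [e1, e2, Finset.mul_sum, Finset.mul_sum, Finset.mul_sum, Finset.mul_sum, Finset.mul_sum,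
      ← Finset.sum_sub_distrib]
    refine Finset.sum_congr rfl fun k _ => ?_
    ring
  rw [h3]
  ring

/-- keep some of the terms -/
lemma Qle {N K : ℕ} (hN : 5 ≤ N) (hK : 2 * K < N) (f : ℕ → ℝ) (hf : ∀ j, f (j + N) = f j) :
    Q N f ≤ 1 / (N * Real.sin (2 * Real.pi / N)) *
      (-(‖ft N (fun j => (f j : ℂ)) 0‖ ^ 2 *
        (Real.cos (2 * Real.pi / N) - Real.cos (2 * Real.pi * (0 : ℕ) / N))) -
      2 * ∑ k ∈ Finset.Icc 2 K, ‖ft N (fun j => (f j : ℂ)) k‖ ^ 2 *
        (Real.cos (2 * Real.pi / N) - Real.cos (2 * Real.pi * k / N))) := by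
  have hpi := Real.pi_pos
  have hN0 : N ≠ 0 := by omega
  have hNR : (0 : ℝ) < N := by
    have : 0 < N := by omega
    exact_mod_cast this
  have hN5 : (5 : ℝ) ≤ N := by exact_mod_cast hN
  have hs : 0 < Real.sin (2 * Real.pi / N) := by
    refine Real.sin_pos_of_pos_of_lt_pi (by positivity) ?_
    rw [div_lt_iff₀ hNR]
    nlinarith
  rw [Qft hN f hf]
  refine mul_le_mul_of_nonneg_left ?_ (by positivity)
  set t : ℕ → ℝ := fun k => ‖ft N (fun j => (f j : ℂ)) k‖ ^ 2 *
    (Real.cos (2 * Real.pi / N) - Real.cos (2 * Real.pi * k / N)) with ht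
  have ht0 : ∀ k ∈ Finset.range N, k ≠ 0 → 0 ≤ t k := by
    intro k hk hk0
    simp only [ht]
    refine mul_nonneg (by positivity) ?_
    have := cos_le' (N := N) (k := k) (by omega) (Finset.mem_range.1 hk)
    linarith
  have htN : ∀ k, k ≤ N → t (N - k) = t k := by
    intro k hk
    simp only [ht]
    rw [norm_ft hN0 f hk, cos_symm hN0 hk]
  set A : Finset ℕ := Finset.Icc 2 K with hA
  set B : Finset ℕ := (Finset.Icc 2 K).image (fun k => N - k) with hB
  have hdisj : Disjoint A B := by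
    rw [Finset.disjoint_left]
    intro x hx hx'
    rw [hB, Finset.mem_image] at hx'
    obtain ⟨y, hy, hxy⟩ := hx'
    rw [hA, Finset.mem_Icc] at hx
    rw [Finset.mem_Icc] at hy
    omega
  have h0 : (0 : ℕ) ∉ A ∪ B := by
    rw [Finset.mem_union, not_or]
    constructor
    · rw [hA, Finset.mem_Icc]
      omega
    · rw [hB, Finset.mem_image]
      rintro ⟨y, hy, hxy⟩
      rw [Finset.mem_Icc] at hy
      omega
  have hsub : insert 0 (A ∪ B) ⊆ Finset.range N := by
    intro x hx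
    rw [Finset.mem_insert, Finset.mem_union, hA, hB, Finset.mem_Icc, Finset.mem_image] at hx
    rw [Finset.mem_range]
    rcases hx with h | h | ⟨y, hy, hxy⟩
    · omega
    · omega
    · rw [Finset.mem_Icc] at hy
      omega
  have h1 : ∑ k ∈ insert 0 (A ∪ B), t k ≤ ∑ k ∈ Finset.range N, t k := by
    refine Finset.sum_le_sum_of_subset_of_nonneg hsub fun k hk hk' => ht0 k hk ?_
    intro h
    exact hk' (by rw [h]; exact Finset.mem_insert_self _ _)
  have h2 : ∑ k ∈ B, t k = ∑ k ∈ A, t k := by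
    rw [hB, Finset.sum_image]
    · refine Finset.sum_congr rfl fun k hk => ?_
      rw [hA, Finset.mem_Icc] at hk
      exact htN k (by omega)
    · intro x hx y hy hxy
      rw [Finset.coe_Icc, Set.mem_Icc] at hx hy
      simp only at hxy
      omega
  rw [Finset.sum_insert h0, Finset.sum_union hdisj, h2] at h1
  have h3 : ∑ k ∈ Finset.range N, ‖ft N (fun j => (f j : ℂ)) k‖ ^ 2 *
      (Real.cos (2 * Real.pi * k / N) - Real.cos (2 * Real.pi / N)) =
      - ∑ k ∈ Finset.range N, t k := by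
    rw [← Finset.sum_neg_distrib]
    refine Finset.sum_congr rfl fun k _ => ?_
    simp only [ht]
    ring
  rw [h3]
  have h4 : ‖ft N (fun j => (f j : ℂ)) 0‖ ^ 2 *
        (Real.cos (2 * Real.pi / N) - Real.cos (2 * Real.pi * (0 : ℕ) / N)) = t 0 := rfl
  rw [h4]
  linarith

lemma phi_cont (g : ℝ → ℝ) (hg : Continuous g) (k : ℕ) :
    Continuous (fun θ : ℝ => (g θ : ℂ) * Complex.exp (Complex.I * (k * θ))) := by
  have h1 : Continuous (fun θ : ℝ => (g θ : ℂ)) := Complex.continuous_ofReal.comp hg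
  have h2 : Continuous (fun θ : ℝ => Complex.exp (Complex.I * (k * θ))) := by fun_prop
  exact h1.mul h2

lemma int_phi (g : ℝ → ℝ) (hg : Continuous g) (k : ℕ) :
    ‖∫ θ in (0 : ℝ)..(2 * Real.pi), (g θ : ℂ) * Complex.exp (Complex.I * (k * θ))‖ ^ 2 =
      cf g k 1 ^ 2 + cf g k (-Complex.I) ^ 2 := by
  have hint := (phi_cont g hg k).intervalIntegrable (μ := volume) 0 (2 * Real.pi)
  have hre : cf g k 1 =
      (∫ θ in (0 : ℝ)..(2 * Real.pi), (g θ : ℂ) * Complex.exp (Complex.I * (k * θ))).re := by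
    have h := Complex.reCLM.intervalIntegral_comp_comm hint
    rw [Complex.reCLM_apply] at h
    rw [← h]
    unfold cf
    refine intervalIntegral.integral_congr fun θ _ => ?_
    simp only [Complex.reCLM_apply, Complex.re_ofReal_mul, one_mul]
  have him : cf g k (-Complex.I) =
      (∫ θ in (0 : ℝ)..(2 * Real.pi), (g θ : ℂ) * Complex.exp (Complex.I * (k * θ))).im := by
    have h := Complex.imCLM.intervalIntegral_comp_comm hint
    rw [Complex.imCLM_apply] at h
    rw [← h]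
    unfold cf
    refine intervalIntegral.integral_congr fun θ _ => ?_
    simp only [Complex.imCLM_apply, Complex.im_ofReal_mul]
    congr 1
    simp
  rw [hre, him, Complex.sq_norm, Complex.normSq_apply]
  ring

lemma int_one (k : ℕ) (hk : k ≠ 0) (c : ℂ) :
    ∫ θ in (0 : ℝ)..(2 * Real.pi), (c * Complex.exp (Complex.I * (k * θ))).re = 0 := by
  have hkC : Complex.I * (k : ℂ) ≠ 0 := mul_ne_zero Complex.I_ne_zero (by exact_mod_cast hk)
  have hc : Continuous (fun θ : ℝ => c * Complex.exp (Complex.I * (k * θ))) := by fun_prop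
  have h := Complex.reCLM.intervalIntegral_comp_comm
    (hc.intervalIntegrable (μ := volume) 0 (2 * Real.pi))
  simp only [Complex.reCLM_apply] at h
  rw [h]
  have h2 := integral_exp_mul_complex (a := 0) (b := 2 * Real.pi) hkC
  have h3 : ∫ θ in (0 : ℝ)..(2 * Real.pi), Complex.exp (Complex.I * (k * θ)) = 0 := by
    have e : ∀ θ : ℝ, Complex.exp (Complex.I * (k * θ)) = Complex.exp (Complex.I * k * θ) := by
      intro θ
      rw [mul_assoc]
    simp only [e]
    rw [h2]
    have e1 : Complex.exp (Complex.I * (k : ℂ) * ((2 * Real.pi : ℝ) : ℂ)) = 1 := by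
      have e2 : Complex.I * (k : ℂ) * ((2 * Real.pi : ℝ) : ℂ) =
          (k : ℂ) * (2 * Real.pi * Complex.I) := by
        push_cast
        ring
      rw [e2, Complex.exp_nat_mul, Complex.exp_two_pi_mul_I, one_pow]
    rw [e1]
    simp
  rw [intervalIntegral.integral_const_mul, h3, mul_zero, Complex.zero_re]

end GE3

open GE3 in
theorem pGE3 (hHCT : S_HCT) (hGE0 : S_GE0) (hARE : S_ARE) (hORT : S_ORT) : S_GE3 := by
  intro Ω hΩ hb hne K
  have hpi := Real.pi_pos
  obtain ⟨hcont, hper, hc0, _⟩ := hGE0 Ω hb hne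
  set m := mr Ω with hm
  set F : ℝ → ℝ := fun θ => m + gg Ω θ with hF
  have hFc : Continuous F := continuous_const.add hcont
  have hFp : ∀ θ, F (θ + 2 * Real.pi) = F θ := fun θ => by
    simp only [hF, hper]
  -- the polygons
  have hN : ∀ N : ℕ, 5 ≤ N → volume.real Ω ≤ Q N (fun j => F (2 * Real.pi * j / N)) := by
    intro N hN
    have h1 := hARE Ω hΩ hb hne N hN
    have hNR : (N : ℝ) ≠ 0 := by
      have : N ≠ 0 := by omega
      exact_mod_cast this
    have h2 := pQTR N hN (fun j => hs Ω (nd N j)) (fun j => by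
      simp only [SUPB.nd_per (by omega : 0 < N)]) (ctr Ω)
    rw [← h2] at h1
    refine h1.trans (le_of_eq ?_)
    congr 1
    funext j
    simp only [hF, gg, hc, nd, hm]
    ring
  have hFN : ∀ N : ℕ, 5 ≤ N → ∀ j : ℕ, F (2 * Real.pi * ((j + N : ℕ) : ℝ) / N) =
      F (2 * Real.pi * j / N) := by
    intro N hN j
    have hNR : (N : ℝ) ≠ 0 := by
      have : N ≠ 0 := by omega
      exact_mod_cast this
    rw [← hFp (2 * Real.pi * j / N)]
    congr 1
    push_cast
    field_simp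
  -- the limits
  have hlim : ∀ k : ℕ, Tendsto (fun N : ℕ =>
      (‖WIR.ft N (fun j => ((F (2 * Real.pi * j / N) : ℝ) : ℂ)) k‖ / N) ^ 2) atTop
      (𝓝 ((cf F k 1 ^ 2 + cf F k (-Complex.I) ^ 2) / (2 * Real.pi) ^ 2)) := by
    intro k
    have h1 := (riem _ (phi_cont F hFc k)).norm.pow 2
    rw [norm_div, div_pow, int_phi F hFc k, Complex.norm_real, Real.norm_eq_abs,
      abs_of_pos (by positivity : (0 : ℝ) < 2 * Real.pi)] at h1
    refine h1.congr fun N => ?_
    rw [norm_div, Complex.norm_natCast]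
    congr 3
    unfold WIR.ft
    refine Finset.sum_congr rfl fun j _ => ?_
    rw [WIR.om_pow]
    congr 2
    push_cast
    ring
  have hT : Tendsto (fun N : ℕ => -((‖WIR.ft N (fun j => ((F (2 * Real.pi * j / N) : ℝ) : ℂ)) 0‖ / N) ^ 2 *
      ((N : ℝ) * (Real.cos (2 * Real.pi / N) - Real.cos (2 * Real.pi * (0 : ℕ) / N)) /
        Real.sin (2 * Real.pi / N))) -
      2 * ∑ k ∈ Finset.Icc 2 K, (‖WIR.ft N (fun j => ((F (2 * Real.pi * j / N) : ℝ) : ℂ)) k‖ / N) ^ 2 *
      ((N : ℝ) * (Real.cos (2 * Real.pi / N) - Real.cos (2 * Real.pi * k / N)) /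
        Real.sin (2 * Real.pi / N))) atTop
      (𝓝 (-((cf F 0 1 ^ 2 + cf F 0 (-Complex.I) ^ 2) / (2 * Real.pi) ^ 2 *
        (Real.pi * (((0 : ℕ) : ℝ) ^ 2 - 1))) -
        2 * ∑ k ∈ Finset.Icc 2 K, (cf F k 1 ^ 2 + cf F k (-Complex.I) ^ 2) / (2 * Real.pi) ^ 2 *
          (Real.pi * ((k : ℝ) ^ 2 - 1)))) := by
    refine Tendsto.sub ?_ ?_
    · exact ((hlim 0).mul (ck_lim 0)).neg
    · refine Tendsto.const_mul 2 ?_
      exact tendsto_finset_sum _ fun k _ => (hlim k).mul (ck_lim k)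
  have hle := ge_of_tendsto (b := volume.real Ω) hT ?_
  swap
  · filter_upwards [eventually_ge_atTop (2 * K + 5)] with N hN'
    have hN5 : 5 ≤ N := by omega
    have hNR : (0 : ℝ) < N := by
      have : 0 < N := by omega
      exact_mod_cast this
    have hN5' : (5 : ℝ) ≤ N := by exact_mod_cast hN5
    have hs : 0 < Real.sin (2 * Real.pi / N) := by
      refine Real.sin_pos_of_pos_of_lt_pi (by positivity) ?_
      rw [div_lt_iff₀ hNR]
      nlinarith
    have h1 := (hN N hN5).trans (Qle (K := K) hN5 (by omega) _ (hFN N hN5))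
    refine h1.trans (le_of_eq ?_)
    rw [mul_sub, mul_neg, mul_left_comm _ 2, Finset.mul_sum]
    congr 1
    · congr 1
      field_simp
    · congr 1
      refine Finset.sum_congr rfl fun k _ => ?_
      field_simp
  -- the values
  have hcf : ∀ (k : ℕ) (c : ℂ), cf F k c =
      m * (∫ θ in (0 : ℝ)..(2 * Real.pi), (c * Complex.exp (Complex.I * (k * θ))).re) +
      cf (gg Ω) k c := by
    intro k c
    have hw : Continuous (fun θ : ℝ => (c * Complex.exp (Complex.I * (k * θ))).re) := by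
      fun_prop
    have i1 : IntervalIntegrable (fun θ : ℝ => m * (c * Complex.exp (Complex.I * (k * θ))).re)
        volume 0 (2 * Real.pi) := (hw.const_mul m).intervalIntegrable _ _
    have i2 : IntervalIntegrable (fun θ : ℝ => gg Ω θ * (c * Complex.exp (Complex.I * (k * θ))).re)
        volume 0 (2 * Real.pi) := (hcont.mul hw).intervalIntegrable _ _
    unfold cf
    rw [← intervalIntegral.integral_const_mul, ← intervalIntegral.integral_add i1 i2]
    refine intervalIntegral.integral_congr fun θ _ => ?_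
    simp only [hF]
    ring
  have hv : ∀ k ∈ Finset.Icc 2 K, ∀ c : ℂ, cf F k c = cf (gg Ω) k c := by
    intro k hk c
    rw [Finset.mem_Icc] at hk
    rw [hcf, int_one k (by omega), mul_zero, zero_add]
  have h01 : cf F 0 1 = 2 * Real.pi * m := by
    rw [hcf, hc0]
    simp
    ring
  have h02 : cf F 0 (-Complex.I) = 0 := by
    rw [hcf, hc0]
    simp
  rw [h01, h02] at hle
  have hsum : ∑ k ∈ Finset.Icc 2 K, (cf F k 1 ^ 2 + cf F k (-Complex.I) ^ 2) / (2 * Real.pi) ^ 2 *
          (Real.pi * ((k : ℝ) ^ 2 - 1)) = (1 / (4 * Real.pi)) * ∑ k ∈ Finset.Icc 2 K,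
        ((k : ℝ) ^ 2 - 1) * (cf (gg Ω) k 1 ^ 2 + cf (gg Ω) k (-Complex.I) ^ 2) := by
    rw [Finset.mul_sum]
    refine Finset.sum_congr rfl fun k hk => ?_
    rw [hv k hk, hv k hk]
    field_simp
    ring
  rw [hsum] at hle
  have e1 : -(((2 * Real.pi * m) ^ 2 + (0 : ℝ) ^ 2) / (2 * Real.pi) ^ 2 *
      (Real.pi * (((0 : ℕ) : ℝ) ^ 2 - 1))) = Real.pi * m ^ 2 := by
    push_cast
    field_simp
    ring
  rw [e1] at hle
  have e2 : 2 * (1 / (4 * Real.pi) * ∑ k ∈ Finset.Icc 2 K,
        ((k : ℝ) ^ 2 - 1) * (cf (gg Ω) k 1 ^ 2 + cf (gg Ω) k (-Complex.I) ^ 2)) =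
      1 / (2 * Real.pi) * ∑ k ∈ Finset.Icc 2 K,
        ((k : ℝ) ^ 2 - 1) * (cf (gg Ω) k 1 ^ 2 + cf (gg Ω) k (-Complex.I) ^ 2) := by
    field_simp
    ring
  rw [e2] at hle
  linarith

end Pool.Agent.T2H01.QI
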