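import Pool.Agent.T2H01.QI.Stm

set_option autoImplicit false

noncomputable section

open MeasureTheory Metric Set Filter Topology
open scoped NNReal ENNReal

namespace Pool.Agent.T2H01.QI

namespace GG1

theorem gph_cont {f : ℝ → ℝ} (hf : Continuous f) : Continuous (gph f) := by
  unfold gph
  fun_prop

theorem abs_le_norm_gph (f : ℝ → ℝ) (s : ℝ) : |s| ≤ ‖gph f s‖ := by
  have := EuclideanSpace.norm_eq (gph f s)
  rw [this]
  apply Real.abs_le_sqrt
  simp [gph, Fin.sum_univ_two]
  positivity

/-- a compactly supported function along the graph has compact support -/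
theorem comp_supp {F : Type} [NormedAddCommGroup F] {f : ℝ → ℝ} {ψ : E2 → F}
    (hs : HasCompactSupport ψ) : HasCompactSupport (fun s => ψ (gph f s)) := by
  obtain ⟨R, hR⟩ := hs.isCompact.isBounded.subset_closedBall (0 : E2)
  refine HasCompactSupport.intro (isCompact_closedBall (0 : ℝ) R) ?_
  intro s hsn
  by_contra hne
  apply hsn
  have h1 : gph f s ∈ tsupport ψ := subset_tsupport _ hne
  have h2 := hR h1
  rw [mem_closedBall_zero_iff] at h2 ⊢
  exact (abs_le_norm_gph f s).trans h2

theorem cs (a b c : ℝ) (y : E2) (ha : a = y 0) (hb : b = y 1) :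
    -(c * a) + b ≤ ‖y‖ * Real.sqrt (1 + c ^ 2) := by
  rw [EuclideanSpace.norm_eq, ← Real.sqrt_mul (by positivity)]
  apply Real.le_sqrt_of_sq_le
  rw [Fin.sum_univ_two, ← ha, ← hb]
  simp only [Real.norm_eq_abs, sq_abs]
  nlinarith [sq_nonneg (a + c * b)]

end GG1

theorem pGG1 (hVER : S_VER) (hHOR : S_HOR) : S_GG1 := by
  intro f K hf ψ hψ hs
  have hcf : Continuous f := hf.continuous
  have hcd : ∀ i : Fin 2, ContDiff ℝ 1 (fun x => ψ x i) := by
    intro i
    exact (EuclideanSpace.proj i : E2 →L[ℝ] ℝ).contDiff.comp hψ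
  have hcs : ∀ i : Fin 2, HasCompactSupport (fun x => ψ x i) := by
    intro i
    exact hs.comp_left (g := fun y : E2 => y i) (by simp)
  have hfd : ∀ (i : Fin 2) (x v : E2), fderiv ℝ (fun x => ψ x i) x v = (fderiv ℝ ψ x v) i := by
    intro i x v
    have h1 : HasFDerivAt ψ (fderiv ℝ ψ x) x := (hψ.differentiable (by simp) x).hasFDerivAt
    have h3 : HasFDerivAt (fun x => ψ x i)
      ((EuclideanSpace.proj i : E2 →L[ℝ] ℝ).comp (fderiv ℝ ψ x)) x :=
      (EuclideanSpace.proj i : E2 →L[ℝ] ℝ).hasFDerivAt.comp x h1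
    rw [h3.fderiv, ContinuousLinearMap.comp_apply, PiLp.proj_apply]
  have hint : ∀ (i : Fin 2) (v : E2), Integrable (fun x => fderiv ℝ (fun x => ψ x i) x v) := by
    intro i v
    have hc : Continuous (fun x => fderiv ℝ (fun x => ψ x i) x v) :=
      ((hcd i).continuous_fderiv (by simp)).clm_apply continuous_const
    exact hc.integrable_of_hasCompactSupport ((hcs i).fderiv_apply ℝ v)
  have hdiv : ∫ x in Below f, divg ψ x =
      (∫ x in Below f, fderiv ℝ (fun x => ψ x 0) x (EuclideanSpace.single 0 1)) +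
        ∫ x in Below f, fderiv ℝ (fun x => ψ x 1) x (EuclideanSpace.single 1 1) := by
    rw [← integral_add ((hint 0 _).integrableOn) ((hint 1 _).integrableOn)]
    congr 1
    funext x
    rw [divg, Fin.sum_univ_two, hfd, hfd]
  rw [hdiv, hHOR f K hf _ (hcd 0) (hcs 0), hVER f K hf _ (hcd 1) (hcs 1)]
  have hg : Continuous (gph f) := GG1.gph_cont hcf
  have hψc : Continuous ψ := hψ.continuous
  have hdm : Measurable (deriv f) := measurable_deriv f
  have hdb : ∀ s, ‖deriv f s‖ ≤ K := fun s => norm_deriv_le_of_lipschitz hf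
  have hi0 : Integrable (fun s => ψ (gph f s) 0) :=
    ((hcd 0).continuous.comp hg).integrable_of_hasCompactSupport (GG1.comp_supp (hcs 0))
  have hi1 : Integrable (fun s => ψ (gph f s) 1) :=
    ((hcd 1).continuous.comp hg).integrable_of_hasCompactSupport (GG1.comp_supp (hcs 1))
  have hi2 : Integrable (fun s => deriv f s * ψ (gph f s) 0) :=
    hi0.bdd_mul hdm.aestronglyMeasurable (Eventually.of_forall hdb)
  have hn : Integrable (fun s => ‖ψ (gph f s)‖) :=
    ((hψc.comp hg).integrable_of_hasCompactSupport (GG1.comp_supp hs)).norm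
  have hspm : Measurable (spd f) := by
    unfold spd
    fun_prop
  have hspb : ∀ s, ‖spd f s‖ ≤ Real.sqrt (1 + (K : ℝ) ^ 2) := by
    intro s
    unfold spd
    rw [Real.norm_of_nonneg (Real.sqrt_nonneg _)]
    apply Real.sqrt_le_sqrt
    have h1 := hdb s
    rw [Real.norm_eq_abs] at h1
    have h2 : (deriv f s) ^ 2 ≤ (K : ℝ) ^ 2 := by
      rw [← sq_abs]
      exact pow_le_pow_left₀ (abs_nonneg _) h1 2
    linarith
  have hi3 : Integrable (fun s => ‖ψ (gph f s)‖ * spd f s) := by
    have := hn.bdd_mul hspm.aestronglyMeasurable (Eventually.of_forall hspb)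
    refine this.congr (Eventually.of_forall fun s => ?_)
    simp only
    ring
  have hi2' : Integrable (fun s => -(deriv f s * ψ (gph f s) 0)) := hi2.neg
  rw [← integral_neg, ← integral_add hi2' hi1]
  have hi4 : Integrable (fun s => -(deriv f s * ψ (gph f s) 0) + ψ (gph f s) 1) := hi2'.add hi1
  refine integral_mono hi4 hi3 ?_
  intro s
  exact GG1.cs (ψ (gph f s) 0) (ψ (gph f s) 1) (deriv f s) (ψ (gph f s)) rfl rfl

end Pool.Agent.T2H01.QI
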