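import Pool.Agent.T2H01.QI.Stm

set_option autoImplicit false

noncomputable section

open MeasureTheory Metric Set Filter Topology
open scoped NNReal ENNReal

namespace Pool.Agent.T2H01.QI

namespace GG2

theorem e_eq (e : E2 ≃ᵃⁱ[ℝ] E2) (y : E2) : e y = e.linearIsometryEquiv y + e 0 := by
  have h := e.map_vadd 0 y
  simpa using h

theorem e_mp (e : E2 ≃ᵃⁱ[ℝ] E2) : MeasurePreserving e (volume : Measure E2) volume := by
  have h1 : MeasurePreserving (fun y : E2 => e.linearIsometryEquiv y + e 0) volume volume :=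
    (measurePreserving_add_right volume (e 0)).comp (e.linearIsometryEquiv.measurePreserving)
  have h2 : (e : E2 → E2) = fun y => e.linearIsometryEquiv y + e 0 := funext (e_eq e)
  rw [h2]
  exact h1

theorem divg_eq (φ : E2 → E2) (x : E2) :
    divg φ x = LinearMap.trace ℝ E2 (fderiv ℝ φ x).toLinearMap := by
  rw [LinearMap.trace_eq_matrix_trace ℝ (EuclideanSpace.basisFun (Fin 2) ℝ).toBasis]
  unfold divg Matrix.trace
  refine Finset.sum_congr rfl fun i _ => ?_
  simp [LinearMap.toMatrix_apply]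

/-- The field in the chart. -/
def Ph (e : E2 ≃ᵃⁱ[ℝ] E2) (ψ : E2 → E2) (z : E2) : E2 := e.linearIsometryEquiv (ψ (e.symm z))

theorem e_symm_contDiff (e : E2 ≃ᵃⁱ[ℝ] E2) : ContDiff ℝ 1 (fun z => e.symm z) := by
  have h : (fun z => e.symm z) = fun z => e.symm.linearIsometryEquiv z + e.symm 0 :=
    funext (e_eq e.symm)
  rw [h]
  exact (e.symm.linearIsometryEquiv.contDiff).add contDiff_const

theorem e_symm_deriv (e : E2 ≃ᵃⁱ[ℝ] E2) (z : E2) :
    HasFDerivAt (fun z => e.symm z)
      (e.linearIsometryEquiv.symm.toContinuousLinearEquiv : E2 →L[ℝ] E2) z := by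
  have h : (fun z => e.symm z) = fun z => e.linearIsometryEquiv.symm z + e.symm 0 :=
    funext (e_eq e.symm)
  rw [h]
  exact ((e.linearIsometryEquiv.symm.toContinuousLinearEquiv : E2 →L[ℝ] E2).hasFDerivAt).add_const _

theorem Ph_contDiff (e : E2 ≃ᵃⁱ[ℝ] E2) (ψ : E2 → E2) (hψ : ContDiff ℝ 1 ψ) :
    ContDiff ℝ 1 (Ph e ψ) :=
  (e.linearIsometryEquiv.contDiff).comp (hψ.comp (e_symm_contDiff e))

theorem Ph_cs (e : E2 ≃ᵃⁱ[ℝ] E2) (ψ : E2 → E2) (hc : HasCompactSupport ψ) :
    HasCompactSupport (Ph e ψ) := by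
  have h1 : HasCompactSupport (ψ ∘ e.symm.toHomeomorph) := hc.comp_homeomorph _
  exact h1.comp_left (g := e.linearIsometryEquiv) (map_zero _)

theorem divg_Ph (e : E2 ≃ᵃⁱ[ℝ] E2) (ψ : E2 → E2) (hψ : ContDiff ℝ 1 ψ) (z : E2) :
    divg (Ph e ψ) z = divg ψ (e.symm z) := by
  have h1 := (hψ.differentiable one_ne_zero (e.symm z)).hasFDerivAt
  have h2 : HasFDerivAt (Ph e ψ)
      (((e.linearIsometryEquiv.toContinuousLinearEquiv : E2 →L[ℝ] E2)).comp
        ((fderiv ℝ ψ (e.symm z)).comp
          (e.linearIsometryEquiv.symm.toContinuousLinearEquiv : E2 →L[ℝ] E2))) z :=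
    (e.linearIsometryEquiv.toContinuousLinearEquiv : E2 →L[ℝ] E2).hasFDerivAt.comp z
      (h1.comp z (e_symm_deriv e z))
  rw [divg_eq, divg_eq, h2.fderiv]
  have h3 := LinearMap.trace_conj' ((fderiv ℝ ψ (e.symm z)).toLinearMap)
    e.linearIsometryEquiv.toLinearEquiv
  rw [← h3]
  rfl

theorem divg_zero (ψ : E2 → E2) (y : E2) (hy : y ∉ tsupport ψ) : divg ψ y = 0 := by
  have h : fderiv ℝ ψ y = 0 := by
    by_contra hne
    exact hy (support_fderiv_subset ℝ (Function.mem_support.mpr hne))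
  unfold divg
  simp [h]

end GG2

/-- The chart version. -/
theorem pGG2 (hGRF : S_GRF) (hINT : S_INT) (hGG1 : S_GG1) : S_GG2 := by
  intro Ω x e r f hΩ hch ψ hψ hc hsupp
  obtain ⟨hr, ⟨K, hK⟩, hbelow⟩ := id hch
  have hfc := hK.continuous
  have hBo : IsOpen (Below f) := by
    have h1 : Continuous (fun z : E2 => z 1) := by fun_prop
    have h2 : Continuous (fun z : E2 => f (z 0)) := hfc.comp (by fun_prop)
    exact isOpen_lt h1 h2
  have hec : Continuous e := e.continuous
  have hemb : MeasurableEmbedding e := e.toHomeomorph.measurableEmbedding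
  -- step 1
  have s1 : ∫ y in Ω, divg ψ y = ∫ y in e ⁻¹' (Below f), divg ψ y := by
    rw [← integral_indicator hΩ.measurableSet, ← integral_indicator (hBo.preimage hec).measurableSet]
    refine integral_congr_ae (Eventually.of_forall fun y => ?_)
    by_cases hy : dist y x < r
    · have h := hbelow y hy
      by_cases hm : y ∈ Ω
      · have h' : y ∈ e ⁻¹' (Below f) := h.1 hm
        simp only [indicator_of_mem hm, indicator_of_mem h']
      · have h' : y ∉ e ⁻¹' (Below f) := fun hh => hm (h.2 hh)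
        simp only [indicator_of_notMem hm, indicator_of_notMem h']
    · have h0 : divg ψ y = 0 := GG2.divg_zero ψ y (fun hh => hy (hsupp hh))
      simp only [indicator, h0, ite_self]
  -- step 2
  have s2 : ∫ y in e ⁻¹' (Below f), divg ψ y = ∫ z in Below f, divg (GG2.Ph e ψ) z := by
    rw [← (GG2.e_mp e).setIntegral_preimage_emb hemb (divg (GG2.Ph e ψ)) (Below f)]
    refine setIntegral_congr_fun (hBo.preimage hec).measurableSet (fun y _ => ?_)
    show divg ψ y = divg (GG2.Ph e ψ) (e y)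
    rw [GG2.divg_Ph e ψ hψ, AffineIsometryEquiv.symm_apply_apply]
  -- step 3
  have s3 := hGG1 f K hK (GG2.Ph e ψ) (GG2.Ph_contDiff e ψ hψ) (GG2.Ph_cs e ψ hc)
  have s4 : ENNReal.ofReal (∫ s, ‖GG2.Ph e ψ (gph f s)‖ * spd f s) ≤
      ∫⁻ s, ‖GG2.Ph e ψ (gph f s)‖ₑ * ENNReal.ofReal (spd f s) := by
    refine (Real.ofReal_le_enorm _).trans ((enorm_integral_le_lintegral_enorm _).trans ?_)
    refine le_of_eq (lintegral_congr fun s => ?_)
    have hs0 : 0 ≤ spd f s := Real.sqrt_nonneg _
    rw [enorm_mul, enorm_norm, Real.enorm_of_nonneg hs0]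
  have s5 := hINT f K hK (fun z => ‖GG2.Ph e ψ z‖ₑ)
    ((GG2.Ph_contDiff e ψ hψ).continuous.enorm.measurable) univ MeasurableSet.univ
  simp only [preimage_univ, Measure.restrict_univ, univ_inter] at s5
  -- step 6
  have hmp : MeasurePreserving e (μH[1] : Measure E2) μH[1] :=
    e.toIsometryEquiv.measurePreserving_hausdorffMeasure 1
  have s6 : ∫⁻ z in range (gph f), ‖GG2.Ph e ψ z‖ₑ ∂μH[1] =
      ∫⁻ y in e ⁻¹' (range (gph f)), ‖ψ y‖ₑ ∂μH[1] := by
    rw [← hmp.setLIntegral_comp_preimage_emb hemb]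
    refine lintegral_congr fun y => ?_
    unfold GG2.Ph
    rw [AffineIsometryEquiv.symm_apply_apply]
    simp only [enorm_eq_nnnorm, LinearIsometryEquiv.nnnorm_map]
  have hrange : range (gph f) = {z : E2 | z 1 = f (z 0)} := by
    ext z
    simp only [mem_range, mem_ofPred_eq]
    constructor
    · rintro ⟨s, rfl⟩
      simp [gph]
    · intro h
      refine ⟨z 0, ?_⟩
      ext i
      fin_cases i
      · simp [gph]
      · simp [gph, h]
  have hRc : IsClosed (range (gph f)) := by
    rw [hrange]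
    have h1 : Continuous (fun z : E2 => z 1) := by fun_prop
    have h2 : Continuous (fun z : E2 => f (z 0)) := hfc.comp (by fun_prop)
    exact isClosed_eq h1 h2
  have s7 : ∫⁻ y in e ⁻¹' (range (gph f)), ‖ψ y‖ₑ ∂μH[1] ≤ ∫⁻ y in frontier Ω, ‖ψ y‖ₑ ∂μH[1] := by
    rw [← lintegral_indicator (hRc.preimage hec).measurableSet,
      ← lintegral_indicator isClosed_frontier.measurableSet]
    refine lintegral_mono fun y => ?_
    by_cases hm : y ∈ e ⁻¹' (range (gph f))
    · by_cases hy : dist y x < r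
      · have h1 : (e y) 1 = f ((e y) 0) := by
          have : e y ∈ range (gph f) := hm
          rw [hrange] at this
          exact this
        have h2 : y ∈ frontier Ω := (hGRF Ω x e r f hΩ hch y hy).2 h1
        rw [indicator_of_mem hm, indicator_of_mem h2]
      · have h0 : ψ y = 0 := by
          by_contra hne
          exact hy (hsupp (subset_tsupport ψ (Function.mem_support.mpr hne)))
        rw [indicator_of_mem hm, h0, enorm_zero]
        exact zero_le
    · rw [indicator_of_notMem hm]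
      exact zero_le
  calc ENNReal.ofReal (∫ y in Ω, divg ψ y)
      = ENNReal.ofReal (∫ z in Below f, divg (GG2.Ph e ψ) z) := by rw [s1, s2]
    _ ≤ ENNReal.ofReal (∫ s, ‖GG2.Ph e ψ (gph f s)‖ * spd f s) := ENNReal.ofReal_le_ofReal s3
    _ ≤ _ := s4
    _ ≤ _ := s5
    _ = _ := s6
    _ ≤ _ := s7

end Pool.Agent.T2H01.QI
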