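import Pool.Agent.T2H01.QI.Stm

set_option autoImplicit false

noncomputable section

open MeasureTheory Metric Set Filter Topology
open scoped NNReal ENNReal Manifold ContDiff

namespace Pool.Agent.T2H01.QI

namespace GG3

lemma term_cont {φ : E2 → E2} (hφ : ContDiff ℝ 1 φ) (i : Fin 2) :
    Continuous (fun x => fderiv ℝ φ x (EuclideanSpace.single i 1) i) := by
  have h : Continuous (fun x => fderiv ℝ φ x (EuclideanSpace.single i (1 : ℝ))) :=
    (hφ.continuous_fderiv one_ne_zero).clm_apply continuous_const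
  exact (EuclideanSpace.proj (𝕜 := ℝ) i).continuous.comp h

lemma divg_cont {φ : E2 → E2} (hφ : ContDiff ℝ 1 φ) : Continuous (divg φ) := by
  unfold divg
  exact continuous_finsetSum _ fun i _ => term_cont hφ i

lemma divg_zero {φ : E2 → E2} {x : E2} (hx : x ∉ tsupport φ) : divg φ x = 0 := by
  have h0 : fderiv ℝ φ x = 0 := by
    by_contra hne
    exact hx (support_fderiv_subset ℝ hne)
  simp [divg, h0]

lemma divg_cs {φ : E2 → E2} (hc : HasCompactSupport φ) : HasCompactSupport (divg φ) :=
  HasCompactSupport.intro hc fun _ hx => divg_zero hx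

lemma divg_sum {ι : Type} (s : Finset ι) (F : ι → E2 → E2)
    (hF : ∀ i ∈ s, Differentiable ℝ (F i)) (x : E2) :
    divg (fun y => ∑ i ∈ s, F i y) x = ∑ i ∈ s, divg (F i) x := by
  unfold divg
  rw [fderiv_fun_sum (fun i hi => (hF i hi x))]
  rw [Finset.sum_comm]
  refine Finset.sum_congr rfl fun j _ => ?_
  simp

lemma divg_congr {φ ψ : E2 → E2} {x : E2} (h : φ =ᶠ[𝓝 x] ψ) : divg φ x = divg ψ x := by
  unfold divg
  rw [h.fderiv_eq]

lemma ofReal_sum_le {ι : Type} (s : Finset ι) (a : ι → ℝ) :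
    ENNReal.ofReal (∑ i ∈ s, a i) ≤ ∑ i ∈ s, ENNReal.ofReal (a i) := by
  classical
  induction s using Finset.induction_on with
  | empty => simp
  | insert i s hi ih =>
    rw [Finset.sum_insert hi, Finset.sum_insert hi]
    exact ENNReal.ofReal_add_le.trans (add_le_add le_rfl ih)

end GG3

open GG3 in
theorem pGG3 (hGG2 : S_GG2) (hIN0 : S_IN0) : S_GG3 := by
  classical
  intro Ω hL φ hφ hc hn
  obtain ⟨ho, hb, hch⟩ := hL
  have hK : IsCompact (frontier Ω) :=
    hb.isCompact_closure.of_isClosed_subset isClosed_frontier frontier_subset_closure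
  choose! e r f hC using hch
  obtain ⟨t, ht, hcov⟩ := hK.elim_nhds_subcover (fun x => ball x (r x))
    (fun x hx => ball_mem_nhds x (hC x hx).1)
  let U : Option t → Set E2 := fun o => Option.elim o Ω (fun x => ball (x : E2) (r x))
  have hUo : ∀ i, IsOpen (U i) := by
    rintro (_ | i)
    · exact ho
    · exact isOpen_ball
  have hcl : closure Ω ⊆ ⋃ i, U i := by
    intro y hy
    by_cases hyΩ : y ∈ Ω
    · exact mem_iUnion.mpr ⟨none, hyΩ⟩
    · have hyf : y ∈ frontier Ω := by
        rw [ho.frontier_eq]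
        exact ⟨hy, hyΩ⟩
      obtain ⟨x, hx, hyx⟩ := mem_iUnion₂.mp (hcov hyf)
      exact mem_iUnion.mpr ⟨some ⟨x, hx⟩, hyx⟩
  obtain ⟨ρ, hρ⟩ := SmoothPartitionOfUnity.exists_isSubordinate (I := 𝓘(ℝ, E2))
    isClosed_closure U hUo hcl
  have hsm : ∀ i, ContDiff ℝ 1 (ρ i : E2 → ℝ) := fun i =>
    ((ρ i).contMDiff.contDiff).of_le (by simp)
  have hsup : ∀ i, tsupport (ρ i : E2 → ℝ) ⊆ U i := hρ
  have hφ1 : ContDiff ℝ 1 φ := hφ.of_le (by simp)
  let F : Option t → E2 → E2 := fun i y => ρ i y • φ y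
  have hFs : ∀ i, ContDiff ℝ 1 (F i) := fun i => (hsm i).smul hφ1
  have hFc : ∀ i, HasCompactSupport (F i) := fun i => hc.mono fun x hx h0 => hx (by
    change ρ i x • φ x = 0
    rw [h0, smul_zero])
  have hFsup : ∀ i, tsupport (F i) ⊆ U i := fun i =>
    (closure_mono (Function.support_smul_subset_left _ _)).trans (hsup i)
  have hsum : ∀ y ∈ Ω, divg φ y = ∑ i, divg (F i) y := by
    intro y hy
    rw [← divg_sum Finset.univ F (fun i _ => (hFs i).differentiable one_ne_zero)]
    apply divg_congr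
    filter_upwards [ho.mem_nhds hy] with z hz
    change φ z = ∑ i, ρ i z • φ z
    rw [← Finset.sum_smul]
    have h1 := ρ.sum_eq_one (subset_closure hz)
    rw [finsum_eq_sum_of_fintype] at h1
    rw [h1, one_smul]
  have hint : ∫ y in Ω, divg φ y = ∑ i, ∫ y in Ω, divg (F i) y := by
    rw [setIntegral_congr_fun ho.measurableSet hsum]
    rw [integral_finsetSum]
    intro i _
    exact ((divg_cont (hFs i)).integrable_of_hasCompactSupport (divg_cs (hFc i))).integrableOn
  rw [hint]
  refine (ofReal_sum_le _ _).trans ?_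
  rw [Fintype.sum_option]
  have h0 : ∫ y in Ω, divg (F none) y = 0 := by
    rw [← hIN0 (F none) (hFs none) (hFc none)]
    refine setIntegral_eq_integral_of_forall_compl_eq_zero fun y hy => ?_
    exact divg_zero fun h => hy (hFsup none h)
  rw [h0, ENNReal.ofReal_zero, zero_add]
  calc ∑ i : t, ENNReal.ofReal (∫ y in Ω, divg (F (some i)) y)
      ≤ ∑ i : t, ∫⁻ y in frontier Ω, ‖F (some i) y‖ₑ ∂μH[1] :=
        Finset.sum_le_sum fun i _ => hGG2 Ω i (e i) (r i) (f i) ho (hC i (ht i i.2)) _
          (hFs _) (hFc _) (hFsup (some i))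
    _ = ∫⁻ y in frontier Ω, ∑ i : t, ‖F (some i) y‖ₑ ∂μH[1] := by
        rw [lintegral_finsetSum]
        intro i _
        exact (hFs (some i)).continuous.enorm.measurable
    _ ≤ ∫⁻ y in frontier Ω, 1 ∂μH[1] := by
        refine lintegral_mono fun y => ?_
        have h1 : ∀ i : t, ‖F (some i) y‖ₑ ≤ ENNReal.ofReal (ρ (some i) y) := by
          intro i
          rw [← ofReal_norm_eq_enorm]
          refine ENNReal.ofReal_le_ofReal ?_
          change ‖ρ (some i) y • φ y‖ ≤ _
          rw [norm_smul, Real.norm_eq_abs, abs_of_nonneg (ρ.nonneg _ _)]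
          exact mul_le_of_le_one_right (ρ.nonneg _ _) (hn y)
        calc ∑ i : t, ‖F (some i) y‖ₑ ≤ ∑ i : t, ENNReal.ofReal (ρ (some i) y) :=
              Finset.sum_le_sum fun i _ => h1 i
          _ = ENNReal.ofReal (∑ i : t, ρ (some i) y) :=
              (ENNReal.ofReal_sum_of_nonneg fun i _ => ρ.nonneg _ _).symm
          _ ≤ 1 := by
              rw [← ENNReal.ofReal_one]
              refine ENNReal.ofReal_le_ofReal ?_
              have h2 := ρ.sum_le_one y
              rw [finsum_eq_sum_of_fintype, Fintype.sum_option] at h2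
              have h3 := ρ.nonneg none y
              linarith
    _ = per Ω := by simp [per]

end Pool.Agent.T2H01.QI
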