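import Pool.Agent.T2H01.QI.Stm2

set_option autoImplicit false

noncomputable section

open MeasureTheory Metric Set Filter Topology
open scoped NNReal ENNReal

namespace Pool.Agent.T2H01.QI

namespace HARM

/-- the plane as complex numbers, as a linear map -/
def zl : E2 →L[ℝ] ℂ :=
  (EuclideanSpace.proj (0 : Fin 2) : E2 →L[ℝ] ℝ).smulRight (1 : ℂ) +
    (EuclideanSpace.proj (1 : Fin 2) : E2 →L[ℝ] ℝ).smulRight Complex.I

theorem zc_eq (x : E2) : zc x = zl x := by
  apply Complex.ext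
  · simp [zc, zl]
  · simp [zc, zl]

theorem norm_zc (x : E2) : ‖zc x‖ = ‖x‖ := by
  rw [EuclideanSpace.norm_eq, Complex.norm_eq_sqrt_sq_add_sq]
  simp [zc]

theorem zc_sub (x a : E2) : zc x - zc a = zc (x - a) := by
  rw [zc_eq, zc_eq, zc_eq, map_sub]

theorem zc_e0 : zc (EuclideanSpace.single (0 : Fin 2) (1 : ℝ)) = 1 := by
  apply Complex.ext <;> simp [zc]

theorem zc_e1 : zc (EuclideanSpace.single (1 : Fin 2) (1 : ℝ)) = Complex.I := by
  apply Complex.ext <;> simp [zc]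

theorem hasF (k : ℕ) (c : ℂ) (a x : E2) :
    HasFDerivAt (fun y => c * (zc y - zc a) ^ k) ((c * (k * (zc x - zc a) ^ (k - 1))) • zl) x := by
  have h0 : HasFDerivAt (fun y => zc y - zc a) zl x := by
    simp only [zc_eq]
    exact zl.hasFDerivAt.sub_const _
  have h1 := (h0.pow k).const_mul c
  have e : (c * (k * (zc x - zc a) ^ (k - 1))) • zl =
      c • (k • (zc x - zc a) ^ (k - 1)) • zl := by
    rw [smul_smul, nsmul_eq_mul]
  rw [e]
  exact h1

theorem hasR (k : ℕ) (c : ℂ) (a x : E2) :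
    HasFDerivAt (fun y => (c * (zc y - zc a) ^ k).re)
      (Complex.reCLM.comp ((c * (k * (zc x - zc a) ^ (k - 1))) • zl)) x :=
  Complex.reCLM.hasFDerivAt.comp x (hasF k c a x)

theorem contD (k : ℕ) (c : ℂ) (a : E2) :
    ContDiff ℝ (⊤ : ℕ∞) (fun y => (c * (zc y - zc a) ^ k).re) := by
  have h1 : ContDiff ℝ (⊤ : ℕ∞) (fun y : E2 => c * (zl y - zl a) ^ k) :=
    contDiff_const.mul ((zl.contDiff.sub contDiff_const).pow k)
  have h2 : ContDiff ℝ (⊤ : ℕ∞) (fun z : ℂ => Complex.reCLM z) := Complex.reCLM.contDiff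
  simp only [zc_eq]
  exact h2.comp h1

theorem contG (k : ℕ) (c : ℂ) (a : E2) : ContDiff ℝ (⊤ : ℕ∞) (gp k c a) := by
  refine contDiff_euclidean.2 fun i => ?_
  fin_cases i
  · exact contD (k - 1) (c * k) a
  · exact contD (k - 1) (Complex.I * c * k) a

theorem fderiv_comp (k : ℕ) (c : ℂ) (a x v : E2) (i : Fin 2) :
    fderiv ℝ (gp k c a) x v i = fderiv ℝ (fun y => gp k c a y i) x v := by
  have hd : DifferentiableAt ℝ (gp k c a) x :=
    (contG k c a).differentiable (by simp) x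
  have h1 := ((EuclideanSpace.proj i : E2 →L[ℝ] ℝ).hasFDerivAt.comp x hd.hasFDerivAt).fderiv
  have h2 : fderiv ℝ (fun y => gp k c a y i) x =
      (EuclideanSpace.proj i : E2 →L[ℝ] ℝ).comp (fderiv ℝ (gp k c a) x) := h1
  rw [h2]
  rfl

end HARM

theorem pHARM : S_HARM := by
  intro k c a hc
  refine ⟨HARM.contD k c a, HARM.contG k c a, fun x => ?_, fun x v => ?_, fun x => ?_, fun x => ?_⟩
  · unfold divg
    rw [Fin.sum_univ_two, HARM.fderiv_comp, HARM.fderiv_comp]
    have h0 : fderiv ℝ (fun y => gp k c a y 0) x = _ := (HARM.hasR (k - 1) (c * k) a x).fderiv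
    have h1 : fderiv ℝ (fun y => gp k c a y 1) x = _ :=
      (HARM.hasR (k - 1) (Complex.I * c * k) a x).fderiv
    rw [h0, h1]
    have e0 : HARM.zl (EuclideanSpace.single (0 : Fin 2) (1 : ℝ)) = 1 := by
      rw [← HARM.zc_eq]
      exact HARM.zc_e0
    have e1 : HARM.zl (EuclideanSpace.single (1 : Fin 2) (1 : ℝ)) = Complex.I := by
      rw [← HARM.zc_eq]
      exact HARM.zc_e1
    simp only [ContinuousLinearMap.comp_apply, smul_apply, e0, e1,
      Complex.reCLM_apply, smul_eq_mul]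
    rw [← Complex.add_re]
    have h2 : ∀ w : ℂ, c * k * w * 1 + Complex.I * c * k * w * Complex.I = 0 := by
      intro w
      linear_combination c * k * w * Complex.I_mul_I
    rw [h2]
    rfl
  · have h0 : fderiv ℝ (hp k c a) x = _ := (HARM.hasR k c a x).fderiv
    rw [h0]
    simp only [ContinuousLinearMap.comp_apply, smul_apply,
      Complex.reCLM_apply, smul_eq_mul, ← HARM.zc_eq]
    rw [PiLp.inner_apply, Fin.sum_univ_two]
    obtain ⟨w, hw⟩ : ∃ w : ℂ, w = c * k * (zc x - zc a) ^ (k - 1) := ⟨_, rfl⟩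
    have e0 : gp k c a x 0 = w.re := by rw [hw]; rfl
    have e1 : gp k c a x 1 = (Complex.I * w).re := by
      rw [hw, ← mul_assoc, ← mul_assoc]
      rfl
    have e2 : c * (k * (zc x - zc a) ^ (k - 1)) * zc v = w * zc v := by rw [hw]; ring
    rw [e0, e1, e2]
    simp [zc]
    ring
  · show |(c * (zc x - zc a) ^ k).re| ≤ _
    refine (Complex.abs_re_le_norm _).trans ?_
    rw [norm_mul, norm_pow, HARM.zc_sub, HARM.norm_zc]
    calc ‖c‖ * ‖x - a‖ ^ k ≤ 1 * ‖x - a‖ ^ k :=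
          mul_le_mul_of_nonneg_right hc (by positivity)
      _ = _ := one_mul _
  · obtain ⟨w, hw⟩ : ∃ w : ℂ, w = c * k * (zc x - zc a) ^ (k - 1) := ⟨_, rfl⟩
    have e0 : gp k c a x 0 = w.re := by rw [hw]; rfl
    have e1 : gp k c a x 1 = (Complex.I * w).re := by
      rw [hw, ← mul_assoc, ← mul_assoc]
      rfl
    have h1 : ‖gp k c a x‖ = ‖w‖ := by
      rw [EuclideanSpace.norm_eq, Complex.norm_eq_sqrt_sq_add_sq, Fin.sum_univ_two, e0, e1]
      simp
    rw [h1, hw, norm_mul, norm_mul, norm_pow, HARM.zc_sub, HARM.norm_zc, Complex.norm_natCast]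
    calc ‖c‖ * k * ‖x - a‖ ^ (k - 1) ≤ 1 * k * ‖x - a‖ ^ (k - 1) := by gcongr
      _ = _ := by rw [one_mul]

end Pool.Agent.T2H01.QI
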