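import Pool.Agent.T2H01.QI.Stm2

set_option autoImplicit false

noncomputable section

open MeasureTheory Metric Set Filter Topology
open scoped NNReal ENNReal

namespace Pool.Agent.T2H01.QI

namespace HCT

theorem dir_continuous : Continuous dir := by
  unfold dir
  refine (PiLp.continuous_toLp 2 _).comp ?_
  refine continuous_pi fun i => ?_
  fin_cases i
  · exact Real.continuous_cos
  · exact Real.continuous_sin

theorem bdd {Ω : Set E2} {R : ℝ} (hR : ∀ x ∈ Ω, ‖x‖ ≤ R) (n : E2) :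
    BddAbove ((fun x : E2 => inner ℝ x n) '' Ω) := by
  refine ⟨R * ‖n‖, ?_⟩
  rintro _ ⟨x, hx, rfl⟩
  exact (real_inner_le_norm x n).trans
    (mul_le_mul_of_nonneg_right (hR x hx) (norm_nonneg _))

theorem hs_le {Ω : Set E2} {R : ℝ} (hR : ∀ x ∈ Ω, ‖x‖ ≤ R) (hne : Ω.Nonempty) (n n' : E2) :
    hs Ω n ≤ hs Ω n' + R * ‖n - n'‖ := by
  unfold hs
  refine csSup_le (hne.image _) ?_
  rintro _ ⟨x, hx, rfl⟩
  have h1 : inner ℝ x n' ≤ sSup ((fun x : E2 => inner ℝ x n') '' Ω) :=
    le_csSup (bdd hR n') ⟨x, hx, rfl⟩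
  have h2 : inner ℝ x (n - n') ≤ R * ‖n - n'‖ :=
    (real_inner_le_norm x (n - n')).trans (mul_le_mul_of_nonneg_right (hR x hx) (norm_nonneg _))
  rw [inner_sub_right] at h2
  show inner ℝ x n ≤ _
  linarith

theorem hs_continuous {Ω : Set E2} (hb : Bornology.IsBounded Ω) (hne : Ω.Nonempty) :
    Continuous (hs Ω) := by
  obtain ⟨R, hR⟩ := hb.exists_norm_le
  have hR0 : 0 ≤ R := by
    obtain ⟨x, hx⟩ := hne
    exact (norm_nonneg x).trans (hR x hx)
  have hl : LipschitzWith (Real.toNNReal R) (hs Ω) := by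
    refine LipschitzWith.of_dist_le_mul fun n n' => ?_
    rw [Real.coe_toNNReal R hR0, Real.dist_eq, dist_eq_norm, abs_le]
    have h1 := hs_le hR hne n n'
    have h2 := hs_le hR hne n' n
    rw [norm_sub_rev n' n] at h2
    constructor <;> linarith
  exact hl.continuous

end HCT

theorem pHCT : S_HCT := by
  intro Ω hb hne
  refine ⟨(HCT.hs_continuous hb hne).comp HCT.dir_continuous, fun θ => ?_⟩
  have h : dir (θ + 2 * Real.pi) = dir θ := by
    unfold dir
    rw [Real.cos_add_two_pi, Real.sin_add_two_pi]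
  rw [h]

end Pool.Agent.T2H01.QI
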