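import Pool.Agent.T2H01.QI.Stm

set_option autoImplicit false

noncomputable section

open MeasureTheory Metric Set Filter Topology
open scoped NNReal ENNReal

namespace Pool.Agent.T2H01.QI

namespace HOR

/-- The shear coordinates. -/
def T (f : ℝ → ℝ) (hf : Continuous f) : (ℝ × ℝ) ≃ₜ E2 where
  toFun p := !₂[p.1, p.2 + f p.1]
  invFun x := (x 0, x 1 - f (x 0))
  left_inv p := by
    ext <;> simp
  right_inv x := by
    ext i
    fin_cases i <;> simp
  continuous_toFun := by
    refine (PiLp.continuous_toLp 2 _).comp ?_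
    refine continuous_pi ?_
    intro i
    fin_cases i
    · exact continuous_fst
    · exact (continuous_snd.add (hf.comp continuous_fst))
  continuous_invFun := by
    fun_prop

theorem T_mp (f : ℝ → ℝ) (hf : Continuous f) :
    MeasurePreserving (T f hf) ((volume : Measure ℝ).prod volume) (volume : Measure E2) := by
  have h1 : MeasurePreserving (fun p : ℝ × ℝ => (p.1, p.2 + f p.1))
      ((volume : Measure ℝ).prod volume) ((volume : Measure ℝ).prod volume) := by
    refine MeasurePreserving.skew_product (f := id) (g := fun s t => t + f s)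
      (MeasurePreserving.id _) ?_ ?_
    · exact (measurable_snd.add (hf.measurable.comp measurable_fst))
    · exact Eventually.of_forall (fun s => map_add_right_eq_self _ _)
  have e : (fun p : ℝ × ℝ => (!₂[p.1, p.2] : E2)) =
      (WithLp.toLp 2) ∘ (MeasurableEquiv.finTwoArrow (α := ℝ)).symm := by
    funext p
    ext i
    fin_cases i <;> rfl
  have h2 : MeasurePreserving (fun p : ℝ × ℝ => (!₂[p.1, p.2] : E2)) volume volume := by
    rw [e]
    exact (PiLp.volume_preserving_toLp (Fin 2)).comp (volume_preserving_finTwoArrow ℝ).symm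
  exact h2.comp h1

/-- The integral over the set below the graph, in the shear coordinates. -/
theorem fub (f : ℝ → ℝ) (hf : Continuous f) (F : E2 → ℝ) :
    ∫ x in Below f, F x =
      ∫ p, F (T f hf p) ∂((volume : Measure ℝ).prod (volume.restrict (Iio (0 : ℝ)))) := by
  have h := (T_mp f hf).setIntegral_preimage_emb (T f hf).measurableEmbedding F (Below f)
  have e : (T f hf) ⁻¹' (Below f) = univ ×ˢ Iio (0 : ℝ) := by
    ext p
    simp [T, Below]
  rw [← h, e, ← Measure.prod_restrict, Measure.restrict_univ]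

theorem e_eq (s t : ℝ) : (!₂[s, t] : E2) =
    s • EuclideanSpace.single 0 (1 : ℝ) + t • EuclideanSpace.single 1 (1 : ℝ) := by
  ext i
  fin_cases i <;> simp

theorem emb (t : ℝ) : Topology.IsClosedEmbedding (fun s : ℝ => (s, t)) := by
  refine (Topology.IsClosedEmbedding.of_continuous_injective_isClosedMap ?_ ?_ ?_)
  · fun_prop
  · intro a b hab
    simpa using hab
  · intro C hC
    have : (fun s : ℝ => (s, t)) '' C = C ×ˢ {t} := by
      ext p
      simp only [mem_image, mem_prod, mem_singleton_iff]
      constructor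
      · rintro ⟨s, hs, rfl⟩
        exact ⟨hs, rfl⟩
      · rintro ⟨h1, h2⟩
        exact ⟨p.1, h1, by rw [← h2]⟩
    rw [this]
    exact hC.prod isClosed_singleton

theorem emb' (s : ℝ) : Topology.IsClosedEmbedding (fun t : ℝ => (s, t)) := by
  have h := (Homeomorph.prodComm ℝ ℝ).isClosedEmbedding.comp (emb s)
  exact h

/-- The vertical fundamental theorem. -/
theorem vert (f : ℝ → ℝ) (hf : Continuous f) (ψ : E2 → ℝ) (hψ : ContDiff ℝ 1 ψ)
    (hc : HasCompactSupport ψ) (s : ℝ) :
    ∫ t in Iio (0 : ℝ), fderiv ℝ ψ (T f hf (s, t)) (EuclideanSpace.single 1 1) =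
      ψ (gph f s) := by
  set g : ℝ → ℝ := fun t => ψ (T f hf (s, t)) with hg
  have e : (fun t => (T f hf (s, t) : E2)) = fun t =>
      s • EuclideanSpace.single 0 (1 : ℝ) + (t + f s) • EuclideanSpace.single 1 (1 : ℝ) := by
    funext t
    exact e_eq _ _
  have hT : ContDiff ℝ 1 (fun t => (T f hf (s, t) : E2)) := by
    rw [e]
    fun_prop
  have hgc : ContDiff ℝ 1 g := hψ.comp hT
  have hcs : HasCompactSupport g := by
    have h1 : HasCompactSupport (ψ ∘ (T f hf)) := hc.comp_homeomorph _
    exact h1.comp_isClosedEmbedding (emb' s)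
  have key := HasCompactSupport.integral_Iic_deriv_eq hgc hcs 0
  have hd : ∀ t, deriv g t = fderiv ℝ ψ (T f hf (s, t)) (EuclideanSpace.single 1 1) := by
    intro t
    have h1 : HasDerivAt (fun t => (T f hf (s, t) : E2))
        (EuclideanSpace.single 1 (1 : ℝ)) t := by
      rw [e]
      have a2 : HasDerivAt (fun t : ℝ => (t + f s) • (EuclideanSpace.single 1 (1 : ℝ) : E2))
          ((1 : ℝ) • (EuclideanSpace.single 1 (1 : ℝ) : E2)) t :=
        ((hasDerivAt_id t).add_const _).smul_const _
      rw [one_smul] at a2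
      exact a2.const_add _
    have h2 := (hψ.differentiable one_ne_zero (T f hf (s, t))).hasFDerivAt
    exact (h2.comp_hasDerivAt t h1).deriv
  simp only [hd] at key
  rw [integral_Iic_eq_integral_Iio] at key
  rw [key, hg]
  simp [T, gph]

/-- On a horizontal line of the shear coordinates. -/
theorem line (f : ℝ → ℝ) (K : ℝ≥0) (hf : LipschitzWith K f) (ψ : E2 → ℝ) (hψ : ContDiff ℝ 1 ψ)
    (hc : HasCompactSupport ψ) (t : ℝ) :
    ∫ s, (fderiv ℝ ψ (T f hf.continuous (s, t)) (EuclideanSpace.single 0 1) +
      deriv f s * fderiv ℝ ψ (T f hf.continuous (s, t)) (EuclideanSpace.single 1 1)) = 0 := by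
  set h : ℝ → ℝ := fun s => ψ (T f hf.continuous (s, t)) with hh
  -- the derivative
  have hder : ∀ s, DifferentiableAt ℝ f s → HasDerivAt h
      (fderiv ℝ ψ (T f hf.continuous (s, t)) (EuclideanSpace.single 0 1) +
        deriv f s * fderiv ℝ ψ (T f hf.continuous (s, t)) (EuclideanSpace.single 1 1)) s := by
    intro s hs
    have h1 : HasDerivAt (fun s => (T f hf.continuous (s, t) : E2))
        (EuclideanSpace.single 0 (1 : ℝ) + deriv f s • EuclideanSpace.single 1 (1 : ℝ)) s := by
      have e : (fun s => (T f hf.continuous (s, t) : E2)) = fun s =>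
          s • EuclideanSpace.single 0 (1 : ℝ) + (t + f s) • EuclideanSpace.single 1 (1 : ℝ) := by
        funext s
        exact e_eq _ _
      rw [e]
      have a1 : HasDerivAt (fun s : ℝ => s • (EuclideanSpace.single 0 (1 : ℝ) : E2))
          ((1 : ℝ) • (EuclideanSpace.single 0 (1 : ℝ) : E2)) s :=
        (hasDerivAt_id s).smul_const _
      have a2 : HasDerivAt (fun s : ℝ => (t + f s) • (EuclideanSpace.single 1 (1 : ℝ) : E2))
          (deriv f s • (EuclideanSpace.single 1 (1 : ℝ) : E2)) s :=
        ((hs.hasDerivAt).const_add t).smul_const _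
      rw [one_smul] at a1
      exact a1.add a2
    have h2 := (hψ.differentiable one_ne_zero (T f hf.continuous (s, t))).hasFDerivAt
    have h3 := h2.comp_hasDerivAt s h1
    rw [map_add, map_smul, smul_eq_mul] at h3
    exact h3
  -- Lipschitz
  obtain ⟨D, hD⟩ : ∃ D, LipschitzWith D ψ :=
    ContDiff.lipschitzWith_of_hasCompactSupport hc hψ one_ne_zero
  have hT : LipschitzWith (1 + K) (fun s => (T f hf.continuous (s, t) : E2)) := by
    refine LipschitzWith.of_dist_le_mul (fun s s' => ?_)
    have e : (T f hf.continuous (s, t) : E2) - T f hf.continuous (s', t) =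
        (s - s') • EuclideanSpace.single 0 (1 : ℝ) +
          (f s - f s') • EuclideanSpace.single 1 (1 : ℝ) := by
      have e1 : (T f hf.continuous (s, t) : E2) = _ := e_eq s (t + f s)
      have e2 : (T f hf.continuous (s', t) : E2) = _ := e_eq s' (t + f s')
      rw [e1, e2]
      module
    rw [dist_eq_norm, e]
    refine (norm_add_le _ _).trans ?_
    rw [norm_smul, norm_smul, PiLp.norm_single, PiLp.norm_single, norm_one,
      mul_one, mul_one]
    have h1 := hf.dist_le_mul s s'
    rw [Real.dist_eq] at h1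
    rw [Real.dist_eq, Real.norm_eq_abs, Real.norm_eq_abs, NNReal.coe_add, NNReal.coe_one, add_mul,
      one_mul]
    rw [Real.dist_eq] at h1
    linarith
  have hL : LipschitzWith (D * (1 + K)) h := hD.comp hT
  -- compact support
  have hcs : HasCompactSupport h := by
    have h1 : HasCompactSupport (ψ ∘ (T f hf.continuous)) := hc.comp_homeomorph _
    exact h1.comp_isClosedEmbedding (emb t)
  have key := LipschitzWith.integral_lineDeriv_mul_eq (μ := (volume : Measure ℝ))
    (LipschitzWith.const (1 : ℝ) : LipschitzWith 0 (fun _ : ℝ => (1 : ℝ))) hL hcs (-1)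
  have e1 : ∀ x : ℝ, lineDeriv ℝ (fun _ : ℝ => (1 : ℝ)) x (-1) = 0 := by
    intro x
    simp [lineDeriv]
  simp only [e1, zero_mul, integral_zero, neg_neg, mul_one] at key
  rw [key]
  refine integral_congr_ae ?_
  filter_upwards [hf.ae_differentiableAt_real] with s hs
  have := (hder s hs).hasFDerivAt.hasLineDerivAt (1 : ℝ)
  rw [this.lineDeriv]
  simp

theorem slice (G : ℝ × ℝ → ℝ) (h1 : Continuous G) (h2 : HasCompactSupport G) (t : ℝ) :
    Integrable (fun s => G (s, t)) := by
  have h3 : Continuous (fun s => G (s, t)) := h1.comp (emb t).continuous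
  have h4 : HasCompactSupport (fun s => G (s, t)) := h2.comp_isClosedEmbedding (emb t)
  exact h3.integrable_of_hasCompactSupport h4

/-- The abstract form of the argument. -/
theorem main (A B : ℝ × ℝ → ℝ) (hA : Continuous A) (hcA : HasCompactSupport A)
    (hB : Continuous B) (hcB : HasCompactSupport B) (f' : ℝ → ℝ) (hf' : Measurable f') (K : ℝ)
    (hK : ∀ s, ‖f' s‖ ≤ K) (w : ℝ → ℝ) (hline : ∀ t, ∫ s, (A (s, t) + f' s * B (s, t)) = 0)
    (hvert : ∀ s, ∫ t in Iio (0 : ℝ), B (s, t) = w s) :
    ∫ p, A p ∂((volume : Measure ℝ).prod (volume.restrict (Iio (0 : ℝ)))) =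
      -∫ s, f' s * w s := by
  set μ : Measure (ℝ × ℝ) := (volume : Measure ℝ).prod (volume.restrict (Iio (0 : ℝ))) with hμ
  have hle : μ ≤ (volume : Measure ℝ).prod volume := by
    have : μ = ((volume : Measure ℝ).prod volume).restrict (univ ×ˢ Iio (0 : ℝ)) := by
      rw [← Measure.prod_restrict, Measure.restrict_univ]
    rw [this]
    exact Measure.restrict_le_self
  have iA0 : Integrable A ((volume : Measure ℝ).prod volume) :=
    hA.integrable_of_hasCompactSupport hcA
  have iB0 : Integrable B ((volume : Measure ℝ).prod volume) :=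
    hB.integrable_of_hasCompactSupport hcB
  have iC0 : Integrable (fun p : ℝ × ℝ => f' p.1 * B p)
      ((volume : Measure ℝ).prod volume) := by
    have hm : AEStronglyMeasurable (fun p : ℝ × ℝ => f' p.1)
        ((volume : Measure ℝ).prod volume) :=
      (hf'.comp measurable_fst).aestronglyMeasurable
    refine (iB0.bdd_mul (c := K) hm ?_)
    exact Eventually.of_forall (fun p => hK p.1)
  have iA : Integrable A μ := iA0.mono_measure hle
  have iC : Integrable (fun p : ℝ × ℝ => f' p.1 * B p) μ := iC0.mono_measure hle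
  have s1 : ∫ p, A p ∂μ = ∫ t in Iio (0 : ℝ), ∫ s, A (s, t) := integral_prod_symm _ iA
  have s2' : ∀ t : ℝ, Integrable (fun s => f' s * B (s, t)) := by
    intro t
    refine ((slice B hB hcB t).bdd_mul (c := K) hf'.aestronglyMeasurable ?_)
    exact Eventually.of_forall hK
  have s3 : ∀ t : ℝ, ∫ s, A (s, t) = -∫ s, f' s * B (s, t) := by
    intro t
    have h := hline t
    rw [integral_add (slice A hA hcA t) (s2' t)] at h
    linarith
  rw [s1]
  simp only [s3]
  rw [integral_neg]
  congr 1
  have h4 : ∫ p, f' p.1 * B p ∂μ = ∫ t in Iio (0 : ℝ), ∫ s, f' s * B (s, t) :=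
    integral_prod_symm _ iC
  have h5 : ∫ p, f' p.1 * B p ∂μ = ∫ s, ∫ t in Iio (0 : ℝ), f' s * B (s, t) :=
    integral_prod _ iC
  rw [← h4, h5]
  refine integral_congr_ae (Eventually.of_forall fun s => ?_)
  show ∫ t in Iio (0 : ℝ), f' s * B (s, t) = f' s * w s
  rw [integral_const_mul, hvert s]

end HOR

/-- The divergence theorem below a Lipschitz graph, horizontal part. -/
theorem pHOR : S_HOR := by
  intro f K hf ψ hψ hc
  have hcont := hf.continuous
  have hA : Continuous (fun x => fderiv ℝ ψ x (EuclideanSpace.single 0 1)) :=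
    (hψ.continuous_fderiv one_ne_zero).clm_apply continuous_const
  have hB : Continuous (fun x => fderiv ℝ ψ x (EuclideanSpace.single 1 1)) :=
    (hψ.continuous_fderiv one_ne_zero).clm_apply continuous_const
  have hcA : HasCompactSupport (fun x => fderiv ℝ ψ x (EuclideanSpace.single 0 1)) :=
    hc.fderiv_apply ℝ _
  have hcB : HasCompactSupport (fun x => fderiv ℝ ψ x (EuclideanSpace.single 1 1)) :=
    hc.fderiv_apply ℝ _
  rw [HOR.fub f hcont]
  exact HOR.main _ _ (hA.comp (HOR.T f hcont).continuous) (hcA.comp_homeomorph (HOR.T f hcont))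
    (hB.comp (HOR.T f hcont).continuous) (hcB.comp_homeomorph (HOR.T f hcont)) (deriv f)
    (measurable_deriv f) K (fun s => norm_deriv_le_of_lipschitz hf) _
    (fun t => HOR.line f K hf ψ hψ hc t) (fun s => HOR.vert f hcont ψ hψ hc s)

end Pool.Agent.T2H01.QI
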