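import Pool.Agent.T2H01.QI.Stm

set_option autoImplicit false

noncomputable section

open MeasureTheory Metric Set Filter Topology
open scoped NNReal ENNReal

namespace Pool.Agent.T2H01.QI

namespace IN0

lemma comp_fderiv {ψ : E2 → E2} (h : Differentiable ℝ ψ) (i : Fin 2) (x v : E2) :
    fderiv ℝ ψ x v i = fderiv ℝ (fun y => ψ y i) x v := by
  have h1 : HasFDerivAt (fun y => ψ y i)
      ((EuclideanSpace.proj i : E2 →L[ℝ] ℝ).comp (fderiv ℝ ψ x)) x :=
    (EuclideanSpace.proj i : E2 →L[ℝ] ℝ).hasFDerivAt.comp x (h x).hasFDerivAt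
  rw [h1.fderiv]
  rfl

lemma int_zero {g : E2 → ℝ} (hg : ContDiff ℝ 1 g) (hc : HasCompactSupport g) (v : E2) :
    Integrable (fun x => fderiv ℝ g x v) ∧ ∫ x, fderiv ℝ g x v = 0 := by
  have hcont : Continuous fun x => fderiv ℝ g x v :=
    (hg.continuous_fderiv (by norm_num)).clm_apply continuous_const
  have hcs : HasCompactSupport fun x => fderiv ℝ g x v := hc.fderiv_apply ℝ v
  have hi : Integrable (fun x => fderiv ℝ g x v) := hcont.integrable_of_hasCompactSupport hcs
  refine ⟨hi, ?_⟩
  have hgi : Integrable g := hg.continuous.integrable_of_hasCompactSupport hc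
  have key := integral_mul_fderiv_eq_neg_fderiv_mul_of_integrable (μ := (volume : Measure E2))
    (f := fun _ : E2 => (1 : ℝ)) (g := g) (v := v) (by simp) (by simpa using hi) (by simpa using hgi)
    (fun x _ => differentiableAt_const _) (fun x _ => (hg.differentiable (by norm_num)) x)
  simpa using key

end IN0

open IN0 in
theorem pIN0 : S_IN0 := by
  intro ψ hψ hc
  have hd : Differentiable ℝ ψ := hψ.differentiable (by norm_num)
  have hsm : ∀ i : Fin 2, ContDiff ℝ 1 fun y => ψ y i := fun i =>
    (EuclideanSpace.proj i : E2 →L[ℝ] ℝ).contDiff.comp hψ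
  have hcs : ∀ i : Fin 2, HasCompactSupport fun y => ψ y i := fun i =>
    hc.comp_left (g := fun v : E2 => v i) rfl
  unfold divg
  have e : ∀ x, ∑ i : Fin 2, fderiv ℝ ψ x (EuclideanSpace.single i 1) i =
      ∑ i : Fin 2, fderiv ℝ (fun y => ψ y i) x (EuclideanSpace.single i 1) := fun x =>
    Finset.sum_congr rfl fun i _ => comp_fderiv hd i x _
  simp only [e]
  rw [integral_finset_sum _ fun i _ => (int_zero (hsm i) (hcs i) _).1]
  exact Finset.sum_eq_zero fun i _ => (int_zero (hsm i) (hcs i) _).2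

end Pool.Agent.T2H01.QI
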