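import Pool.Agent.T2H01.QI.Stm

/-!
# Package INT of the project QI
-/

set_option autoImplicit false

noncomputable section

open MeasureTheory Metric Set Filter Topology
open scoped NNReal ENNReal

namespace Pool.Agent.T2H01.QI

namespace INT

theorem cont_gph {f : ℝ → ℝ} (hf : Continuous f) : Continuous (gph f) := by
  unfold gph
  refine (PiLp.continuous_toLp 2 _).comp (continuous_pi ?_)
  intro i
  fin_cases i
  · exact continuous_id
  · exact hf

theorem meas_spd (f : ℝ → ℝ) : Measurable fun s => ENNReal.ofReal (spd f s) := by
  unfold spd
  have h := measurable_deriv f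
  fun_prop

end INT

open INT in
theorem pINT (hLEN : S_LEN) : S_INT := by
  intro f K hf g hg A hA
  have hcont := cont_gph hf.continuous
  have hm : Measurable (gph f) := hcont.measurable
  have hd := meas_spd f
  set ν : Measure E2 := (volume.withDensity fun s => ENNReal.ofReal (spd f s)).map (gph f) with hν
  have hle : ν ≤ (μH[1] : Measure E2).restrict (range (gph f)) := by
    rw [Measure.le_iff]
    intro E hE
    rw [hν, Measure.map_apply hm hE, withDensity_apply _ (hm hE), Measure.restrict_apply hE]
    refine (hLEN f K hf _ (hm hE)).trans ?_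
    rw [image_preimage_eq_inter_range]
  have h1 : ∫⁻ y in A, g y ∂ν ≤ ∫⁻ y in A, g y ∂((μH[1] : Measure E2).restrict (range (gph f))) :=
    lintegral_mono' (Measure.restrict_mono le_rfl hle) le_rfl
  rw [Measure.restrict_restrict hA] at h1
  refine le_trans (le_of_eq ?_) h1
  have h2 := setLIntegral_withDensity_eq_setLIntegral_mul volume hd (hg.comp hm) (hm hA)
  simp only [Function.comp_apply] at h2
  rw [hν, setLIntegral_map hA hg hm, h2]
  apply lintegral_congr
  intro s
  simp only [Pi.mul_apply, Function.comp_apply]
  exact mul_comm _ _

end Pool.Agent.T2H01.QI
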