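import Pool.Agent.T2H01.QI.Stm2

/-!
# Package KEY
-/

set_option autoImplicit false

noncomputable section

open MeasureTheory Metric Set Filter Topology
open scoped NNReal ENNReal

namespace Pool.Agent.T2H01.QI

namespace KEY

theorem front_le {Ω : Set E2} {a : E2} {ϱ : ℝ} (h : Ω ⊆ closedBall a ϱ) {x : E2}
    (hx : x ∈ frontier Ω) : ‖x - a‖ ≤ ϱ := by
  have h1 : x ∈ closedBall a ϱ := by
    have h2 := closure_mono h (frontier_subset_closure hx)
    rwa [isClosed_closedBall.closure_eq] at h2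
  rwa [mem_closedBall, dist_eq_norm] at h1

theorem finH {Ω : Set E2} (hper : per Ω < ⊤) :
    IsFiniteMeasure ((μH[1] : Measure E2).restrict (frontier Ω)) := ⟨by
  rw [Measure.restrict_apply_univ]
  exact hper⟩

/-- smooth functions are in `H¹` -/
theorem h1_smooth {Ω : Set E2} (hm : MeasurableSet Ω) (hb : Bornology.IsBounded Ω) {φ : E2 → ℝ}
    {Φ : E2 → E2}
    (hφ : ContDiff ℝ (⊤ : ℕ∞) φ) (hΦ : ContDiff ℝ (⊤ : ℕ∞) Φ)
    (hd : ∀ x v, fderiv ℝ φ x v = inner ℝ (Φ x) v) : IsH1 Ω φ Φ := by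
  have hfin : IsFiniteMeasure (volume.restrict Ω) := ⟨by
    rw [Measure.restrict_apply_univ]
    exact hb.measure_lt_top⟩
  have hcomp : IsCompact (closure Ω) := hb.isCompact_closure
  obtain ⟨C, hC⟩ := hcomp.exists_bound_of_continuousOn hφ.continuous.continuousOn
  obtain ⟨C', hC'⟩ := hcomp.exists_bound_of_continuousOn hΦ.continuous.continuousOn
  have hae : ∀ᵐ x ∂volume.restrict Ω, x ∈ Ω := ae_restrict_mem hm
  refine ⟨MemLp.of_bound hφ.continuous.aestronglyMeasurable C (by
      filter_upwards [hae] with x hx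
      exact hC x (subset_closure hx)),
    MemLp.of_bound hΦ.continuous.aestronglyMeasurable C' (by
      filter_upwards [hae] with x hx
      exact hC' x (subset_closure hx)), ?_⟩
  intro ψ hψ hc hs i
  have h0 : ∀ x, x ∉ Ω → fderiv ℝ ψ x (EuclideanSpace.single i 1) = 0 := by
    intro x hx
    have : x ∉ tsupport (fderiv ℝ ψ) := fun h => hx (hs (tsupport_fderiv_subset ℝ h))
    rw [image_eq_zero_of_notMem_tsupport this]
    simp
  have h0' : ∀ x, x ∉ Ω → ψ x = 0 := fun x hx =>
    image_eq_zero_of_notMem_tsupport fun h => hx (hs h)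
  have h1 : ∫ x in Ω, φ x * fderiv ℝ ψ x (EuclideanSpace.single i 1) =
      ∫ x, φ x * fderiv ℝ ψ x (EuclideanSpace.single i 1) := by
    apply setIntegral_eq_integral_of_forall_compl_eq_zero
    intro x hx
    rw [h0 x hx, mul_zero]
  have h1' : ∫ x in Ω, Φ x i * ψ x = ∫ x, Φ x i * ψ x := by
    apply setIntegral_eq_integral_of_forall_compl_eq_zero
    intro x hx
    rw [h0' x hx, mul_zero]
  have hcf : HasCompactSupport (fun x => fderiv ℝ ψ x (EuclideanSpace.single i 1)) := by
    have := hc.fderiv (𝕜 := ℝ)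
    exact this.comp_left (g := fun L : E2 →L[ℝ] ℝ => L (EuclideanSpace.single i 1)) (by simp)
  have hcont : Continuous (fun x => fderiv ℝ ψ x (EuclideanSpace.single i 1)) :=
    (hψ.continuous_fderiv (by simp)).clm_apply continuous_const
  have hcontφ : Continuous (fun x => fderiv ℝ φ x (EuclideanSpace.single i 1)) :=
    (hφ.continuous_fderiv (by simp)).clm_apply continuous_const
  have hint1 : Integrable (fun x => φ x * fderiv ℝ ψ x (EuclideanSpace.single i (1 : ℝ))) volume :=
    (hφ.continuous.mul hcont).integrable_of_hasCompactSupport hcf.mul_left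
  have hint2 : Integrable (fun x => fderiv ℝ φ x (EuclideanSpace.single i (1 : ℝ)) * ψ x) volume :=
    (hcontφ.mul hψ.continuous).integrable_of_hasCompactSupport hc.mul_left
  have hint3 : Integrable (fun x => φ x * ψ x) volume :=
    (hφ.continuous.mul hψ.continuous).integrable_of_hasCompactSupport hc.mul_left
  have h3 := integral_mul_fderiv_eq_neg_fderiv_mul_of_integrable (μ := (volume : Measure E2))
      (f := φ) (g := ψ) (v := EuclideanSpace.single i (1 : ℝ)) hint2 hint1 hint3
      (fun x _ => (hφ.differentiable (by simp)) x) (fun x _ => (hψ.differentiable (by simp)) x)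
  rw [h1, h1', h3]
  congr 1
  refine integral_congr_ae (Eventually.of_forall fun x => ?_)
  show fderiv ℝ φ x (EuclideanSpace.single i 1) * ψ x = Φ x i * ψ x
  rw [hd, EuclideanSpace.inner_single_right]
  simp

/-- smooth functions have themselves as traces -/
theorem tr_smooth {Ω : Set E2} (hb : Bornology.IsBounded Ω) (hper : per Ω < ⊤) {φ : E2 → ℝ}
    (hφ : Continuous φ) : IsTrace Ω φ φ := by
  have hfinH := finH hper
  have hcomp : IsCompact (closure Ω) := hb.isCompact_closure
  obtain ⟨C, hC⟩ := hcomp.exists_bound_of_continuousOn hφ.continuousOn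
  have hae : ∀ᵐ x ∂((μH[1] : Measure E2).restrict (frontier Ω)), x ∈ frontier Ω :=
    ae_restrict_mem isClosed_frontier.measurableSet
  refine ⟨MemLp.of_bound hφ.aestronglyMeasurable C (by
      filter_upwards [hae] with x hx
      exact hC x (frontier_subset_closure hx)), Eventually.of_forall fun x => ?_⟩
  rw [Metric.tendsto_nhdsWithin_nhds]
  intro ε hε
  obtain ⟨δ, hδ, hδx⟩ := Metric.continuous_iff.1 hφ x (ε / 2) (by positivity)
  refine ⟨δ, hδ, fun r hr hrδ => ?_⟩
  rw [mem_Ioi] at hr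
  rw [Real.dist_eq, sub_zero, abs_of_pos hr] at hrδ
  rw [Real.dist_eq, sub_zero, setAverage_eq, smul_eq_mul, abs_mul, abs_inv,
    abs_of_nonneg measureReal_nonneg]
  have hfin : volume (ball x r ∩ Ω) < ⊤ :=
    (measure_mono inter_subset_left).trans_lt measure_ball_lt_top
  have h1 : ‖∫ y in ball x r ∩ Ω, |φ y - φ x|‖ ≤ ε / 2 * volume.real (ball x r ∩ Ω) := by
    refine norm_setIntegral_le_of_norm_le_const hfin fun y hy => ?_
    rw [Real.norm_eq_abs, abs_abs]
    have h2 := hδx y (lt_trans (mem_ball.1 hy.1) hrδ)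
    rw [Real.dist_eq] at h2
    exact h2.le
  rw [Real.norm_eq_abs] at h1
  rcases (measureReal_nonneg (μ := (volume : Measure E2)) (s := ball x r ∩ Ω)).eq_or_lt with h0 | h0
  · rw [← h0, inv_zero, zero_mul]
    exact hε
  · calc (volume.real (ball x r ∩ Ω))⁻¹ * abs (∫ y in ball x r ∩ Ω, |φ y - φ x|)
        ≤ (volume.real (ball x r ∩ Ω))⁻¹ * (ε / 2 * volume.real (ball x r ∩ Ω)) :=
          mul_le_mul_of_nonneg_left h1 (inv_nonneg.2 h0.le)
      _ = ε / 2 := by field_simp
      _ < ε := by linarith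

end KEY

open KEY in
theorem pKEY (hPERF : S_PERF) (hTR2 : S_TR2) (hHARM : S_HARM) : S_KEY := by
  intro Ω hΩ β c₀ hβ u hu hcu
  have hper := hPERF Ω hΩ
  have hfinH := finH hper
  have hfinV : IsFiniteMeasure (volume.restrict Ω) := ⟨by
    rw [Measure.restrict_apply_univ]
    exact hΩ.2.1.measure_lt_top⟩
  obtain ⟨G, g, ν, ⟨hνm, hν1, hdiv⟩, hH1, hTr, hGr, hid⟩ := hu
  have hcg := hTR2 Ω hΩ.1 hΩ.2.1 u g c₀ hH1.1 hTr hcu
  have hgi : Integrable g ((μH[1] : Measure E2).restrict (frontier Ω)) :=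
    hTr.1.integrable (by norm_num)
  set μ : Measure E2 := (μH[1] : Measure E2).restrict (frontier Ω) with hμ
  have hae : ∀ᵐ x ∂μ, x ∈ frontier Ω := by
    rw [hμ]
    exact ae_restrict_mem isClosed_frontier.measurableSet
  -- the identity (A)
  have hA : ∀ (k : ℕ) (c : ℂ) (a : E2), ‖c‖ ≤ 1 →
      (∫ x, g x * inner ℝ (gp k c a x) (ν x) ∂μ) + β * (∫ x, g x * hp k c a x ∂μ) =
        ∫ x in Ω, hp k c a x := by
    intro k c a hc
    obtain ⟨hφs, hgs, hg0, hgd, -, -⟩ := hHARM k c a hc
    have h1 := hid (hp k c a) (gp k c a) (hp k c a)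
      (h1_smooth hΩ.1.measurableSet hΩ.2.1 hφs hgs hgd) (tr_smooth hΩ.2.1 hper hφs.continuous)
    have h2 := hGr (gp k c a) hgs
    have h3 : ∀ x, dvg (gp k c a) x = 0 := fun x => hg0 x
    simp only [h3, mul_zero, integral_zero, zero_add] at h2
    rw [h2] at h1
    exact h1
  have hper' : (per Ω).toReal = ∫ _x, (1 : ℝ) ∂μ := by
    rw [integral_const, smul_eq_mul, mul_one, hμ, Measure.real, Measure.restrict_apply_univ]
    rfl
  have hone : ∀ x, hp 0 1 (0 : E2) x = 1 := fun x => by simp [hp]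
  have hzero : ∀ x, gp 0 1 (0 : E2) x = 0 := fun x => by
    unfold gp
    ext i
    fin_cases i <;> simp
  have hA0 : β * ∫ x, g x ∂μ = volume.real Ω := by
    have h1 := hA 0 1 0 (by simp)
    simp only [hone, hzero, inner_zero_left, mul_zero, integral_zero, zero_add, mul_one] at h1
    rw [h1]
    simp
  have hγ : ∫ x, (g x - c₀) ∂μ = volume.real Ω / β - c₀ * (per Ω).toReal := by
    have hc0 : ∫ _x, c₀ ∂μ = c₀ * (per Ω).toReal := by
      rw [hper', integral_const, integral_const, smul_eq_mul, smul_eq_mul]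
      ring
    rw [integral_sub hgi (integrable_const _), hc0, ← hA0]
    field_simp
  have hγi : Integrable (fun x => g x - c₀) μ := hgi.sub (integrable_const _)
  have hγ0 : ∀ᵐ x ∂μ, 0 ≤ g x - c₀ := by
    filter_upwards [hcg] with x hx
    linarith
  rw [← hγ]
  refine ⟨integral_nonneg_of_ae hγ0, fun k c a ϱ hc hϱ hsub => ?_⟩
  obtain ⟨hφs, hgs, hg0, hgd, hφb, hgb⟩ := hHARM k c a hc
  have hAk := hA k c a hc
  -- (B)
  have hB : ∫ x, inner ℝ (gp k c a x) (ν x) ∂μ = 0 := by
    have h2 := hdiv (gp k c a) hgs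
    have h3 : ∀ x, dvg (gp k c a) x = 0 := fun x => hg0 x
    simp only [h3, integral_zero] at h2
    exact h2.symm
  have hφc : Continuous (hp k c a) := hφs.continuous
  set p : E2 → ℝ := fun x => inner ℝ (gp k c a x) (ν x) with hpdef
  have hpm : AEStronglyMeasurable p μ := (hgs.continuous.aestronglyMeasurable).inner hνm
  have hpb : ∀ᵐ x ∂μ, ‖p x‖ ≤ k * ϱ ^ (k - 1) := by
    filter_upwards [hae, hν1] with x hx hx1
    have h1 := abs_real_inner_le_norm (gp k c a x) (ν x)
    rw [hx1, mul_one] at h1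
    rw [Real.norm_eq_abs]
    refine h1.trans ((hgb x).trans (mul_le_mul_of_nonneg_left ?_ (Nat.cast_nonneg k)))
    exact pow_le_pow_left₀ (norm_nonneg _) (front_le hsub hx) _
  have hφbd : ∀ᵐ x ∂μ, ‖hp k c a x‖ ≤ ϱ ^ k := by
    filter_upwards [hae] with x hx
    rw [Real.norm_eq_abs]
    exact (hφb x).trans (pow_le_pow_left₀ (norm_nonneg _) (front_le hsub hx) k)
  have hpi : Integrable p μ := Integrable.of_bound hpm _ hpb
  have hφi : Integrable (hp k c a) μ := Integrable.of_bound hφc.aestronglyMeasurable _ hφbd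
  have hgp : Integrable (fun x => g x * p x) μ := hgi.mul_bdd hpm hpb
  have hgφ : Integrable (fun x => g x * hp k c a x) μ := hgi.mul_bdd hφc.aestronglyMeasurable hφbd
  have key : β * c₀ * (∫ x, hp k c a x ∂μ) - ∫ x in Ω, hp k c a x =
      -∫ x, (g x - c₀) * (p x + β * hp k c a x) ∂μ := by
    have h1 : ∫ x, (g x - c₀) * (p x + β * hp k c a x) ∂μ =
        (∫ x, g x * p x ∂μ) + β * (∫ x, g x * hp k c a x ∂μ) - c₀ * (∫ x, p x ∂μ) -
          β * c₀ * ∫ x, hp k c a x ∂μ := by
      have e1 : ∫ x, (g x - c₀) * (p x + β * hp k c a x) ∂μ =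
          ∫ x, ((g x * p x + β * (g x * hp k c a x)) - (c₀ * p x + β * c₀ * hp k c a x)) ∂μ := by
        refine integral_congr_ae (Eventually.of_forall fun x => ?_)
        show (g x - c₀) * (p x + β * hp k c a x) =
          (g x * p x + β * (g x * hp k c a x)) - (c₀ * p x + β * c₀ * hp k c a x)
        ring
      have i1 : Integrable (fun x => g x * p x + β * (g x * hp k c a x)) μ :=
        hgp.add (hgφ.const_mul β)
      have i2 : Integrable (fun x => c₀ * p x + β * c₀ * hp k c a x) μ :=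
        (hpi.const_mul c₀).add (hφi.const_mul (β * c₀))
      rw [e1, integral_sub i1 i2, integral_add hgp (hgφ.const_mul β),
        integral_add (hpi.const_mul c₀) (hφi.const_mul (β * c₀)), integral_const_mul,
        integral_const_mul, integral_const_mul]
      ring
    rw [h1, hB, hAk]
    ring
  rw [key, abs_neg, ← integral_const_mul]
  have hbd : ∀ᵐ x ∂μ, ‖(g x - c₀) * (p x + β * hp k c a x)‖ ≤
      (k * ϱ ^ (k - 1) + β * ϱ ^ k) * (g x - c₀) := by
    filter_upwards [hpb, hφbd, hγ0] with x hx hx1 hx2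
    rw [norm_mul, Real.norm_eq_abs (g x - c₀), abs_of_nonneg hx2, mul_comm]
    refine mul_le_mul_of_nonneg_right ?_ hx2
    refine (norm_add_le _ _).trans (add_le_add hx ?_)
    rw [norm_mul, Real.norm_eq_abs β, abs_of_pos hβ]
    exact mul_le_mul_of_nonneg_left hx1 hβ.le
  have := norm_integral_le_of_norm_le (hγi.const_mul (k * ϱ ^ (k - 1) + β * ϱ ^ k)) hbd
  rw [Real.norm_eq_abs] at this
  exact this

end Pool.Agent.T2H01.QI
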