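import Pool.Agent.T2H01.QI.Stm

/-!
# Package KN of the project QI
-/

set_option autoImplicit false

noncomputable section

open MeasureTheory Metric Set Filter Topology
open scoped NNReal ENNReal

namespace Pool.Agent.T2H01.QI

namespace KN

theorem int_abs_cos (ψ : ℝ) : ∫ t in (0 : ℝ)..(2 * Real.pi), |Real.cos (ψ - t)| = 4 := by
  rw [intervalIntegral.integral_comp_sub_left (fun s => |Real.cos s|) ψ]
  have hper : Function.Periodic (fun s => |Real.cos s|) (2 * Real.pi) := fun s => by
    simp only [Real.cos_add_two_pi]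
  have h1 := hper.intervalIntegral_add_eq (ψ - 2 * Real.pi) (-(Real.pi / 2))
  have e1 : ψ - 2 * Real.pi + 2 * Real.pi = ψ - 0 := by ring
  rw [e1] at h1
  rw [h1]
  have e2 : -(Real.pi / 2) + 2 * Real.pi = Real.pi + Real.pi / 2 := by ring
  have hc : Continuous fun s : ℝ => |Real.cos s| := by fun_prop
  rw [e2, ← intervalIntegral.integral_add_adjacent_intervals (b := Real.pi / 2)
    (hc.intervalIntegrable _ _) (hc.intervalIntegrable _ _)]
  have hp := Real.pi_pos
  have i1 : ∫ s in (-(Real.pi / 2))..(Real.pi / 2), |Real.cos s| = 2 := by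
    rw [intervalIntegral.integral_congr (g := fun s => Real.cos s), integral_cos]
    · rw [Real.sin_neg, Real.sin_pi_div_two]
      norm_num
    · intro s hs
      rw [uIcc_of_le (by linarith)] at hs
      simp only
      rw [abs_of_nonneg (Real.cos_nonneg_of_neg_pi_div_two_le_of_le hs.1 hs.2)]
  have i2 : ∫ s in (Real.pi / 2)..(Real.pi + Real.pi / 2), |Real.cos s| = 2 := by
    rw [intervalIntegral.integral_congr (g := fun s => -Real.cos s),
      intervalIntegral.integral_neg, integral_cos]
    · rw [Real.sin_pi_div_two, add_comm Real.pi, Real.sin_add_pi, Real.sin_pi_div_two]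
      norm_num
    · intro s hs
      rw [uIcc_of_le (by linarith)] at hs
      simp only
      rw [abs_of_nonpos (Real.cos_nonpos_of_pi_div_two_le_of_le hs.1 hs.2)]
  rw [i1, i2]
  norm_num

theorem lip (ψ x y : ℝ) : |Real.cos (ψ - x)| ≤ |Real.cos (ψ - y)| + |x - y| := by
  have h1 : |Real.cos (ψ - x)| - |Real.cos (ψ - y)| ≤ |Real.cos (ψ - x) - Real.cos (ψ - y)| :=
    abs_sub_abs_le_abs_sub _ _
  have h2 := Real.abs_cos_sub_cos_le (ψ - x) (ψ - y)
  have h3 : |ψ - x - (ψ - y)| = |x - y| := by
    rw [abs_sub_comm x y]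
    congr 1
    ring
  linarith

theorem riemann (N : ℕ) (hN : 0 < N) (ψ : ℝ) :
    ∑ j ∈ Finset.range N, |Real.cos (ψ - 2 * Real.pi * j / N)| ≤ 2 * N / Real.pi + Real.pi := by
  have hN' : (0 : ℝ) < N := by exact_mod_cast hN
  have hp := Real.pi_pos
  set a : ℕ → ℝ := fun j => 2 * Real.pi * j / N with ha
  have hstep : ∀ j, a (j + 1) = a j + 2 * Real.pi / N := by
    intro j
    simp only [ha]
    push_cast
    ring
  have hc : Continuous fun t : ℝ => |Real.cos (ψ - t)| := by fun_prop
  have hterm : ∀ j, (2 * Real.pi / N) * |Real.cos (ψ - a j)| ≤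
      (∫ t in (a j)..(a (j + 1)), |Real.cos (ψ - t)|) + (2 * Real.pi / N) ^ 2 / 2 := by
    intro j
    have hle : a j ≤ a (j + 1) := by
      rw [hstep]
      have : 0 < 2 * Real.pi / N := by positivity
      linarith
    have h1 : ∫ _ in (a j)..(a (j + 1)), |Real.cos (ψ - a j)| =
        (2 * Real.pi / N) * |Real.cos (ψ - a j)| := by
      rw [intervalIntegral.integral_const, hstep, smul_eq_mul]
      ring
    have h2 : ∫ t in (a j)..(a (j + 1)), (|Real.cos (ψ - t)| + (t - a j)) =
        (∫ t in (a j)..(a (j + 1)), |Real.cos (ψ - t)|) + (2 * Real.pi / N) ^ 2 / 2 := by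
      rw [intervalIntegral.integral_add (hc.intervalIntegrable _ _)
        (Continuous.intervalIntegrable (by fun_prop) _ _)]
      congr 1
      rw [intervalIntegral.integral_sub (Continuous.intervalIntegrable (by fun_prop) _ _)
        (Continuous.intervalIntegrable (by fun_prop) _ _), integral_id,
        intervalIntegral.integral_const, hstep, smul_eq_mul]
      ring
    rw [← h1, ← h2]
    apply intervalIntegral.integral_mono_on hle
    · exact Continuous.intervalIntegrable (by fun_prop) _ _
    · exact Continuous.intervalIntegrable (by fun_prop) _ _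
    · intro t ht
      have h3 := lip ψ (a j) t
      rw [abs_sub_comm, abs_of_nonneg (by linarith [ht.1] : (0 : ℝ) ≤ t - a j)] at h3
      exact h3
  have hsum := Finset.sum_le_sum fun j (_ : j ∈ Finset.range N) => hterm j
  rw [Finset.sum_add_distrib, intervalIntegral.sum_integral_adjacent_intervals
    (fun j _ => hc.intervalIntegrable _ _), ← Finset.mul_sum, Finset.sum_const, Finset.card_range,
    nsmul_eq_mul] at hsum
  have h0 : a 0 = 0 := by simp [ha]
  have hNN : a N = 2 * Real.pi := by
    simp only [ha]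
    field_simp
  rw [h0, hNN, int_abs_cos] at hsum
  have h4 : (4 : ℝ) + N * ((2 * Real.pi / N) ^ 2 / 2) = (2 * Real.pi / N) * (2 * N / Real.pi + Real.pi) := by
    field_simp
    ring
  rw [h4] at hsum
  exact le_of_mul_le_mul_left hsum (by positivity)

theorem polar (v : E2) : ∃ φ : ℝ, v 0 = ‖v‖ * Real.cos φ ∧ v 1 = ‖v‖ * Real.sin φ := by
  have h : ‖v‖ = ‖(⟨v 0, v 1⟩ : ℂ)‖ := by
    rw [EuclideanSpace.norm_eq, Complex.norm_def, Complex.normSq_mk, Fin.sum_univ_two,
      Real.norm_eq_abs, Real.norm_eq_abs, sq_abs, sq_abs, sq, sq]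
  refine ⟨Complex.arg ⟨v 0, v 1⟩, ?_, ?_⟩
  · rw [h, Complex.norm_mul_cos_arg]
  · rw [h, Complex.norm_mul_sin_arg]

theorem inner_dir (v : E2) (α : ℝ) : inner ℝ v (dir α) = v 0 * Real.cos α + v 1 * Real.sin α := by
  unfold dir
  rw [PiLp.inner_apply, Fin.sum_univ_two]
  simp
  ring

end KN

open KN in
theorem pKN : S_KN := by
  intro N hN v c
  obtain ⟨φ, h0, h1⟩ := polar v
  have hterm : ∀ j : ℕ, |inner ℝ v (dir (2 * Real.pi * j / N + c))| =
      ‖v‖ * |Real.cos ((φ - c) - 2 * Real.pi * j / N)| := by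
    intro j
    have e : (φ - c) - 2 * Real.pi * j / N = φ - (2 * Real.pi * j / N + c) := by ring
    have e2 : inner ℝ v (dir (2 * Real.pi * j / N + c)) =
        ‖v‖ * Real.cos (φ - (2 * Real.pi * j / N + c)) := by
      rw [inner_dir, h0, h1, Real.cos_sub]
      ring
    rw [e, e2, abs_mul, abs_of_nonneg (norm_nonneg v)]
  rw [Finset.sum_congr rfl fun j _ => hterm j, ← Finset.mul_sum, mul_comm]
  exact mul_le_mul_of_nonneg_right (riemann N hN (φ - c)) (norm_nonneg v)

end Pool.Agent.T2H01.QI
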