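import Pool.Agent.T2H01.QI.Stm

/-!
# Package LEN of the project QI

The length of a Lipschitz graph over a measurable set is at least the integral of the speed.
-/

set_option autoImplicit false

noncomputable section

open MeasureTheory Metric Set Filter Topology
open scoped NNReal ENNReal

namespace Pool.Agent.T2H01.QI

namespace LEN

/-- The velocity vector with slope `c`. -/
def vel (c : ℝ) : E2 := !₂[1, c]

theorem norm_vel (c : ℝ) : ‖vel c‖ = Real.sqrt (1 + c ^ 2) := by
  simp [vel, EuclideanSpace.norm_eq, Fin.sum_univ_two]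

theorem norm_two (c : ℝ) : ‖(!₂[0, c] : E2)‖ = |c| := by
  simp [EuclideanSpace.norm_eq, Fin.sum_univ_two, Real.sqrt_sq_eq_abs]

theorem norm_vel_le (c d δ : ℝ) (h : |c - d| ≤ δ) : ‖vel c‖ ≤ ‖vel d‖ + δ := by
  have h1 : vel c = vel d + (!₂[0, c - d] : E2) := by
    ext i
    fin_cases i <;> simp [vel]
  rw [h1]
  refine (norm_add_le _ _).trans ?_
  rw [norm_two]
  linarith

theorem one_le_norm_vel (c : ℝ) : 1 ≤ ‖vel c‖ := by
  rw [norm_vel, Real.one_le_sqrt]
  nlinarith [sq_nonneg c]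

theorem gph_sub (f : ℝ → ℝ) (c s s' : ℝ) :
    ‖gph f s - gph f s' - (s - s') • vel c‖ = |f s - f s' - c * (s - s')| := by
  rw [← norm_two]
  congr 1
  ext i
  fin_cases i
  · simp [vel, gph]
  · simp [vel, gph]
    ring

theorem gph_inj (f : ℝ → ℝ) : Function.Injective (gph f) := by
  intro s s' h
  have := congrArg (fun x : E2 => x 0) h
  simpa [gph] using this

theorem gph_cont (f : ℝ → ℝ) (hf : Continuous f) : Continuous (gph f) := by
  unfold gph
  fun_prop

/-- One piece. -/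
theorem piece (hLEN1 : S_LEN1) (f : ℝ → ℝ) (S : Set ℝ) (hS : MeasurableSet S)
    (hd : ∀ x ∈ S, DifferentiableAt ℝ f x) (A : ℝ →L[ℝ] ℝ) (δ : ℝ≥0) (hδ : δ < 1)
    (hA : ApproximatesLinearOn f A S δ) :
    ∫⁻ s in S, ENNReal.ofReal (spd f s) ≤
      ENNReal.ofReal ((1 + δ) / (1 - δ)) * μH[1] (gph f '' S) := by
  have hδ' : (δ : ℝ) < 1 := by exact_mod_cast hδ
  have hδ0 : (0 : ℝ) ≤ δ := δ.2
  have h1 := one_le_norm_vel (A 1)
  have hA' : ∀ t : ℝ, A t = A 1 * t := by
    intro t
    have : t = t • (1 : ℝ) := by simp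
    rw [this, map_smul]
    simp [mul_comm]
  have hlow : ENNReal.ofReal (‖vel (A 1)‖ - δ) * volume S ≤ μH[1] (gph f '' S) := by
    refine hLEN1 f S (vel (A 1)) δ hδ0 (by linarith) ?_
    intro s hs s' hs'
    rw [gph_sub, ← hA']
    have := hA s hs s' hs'
    simpa [Real.norm_eq_abs] using this
  have hup : ∫⁻ s in S, ENNReal.ofReal (spd f s) ≤ ENNReal.ofReal (‖vel (A 1)‖ + δ) * volume S := by
    have hae : ∀ᵐ x ∂(volume.restrict S : Measure ℝ), ‖fderiv ℝ f x - A‖₊ ≤ δ :=
      hA.norm_fderiv_sub_le volume hS (fun x => fderiv ℝ f x)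
        (fun x hx => (hd x hx).hasFDerivAt.hasFDerivWithinAt)
    calc ∫⁻ s in S, ENNReal.ofReal (spd f s)
        ≤ ∫⁻ _ in S, ENNReal.ofReal (‖vel (A 1)‖ + δ) := by
          refine lintegral_mono_ae ?_
          filter_upwards [hae] with x hx
          refine ENNReal.ofReal_le_ofReal ?_
          have h3 : spd f x = ‖vel (deriv f x)‖ := by rw [norm_vel]; rfl
          rw [h3]
          refine norm_vel_le _ _ _ ?_
          have h4 : deriv f x - A 1 = (fderiv ℝ f x - A) 1 := by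
            simp
          rw [h4, ← Real.norm_eq_abs]
          have h5 := (fderiv ℝ f x - A).le_opNorm 1
          have h6 : ‖fderiv ℝ f x - A‖ ≤ δ := by exact_mod_cast hx
          simp only [norm_one, mul_one] at h5
          exact h5.trans h6
      _ = ENNReal.ofReal (‖vel (A 1)‖ + δ) * volume S := by
          rw [lintegral_const, Measure.restrict_apply_univ]
  refine hup.trans ?_
  have h7 : ‖vel (A 1)‖ + δ ≤ (1 + δ) / (1 - δ) * (‖vel (A 1)‖ - δ) := by
    rw [div_mul_eq_mul_div, le_div_iff₀ (by linarith)]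
    nlinarith
  calc ENNReal.ofReal (‖vel (A 1)‖ + δ) * volume S
      ≤ ENNReal.ofReal ((1 + δ) / (1 - δ) * (‖vel (A 1)‖ - δ)) * volume S := by
        gcongr
    _ = ENNReal.ofReal ((1 + δ) / (1 - δ)) * (ENNReal.ofReal (‖vel (A 1)‖ - δ) * volume S) := by
        rw [ENNReal.ofReal_mul (by
          apply div_nonneg <;> linarith), mul_assoc]
    _ ≤ _ := by gcongr

/-- The estimate with an error factor. -/
theorem approx (hLEN1 : S_LEN1) (f : ℝ → ℝ) (K : ℝ≥0) (hf : LipschitzWith K f) (B : Set ℝ)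
    (hB : MeasurableSet B) (δ : ℝ≥0) (hδ0 : 0 < δ) (hδ : δ < 1) :
    ∫⁻ s in B, ENNReal.ofReal (spd f s) ≤
      ENNReal.ofReal ((1 + δ) / (1 - δ)) * μH[1] (gph f '' B) := by
  set D : Set ℝ := {x | DifferentiableAt ℝ f x} with hD
  have hDm : MeasurableSet D := measurableSet_of_differentiableAt ℝ f
  have hDae : ∀ᵐ x : ℝ, x ∈ D := hf.ae_differentiableAt
  have hBD : (B ∩ D : Set ℝ) =ᵐ[volume] B := by
    filter_upwards [hDae] with x hx
    apply propext
    constructor
    · intro h; exact h.1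
    · intro h; exact ⟨h, hx⟩
  rw [← Measure.restrict_congr_set hBD]
  obtain ⟨t, A, htd, htm, hcov, hap, -⟩ :=
    exists_partition_approximatesLinearOn_of_hasFDerivWithinAt f (B ∩ D) (fun x => fderiv ℝ f x)
      (fun x hx => (show DifferentiableAt ℝ f x from hx.2).hasFDerivAt.hasFDerivWithinAt)
      (fun _ => δ) (fun _ => hδ0.ne')
  have hpm : ∀ n, MeasurableSet ((B ∩ D) ∩ t n) := fun n => (hB.inter hDm).inter (htm n)
  have hU : B ∩ D = ⋃ n, (B ∩ D) ∩ t n := by
    rw [← inter_iUnion]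
    exact (inter_eq_left.2 hcov).symm
  calc ∫⁻ s in B ∩ D, ENNReal.ofReal (spd f s)
      = ∫⁻ s in ⋃ n, (B ∩ D) ∩ t n, ENNReal.ofReal (spd f s) := by rw [← hU]
    _ ≤ ∑' n, ∫⁻ s in (B ∩ D) ∩ t n, ENNReal.ofReal (spd f s) := lintegral_iUnion_le _ _
    _ ≤ ∑' n, ENNReal.ofReal ((1 + δ) / (1 - δ)) * μH[1] (gph f '' ((B ∩ D) ∩ t n)) := by
        refine ENNReal.tsum_le_tsum fun n => ?_
        exact piece hLEN1 f _ (hpm n) (fun x hx => hx.1.2) (A n) δ hδ (hap n)
    _ = ENNReal.ofReal ((1 + δ) / (1 - δ)) * ∑' n, μH[1] (gph f '' ((B ∩ D) ∩ t n)) :=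
        ENNReal.tsum_mul_left
    _ = ENNReal.ofReal ((1 + δ) / (1 - δ)) * μH[1] (⋃ n, gph f '' ((B ∩ D) ∩ t n)) := by
        rw [measure_iUnion]
        · intro i j hij
          exact (disjoint_image_iff (gph_inj f)).2
            ((htd hij).mono inter_subset_right inter_subset_right)
        · intro n
          exact (hpm n).image_of_continuousOn_injOn (gph_cont f hf.continuous).continuousOn
            (gph_inj f).injOn
    _ ≤ ENNReal.ofReal ((1 + δ) / (1 - δ)) * μH[1] (gph f '' B) := by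
        gcongr
        rw [← image_iUnion, ← hU]
        exact image_mono inter_subset_left

end LEN

theorem pLEN (hLEN1 : S_LEN1) : S_LEN := by
  intro f K hf B hB
  have hlim : Tendsto (fun δ : ℝ => ENNReal.ofReal ((1 + δ) / (1 - δ)) * μH[1] (gph f '' B))
      (𝓝[>] 0) (𝓝 (μH[1] (gph f '' B))) := by
    have h1 : Tendsto (fun δ : ℝ => (1 + δ) / (1 - δ)) (𝓝[>] 0) (𝓝 1) := by
      have h2 : ContinuousAt (fun δ : ℝ => (1 + δ) / (1 - δ)) 0 := by
        apply ContinuousAt.div
        · fun_prop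
        · fun_prop
        · norm_num
      have h3 := h2.tendsto
      simp only [add_zero, sub_zero, div_one] at h3
      exact h3.mono_left nhdsWithin_le_nhds
    have h4 : Tendsto (fun δ : ℝ => ENNReal.ofReal ((1 + δ) / (1 - δ))) (𝓝[>] 0) (𝓝 1) := by
      have := ENNReal.tendsto_ofReal h1
      simpa using this
    have h5 := ENNReal.Tendsto.mul_const (b := μH[1] (gph f '' B)) h4 (Or.inl one_ne_zero)
    simpa using h5
  refine ge_of_tendsto hlim ?_
  filter_upwards [Ioo_mem_nhdsGT (show (0 : ℝ) < 1 by norm_num)] with δ hδ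
  have := LEN.approx hLEN1 f K hf B hB ⟨δ, hδ.1.le⟩ (by exact_mod_cast hδ.1)
    (by exact_mod_cast hδ.2)
  exact this

end Pool.Agent.T2H01.QI
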