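import Pool.Agent.T2H01.QI.Stm

/-! # Package GRF: in a chart the frontier is the graph -/

set_option autoImplicit false

noncomputable section

open MeasureTheory Metric Set Filter Topology
open scoped NNReal ENNReal

namespace Pool.Agent.T2H01.QI

namespace GRF

/-- the point with coordinates `s`, `t` -/
def pt (s t : ℝ) : E2 := s • EuclideanSpace.single (0 : Fin 2) (1 : ℝ) +
  t • EuclideanSpace.single (1 : Fin 2) (1 : ℝ)

lemma pt_zero (s t : ℝ) : (pt s t) 0 = s := by simp [pt]

lemma pt_one (s t : ℝ) : (pt s t) 1 = t := by simp [pt]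

lemma eta (w : E2) : pt (w 0) (w 1) = w := by
  ext i
  fin_cases i
  · exact pt_zero _ _
  · exact pt_one _ _

lemma dist_le (v w : E2) : dist v w ≤ |v 0 - w 0| + |v 1 - w 1| := by
  rw [EuclideanSpace.dist_eq, Fin.sum_univ_two, Real.dist_eq, Real.dist_eq]
  refine Real.sqrt_le_iff.mpr ⟨by positivity, ?_⟩
  have h1 := abs_nonneg (v 0 - w 0)
  have h2 := abs_nonneg (v 1 - w 1)
  nlinarith

lemma coord_le (v w : E2) (i : Fin 2) : |v i - w i| ≤ dist v w := by
  rw [EuclideanSpace.dist_eq]
  refine Real.le_sqrt_of_sq_le ?_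
  have h := Finset.single_le_sum (f := fun j : Fin 2 => dist (v j) (w j) ^ 2)
    (fun j _ => sq_nonneg _) (Finset.mem_univ i)
  rw [Real.dist_eq] at h
  exact h

end GRF

open GRF

theorem pGRF : S_GRF := by
  intro Ω x e r f hO hC y hy
  obtain ⟨hr, ⟨K, hK⟩, hch⟩ := hC
  have hfc : Continuous f := hK.continuous
  rw [hO.frontier_eq, Set.mem_diff]
  have hc0 : Continuous fun w : E2 => (e w) 0 :=
    (EuclideanSpace.proj (𝕜 := ℝ) (0 : Fin 2)).continuous.comp e.continuous
  have hc1 : Continuous fun w : E2 => (e w) 1 :=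
    (EuclideanSpace.proj (𝕜 := ℝ) (1 : Fin 2)).continuous.comp e.continuous
  constructor
  · rintro ⟨h1, h2⟩
    have h3 : f ((e y) 0) ≤ (e y) 1 := by
      by_contra hcon
      push Not at hcon
      exact h2 ((hch y hy).mpr hcon)
    refine le_antisymm ?_ h3
    by_contra hcon
    push Not at hcon
    have hU : IsOpen {w : E2 | dist w x < r ∧ f ((e w) 0) < (e w) 1} :=
      (isOpen_lt (continuous_id.dist continuous_const) continuous_const).inter
        (isOpen_lt (hfc.comp hc0) hc1)
    obtain ⟨w, hw1, hw2⟩ := mem_closure_iff.mp h1 _ hU ⟨hy, hcon⟩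
    have h4 := (hch w hw1.1).mp hw2
    have h5 := hw1.2
    linarith
  · intro h
    constructor
    · rw [Metric.mem_closure_iff]
      intro ε hε
      obtain ⟨δ, hδ0, hδ1, hδ2⟩ : ∃ δ : ℝ, 0 < δ ∧ δ < ε ∧ δ < r - dist y x := by
        obtain ⟨δ, h1, h2⟩ := exists_between (show (0 : ℝ) < min ε (r - dist y x) from
          lt_min hε (by linarith))
        exact ⟨δ, h1, lt_of_lt_of_le h2 (min_le_left _ _), lt_of_lt_of_le h2 (min_le_right _ _)⟩
      obtain ⟨w, hw⟩ : ∃ w : E2, e w = pt ((e y) 0) ((e y) 1 - δ) := ⟨e.symm _, e.apply_symm_apply _⟩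
      have hd : dist y w ≤ δ := by
        rw [← e.dist_map, hw]
        refine (dist_le _ _).trans ?_
        rw [pt_zero, pt_one, sub_self, abs_zero, zero_add, sub_sub_cancel, abs_of_pos hδ0]
      have hdx : dist w x < r := by
        have := dist_triangle w y x
        rw [dist_comm w y] at this
        linarith
      refine ⟨w, ?_, by linarith⟩
      rw [hch w hdx, hw, pt_zero, pt_one, ← h]
      linarith
    · intro h1
      have := (hch y hy).mp h1
      linarith

end Pool.Agent.T2H01.QI
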