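import Pool.Agent.T2H01.QI.Stm
import Pool.Agent.T2H01.QI.GRF

/-! # Package LOC: near a boundary point only one component is present -/

set_option autoImplicit false

noncomputable section

open MeasureTheory Metric Set Filter Topology
open scoped NNReal ENNReal

namespace Pool.Agent.T2H01.QI

namespace LOC

open GRF

lemma pt_cont : Continuous fun p : ℝ × ℝ => pt p.1 p.2 := by
  unfold pt
  exact (continuous_fst.smul continuous_const).add (continuous_snd.smul continuous_const)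

end LOC

open GRF LOC

theorem pLOC (hGRF : S_GRF) : S_LOC := by
  intro Ω hΩ x hx
  obtain ⟨hO, hB, hF⟩ := hΩ
  obtain ⟨e, r, f, hC⟩ := hF x hx
  have hCC := hC
  obtain ⟨hr, ⟨K0, hK0⟩, hch⟩ := hC
  obtain ⟨K, hK1, hK⟩ : ∃ K : ℝ, 1 ≤ K ∧ ∀ s s' : ℝ, |f s - f s'| ≤ K * |s - s'| := by
    refine ⟨max (K0 : ℝ) 1, le_max_right _ _, fun s s' => ?_⟩
    have h := hK0.dist_le_mul s s'
    rw [Real.dist_eq, Real.dist_eq] at h
    exact h.trans (mul_le_mul_of_nonneg_right (le_max_left _ _) (abs_nonneg _))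
  have hxr : dist x x < r := by rw [dist_self]; exact hr
  have hx1 : (e x) 1 = f ((e x) 0) := (hGRF Ω x e r f hO hCC x hxr).mp hx
  obtain ⟨s₀, hs₀⟩ : ∃ s₀ : ℝ, s₀ = (e x) 0 := ⟨_, rfl⟩
  rw [← hs₀] at hx1
  obtain ⟨ρ, hρ⟩ : ∃ ρ : ℝ, ρ = r / (10 * K) := ⟨_, rfl⟩
  have hK0' : 0 < K := by linarith
  have hρ0 : 0 < ρ := by rw [hρ]; positivity
  have hρr : 10 * (K * ρ) = r := by rw [hρ]; field_simp
  have hρK : ρ ≤ K * ρ := by nlinarith
  obtain ⟨b, hb⟩ : ∃ b : ℝ, b = f s₀ - 3 * (K * ρ) := ⟨_, rfl⟩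
  -- membership in Ω by coordinates
  have hmem : ∀ s t : ℝ, |s - s₀| ≤ ρ → |t - f s₀| ≤ 3 * (K * ρ) → t < f s →
      e.symm (pt s t) ∈ Ω := by
    intro s t h1 h2 h3
    have hd : dist (e.symm (pt s t)) x < r := by
      rw [← e.dist_map, e.apply_symm_apply]
      refine lt_of_le_of_lt (dist_le _ _) ?_
      rw [pt_zero, pt_one, ← hs₀, hx1]
      linarith
    rw [hch _ hd, e.apply_symm_apply, pt_zero, pt_one]
    exact h3
  have hlow : ∀ s : ℝ, |s - s₀| ≤ ρ → b < f s := by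
    intro s h1
    have h2 := hK s s₀
    have h3 : K * |s - s₀| ≤ K * ρ := mul_le_mul_of_nonneg_left h1 hK0'.le
    have h4 := (abs_le.mp (h2.trans h3)).1
    have h5 : 0 < K * ρ := by positivity
    rw [hb]
    linarith
  have hbb : |b - f s₀| ≤ 3 * (K * ρ) := by
    rw [hb, sub_sub_cancel_left, abs_neg, abs_of_nonneg (by positivity)]
  have hz : e.symm (pt s₀ b) ∈ Ω :=
    hmem s₀ b (by rw [sub_self, abs_zero]; exact hρ0.le) hbb
      (hlow s₀ (by rw [sub_self, abs_zero]; exact hρ0.le))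
  refine ⟨ρ, hρ0, e.symm (pt s₀ b), hz, ?_⟩
  rintro y ⟨hyb, hyΩ⟩
  have hyx : dist y x < ρ := hyb
  obtain ⟨s, hs⟩ : ∃ s : ℝ, s = (e y) 0 := ⟨_, rfl⟩
  obtain ⟨t, ht⟩ : ∃ t : ℝ, t = (e y) 1 := ⟨_, rfl⟩
  have hye : y = e.symm (pt s t) := by
    rw [hs, ht, eta, e.symm_apply_apply]
  have hss : |s - s₀| < ρ := by
    rw [hs, hs₀]
    refine lt_of_le_of_lt (coord_le (e y) (e x) 0) ?_
    rw [e.dist_map]
    exact hyx
  have htt : |t - f s₀| < ρ := by
    rw [ht, ← hx1]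
    refine lt_of_le_of_lt (coord_le (e y) (e x) 1) ?_
    rw [e.dist_map]
    exact hyx
  have htf : t < f s := by
    have h1 : dist y x < r := by nlinarith
    rw [hs, ht]
    exact (hch y h1).mp hyΩ
  have hbt : b ≤ t := by
    have := (abs_lt.mp htt).1
    have h5 : 0 < K * ρ := by positivity
    rw [hb]
    linarith
  -- the vertical segment
  have hV : IsPreconnected ((fun τ : ℝ => e.symm (pt s τ)) '' Icc b t) := by
    refine isPreconnected_Icc.image _ (Continuous.continuousOn ?_)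
    exact e.symm.continuous.comp (pt_cont.comp (continuous_const.prodMk continuous_id))
  have hH : IsPreconnected ((fun σ : ℝ => e.symm (pt σ b)) '' uIcc s s₀) := by
    refine isPreconnected_uIcc.image _ (Continuous.continuousOn ?_)
    exact e.symm.continuous.comp (pt_cont.comp (continuous_id.prodMk continuous_const))
  have hm1 : e.symm (pt s b) ∈ (fun τ : ℝ => e.symm (pt s τ)) '' Icc b t :=
    ⟨b, left_mem_Icc.mpr hbt, rfl⟩
  have hm2 : e.symm (pt s b) ∈ (fun σ : ℝ => e.symm (pt σ b)) '' uIcc s s₀ :=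
    ⟨s, left_mem_uIcc, rfl⟩
  have hU := IsPreconnected.union (e.symm (pt s b)) hm1 hm2 hV hH
  have hsub : (fun τ : ℝ => e.symm (pt s τ)) '' Icc b t ∪
      (fun σ : ℝ => e.symm (pt σ b)) '' uIcc s s₀ ⊆ Ω := by
    rintro w (⟨τ, hτ, rfl⟩ | ⟨σ, hσ, rfl⟩)
    · refine hmem s τ hss.le ?_ (lt_of_le_of_lt hτ.2 htf)
      have h1 := (abs_le.mp hbb).1
      have h2 := (abs_lt.mp htt).2
      rw [abs_le]
      exact ⟨by linarith [hτ.1], by nlinarith [hτ.2]⟩
    · have h1 : |σ - s₀| ≤ ρ := by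
        have h2 : |σ - s₀| ≤ |s - s₀| := by
          rw [abs_sub_comm σ s₀, abs_sub_comm s s₀]
          exact abs_sub_right_of_mem_uIcc hσ
        linarith
      exact hmem σ b h1 hbb (hlow σ h1)
  have h1 : e.symm (pt s₀ b) ∈ (fun τ : ℝ => e.symm (pt s τ)) '' Icc b t ∪
      (fun σ : ℝ => e.symm (pt σ b)) '' uIcc s s₀ :=
    Or.inr ⟨s₀, right_mem_uIcc, rfl⟩
  have h2 := hU.subset_connectedComponentIn h1 hsub
  refine h2 (Or.inl ?_)
  rw [hye]
  exact ⟨t, right_mem_Icc.mpr hbt, rfl⟩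

end Pool.Agent.T2H01.QI
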