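import Pool.Agent.T2H01.QI.Stm2

set_option autoImplicit false

noncomputable section

open MeasureTheory Metric Set Filter Topology
open scoped NNReal ENNReal

namespace Pool.Agent.T2H01.QI

namespace MO

lemma pow_bound (k : ℕ) : (1 + 1 / ((k : ℝ) + 4)) ^ k ≤ 3 := by
  have h1 : 1 + 1 / ((k : ℝ) + 4) ≤ Real.exp (1 / ((k : ℝ) + 4)) := by
    have := Real.add_one_le_exp (1 / ((k : ℝ) + 4))
    linarith
  calc (1 + 1 / ((k : ℝ) + 4)) ^ k ≤ Real.exp (1 / ((k : ℝ) + 4)) ^ k :=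
        pow_le_pow_left₀ (by positivity) h1 k
    _ = Real.exp (k * (1 / ((k : ℝ) + 4))) := by rw [← Real.exp_nat_mul]
    _ ≤ Real.exp 1 := by
        apply Real.exp_le_exp.mpr
        rw [mul_one_div, div_le_one (by positivity)]
        linarith
    _ ≤ 3 := by
        have := Real.exp_one_lt_d9
        linarith

lemma norm_dir (θ : ℝ) : ‖dir θ‖ = 1 := by
  rw [EuclideanSpace.norm_eq]
  simp [dir, Fin.sum_univ_two]

end MO

theorem pMO (hGE0 : S_GE0) (hGE2 : S_GE2) (hPOL : S_POL) (hMOM : S_MOM) (hHARM : S_HARM)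
    (hDM : S_DM) (hSO : S_SO) : S_MO := by
  intro Ω ho hb hne hr k c hc hk α₀ α₁ W hW
  obtain ⟨hgc, hgp, -, -⟩ := hGE0 Ω hb hne
  obtain ⟨hM0, hMD, -⟩ := hDM Ω ho hb hne
  have hGE2' := hGE2 Ω ho hb hne
  have hSO' := hSO Ω ho hb hne
  set r := mr Ω with hr'
  set a := ctr Ω with ha'
  set D := Real.pi * r ^ 2 - volume.real Ω with hD'
  have hD : 0 ≤ D := by linarith
  have hk0 : (0 : ℝ) ≤ k := Nat.cast_nonneg k
  have hk4 : (0 : ℝ) < k + 4 := by positivity
  have h5 : 5 * Real.sqrt D ≤ r / (k + 4) := by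
    rw [le_div_iff₀ hk4]
    calc 5 * Real.sqrt D * (k + 4) = 5 * (k + 4) * Real.sqrt D := by ring
      _ ≤ r := hk
  have hg : ∀ θ, |gg Ω θ| ≤ 5 * Real.sqrt D := by
    intro θ
    have h := hGE2' θ
    refine abs_le_of_sq_le_sq ?_ (by positivity)
    calc gg Ω θ ^ 2 ≤ 25 * D := h
      _ = (5 * Real.sqrt D) ^ 2 := by
          rw [mul_pow, Real.sq_sqrt hD]
          norm_num
  have hg4 : ∀ θ, |gg Ω θ| ≤ r / (k + 4) := fun θ => (hg θ).trans h5
  have hr4 : r / (k + 4) ≤ r / 4 := by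
    apply div_le_div_of_nonneg_left hr.le (by norm_num)
    linarith
  have hpos : ∀ θ, 0 < r + gg Ω θ := by
    intro θ
    have := (abs_le.mp (hg4 θ)).1
    linarith
  have h5lt : 5 * Real.sqrt D < r := by linarith
  obtain ⟨hSsub, hSvol, -⟩ := hSO' h5lt
  obtain ⟨hScomp, -⟩ := hPOL a (fun θ => r + gg Ω θ) (continuous_const.add hgc)
    (by intro θ; rw [hgp]) hpos
  have hmom := hMOM a (gg Ω) r k c α₀ α₁ hgc hgp hr hg4 hc
  obtain ⟨hp1, -, -, -, hp5, -⟩ := hHARM k c a hc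
  set S := star a (fun θ => r + gg Ω θ) with hS
  set F : E2 → ℝ := fun x => hp k c a x * (α₀ + α₁ * ‖x - a‖ ^ 2) with hF
  have hFc : Continuous F := hp1.continuous.mul (by fun_prop)
  have hFi : IntegrableOn F S := hFc.continuousOn.integrableOn_compact hScomp
  have hFb : ∀ x ∈ S \ Ω, ‖F x‖ ≤ 3 * r ^ k * W := by
    rintro x ⟨⟨s, θ, hs0, hs1, hx⟩, -⟩
    have hn : ‖x - a‖ = s := by
      rw [hx, add_sub_cancel_left, norm_smul, MO.norm_dir, mul_one, Real.norm_eq_abs,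
        abs_of_nonneg hs0]
    have hg1 := (abs_le.mp (hg4 θ)).2
    have hs2 : s ≤ r * (1 + 1 / ((k : ℝ) + 4)) := by
      have e : r * (1 + 1 / ((k : ℝ) + 4)) = r + r / (k + 4) := by ring
      rw [e]
      linarith
    have hs3 : s ≤ (5 / 4) * r := by linarith
    have hA := hW s hs0 hs3
    have hB : |hp k c a x| ≤ 3 * r ^ k := by
      calc |hp k c a x| ≤ ‖x - a‖ ^ k := hp5 x
        _ = s ^ k := by rw [hn]
        _ ≤ (r * (1 + 1 / ((k : ℝ) + 4))) ^ k := pow_le_pow_left₀ hs0 hs2 k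
        _ = r ^ k * (1 + 1 / ((k : ℝ) + 4)) ^ k := mul_pow _ _ _
        _ ≤ r ^ k * 3 := mul_le_mul_of_nonneg_left (MO.pow_bound k) (by positivity)
        _ = 3 * r ^ k := by ring
    rw [hF]
    beta_reduce
    rw [norm_mul, Real.norm_eq_abs, Real.norm_eq_abs, hn]
    exact mul_le_mul hB hA (abs_nonneg _) (by positivity)
  have hdiff : ∫ x in S \ Ω, F x = (∫ x in S, F x) - ∫ x in Ω, F x :=
    setIntegral_sdiff ho.measurableSet hFi hSsub
  have hW0 : 0 ≤ W := (abs_nonneg _).trans (hW 0 le_rfl (by positivity))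
  have hsmall : |∫ x in S \ Ω, F x| ≤ 3 * r ^ k * W * ((4 / 3) * D) := by
    have h1 := norm_setIntegral_le_of_norm_le_const (μ := volume) (s := S \ Ω)
      ((measure_mono sdiff_subset).trans_lt hScomp.measure_lt_top) hFb
    exact h1.trans (mul_le_mul_of_nonneg_left hSvol (by positivity))
  have hMM : ∫ θ in (0 : ℝ)..(2 * Real.pi), gg Ω θ ^ 2 = MM Ω := rfl
  rw [hMM] at hmom
  have e2 : 3 * r ^ k * W * ((4 / 3) * D) = 4 * r ^ k * W * D := by ring
  rw [e2, hdiff] at hsmall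
  rw [abs_le] at hsmall hmom ⊢
  constructor <;> linarith [hsmall.1, hsmall.2, hmom.1, hmom.2]

end Pool.Agent.T2H01.QI
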