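import Pool.Agent.T2H01.QI.Stm

set_option autoImplicit false

noncomputable section

open MeasureTheory Metric Set Filter Topology
open scoped NNReal ENNReal Convolution

namespace Pool.Agent.T2H01.QI

namespace MOL1

/-- the bump -/
def bp (ε : ℝ) (hε : 0 < ε) : ContDiffBump (0 : E2) := ⟨ε / 2, ε, by positivity, by linarith⟩

/-- the kernel -/
def rho (ε : ℝ) (hε : 0 < ε) : E2 → ℝ := (bp ε hε).normed volume

variable {ε : ℝ} {hε : 0 < ε}

lemma rho_smooth : ContDiff ℝ (⊤ : ℕ∞) (rho ε hε) := (bp ε hε).contDiff_normed

lemma rho_cont : Continuous (rho ε hε) := (bp ε hε).continuous_normed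

lemma rho_cs : HasCompactSupport (rho ε hε) := (bp ε hε).hasCompactSupport_normed

lemma rho_nonneg (x : E2) : 0 ≤ rho ε hε x := (bp ε hε).nonneg_normed x

lemma rho_neg (x : E2) : rho ε hε (-x) = rho ε hε x := (bp ε hε).normed_neg x

lemma rho_int : ∫ x, rho ε hε x = 1 := (bp ε hε).integral_normed

lemma rho_supp (x : E2) (h : rho ε hε x ≠ 0) : x ∈ ball (0 : E2) ε := by
  have : x ∈ Function.support (rho ε hε) := h
  rw [rho, ContDiffBump.support_normed_eq] at this
  exact this

lemma rho_integrable : Integrable (rho ε hε) := rho_cont.integrable_of_hasCompactSupport rho_cs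

/-- one term of the divergence -/
lemma term_cont {φ : E2 → E2} (hφ : ContDiff ℝ (⊤ : ℕ∞) φ) (i : Fin 2) :
    Continuous (fun x => fderiv ℝ φ x (EuclideanSpace.single i 1) i) := by
  have h : Continuous (fun x => fderiv ℝ φ x (EuclideanSpace.single i (1 : ℝ))) :=
    (hφ.continuous_fderiv (by simp)).clm_apply continuous_const
  exact (EuclideanSpace.proj (𝕜 := ℝ) i).continuous.comp h

lemma divg_cont {φ : E2 → E2} (hφ : ContDiff ℝ (⊤ : ℕ∞) φ) : Continuous (divg φ) := by
  unfold divg
  exact continuous_finsetSum _ fun i _ => term_cont hφ i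

lemma divg_cs {φ : E2 → E2} (hc : HasCompactSupport φ) : HasCompactSupport (divg φ) := by
  refine (hc.fderiv (𝕜 := ℝ)).mono' ?_
  intro x hx
  by_contra hn
  apply hx
  have h0 : fderiv ℝ φ x = 0 := image_eq_zero_of_notMem_tsupport hn
  simp [divg, h0]

lemma divg_conv {φ : E2 → E2} (hφ : ContDiff ℝ (⊤ : ℕ∞) φ) (hc : HasCompactSupport φ) (t : E2) :
    divg (rho ε hε ⋆[ContinuousLinearMap.lsmul ℝ ℝ, volume] φ) t = ∫ s, rho ε hε s * divg φ (t - s) := by
  have hφ1 : ContDiff ℝ 1 φ := hφ.of_le (by simp)
  have h := (hc.hasFDerivAt_convolution_right (ContinuousLinearMap.lsmul ℝ ℝ)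
    (rho_integrable (ε := ε) (hε := hε)).locallyIntegrable hφ1 t).fderiv
  unfold divg
  rw [h]
  have hex : ConvolutionExistsAt (rho ε hε) (fderiv ℝ φ) t
      ((ContinuousLinearMap.lsmul ℝ ℝ).precompR E2) volume :=
    (hc.fderiv (𝕜 := ℝ)).convolutionExists_right _ rho_integrable.locallyIntegrable
      (hφ1.continuous_fderiv one_ne_zero) t
  have hterm : ∀ i : Fin 2, ((rho ε hε ⋆[(ContinuousLinearMap.lsmul ℝ ℝ).precompR E2, volume] fderiv ℝ φ) t
      (EuclideanSpace.single i 1)) i =
      ∫ s, rho ε hε s * (fderiv ℝ φ (t - s) (EuclideanSpace.single i 1) i) := by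
    intro i
    let Λ : (E2 →L[ℝ] E2) →L[ℝ] ℝ := (EuclideanSpace.proj (𝕜 := ℝ) i).comp
      (ContinuousLinearMap.apply ℝ E2 (EuclideanSpace.single i (1 : ℝ)))
    have e := Λ.integral_comp_comm hex
    have e2 : ((rho ε hε ⋆[(ContinuousLinearMap.lsmul ℝ ℝ).precompR E2, volume] fderiv ℝ φ) t
      (EuclideanSpace.single i 1)) i = Λ (∫ s, ((ContinuousLinearMap.lsmul ℝ ℝ).precompR E2) (rho ε hε s)
        (fderiv ℝ φ (t - s))) := rfl
    rw [e2, ← e]
    rfl
  simp only [hterm]
  rw [← integral_finsetSum]
  · refine integral_congr_ae (Filter.Eventually.of_forall fun s => ?_)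
    beta_reduce
    rw [Finset.mul_sum]
  · intro i _
    have hcont : Continuous (fun s => rho ε hε s * (fderiv ℝ φ (t - s) (EuclideanSpace.single i 1) i)) :=
      rho_cont.mul ((term_cont hφ i).comp (continuous_const.sub continuous_id))
    exact hcont.integrable_of_hasCompactSupport rho_cs.mul_right

end MOL1

open MOL1 in
theorem pMOL1 : S_MOL1 := by
  intro Ω hΩ hb P hP ε hε
  set f : E2 → ℝ := Ω.indicator (fun _ => (1 : ℝ)) with hf
  have hfm : Measurable f := measurable_const.indicator hΩ.measurableSet
  have hfin : volume Ω < ⊤ := hb.measure_lt_top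
  have hfi : Integrable f := (integrable_indicator_iff hΩ.measurableSet).mpr
    (integrableOn_const hfin.ne)
  have hfc : HasCompactSupport f := by
    refine HasCompactSupport.intro (K := closure Ω) hb.isCompact_closure ?_
    intro x hx
    exact Set.indicator_of_notMem (fun h => hx (subset_closure h)) _
  set u : E2 → ℝ := f ⋆[ContinuousLinearMap.lsmul ℝ ℝ, volume] (rho ε hε) with hu
  have hux : ∀ x, u x = ∫ t, f t * rho ε hε (x - t) := fun x => rfl
  refine ⟨u, ?_, ?_, ?_, ?_, ?_⟩
  · exact rho_cs.contDiff_convolution_right _ hfi.locallyIntegrable rho_smooth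
  · exact hfc.convolution _ rho_cs
  · intro x
    rw [hux]
    refine integral_nonneg fun t => mul_nonneg ?_ (rho_nonneg _)
    exact Set.indicator_nonneg (fun _ _ => zero_le_one) _
  · intro x hx
    rw [hux]
    have e : ∀ t, f t * rho ε hε (x - t) = rho ε hε (x - t) := by
      intro t
      by_cases h0 : rho ε hε (x - t) = 0
      · rw [h0, mul_zero]
      · have h1 := rho_supp _ h0
        have h2 : t ∈ ball x ε := by
          rw [mem_ball_zero_iff] at h1
          rw [mem_ball, dist_comm, dist_eq_norm]
          exact h1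
        rw [hf, Set.indicator_of_mem (hx h2), one_mul]
    simp only [e]
    rw [integral_sub_left_eq_self (rho ε hε) volume x, rho_int]
  · intro φ hφ hc hn
    set ψ : E2 → E2 := rho ε hε ⋆[ContinuousLinearMap.lsmul ℝ ℝ, volume] φ with hψ
    have h1 : ContDiff ℝ (⊤ : ℕ∞) ψ :=
      hc.contDiff_convolution_right _ rho_integrable.locallyIntegrable hφ
    have h2 : HasCompactSupport ψ := rho_cs.convolution _ hc
    have h3 : ∀ x, ‖ψ x‖ ≤ 1 := by
      intro x
      have e : ψ x = ∫ s, rho ε hε s • φ (x - s) := rfl
      rw [e]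
      calc ‖∫ s, rho ε hε s • φ (x - s)‖ ≤ ∫ s, rho ε hε s := by
            refine norm_integral_le_of_norm_le rho_integrable (Filter.Eventually.of_forall fun s => ?_)
            rw [norm_smul, Real.norm_eq_abs, abs_of_nonneg (rho_nonneg _)]
            calc _ ≤ rho ε hε s * 1 := mul_le_mul_of_nonneg_left (hn _) (rho_nonneg _)
              _ = _ := mul_one _
        _ = 1 := rho_int
    refine le_of_eq_of_le ?_ (hP ψ h1 h2 h3)
    have hdc := divg_cont hφ
    have hdi : Integrable (divg φ) := hdc.integrable_of_hasCompactSupport (divg_cs hc)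
    obtain ⟨C, hC⟩ := (rho_cs (ε := ε) (hε := hε)).exists_bound_of_continuous rho_cont
    have hF : Integrable (Function.uncurry fun (x t : E2) => f t * rho ε hε (x - t) * divg φ x)
        ((volume : Measure E2).prod volume) := by
      have hdom : Integrable (fun p : E2 × E2 => C * (|divg φ p.1| * |f p.2|))
          ((volume : Measure E2).prod volume) := (hdi.abs.mul_prod hfi.abs).const_mul C
      refine hdom.mono' ?_ (Filter.Eventually.of_forall fun p => ?_)
      · refine Measurable.aestronglyMeasurable ?_
        have m1 : Measurable (fun p : E2 × E2 => f p.2) := hfm.comp measurable_snd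
        have m2 : Measurable (fun p : E2 × E2 => rho ε hε (p.1 - p.2)) :=
          (rho_cont.comp (continuous_fst.sub continuous_snd)).measurable
        have m3 : Measurable (fun p : E2 × E2 => divg φ p.1) := hdc.measurable.comp measurable_fst
        exact (m1.mul m2).mul m3
      · simp only [Function.uncurry]
        rw [Real.norm_eq_abs, abs_mul, abs_mul]
        have := hC (p.1 - p.2)
        rw [Real.norm_eq_abs] at this
        calc |f p.2| * |rho ε hε (p.1 - p.2)| * |divg φ p.1| ≤ |f p.2| * C * |divg φ p.1| := by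
              gcongr
          _ = C * (|divg φ p.1| * |f p.2|) := by ring
    calc ∫ x, u x * divg φ x = ∫ x, ∫ t, f t * rho ε hε (x - t) * divg φ x := by
          refine integral_congr_ae (Filter.Eventually.of_forall fun x => ?_)
          beta_reduce
          rw [hux, ← integral_mul_const]
      _ = ∫ t, ∫ x, f t * rho ε hε (x - t) * divg φ x := integral_integral_swap hF
      _ = ∫ t, f t * divg ψ t := by
          refine integral_congr_ae (Filter.Eventually.of_forall fun t => ?_)
          beta_reduce
          rw [hψ, divg_conv hφ hc t]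
          have e1 : ∀ x, f t * rho ε hε (x - t) * divg φ x = f t * (rho ε hε (x - t) * divg φ x) :=
            fun x => by ring
          simp only [e1]
          rw [integral_const_mul]
          congr 1
          rw [← integral_sub_left_eq_self (fun x => rho ε hε (x - t) * divg φ x) volume t]
          refine integral_congr_ae (Filter.Eventually.of_forall fun s => ?_)
          beta_reduce
          have : t - s - t = -s := by abel
          rw [this, rho_neg]
      _ = ∫ t in Ω, divg ψ t := by
          rw [← integral_indicator hΩ.measurableSet]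
          refine integral_congr_ae (Filter.Eventually.of_forall fun t => ?_)
          beta_reduce
          by_cases ht : t ∈ Ω
          · rw [hf, Set.indicator_of_mem ht, Set.indicator_of_mem ht, one_mul]
          · rw [hf, Set.indicator_of_notMem ht, Set.indicator_of_notMem ht, zero_mul]

end Pool.Agent.T2H01.QI
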