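import Pool.Agent.T2H01.QI.Stm

/-! # QI, package MOL2 (helper77): total variation of a smooth function -/

set_option autoImplicit false

noncomputable section

open MeasureTheory Metric Set Filter Topology
open scoped NNReal ENNReal

namespace Pool.Agent.T2H01.QI

namespace MOL2

/-- the gradient -/
def gr (u : E2 → ℝ) (x : E2) : E2 := (InnerProductSpace.toDual ℝ E2).symm (fderiv ℝ u x)

lemma gr_norm (u : E2 → ℝ) (x : E2) : ‖gr u x‖ = ‖fderiv ℝ u x‖ :=
  (InnerProductSpace.toDual ℝ E2).symm.norm_map _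

lemma gr_apply (u : E2 → ℝ) (x : E2) (i : Fin 2) :
    gr u x i = fderiv ℝ u x (EuclideanSpace.single i 1) := by
  have h := InnerProductSpace.toDual_symm_apply (𝕜 := ℝ) (E := E2) (x := EuclideanSpace.single i (1 : ℝ))
    (y := fderiv ℝ u x)
  rw [← h, EuclideanSpace.inner_single_right]
  simp [gr]

lemma gr_smooth {u : E2 → ℝ} (hu : ContDiff ℝ (⊤ : ℕ∞) u) : ContDiff ℝ (⊤ : ℕ∞) (gr u) := by
  have h1 : ContDiff ℝ (⊤ : ℕ∞) (fderiv ℝ u) := hu.fderiv_right (by simp)
  exact (InnerProductSpace.toDual ℝ E2).symm.contDiff.comp h1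

lemma gr_supp {u : E2 → ℝ} (hc : HasCompactSupport u) : HasCompactSupport (gr u) := by
  have h1 : HasCompactSupport (fderiv ℝ u) := hc.fderiv (𝕜 := ℝ)
  exact h1.comp_left (g := fun L => (InnerProductSpace.toDual ℝ E2).symm L) (by simp)

/-- the test field -/
def fl (u : E2 → ℝ) (δ : ℝ) (x : E2) : E2 := (-(Real.sqrt (‖gr u x‖ ^ 2 + δ ^ 2))⁻¹) • gr u x

lemma fl_smooth {u : E2 → ℝ} (hu : ContDiff ℝ (⊤ : ℕ∞) u) {δ : ℝ} (hδ : 0 < δ) :
    ContDiff ℝ (⊤ : ℕ∞) (fl u δ) := by
  have h1 := gr_smooth hu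
  have h2 : ContDiff ℝ (⊤ : ℕ∞) fun x => ‖gr u x‖ ^ 2 + δ ^ 2 := (h1.norm_sq ℝ).add contDiff_const
  have h3 : ContDiff ℝ (⊤ : ℕ∞) fun x => Real.sqrt (‖gr u x‖ ^ 2 + δ ^ 2) :=
    h2.sqrt fun x => by positivity
  have h4 : ContDiff ℝ (⊤ : ℕ∞) fun x => (Real.sqrt (‖gr u x‖ ^ 2 + δ ^ 2))⁻¹ :=
    h3.inv fun x => by positivity
  exact h4.neg.smul h1

lemma fl_supp {u : E2 → ℝ} (hc : HasCompactSupport u) (δ : ℝ) : HasCompactSupport (fl u δ) := by
  have h1 := gr_supp hc
  exact h1.comp_left (g := fun v : E2 => (-(Real.sqrt (‖v‖ ^ 2 + δ ^ 2))⁻¹) • v) (by simp)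

lemma fl_norm (u : E2 → ℝ) {δ : ℝ} (hδ : 0 < δ) (x : E2) : ‖fl u δ x‖ ≤ 1 := by
  unfold fl
  have h0 : 0 < Real.sqrt (‖gr u x‖ ^ 2 + δ ^ 2) := by positivity
  rw [norm_smul, norm_neg, norm_inv, Real.norm_of_nonneg h0.le, inv_mul_le_iff₀ h0, mul_one]
  apply Real.le_sqrt_of_sq_le
  nlinarith [sq_nonneg δ]

lemma coord {φ : E2 → E2} (hφ : Differentiable ℝ φ) (x v : E2) (i : Fin 2) :
    fderiv ℝ (fun y => φ y i) x v = fderiv ℝ φ x v i := by
  have h1 := (EuclideanSpace.proj (𝕜 := ℝ) (ι := Fin 2) i).hasFDerivAt (x := φ x)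
  have h2 := h1.comp x (hφ x).hasFDerivAt
  have h3 := h2.fderiv
  have h4 : fderiv ℝ (fun y => φ y i) x =
      (EuclideanSpace.proj (𝕜 := ℝ) (ι := Fin 2) i).comp (fderiv ℝ φ x) := h3
  rw [h4]
  rfl

lemma parts {u : E2 → ℝ} (hu : ContDiff ℝ (⊤ : ℕ∞) u) (hc : HasCompactSupport u) {φ : E2 → E2}
    (hφ : ContDiff ℝ (⊤ : ℕ∞) φ) :
    ∫ y, u y * divg φ y = -∫ y, inner ℝ (gr u y) (φ y) := by
  have hφd : Differentiable ℝ φ := hφ.differentiable (by simp)
  have hud : Differentiable ℝ u := hu.differentiable (by simp)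
  have hφi : ∀ i : Fin 2, ContDiff ℝ (⊤ : ℕ∞) fun y => φ y i := fun i =>
    (EuclideanSpace.proj (𝕜 := ℝ) (ι := Fin 2) i).contDiff.comp hφ
  have hfu : Continuous (fderiv ℝ u) := hu.continuous_fderiv (by simp)
  have hcu : HasCompactSupport (fderiv ℝ u) := hc.fderiv (𝕜 := ℝ)
  have i1 : ∀ i : Fin 2, Integrable (fun y => u y * fderiv ℝ (fun y => φ y i) y (EuclideanSpace.single i 1)) := by
    intro i
    refine Continuous.integrable_of_hasCompactSupport ?_ hc.mul_right
    exact hud.continuous.mul (((hφi i).continuous_fderiv (by simp)).clm_apply continuous_const)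
  have i2 : ∀ i : Fin 2, Integrable (fun y => fderiv ℝ u y (EuclideanSpace.single i 1) * φ y i) := by
    intro i
    refine Continuous.integrable_of_hasCompactSupport ?_ ?_
    · exact (hfu.clm_apply continuous_const).mul (hφi i).continuous
    · refine HasCompactSupport.mul_right ?_
      exact hcu.comp_left (g := fun L : E2 →L[ℝ] ℝ => L (EuclideanSpace.single i 1)) (by simp)
  have i3 : ∀ i : Fin 2, Integrable (fun y => u y * φ y i) := by
    intro i
    refine Continuous.integrable_of_hasCompactSupport ?_ hc.mul_right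
    exact hud.continuous.mul (hφi i).continuous
  have h1 : ∀ y, u y * divg φ y =
      ∑ i : Fin 2, u y * fderiv ℝ (fun y => φ y i) y (EuclideanSpace.single i 1) := by
    intro y
    unfold divg
    rw [Finset.mul_sum]
    refine Finset.sum_congr rfl fun i _ => ?_
    rw [coord hφd]
  have h2 : ∀ y, inner ℝ (gr u y) (φ y) =
      ∑ i : Fin 2, fderiv ℝ u y (EuclideanSpace.single i 1) * φ y i := by
    intro y
    rw [PiLp.inner_apply]
    refine Finset.sum_congr rfl fun i _ => ?_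
    rw [gr_apply]
    simp [mul_comm]
  simp only [h1, h2]
  rw [integral_finset_sum _ fun i _ => i1 i, integral_finset_sum _ fun i _ => i2 i,
    ← Finset.sum_neg_distrib]
  refine Finset.sum_congr rfl fun i _ => ?_
  exact integral_mul_fderiv_eq_neg_fderiv_mul_of_integrable (i2 i) (i1 i) (i3 i)
    (fun x _ => hud x) (fun x _ => (hφi i).differentiable (by simp) x)

lemma elem (a δ : ℝ) (ha : 0 ≤ a) (hδ : 0 < δ) : a ≤ (Real.sqrt (a ^ 2 + δ ^ 2))⁻¹ * a ^ 2 + δ := by
  obtain ⟨s, hs⟩ : ∃ s, s = Real.sqrt (a ^ 2 + δ ^ 2) := ⟨_, rfl⟩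
  have h0 : 0 < s := by rw [hs]; positivity
  have h1 : s ^ 2 = a ^ 2 + δ ^ 2 := by rw [hs]; exact Real.sq_sqrt (by positivity)
  have h2 : a ≤ s := by nlinarith [sq_nonneg δ]
  have h3 : δ ≤ s := by nlinarith [sq_nonneg a]
  rw [← hs]
  have h4 : s⁻¹ * a ^ 2 = s - δ * (δ / s) := by
    field_simp
    linarith
  have h5 : δ / s ≤ 1 := by rw [div_le_one h0]; exact h3
  rw [h4]
  nlinarith

end MOL2

open MOL2 in
theorem pMOL2 : S_MOL2 := by
  intro u P hu hc hP
  have hK : IsCompact (tsupport u) := hc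
  have hV : volume (tsupport u) < ⊤ := hK.measure_lt_top
  have hmeas : MeasurableSet (tsupport u) := (isClosed_tsupport u).measurableSet
  have hfu : Continuous (fderiv ℝ u) := hu.continuous_fderiv (by simp)
  have hcu : HasCompactSupport (fderiv ℝ u) := hc.fderiv (𝕜 := ℝ)
  have key : ∀ δ : ℝ, 0 < δ → ∫ x, ‖fderiv ℝ u x‖ ≤ P + δ * volume.real (tsupport u) := by
    intro δ hδ
    have h1 := hP (fl u δ) (fl_smooth hu hδ) (fl_supp hc δ) (fl_norm u hδ)
    rw [parts hu hc (fl_smooth hu hδ)] at h1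
    have h2 : ∀ y, -inner ℝ (gr u y) (fl u δ y) =
        (Real.sqrt (‖fderiv ℝ u y‖ ^ 2 + δ ^ 2))⁻¹ * ‖fderiv ℝ u y‖ ^ 2 := by
      intro y
      unfold fl
      rw [inner_smul_right, real_inner_self_eq_norm_sq, gr_norm]
      ring
    rw [← integral_neg] at h1
    simp only [h2] at h1
    have hi1 : Integrable (fun y => (Real.sqrt (‖fderiv ℝ u y‖ ^ 2 + δ ^ 2))⁻¹ * ‖fderiv ℝ u y‖ ^ 2) := by
      refine Continuous.integrable_of_hasCompactSupport ?_ ?_
      · refine Continuous.mul ?_ (hfu.norm.pow 2)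
        refine Continuous.inv₀ (((hfu.norm.pow 2).add continuous_const).sqrt) fun y => ?_
        positivity
      · exact hcu.comp_left (g := fun L : E2 →L[ℝ] ℝ => (Real.sqrt (‖L‖ ^ 2 + δ ^ 2))⁻¹ * ‖L‖ ^ 2)
          (by simp)
    have hi2 : Integrable (fun y => (tsupport u).indicator (fun _ => δ) y) := by
      rw [integrable_indicator_iff hmeas]
      exact integrableOn_const hV.ne
    have hi3 : Integrable (fun y => ‖fderiv ℝ u y‖) :=
      (hfu.integrable_of_hasCompactSupport hcu).norm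
    calc ∫ x, ‖fderiv ℝ u x‖ ≤ ∫ y, ((Real.sqrt (‖fderiv ℝ u y‖ ^ 2 + δ ^ 2))⁻¹ * ‖fderiv ℝ u y‖ ^ 2 +
          (tsupport u).indicator (fun _ => δ) y) := by
          refine integral_mono hi3 (hi1.add hi2) fun y => ?_
          simp only
          by_cases hy : y ∈ tsupport u
          · rw [indicator_of_mem hy]
            exact elem _ _ (norm_nonneg _) hδ
          · have hz : fderiv ℝ u y = 0 := by
              by_contra hne
              exact hy (support_fderiv_subset ℝ (Function.mem_support.2 hne))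
            rw [indicator_of_notMem hy, hz]
            simp
      _ = (∫ y, (Real.sqrt (‖fderiv ℝ u y‖ ^ 2 + δ ^ 2))⁻¹ * ‖fderiv ℝ u y‖ ^ 2) +
          ∫ y, (tsupport u).indicator (fun _ => δ) y := integral_add hi1 hi2
      _ ≤ P + δ * volume.real (tsupport u) := by
          refine add_le_add h1 (le_of_eq ?_)
          rw [integral_indicator hmeas, setIntegral_const, smul_eq_mul, mul_comm]
  refine le_of_forall_pos_le_add fun ε hε => ?_
  have hv0 : 0 ≤ volume.real (tsupport u) := measureReal_nonneg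
  have h3 := key (ε / (volume.real (tsupport u) + 1)) (by positivity)
  refine h3.trans (add_le_add le_rfl ?_)
  rw [div_mul_eq_mul_div, div_le_iff₀ (by positivity)]
  nlinarith

end Pool.Agent.T2H01.QI
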