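import Pool.Agent.T2H01.QI.Stm2

set_option autoImplicit false

noncomputable section

open MeasureTheory Metric Set Filter Topology
open scoped NNReal ENNReal

namespace Pool.Agent.T2H01.QI

namespace MOM

/-- the radial primitive -/
def V (k : ℕ) (α₀ α₁ t : ℝ) : ℝ := α₀ * t ^ (k + 2) / (k + 2) + α₁ * t ^ (k + 4) / (k + 4)

/-- the angular weight -/
def w (k : ℕ) (c : ℂ) (θ : ℝ) : ℝ := (c * Complex.exp (Complex.I * (k * θ))).re

lemma zc_polar (a : E2) (s θ : ℝ) :
    zc (a + s • dir θ) - zc a = (s : ℂ) * Complex.exp (Complex.I * θ) := by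
  rw [mul_comm Complex.I, Complex.exp_mul_I]
  apply Complex.ext
  · simp [zc, dir, ← Complex.ofReal_cos, ← Complex.ofReal_sin]
  · simp [zc, dir, ← Complex.ofReal_cos, ← Complex.ofReal_sin]

lemma hp_polar (k : ℕ) (c : ℂ) (a : E2) (s θ : ℝ) : hp k c a (a + s • dir θ) = s ^ k * w k c θ := by
  unfold hp w
  rw [zc_polar, mul_pow, ← Complex.exp_nat_mul]
  have e : c * ((s : ℂ) ^ k * Complex.exp (k * (Complex.I * θ))) =
      ((s ^ k : ℝ) : ℂ) * (c * Complex.exp (Complex.I * (k * θ))) := by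
    push_cast
    rw [show (k : ℂ) * (Complex.I * θ) = Complex.I * (k * θ) from by ring]
    ring
  rw [e, Complex.re_ofReal_mul]

lemma norm_dir (θ : ℝ) : ‖dir θ‖ = 1 := by
  rw [EuclideanSpace.norm_eq, Fin.sum_univ_two]
  simp [dir]

lemma norm_polar (a : E2) (s θ : ℝ) : ‖a + s • dir θ - a‖ ^ 2 = s ^ 2 := by
  rw [add_sub_cancel_left, norm_smul, norm_dir, mul_one, Real.norm_eq_abs, sq_abs]

lemma w_eq (k : ℕ) (c : ℂ) (θ : ℝ) : w k c θ = c.re * Real.cos (k * θ) - c.im * Real.sin (k * θ) := by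
  unfold w
  rw [mul_comm Complex.I, show ((k : ℂ) * (θ : ℂ)) = ((k * θ : ℝ) : ℂ) from by push_cast; rfl,
    Complex.mul_re, Complex.exp_ofReal_mul_I_re, Complex.exp_ofReal_mul_I_im]

lemma w_cont (k : ℕ) (c : ℂ) : Continuous (w k c) := by
  have : w k c = fun θ => c.re * Real.cos (k * θ) - c.im * Real.sin (k * θ) := funext (w_eq k c)
  rw [this]
  fun_prop

lemma w_le (k : ℕ) (c : ℂ) (hc : ‖c‖ ≤ 1) (θ : ℝ) : |w k c θ| ≤ 1 := by
  unfold w
  refine (Complex.abs_re_le_norm _).trans ?_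
  rw [norm_mul, mul_comm Complex.I, show ((k : ℂ) * (θ : ℂ)) = ((k * θ : ℝ) : ℂ) from by push_cast; rfl,
    Complex.norm_exp_ofReal_mul_I, mul_one]
  exact hc

lemma w_int (k : ℕ) (c : ℂ) : ∫ θ in (0 : ℝ)..(2 * Real.pi), w k c θ =
    if k = 0 then 2 * Real.pi * c.re else 0 := by
  have : w k c = fun θ => c.re * Real.cos (k * θ) - c.im * Real.sin (k * θ) := funext (w_eq k c)
  rw [this]
  split_ifs with hk
  · subst hk
    simp
  · have hk' : (k : ℝ) ≠ 0 := by exact_mod_cast hk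
    have h1 : ∫ θ in (0 : ℝ)..(2 * Real.pi), Real.cos (k * θ) = 0 := by
      rw [intervalIntegral.integral_comp_mul_left (f := Real.cos) hk', integral_cos, mul_zero, Real.sin_zero]
      have : (k : ℝ) * (2 * Real.pi) = ((2 * k : ℕ) : ℝ) * Real.pi := by push_cast; ring
      rw [this, Real.sin_nat_mul_pi]
      simp
    have h2 : ∫ θ in (0 : ℝ)..(2 * Real.pi), Real.sin (k * θ) = 0 := by
      rw [intervalIntegral.integral_comp_mul_left (f := Real.sin) hk', integral_sin, mul_zero, Real.cos_zero,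
        Real.cos_nat_mul_two_pi]
      simp
    rw [intervalIntegral.integral_sub, intervalIntegral.integral_const_mul,
      intervalIntegral.integral_const_mul, h1, h2]
    · simp
    · exact (by fun_prop : Continuous fun θ : ℝ => c.re * Real.cos (k * θ)).intervalIntegrable _ _
    · exact (by fun_prop : Continuous fun θ : ℝ => c.im * Real.sin (k * θ)).intervalIntegrable _ _

lemma inner_int (k : ℕ) (α₀ α₁ ww R : ℝ) :
    ∫ s in (0 : ℝ)..R, s * (s ^ k * ww * (α₀ + α₁ * s ^ 2)) = ww * V k α₀ α₁ R := by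
  have e : ∀ s : ℝ, s * (s ^ k * ww * (α₀ + α₁ * s ^ 2)) =
      ww * α₀ * s ^ (k + 1) + ww * α₁ * s ^ (k + 3) := fun s => by ring
  simp_rw [e]
  rw [intervalIntegral.integral_add, intervalIntegral.integral_const_mul,
    intervalIntegral.integral_const_mul, integral_pow, integral_pow]
  · unfold V
    have z1 : (0 : ℝ) ^ (k + 1 + 1) = 0 := by simp
    have z2 : (0 : ℝ) ^ (k + 3 + 1) = 0 := by simp
    rw [z1, z2]
    push_cast
    have a1 : (k : ℝ) + 1 + 1 = k + 2 := by ring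
    have a2 : (k : ℝ) + 3 + 1 = k + 4 := by ring
    rw [a1, a2]
    ring
  · exact (by fun_prop : Continuous fun s : ℝ => ww * α₀ * s ^ (k + 1)).intervalIntegrable _ _
  · exact (by fun_prop : Continuous fun s : ℝ => ww * α₁ * s ^ (k + 3)).intervalIntegrable _ _

lemma zc_cont : Continuous zc := by
  have : zc = fun x : E2 => ((x 0 : ℝ) : ℂ) + ((x 1 : ℝ) : ℂ) * Complex.I := by
    funext x
    apply Complex.ext <;> simp [zc]
  rw [this]
  fun_prop

lemma f_cont (k : ℕ) (c : ℂ) (a : E2) (α₀ α₁ : ℝ) :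
    Continuous fun x => hp k c a x * (α₀ + α₁ * ‖x - a‖ ^ 2) := by
  have h1 : Continuous (hp k c a) := by
    unfold hp
    have := zc_cont
    fun_prop
  fun_prop

lemma V_cont (k : ℕ) (α₀ α₁ : ℝ) : Continuous (V k α₀ α₁) := by
  unfold V
  fun_prop

end MOM

open MOM in
theorem pMOM (hPOL : S_POL) (hTAY : S_TAY) : S_MOM := by
  intro a g r k c α₀ α₁ hg hper hr hgr hc
  have hk4 : (0 : ℝ) < k + 4 := by positivity
  have hpos : ∀ θ, 0 < r + g θ := by
    intro θ
    have h1 := (abs_le.1 (hgr θ)).1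
    have h2 : r / ((k : ℝ) + 4) < r := by
      rw [div_lt_iff₀ hk4]
      nlinarith [(Nat.cast_nonneg k : (0 : ℝ) ≤ k)]
    linarith
  have h := (hPOL a (fun θ => r + g θ) (by fun_prop) (fun θ => by simp only [hper θ]) hpos).2
    (fun x => hp k c a x * (α₀ + α₁ * ‖x - a‖ ^ 2)) (f_cont k c a α₀ α₁)
  rw [h]
  simp only [hp_polar, norm_polar]
  simp_rw [inner_int]
  have hwc := w_cont k c
  have hVc : Continuous fun θ => V k α₀ α₁ (r + g θ) := (V_cont k α₀ α₁).comp (by fun_prop)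
  have hcf : cf g k c = ∫ θ in (0 : ℝ)..(2 * Real.pi), g θ * w k c θ := rfl
  have e1 : (if k = 0 then 2 * Real.pi * c.re * (α₀ * r ^ 2 / 2 + α₁ * r ^ 4 / 4) else 0) =
      ∫ θ in (0 : ℝ)..(2 * Real.pi), w k c θ * V k α₀ α₁ r := by
    rw [intervalIntegral.integral_mul_const, w_int]
    split_ifs with hk
    · subst hk
      unfold V
      norm_num
    · simp
  have e2 : r ^ (k + 1) * (α₀ + α₁ * r ^ 2) * cf g k c =
      ∫ θ in (0 : ℝ)..(2 * Real.pi), r ^ (k + 1) * (α₀ + α₁ * r ^ 2) * (g θ * w k c θ) := by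
    rw [intervalIntegral.integral_const_mul, hcf]
  rw [e1, e2, ← intervalIntegral.integral_sub, ← intervalIntegral.integral_sub,
    ← intervalIntegral.integral_const_mul]
  · rw [← Real.norm_eq_abs]
    have h2pi : (0 : ℝ) ≤ 2 * Real.pi := by positivity
    refine intervalIntegral.norm_integral_le_of_norm_le h2pi ?_ ?_
    · refine Filter.Eventually.of_forall fun θ _ => ?_
      have ht := hTAY k r α₀ α₁ (g θ) hr (hgr θ)
      have e3 : w k c θ * V k α₀ α₁ (r + g θ) - w k c θ * V k α₀ α₁ r -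
          r ^ (k + 1) * (α₀ + α₁ * r ^ 2) * (g θ * w k c θ) =
          w k c θ * ((α₀ * (r + g θ) ^ (k + 2) / (k + 2) + α₁ * (r + g θ) ^ (k + 4) / (k + 4)) -
            (α₀ * r ^ (k + 2) / (k + 2) + α₁ * r ^ (k + 4) / (k + 4)) -
            r ^ (k + 1) * (α₀ + α₁ * r ^ 2) * g θ) := by
        unfold V
        ring
      rw [e3, norm_mul, Real.norm_eq_abs, Real.norm_eq_abs]
      calc |w k c θ| * _ ≤ 1 * _ := mul_le_mul_of_nonneg_right (w_le k c hc θ) (abs_nonneg _)
        _ ≤ _ := by rw [one_mul]; exact ht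
    · exact (by fun_prop : Continuous fun θ : ℝ => (3 / 2) * r ^ k *
        ((k + 1) * |α₀| + (k + 3) * |α₁| * r ^ 2) * g θ ^ 2).intervalIntegrable _ _
  · exact (by fun_prop : Continuous fun θ : ℝ => w k c θ * V k α₀ α₁ (r + g θ) -
      w k c θ * V k α₀ α₁ r).intervalIntegrable _ _
  · exact (by fun_prop : Continuous fun θ : ℝ => r ^ (k + 1) * (α₀ + α₁ * r ^ 2) *
      (g θ * w k c θ)).intervalIntegrable _ _
  · exact (by fun_prop : Continuous fun θ : ℝ => w k c θ * V k α₀ α₁ (r + g θ)).intervalIntegrable _ _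
  · exact (by fun_prop : Continuous fun θ : ℝ => w k c θ * V k α₀ α₁ r).intervalIntegrable _ _

end Pool.Agent.T2H01.QI
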