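import Pool.Agent.T2H01.QI.Stm

set_option autoImplicit false

noncomputable section

open MeasureTheory Metric Set Filter Topology
open scoped NNReal ENNReal

namespace Pool.Agent.T2H01.QI

namespace NEG

/-- The approximation of the negative part. -/
def Fe (ε t : ℝ) : ℝ := Real.sqrt ((min t 0) ^ 2 + ε ^ 2) - ε

theorem hasDerivAt_sq (t : ℝ) : HasDerivAt (fun s : ℝ => (min s 0) ^ 2) (2 * min t 0) t := by
  rcases lt_trichotomy t 0 with h | h | h
  · have h1 : HasDerivAt (fun s : ℝ => s ^ 2) (2 * t) t := by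
      simpa using hasDerivAt_pow 2 t
    rw [min_eq_left h.le]
    refine h1.congr_of_eventuallyEq ?_
    filter_upwards [Iio_mem_nhds h] with s hs
    rw [min_eq_left (le_of_lt hs)]
  · subst h
    rw [min_self, mul_zero, hasDerivAt_iff_isLittleO_nhds_zero]
    have h2 : (fun h : ℝ => (min (0 + h) 0) ^ 2 - (min (0 : ℝ) 0) ^ 2 - h • (0 : ℝ))
        =O[𝓝 0] (fun h : ℝ => h ^ 2) := by
      apply Asymptotics.IsBigO.of_bound 1
      filter_upwards with h
      simp only [zero_add, min_self, smul_zero, sub_zero, ne_eq, OfNat.ofNat_ne_zero,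
        not_false_eq_true, zero_pow, one_mul, norm_pow, Real.norm_eq_abs]
      have : |min h 0| ≤ |h| := by
        rcases le_total h 0 with h' | h'
        · rw [min_eq_left h']
        · rw [min_eq_right h']; simp
      gcongr
    exact h2.trans_isLittleO (Asymptotics.isLittleO_pow_id one_lt_two)
  · rw [min_eq_right h.le, mul_zero]
    refine (hasDerivAt_const t (0 : ℝ)).congr_of_eventuallyEq ?_
    filter_upwards [Ioi_mem_nhds h] with s hs
    rw [min_eq_right (le_of_lt hs)]
    simp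

theorem hasDerivAt_Fe (ε : ℝ) (hε : 0 < ε) (t : ℝ) :
    HasDerivAt (Fe ε) (min t 0 / Real.sqrt ((min t 0) ^ 2 + ε ^ 2)) t := by
  have hpos : (min t 0) ^ 2 + ε ^ 2 ≠ 0 := by positivity
  have h1 := ((hasDerivAt_sq t).add_const (ε ^ 2)).sqrt hpos
  have h2 := h1.sub_const ε
  rw [← mul_div_mul_left (min t 0) (Real.sqrt ((min t 0) ^ 2 + ε ^ 2)) (two_ne_zero' ℝ)]
  exact h2

theorem deriv_Fe (ε : ℝ) (hε : 0 < ε) (t : ℝ) :
    deriv (Fe ε) t = min t 0 / Real.sqrt ((min t 0) ^ 2 + ε ^ 2) :=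
  (hasDerivAt_Fe ε hε t).deriv

theorem contDiff_Fe (ε : ℝ) (hε : 0 < ε) : ContDiff ℝ 1 (Fe ε) := by
  rw [contDiff_one_iff_deriv]
  refine ⟨fun t => (hasDerivAt_Fe ε hε t).differentiableAt, ?_⟩
  have : deriv (Fe ε) = fun t => min t 0 / Real.sqrt ((min t 0) ^ 2 + ε ^ 2) := by
    funext t
    exact deriv_Fe ε hε t
  rw [this]
  refine Continuous.div (by fun_prop) (by fun_prop) ?_
  intro t
  positivity

theorem abs_deriv_le (ε : ℝ) (hε : 0 < ε) (t : ℝ) : |deriv (Fe ε) t| ≤ 1 := by
  rw [deriv_Fe ε hε, abs_div, abs_of_nonneg (Real.sqrt_nonneg _)]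
  apply div_le_one_of_le₀ _ (Real.sqrt_nonneg _)
  apply Real.abs_le_sqrt
  nlinarith [sq_nonneg ε]

theorem abs_min_le (t : ℝ) : |min t 0| ≤ |t| := by
  rcases le_total t 0 with h' | h'
  · rw [min_eq_left h']
  · rw [min_eq_right h']; simp

theorem abs_Fe_le (ε : ℝ) (hε : 0 < ε) (t : ℝ) : |Fe ε t| ≤ |t| := by
  refine le_trans ?_ (abs_min_le t)
  unfold Fe
  rw [abs_le]
  constructor
  · have : ε ≤ Real.sqrt ((min t 0) ^ 2 + ε ^ 2) := by
      apply Real.le_sqrt_of_sq_le
      nlinarith [sq_nonneg (min t 0)]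
    have := abs_nonneg (min t 0)
    linarith
  · have : Real.sqrt ((min t 0) ^ 2 + ε ^ 2) ≤ |min t 0| + ε := by
      apply Real.sqrt_le_iff.mpr
      constructor
      · positivity
      · have h1 : (min t 0) ^ 2 = |min t 0| ^ 2 := (sq_abs _).symm
        rw [h1]
        nlinarith [abs_nonneg (min t 0)]
    linarith

theorem neg_part_eq (t : ℝ) : max (-t) 0 = |min t 0| := by
  rcases le_total t 0 with h' | h'
  · rw [min_eq_left h', max_eq_left (by linarith), abs_of_nonpos h']
  · rw [min_eq_right h', max_eq_right (by linarith)]; simp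

theorem tendsto_Fe (t : ℝ) : Tendsto (fun n : ℕ => Fe (1 / ((n : ℝ) + 1)) t) atTop
    (𝓝 (max (-t) 0)) := by
  have h0 : Tendsto (fun n : ℕ => (1 : ℝ) / ((n : ℝ) + 1)) atTop (𝓝 0) :=
    tendsto_one_div_add_atTop_nhds_zero_nat
  have hc : Continuous (fun e : ℝ => Fe e t) := by
    unfold Fe
    fun_prop
  have := (hc.tendsto 0).comp h0
  have e : Fe 0 t = max (-t) 0 := by
    unfold Fe
    rw [neg_part_eq]
    simp [Real.sqrt_sq_eq_abs]
  rw [e] at this
  exact this

theorem tendsto_deriv (t : ℝ) : Tendsto (fun n : ℕ => deriv (Fe (1 / ((n : ℝ) + 1))) t) atTop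
    (𝓝 (if t < 0 then -1 else 0)) := by
  have h0 : Tendsto (fun n : ℕ => (1 : ℝ) / ((n : ℝ) + 1)) atTop (𝓝 0) :=
    tendsto_one_div_add_atTop_nhds_zero_nat
  have e1 : (fun n : ℕ => deriv (Fe (1 / ((n : ℝ) + 1))) t)
      = fun n : ℕ => min t 0 / Real.sqrt ((min t 0) ^ 2 + (1 / ((n : ℝ) + 1)) ^ 2) := by
    funext n
    exact deriv_Fe _ (by positivity) t
  rw [e1]
  split_ifs with h
  · have hc : ContinuousAt (fun e : ℝ => min t 0 / Real.sqrt ((min t 0) ^ 2 + e ^ 2)) 0 := by
      apply ContinuousAt.div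
      · fun_prop
      · fun_prop
      · rw [min_eq_left h.le]
        have : 0 < t ^ 2 := by have := mul_pos_of_neg_of_neg h h; nlinarith
        have h2 : 0 < t ^ 2 + (0 : ℝ) ^ 2 := by linarith [this, sq_nonneg (0 : ℝ)]
        exact (Real.sqrt_pos.mpr h2).ne'
    have h3 := hc.tendsto.comp h0
    have e : min t 0 / Real.sqrt ((min t 0) ^ 2 + (0 : ℝ) ^ 2) = -1 := by
      rw [min_eq_left h.le]
      have : Real.sqrt (t ^ 2 + (0 : ℝ) ^ 2) = -t := by
        rw [show t ^ 2 + (0 : ℝ) ^ 2 = (-t) ^ 2 by ring]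
        exact Real.sqrt_sq (by linarith)
      rw [this, div_neg, div_self h.ne]
    rw [e] at h3
    exact h3
  · have : min t 0 = 0 := min_eq_right (not_lt.mp h)
    simp [this]

end NEG

open NEG in
theorem pNEG (hCHN : S_CHN) : S_NEG := by
  intro Ω hO hB u G hu
  have hfin : IsFiniteMeasure (volume.restrict Ω) :=
    ⟨by rw [Measure.restrict_apply_univ]; exact hB.measure_lt_top⟩
  obtain ⟨hu2, hG2, hid⟩ := hu
  have huI : Integrable u (volume.restrict Ω) := hu2.integrable (by norm_num)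
  have hGI : Integrable G (volume.restrict Ω) := hG2.integrable (by norm_num)
  have hmain : ∀ n : ℕ, IsH1 Ω (fun x => Fe (1 / ((n : ℝ) + 1)) (u x))
      (fun x => deriv (Fe (1 / ((n : ℝ) + 1))) (u x) • G x) := fun n =>
    hCHN Ω hO hB u G ⟨hu2, hG2, hid⟩ _ 1 (contDiff_Fe _ (by positivity))
      (abs_deriv_le _ (by positivity))
  have hnm : NullMeasurableSet {x | u x < 0} (volume.restrict Ω) :=
    nullMeasurableSet_lt hu2.aestronglyMeasurable.aemeasurable aemeasurable_const
  refine ⟨?_, ?_, ?_⟩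
  · have := hu2.neg_part
    exact this
  · have hind : (fun x => if u x < 0 then -G x else 0) = ({x | u x < 0}).indicator (fun x => -G x) := by
      funext x
      by_cases h : u x < 0
      · simp [h]
      · simp [h]
    have hm : AEStronglyMeasurable (fun x => if u x < 0 then -G x else 0) (volume.restrict Ω) := by
      rw [hind]
      exact (hG2.aestronglyMeasurable.neg).indicator₀ hnm
    refine hG2.mono hm ?_
    filter_upwards with x
    split_ifs
    · simp
    · simp
  · intro ψ hψ hc hs i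
    set ei : E2 := EuclideanSpace.single i 1 with hei
    have hd : Continuous (fun x => fderiv ℝ ψ x ei) := by
      have : Continuous (fderiv ℝ ψ) := hψ.continuous_fderiv (by simp)
      fun_prop
    obtain ⟨C, hC⟩ : ∃ C, ∀ x, ‖fderiv ℝ ψ x ei‖ ≤ C := by
      obtain ⟨C, hC⟩ := (hc.fderiv ℝ).exists_bound_of_continuous
        (hψ.continuous_fderiv (by simp))
      refine ⟨C * ‖ei‖, fun x => ?_⟩
      exact ((fderiv ℝ ψ x).le_opNorm ei).trans
        (mul_le_mul_of_nonneg_right (hC x) (norm_nonneg _))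
    obtain ⟨C', hC'⟩ := hc.exists_bound_of_continuous hψ.continuous
    have hL : Tendsto (fun n : ℕ => ∫ x in Ω, Fe (1 / ((n : ℝ) + 1)) (u x) * fderiv ℝ ψ x ei) atTop
        (𝓝 (∫ x in Ω, max (-u x) 0 * fderiv ℝ ψ x ei)) := by
      apply tendsto_integral_of_dominated_convergence (fun x => ‖u x‖ * C)
      · intro n
        exact (hmain n).1.aestronglyMeasurable.mul hd.aestronglyMeasurable
      · exact huI.norm.mul_const C
      · intro n
        filter_upwards with x
        rw [norm_mul]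
        have h1 : ‖Fe (1 / ((n : ℝ) + 1)) (u x)‖ ≤ ‖u x‖ := abs_Fe_le _ (by positivity) _
        exact mul_le_mul h1 (hC x) (norm_nonneg _) (norm_nonneg _)
      · filter_upwards with x
        exact (tendsto_Fe (u x)).mul_const _
    have hR : Tendsto (fun n : ℕ => ∫ x in Ω,
        (deriv (Fe (1 / ((n : ℝ) + 1))) (u x) • G x) i * ψ x) atTop
        (𝓝 (∫ x in Ω, (if u x < 0 then -G x else 0) i * ψ x)) := by
      apply tendsto_integral_of_dominated_convergence (fun x => ‖G x‖ * C')
      · intro n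
        have h1 := (hmain n).2.1.aestronglyMeasurable
        have h2 : AEStronglyMeasurable (fun x => (deriv (Fe (1 / ((n : ℝ) + 1))) (u x) • G x) i)
            (volume.restrict Ω) :=
          (EuclideanSpace.proj (𝕜 := ℝ) i).continuous.comp_aestronglyMeasurable h1
        exact h2.mul hψ.continuous.aestronglyMeasurable
      · exact hGI.norm.mul_const C'
      · intro n
        filter_upwards with x
        rw [norm_mul]
        have h0 : |deriv (Fe (1 / ((n : ℝ) + 1))) (u x)| ≤ 1 := abs_deriv_le _ (by positivity) _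
        have h1 : ‖(deriv (Fe (1 / ((n : ℝ) + 1))) (u x) • G x) i‖ ≤ ‖G x‖ := by
          refine (PiLp.norm_apply_le _ i).trans ?_
          rw [norm_smul, Real.norm_eq_abs]
          calc |deriv (Fe (1 / ((n : ℝ) + 1))) (u x)| * ‖G x‖ ≤ 1 * ‖G x‖ :=
            mul_le_mul_of_nonneg_right h0 (norm_nonneg _)
            _ = ‖G x‖ := one_mul _
        exact mul_le_mul h1 (hC' x) (norm_nonneg _) (norm_nonneg _)
      · filter_upwards with x
        have h1 := tendsto_deriv (u x)
        have h2 : Tendsto (fun n : ℕ => (deriv (Fe (1 / ((n : ℝ) + 1))) (u x) • G x) i) atTop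
            (𝓝 ((if u x < 0 then -G x else 0) i)) := by
          have e : (if u x < 0 then -G x else 0) i = (if u x < 0 then (-1 : ℝ) else 0) * G x i := by
            split_ifs <;> simp
          rw [e]
          exact h1.mul_const (G x i)
        exact h2.mul_const _
    have heq : ∀ n : ℕ, ∫ x in Ω, Fe (1 / ((n : ℝ) + 1)) (u x) * fderiv ℝ ψ x ei
        = -∫ x in Ω, (deriv (Fe (1 / ((n : ℝ) + 1))) (u x) • G x) i * ψ x := fun n =>
      (hmain n).2.2 ψ hψ hc hs i
    have hL' : Tendsto (fun n : ℕ => ∫ x in Ω, Fe (1 / ((n : ℝ) + 1)) (u x) * fderiv ℝ ψ x ei) atTop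
        (𝓝 (-∫ x in Ω, (if u x < 0 then -G x else 0) i * ψ x)) := by
      simp_rw [heq]
      exact hR.neg
    exact tendsto_nhds_unique hL hL'

end Pool.Agent.T2H01.QI
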