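import Pool.Agent.T2H01.QI.Stm2

/-! # QI package NRM: a smooth function separating a component from the rest of the set -/

set_option autoImplicit false

noncomputable section

open MeasureTheory Metric Set Filter Topology
open scoped NNReal ENNReal Manifold ContDiff

namespace Pool.Agent.T2H01.QI

namespace NRM

theorem sep (hLOC : S_LOC) {Ω : Set E2} (hΩ : IsLip Ω) {z : E2} :
    Disjoint (closure (Ω \ connectedComponentIn Ω z)) (closure (connectedComponentIn Ω z)) := by
  obtain ⟨hop, -, -⟩ := id hΩ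
  rw [Set.disjoint_left]
  intro x hxR hxC
  by_cases hx : x ∈ Ω
  · have hD : IsOpen (connectedComponentIn Ω x) := hop.connectedComponentIn
    have hxD : x ∈ connectedComponentIn Ω x := mem_connectedComponentIn hx
    obtain ⟨c, hc, hcC⟩ := mem_closure_iff.1 hxC _ hD hxD
    obtain ⟨d, hd, hdR⟩ := mem_closure_iff.1 hxR _ hD hxD
    have e1 := connectedComponentIn_eq hc
    have e2 := connectedComponentIn_eq hcC
    apply hdR.2
    rw [e2, ← e1]
    exact hd
  · have hcl : x ∈ closure Ω := closure_mono (connectedComponentIn_subset Ω z) hxC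
    have hfr : x ∈ frontier Ω := by
      rw [hop.frontier_eq]
      exact ⟨hcl, hx⟩
    obtain ⟨ρ, hρ, w, hw, hsub⟩ := hLOC Ω hΩ x hfr
    have hb : x ∈ ball x ρ := mem_ball_self hρ
    obtain ⟨c, hc, hcC⟩ := mem_closure_iff.1 hxC _ isOpen_ball hb
    obtain ⟨d, hd, hdR⟩ := mem_closure_iff.1 hxR _ isOpen_ball hb
    have hc' := hsub ⟨hc, connectedComponentIn_subset Ω z hcC⟩
    have hd' := hsub ⟨hd, hdR.1⟩
    have e1 := connectedComponentIn_eq hc'
    have e2 := connectedComponentIn_eq hcC
    apply hdR.2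
    rw [e2, ← e1]
    exact hd'

end NRM

theorem pNRM (hLOC : S_LOC) (_hCMP : S_CMP) : S_NRM := by
  intro Ω hΩ z hz
  obtain ⟨f, h0, h1, -⟩ := exists_contMDiffMap_zero_one_nhds_of_isClosed (n := (⊤ : ℕ∞))
    (𝓘(ℝ, E2)) (isClosed_closure (s := Ω \ connectedComponentIn Ω z))
    (isClosed_closure (s := connectedComponentIn Ω z)) (NRM.sep hLOC hΩ)
  refine ⟨f, f.contMDiff.contDiff, ?_, ?_⟩
  · intro x hx
    exact h1.filter_mono (nhds_le_nhdsSet hx)
  · intro x hx
    exact h0.filter_mono (nhds_le_nhdsSet hx)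

end Pool.Agent.T2H01.QI
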