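import Pool.Agent.T2H01.QI.Stm2

set_option autoImplicit false

noncomputable section

open MeasureTheory Metric Set Filter Topology
open scoped NNReal ENNReal

namespace Pool.Agent.T2H01.QI

theorem pOPT : S_OPT := by
  intro C₀ C₂ r₀ h0 h2 hr
  obtain ⟨ε, hε0, hε1, hε2, hε3⟩ : ∃ ε : ℝ, 0 < ε ∧ ε ≤ 1 ∧ 625 * C₂ * ε ≤ r₀ ^ 2 ∧
      36 * C₀ ^ 2 * C₂ * ε ≤ r₀ ^ 2 := by
    refine ⟨min 1 (min (r₀ ^ 2 / (625 * C₂)) (r₀ ^ 2 / (36 * C₀ ^ 2 * C₂))), ?_, min_le_left _ _, ?_, ?_⟩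
    · refine lt_min one_pos (lt_min ?_ ?_) <;> positivity
    · have h : min 1 (min (r₀ ^ 2 / (625 * C₂)) (r₀ ^ 2 / (36 * C₀ ^ 2 * C₂))) ≤ r₀ ^ 2 / (625 * C₂) :=
        (min_le_right _ _).trans (min_le_left _ _)
      rw [le_div_iff₀ (by positivity)] at h
      linarith
    · have h : min 1 (min (r₀ ^ 2 / (625 * C₂)) (r₀ ^ 2 / (36 * C₀ ^ 2 * C₂))) ≤
          r₀ ^ 2 / (36 * C₀ ^ 2 * C₂) :=
        (min_le_right _ _).trans (min_le_right _ _)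
      rw [le_div_iff₀ (by positivity)] at h
      linarith
  refine ⟨ε ^ 3, 2 * (2 * C₀ ^ 2 * C₂ ^ 2 * ε + 8 * C₂ / ε ^ 2), by positivity, by positivity, ?_⟩
  intro δ D M a hδ hδs hD hDC hM hMD hak hK
  obtain ⟨t, ht0, ht3, ht5⟩ : ∃ t : ℝ, 0 < t ∧ t ^ 3 = δ ∧ δ ^ (5 / 3 : ℝ) = t ^ 5 := by
    refine ⟨δ ^ (1 / 3 : ℝ), by positivity, ?_, ?_⟩
    · rw [← Real.rpow_natCast, ← Real.rpow_mul hδ.le]; norm_num
    · rw [← Real.rpow_natCast, ← Real.rpow_mul hδ.le]; norm_num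
  have htε : t ≤ ε := by
    have h : t ^ 3 ≤ ε ^ 3 := by rw [ht3]; exact hδs
    exact (pow_le_pow_iff_left₀ ht0.le hε0.le (by norm_num)).1 h
  rw [ht5]
  obtain ⟨κ, hκ⟩ : ∃ κ : ℝ, κ = ε / t := ⟨_, rfl⟩
  have hκt : κ * t = ε := by rw [hκ]; field_simp
  have hκ1 : 1 ≤ κ := by rw [hκ, le_div_iff₀ ht0]; linarith
  have hκ0 : 0 < κ := by linarith
  have hK1 : 1 ≤ ⌊κ⌋₊ := (Nat.one_le_floor_iff κ).2 hκ1
  have hKle : ((⌊κ⌋₊ : ℕ) : ℝ) ≤ κ := Nat.floor_le hκ0.le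
  have hKlt : κ < (⌊κ⌋₊ : ℕ) + 1 := Nat.lt_floor_add_one κ
  obtain ⟨K, hKdef⟩ : ∃ K : ℕ, K = ⌊κ⌋₊ := ⟨_, rfl⟩
  rw [← hKdef] at hK1 hKle hKlt
  have hK1R : (1 : ℝ) ≤ K := by exact_mod_cast hK1
  have hKge : κ / 2 ≤ K := by linarith
  have hDt : D ≤ C₂ * t ^ 3 := by rw [ht3]; exact hDC
  have hMt : M ≤ C₂ * t ^ 3 := hMD.trans hDt
  -- the terms
  have hterm : ∀ k ∈ Finset.Icc 2 K, a k ≤ 2 * C₀ ^ 2 * (C₂ ^ 2 * t ^ 6 + 9 * κ ^ 2 * M ^ 2 / r₀ ^ 2) := by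
    intro k hk
    rw [Finset.mem_Icc] at hk
    have hkR : (k : ℝ) ≤ K := by exact_mod_cast hk.2
    have hkκ : (k : ℝ) ≤ κ := hkR.trans hKle
    have hk0 : (0 : ℝ) ≤ k := Nat.cast_nonneg k
    have hcond : 5 * ((k : ℝ) + 4) * Real.sqrt D ≤ r₀ := by
      have hsq : (5 * ((k : ℝ) + 4) * Real.sqrt D) ^ 2 ≤ r₀ ^ 2 := by
        rw [mul_pow, Real.sq_sqrt hD]
        have e1 : (5 * ((k : ℝ) + 4)) ^ 2 ≤ (25 * κ) ^ 2 := by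
          apply pow_le_pow_left₀ (by positivity)
          linarith
        calc (5 * ((k : ℝ) + 4)) ^ 2 * D ≤ (25 * κ) ^ 2 * (C₂ * t ^ 3) :=
              mul_le_mul e1 hDt hD (by positivity)
          _ = 625 * C₂ * (κ * t) ^ 2 * t := by ring
          _ = 625 * C₂ * ε * (ε * t) := by rw [hκt]; ring
          _ ≤ 625 * C₂ * ε * 1 := by
              apply mul_le_mul_of_nonneg_left _ (by positivity)
              calc ε * t ≤ 1 * 1 := mul_le_mul hε1 (htε.trans hε1) ht0.le (by norm_num)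
                _ = 1 := by norm_num
          _ ≤ r₀ ^ 2 := by linarith
      exact (pow_le_pow_iff_left₀ (by positivity) hr.le (by norm_num)).1 hsq
    refine (hak k hk.1 hcond).trans ?_
    have e2 : (C₂ * δ + ((k : ℝ) + 2) * M / r₀) ^ 2 ≤
        2 * ((C₂ * δ) ^ 2 + (((k : ℝ) + 2) * M / r₀) ^ 2) := by
      nlinarith [sq_nonneg (C₂ * δ - ((k : ℝ) + 2) * M / r₀)]
    have e3 : (((k : ℝ) + 2) * M / r₀) ^ 2 ≤ 9 * κ ^ 2 * M ^ 2 / r₀ ^ 2 := by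
      have e4 : ((k : ℝ) + 2) * M / r₀ ≤ 3 * κ * M / r₀ := by
        apply div_le_div_of_nonneg_right _ hr.le
        apply mul_le_mul_of_nonneg_right _ hM
        linarith
      calc (((k : ℝ) + 2) * M / r₀) ^ 2 ≤ (3 * κ * M / r₀) ^ 2 :=
            pow_le_pow_left₀ (by positivity) e4 2
        _ = 9 * κ ^ 2 * M ^ 2 / r₀ ^ 2 := by ring
    have e5 : (C₂ * δ) ^ 2 = C₂ ^ 2 * t ^ 6 := by rw [← ht3]; ring
    calc C₀ ^ 2 * (C₂ * δ + ((k : ℝ) + 2) * M / r₀) ^ 2 ≤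
          C₀ ^ 2 * (2 * (C₂ ^ 2 * t ^ 6 + 9 * κ ^ 2 * M ^ 2 / r₀ ^ 2)) := by
          apply mul_le_mul_of_nonneg_left _ (by positivity)
          rw [← e5]
          linarith
      _ = _ := by ring
  have hsum : ∑ k ∈ Finset.Icc 2 K, a k ≤
      κ * (2 * C₀ ^ 2 * (C₂ ^ 2 * t ^ 6 + 9 * κ ^ 2 * M ^ 2 / r₀ ^ 2)) := by
    refine (Finset.sum_le_card_nsmul _ _ _ hterm).trans ?_
    rw [nsmul_eq_mul]
    apply mul_le_mul_of_nonneg_right _ (by positivity)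
    refine le_trans ?_ hKle
    rw [Nat.card_Icc]
    exact_mod_cast (by omega : K + 1 - 2 ≤ K)
  have hmain := hK K hK1
  have h1 : (1 / Real.pi) * ∑ k ∈ Finset.Icc 2 K, a k ≤
      κ * (2 * C₀ ^ 2 * (C₂ ^ 2 * t ^ 6 + 9 * κ ^ 2 * M ^ 2 / r₀ ^ 2)) := by
    have hpi : 1 / Real.pi ≤ 1 := by
      rw [div_le_one Real.pi_pos]; linarith [Real.pi_gt_three]
    have hpi0 : 0 ≤ 1 / Real.pi := by positivity
    have hnn : 0 ≤ κ * (2 * C₀ ^ 2 * (C₂ ^ 2 * t ^ 6 + 9 * κ ^ 2 * M ^ 2 / r₀ ^ 2)) := by positivity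
    calc (1 / Real.pi) * ∑ k ∈ Finset.Icc 2 K, a k ≤
          (1 / Real.pi) * (κ * (2 * C₀ ^ 2 * (C₂ ^ 2 * t ^ 6 + 9 * κ ^ 2 * M ^ 2 / r₀ ^ 2))) :=
          mul_le_mul_of_nonneg_left hsum hpi0
      _ ≤ 1 * (κ * (2 * C₀ ^ 2 * (C₂ ^ 2 * t ^ 6 + 9 * κ ^ 2 * M ^ 2 / r₀ ^ 2))) :=
          mul_le_mul_of_nonneg_right hpi hnn
      _ = _ := one_mul _
  have h2' : 2 * D / (K : ℝ) ^ 2 ≤ 8 * C₂ / ε ^ 2 * t ^ 5 := by
    have hκ2 : (κ / 2) ^ 2 ≤ (K : ℝ) ^ 2 := pow_le_pow_left₀ (by positivity) hKge 2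
    calc 2 * D / (K : ℝ) ^ 2 ≤ 2 * (C₂ * t ^ 3) / (κ / 2) ^ 2 := by
          apply div_le_div₀ (by positivity) _ (by positivity) hκ2
          linarith
      _ = 8 * C₂ / ε ^ 2 * t ^ 5 := by
          rw [hκ]
          field_simp
          ring
  have h3 : κ * (2 * C₀ ^ 2 * (C₂ ^ 2 * t ^ 6 + 9 * κ ^ 2 * M ^ 2 / r₀ ^ 2)) ≤
      2 * C₀ ^ 2 * C₂ ^ 2 * ε * t ^ 5 + M / 2 := by
    have e1 : κ * (2 * C₀ ^ 2 * (C₂ ^ 2 * t ^ 6 + 9 * κ ^ 2 * M ^ 2 / r₀ ^ 2)) =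
        2 * C₀ ^ 2 * C₂ ^ 2 * (κ * t) * t ^ 5 + 18 * C₀ ^ 2 * (κ ^ 3 * M) * M / r₀ ^ 2 := by ring
    rw [e1, hκt]
    have e2 : κ ^ 3 * M ≤ ε * C₂ := by
      calc κ ^ 3 * M ≤ κ ^ 3 * (C₂ * t ^ 3) := mul_le_mul_of_nonneg_left hMt (by positivity)
        _ = (κ * t) ^ 3 * C₂ := by ring
        _ = ε * C₂ * ε ^ 2 := by rw [hκt]; ring
        _ ≤ ε * C₂ * 1 := by
            apply mul_le_mul_of_nonneg_left _ (by positivity)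
            exact pow_le_one₀ hε0.le hε1
        _ = ε * C₂ := mul_one _
    have e3 : 18 * C₀ ^ 2 * (κ ^ 3 * M) * M / r₀ ^ 2 ≤ M / 2 := by
      rw [div_le_iff₀ (by positivity)]
      calc 18 * C₀ ^ 2 * (κ ^ 3 * M) * M ≤ 18 * C₀ ^ 2 * (ε * C₂) * M := by
            apply mul_le_mul_of_nonneg_right _ hM
            apply mul_le_mul_of_nonneg_left e2 (by positivity)
        _ = (36 * C₀ ^ 2 * C₂ * ε) * (M / 2) := by ring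
        _ ≤ r₀ ^ 2 * (M / 2) := mul_le_mul_of_nonneg_right hε3 (by linarith)
        _ = M / 2 * r₀ ^ 2 := by ring
    linarith
  have e9 : 2 * (2 * C₀ ^ 2 * C₂ ^ 2 * ε + 8 * C₂ / ε ^ 2) * t ^ 5 =
      2 * (2 * C₀ ^ 2 * C₂ ^ 2 * ε * t ^ 5 + 8 * C₂ / ε ^ 2 * t ^ 5) := by ring
  rw [e9]
  linarith

end Pool.Agent.T2H01.QI
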