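import Pool.Agent.T2H01.QI.Stm

/-!
# Package PERF: the boundary has finite length
-/

set_option autoImplicit false

noncomputable section

open MeasureTheory Metric Set Filter Topology
open scoped NNReal ENNReal

namespace Pool.Agent.T2H01.QI

namespace PERF

theorem gph_lip (f : ℝ → ℝ) (K : ℝ≥0) (hK : LipschitzWith K f) : LipschitzWith (1 + K) (gph f) := by
  apply LipschitzWith.of_dist_le_mul
  intro s t
  have h1 : dist (f s) (f t) ≤ K * dist s t := hK.dist_le_mul s t
  rw [EuclideanSpace.dist_eq, Fin.sum_univ_two]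
  simp only [gph, PiLp.toLp_apply, Matrix.cons_val_zero, Matrix.cons_val_one]
  rw [Real.sqrt_le_iff]
  have h2 : 0 ≤ dist s t := dist_nonneg
  have h3 : 0 ≤ dist (f s) (f t) := dist_nonneg
  have hK0 : (0 : ℝ) ≤ K := K.2
  refine ⟨by positivity, ?_⟩
  have h4 : dist (f s) (f t) ^ 2 ≤ (K * dist s t) ^ 2 := pow_le_pow_left₀ h3 h1 2
  push_cast
  nlinarith [mul_nonneg hK0 (sq_nonneg (dist s t))]

end PERF

open PERF in
theorem pPERF (hGRF : S_GRF) : S_PERF := by
  intro Ω hΩ
  obtain ⟨hopen, hbdd, hch⟩ := hΩ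
  have hcomp : IsCompact (frontier Ω) :=
    Metric.isCompact_of_isClosed_isBounded isClosed_frontier
      (hbdd.closure.subset frontier_subset_closure)
  unfold per
  refine hcomp.induction_on (p := fun s => μH[1] s < ⊤) (by simp)
    (fun s t hst ht => (measure_mono hst).trans_lt ht)
    (fun s t hs ht => (measure_union_le s t).trans_lt (ENNReal.add_lt_top.2 ⟨hs, ht⟩)) ?_
  intro x hx
  obtain ⟨e, r, f, hc⟩ := hch x hx
  have hg := hGRF Ω x e r f hopen hc
  obtain ⟨hr, ⟨K, hK⟩, -⟩ := hc
  refine ⟨frontier Ω ∩ ball x r, inter_mem_nhdsWithin _ (ball_mem_nhds x hr), ?_⟩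
  have hsub : frontier Ω ∩ ball x r ⊆
      (fun s => e.symm (gph f s)) '' Icc ((e x) 0 - r) ((e x) 0 + r) := by
    rintro y ⟨hy, hyr⟩
    rw [mem_ball] at hyr
    have h1 := (hg y hyr).1 hy
    refine ⟨(e y) 0, ?_, ?_⟩
    · have h2 : dist (e y) (e x) < r := by rw [e.dist_map]; exact hyr
      have h3 : |(e y) 0 - (e x) 0| ≤ dist (e y) (e x) := by
        rw [dist_eq_norm]
        have := PiLp.norm_apply_le (p := 2) (e y - e x) 0
        simpa using this
      obtain ⟨h4, h5⟩ := abs_le.1 (h3.trans h2.le)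
      exact ⟨by linarith, by linarith⟩
    · simp only
      have h2 : gph f ((e y) 0) = e y := by
        ext i
        fin_cases i
        · simp [gph]
        · simp [gph, h1]
      rw [h2]
      exact e.symm_apply_apply y
  refine (measure_mono hsub).trans_lt ?_
  have hlip : LipschitzWith (1 + K) (fun s => e.symm (gph f s)) := by
    have h1 := e.symm.isometry.lipschitz.comp (gph_lip f K hK)
    rw [one_mul] at h1
    exact h1
  refine (hlip.hausdorffMeasure_image_le zero_le_one _).trans_lt ?_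
  refine ENNReal.mul_lt_top ?_ ?_
  · simp
  · rw [MeasureTheory.hausdorffMeasure_real]
    simp

end Pool.Agent.T2H01.QI
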