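import Pool.Agent.T2H01.QI.Stm2

/-! Package POL of project QI: polar coordinates for star shaped sets. -/

set_option autoImplicit false

noncomputable section

open MeasureTheory Metric Set Filter Topology
open scoped NNReal ENNReal

namespace Pool.Agent.T2H01.QI

namespace POL

theorem dir_zero (θ : ℝ) : (dir θ) 0 = Real.cos θ := by simp [dir]

theorem dir_one (θ : ℝ) : (dir θ) 1 = Real.sin θ := by simp [dir]

theorem dir_cont : Continuous dir := by
  unfold dir
  refine (PiLp.continuous_toLp 2 _).comp ?_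
  exact continuous_pi fun i => by
    fin_cases i
    · simpa using Real.continuous_cos
    · simpa using Real.continuous_sin

theorem norm_dir (θ : ℝ) : ‖dir θ‖ = 1 := by
  rw [EuclideanSpace.norm_eq, Fin.sum_univ_two, dir_zero, dir_one]
  simp

theorem dir_per (θ : ℝ) (k : ℤ) : dir (θ + k * (2 * Real.pi)) = dir θ := by
  unfold dir
  rw [Real.cos_add_int_mul_two_pi, Real.sin_add_int_mul_two_pi]

theorem dir_inj {θ θ' : ℝ} (h : dir θ = dir θ') : ∃ k : ℤ, θ' = θ + k * (2 * Real.pi) := by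
  have h0 : Real.cos θ' = Real.cos θ := by rw [← dir_zero, ← dir_zero, h]
  have h1 : Real.sin θ' = Real.sin θ := by rw [← dir_one, ← dir_one, h]
  obtain ⟨k, hk⟩ := Real.Angle.angle_eq_iff_two_pi_dvd_sub.1 (Real.Angle.cos_sin_inj h0 h1)
  exact ⟨k, by linarith⟩

theorem per_int {ρ : ℝ → ℝ} (h : ∀ θ, ρ (θ + 2 * Real.pi) = ρ θ) (θ : ℝ) (k : ℤ) :
    ρ (θ + k * (2 * Real.pi)) = ρ θ :=
  (Function.Periodic.int_mul (show Function.Periodic ρ (2 * Real.pi) from h) k) θ

theorem mem_star {a : E2} {ρ : ℝ → ℝ} (h : ∀ θ, ρ (θ + 2 * Real.pi) = ρ θ) {s θ : ℝ} (hs : 0 < s) :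
    a + s • dir θ ∈ star a ρ ↔ s ≤ ρ θ := by
  constructor
  · rintro ⟨s', θ', hs', hle, he⟩
    have h1 : s • dir θ = s' • dir θ' := by simpa using he
    have h2 : s = s' := by
      have := congrArg norm h1
      rw [norm_smul, norm_smul, norm_dir, norm_dir, mul_one, mul_one, Real.norm_eq_abs,
        Real.norm_eq_abs, abs_of_pos hs, abs_of_nonneg hs'] at this
      exact this
    subst h2
    have h3 : dir θ = dir θ' := smul_right_injective E2 hs.ne' h1
    obtain ⟨k, hk⟩ := dir_inj h3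
    rw [hk, per_int h] at hle
    exact hle
  · intro hle
    exact ⟨s, θ, hs.le, hle, rfl⟩

theorem compact (a : E2) (ρ : ℝ → ℝ) (hρ : Continuous ρ) (hper : ∀ θ, ρ (θ + 2 * Real.pi) = ρ θ)
    (hpos : ∀ θ, 0 < ρ θ) : IsCompact (star a ρ) := by
  have h2π : 0 < 2 * Real.pi := Real.two_pi_pos
  have hc : Continuous fun p : ℝ × ℝ => a + (p.1 * ρ p.2) • dir p.2 :=
    continuous_const.add ((continuous_fst.mul (hρ.comp continuous_snd)).smul
      (dir_cont.comp continuous_snd))
  have hK : IsCompact ((Icc (0 : ℝ) 1) ×ˢ (Icc (0 : ℝ) (2 * Real.pi))) := isCompact_Icc.prod isCompact_Icc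
  have he : star a ρ = (fun p : ℝ × ℝ => a + (p.1 * ρ p.2) • dir p.2) ''
      ((Icc (0 : ℝ) 1) ×ˢ (Icc (0 : ℝ) (2 * Real.pi))) := by
    ext x
    constructor
    · rintro ⟨s, θ, hs, hle, rfl⟩
      have hf1 := Int.floor_le (θ / (2 * Real.pi))
      have hf2 := Int.lt_floor_add_one (θ / (2 * Real.pi))
      set k : ℤ := ⌊θ / (2 * Real.pi)⌋ with hk
      have e1 : θ + ((-k : ℤ) : ℝ) * (2 * Real.pi) = θ - k * (2 * Real.pi) := by
        push_cast; ring
      refine ⟨(s / ρ θ, θ + ((-k : ℤ) : ℝ) * (2 * Real.pi)), ⟨⟨?_, ?_⟩, ?_, ?_⟩, ?_⟩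
      · exact div_nonneg hs (hpos θ).le
      · exact (div_le_one (hpos θ)).2 hle
      · show 0 ≤ θ + ((-k : ℤ) : ℝ) * (2 * Real.pi)
        rw [e1]
        rw [le_div_iff₀ h2π] at hf1
        linarith
      · show θ + ((-k : ℤ) : ℝ) * (2 * Real.pi) ≤ 2 * Real.pi
        rw [e1]
        rw [div_lt_iff₀ h2π] at hf2
        linarith
      · show a + (s / ρ θ * ρ (θ + ((-k : ℤ) : ℝ) * (2 * Real.pi))) •
          dir (θ + ((-k : ℤ) : ℝ) * (2 * Real.pi)) = a + s • dir θ
        rw [per_int hper, dir_per, div_mul_cancel₀ _ (hpos θ).ne']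
    · rintro ⟨⟨t, θ⟩, ⟨⟨h1, h2⟩, -⟩, rfl⟩
      refine ⟨t * ρ θ, θ, mul_nonneg h1 (hpos θ).le, ?_, rfl⟩
      exact mul_le_of_le_one_left (hpos θ).le h2
  rw [he]
  exact hK.image hc

theorem plane (g : E2 → ℝ) : ∫ x : E2, g x = ∫ p : ℝ × ℝ, g !₂[p.1, p.2] := by
  have h1 := (EuclideanSpace.volume_preserving_symm_measurableEquiv_toLp (Fin 2)).symm.integral_comp' g
  have h2 := (volume_preserving_finTwoArrow ℝ).symm.integral_comp'
    (fun y : Fin 2 → ℝ => g ((MeasurableEquiv.toLp 2 (Fin 2 → ℝ)) y))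
  rw [← h1]
  refine Eq.trans ?_ (h2.symm.trans ?_)
  · rfl
  · apply integral_congr_ae
    filter_upwards with p
    congr 1

theorem polar (F : E2 → ℝ) (a : E2) : ∫ x : E2, F x =
    ∫ p in polarCoord.target, p.1 * F (a + p.1 • dir p.2) := by
  rw [← integral_add_left_eq_self F a, plane (fun x => F (a + x)),
    ← integral_comp_polarCoord_symm]
  apply integral_congr_ae
  filter_upwards with p
  rw [smul_eq_mul, polarCoord_symm_apply]
  congr 2
  congr 1
  ext i
  fin_cases i
  · simp [dir]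
  · simp [dir]

end POL

open POL in
theorem pPOL : S_POL := by
  intro a ρ hρ hper hpos
  refine ⟨compact a ρ hρ hper hpos, fun f hf => ?_⟩
  have hK := compact a ρ hρ hper hpos
  have hπ := Real.pi_pos
  rw [← integral_indicator hK.measurableSet, polar _ a]
  set h : ℝ × ℝ → ℝ := fun p => p.1 * f (a + p.1 • dir p.2) with hh
  have hhc : Continuous h :=
    continuous_fst.mul (hf.comp (continuous_const.add (continuous_fst.smul
      (dir_cont.comp continuous_snd))))
  set A : Set (ℝ × ℝ) := {p | 0 < p.1 ∧ p.1 ≤ ρ p.2 ∧ p.2 ∈ Ioo (-Real.pi) Real.pi} with hA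
  have hAm : MeasurableSet A := by
    have m1 : MeasurableSet {p : ℝ × ℝ | 0 < p.1} := (isOpen_lt continuous_const continuous_fst).measurableSet
    have m2 : MeasurableSet {p : ℝ × ℝ | p.1 ≤ ρ p.2} :=
      (isClosed_le continuous_fst (hρ.comp continuous_snd)).measurableSet
    have m3 : MeasurableSet {p : ℝ × ℝ | p.2 ∈ Ioo (-Real.pi) Real.pi} :=
      measurable_snd measurableSet_Ioo
    exact m1.inter (m2.inter m3)
  have hT : MeasurableSet polarCoord.target := polarCoord.open_target.measurableSet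
  have e1 : ∫ p in polarCoord.target, p.1 * (star a ρ).indicator f (a + p.1 • dir p.2) =
      ∫ p : ℝ × ℝ, A.indicator h p := by
    rw [← integral_indicator hT]
    apply integral_congr_ae
    filter_upwards with p
    by_cases hp : p ∈ polarCoord.target
    · rw [indicator_of_mem hp]
      have hp' : 0 < p.1 ∧ p.2 ∈ Ioo (-Real.pi) Real.pi := by
        rw [polarCoord_target] at hp
        exact hp
      by_cases hq : p.1 ≤ ρ p.2
      · rw [indicator_of_mem ((mem_star hper hp'.1).2 hq), indicator_of_mem (show p ∈ A from ⟨hp'.1, hq, hp'.2⟩)]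
      · rw [indicator_of_notMem (fun hc => hq ((mem_star hper hp'.1).1 hc)),
          indicator_of_notMem (fun hc : p ∈ A => hq hc.2.1), mul_zero]
    · rw [indicator_of_notMem hp, indicator_of_notMem]
      intro hc
      apply hp
      rw [polarCoord_target]
      exact ⟨hc.1, hc.2.2⟩
  rw [e1]
  -- integrability
  have hint : Integrable (A.indicator h) := by
    rw [integrable_indicator_iff hAm]
    obtain ⟨R, hR⟩ := (isCompact_Icc (a := -Real.pi) (b := Real.pi)).exists_bound_of_continuousOn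
      hρ.continuousOn
    have hc : IsCompact ((Icc (0 : ℝ) R) ×ˢ (Icc (-Real.pi) Real.pi)) := isCompact_Icc.prod isCompact_Icc
    refine (hhc.continuousOn.integrableOn_compact hc).mono_set ?_
    rintro ⟨s, θ⟩ ⟨h1, h2, h3⟩
    have h4 := hR θ ⟨h3.1.le, h3.2.le⟩
    rw [Real.norm_eq_abs, abs_of_pos (hpos θ)] at h4
    exact ⟨⟨h1.le, h2.trans h4⟩, h3.1.le, h3.2.le⟩
  rw [Measure.volume_eq_prod] at hint ⊢
  rw [integral_prod_symm _ hint]
  set Ψ : ℝ → ℝ := fun θ => ∫ s in (0 : ℝ)..(ρ θ), s * f (a + s • dir θ) with hΨ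
  have e2 : ∀ θ : ℝ, ∫ s : ℝ, A.indicator h (s, θ) = (Ioo (-Real.pi) Real.pi).indicator Ψ θ := by
    intro θ
    by_cases hθ : θ ∈ Ioo (-Real.pi) Real.pi
    · rw [indicator_of_mem hθ, hΨ]
      simp only
      rw [intervalIntegral.integral_of_le (hpos θ).le, ← integral_indicator measurableSet_Ioc]
      apply integral_congr_ae
      filter_upwards with s
      by_cases hs : s ∈ Ioc 0 (ρ θ)
      · rw [indicator_of_mem hs, indicator_of_mem (show (s, θ) ∈ A from ⟨hs.1, hs.2, hθ⟩)]
      · rw [indicator_of_notMem hs, indicator_of_notMem (fun hc : (s, θ) ∈ A => hs ⟨hc.1, hc.2.1⟩)]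
    · rw [indicator_of_notMem hθ]
      have : ∀ s : ℝ, A.indicator h (s, θ) = 0 := fun s =>
        indicator_of_notMem (fun hc : (s, θ) ∈ A => hθ hc.2.2) _
      simp only [this, integral_zero]
  simp only [e2]
  rw [integral_indicator measurableSet_Ioo, ← integral_Ioc_eq_integral_Ioo,
    ← intervalIntegral.integral_of_le (by linarith)]
  have hΨp : Function.Periodic Ψ (2 * Real.pi) := by
    intro θ
    have hd : dir (θ + 2 * Real.pi) = dir θ := by
      have := dir_per θ 1
      simpa using this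
    simp only [hΨ, hper θ, hd]
  have e3 := hΨp.intervalIntegral_add_eq (-Real.pi) 0
  rw [show -Real.pi + 2 * Real.pi = Real.pi by ring, zero_add] at e3
  exact e3

end Pool.Agent.T2H01.QI
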