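import Pool.Agent.T2H01.QI.Stm

/-! # Project QI, package POS: the solution is nonnegative -/

set_option autoImplicit false

noncomputable section

open MeasureTheory Metric Set Filter Topology
open scoped NNReal ENNReal

namespace Pool.Agent.T2H01.QI

theorem pPOS (hNEG : S_NEG) (hTR1 : S_TR1) : S_POS := by
  intro Ω hΩ β hβ u hu
  obtain ⟨G, g, hH, hT, hw⟩ := hu
  have hH' := hNEG Ω hΩ.1 hΩ.2.1 u G hH
  have hT' := hTR1 Ω hΩ.1 hΩ.2.1 u g hH.1 hT
  have h1 := hw _ _ _ hH' hT'
  have h2 : (∫ x in Ω, inner ℝ (G x) (if u x < 0 then -G x else 0)) ≤ 0 := by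
    refine integral_nonpos fun x => ?_
    show inner ℝ (G x) (if u x < 0 then -G x else 0) ≤ 0
    split_ifs
    · rw [inner_neg_right, real_inner_self_eq_norm_sq]
      nlinarith [sq_nonneg ‖G x‖]
    · simp
  have h3 : (∫ x in frontier Ω, g x * max (-g x) 0 ∂μH[1]) ≤ 0 := by
    refine integral_nonpos fun x => ?_
    show g x * max (-g x) 0 ≤ 0
    rcases le_total 0 (g x) with h | h
    · rw [max_eq_right (by linarith)]; simp
    · rw [max_eq_left (by linarith)]; nlinarith
  have h4 : (∫ x in Ω, max (-u x) 0) ≤ 0 := by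
    rw [← h1]
    have := mul_nonpos_of_nonneg_of_nonpos hβ.le h3
    linarith
  have hfin : IsFiniteMeasure (volume.restrict Ω : Measure E2) :=
    ⟨by simpa using hΩ.2.1.measure_lt_top⟩
  have hint : Integrable (fun x => max (-u x) 0) (volume.restrict Ω) :=
    hH'.1.integrable (by norm_num)
  have h5 : (∫ x in Ω, max (-u x) 0) = 0 :=
    le_antisymm h4 (integral_nonneg fun x => le_max_right _ _)
  have h6 := (integral_eq_zero_iff_of_nonneg (fun x => le_max_right _ _) hint).1 h5
  filter_upwards [h6] with x hx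
  have hx' : max (-u x) 0 = 0 := hx
  have := le_max_left (-u x) 0
  rw [hx'] at this
  linarith

end Pool.Agent.T2H01.QI
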