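import Pool.Agent.T2H01.QI.Stm

/-! # Project QI, package PRJ: projections of the inner sets -/

set_option autoImplicit false

noncomputable section

open MeasureTheory Metric Set Filter Topology
open scoped NNReal ENNReal

namespace Pool.Agent.T2H01.QI

namespace PRJ

theorem exists_near (Ω : Set E2) (hb : Bornology.IsBounded Ω) (hn : Ω.Nonempty) (n : E2) (η : ℝ) (hη : 0 < η) :
    ∃ x ∈ Ω, hs Ω n - η / 2 < inner ℝ x n := by
  have hne : ((fun x : E2 => inner ℝ x n) '' Ω).Nonempty := hn.image _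
  obtain ⟨y, ⟨x, hx, rfl⟩, hy⟩ := exists_lt_of_lt_csSup hne (show hs Ω n - η / 2 < sSup _ by
    unfold hs; linarith)
  exact ⟨x, hx, hy⟩

end PRJ

open PRJ in
theorem pPRJ : S_PRJ := by
  intro Ω ho hb hc n η hη
  obtain ⟨x1, hx1, h1⟩ := exists_near Ω hb hc.nonempty n η hη
  obtain ⟨x2, hx2, h2⟩ := exists_near Ω hb hc.nonempty (-n) η hη
  rw [inner_neg_right] at h2
  have hp : IsPathConnected Ω := ho.isConnected_iff_isPathConnected.1 hc
  obtain ⟨γ, hγ⟩ := hp.joinedIn x2 hx2 x1 hx1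
  have hK : IsCompact (range γ) := isCompact_range γ.continuous
  have hKΩ : range γ ⊆ Ω := by rintro _ ⟨t, rfl⟩; exact hγ t
  obtain ⟨δ, hδ, hsub⟩ := hK.exists_thickening_subset_open ho hKΩ
  refine ⟨δ, hδ, fun ε hε hεδ => ?_⟩
  have hin : range γ ⊆ inn Ω ε := by
    intro x hx y hy
    exact hsub (mem_thickening_iff.2 ⟨x, hx, (mem_ball.1 hy).trans_le hεδ⟩)
  have hpre : IsPreconnected ((fun x : E2 => inner ℝ x n) '' range γ) :=
    (isConnected_range γ.continuous).isPreconnected.image _ (by fun_prop)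
  have hicc : Icc (inner ℝ x2 n) (inner ℝ x1 n) ⊆ (fun x : E2 => inner ℝ x n) '' range γ := by
    refine hpre.Icc_subset ?_ ?_
    · exact ⟨x2, ⟨0, γ.source⟩, rfl⟩
    · exact ⟨x1, ⟨1, γ.target⟩, rfl⟩
  calc ENNReal.ofReal (hs Ω n + hs Ω (-n) - η) ≤ ENNReal.ofReal (inner ℝ x1 n - inner ℝ x2 n) :=
        ENNReal.ofReal_le_ofReal (by linarith)
    _ = volume (Icc (inner ℝ x2 n) (inner ℝ x1 n)) := by rw [Real.volume_Icc]
    _ ≤ _ := measure_mono (hicc.trans (image_mono hin))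

end Pool.Agent.T2H01.QI
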