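import Pool.Agent.T2H01.QI.Stm2

/-! Package RES of the project QI: the restriction of the solution to a component. -/

set_option autoImplicit false

noncomputable section

open MeasureTheory Metric Set Filter Topology
open scoped NNReal ENNReal

namespace Pool.Agent.T2H01.QI

namespace RES

theorem dvg_congr {X Y : E2 → E2} {x : E2} (h : X =ᶠ[𝓝 x] Y) : dvg X x = dvg Y x := by
  unfold dvg
  rw [h.fderiv_eq]

theorem dvg_zero (x : E2) : dvg (fun _ => (0 : E2)) x = 0 := by
  unfold dvg
  simp

theorem dvg_one {χ : E2 → ℝ} {X : E2 → E2} {x : E2} (h : ∀ᶠ y in 𝓝 x, χ y = 1) :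
    dvg (fun y => χ y • X y) x = dvg X x :=
  dvg_congr (h.mono fun y hy => by simp [hy])

theorem dvg_null {χ : E2 → ℝ} {X : E2 → E2} {x : E2} (h : ∀ᶠ y in 𝓝 x, χ y = 0) :
    dvg (fun y => χ y • X y) x = 0 := by
  rw [← dvg_zero x]
  exact dvg_congr (h.mono fun y hy => by simp [hy])

theorem int_eq {μ : Measure E2} {s t : Set E2} {f h : E2 → ℝ} (ht : MeasurableSet t)
    (hs : MeasurableSet s) (hst : s ⊆ t) (h1 : ∀ x ∈ s, f x = h x) (h0 : ∀ x ∈ t \ s, f x = 0) :
    ∫ x in t, f x ∂μ = ∫ x in s, h x ∂μ := by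
  rw [setIntegral_eq_of_subset_of_forall_sdiff_eq_zero ht hst h0]
  exact setIntegral_congr_fun hs h1

theorem avg_congr {s t : Set E2} {f h : E2 → ℝ} (hs : MeasurableSet s) (hst : t = s)
    (h1 : ∀ x ∈ s, f x = h x) : ⨍ x in t, f x = ⨍ x in s, h x := by
  rw [hst, setAverage_eq, setAverage_eq, setIntegral_congr_fun hs h1]

end RES

open RES in
theorem pRES (hLOC : S_LOC) (hCMP : S_CMP) (hNRM : S_NRM) : S_RES := by
  intro Ω hΩ β u hu z hz
  obtain ⟨χ, hχ, hχ1, hχ0⟩ := hNRM Ω hΩ z hz
  obtain ⟨hCL, -, hfr, -⟩ := hCMP Ω hΩ z hz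
  set C : Set E2 := connectedComponentIn Ω z with hC
  have hCΩ : C ⊆ Ω := connectedComponentIn_subset _ _
  have hCo : IsOpen C := hCL.1
  have hCm : MeasurableSet C := hCo.measurableSet
  have hΩm : MeasurableSet Ω := hΩ.1.measurableSet
  have hfC : MeasurableSet (frontier C) := isClosed_frontier.measurableSet
  have hfΩ : MeasurableSet (frontier Ω) := isClosed_frontier.measurableSet
  have hχC : ∀ x ∈ closure C, χ x = 1 := fun x hx => (hχ1 x hx).self_of_nhds
  have hχN : ∀ x ∈ closure (Ω \ C), χ x = 0 := fun x hx => (hχ0 x hx).self_of_nhds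
  have hdis : ∀ x ∈ closure C, x ∉ closure (Ω \ C) := by
    intro x hx hx'
    have h1 := hχC x hx
    rw [hχN x hx'] at h1
    exact zero_ne_one h1
  have hcl : closure Ω ⊆ closure C ∪ closure (Ω \ C) := by
    rw [← closure_union, union_sdiff_cancel hCΩ]
  have hfrN : ∀ x ∈ frontier Ω, x ∉ frontier C → x ∈ closure (Ω \ C) := by
    intro x hx hxC
    rcases hcl (frontier_subset_closure hx) with h | h
    · exfalso
      apply hxC
      rw [hCo.frontier_eq]
      refine ⟨h, fun hx' => ?_⟩
      rw [hΩ.1.frontier_eq] at hx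
      exact hx.2 (hCΩ hx')
    · exact h
  have hfrcl : frontier C ⊆ closure C := frontier_subset_closure
  have hrC : (volume.restrict C : Measure E2) ≤ volume.restrict Ω :=
    Measure.restrict_mono hCΩ le_rfl
  have hrF : ((μH[1] : Measure E2).restrict (frontier C)) ≤ (μH[1] : Measure E2).restrict (frontier Ω) :=
    Measure.restrict_mono hfr le_rfl
  obtain ⟨G, g, ν, ⟨n1, n2, n3⟩, ⟨s1, s2, s3⟩, ⟨t1, t2⟩, hG, hw⟩ := hu
  -- near a point of the closure of `C` only `C` is present
  have near : ∀ x ∈ closure C, ∀ᶠ r in 𝓝[>] (0 : ℝ), ball x r ∩ Ω = ball x r ∩ C := by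
    intro x hx
    have hnh : (closure (Ω \ C))ᶜ ∈ 𝓝 x := isClosed_closure.isOpen_compl.mem_nhds (hdis x hx)
    obtain ⟨ρ, hρ, hρ'⟩ := Metric.mem_nhds_iff.1 hnh
    filter_upwards [Ioo_mem_nhdsGT hρ] with r hr
    ext y
    constructor
    · rintro ⟨hy1, hy2⟩
      refine ⟨hy1, ?_⟩
      by_contra hyC
      exact hρ' (ball_subset_ball hr.2.le hy1) (subset_closure ⟨hy2, hyC⟩)
    · rintro ⟨hy1, hy2⟩
      exact ⟨hy1, hCΩ hy2⟩
  have far : ∀ x, x ∉ closure C → ∀ᶠ r in 𝓝[>] (0 : ℝ), ball x r ∩ C = ∅ := by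
    intro x hx
    have hnh : (closure C)ᶜ ∈ 𝓝 x := isClosed_closure.isOpen_compl.mem_nhds hx
    obtain ⟨ρ, hρ, hρ'⟩ := Metric.mem_nhds_iff.1 hnh
    filter_upwards [Ioo_mem_nhdsGT hρ] with r hr
    ext y
    simp only [mem_inter_iff, mem_empty_iff_false, iff_false, not_and]
    intro hy1 hy2
    exact hρ' (ball_subset_ball hr.2.le hy1) (subset_closure hy2)
  refine ⟨G, g, ν, ⟨n1.mono_measure hrF, ae_mono hrF n2, ?_⟩,
    ⟨s1.mono_measure hrC, s2.mono_measure hrC, ?_⟩, ⟨t1.mono_measure hrF, ?_⟩, ?_, ?_⟩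
  · -- the normal
    intro X hX
    have h := n3 (fun y => χ y • X y) (hχ.smul hX)
    rw [int_eq (h := fun x => dvg X x) hΩm hCm hCΩ (fun x hx => dvg_one (hχ1 x (subset_closure hx)))
      (fun x hx => dvg_null (hχ0 x (subset_closure hx)))] at h
    rw [h]
    refine int_eq hfΩ hfC hfr (fun x hx => ?_) (fun x hx => ?_)
    · rw [hχC x (hfrcl hx), one_smul]
    · rw [hχN x (hfrN x hx.1 hx.2), zero_smul, inner_zero_left]
  · -- weak derivatives
    intro ψ hψ hψc hψC i
    have hz0 : ∀ x ∈ Ω \ C, x ∉ tsupport ψ := fun x hx hx' => hx.2 (hψC hx')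
    have h := s3 ψ hψ hψc (hψC.trans hCΩ) i
    rw [int_eq (h := fun x => u x * fderiv ℝ ψ x (EuclideanSpace.single i 1)) hΩm hCm hCΩ
      (fun x _ => rfl) (fun x hx => by
        have : fderiv ℝ ψ x = 0 := by
          have h1 : x ∉ tsupport (fderiv ℝ ψ) := fun h2 => hz0 x hx (tsupport_fderiv_subset ℝ h2)
          exact image_eq_zero_of_notMem_tsupport h1
        rw [this]; simp)] at h
    rw [h]
    congr 1
    exact int_eq hΩm hCm hCΩ (fun x _ => rfl) (fun x hx => by
      rw [image_eq_zero_of_notMem_tsupport (hz0 x hx), mul_zero])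
  · -- trace
    have h : ∀ᵐ x ∂((μH[1] : Measure E2).restrict (frontier C)),
        Tendsto (fun r : ℝ => ⨍ y in ball x r ∩ Ω, |u y - g x|) (𝓝[>] 0) (𝓝 0) := ae_mono hrF t2
    rw [ae_restrict_iff' hfC] at h ⊢
    filter_upwards [h] with x hx hxC
    refine (hx hxC).congr' ?_
    filter_upwards [near x (hfrcl hxC)] with r hr
    rw [hr]
  · -- Green's formula
    intro X hX
    have h := hG (fun y => χ y • X y) (hχ.smul hX)
    rw [int_eq (h := fun x => u x * dvg X x) hΩm hCm hCΩ
      (fun x hx => by rw [dvg_one (hχ1 x (subset_closure hx))])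
      (fun x hx => by rw [dvg_null (hχ0 x (subset_closure hx)), mul_zero]),
      int_eq (h := fun x => inner ℝ (G x) (X x)) hΩm hCm hCΩ
      (fun x hx => by rw [hχC x (subset_closure hx), one_smul])
      (fun x hx => by rw [hχN x (subset_closure hx), zero_smul, inner_zero_right])] at h
    rw [h]
    refine int_eq hfΩ hfC hfr (fun x hx => ?_) (fun x hx => ?_)
    · rw [hχC x (hfrcl hx), one_smul]
    · rw [hχN x (hfrN x hx.1 hx.2), zero_smul, inner_zero_left, mul_zero]
  · -- the equation
    intro φ Φ γ hφ hγ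
    obtain ⟨f1, f2, f3⟩ := hφ
    obtain ⟨g1, g2⟩ := hγ
    have hrr : (volume.restrict Ω : Measure E2).restrict C = volume.restrict C := by
      rw [Measure.restrict_restrict hCm, inter_eq_left.2 hCΩ]
    have hrr2 : ((μH[1] : Measure E2).restrict (frontier Ω)).restrict (frontier C) =
        (μH[1] : Measure E2).restrict (frontier C) := by
      rw [Measure.restrict_restrict hfC, inter_eq_left.2 hfr]
    have hH1 : IsH1 Ω (C.indicator φ) (C.indicator Φ) := by
      refine ⟨?_, ?_, ?_⟩
      · rw [memLp_indicator_iff_restrict hCm, hrr]; exact f1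
      · rw [memLp_indicator_iff_restrict hCm, hrr]; exact f2
      · intro ψ hψ hψc hψΩ i
        have hsm : ContDiff ℝ (⊤ : ℕ∞) (fun y => χ y * ψ y) := hχ.mul hψ
        have hts : tsupport (fun y => χ y * ψ y) ⊆ C := by
          intro x hx
          have hx1 : x ∈ tsupport ψ :=
            closure_mono (fun y hy => by
              rw [Function.mem_support] at hy ⊢
              exact right_ne_zero_of_mul hy) hx
          by_contra hxC
          have hx2 : x ∈ closure (Ω \ C) := subset_closure ⟨hψΩ hx1, hxC⟩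
          have hx3 : (fun y => χ y * ψ y) =ᶠ[𝓝 x] 0 := (hχ0 x hx2).mono fun y hy => by
            simp [hy]
          exact (notMem_tsupport_iff_eventuallyEq.2 hx3) hx
        have hcs : HasCompactSupport (fun y => χ y * ψ y) := hψc.mul_left
        have h := f3 _ hsm hcs hts i
        have e1 : ∫ x in Ω, C.indicator φ x * fderiv ℝ ψ x (EuclideanSpace.single i 1) =
            ∫ x in C, φ x * fderiv ℝ (fun y => χ y * ψ y) x (EuclideanSpace.single i 1) := by
          refine int_eq hΩm hCm hCΩ (fun x hx => ?_) (fun x hx => ?_)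
          · rw [indicator_of_mem hx]
            have : (fun y => χ y * ψ y) =ᶠ[𝓝 x] ψ := (hχ1 x (subset_closure hx)).mono fun y hy => by
              simp [hy]
            rw [this.fderiv_eq]
          · rw [indicator_of_notMem hx.2, zero_mul]
        have e2 : ∫ x in Ω, C.indicator Φ x i * ψ x = ∫ x in C, Φ x i * (χ x * ψ x) := by
          refine int_eq hΩm hCm hCΩ (fun x hx => ?_) (fun x hx => ?_)
          · rw [indicator_of_mem hx, hχC x (subset_closure hx), one_mul]
          · rw [indicator_of_notMem hx.2]; simp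
        rw [e1, e2]
        exact h
    have hTr : IsTrace Ω (C.indicator φ) ((frontier C).indicator γ) := by
      refine ⟨?_, ?_⟩
      · rw [memLp_indicator_iff_restrict hfC, hrr2]; exact g1
      · rw [ae_restrict_iff' hfC] at g2
        rw [ae_restrict_iff' hfΩ]
        filter_upwards [g2] with x hx hxΩ
        by_cases hxC : x ∈ frontier C
        · refine (hx hxC).congr' ?_
          filter_upwards [near x (hfrcl hxC)] with r hr
          refine (avg_congr (measurableSet_ball.inter hCm) hr fun y hy => ?_).symm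
          rw [indicator_of_mem hy.2, indicator_of_mem hxC]
        · refine (tendsto_const_nhds (x := (0 : ℝ))).congr' ?_
          have hxc : x ∉ closure C := fun h => hdis x h (hfrN x hxΩ hxC)
          filter_upwards [far x hxc] with r hr
          have : ⨍ y in ball x r ∩ Ω, |C.indicator φ y - (frontier C).indicator γ x| =
              ⨍ y in ball x r ∩ Ω, (0 : ℝ) := by
            refine avg_congr (measurableSet_ball.inter hΩm) rfl fun y hy => ?_
            have hyC : y ∉ C := fun h => by
              have : y ∈ ball x r ∩ C := ⟨hy.1, h⟩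
              rw [hr] at this
              exact this
            rw [indicator_of_notMem hyC, indicator_of_notMem hxC]
            simp
          rw [this, setAverage_eq]
          simp
    have h := hw _ _ _ hH1 hTr
    have e1 : ∫ x in Ω, inner ℝ (G x) (C.indicator Φ x) = ∫ x in C, inner ℝ (G x) (Φ x) := by
      refine int_eq hΩm hCm hCΩ (fun x hx => ?_) (fun x hx => ?_)
      · rw [indicator_of_mem hx]
      · rw [indicator_of_notMem hx.2, inner_zero_right]
    have e2 : ∫ x in frontier Ω, g x * (frontier C).indicator γ x ∂μH[1] =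
        ∫ x in frontier C, g x * γ x ∂μH[1] := by
      refine int_eq hfΩ hfC hfr (fun x hx => ?_) (fun x hx => ?_)
      · rw [indicator_of_mem hx]
      · rw [indicator_of_notMem hx.2, mul_zero]
    have e3 : ∫ x in Ω, C.indicator φ x = ∫ x in C, φ x := by
      refine int_eq hΩm hCm hCΩ (fun x hx => ?_) (fun x hx => ?_)
      · rw [indicator_of_mem hx]
      · rw [indicator_of_notMem hx.2]
    rw [e1, e2, e3] at h
    exact h

end Pool.Agent.T2H01.QI
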