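import Pool.Agent.T2H01.QI.Stm

/-!
# QI: SHP, a lower bound for the supremum norm
-/

set_option autoImplicit false

noncomputable section

open MeasureTheory Metric Set Filter Topology
open scoped NNReal ENNReal

namespace Pool.Agent.T2H01.QI

namespace SHP

lemma vol_level {Ω : Set E2} (hΩ : IsOpen Ω) (u : E2 → ℝ) (t : ℝ) :
    volume.real {y ∈ Ω | t < |u y|} = (volume.restrict Ω).real {y | t < |u y|} := by
  rw [measureReal_def, measureReal_def, Measure.restrict_apply' hΩ.measurableSet]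
  congr 2
  ext y
  exact ⟨fun h => ⟨h.2, h.1⟩, fun h => ⟨h.2, h.1⟩⟩

lemma level_lt {Ω : Set E2} (hΩ : IsOpen Ω) (hb : Bornology.IsBounded Ω) {u : E2 → ℝ}
    (hu : MemLp u 2 (volume.restrict Ω)) {c₀ t : ℝ}
    (h : ∀ c : ℝ, (∀ᵐ x ∂volume.restrict Ω, c ≤ |u x|) → c ≤ c₀) (ht : c₀ < t) :
    volume.real {y ∈ Ω | t < |u y|} < volume.real Ω := by
  have hfin : volume Ω ≠ ⊤ := hb.measure_lt_top.ne
  have hΩf : IsFiniteMeasure (volume.restrict Ω) := ⟨by
    rw [Measure.restrict_apply_univ]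
    exact hb.measure_lt_top⟩
  by_contra hcon
  push Not at hcon
  rw [vol_level hΩ] at hcon
  have hm : NullMeasurableSet {y | t < |u y|} (volume.restrict Ω) :=
    nullMeasurableSet_lt aemeasurable_const hu.aestronglyMeasurable.aemeasurable.norm
  have h1 := measure_add_measure_compl₀ hm
  have h2 : (volume.restrict Ω) Set.univ ≤ (volume.restrict Ω) {y | t < |u y|} := by
    rw [Measure.restrict_apply_univ]
    rw [measureReal_def, measureReal_def] at hcon
    exact (ENNReal.toReal_le_toReal hfin (measure_ne_top _ _)).1 hcon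
  have h3 : (volume.restrict Ω) {y | t < |u y|}ᶜ = 0 := by
    have h4 : (volume.restrict Ω) {y | t < |u y|} + (volume.restrict Ω) {y | t < |u y|}ᶜ ≤
        (volume.restrict Ω) {y | t < |u y|} + 0 := by
      rw [h1, add_zero]
      exact h2
    have h5 := (ENNReal.add_le_add_iff_left (measure_ne_top (volume.restrict Ω) _)).1 h4
    exact le_antisymm h5 bot_le
  have h6 : ∀ᵐ x ∂volume.restrict Ω, t ≤ |u x| := by
    have h7 : ∀ᵐ x ∂volume.restrict Ω, x ∈ {y | t < |u y|} := by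
      rw [ae_iff]
      exact h3
    filter_upwards [h7] with x hx
    exact le_of_lt hx
  exact absurd (h t h6) (not_le.2 ht)

lemma rad_sq {Ω : Set E2} : Real.pi * rad Ω ^ 2 = volume.real Ω := by
  unfold rad
  rw [Real.sq_sqrt (div_nonneg measureReal_nonneg Real.pi_pos.le)]
  field_simp

lemma rad_pos {Ω : Set E2} (hΩ : IsOpen Ω) (hb : Bornology.IsBounded Ω) (hne : Ω.Nonempty) :
    0 < rad Ω := by
  unfold rad
  refine Real.sqrt_pos.2 (div_pos ?_ Real.pi_pos)
  exact ENNReal.toReal_pos (hΩ.measure_pos volume hne).ne' hb.measure_lt_top.ne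

/-- the annulus is open and not empty -/
lemma annulus {ρ R : ℝ} (h0 : 0 ≤ ρ) (h : ρ < R) :
    0 < (volume.restrict (ball (0 : E2) R)) {x : E2 | ρ < ‖x‖ ∧ ‖x‖ < R} := by
  have ho : IsOpen {x : E2 | ρ < ‖x‖ ∧ ‖x‖ < R} :=
    (isOpen_lt continuous_const continuous_norm).inter (isOpen_lt continuous_norm continuous_const)
  have hne : {x : E2 | ρ < ‖x‖ ∧ ‖x‖ < R}.Nonempty := by
    refine ⟨EuclideanSpace.single 0 ((ρ + R) / 2), ?_, ?_⟩
    · rw [EuclideanSpace.norm_single, Real.norm_eq_abs, abs_of_nonneg (by linarith)]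
      linarith
    · rw [EuclideanSpace.norm_single, Real.norm_eq_abs, abs_of_nonneg (by linarith)]
      linarith
  rw [Measure.restrict_apply ho.measurableSet, Set.inter_eq_left.2]
  · exact ho.measure_pos volume hne
  · intro x hx
    rw [mem_ball, dist_zero_right]
    exact hx.2

lemma bound {Ω : Set E2} (hΩ : IsOpen Ω) (hb : Bornology.IsBounded Ω) (hne : Ω.Nonempty)
    {u : E2 → ℝ} (hu : MemLp u 2 (volume.restrict Ω)) {β c₀ t : ℝ} (hc₀ : 0 ≤ c₀)
    (h : ∀ c : ℝ, (∀ᵐ x ∂volume.restrict Ω, c ≤ |u x|) → c ≤ c₀) (ht : c₀ < t) :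
    ENNReal.ofReal (rad Ω / (2 * β) - t) ≤
      eLpNorm (fun x => vsol β (rad Ω) x - usharp Ω u x) ⊤
        (volume.restrict (ball 0 (rad Ω))) := by
  have hlt := level_lt hΩ hb hu h ht
  have hR := rad_pos hΩ hb hne
  obtain ⟨m, hm⟩ : ∃ m, m = volume.real {y ∈ Ω | t < |u y|} := ⟨_, rfl⟩
  have hm0 : 0 ≤ m := by rw [hm]; exact measureReal_nonneg
  rw [← hm, ← rad_sq] at hlt
  have hρ : Real.sqrt (m / Real.pi) < rad Ω := by
    rw [Real.sqrt_lt' hR, div_lt_iff₀ Real.pi_pos]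
    linarith
  have hpos := annulus (Real.sqrt_nonneg _) hρ
  rw [eLpNorm_exponent_top]
  have hae : ∀ᵐ x ∂(volume.restrict (ball (0 : E2) (rad Ω))),
      ‖vsol β (rad Ω) x - usharp Ω u x‖ₑ ≤
        eLpNormEssSup (fun x => vsol β (rad Ω) x - usharp Ω u x)
          (volume.restrict (ball 0 (rad Ω))) :=
    ae_le_eLpNormEssSup
  have hex : ∃ x ∈ {x : E2 | Real.sqrt (m / Real.pi) < ‖x‖ ∧ ‖x‖ < rad Ω},
      ‖vsol β (rad Ω) x - usharp Ω u x‖ₑ ≤
        eLpNormEssSup (fun x => vsol β (rad Ω) x - usharp Ω u x)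
          (volume.restrict (ball 0 (rad Ω))) := by
    by_contra hcon
    push Not at hcon
    have h1 : {x : E2 | Real.sqrt (m / Real.pi) < ‖x‖ ∧ ‖x‖ < rad Ω} ⊆
        {x | ¬ ‖vsol β (rad Ω) x - usharp Ω u x‖ₑ ≤
          eLpNormEssSup (fun x => vsol β (rad Ω) x - usharp Ω u x)
            (volume.restrict (ball 0 (rad Ω)))} := fun x hx => not_le.2 (hcon x hx)
    have h2 := measure_mono_null h1 (ae_iff.1 hae)
    exact hpos.ne' h2
  obtain ⟨x, ⟨hx1, hx2⟩, hx3⟩ := hex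
  refine le_trans ?_ hx3
  have hxm : m ≤ Real.pi * ‖x‖ ^ 2 := by
    have h1 : m / Real.pi ≤ ‖x‖ ^ 2 := by
      rw [← Real.sqrt_le_left (norm_nonneg _)]
      exact hx1.le
    rw [div_le_iff₀ Real.pi_pos] at h1
    linarith
  have hus : usharp Ω u x ≤ t := by
    unfold usharp
    refine Real.sSup_le ?_ (by linarith)
    rintro t' ⟨ht'0, ht'⟩
    by_contra hcon
    push Not at hcon
    have h1 : volume.real {y ∈ Ω | t' < |u y|} ≤ m := by
      rw [hm]
      refine measureReal_mono (fun y hy => ⟨hy.1, hcon.trans hy.2⟩) ?_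
      exact ((measure_mono (fun y hy => hy.1)).trans_lt hb.measure_lt_top).ne
    linarith
  have hv : rad Ω / (2 * β) ≤ vsol β (rad Ω) x := by
    unfold vsol
    have h1 : ‖x‖ ^ 2 ≤ rad Ω ^ 2 := pow_le_pow_left₀ (norm_nonneg _) hx2.le 2
    linarith
  calc ENNReal.ofReal (rad Ω / (2 * β) - t) ≤ ENNReal.ofReal ‖vsol β (rad Ω) x - usharp Ω u x‖ := by
        refine ENNReal.ofReal_le_ofReal ?_
        rw [Real.norm_eq_abs]
        exact le_trans (by linarith) (le_abs_self _)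
    _ = ‖vsol β (rad Ω) x - usharp Ω u x‖ₑ := ofReal_norm_eq_enorm _

end SHP

theorem pSHP : S_SHP := by
  intro Ω hΩ hb hne u β c₀ hβ hc₀ hu h
  by_contra hcon
  push Not at hcon
  obtain ⟨E, hE⟩ : ∃ E, E = eLpNorm (fun x => vsol β (rad Ω) x - usharp Ω u x) ⊤
      (volume.restrict (ball 0 (rad Ω))) := ⟨_, rfl⟩
  rw [← hE] at hcon
  have hfin : E ≠ ⊤ := ne_top_of_lt hcon
  have h1 : E.toReal < rad Ω / (2 * β) - c₀ := by
    by_contra h2
    push Not at h2
    exact absurd ((ENNReal.ofReal_le_iff_le_toReal hfin).2 h2) (not_le.2 hcon)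
  have h2 := SHP.bound (β := β) hΩ hb hne hu hc₀ h
    (t := c₀ + (rad Ω / (2 * β) - c₀ - E.toReal) / 2) (by linarith)
  rw [← hE, ENNReal.ofReal_le_iff_le_toReal hfin] at h2
  linarith

end Pool.Agent.T2H01.QI
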