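import Pool.Agent.T2H01.QI.Stm2

/-!
# Package SO of the project QI
-/

set_option autoImplicit false

noncomputable section

open MeasureTheory Metric Set Filter Topology
open scoped NNReal ENNReal

namespace Pool.Agent.T2H01.QI

namespace SO

theorem norm_dir (θ : ℝ) : ‖dir θ‖ = 1 := by
  unfold dir
  rw [EuclideanSpace.norm_eq]
  simp [Fin.sum_univ_two]

theorem hc_eq (Ω : Set E2) : hc Ω (ctr Ω) = fun θ => mr Ω + gg Ω θ := by
  funext θ; unfold gg; ring

theorem int_gg (Ω : Set E2) (h0 : ∀ c, cf (gg Ω) 0 c = 0) :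
    ∫ θ in (0 : ℝ)..(2 * Real.pi), gg Ω θ = 0 := by
  have := h0 1
  unfold cf at this
  simpa using this

end SO

theorem pSO (hGE0 : S_GE0) (hGE2 : S_GE2) (hSTR : S_STR) (hAREA : S_AREA) (hDM : S_DM) : S_SO := by
  intro Ω hO hB hne hlt
  obtain ⟨hc', hp, h0, h1⟩ := hGE0 Ω hB hne
  have hpi := Real.pi_pos
  set D : ℝ := Real.pi * mr Ω ^ 2 - volume.real Ω with hD
  have hD0 : 0 ≤ D := by
    have := hGE2 Ω hO hB hne 0
    nlinarith [sq_nonneg (gg Ω 0)]
  have habs : ∀ θ, |gg Ω θ| ≤ 5 * Real.sqrt D := by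
    intro θ
    have h2 := hGE2 Ω hO hB hne θ
    rw [← Real.sqrt_sq_eq_abs]
    have : 5 * Real.sqrt D = Real.sqrt (25 * D) := by
      rw [Real.sqrt_mul (by norm_num)]
      norm_num
    rw [this]
    exact Real.sqrt_le_sqrt h2
  have hsub : Ω ⊆ star (ctr Ω) (fun θ => mr Ω + gg Ω θ) := by
    have := hSTR Ω hB (ctr Ω)
    rwa [SO.hc_eq] at this
  have hball : star (ctr Ω) (fun θ => mr Ω + gg Ω θ) ⊆ closedBall (ctr Ω) (mr Ω + 5 * Real.sqrt D) := by
    rintro x ⟨s, θ, hs0, hs, rfl⟩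
    rw [mem_closedBall, dist_eq_norm, add_sub_cancel_left, norm_smul, SO.norm_dir, mul_one,
      Real.norm_of_nonneg hs0]
    have := (abs_le.1 (habs θ)).2
    linarith
  refine ⟨hsub, ?_, hsub.trans hball⟩
  have hpos : ∀ θ, 0 < mr Ω + gg Ω θ := by
    intro θ
    have := (abs_le.1 (habs θ)).1
    linarith
  have hA := hAREA (ctr Ω) (fun θ => mr Ω + gg Ω θ) (continuous_const.add hc')
    (fun θ => by simp only [hp θ]) hpos
  have hint : (1 / 2) * ∫ θ in (0 : ℝ)..(2 * Real.pi), (mr Ω + gg Ω θ) ^ 2 =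
      Real.pi * mr Ω ^ 2 + MM Ω / 2 := by
    have e : ∀ θ, (mr Ω + gg Ω θ) ^ 2 = mr Ω ^ 2 + 2 * mr Ω * gg Ω θ + gg Ω θ ^ 2 := fun θ => by ring
    simp only [e]
    rw [intervalIntegral.integral_add, intervalIntegral.integral_add,
      intervalIntegral.integral_const, intervalIntegral.integral_const_mul, SO.int_gg Ω h0]
    · simp only [smul_eq_mul, sub_zero, mul_zero, add_zero]
      unfold MM; ring
    · exact continuous_const.intervalIntegrable _ _
    · exact (continuous_const.mul hc').intervalIntegrable _ _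
    · exact (continuous_const.add (continuous_const.mul hc')).intervalIntegrable _ _
    · exact (hc'.pow 2).intervalIntegrable _ _
  have hfin : volume (star (ctr Ω) (fun θ => mr Ω + gg Ω θ)) ≠ ⊤ :=
    ((measure_mono hball).trans_lt measure_closedBall_lt_top).ne
  have hdiff : volume.real (star (ctr Ω) (fun θ => mr Ω + gg Ω θ) \ Ω) =
      volume.real (star (ctr Ω) (fun θ => mr Ω + gg Ω θ)) - volume.real Ω := by
    unfold Measure.real
    rw [measure_sdiff hsub hO.measurableSet.nullMeasurableSet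
      ((measure_mono hsub).trans_lt (lt_top_iff_ne_top.2 hfin)).ne,
      ENNReal.toReal_sub_of_le (measure_mono hsub) hfin]
  rw [hdiff, hA, hint]
  have hM := (hDM Ω hO hB hne).2.1
  rw [← hD] at hM
  linarith

end Pool.Agent.T2H01.QI
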