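import Pool.Agent.T2H01.QI.Stm2

/-!
# Package STR of the project QI
-/

set_option autoImplicit false

noncomputable section

open MeasureTheory Metric Set Filter Topology
open scoped NNReal ENNReal

namespace Pool.Agent.T2H01.QI

namespace STR

/-- Polar form of a vector. -/
lemma polar (v : E2) : ∃ s θ : ℝ, 0 ≤ s ∧ v = s • dir θ := by
  refine ⟨‖(⟨v 0, v 1⟩ : ℂ)‖, Complex.arg ⟨v 0, v 1⟩, norm_nonneg _, ?_⟩
  ext i
  fin_cases i
  · simp [dir]
  · simp [dir]

lemma inner_dir (θ : ℝ) : inner ℝ (dir θ) (dir θ) = 1 := by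
  have h := Real.cos_sq_add_sin_sq θ
  have h2 : ∀ v : E2, inner ℝ v (dir θ) = v 0 * Real.cos θ + v 1 * Real.sin θ := by
    intro v
    simp [dir, PiLp.inner_apply, Fin.sum_univ_two, mul_comm]
  rw [h2]
  simp only [dir]
  simp
  nlinarith [h]

end STR

theorem pSTR : S_STR := by
  intro Ω hΩ a x hx
  obtain ⟨s, θ, hs0, hv⟩ := STR.polar (x - a)
  refine ⟨s, θ, hs0, ?_, ?_⟩
  · have h1 : inner ℝ (x - a) (dir θ) = s := by
      rw [hv, inner_smul_left, STR.inner_dir]
      simp
    have h2 : inner ℝ x (dir θ) ≤ hs Ω (dir θ) := by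
      unfold hs
      apply le_csSup
      · obtain ⟨C, hC⟩ := hΩ.exists_norm_le
        refine ⟨C * ‖dir θ‖, ?_⟩
        rintro _ ⟨y, hy, rfl⟩
        refine (real_inner_le_norm y (dir θ)).trans ?_
        exact mul_le_mul_of_nonneg_right (hC y hy) (norm_nonneg _)
      · exact ⟨x, hx, rfl⟩
    rw [inner_sub_left] at h1
    unfold hc
    linarith
  · rw [← hv]
    abel

end Pool.Agent.T2H01.QI
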