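import Pool.Agent.T2H01.QI.Stm

set_option autoImplicit false

noncomputable section

open MeasureTheory Metric Set Filter Topology
open scoped NNReal ENNReal

namespace Pool.Agent.T2H01.QI

theorem pSUM (hCMP : S_CMP) : S_SUM := by
  classical
  intro Ω hΩ F hF
  unfold per
  have h1 : μH[1] (⋃ C ∈ F, frontier C) = ∑ C ∈ F, μH[1] (frontier C) := by
    apply measure_biUnion_finset
    · intro C hC D hD hne
      obtain ⟨z, hz, rfl⟩ := hF C hC
      obtain ⟨w, hw, rfl⟩ := hF D hD
      exact (hCMP Ω hΩ w hw).2.2.2 z hz hne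
    · intro C _
      exact isClosed_frontier.measurableSet
  rw [← h1]
  apply measure_mono
  refine iUnion₂_subset fun C hC => ?_
  obtain ⟨z, hz, rfl⟩ := hF C hC
  exact (hCMP Ω hΩ z hz).2.2.1


end Pool.Agent.T2H01.QI
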