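import Pool.Agent.T2H01.QI.Stm2

set_option autoImplicit false

noncomputable section

open MeasureTheory Metric Set Filter Topology
open scoped NNReal ENNReal

namespace Pool.Agent.T2H01.QI

namespace TAY

theorem key (r y : ℝ) (hr : 0 < r) (m : ℕ) :
    |(r + y) ^ (m + 2) - r ^ (m + 2) - (m + 2) * r ^ (m + 1) * y| ≤
      (m + 2) * (m + 1) / 2 * y ^ 2 * (r + |y|) ^ m := by
  induction m with
  | zero =>
    have h1 : (r + y) ^ (0 + 2) - r ^ (0 + 2) - ((0 : ℕ) + 2) * r ^ (0 + 1) * y = y ^ 2 := by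
      push_cast
      ring
    rw [h1, abs_of_nonneg (sq_nonneg y)]
    norm_num
  | succ m ih =>
    have h1 : (r + y) ^ (m + 1 + 2) - r ^ (m + 1 + 2) - ((m + 1 : ℕ) + 2) * r ^ (m + 1 + 1) * y =
        (r + y) * ((r + y) ^ (m + 2) - r ^ (m + 2) - (m + 2) * r ^ (m + 1) * y) +
          (m + 2) * r ^ (m + 1) * y ^ 2 := by
      push_cast
      ring
    rw [h1]
    have hy : |r + y| ≤ r + |y| := by
      calc |r + y| ≤ |r| + |y| := abs_add_le _ _
        _ = r + |y| := by rw [abs_of_pos hr]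
    have h0 : 0 ≤ r + |y| := by positivity
    have h2 : |(r + y) * ((r + y) ^ (m + 2) - r ^ (m + 2) - (m + 2) * r ^ (m + 1) * y)| ≤
        (r + |y|) * ((m + 2) * (m + 1) / 2 * y ^ 2 * (r + |y|) ^ m) := by
      rw [abs_mul]
      exact mul_le_mul hy ih (abs_nonneg _) h0
    have h3 : |(m + 2) * r ^ (m + 1) * y ^ 2| ≤ (m + 2) * y ^ 2 * (r + |y|) ^ (m + 1) := by
      rw [abs_of_nonneg (by positivity)]
      have h4 : r ^ (m + 1) ≤ (r + |y|) ^ (m + 1) :=
        pow_le_pow_left₀ hr.le (by linarith [abs_nonneg y]) _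
      calc (m + 2) * r ^ (m + 1) * y ^ 2 = (m + 2) * y ^ 2 * r ^ (m + 1) := by ring
        _ ≤ (m + 2) * y ^ 2 * (r + |y|) ^ (m + 1) :=
          mul_le_mul_of_nonneg_left h4 (by positivity)
    refine (abs_add_le _ _).trans ((add_le_add h2 h3).trans (le_of_eq ?_))
    push_cast
    ring

theorem pow_le (r y : ℝ) (k m : ℕ) (hr : 0 < r) (hy : |y| ≤ r / (k + 4)) (hm : m ≤ k + 4) :
    (r + |y|) ^ m ≤ 3 * r ^ m := by
  have hk : (0 : ℝ) < k + 4 := by positivity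
  have h1 : r + |y| ≤ r * (1 + 1 / (k + 4)) := by
    have : r * (1 + 1 / (k + 4)) = r + r / (k + 4) := by ring
    rw [this]
    linarith
  have h2 : (1 + 1 / ((k : ℝ) + 4)) ^ m ≤ 3 := by
    have h3 : 1 + 1 / ((k : ℝ) + 4) ≤ Real.exp (1 / (k + 4)) := by
      have := Real.add_one_le_exp (1 / ((k : ℝ) + 4))
      linarith
    calc (1 + 1 / ((k : ℝ) + 4)) ^ m ≤ (Real.exp (1 / (k + 4))) ^ m :=
          pow_le_pow_left₀ (by positivity) h3 _
      _ = Real.exp (m * (1 / (k + 4))) := (Real.exp_nat_mul _ _).symm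
      _ ≤ Real.exp 1 := by
          refine Real.exp_le_exp.2 ?_
          rw [mul_one_div, div_le_one hk]
          exact_mod_cast hm
      _ ≤ 3 := by
          have := Real.exp_one_lt_d9
          linarith
  calc (r + |y|) ^ m ≤ (r * (1 + 1 / (k + 4))) ^ m :=
        pow_le_pow_left₀ (by positivity) h1 _
    _ = (1 + 1 / ((k : ℝ) + 4)) ^ m * r ^ m := by rw [mul_pow]; ring
    _ ≤ 3 * r ^ m := mul_le_mul_of_nonneg_right h2 (by positivity)

end TAY

theorem pTAY : S_TAY := by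
  intro k r α₀ α₁ y hr hy
  have hA := TAY.key r y hr k
  have hB := TAY.key r y hr (k + 2)
  have hA3 := TAY.pow_le r y k k hr hy (by omega)
  have hB3 := TAY.pow_le r y k (k + 2) hr hy (by omega)
  have hk2 : (0 : ℝ) < k + 2 := by positivity
  have hk4 : (0 : ℝ) < k + 4 := by positivity
  obtain ⟨A, hAd⟩ : ∃ A : ℝ, A = (r + y) ^ (k + 2) - r ^ (k + 2) - (k + 2) * r ^ (k + 1) * y :=
    ⟨_, rfl⟩
  obtain ⟨B, hBd⟩ : ∃ B : ℝ, B = (r + y) ^ (k + 4) - r ^ (k + 4) - (k + 4) * r ^ (k + 3) * y :=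
    ⟨_, rfl⟩
  have hA' : |A| ≤ (k + 2) * (k + 1) / 2 * y ^ 2 * (3 * r ^ k) := by
    rw [hAd]
    exact hA.trans (mul_le_mul_of_nonneg_left hA3 (by positivity))
  have hB' : |B| ≤ (k + 4) * (k + 3) / 2 * y ^ 2 * (3 * r ^ (k + 2)) := by
    have h1 : |B| ≤ (k + 4) * (k + 3) / 2 * y ^ 2 * (r + |y|) ^ (k + 2) := by
      rw [hBd]
      refine le_trans (le_of_eq ?_) (hB.trans (le_of_eq ?_))
      · congr 1
        push_cast
        ring
      · push_cast
        ring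
    exact h1.trans (mul_le_mul_of_nonneg_left hB3 (by positivity))
  have hid : (α₀ * (r + y) ^ (k + 2) / (k + 2) + α₁ * (r + y) ^ (k + 4) / (k + 4)) -
        (α₀ * r ^ (k + 2) / (k + 2) + α₁ * r ^ (k + 4) / (k + 4)) -
        r ^ (k + 1) * (α₀ + α₁ * r ^ 2) * y = α₀ * (A / (k + 2)) + α₁ * (B / (k + 4)) := by
    rw [hAd, hBd]
    field_simp
    ring
  rw [hid]
  have h1 : |α₀ * (A / (k + 2))| ≤ |α₀| * ((k + 1) / 2 * y ^ 2 * (3 * r ^ k)) := by
    rw [abs_mul, abs_div, abs_of_pos hk2]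
    refine mul_le_mul_of_nonneg_left ?_ (abs_nonneg _)
    rw [div_le_iff₀ hk2]
    refine hA'.trans (le_of_eq ?_)
    ring
  have h2 : |α₁ * (B / (k + 4))| ≤ |α₁| * ((k + 3) / 2 * y ^ 2 * (3 * r ^ (k + 2))) := by
    rw [abs_mul, abs_div, abs_of_pos hk4]
    refine mul_le_mul_of_nonneg_left ?_ (abs_nonneg _)
    rw [div_le_iff₀ hk4]
    refine hB'.trans (le_of_eq ?_)
    ring
  refine (abs_add_le _ _).trans ((add_le_add h1 h2).trans (le_of_eq ?_))
  ring

end Pool.Agent.T2H01.QI
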