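import Pool.Agent.T2H01.QI.Stm

set_option autoImplicit false

noncomputable section

open MeasureTheory Metric Set Filter Topology
open scoped NNReal ENNReal

namespace Pool.Agent.T2H01.QI

namespace TR1

lemma integrableOn {Ω : Set E2} (hb : Bornology.IsBounded Ω) {u : E2 → ℝ}
    (hu : MemLp u 2 (volume.restrict Ω)) (a : ℝ) (x : E2) (r : ℝ) :
    IntegrableOn (fun y => |u y - a|) (ball x r ∩ Ω) volume := by
  have : IsFiniteMeasure (volume.restrict Ω) :=
    ⟨by rw [Measure.restrict_apply_univ]; exact hb.measure_lt_top⟩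
  have h1 : Integrable u (volume.restrict Ω) := hu.integrable one_le_two
  have h2 : IntegrableOn (fun y => |u y - a|) Ω volume := (h1.sub (integrable_const a)).abs
  exact h2.mono_set inter_subset_right

lemma avg_mono {s : Set E2} {F G : E2 → ℝ} (h0 : ∀ᵐ y ∂volume.restrict s, 0 ≤ F y)
    (hG : IntegrableOn G s volume) (h : ∀ᵐ y ∂volume.restrict s, F y ≤ G y) :
    ⨍ y in s, F y ≤ ⨍ y in s, G y := by
  rw [setAverage_eq, setAverage_eq, smul_eq_mul, smul_eq_mul]
  exact mul_le_mul_of_nonneg_left (integral_mono_of_nonneg h0 hG h)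
    (inv_nonneg.2 measureReal_nonneg)

end TR1

open TR1 in
theorem pTR1 : S_TR1 := by
  intro Ω hO hb u g hu ht
  obtain ⟨hg, hlim⟩ := ht
  refine ⟨hg.neg_part, ?_⟩
  filter_upwards [hlim] with x hx
  refine squeeze_zero (fun r => ?_) (fun r => ?_) hx
  · rw [setAverage_eq, smul_eq_mul]
    exact mul_nonneg (inv_nonneg.2 measureReal_nonneg) (integral_nonneg fun y => abs_nonneg _)
  · refine avg_mono (Eventually.of_forall fun y => abs_nonneg _) (integrableOn hb hu (g x) x r)
      (Eventually.of_forall fun y => ?_)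
    have h1 := abs_max_sub_max_le_abs (-u y) (-g x) 0
    have h2 : |(-u y) - (-g x)| = |u y - g x| := by
      rw [← abs_neg]
      congr 1
      ring
    rw [h2] at h1
    exact h1

end Pool.Agent.T2H01.QI
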