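import Pool.Agent.T2H01.QI.Stm

set_option autoImplicit false

noncomputable section

open MeasureTheory Metric Set Filter Topology
open scoped NNReal ENNReal

namespace Pool.Agent.T2H01.QI

namespace TR2

lemma integrableOn {Ω : Set E2} (hb : Bornology.IsBounded Ω) {u : E2 → ℝ}
    (hu : MemLp u 2 (volume.restrict Ω)) (a : ℝ) (x : E2) (r : ℝ) :
    IntegrableOn (fun y => |u y - a|) (ball x r ∩ Ω) volume := by
  have : IsFiniteMeasure (volume.restrict Ω) :=
    ⟨by rw [Measure.restrict_apply_univ]; exact hb.measure_lt_top⟩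
  have h1 : Integrable u (volume.restrict Ω) := hu.integrable one_le_two
  have h2 : IntegrableOn (fun y => |u y - a|) Ω volume := (h1.sub (integrable_const a)).abs
  exact h2.mono_set inter_subset_right

lemma avg_mono {s : Set E2} {F G : E2 → ℝ} (h0 : ∀ᵐ y ∂volume.restrict s, 0 ≤ F y)
    (hG : IntegrableOn G s volume) (h : ∀ᵐ y ∂volume.restrict s, F y ≤ G y) :
    ⨍ y in s, F y ≤ ⨍ y in s, G y := by
  rw [setAverage_eq, setAverage_eq, smul_eq_mul, smul_eq_mul]
  exact mul_le_mul_of_nonneg_left (integral_mono_of_nonneg h0 hG h)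
    (inv_nonneg.2 measureReal_nonneg)

end TR2

open TR2 in
theorem pTR2 : S_TR2 := by
  intro Ω hO hb u g c hu ht hc
  obtain ⟨hg, hlim⟩ := ht
  have hmem : ∀ᵐ x ∂(μH[1].restrict (frontier Ω) : Measure E2), x ∈ frontier Ω :=
    ae_restrict_mem isClosed_frontier.measurableSet
  filter_upwards [hlim, hmem] with x hx hxf
  by_contra hcon
  push Not at hcon
  have hpos : 0 < c - g x := by linarith
  have hle : c - g x ≤ 0 := by
    refine ge_of_tendsto hx ?_
    filter_upwards [self_mem_nhdsWithin] with r hr
    have hr' : 0 < r := hr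
    have hne : (ball x r ∩ Ω).Nonempty := by
      have hxc : x ∈ closure Ω := frontier_subset_closure hxf
      rw [Metric.mem_closure_iff] at hxc
      obtain ⟨y, hy, hd⟩ := hxc r hr'
      exact ⟨y, by rw [mem_ball, dist_comm]; exact hd, hy⟩
    have hp : volume (ball x r ∩ Ω) ≠ 0 := ((isOpen_ball.inter hO).measure_pos volume hne).ne'
    have hf : volume (ball x r ∩ Ω) ≠ ⊤ :=
      (measure_mono inter_subset_left |>.trans_lt measure_ball_lt_top).ne
    rw [← setAverage_const hp hf (c - g x)]
    refine avg_mono (Eventually.of_forall fun y => hpos.le) (integrableOn hb hu (g x) x r) ?_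
    have h1 : ∀ᵐ y ∂volume.restrict (ball x r ∩ Ω), c ≤ u y :=
      ae_restrict_of_ae_restrict_of_subset inter_subset_right hc
    filter_upwards [h1] with y hy
    exact le_trans (by linarith) (le_abs_self _)
  linarith

end Pool.Agent.T2H01.QI
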