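import Pool.Agent.T2H01.QI.Stm

set_option autoImplicit false

noncomputable section

open MeasureTheory Metric Set Filter Topology
open scoped NNReal ENNReal

namespace Pool.Agent.T2H01.QI

namespace VER

/-- the point with the coordinates `p` -/
def mk (p : ℝ × ℝ) : E2 := !₂[p.1, p.2]

theorem mk0 (p : ℝ × ℝ) : mk p 0 = p.1 := rfl
theorem mk1 (p : ℝ × ℝ) : mk p 1 = p.2 := rfl

def eqv : ℝ × ℝ ≃ᵐ E2 := MeasurableEquiv.finTwoArrow.symm.trans (MeasurableEquiv.toLp 2 (Fin 2 → ℝ))

theorem eqv_apply (p : ℝ × ℝ) : eqv p = mk p := by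
  ext i
  fin_cases i <;> rfl

theorem mp : MeasurePreserving eqv (volume : Measure (ℝ × ℝ)) (volume : Measure E2) :=
  (volume_preserving_finTwoArrow ℝ).symm.trans
    (EuclideanSpace.volume_preserving_symm_measurableEquiv_toLp (Fin 2)).symm

theorem mk_line (s t : ℝ) : mk (s, t) = mk (s, 0) + t • EuclideanSpace.single (1 : Fin 2) (1 : ℝ) := by
  ext i
  fin_cases i <;> simp [mk]

theorem line_deriv (s t : ℝ) : HasDerivAt (fun t : ℝ => mk (s, t)) (EuclideanSpace.single (1 : Fin 2) (1 : ℝ)) t := by
  have h : (fun t : ℝ => mk (s, t)) = fun t : ℝ => mk (s, 0) + t • EuclideanSpace.single (1 : Fin 2) (1 : ℝ) := by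
    funext t; exact mk_line s t
  rw [h]
  have := ((hasDerivAt_id t).smul_const (EuclideanSpace.single (1 : Fin 2) (1 : ℝ))).const_add (mk (s, 0))
  simpa using this

theorem line_smooth (s : ℝ) : ContDiff ℝ 1 (fun t : ℝ => mk (s, t)) := by
  have h : (fun t : ℝ => mk (s, t)) = fun t : ℝ => mk (s, 0) + t • EuclideanSpace.single (1 : Fin 2) (1 : ℝ) := by
    funext t; exact mk_line s t
  rw [h]
  fun_prop

theorem norm_ge (s t : ℝ) : |t| ≤ ‖mk (s, t)‖ := by
  have := PiLp.norm_apply_le (mk (s, t)) 1
  rwa [mk1, Real.norm_eq_abs] at this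

end VER

open VER in
theorem pVER : S_VER := by
  intro f K hf ψ hψ hc
  have hfc : Continuous f := hf.continuous
  set D : E2 → ℝ := fun x => fderiv ℝ ψ x (EuclideanSpace.single 1 1) with hD
  have hDc : Continuous D := (hψ.continuous_fderiv (by norm_num)).clm_apply continuous_const
  have hDs : HasCompactSupport D := by
    have h1 := hc.fderiv (𝕜 := ℝ)
    refine h1.comp_left (g := fun L : E2 →L[ℝ] ℝ => L (EuclideanSpace.single 1 1)) ?_
    simp
  have hDi : Integrable D := hDc.integrable_of_hasCompactSupport hDs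
  have hmeas : MeasurableSet (Below f) := by
    have : IsOpen (Below f) := by
      apply isOpen_lt
      · exact (EuclideanSpace.proj (𝕜 := ℝ) (1 : Fin 2)).continuous
      · exact hfc.comp (EuclideanSpace.proj (𝕜 := ℝ) (0 : Fin 2)).continuous
    exact this.measurableSet
  rw [← integral_indicator hmeas, ← mp.integral_comp eqv.measurableEmbedding]
  have hint : Integrable (fun p : ℝ × ℝ => (Below f).indicator D (eqv p)) (volume : Measure (ℝ × ℝ)) :=
    (mp.integrable_comp_emb eqv.measurableEmbedding).2 (hDi.indicator hmeas)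
  rw [Measure.volume_eq_prod] at hint ⊢
  rw [integral_prod _ hint]
  refine integral_congr_ae (Eventually.of_forall fun s => ?_)
  simp only
  set g : ℝ → ℝ := fun t => ψ (mk (s, t)) with hg
  have hgd : ContDiff ℝ 1 g := hψ.comp (line_smooth s)
  have hgs : HasCompactSupport g := by
    obtain ⟨R, hR⟩ := hc.isCompact.isBounded.subset_closedBall 0
    refine HasCompactSupport.intro (isCompact_Icc (a := -R) (b := R)) fun t ht => ?_
    rw [hg]
    simp only
    apply image_eq_zero_of_notMem_tsupport
    intro h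
    have h1 := hR h
    rw [mem_closedBall_zero_iff] at h1
    have h2 := (norm_ge s t).trans h1
    exact ht (abs_le.1 h2)
  have hgderiv : ∀ t, deriv g t = D (mk (s, t)) := by
    intro t
    have h1 : HasFDerivAt ψ (fderiv ℝ ψ (mk (s, t))) (mk (s, t)) :=
      (hψ.differentiable (by norm_num) _).hasFDerivAt
    exact (h1.comp_hasDerivAt t (line_deriv s t)).deriv
  have h1 := HasCompactSupport.integral_Iic_deriv_eq hgd hgs (f s)
  have h2 : ∫ t, (Below f).indicator D (eqv (s, t)) = ∫ t in Iic (f s), deriv g t := by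
    rw [integral_Iic_eq_integral_Iio, ← integral_indicator measurableSet_Iio]
    refine integral_congr_ae (Eventually.of_forall fun t => ?_)
    simp only [eqv_apply]
    by_cases ht : t < f s
    · rw [indicator_of_mem (show mk (s, t) ∈ Below f from ht), indicator_of_mem (show t ∈ Iio (f s) from ht),
        hgderiv]
    · rw [indicator_of_notMem (show mk (s, t) ∉ Below f from ht),
        indicator_of_notMem (show t ∉ Iio (f s) from ht)]
  rw [h2, h1]
  rfl

end Pool.Agent.T2H01.QI
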