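import Pool.Agent.T2H01.QI.Stm

/-!
# Package VOL: finitely many components carry almost all the area
-/

set_option autoImplicit false

open MeasureTheory Metric Set Filter Topology
open scoped NNReal ENNReal

namespace Pool.Agent.T2H01.QI

theorem pVOL : S_VOL := by
  intro Ω hΩ hb η hη
  set S : Set (Set E2) := {C | ∃ z ∈ Ω, C = connectedComponentIn Ω z} with hS
  have hopen : ∀ C ∈ S, IsOpen C := by
    rintro C ⟨z, -, rfl⟩
    exact hΩ.connectedComponentIn
  have hne : ∀ C ∈ S, C.Nonempty := by
    rintro C ⟨z, hz, rfl⟩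
    exact ⟨z, mem_connectedComponentIn hz⟩
  have hdisj : S.PairwiseDisjoint id := by
    rintro C ⟨z, hz, rfl⟩ D ⟨w, hw, rfl⟩ hCD
    rw [Function.onFun, id, id, Set.disjoint_iff_inter_eq_empty, Set.eq_empty_iff_forall_notMem]
    rintro x ⟨hx1, hx2⟩
    exact hCD ((connectedComponentIn_eq hx1).trans (connectedComponentIn_eq hx2).symm)
  have hcount : S.Countable := hdisj.countable_of_isOpen hopen hne
  have hUn : ⋃₀ S = Ω := by
    ext x
    constructor
    · rintro ⟨C, ⟨z, hz, rfl⟩, hx⟩
      exact connectedComponentIn_subset Ω z hx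
    · intro hx
      exact ⟨_, ⟨x, hx, rfl⟩, mem_connectedComponentIn hx⟩
  have hfin : volume Ω ≠ ⊤ := hb.measure_lt_top.ne
  have hsum : volume Ω = ∑' C : S, volume (C : Set E2) := by
    rw [← hUn]
    exact measure_sUnion hcount hdisj fun C hC => (hopen C hC).measurableSet
  have hne' : ∀ C : S, volume (C : Set E2) ≠ ⊤ := fun C => by
    have : (C : Set E2) ⊆ Ω := by
      rw [← hUn]
      exact subset_sUnion_of_mem C.2
    exact ((measure_mono this).trans_lt hfin.lt_top).ne
  have hreal : HasSum (fun C : S => volume.real (C : Set E2)) (volume.real Ω) := by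
    have h1 : (∑' C : S, volume (C : Set E2)) ≠ ⊤ := by rwa [← hsum]
    have h2 := ENNReal.hasSum_toReal h1
    have h3 : (∑' C : S, (volume (C : Set E2)).toReal) = volume.real Ω := by
      rw [← ENNReal.tsum_toReal_eq hne', ← hsum]
      rfl
    rw [h3] at h2
    exact h2
  have hev := (hreal.eventually (lt_mem_nhds (sub_lt_self (volume.real Ω) hη)))
  obtain ⟨F, hF⟩ := hev.exists
  refine ⟨F.map (Function.Embedding.subtype _), ?_, ?_, ?_⟩
  · intro C hC
    rw [Finset.mem_map] at hC
    obtain ⟨C', -, rfl⟩ := hC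
    exact C'.2
  · rw [Finset.sum_map]
    exact hF.le
  · rw [Finset.sum_map]
    exact sum_le_hasSum F (fun _ _ => measureReal_nonneg) hreal

end Pool.Agent.T2H01.QI
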