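import Pool.Agent.T2H01.QI.Stm

/-! # Project QI, package VSC: the solution on the disc -/

set_option autoImplicit false

noncomputable section

open MeasureTheory Metric Set Filter Topology
open scoped NNReal ENNReal

namespace Pool.Agent.T2H01.QI

namespace VSC

theorem hasFDeriv (β R : ℝ) (x : E2) :
    HasFDerivAt (vsol β R) (-(1 / 2 : ℝ) • innerSL ℝ x) x := by
  have h1 : HasFDerivAt (fun y : E2 => ‖y‖ ^ 2) (2 • (innerSL ℝ x)) x :=
    (hasStrictFDerivAt_norm_sq x).hasFDerivAt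
  have h2 : vsol β R = fun y : E2 => (R ^ 2 / 4 + R / (2 * β)) - (1 / 4 : ℝ) * ‖y‖ ^ 2 := by
    funext y; unfold vsol; ring
  rw [h2]
  have h3 := (h1.const_mul (1 / 4 : ℝ)).const_sub (R ^ 2 / 4 + R / (2 * β))
  refine h3.congr_fderiv ?_
  ext v
  simp
  ring

end VSC

open VSC in
theorem pVSC : S_VSC := by
  intro β R hβ hR
  refine ⟨?_, ?_, ?_⟩
  · unfold vsol
    have : ContDiff ℝ (⊤ : ℕ∞) (fun x : E2 => ‖x‖ ^ 2) := contDiff_norm_sq ℝ
    fun_prop
  · intro x
    have hf : ∀ y : E2, fderiv ℝ (vsol β R) y = -(1 / 2 : ℝ) • innerSL ℝ y := fun y =>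
      (hasFDeriv β R y).fderiv
    have h2 : ∀ i : Fin 2, fderiv ℝ (fun y : E2 => fderiv ℝ (vsol β R) y (EuclideanSpace.single i 1)) x
        (EuclideanSpace.single i 1) = -(1 / 2 : ℝ) := by
      intro i
      have e : (fun y : E2 => fderiv ℝ (vsol β R) y (EuclideanSpace.single i 1)) =
          fun y : E2 => (-(1 / 2 : ℝ)) * (EuclideanSpace.proj i : E2 →L[ℝ] ℝ) y := by
        funext y
        rw [hf y]
        simp [EuclideanSpace.inner_single_right]
      rw [e]
      have h := ((EuclideanSpace.proj i : E2 →L[ℝ] ℝ).hasFDerivAt (x := x)).const_mul (-(1 / 2 : ℝ))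
      rw [h.fderiv]
      simp
    simp only [h2, Fin.sum_univ_two]
    norm_num
  · intro x hx
    rw [(hasFDeriv β R x).fderiv]
    have : inner ℝ x x = R ^ 2 := by rw [real_inner_self_eq_norm_sq, hx]
    simp [vsol, hx]
    field_simp
    ring

end Pool.Agent.T2H01.QI
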