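import Pool.Agent.T2H01.QI.ORT

/-! # Package WID: the mean width -/

set_option autoImplicit false

noncomputable section

open MeasureTheory Metric Set Filter Topology
open scoped NNReal ENNReal

namespace Pool.Agent.T2H01.QI

namespace WID

lemma nd_ext {N j : ℕ} {v : E2} (h0 : v 0 = Real.cos (2 * Real.pi * j / N))
    (h1 : v 1 = Real.sin (2 * Real.pi * j / N)) : v = nd N j := by
  ext i
  fin_cases i
  · simpa [ORT.nd_zero] using h0
  · simpa [ORT.nd_one] using h1

lemma nd_period {N : ℕ} (hN : 0 < N) (j : ℕ) : nd N (j + N) = nd N j := by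
  have hN0 : (N : ℝ) ≠ 0 := by exact_mod_cast hN.ne'
  have h : 2 * Real.pi * ((j + N : ℕ) : ℝ) / N = 2 * Real.pi * j / N + 2 * Real.pi := by
    push_cast
    field_simp
  apply nd_ext
  · rw [ORT.nd_zero, h, Real.cos_add_two_pi]
  · rw [ORT.nd_one, h, Real.sin_add_two_pi]

lemma nd_neg {M : ℕ} (hM : 0 < M) (j : ℕ) : -nd (2 * M) j = nd (2 * M) (j + M) := by
  have hM0 : (M : ℝ) ≠ 0 := by exact_mod_cast hM.ne'
  have h : 2 * Real.pi * ((j + M : ℕ) : ℝ) / ((2 * M : ℕ) : ℝ) =
      2 * Real.pi * j / ((2 * M : ℕ) : ℝ) + Real.pi := by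
    push_cast
    field_simp
  apply nd_ext
  · rw [h, Real.cos_add_pi, ← ORT.nd_zero]
    simp
  · rw [h, Real.sin_add_pi, ← ORT.nd_one]
    simp

end WID

open WID in
theorem pWID (hGG3 : S_GG3) (hMOL1 : S_MOL1) (hMOL2 : S_MOL2) (hDIRV : S_DIRV) (hKN : S_KN)
    (hPRJ : S_PRJ) : S_WID := by
  intro Ω hΩ hconn hper M hM
  obtain ⟨N, hN⟩ : ∃ N : ℕ, N = 2 * M := ⟨_, rfl⟩
  rw [← hN]
  have hN0 : 0 < N := by omega
  have hNR : (0 : ℝ) < N := by exact_mod_cast hN0
  set P : ℝ := (per Ω).toReal with hP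
  set K : ℝ := 2 * (N : ℝ) / Real.pi + Real.pi with hK
  have hK0 : 0 ≤ K := by have := Real.pi_pos; positivity
  -- every direction
  have hmain : ∀ η : ℝ, 0 < η →
      ∑ j ∈ Finset.range N, 2 * (hs Ω (nd N j) + hs Ω (-nd N j) - η) ≤ K * P := by
    intro η hη
    have hev : ∀ j ∈ Finset.range N, ∀ᶠ ε in 𝓝[>] (0 : ℝ),
        ENNReal.ofReal (hs Ω (nd N j) + hs Ω (-nd N j) - η) ≤
          volume ((fun x : E2 => inner ℝ x (nd N j)) '' inn Ω ε) := by
      intro j _
      obtain ⟨ε₀, hε₀, h1⟩ := hPRJ Ω hΩ.1 hΩ.2.1 hconn (nd N j) η hη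
      filter_upwards [Ioc_mem_nhdsGT hε₀] with ε hε
      exact h1 ε hε.1 hε.2
    have hev2 := (Filter.eventually_all_finset (Finset.range N)).2 hev
    obtain ⟨ε, hε, hεpos⟩ := (hev2.and self_mem_nhdsWithin).exists
    have hεpos' : 0 < ε := hεpos
    obtain ⟨u, hu, hucs, hu0, hu1, hudiv⟩ := hMOL1 Ω hΩ.1 hΩ.2.1 P (fun φ hφ hφc hφ1 => by
      have h1 := hGG3 Ω hΩ φ hφ hφc hφ1
      rw [← ENNReal.ofReal_toReal hper.ne, ← hP] at h1
      exact (ENNReal.ofReal_le_ofReal_iff ENNReal.toReal_nonneg).1 h1) ε hεpos'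
    have hvar : ∫ x, ‖fderiv ℝ u x‖ ≤ P := hMOL2 u P hu hucs hudiv
    have hu1' : ContDiff ℝ 1 u := hu.of_le (by exact_mod_cast le_top)
    have hdc : Continuous (fderiv ℝ u) := hu1'.continuous_fderiv (by norm_num)
    have hdcs : HasCompactSupport (fderiv ℝ u) := hucs.fderiv ℝ
    have hdi : Integrable (fun x => ‖fderiv ℝ u x‖) :=
      (hdc.integrable_of_hasCompactSupport hdcs).norm
    have hwi : ∀ w : E2, Integrable (fun x => fderiv ℝ u x w) := fun w => by
      have h1 : Continuous fun x => fderiv ℝ u x w := hdc.clm_apply continuous_const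
      refine h1.integrable_of_hasCompactSupport ?_
      exact hdcs.comp_left (g := fun L : E2 →L[ℝ] ℝ => L w) rfl
    have hdir : ∀ j ∈ Finset.range N, 2 * (hs Ω (nd N j) + hs Ω (-nd N j) - η) ≤
        ∫ x, |fderiv ℝ u x (dir (2 * Real.pi * j / N + Real.pi / 2))| := by
      intro j hj
      have h1 := hε j hj
      have h2 := hDIRV u hu1' hucs hu0 (2 * Real.pi * j / N) (inn Ω ε) hu1
      have h3 : ENNReal.ofReal (2 * (hs Ω (nd N j) + hs Ω (-nd N j) - η)) ≤
          ENNReal.ofReal (∫ x, |fderiv ℝ u x (dir (2 * Real.pi * j / N + Real.pi / 2))|) := by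
        rw [ENNReal.ofReal_mul (by norm_num), ENNReal.ofReal_ofNat]
        refine (mul_le_mul_right h1 2).trans ?_
        refine h2.trans (le_of_eq ?_)
        have h4 := ofReal_integral_norm_eq_lintegral_enorm
          (hwi (dir (2 * Real.pi * j / N + Real.pi / 2)))
        rw [← h4]
        simp_rw [Real.norm_eq_abs]
      exact (ENNReal.ofReal_le_ofReal_iff (integral_nonneg fun x => abs_nonneg _)).1 h3
    calc ∑ j ∈ Finset.range N, 2 * (hs Ω (nd N j) + hs Ω (-nd N j) - η)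
        ≤ ∑ j ∈ Finset.range N,
            ∫ x, |fderiv ℝ u x (dir (2 * Real.pi * j / N + Real.pi / 2))| :=
          Finset.sum_le_sum hdir
      _ = ∫ x, ∑ j ∈ Finset.range N,
            |fderiv ℝ u x (dir (2 * Real.pi * j / N + Real.pi / 2))| := by
          rw [integral_finsetSum]
          exact fun j _ => (hwi _).abs
      _ ≤ ∫ x, K * ‖fderiv ℝ u x‖ := by
          refine integral_mono (integrable_finsetSum _ fun j _ => (hwi _).abs) (hdi.const_mul K)
            fun x => ?_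
          have h1 := hKN N hN0 ((InnerProductSpace.toDual ℝ E2).symm (fderiv ℝ u x))
            (Real.pi / 2)
          rw [LinearIsometryEquiv.norm_map] at h1
          simp_rw [InnerProductSpace.toDual_symm_apply] at h1
          exact h1
      _ = K * ∫ x, ‖fderiv ℝ u x‖ := integral_const_mul _ _
      _ ≤ K * P := mul_le_mul_of_nonneg_left hvar hK0
  -- opposite directions
  have hopp : ∑ j ∈ Finset.range N, hs Ω (-nd N j) = ∑ j ∈ Finset.range N, hs Ω (nd N j) := by
    have h1 : ∀ j, hs Ω (-nd N j) = hs Ω (nd N (j + M)) := fun j => by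
      rw [hN, nd_neg hM]
    simp_rw [h1]
    exact ORT.shift (g := fun j => hs Ω (nd N j)) (fun j => by
      rw [nd_period hN0]) M
  have hlim : ∀ δ : ℝ, 0 < δ → 4 * ∑ j ∈ Finset.range N, hs Ω (nd N j) ≤ K * P + δ := by
    intro δ hδ
    have h1 := hmain (δ / (2 * N)) (by positivity)
    rw [← Finset.mul_sum, Finset.sum_sub_distrib, Finset.sum_add_distrib, hopp,
      Finset.sum_const, Finset.card_range, nsmul_eq_mul] at h1
    have h2 : (N : ℝ) * (δ / (2 * N)) = δ / 2 := by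
      field_simp
    rw [h2] at h1
    linarith
  exact le_of_forall_pos_le_add hlim

end Pool.Agent.T2H01.QI
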