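import Pool.Agent.T2H01.QI.GRF
import Pool.Agent.T2H01.QI.PERF
import Pool.Agent.T2H01.QI.CHN
import Pool.Agent.T2H01.QI.NEG
import Pool.Agent.T2H01.QI.TR1
import Pool.Agent.T2H01.QI.POS
import Pool.Agent.T2H01.QI.TR2
import Pool.Agent.T2H01.QI.FLX
import Pool.Agent.T2H01.QI.LOC
import Pool.Agent.T2H01.QI.CMP
import Pool.Agent.T2H01.QI.NRM
import Pool.Agent.T2H01.QI.RES
import Pool.Agent.T2H01.QI.SUM
import Pool.Agent.T2H01.QI.VOL
import Pool.Agent.T2H01.QI.LEN1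
import Pool.Agent.T2H01.QI.LEN
import Pool.Agent.T2H01.QI.INT
import Pool.Agent.T2H01.QI.VER
import Pool.Agent.T2H01.QI.HOR
import Pool.Agent.T2H01.QI.GG1
import Pool.Agent.T2H01.QI.GG2
import Pool.Agent.T2H01.QI.IN0
import Pool.Agent.T2H01.QI.GG3
import Pool.Agent.T2H01.QI.MOL1
import Pool.Agent.T2H01.QI.MOL2
import Pool.Agent.T2H01.QI.DIRV
import Pool.Agent.T2H01.QI.KN
import Pool.Agent.T2H01.QI.PRJ
import Pool.Agent.T2H01.QI.WID
import Pool.Agent.T2H01.QI.TRI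
import Pool.Agent.T2H01.QI.COV
import Pool.Agent.T2H01.QI.QTR
import Pool.Agent.T2H01.QI.ARE
import Pool.Agent.T2H01.QI.ORT
import Pool.Agent.T2H01.QI.WIR
import Pool.Agent.T2H01.QI.SUPB
import Pool.Agent.T2H01.QI.CONp
import Pool.Agent.T2H01.QI.LIM
import Pool.Agent.T2H01.QI.BIG
import Pool.Agent.T2H01.QI.HCT
import Pool.Agent.T2H01.QI.GE1
import Pool.Agent.T2H01.QI.GE0
import Pool.Agent.T2H01.QI.GE2
import Pool.Agent.T2H01.QI.GE3
import Pool.Agent.T2H01.QI.PARS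
import Pool.Agent.T2H01.QI.DM
import Pool.Agent.T2H01.QI.HARM
import Pool.Agent.T2H01.QI.KEY
import Pool.Agent.T2H01.QI.STR
import Pool.Agent.T2H01.QI.POL
import Pool.Agent.T2H01.QI.AREA
import Pool.Agent.T2H01.QI.SO
import Pool.Agent.T2H01.QI.TAY
import Pool.Agent.T2H01.QI.MOM
import Pool.Agent.T2H01.QI.MO
import Pool.Agent.T2H01.QI.DIVX
import Pool.Agent.T2H01.QI.BDY
import Pool.Agent.T2H01.QI.CMB
import Pool.Agent.T2H01.QI.OPT
import Pool.Agent.T2H01.QI.ASY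
import Pool.Agent.T2H01.QI.CONN
import Pool.Agent.T2H01.QI.SHP
import Pool.Agent.T2H01.QI.ALL
import Pool.Agent.T2H01.QI.VSC

/-!
# Assembly of the project QI
-/

set_option autoImplicit false

namespace Pool.Agent.T2H01.QI.Asm

open Pool.Agent.T2H01.QI

theorem aGRF : S_GRF := pGRF
theorem aPERF : S_PERF := pPERF aGRF
theorem aCHN : S_CHN := pCHN
theorem aNEG : S_NEG := pNEG aCHN
theorem aTR1 : S_TR1 := pTR1
theorem aPOS : S_POS := pPOS aNEG aTR1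
theorem aTR2 : S_TR2 := pTR2
theorem aFLX : S_FLX := pFLX aPERF aPOS aTR2
theorem aLOC : S_LOC := pLOC aGRF
theorem aCMP : S_CMP := pCMP aLOC
theorem aNRM : S_NRM := pNRM aLOC aCMP
theorem aRES : S_RES := pRES aLOC aCMP aNRM
theorem aSUM : S_SUM := pSUM aCMP
theorem aVOL : S_VOL := pVOL
theorem aLEN1 : S_LEN1 := pLEN1
theorem aLEN : S_LEN := pLEN aLEN1
theorem aINT : S_INT := pINT aLEN
theorem aVER : S_VER := pVER
theorem aHOR : S_HOR := pHOR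
theorem aGG1 : S_GG1 := pGG1 aVER aHOR
theorem aGG2 : S_GG2 := pGG2 aGRF aINT aGG1
theorem aIN0 : S_IN0 := pIN0
theorem aGG3 : S_GG3 := pGG3 aGG2 aIN0
theorem aMOL1 : S_MOL1 := pMOL1
theorem aMOL2 : S_MOL2 := pMOL2
theorem aDIRV : S_DIRV := pDIRV
theorem aKN : S_KN := pKN
theorem aPRJ : S_PRJ := pPRJ
theorem aWID : S_WID := pWID aGG3 aMOL1 aMOL2 aDIRV aKN aPRJ
theorem aTRI : S_TRI := pTRI
theorem aCOV : S_COV := pCOV
theorem aQTR : S_QTR := pQTR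
theorem aARE : S_ARE := pARE aTRI aCOV aQTR
theorem aORT : S_ORT := pORT aQTR
theorem aWIR : S_WIR := pWIR
theorem aSUPB : S_SUPB := pSUPB aARE aORT aWIR
theorem aCON : S_CON := pCON
theorem aLIM : S_LIM := pLIM aWID aSUPB aCON
theorem aBIG : S_BIG := pBIG aSUM aVOL aCMP aPERF aLIM
theorem aHCT : S_HCT := pHCT
theorem aGE1 : S_GE1 := pGE1 aWID aHCT
theorem aGE0 : S_GE0 := pGE0 aHCT
theorem aGE2 : S_GE2 := pGE2 aHCT aARE aORT aWIR
theorem aGE3 : S_GE3 := pGE3 aHCT aGE0 aARE aORT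
theorem aPARS : S_PARS := pPARS
theorem aDM : S_DM := pDM aGE0 aGE2 aGE3 aPARS
theorem aHARM : S_HARM := pHARM
theorem aKEY : S_KEY := pKEY aPERF aTR2 aHARM
theorem aSTR : S_STR := pSTR
theorem aPOL : S_POL := pPOL
theorem aAREA : S_AREA := pAREA aPOL
theorem aSO : S_SO := pSO aGE0 aGE2 aSTR aAREA aDM
theorem aTAY : S_TAY := pTAY
theorem aMOM : S_MOM := pMOM aPOL aTAY
theorem aMO : S_MO := pMO aGE0 aGE2 aPOL aMOM aHARM aDM aSO
theorem aDIVX : S_DIVX := pDIVX aHARM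
theorem aBDY : S_BDY := pBDY aHARM aDIVX
theorem aCMB : S_CMB := pCMB aPERF aGE0 aGE1 aDM aSO aMO aBDY aKEY
theorem aOPT : S_OPT := pOPT
theorem aASY : S_ASY := pASY aGE0 aGE2 aPOL aSO aDM
theorem aCONN : S_CONN := pCONN aPERF aGE1 aDM aKEY aCMB aOPT aASY
theorem aSHP : S_SHP := pSHP
theorem aALL : S_ALL := pALL aPERF aPOS aFLX aRES aCMP aBIG aCONN aSHP
theorem aVSC : S_VSC := pVSC

end Pool.Agent.T2H01.QI.Asm
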