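import Pool.Agent.T2H01.QI.Stm3

/-!
# Package BDY2
-/

set_option autoImplicit false

noncomputable section

open MeasureTheory Metric Set Filter Topology
open scoped NNReal ENNReal

namespace Pool.Agent.T2H01.QI

namespace BDY2

theorem front_le {Ω : Set E2} {a : E2} {ϱ : ℝ} (h : Ω ⊆ closedBall a ϱ) {x : E2}
    (hx : x ∈ frontier Ω) : ‖x - a‖ ≤ ϱ := by
  have h1 : x ∈ closedBall a ϱ := by
    have h2 := closure_mono h (frontier_subset_closure hx)
    rwa [isClosed_closedBall.closure_eq] at h2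
  rwa [mem_closedBall, dist_eq_norm] at h1

theorem finH {Ω : Set E2} (hper : per Ω < ⊤) :
    IsFiniteMeasure ((μH[1] : Measure E2).restrict (frontier Ω)) := ⟨by
  rw [Measure.restrict_apply_univ]
  exact hper⟩

theorem hp_one (a : E2) : Pool.Agent.T2H01.QI.hp 0 1 a = fun _ => (1 : ℝ) := by
  funext x
  simp [Pool.Agent.T2H01.QI.hp]

end BDY2

open BDY2 in
theorem pBDY2 (hDIVX : S_DIVX) : S_BDY2 := by
  intro Ω ν hΩo hΩb hper hν a r ϱ hr hϱ hsub φ B hφs hφB
  obtain ⟨hνm, hν1, hdiv⟩ := hν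
  obtain ⟨hXs, hX1, hXd⟩ := hDIVX a r hr
  have hfinH := finH hper
  set μ : Measure E2 := (μH[1] : Measure E2).restrict (frontier Ω) with hμ
  have hae : ∀ᵐ x ∂μ, x ∈ frontier Ω := by
    rw [hμ]
    exact ae_restrict_mem isClosed_frontier.measurableSet
  -- the scalar `p = ⟨X, ν⟩`
  set p : E2 → ℝ := fun x => inner ℝ (Xf a r x) (ν x) with hp
  have hpm : AEStronglyMeasurable p μ :=
    (hXs.continuous.aestronglyMeasurable).inner hνm
  have hpb : ∀ᵐ x ∂μ, |p x| ≤ 1 := by
    filter_upwards [hae, hν1] with x hx hx1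
    have h1 := abs_real_inner_le_norm (Xf a r x) (ν x)
    rw [hx1, mul_one] at h1
    exact h1.trans (hX1 x ((front_le hsub hx).trans hϱ))
  have hpi : Integrable p μ := Integrable.of_bound hpm 1 (by
    filter_upwards [hpb] with x hx
    rwa [Real.norm_eq_abs])
  have hφc : Continuous φ := hφs.continuous
  have hφbd : ∀ᵐ x ∂μ, |φ x| ≤ B := by
    filter_upwards [hae] with x hx
    exact hφB x (frontier_subset_closure hx)
  have hφi : Integrable φ μ := Integrable.of_bound hφc.aestronglyMeasurable B (by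
    filter_upwards [hφbd] with x hx
    rwa [Real.norm_eq_abs])
  have hφpi : Integrable (fun x => φ x * p x) μ :=
    Integrable.of_bound (hφc.aestronglyMeasurable.mul hpm) B (by
      filter_upwards [hφbd, hpb] with x hx hx1
      rw [Real.norm_eq_abs, abs_mul]
      calc |φ x| * |p x| ≤ |φ x| * 1 := mul_le_mul_of_nonneg_left hx1 (abs_nonneg _)
        _ = |φ x| := mul_one _
        _ ≤ B := hx)
  -- the divergence theorem
  have e1 : ∫ x in Ω, divg (fun y => φ y • Xf a r y) x = ∫ x, φ x * p x ∂μ := by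
    have h1 := hdiv (fun y => φ y • Xf a r y) (hφs.smul hXs)
    have h2 : ∀ x, dvg (fun y => φ y • Xf a r y) x = divg (fun y => φ y • Xf a r y) x :=
      fun x => rfl
    simp only [h2, real_inner_smul_left] at h1
    exact h1
  have e2 : ∫ x in Ω, (3 / r - 2 / r ^ 3 * ‖x - a‖ ^ 2) = ∫ x, p x ∂μ := by
    have h0 : ContDiff ℝ (⊤ : ℕ∞) (Pool.Agent.T2H01.QI.hp 0 1 a) := by
      rw [hp_one]
      exact contDiff_const
    have h1 := hdiv (fun y => Pool.Agent.T2H01.QI.hp 0 1 a y • Xf a r y) (h0.smul hXs)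
    have h2 : ∀ x, dvg (fun y => Pool.Agent.T2H01.QI.hp 0 1 a y • Xf a r y) x =
        3 / r - 2 / r ^ 3 * ‖x - a‖ ^ 2 := by
      intro x
      have h3 : dvg (fun y => Pool.Agent.T2H01.QI.hp 0 1 a y • Xf a r y) x = _ :=
        hXd 0 1 (by simp) x
      rw [h3, hp_one]
      push_cast
      ring
    simp only [h2] at h1
    rw [h1]
    refine integral_congr_ae (Eventually.of_forall fun x => ?_)
    simp only [hp_one, one_smul, hp]
  have e3 : (per Ω).toReal = ∫ _x, (1 : ℝ) ∂μ := by
    rw [integral_const, smul_eq_mul, mul_one, hμ, Measure.real, Measure.restrict_apply_univ]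
    rfl
  rw [e1, e2, e3, ← integral_sub hφi hφpi, ← integral_sub (integrable_const _) hpi,
    ← integral_const_mul]
  have hbd : ∀ᵐ x ∂μ, ‖φ x - φ x * p x‖ ≤ B * (1 - p x) := by
    filter_upwards [hφbd, hpb] with x hx hx1
    have h1 : 0 ≤ 1 - p x := by linarith [le_abs_self (p x)]
    rw [show φ x - φ x * p x = φ x * (1 - p x) by ring, norm_mul, Real.norm_eq_abs,
      Real.norm_eq_abs, abs_of_nonneg h1]
    exact mul_le_mul_of_nonneg_right hx h1
  have := norm_integral_le_of_norm_le (((integrable_const (1 : ℝ)).sub hpi).const_mul B) hbd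
  rw [Real.norm_eq_abs] at this
  exact this

end Pool.Agent.T2H01.QI
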