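import Pool.Agent.T2H01.QI.Stm3

/-!
# QI package CMB2: the main estimate, general test polynomials
-/

set_option autoImplicit false
set_option maxHeartbeats 1000000

noncomputable section

open MeasureTheory Metric Set Filter Topology
open scoped NNReal ENNReal

namespace Pool.Agent.T2H01.QI

namespace CMB2

lemma arith (r β b Γ P D M A F V S I N1 B C0 κ : ℝ) (hr : 0 < r) (hB : 0 ≤ B)
    (hκ : 4 ≤ κ) (hβ : 0 < β) (hΓ : 0 ≤ Γ) (hD : 0 ≤ D) (hM : 0 ≤ M) (hN : 0 ≤ N1) (hP : 2 * Real.pi * r ≤ P)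
    (hb0 : 0 ≤ b) (hb2 : b ≤ 7 * r / 12)
    (h4 : |b * F - A| ≤ (B / r + β * B) * Γ)
    (h3 : |F - V| ≤ B * (P - C0))
    (h5 : P - C0 ≤ (P - 2 * Real.pi * r) + (12 * D + 14 * M) / r)
    (h6 : |S - (b * V - A)| ≤ 7 * B * (4 / 3 * D))
    (h7 : |S - r / 2 * I| ≤ 10 * B * (|b - r / 2| * N1 + κ * M)) :
    |I| ≤ 100 * B / r * ((1 / r + β) * Γ + r * (P - 2 * Real.pi * r) + D + |b - r / 2| * N1 + κ * M) := by
  set L := |b - r / 2| with hL
  have hL0 : 0 ≤ L := abs_nonneg _
  set E := P - 2 * Real.pi * r with hE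
  have hE0 : 0 ≤ E := by linarith
  have hV : |b * V - A| ≤ b * (B * (E + (12 * D + 14 * M) / r)) + (B / r + β * B) * Γ := by
    have e : b * V - A = (b * F - A) - b * (F - V) := by ring
    rw [e]
    have e2 := abs_sub (b * F - A) (b * (F - V))
    have e3 : |b * (F - V)| ≤ b * (B * (E + (12 * D + 14 * M) / r)) := by
      rw [abs_mul, abs_of_nonneg hb0]
      exact mul_le_mul_of_nonneg_left (h3.trans (mul_le_mul_of_nonneg_left h5 hB)) hb0
    linarith
  have hQ0 : 0 ≤ B * (E + (12 * D + 14 * M) / r) := by positivity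
  have hbQ : b * (B * (E + (12 * D + 14 * M) / r)) ≤ B * (7 / 12 * (r * E) + 7 * D + 49 / 6 * M) := by
    refine (mul_le_mul_of_nonneg_right hb2 hQ0).trans (le_of_eq ?_)
    field_simp
    ring
  have hI : r / 2 * |I| ≤ |b * V - A| + 7 * B * (4 / 3 * D) + 10 * B * (L * N1 + κ * M) := by
    have e1 : r / 2 * |I| = |r / 2 * I| := by
      rw [abs_mul, abs_of_pos (by positivity : (0 : ℝ) < r / 2)]
    rw [e1]
    have e2 : r / 2 * I = (b * V - A) + (S - (b * V - A)) - (S - r / 2 * I) := by ring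
    rw [e2]
    have e3 := abs_sub ((b * V - A) + (S - (b * V - A))) (S - r / 2 * I)
    have e4 := abs_add_le (b * V - A) (S - (b * V - A))
    linarith
  have hI2 : r / 2 * |I| ≤ r / 2 * (100 * B / r * ((1 / r + β) * Γ + r * E + D + L * N1 + κ * M)) := by
    have e1 : r / 2 * (100 * B / r * ((1 / r + β) * Γ + r * E + D + L * N1 + κ * M)) =
        50 * (B * ((1 / r + β) * Γ)) + 50 * (B * (r * E)) + 50 * (B * D) + 50 * (B * (L * N1)) +
          50 * (B * (κ * M)) := by
      field_simp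
      ring
    rw [e1]
    have e2 : (B / r + β * B) * Γ = B * ((1 / r + β) * Γ) := by
      field_simp
    rw [e2] at hV
    have p1 : 0 ≤ B * ((1 / r + β) * Γ) := by positivity
    have p2 : 0 ≤ B * (r * E) := by positivity
    have p3 : 0 ≤ B * D := by positivity
    have p4 : 0 ≤ B * (L * N1) := by positivity
    have p5 : 0 ≤ B * M := by positivity
    have p6 : 4 * (B * M) ≤ B * (κ * M) := by
      have : B * (κ * M) = κ * (B * M) := by ring
      rw [this]
      exact mul_le_mul_of_nonneg_right hκ p5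
    have q1 : B * (7 / 12 * (r * E) + 7 * D + 49 / 6 * M) =
        7 / 12 * (B * (r * E)) + 7 * (B * D) + 49 / 6 * (B * M) := by ring
    have q2 : 7 * B * (4 / 3 * D) = 28 / 3 * (B * D) := by ring
    have q3 : 10 * B * (L * N1 + κ * M) = 10 * (B * (L * N1)) + 10 * (B * (κ * M)) := by ring
    rw [q1] at hbQ
    rw [q2, q3] at hI
    linarith
  exact le_of_mul_le_mul_left hI2 (by positivity)

lemma norm_dir (θ : ℝ) : ‖dir θ‖ = 1 := by
  rw [EuclideanSpace.norm_eq]
  simp [dir, Fin.sum_univ_two]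

lemma norm_z (a x : E2) (r : ℝ) (hr : 0 < r) : ‖(zc x - zc a) / (r : ℂ)‖ = ‖x - a‖ / r := by
  have e : zc x - zc a = zc (x - a) := by
    apply Complex.ext <;> simp [zc]
  rw [e, norm_div, Complex.norm_real, Real.norm_of_nonneg hr.le]
  congr 1
  rw [Complex.norm_eq_sqrt_sq_add_sq, EuclideanSpace.norm_eq]
  simp [zc, Fin.sum_univ_two]

lemma zc_cont : Continuous zc := by
  have h : zc = fun x : E2 => ((x 0 : ℝ) : ℂ) + ((x 1 : ℝ) : ℂ) * Complex.I := by
    funext x
    apply Complex.ext <;> simp [zc]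
  rw [h]
  fun_prop

lemma P0_cont (K : ℕ) (c : ℕ → ℂ) : Continuous (P0 K c) := by
  unfold P0
  fun_prop

lemma P1_cont (K : ℕ) (c : ℕ → ℂ) : Continuous (P1 K c) := by
  unfold P1
  fun_prop

end CMB2

open CMB2 in
theorem pCMB2 (hPERF : S_PERF) (hGE0 : S_GE0) (hGE1 : S_GE1) (hGE2 : S_GE2) (hDM : S_DM) (hSO : S_SO)
    (hMO : S_MO) (hKEY : S_KEY) (hKEY2 : S_KEY2) (hBDY2 : S_BDY2) (hTST : S_TST) (hINTS : S_INTS)
    (hSUPF : S_SUPF) : S_CMB2 := by
  intro Ω hΩ hcon β c₀ hβ u hu hc0 hr hbc K c B hK hPB hsq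
  have hper := hPERF Ω hΩ
  have hopen := hΩ.1
  have hbdd := hΩ.2.1
  have hne : Ω.Nonempty := hcon.nonempty
  obtain ⟨hgc, hgp, hg0, -⟩ := hGE0 Ω hbdd hne
  have hge1 := hGE1 Ω hΩ hcon hper
  have hge2 := hGE2 Ω hopen hbdd hne
  obtain ⟨hM0, hMD, -⟩ := hDM Ω hopen hbdd hne
  obtain ⟨hΓ, -⟩ := hKEY Ω hΩ β c₀ hβ u hu hc0
  have hkey2 := hKEY2 Ω hΩ β c₀ hβ u hu hc0
  obtain ⟨G', g', ν, hν, -⟩ := hu
  have hK4 : (4 : ℝ) ≤ (K : ℝ) := by exact_mod_cast hK
  have hK0 : (0 : ℝ) < (K : ℝ) := by linarith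
  have hD0 : 0 ≤ Real.pi * mr Ω ^ 2 - volume.real Ω := by linarith
  have hs0 := Real.sqrt_nonneg (Real.pi * mr Ω ^ 2 - volume.real Ω)
  have hsq20 : 20 * Real.sqrt (Real.pi * mr Ω ^ 2 - volume.real Ω) ≤ mr Ω :=
    le_trans (mul_le_mul_of_nonneg_right (by linarith) hs0) hsq
  have hMO0 := hMO Ω hopen hbdd hne hr 0 1 (by simp) (by
    push_cast
    linarith)
  obtain ⟨hSsub, hSvol, hball⟩ := hSO Ω hopen hbdd hne (by linarith)
  have hB := fun ϱ h1 h2 => hBDY2 Ω ν hopen hbdd hper hν (ctr Ω) (mr Ω) ϱ hr h1 h2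
  obtain ⟨t1, t2, t3, t4, t5, t6⟩ := hTST K c (ctr Ω) (mr Ω) hr
  have hSF := hSUPF K c B (by omega) hPB (ctr Ω) (mr Ω) (β * c₀) hr
  have hIN := hINTS K c B (by omega) hPB (ctr Ω) (gg Ω) (mr Ω) (β * c₀) hgc hgp hr
  have hMM : ∫ θ in (0 : ℝ)..(2 * Real.pi), gg Ω θ ^ 2 = MM Ω := rfl
  rw [hMM] at hIN
  have hN1 : 0 ≤ ∫ θ in (0 : ℝ)..(2 * Real.pi), |gg Ω θ| :=
    intervalIntegral.integral_nonneg (by positivity) fun θ _ => abs_nonneg _
  set r := mr Ω with hrdef
  set D := Real.pi * r ^ 2 - volume.real Ω with hD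
  set a := ctr Ω with ha
  set b := β * c₀ with hbdef
  have hb' := abs_le.1 hbc
  have hb0 : 0 ≤ b := by linarith [hb'.1]
  have hb2 : b ≤ 7 * r / 12 := by linarith [hb'.2]
  have hbr : b ≤ r := by linarith
  have h5K : 5 * Real.sqrt D ≤ r / K := by
    rw [le_div_iff₀ hK0]
    linarith
  have hϱ2 : r + 5 * Real.sqrt D ≤ 2 * r := by linarith
  have hϱK : r + 5 * Real.sqrt D ≤ r * (1 + 1 / K) := by
    have : r * (1 + 1 / (K : ℝ)) = r + r / K := by ring
    rw [this]
    linarith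
  have hB0 : 0 ≤ B := (norm_nonneg _).trans (hPB 0 (by simp; positivity)).1
  -- bounds on the closure
  have hz : ∀ x, ‖x - a‖ ≤ r + 5 * Real.sqrt D → ‖(zc x - zc a) / (r : ℂ)‖ ≤ 1 + 1 / (K : ℝ) := by
    intro x hx
    rw [norm_z a x r hr, div_le_iff₀ hr]
    linarith
  have hcl : ∀ x ∈ closure Ω, ‖x - a‖ ≤ r + 5 * Real.sqrt D := by
    intro x hx
    have := closure_minimal hball isClosed_closedBall hx
    rwa [mem_closedBall, dist_eq_norm] at this
  have hphb : ∀ x ∈ closure Ω, |ph K c a r x| ≤ B := by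
    intro x hx
    exact (Complex.abs_re_le_norm _).trans (hPB _ (hz x (hcl x hx))).1
  have hghb : ∀ x ∈ closure Ω, ‖gh K c a r x‖ ≤ B / r := by
    intro x hx
    rw [t5 x]
    exact div_le_div_of_nonneg_right (hPB _ (hz x (hcl x hx))).2.1 hr.le
  have hb := hB (r + 5 * Real.sqrt D) hϱ2 hball (ph K c a r) B t1 hphb
  have hke := hkey2 (ph K c a r) (gh K c a r) (B / r + β * B) t1 t2 t3 t4 (fun x hx =>
    add_le_add (hghb x hx) (mul_le_mul_of_nonneg_left (hphb x hx) hβ.le))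
  have m0 := hMO0 (3 / r) (-(2 / r ^ 3)) (3 / r) (by
    intro s hs0 hs1
    have e1 : 3 / r + -(2 / r ^ 3) * s ^ 2 = (3 - 2 * (s / r) ^ 2) / r := by
      field_simp
      ring
    have e2 : 0 ≤ s / r := by positivity
    have e3 : s / r ≤ 5 / 4 := by
      rw [div_le_iff₀ hr]
      linarith
    have e4 : (s / r) ^ 2 ≤ 25 / 16 := by nlinarith
    have e5 : 0 ≤ (s / r) ^ 2 := sq_nonneg _
    rw [e1, abs_le]
    constructor
    · rw [neg_le_iff_add_nonneg, ← add_div]
      refine div_nonneg ?_ hr.le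
      linarith
    · refine div_le_div_of_nonneg_right ?_ hr.le
      linarith)
  set M := MM Ω with hM
  set P := (per Ω).toReal with hP
  set Γ := volume.real Ω / β - c₀ * P with hΓd
  set A := ∫ x in Ω, ph K c a r x with hA
  set F := ∫ x in frontier Ω, ph K c a r x ∂μH[1] with hF
  set V := ∫ x in Ω, divg (fun y => ph K c a r y • Xf a r y) x with hV
  set C0 := ∫ x in Ω, (3 / r - 2 / r ^ 3 * ‖x - a‖ ^ 2) with hC0
  set S := star a (fun θ => r + gg Ω θ) with hS
  set I := ∫ θ in (0 : ℝ)..(2 * Real.pi), gg Ω θ * (PS K c (Complex.exp (Complex.I * θ))).re with hI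
  set N1 := ∫ θ in (0 : ℝ)..(2 * Real.pi), |gg Ω θ| with hN1d
  have n0 : P - C0 ≤ (P - 2 * Real.pi * r) + (12 * D + 14 * M) / r := by
    have h := m0
    rw [hg0 1, mul_zero, sub_zero, if_pos rfl] at h
    have e1 : ∫ x in Ω, hp 0 1 a x * (3 / r + -(2 / r ^ 3) * ‖x - a‖ ^ 2) = C0 := by
      rw [hC0]
      refine integral_congr_ae (Eventually.of_forall fun x => ?_)
      simp only [hp, pow_zero, mul_one, Complex.one_re]
      ring
    rw [e1] at h
    have e2 : 2 * Real.pi * (1 : ℂ).re * (3 / r * r ^ 2 / 2 + -(2 / r ^ 3) * r ^ 4 / 4) =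
        2 * Real.pi * r := by
      rw [Complex.one_re]
      field_simp
      ring
    rw [e2] at h
    have e3 : |3 / r| = 3 / r := abs_of_pos (by positivity)
    have e4 : |-(2 / r ^ 3)| = 2 / r ^ 3 := by
      rw [abs_neg]
      exact abs_of_pos (by positivity)
    rw [e3, e4] at h
    have e5 : 4 * r ^ 0 * (3 / r) * D + 3 / 2 * r ^ 0 * ((((0 : ℕ) : ℝ) + 1) * (3 / r) +
        (((0 : ℕ) : ℝ) + 3) * (2 / r ^ 3) * r ^ 2) * M = (12 * D + 27 / 2 * M) / r := by
      push_cast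
      field_simp
      ring
    rw [e5] at h
    have h2 := (abs_le.1 h).1
    have e6 : (12 * D + 27 / 2 * M) / r ≤ (12 * D + 14 * M) / r :=
      div_le_div_of_nonneg_right (by linarith) hr.le
    linarith
  -- continuity of the integrands
  have c1 : Continuous (ph K c a r) := t1.continuous
  have c2 : Continuous (fun x => divg (fun y => ph K c a r y • Xf a r y) x) := by
    have : (fun x => divg (fun y => ph K c a r y • Xf a r y) x) = fun x =>
        (3 - ‖x - a‖ ^ 2 / r ^ 2) / (2 * r) * ((zc x - zc a) / r * P1 K c ((zc x - zc a) / r)).re +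
        (3 - 2 * ‖x - a‖ ^ 2 / r ^ 2) / r * (P0 K c ((zc x - zc a) / r)).re := funext t6
    rw [this]
    have z1 : Continuous (fun x : E2 => (zc x - zc a) / (r : ℂ)) := (zc_cont.sub continuous_const).div_const _
    have z2 : Continuous (fun x : E2 => P1 K c ((zc x - zc a) / r)) := (P1_cont K c).comp z1
    have z3 : Continuous (fun x : E2 => P0 K c ((zc x - zc a) / r)) := (P0_cont K c).comp z1
    have z4 : Continuous (fun x : E2 => ((zc x - zc a) / r * P1 K c ((zc x - zc a) / r)).re) :=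
      Complex.continuous_re.comp (z1.mul z2)
    have z5 : Continuous (fun x : E2 => (P0 K c ((zc x - zc a) / r)).re) := Complex.continuous_re.comp z3
    have z6 : Continuous (fun x : E2 => (3 - ‖x - a‖ ^ 2 / r ^ 2) / (2 * r)) := by fun_prop
    have z7 : Continuous (fun x : E2 => (3 - 2 * ‖x - a‖ ^ 2 / r ^ 2) / r) := by fun_prop
    exact (z6.mul z4).add (z7.mul z5)
  have c3 : Continuous (FF K c a r b) := by
    unfold FF
    exact (continuous_const.mul c2).sub c1
  have hcomp : IsCompact (closedBall a (r + 5 * Real.sqrt D)) := isCompact_closedBall _ _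
  have i1 : IntegrableOn (ph K c a r) Ω := (c1.continuousOn.integrableOn_compact hcomp).mono_set hball
  have i2 : IntegrableOn (fun x => divg (fun y => ph K c a r y • Xf a r y) x) Ω :=
    (c2.continuousOn.integrableOn_compact hcomp).mono_set hball
  have hFFΩ : ∫ x in Ω, FF K c a r b x = b * V - A := by
    unfold FF
    rw [integral_sub (i2.const_mul b) i1, integral_const_mul]
  have hg5 : ∀ θ, |gg Ω θ| ≤ 5 * Real.sqrt D := by
    intro θ
    have h := hge2 θ
    refine abs_le_of_sq_le_sq ?_ (by positivity)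
    calc gg Ω θ ^ 2 ≤ 25 * D := h
      _ = (5 * Real.sqrt D) ^ 2 := by
          rw [mul_pow, Real.sq_sqrt hD0]
          norm_num
  have hSball : S ⊆ closedBall a (r + 5 * Real.sqrt D) := by
    rintro x ⟨s, θ, hs0, hs, rfl⟩
    rw [mem_closedBall, dist_eq_norm, add_sub_cancel_left, norm_smul, norm_dir, mul_one,
      Real.norm_of_nonneg hs0]
    have := (abs_le.1 (hg5 θ)).2
    linarith
  have i3 : IntegrableOn (FF K c a r b) S := (c3.continuousOn.integrableOn_compact hcomp).mono_set hSball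
  have hdiff : ∫ x in S \ Ω, FF K c a r b x = (∫ x in S, FF K c a r b x) - ∫ x in Ω, FF K c a r b x :=
    setIntegral_sdiff hopen.measurableSet i3 hSsub
  have hsmall : |∫ x in S \ Ω, FF K c a r b x| ≤ 7 * B * (4 / 3 * D) := by
    have h1 := norm_setIntegral_le_of_norm_le_const (μ := volume) (s := S \ Ω) (f := FF K c a r b)
      (C := 7 * B)
      ((measure_mono (sdiff_subset.trans hSball)).trans_lt hcomp.measure_lt_top) (fun x hx => by
        have hx' := hSball hx.1
        rw [mem_closedBall, dist_eq_norm] at hx'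
        exact hSF hb0 hbr x (hx'.trans hϱK))
    exact h1.trans (mul_le_mul_of_nonneg_left hSvol (by positivity))
  rw [hdiff, hFFΩ] at hsmall
  have hin := hIN (fun θ => (hg5 θ).trans h5K) hb0 hbr
  exact arith r β b Γ P D M A F V _ I N1 B C0 K hr hB0 hK4 hβ hΓ hD0 hM0 hN1 hge1 hb0 hb2 hke hb n0
    hsmall hin

end Pool.Agent.T2H01.QI
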