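import Pool.Agent.T2H01.QI.Stm3
import Pool.Agent.T2H01.QI.CONN

/-!
# Package CONN2: the connected case
-/

set_option autoImplicit false

noncomputable section

open MeasureTheory Metric Set Filter Topology
open scoped NNReal ENNReal

namespace Pool.Agent.T2H01.QI

namespace CONN2

lemma bnd {β ρ r P c₀ δ Γ : ℝ} (hβ : 0 < β) (hρ : 0 < ρ) (h1 : 2 * Real.pi * r ≤ P)
    (hρr : ρ ≤ r) (hr2 : r ≤ ρ + 4 * (β * δ)) (hΓ : Γ = Real.pi * ρ ^ 2 / β - c₀ * P)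
    (hΓ0 : 0 ≤ Γ) (hδ : 0 < δ) (hc : ρ / (2 * β) - c₀ ≤ δ) (hs : 2000 * β * δ ≤ ρ) :
    |β * c₀ - r / 2| ≤ 3 * β * δ := by
  have hp := Real.pi_pos
  set p := Real.pi with hpdef
  obtain ⟨x, hx⟩ : ∃ x, x = β * δ := ⟨_, rfl⟩
  have hx0 : 0 < x := hx ▸ mul_pos hβ hδ
  have hxs : 2000 * x ≤ ρ := by rw [hx]; linarith
  obtain ⟨b, hb⟩ : ∃ b, b = β * c₀ := ⟨_, rfl⟩
  have hb1 : ρ / 2 - x ≤ b := by
    have h := mul_le_mul_of_nonneg_left hc hβ.le
    have e : β * (ρ / (2 * β) - c₀) = ρ / 2 - β * c₀ := by field_simp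
    rw [e, ← hb, ← hx] at h
    linarith
  have hb0 : 0 < b := by linarith
  have hbP : b * P ≤ p * ρ ^ 2 := by
    have h := mul_nonneg hβ.le hΓ0
    rw [hΓ] at h
    have e : β * (p * ρ ^ 2 / β - c₀ * P) = p * ρ ^ 2 - b * P := by
      rw [hb]; field_simp
    rw [e] at h
    linarith
  have hPρ : 2 * p * ρ ≤ P := le_trans (by nlinarith) h1
  have hb2 : b ≤ ρ / 2 := by
    have h2 : b * (2 * p * ρ) ≤ b * P := mul_le_mul_of_nonneg_left hPρ hb0.le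
    have h3 : (2 * p * ρ) * b ≤ (2 * p * ρ) * (ρ / 2) := by nlinarith
    exact le_of_mul_le_mul_left h3 (by positivity)
  have e : 3 * β * δ = 3 * x := by rw [hx]; ring
  rw [← hx] at hr2
  rw [← hb, e, abs_le]
  constructor <;> linarith

lemma sign_meas {g : ℝ → ℝ} (hg : Continuous g) : Measurable fun t => Real.sign (g t) := by
  unfold Real.sign
  exact Measurable.ite (measurableSet_lt hg.measurable measurable_const) measurable_const
    (Measurable.ite (measurableSet_lt measurable_const hg.measurable) measurable_const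
      measurable_const)

lemma abs_sign_le (x : ℝ) : |Real.sign x| ≤ 1 := by
  rcases Real.sign_apply_eq x with h | h | h <;> rw [h] <;> norm_num

end CONN2

open CONN CONN2 in
/-- CONN2. -/
theorem pCONN2 (hPERF : S_PERF) (hGE0 : S_GE0) (hGE1 : S_GE1) (hGE2 : S_GE2) (hDM : S_DM)
    (hKEY : S_KEY) (hCMB2 : S_CMB2) (hABL : S_ABL) (hL1T : S_L1T) (hOPT2 : S_OPT2)
    (hASY2 : S_ASY2) : S_CONN2 := by
  intro q β ρ₁ ρ₂ hq1 hq2 hβ hρ₁ hρ₁₂
  have hp := Real.pi_pos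
  have hρ₂ : 0 < ρ₂ := lt_of_lt_of_le hρ₁ hρ₁₂
  obtain ⟨Ca, hCa, hPB⟩ := hABL
  obtain ⟨CD, hCD⟩ : ∃ CD : ℝ, CD = 12 * Real.pi * ρ₂ * β := ⟨_, rfl⟩
  have hCD0 : 0 < CD := by rw [hCD]; positivity
  obtain ⟨s, hs⟩ : ∃ s, s = Real.sqrt CD := ⟨_, rfl⟩
  have hs0 : 0 < s := by rw [hs]; exact Real.sqrt_pos.2 hCD0
  obtain ⟨C4, hC4⟩ : ∃ C4 : ℝ, C4 = (1 / ρ₁ + β) * (2 * Real.pi * ρ₂) +
    2 * ρ₂ * (8 * Real.pi * β) + CD := ⟨_, rfl⟩
  have hC40 : 0 < C4 := by rw [hC4]; positivity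
  obtain ⟨C5, hC5⟩ : ∃ C5 : ℝ, C5 = 3 * β + 5 * s := ⟨_, rfl⟩
  have hC50 : 0 < C5 := by rw [hC5]; positivity
  obtain ⟨C6, hC6⟩ : ∃ C6 : ℝ, C6 = Real.sqrt (4 * Real.pi) * s := ⟨_, rfl⟩
  have hC60 : 0 < C6 := by
    rw [hC6]; exact mul_pos (Real.sqrt_pos.2 (by positivity)) hs0
  obtain ⟨C0, hC0⟩ : ∃ C0 : ℝ, C0 = 100 * Ca / ρ₁ * (C4 + C5) + C6 := ⟨_, rfl⟩
  have hC00 : 0 < C0 := by rw [hC0]; positivity
  obtain ⟨δo, C₃, hδo, hC₃, hopt⟩ := hOPT2 q C0 (5 * s / ρ₁) hq1 hq2 hC00 (by positivity)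
  refine ⟨min δo (min 1 (ρ₁ / (2000 * β))), 2 * (4 * ρ₂ * C₃ + CD),
    lt_min hδo (lt_min one_pos (by positivity)), by positivity, ?_⟩
  intro Ω u c₀ δ hΩ hconn h1 h2 hu hc hδ1 hδ hδs
  have hδo' : δ ≤ δo := hδs.trans (min_le_left _ _)
  have hδ1' : δ ≤ 1 := hδs.trans ((min_le_right _ _).trans (min_le_left _ _))
  have hδρ : δ ≤ ρ₁ / (2000 * β) := hδs.trans ((min_le_right _ _).trans (min_le_right _ _))
  have hsm : 2000 * β * δ ≤ rad Ω := by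
    rw [le_div_iff₀ (by positivity)] at hδρ
    linarith
  have hρ : 0 < rad Ω := lt_of_lt_of_le hρ₁ h1
  have hvol : volume.real Ω = Real.pi * rad Ω ^ 2 := by
    unfold rad
    rw [Real.sq_sqrt (div_nonneg measureReal_nonneg hp.le)]
    field_simp
  have hper := hPERF Ω hΩ
  have hge1 := hGE1 Ω hΩ hconn hper
  have hge2 := hGE2 Ω hΩ.1 hΩ.2.1 hconn.nonempty
  have hg : Continuous (gg Ω) := (hGE0 Ω hΩ.2.1 hconn.nonempty).1
  obtain ⟨hM0, hMD, hMK⟩ := hDM Ω hΩ.1 hΩ.2.1 hconn.nonempty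
  obtain ⟨D, hD⟩ : ∃ D, D = Real.pi * mr Ω ^ 2 - volume.real Ω := ⟨_, rfl⟩
  obtain ⟨M, hM⟩ : ∃ M, M = MM Ω := ⟨_, rfl⟩
  obtain ⟨Γ, hΓ⟩ : ∃ Γ, Γ = volume.real Ω / β - c₀ * (per Ω).toReal := ⟨_, rfl⟩
  obtain ⟨N, hN⟩ : ∃ N, N = ∫ θ in (0 : ℝ)..(2 * Real.pi), |gg Ω θ| := ⟨_, rfl⟩
  rw [← hD, ← hM] at hMD
  rw [← hM] at hM0
  rw [← hD] at hge2
  have hΓ0 : 0 ≤ Γ := by
    rw [hΓ]
    exact (hKEY Ω hΩ β c₀ hβ u hu hc).1
  have hD0 : 0 ≤ D := by linarith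
  obtain ⟨b1, b2, b3, b4, b5, b6, b7⟩ := bounds (β := β) (ρ := rad Ω) (r := mr Ω)
    (P := (per Ω).toReal) (c₀ := c₀) (δ := δ) (D := D) (Γ := Γ) hβ hρ
    (mr_nonneg hΩ.2.1 hconn.nonempty) (by rw [hD, hvol]) hD0 hge1 (by rw [hΓ, hvol]) hΓ0 hδ hδ1 hsm
  have b8 : |β * c₀ - mr Ω / 2| ≤ 3 * β * δ :=
    bnd (Γ := Γ) hβ hρ hge1 b1 b2 (by rw [hΓ, hvol]) hΓ0 hδ hδ1 hsm
  have hr0 : 0 < mr Ω := lt_of_lt_of_le hρ b1
  have hρ₁r : ρ₁ ≤ mr Ω := h1.trans b1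
  have hDC : D ≤ CD * δ := by
    have e1 : 12 * Real.pi * rad Ω * (β * δ) ≤ 12 * Real.pi * ρ₂ * (β * δ) := by
      have : 0 ≤ 12 * Real.pi * (β * δ) := by positivity
      nlinarith
    rw [hCD]
    linarith
  have hsD : Real.sqrt D ≤ s * Real.sqrt δ := by
    rw [hs, ← Real.sqrt_mul hCD0.le]
    exact Real.sqrt_le_sqrt hDC
  have hN0 : 0 ≤ N := by
    rw [hN]
    exact intervalIntegral.integral_nonneg (by positivity) fun θ _ => abs_nonneg _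
  have hgb : ∀ θ, |gg Ω θ| ≤ 5 * Real.sqrt D := by
    intro θ
    refine abs_le_of_sq_le_sq ?_ (by positivity)
    rw [mul_pow, Real.sq_sqrt hD0]
    have := hge2 θ
    linarith
  have hMN : M ≤ 5 * Real.sqrt D * N := by
    rw [hM, hN, MM, ← intervalIntegral.integral_const_mul]
    refine intervalIntegral.integral_mono_on (by positivity) ?_ ?_ ?_
    · exact (hg.pow 2).intervalIntegrable _ _
    · exact (continuous_const.mul hg.abs).intervalIntegrable _ _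
    · intro θ _
      rw [← sq_abs, sq]
      exact mul_le_mul_of_nonneg_right (hgb θ) (abs_nonneg _)
  have g2 : mr Ω ≤ 2 * ρ₂ := by
    have : 4 * (β * δ) ≤ rad Ω := by
      have : 0 ≤ β * δ := by positivity
      linarith
    linarith
  have hsq0 : 0 ≤ Real.sqrt δ := Real.sqrt_nonneg _
  have hδsq : δ ≤ Real.sqrt δ := by
    have e : Real.sqrt δ * Real.sqrt δ = δ := Real.mul_self_sqrt hδ.le
    have e1 : Real.sqrt δ ≤ 1 := Real.sqrt_le_one.2 hδ1'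
    nlinarith
  have hNle : N ≤ C₃ * δ ^ q := by
    refine hopt δ N hδ hδo' hN0 ?_
    intro K hK4 hK
    have hKn : 0 < K := by omega
    have hK0 : (0 : ℝ) < K := by exact_mod_cast hKn
    have hK1 : (1 : ℝ) ≤ K := by exact_mod_cast hKn
    have hL : 0 ≤ Real.log K := Real.log_nonneg hK1
    have hK5 : 5 * K * Real.sqrt D ≤ mr Ω := by
      have h3 : 5 * s * K * Real.sqrt δ ≤ ρ₁ := by
        have e : 5 * s / ρ₁ * K * Real.sqrt δ = (5 * s * K * Real.sqrt δ) / ρ₁ := by ring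
        rw [e, div_le_one hρ₁] at hK
        exact hK
      have h4 : 5 * K * Real.sqrt D ≤ 5 * K * (s * Real.sqrt δ) :=
        mul_le_mul_of_nonneg_left hsD (by positivity)
      linarith
    have hpb := hPB K (by omega) (fun t => Real.sign (gg Ω t)) (sign_meas hg)
      fun t => abs_sign_le _
    have hcmb := hCMB2 Ω hΩ hconn β c₀ hβ u hu hc hr0 b5 K _ _ hK4 hpb (by rw [← hD]; exact hK5)
    have hl1 := hL1T (gg Ω) hg K
    have hmk := hMK K hKn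
    rw [← hD, ← hM, ← hΓ, ← hN] at hcmb
    rw [← hN, show (∫ θ in (0 : ℝ)..(2 * Real.pi), gg Ω θ ^ 2) = M from hM.symm] at hl1
    rw [← hD, ← hM] at hmk
    obtain ⟨L, hLd⟩ : ∃ L, L = 1 + Real.log K := ⟨_, rfl⟩
    have hL1 : 1 ≤ L := by linarith
    rw [← hLd] at hcmb ⊢
    obtain ⟨A, hA⟩ : ∃ A, A = |∫ θ in (0 : ℝ)..(2 * Real.pi),
      gg Ω θ * (PS K (ec (fun t => Real.sign (gg Ω t))) (Complex.exp (Complex.I * θ))).re| :=
      ⟨_, rfl⟩
    rw [← hA] at hcmb hl1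
    have t1 : (1 / mr Ω + β) * Γ ≤ (1 / ρ₁ + β) * (2 * Real.pi * ρ₂ * δ) := by
      refine mul_le_mul ?_ ?_ hΓ0 (by positivity)
      · exact add_le_add (one_div_le_one_div_of_le hρ₁ hρ₁r) le_rfl
      · refine b4.trans ?_
        have : 0 ≤ 2 * Real.pi * δ := by positivity
        nlinarith
    have t2 : mr Ω * ((per Ω).toReal - 2 * Real.pi * mr Ω) ≤
        2 * ρ₂ * (8 * Real.pi * (β * δ)) := by
      refine mul_le_mul g2 ?_ (by linarith) (by positivity)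
      have : 2 * Real.pi * rad Ω ≤ 2 * Real.pi * mr Ω :=
        mul_le_mul_of_nonneg_left b1 (by positivity)
      linarith
    have hKd : δ ≤ K * Real.sqrt δ := hδsq.trans (le_mul_of_one_le_left hsq0 hK1)
    have t4 : |β * c₀ - mr Ω / 2| * N ≤ 3 * β * (K * Real.sqrt δ * N) := by
      have e1 : |β * c₀ - mr Ω / 2| * N ≤ 3 * β * δ * N := mul_le_mul_of_nonneg_right b8 hN0
      have e2 : 3 * β * (δ * N) ≤ 3 * β * (K * Real.sqrt δ * N) :=
        mul_le_mul_of_nonneg_left (mul_le_mul_of_nonneg_right hKd hN0) (by positivity)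
      linarith
    have t5 : K * M ≤ 5 * s * (K * Real.sqrt δ * N) := by
      have e1 : K * M ≤ K * (5 * Real.sqrt D * N) := mul_le_mul_of_nonneg_left hMN hK0.le
      have e2 : (5 * K * N) * Real.sqrt D ≤ (5 * K * N) * (s * Real.sqrt δ) :=
        mul_le_mul_of_nonneg_left hsD (by positivity)
      linarith
    obtain ⟨Y, hY⟩ : ∃ Y, Y = K * Real.sqrt δ * N := ⟨_, rfl⟩
    have hY0 : 0 ≤ Y := by rw [hY]; positivity
    rw [← hY] at t4 t5 ⊢
    have hX : (1 / mr Ω + β) * Γ + mr Ω * ((per Ω).toReal - 2 * Real.pi * mr Ω) + D +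
        |β * c₀ - mr Ω / 2| * N + K * M ≤ C4 * δ + C5 * Y := by
      rw [hC4, hC5]
      linarith
    have hX0 : C4 * δ + C5 * Y ≤ (C4 + C5) * (δ + Y) := by
      have e1 : 0 ≤ C4 * Y := by positivity
      have e2 : 0 ≤ C5 * δ := by positivity
      linarith
    have hA1 : A ≤ 100 * Ca / ρ₁ * (C4 + C5) * (L * (δ + Y)) := by
      have e0 : 0 ≤ 100 * (Ca * L) / mr Ω := by positivity
      have e1 := hcmb.trans (mul_le_mul_of_nonneg_left (hX.trans hX0) e0)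
      have e2 : 100 * (Ca * L) / mr Ω ≤ 100 * (Ca * L) / ρ₁ :=
        div_le_div_of_nonneg_left (by positivity) hρ₁ hρ₁r
      have e3 := e1.trans (mul_le_mul_of_nonneg_right e2
        (show 0 ≤ (C4 + C5) * (δ + Y) by positivity))
      refine e3.trans (le_of_eq ?_)
      ring
    have hS : Real.sqrt (2 * Real.pi * (M - (1 / Real.pi) * ∑ k ∈ Finset.Icc 2 K,
        (cf (gg Ω) k 1 ^ 2 + cf (gg Ω) k (-Complex.I) ^ 2))) ≤ C6 * (Real.sqrt δ / K) := by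
      have e1 : 2 * Real.pi * (M - (1 / Real.pi) * ∑ k ∈ Finset.Icc 2 K,
          (cf (gg Ω) k 1 ^ 2 + cf (gg Ω) k (-Complex.I) ^ 2)) ≤
          (C6 * (Real.sqrt δ / K)) ^ 2 := by
        have e2 : (C6 * (Real.sqrt δ / K)) ^ 2 = 4 * Real.pi * (CD * δ / K ^ 2) := by
          rw [hC6, hs, mul_pow, mul_pow, div_pow, Real.sq_sqrt (by positivity),
            Real.sq_sqrt hCD0.le, Real.sq_sqrt hδ.le]
          ring
        rw [e2]
        have e3 : 2 * D / (K : ℝ) ^ 2 ≤ 2 * (CD * δ) / (K : ℝ) ^ 2 :=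
          div_le_div_of_nonneg_right (by linarith) (by positivity)
        have e4 : M - (1 / Real.pi) * ∑ k ∈ Finset.Icc 2 K,
            (cf (gg Ω) k 1 ^ 2 + cf (gg Ω) k (-Complex.I) ^ 2) ≤ 2 * (CD * δ) / (K : ℝ) ^ 2 := by
          linarith
        refine (mul_le_mul_of_nonneg_left e4 (show 0 ≤ 2 * Real.pi by positivity)).trans
          (le_of_eq ?_)
        ring
      calc _ ≤ Real.sqrt ((C6 * (Real.sqrt δ / K)) ^ 2) := Real.sqrt_le_sqrt e1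
        _ = _ := Real.sqrt_sq (by positivity)
    have hfin : C0 * (L * (δ + Y) + Real.sqrt δ / K) =
        100 * Ca / ρ₁ * (C4 + C5) * (L * (δ + Y)) + C6 * (Real.sqrt δ / K) +
          (100 * Ca / ρ₁ * (C4 + C5) * (Real.sqrt δ / K) + C6 * (L * (δ + Y))) := by
      rw [hC0]; ring
    have z1 : 0 ≤ 100 * Ca / ρ₁ * (C4 + C5) * (Real.sqrt δ / K) := by positivity
    have z2 : 0 ≤ C6 * (L * (δ + Y)) := by positivity
    rw [hfin]
    linarith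
  have hsq : 5 * Real.sqrt D < mr Ω := by
    have e : 5 * Real.sqrt D = Real.sqrt (25 * D) := by
      rw [Real.sqrt_mul (by norm_num), show (25 : ℝ) = 5 ^ 2 by norm_num, Real.sqrt_sq (by norm_num)]
    rw [e, Real.sqrt_lt' hr0]
    exact b7
  have hasy := hASY2 Ω hΩ.1 hΩ.2.1 hconn.nonempty (by rw [← hD]; exact hsq)
  rw [← hD, ← hM, ← hN] at hasy
  refine ⟨ctr Ω, hasy.trans ?_⟩
  have f2 : δ ≤ δ ^ q := by
    nth_rewrite 1 [← Real.rpow_one δ]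
    exact Real.rpow_le_rpow_of_exponent_ge hδ hδ1' hq2.le
  have g6 : M ≤ mr Ω * N := hMN.trans (mul_le_mul_of_nonneg_right hsq.le hN0)
  have g7 : mr Ω * N ≤ 2 * ρ₂ * (C₃ * δ ^ q) := mul_le_mul g2 hNle hN0 (by positivity)
  have g8 : D ≤ CD * δ ^ q := hDC.trans (mul_le_mul_of_nonneg_left f2 hCD0.le)
  linarith

end Pool.Agent.T2H01.QI
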