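import Pool.Agent.T2H01.QI.INTSA

set_option autoImplicit false

noncomputable section

open MeasureTheory Metric Set Filter Topology

namespace Pool.Agent.T2H01.QI

namespace INTS

/-- The rescaled point. -/
def W (r θ s : ℝ) : ℂ := (s : ℂ) / r * Complex.exp (Complex.I * θ)

/-- The integrand in polar coordinates. -/
def GG (K : ℕ) (c : ℕ → ℂ) (r b θ s : ℝ) : ℝ :=
  s * (b * ((3 - s ^ 2 / r ^ 2) / (2 * r) * (W r θ s * P1 K c (W r θ s)).re +
    (3 - 2 * s ^ 2 / r ^ 2) / r * (P0 K c (W r θ s)).re) - (P0 K c (W r θ s)).re)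

/-- Its derivative. -/
def GD (K : ℕ) (c : ℕ → ℂ) (r b θ s : ℝ) : ℝ :=
  (b * ((3 - s ^ 2 / r ^ 2) / (2 * r) * (W r θ s * P1 K c (W r θ s)).re +
    (3 - 2 * s ^ 2 / r ^ 2) / r * (P0 K c (W r θ s)).re) - (P0 K c (W r θ s)).re) +
  s * (b * ((-(2 * s / r ^ 2)) / (2 * r) * (W r θ s * P1 K c (W r θ s)).re +
      (3 - s ^ 2 / r ^ 2) / (2 * r) *
        (Complex.exp (Complex.I * θ) / r * (P1 K c (W r θ s) + W r θ s * P2 K c (W r θ s))).re +
      (-(4 * s / r ^ 2)) / r * (P0 K c (W r θ s)).re +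
      (3 - 2 * s ^ 2 / r ^ 2) / r * (P1 K c (W r θ s) * (Complex.exp (Complex.I * θ) / r)).re) -
    (P1 K c (W r θ s) * (Complex.exp (Complex.I * θ) / r)).re)

lemma dW (r θ : ℝ) (z : ℂ) :
    HasDerivAt (fun z : ℂ => z / r * Complex.exp (Complex.I * θ))
      (Complex.exp (Complex.I * θ) / r) z := by
  have := ((hasDerivAt_id z).div_const (r : ℂ)).mul_const (Complex.exp (Complex.I * θ))
  refine this.congr_deriv ?_
  ring

lemma dF0 (K : ℕ) (c : ℕ → ℂ) (r θ s : ℝ) :
    HasDerivAt (fun s : ℝ => (P0 K c (W r θ s)).re)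
      (P1 K c (W r θ s) * (Complex.exp (Complex.I * θ) / r)).re s := by
  have h := (dP0 K c (W r θ s)).comp (s : ℂ) (dW r θ (s : ℂ))
  exact h.real_of_complex

lemma dF1 (K : ℕ) (c : ℕ → ℂ) (r θ s : ℝ) :
    HasDerivAt (fun s : ℝ => (W r θ s * P1 K c (W r θ s)).re)
      (Complex.exp (Complex.I * θ) / r * (P1 K c (W r θ s) + W r θ s * P2 K c (W r θ s))).re s := by
  have h := (dW r θ (s : ℂ)).mul ((dP1 K c (W r θ s)).comp (s : ℂ) (dW r θ (s : ℂ)))
  have h2 := h.real_of_complex
  refine h2.congr_deriv ?_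
  congr 1
  simp only [Function.comp, W]
  ring

lemma dG (K : ℕ) (c : ℕ → ℂ) (r b θ s : ℝ) :
    HasDerivAt (GG K c r b θ) (GD K c r b θ s) s := by
  have h0 := dF0 K c r θ s
  have h1 := dF1 K c r θ s
  have q1 : HasDerivAt (fun s : ℝ => (3 - s ^ 2 / r ^ 2) / (2 * r)) ((-(2 * s / r ^ 2)) / (2 * r)) s := by
    have := (((hasDerivAt_pow 2 s).div_const (r ^ 2)).const_sub 3).div_const (2 * r)
    refine this.congr_deriv ?_
    simp
  have q2 : HasDerivAt (fun s : ℝ => (3 - 2 * s ^ 2 / r ^ 2) / r) ((-(4 * s / r ^ 2)) / r) s := by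
    have := ((((hasDerivAt_pow 2 s).const_mul 2).div_const (r ^ 2)).const_sub 3).div_const r
    refine this.congr_deriv ?_
    simp
    ring
  have := (hasDerivAt_id s).mul (((((q1.mul h1).add (q2.mul h0)).const_mul b).sub h0))
  refine this.congr_deriv ?_
  unfold GD
  simp only [id]
  simp only [Pi.mul_apply, Pi.add_apply, Pi.sub_apply]
  ring

lemma normW {r θ s : ℝ} (hr : 0 < r) : ‖W r θ s‖ = |s| / r := by
  unfold W
  rw [norm_mul, norm_div, Complex.norm_real, Complex.norm_real, Real.norm_eq_abs, Real.norm_eq_abs,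
    abs_of_pos hr, mul_comm Complex.I, Complex.norm_exp_ofReal_mul_I, mul_one]

lemma bG (K : ℕ) (c : ℕ → ℂ) (B : ℝ) (hK : 2 ≤ K) (hPB : PB K c B) (r b θ s : ℝ) (hr : 0 < r)
    (hb0 : 0 ≤ b) (hbr : b ≤ r) (hs : |s - r| ≤ r / K) : |GD K c r b θ s| ≤ 18 * K * B := by
  have hK' : (2 : ℝ) ≤ K := by exact_mod_cast hK
  have hrK : r / K ≤ r / 2 := div_le_div_of_nonneg_left hr.le two_pos hK'
  rw [abs_le] at hs
  have hs0 : 0 ≤ s := by linarith
  have hsr : s ≤ r + r / K := by linarith
  set w := W r θ s with hw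
  have hwn : ‖w‖ = s / r := by rw [hw, normW hr, abs_of_nonneg hs0]
  have hw1 : ‖w‖ ≤ 1 + 1 / (K : ℝ) := by
    rw [hwn, div_le_iff₀ hr]
    calc s ≤ r + r / K := hsr
      _ = (1 + 1 / (K : ℝ)) * r := by ring
  have hw2 : ‖w‖ ≤ 3 / 2 := by
    have : 1 / (K : ℝ) ≤ 1 / 2 := one_div_le_one_div_of_le two_pos hK'
    linarith
  obtain ⟨b0, b1, b2⟩ := hPB w hw1
  have hB : 0 ≤ B := (norm_nonneg _).trans b0
  have hA : |(P0 K c w).re| ≤ B := (Complex.abs_re_le_norm _).trans b0
  have hQ : |(w * P1 K c w).re| ≤ 3 / 2 * B := by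
    refine (Complex.abs_re_le_norm _).trans ?_
    rw [norm_mul]
    exact mul_le_mul hw2 b1 (norm_nonneg _) (by norm_num)
  have he : ‖Complex.exp (Complex.I * θ)‖ = 1 := by
    rw [mul_comm Complex.I, Complex.norm_exp_ofReal_mul_I]
  have hα : |(P1 K c w * Complex.exp (Complex.I * θ)).re| ≤ B := by
    refine (Complex.abs_re_le_norm _).trans ?_
    rw [norm_mul, he, mul_one]; exact b1
  have hq : |(Complex.exp (Complex.I * θ) * (P1 K c w + w * P2 K c w)).re| ≤
      B + 3 / 2 * (K * B) := by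
    refine (Complex.abs_re_le_norm _).trans ?_
    rw [norm_mul, he, one_mul]
    refine (norm_add_le _ _).trans (add_le_add b1 ?_)
    rw [norm_mul]
    exact mul_le_mul hw2 b2 (norm_nonneg _) (by norm_num)
  have hβ0 : 0 ≤ b / r := div_nonneg hb0 hr.le
  have hβ : b / r ≤ 1 := (div_le_one hr).2 hbr
  have ht0 : 0 ≤ s / r := div_nonneg hs0 hr.le
  have ht : s / r ≤ 3 / 2 := by rw [← hwn]; exact hw2
  have key := bd (s / r) (b / r) K B _ _ _ _ ht0 ht hβ0 hβ hK' hA hQ hα hq
  refine le_trans (le_of_eq ?_) key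
  congr 1
  unfold GD
  rw [← hw]
  have e1 : (P1 K c w * (Complex.exp (Complex.I * θ) / r)).re =
      (P1 K c w * Complex.exp (Complex.I * θ)).re / r := by
    rw [← mul_div_assoc, Complex.div_ofReal_re]
  have e2 : (Complex.exp (Complex.I * θ) / r * (P1 K c w + w * P2 K c w)).re =
      (Complex.exp (Complex.I * θ) * (P1 K c w + w * P2 K c w)).re / r := by
    rw [div_mul_eq_mul_div, Complex.div_ofReal_re]
  rw [e1, e2]
  field_simp
  ring

lemma cG (K : ℕ) (c : ℕ → ℂ) (r b : ℝ) :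
    Continuous (fun p : ℝ × ℝ => GG K c r b p.1 p.2) := by
  have hW : Continuous (fun p : ℝ × ℝ => W r p.1 p.2) := by unfold W; fun_prop
  have h0 := (cP0 K c).comp hW
  have h1 := (cP1 K c).comp hW
  have h0' : Continuous fun p : ℝ × ℝ => (P0 K c (W r p.1 p.2)).re := Complex.continuous_re.comp h0
  have h1' : Continuous fun p : ℝ × ℝ => (W r p.1 p.2 * P1 K c (W r p.1 p.2)).re :=
    Complex.continuous_re.comp (hW.mul h1)
  unfold GG
  fun_prop

lemma mG (K : ℕ) (c : ℕ → ℂ) (r b : ℝ) :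
    ∫ θ in (0 : ℝ)..(2 * Real.pi), ∫ s in (0 : ℝ)..r, GG K c r b θ s = 0 := by
  rw [intervalIntegral_intervalIntegral_swap]
  · have : ∀ s : ℝ, ∫ θ in (0 : ℝ)..(2 * Real.pi), GG K c r b θ s = 0 := by
      intro s
      have m1 := mean K (fun k => c k * (1 / ((k : ℂ) - 1))) (s / r)
      have m2 := mean K (fun k => c k * ((k : ℂ) / ((k : ℂ) - 1))) (s / r)
      have hP0 : ∀ θ : ℝ, (P0 K c (W r θ s)).re = (∑ k ∈ Finset.Icc 2 K,
          c k * (1 / ((k : ℂ) - 1)) * (((s / r : ℝ) : ℂ) * Complex.exp (Complex.I * θ)) ^ k).re := by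
        intro θ; unfold P0 W; push_cast; rfl
      have hP1 : ∀ θ : ℝ, (W r θ s * P1 K c (W r θ s)).re = (∑ k ∈ Finset.Icc 2 K,
          c k * ((k : ℂ) / ((k : ℂ) - 1)) *
            (((s / r : ℝ) : ℂ) * Complex.exp (Complex.I * θ)) ^ k).re := by
        intro θ; unfold P1 W; push_cast; rw [Finset.mul_sum]; congr 1
        refine Finset.sum_congr rfl fun k hk => ?_
        obtain ⟨m, rfl⟩ : ∃ m, k = m + 1 := ⟨k - 1, by have := (Finset.mem_Icc.1 hk).1; omega⟩
        rw [Nat.add_sub_cancel, pow_succ]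
        ring
      have hc0 : Continuous fun θ : ℝ => (P0 K c (W r θ s)).re :=
        Complex.continuous_re.comp ((cP0 K c).comp (by unfold W; fun_prop))
      have hW : Continuous fun θ : ℝ => W r θ s := by unfold W; fun_prop
      have hc1 : Continuous fun θ : ℝ => (W r θ s * P1 K c (W r θ s)).re :=
        Complex.continuous_re.comp (hW.mul ((cP1 K c).comp hW))
      have m1' : ∫ θ in (0 : ℝ)..(2 * Real.pi), (P0 K c (W r θ s)).re = 0 := by
        simp_rw [hP0]; exact m1
      have m2' : ∫ θ in (0 : ℝ)..(2 * Real.pi), (W r θ s * P1 K c (W r θ s)).re = 0 := by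
        simp_rw [hP1]; exact m2
      have e : ∀ θ : ℝ, GG K c r b θ s =
          (s * (b * ((3 - s ^ 2 / r ^ 2) / (2 * r)))) * (W r θ s * P1 K c (W r θ s)).re +
          (s * (b * ((3 - 2 * s ^ 2 / r ^ 2) / r) - 1)) * (P0 K c (W r θ s)).re := by
        intro θ; unfold GG; ring
      simp_rw [e]
      rw [intervalIntegral.integral_add, intervalIntegral.integral_const_mul,
        intervalIntegral.integral_const_mul, m1', m2']
      · ring
      · exact (hc1.const_mul _).intervalIntegrable _ _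
      · exact (hc0.const_mul _).intervalIntegrable _ _
    simp [this]
  · have h : Continuous (Function.uncurry fun θ s => GG K c r b θ s) := cG K c r b
    refine (h.continuousOn.integrableOn_compact
      ((isCompact_uIcc (a := (0 : ℝ)) (b := 2 * Real.pi)).prod
        (isCompact_uIcc (a := (0 : ℝ)) (b := r)))).mono_set ?_
    exact Set.prod_mono Set.uIoc_subset_uIcc Set.uIoc_subset_uIcc

lemma rG (K : ℕ) (c : ℕ → ℂ) (r b θ : ℝ) (hr : 0 < r) :
    GG K c r b θ r = (r / 2) * (PS K c (Complex.exp (Complex.I * θ))).re +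
      (b - r / 2) * ((Complex.exp (Complex.I * θ) * P1 K c (Complex.exp (Complex.I * θ))).re +
        (P0 K c (Complex.exp (Complex.I * θ))).re) := by
  have hw : W r θ r = Complex.exp (Complex.I * θ) := by
    unfold W
    rw [div_self (by exact_mod_cast hr.ne'), one_mul]
  rw [PS_eq, Complex.sub_re]
  unfold GG
  rw [hw]
  field_simp
  ring

lemma fG (hTST : S_TST) (K : ℕ) (c : ℕ → ℂ) (a : E2) (r b : ℝ) (hr : 0 < r) :
    Continuous (FF K c a r b) ∧ ∀ θ s : ℝ, s * FF K c a r b (a + s • dir θ) = GG K c r b θ s := by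
  obtain ⟨-, -, -, -, -, hdiv⟩ := hTST K c a r hr
  have hF : FF K c a r b = fun x => b * ((3 - ‖x - a‖ ^ 2 / r ^ 2) / (2 * r) *
        ((zc x - zc a) / r * P1 K c ((zc x - zc a) / r)).re +
      (3 - 2 * ‖x - a‖ ^ 2 / r ^ 2) / r * (P0 K c ((zc x - zc a) / r)).re) -
      (P0 K c ((zc x - zc a) / r)).re := by
    funext x
    unfold FF
    rw [hdiv x]
    rfl
  have hzc : Continuous zc := by
    have : zc = fun x : E2 => ((x 0 : ℝ) : ℂ) + ((x 1 : ℝ) : ℂ) * Complex.I := by
      funext x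
      apply Complex.ext <;> simp [zc]
    rw [this]
    fun_prop
  constructor
  · rw [hF]
    have hW : Continuous (fun x : E2 => (zc x - zc a) / (r : ℂ)) :=
      (hzc.sub continuous_const).div_const _
    have h0' : Continuous fun x : E2 => (P0 K c ((zc x - zc a) / r)).re :=
      Complex.continuous_re.comp ((cP0 K c).comp hW)
    have h1' : Continuous fun x : E2 => ((zc x - zc a) / r * P1 K c ((zc x - zc a) / r)).re :=
      Complex.continuous_re.comp (hW.mul ((cP1 K c).comp hW))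
    fun_prop
  · intro θ s
    have h1 : zc (a + s • dir θ) - zc a = s * Complex.exp (Complex.I * θ) := by
      rw [mul_comm Complex.I, Complex.exp_mul_I, ← Complex.ofReal_cos, ← Complex.ofReal_sin]
      apply Complex.ext <;> simp [zc, dir] <;> exact Or.inl rfl
    have h2 : ‖a + s • dir θ - a‖ ^ 2 = s ^ 2 := by
      rw [add_sub_cancel_left, EuclideanSpace.real_norm_sq_eq]
      simp [dir, Fin.sum_univ_two]
      nlinarith [Real.sin_sq_add_cos_sq θ]
    rw [hF]
    simp only
    rw [h1, h2]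
    unfold GG W
    rw [show (s : ℂ) * Complex.exp (Complex.I * θ) / r = (s : ℂ) / r * Complex.exp (Complex.I * θ) by ring]

end INTS

open INTS in
theorem pINTS (hPOL : S_POL) (hTST : S_TST) : S_INTS := by
  intro K c B hK hPB a g r b hg hper hr hgb hb0 hbr
  have hK' : (2 : ℝ) ≤ K := by exact_mod_cast hK
  have hrK : r / K ≤ r / 2 := div_le_div_of_nonneg_left hr.le two_pos hK'
  have hB : 0 ≤ B := (norm_nonneg _).trans (hPB 0 (by simp; positivity)).1
  obtain ⟨hFc, hFG⟩ := fG hTST K c a r b hr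
  obtain ⟨-, hpol⟩ := hPOL a (fun θ => r + g θ) (continuous_const.add hg)
    (fun θ => by simp [hper θ]) (fun θ => by have := abs_le.1 (hgb θ); linarith [this.1])
  rw [hpol _ hFc]
  simp_rw [hFG]
  have hGc := cG K c r b
  have hGt : ∀ θ, Continuous (GG K c r b θ) := fun θ => by
    have h : Continuous (fun s : ℝ => ((θ, s) : ℝ × ℝ)) := by fun_prop
    exact hGc.comp h
  -- splitting
  have hsplit : ∀ θ, ∫ s in (0 : ℝ)..(r + g θ), GG K c r b θ s =
      (∫ s in (0 : ℝ)..r, GG K c r b θ s) + g θ * GG K c r b θ r +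
        ((∫ s in r..(r + g θ), GG K c r b θ s) - g θ * GG K c r b θ r) := by
    intro θ
    rw [← intervalIntegral.integral_add_adjacent_intervals
      ((hGt θ).intervalIntegrable 0 r) ((hGt θ).intervalIntegrable r (r + g θ))]
    ring
  have hE : ∀ θ, |(∫ s in r..(r + g θ), GG K c r b θ s) - g θ * GG K c r b θ r| ≤
      9 * K * B * g θ ^ 2 := by
    intro θ
    have := tay (GG K c r b θ) (GD K c r b θ) r (g θ) (18 * K * B) (dG K c r b θ)
      (fun s hs => bG K c B hK hPB r b θ s hr hb0 hbr (hs.trans (hgb θ)))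
    linarith
  have c1 : Continuous fun θ => ∫ s in (0 : ℝ)..r, GG K c r b θ s :=
    intervalIntegral.continuous_parametric_intervalIntegral_of_continuous' hGc 0 r
  have cr : Continuous fun θ => GG K c r b θ r := by
    have h : Continuous (fun θ : ℝ => ((θ, r) : ℝ × ℝ)) := by fun_prop
    exact hGc.comp h
  have c2 : Continuous fun θ => g θ * GG K c r b θ r := hg.mul cr
  have c3' : Continuous fun θ => ∫ s in (0 : ℝ)..(r + g θ), GG K c r b θ s :=
    intervalIntegral.continuous_parametric_intervalIntegral_of_continuous hGc (continuous_const.add hg)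
  have c3 : Continuous fun θ => (∫ s in r..(r + g θ), GG K c r b θ s) - g θ * GG K c r b θ r := by
    have : (fun θ => (∫ s in r..(r + g θ), GG K c r b θ s) - g θ * GG K c r b θ r) =
        fun θ => (∫ s in (0 : ℝ)..(r + g θ), GG K c r b θ s) -
          (∫ s in (0 : ℝ)..r, GG K c r b θ s) - g θ * GG K c r b θ r := by
      funext θ; rw [hsplit θ]; ring
    rw [this]
    exact (c3'.sub c1).sub c2
  have hps : Continuous fun θ : ℝ => (PS K c (Complex.exp (Complex.I * θ))).re := by
    have e : Continuous fun θ : ℝ => Complex.exp (Complex.I * θ) := by fun_prop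
    simp_rw [PS_eq]
    exact Complex.continuous_re.comp ((e.mul ((cP1 K c).comp e)).sub ((cP0 K c).comp e))
  have c4 : Continuous fun θ : ℝ => g θ * (PS K c (Complex.exp (Complex.I * θ))).re := hg.mul hps
  have c12 : Continuous fun θ => (∫ s in (0 : ℝ)..r, GG K c r b θ s) + g θ * GG K c r b θ r :=
    c1.add c2
  simp_rw [hsplit]
  rw [intervalIntegral.integral_add (c12.intervalIntegrable _ _) (c3.intervalIntegrable _ _),
    intervalIntegral.integral_add (c1.intervalIntegrable _ _) (c2.intervalIntegrable _ _), mG, zero_add]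
  have hI3 : |∫ θ in (0 : ℝ)..(2 * Real.pi),
      ((∫ s in r..(r + g θ), GG K c r b θ s) - g θ * GG K c r b θ r)| ≤
      9 * K * B * ∫ θ in (0 : ℝ)..(2 * Real.pi), g θ ^ 2 := by
    rw [← Real.norm_eq_abs, ← intervalIntegral.integral_const_mul]
    refine intervalIntegral.norm_integral_le_of_norm_le (g := fun θ => 9 * K * B * g θ ^ 2)
      Real.two_pi_pos.le ?_ ?_
    · exact Filter.Eventually.of_forall fun θ _ => hE θ
    · exact ((hg.pow 2).const_mul _).intervalIntegrable _ _
  have hI2 : |(∫ θ in (0 : ℝ)..(2 * Real.pi), g θ * GG K c r b θ r) -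
      (r / 2) * ∫ θ in (0 : ℝ)..(2 * Real.pi), g θ * (PS K c (Complex.exp (Complex.I * θ))).re| ≤
      |b - r / 2| * (2 * B) * ∫ θ in (0 : ℝ)..(2 * Real.pi), |g θ| := by
    rw [← intervalIntegral.integral_const_mul, ← intervalIntegral.integral_sub
      (c2.intervalIntegrable _ _) ((c4.const_mul _).intervalIntegrable _ _),
      ← Real.norm_eq_abs (∫ θ in (0 : ℝ)..(2 * Real.pi), _), ← intervalIntegral.integral_const_mul]
    refine intervalIntegral.norm_integral_le_of_norm_le
      (g := fun θ => |b - r / 2| * (2 * B) * |g θ|) Real.two_pi_pos.le ?_ ?_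
    · refine Filter.Eventually.of_forall fun θ _ => ?_
      have he : ‖Complex.exp (Complex.I * θ)‖ = 1 := by
        rw [mul_comm Complex.I, Complex.norm_exp_ofReal_mul_I]
      obtain ⟨b0, b1, -⟩ := hPB (Complex.exp (Complex.I * θ)) (by rw [he]; simp)
      have hA := (Complex.abs_re_le_norm (P0 K c (Complex.exp (Complex.I * θ)))).trans b0
      have hQ : |(Complex.exp (Complex.I * θ) * P1 K c (Complex.exp (Complex.I * θ))).re| ≤ B := by
        refine (Complex.abs_re_le_norm _).trans ?_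
        rw [norm_mul, he, one_mul]; exact b1
      rw [Real.norm_eq_abs, rG K c r b θ hr]
      have e : g θ * ((r / 2) * (PS K c (Complex.exp (Complex.I * θ))).re +
          (b - r / 2) * ((Complex.exp (Complex.I * θ) * P1 K c (Complex.exp (Complex.I * θ))).re +
          (P0 K c (Complex.exp (Complex.I * θ))).re)) -
          (r / 2) * (g θ * (PS K c (Complex.exp (Complex.I * θ))).re) =
          (b - r / 2) * ((Complex.exp (Complex.I * θ) * P1 K c (Complex.exp (Complex.I * θ))).re +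
          (P0 K c (Complex.exp (Complex.I * θ))).re) * g θ := by ring
      rw [e]
      refine ab (ab le_rfl ?_) le_rfl
      refine (abs_add_le _ _).trans ?_
      linarith
    · exact (hg.abs.const_mul _).intervalIntegrable _ _
  have n1 : 0 ≤ ∫ θ in (0 : ℝ)..(2 * Real.pi), |g θ| :=
    intervalIntegral.integral_nonneg Real.two_pi_pos.le fun θ _ => abs_nonneg _
  have n2 : 0 ≤ ∫ θ in (0 : ℝ)..(2 * Real.pi), g θ ^ 2 :=
    intervalIntegral.integral_nonneg Real.two_pi_pos.le fun θ _ => sq_nonneg _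
  have n3 : 0 ≤ |b - r / 2| * B * ∫ θ in (0 : ℝ)..(2 * Real.pi), |g θ| :=
    mul_nonneg (mul_nonneg (abs_nonneg _) hB) n1
  have n4 : 0 ≤ K * B * ∫ θ in (0 : ℝ)..(2 * Real.pi), g θ ^ 2 :=
    mul_nonneg (mul_nonneg (by positivity) hB) n2
  rw [abs_le] at hI2 hI3 ⊢
  constructor
  · linarith [hI2.1, hI3.1]
  · linarith [hI2.2, hI3.2]

end Pool.Agent.T2H01.QI
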