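import Pool.Agent.T2H01.QI.Stm3

/-! # KER: the analytic Dirichlet kernel -/

set_option autoImplicit false

noncomputable section

open MeasureTheory Metric Set Filter Topology
open scoped NNReal ENNReal

namespace Pool.Agent.T2H01.QI

namespace KER

theorem pow_le {K k : ℕ} (hK : 2 ≤ K) (hk : k ≤ K + 1) {ρ : ℝ} (h0 : 0 ≤ ρ) (h1 : ρ ≤ 1 + 1 / (K : ℝ)) :
    ρ ^ k ≤ Real.exp 2 := by
  have hK0 : (2 : ℝ) ≤ K := by exact_mod_cast hK
  have h2 : ρ ≤ Real.exp (1 / (K : ℝ)) := by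
    have := Real.add_one_le_exp (1 / (K : ℝ))
    linarith
  calc ρ ^ k ≤ (Real.exp (1 / (K : ℝ))) ^ k := pow_le_pow_left₀ h0 h2 k
    _ = Real.exp (k * (1 / (K : ℝ))) := by rw [← Real.exp_nat_mul]
    _ ≤ Real.exp 2 := by
      apply Real.exp_le_exp.2
      have h3 : (k : ℝ) ≤ K + 1 := by exact_mod_cast hk
      rw [mul_one_div, div_le_iff₀ (by linarith)]
      linarith

theorem sum_bound {K m n : ℕ} (hK : 2 ≤ K) (hn : n ≤ K) {w : ℂ} (h1 : ‖w‖ ≤ 1 + 1 / (K : ℝ)) :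
    ‖∑ k ∈ Finset.Icc m n, w ^ k‖ ≤ (K + 1) * Real.exp 2 := by
  calc ‖∑ k ∈ Finset.Icc m n, w ^ k‖ ≤ ∑ k ∈ Finset.Icc m n, ‖w ^ k‖ := norm_sum_le _ _
    _ ≤ ∑ k ∈ Finset.Icc m n, Real.exp 2 := by
      apply Finset.sum_le_sum
      intro k hk
      rw [Finset.mem_Icc] at hk
      rw [norm_pow]
      exact pow_le hK (by omega) (norm_nonneg _) h1
    _ = ((n + 1 - m : ℕ) : ℝ) * Real.exp 2 := by
      rw [Finset.sum_const, Nat.card_Icc, nsmul_eq_mul]
    _ ≤ (K + 1) * Real.exp 2 := by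
      apply mul_le_mul_of_nonneg_right _ (Real.exp_pos 2).le
      have : n + 1 - m ≤ K + 1 := by omega
      exact_mod_cast this

theorem geo_bound {K m n : ℕ} (hK : 2 ≤ K) (hn : n ≤ K) {w : ℂ} (h1 : ‖w‖ ≤ 1 + 1 / (K : ℝ)) :
    ‖∑ k ∈ Finset.Icc m n, w ^ k‖ * ‖1 - w‖ ≤ 2 * Real.exp 2 := by
  rcases le_or_gt m (n + 1) with h | h
  · have h2 : Finset.Icc m n = Finset.Ico m (n + 1) := by
      ext k; simp only [Finset.mem_Icc, Finset.mem_Ico]; omega
    have h3 := geom_sum_Ico_mul w h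
    rw [← norm_mul, h2, ← neg_sub w 1, mul_neg, norm_neg, h3]
    calc ‖w ^ (n + 1) - w ^ m‖ ≤ ‖w ^ (n + 1)‖ + ‖w ^ m‖ := norm_sub_le _ _
      _ ≤ Real.exp 2 + Real.exp 2 := by
        rw [norm_pow, norm_pow]
        exact add_le_add (pow_le hK (by omega) (norm_nonneg _) h1) (pow_le hK (by omega) (norm_nonneg _) h1)
      _ = 2 * Real.exp 2 := by ring
  · have h2 : Finset.Icc m n = ∅ := Finset.Icc_eq_empty (by omega)
    rw [h2, Finset.sum_empty, norm_zero, zero_mul]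
    positivity

theorem w_re_im (ρ t : ℝ) : (1 - (ρ : ℂ) * Complex.exp (-(Complex.I * t))).re = 1 - ρ * Real.cos t ∧
    (1 - (ρ : ℂ) * Complex.exp (-(Complex.I * t))).im = ρ * Real.sin t := by
  have h : Complex.exp (-(Complex.I * t)) = ((Real.cos t : ℝ) : ℂ) - ((Real.sin t : ℝ) : ℂ) * Complex.I := by
    have h2 : -(Complex.I * (t : ℂ)) = ((-t : ℝ) : ℂ) * Complex.I := by push_cast; ring
    rw [h2, Complex.exp_mul_I, ← Complex.ofReal_cos, ← Complex.ofReal_sin, Real.cos_neg, Real.sin_neg]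
    push_cast; ring
  rw [h]
  generalize Real.cos t = c
  generalize Real.sin t = s
  constructor <;> simp

theorem norm_sq_w (ρ t : ℝ) : ‖1 - (ρ : ℂ) * Complex.exp (-(Complex.I * t))‖ ^ 2 =
    (1 - ρ * Real.cos t) ^ 2 + (ρ * Real.sin t) ^ 2 := by
  rw [← Complex.normSq_eq_norm_sq, Complex.normSq_apply, (w_re_im ρ t).1, (w_re_im ρ t).2]
  ring

theorem sin_le (ρ t : ℝ) : |Real.sin t| ≤ ‖1 - (ρ : ℂ) * Complex.exp (-(Complex.I * t))‖ := by
  apply abs_le_of_sq_le_sq _ (norm_nonneg _)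
  rw [norm_sq_w]
  have h1 : Real.sin t ^ 2 = 1 - Real.cos t ^ 2 := by have := Real.sin_sq_add_cos_sq t; linarith
  have h2 : (1 - ρ * Real.cos t) ^ 2 + (ρ * Real.sin t) ^ 2 - Real.sin t ^ 2 = (ρ - Real.cos t) ^ 2 := by
    rw [mul_pow ρ (Real.sin t), h1]; ring
  nlinarith [sq_nonneg (ρ - Real.cos t)]

theorem one_le {ρ t : ℝ} (h0 : 0 ≤ ρ) (hc : Real.cos t ≤ 0) :
    1 ≤ ‖1 - (ρ : ℂ) * Complex.exp (-(Complex.I * t))‖ := by
  have h1 := (Complex.abs_re_le_norm (1 - (ρ : ℂ) * Complex.exp (-(Complex.I * t))))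
  rw [(w_re_im ρ t).1] at h1
  have h2 := le_abs_self (1 - ρ * Real.cos t)
  nlinarith

theorem dist {ρ t : ℝ} (h0 : 0 ≤ ρ) (ht0 : 0 ≤ t) (ht1 : t ≤ 2 * Real.pi) :
    t ≤ 2 * Real.pi * ‖1 - (ρ : ℂ) * Complex.exp (-(Complex.I * t))‖ ∨
    2 * Real.pi - t ≤ 2 * Real.pi * ‖1 - (ρ : ℂ) * Complex.exp (-(Complex.I * t))‖ := by
  have hpi := Real.pi_pos
  set A := ‖1 - (ρ : ℂ) * Complex.exp (-(Complex.I * t))‖ with hA
  have hA0 : 0 ≤ A := norm_nonneg _
  have hs : |Real.sin t| ≤ A := sin_le ρ t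
  rcases le_or_gt t (Real.pi / 2) with h | h
  · left
    have h1 := Real.mul_le_sin ht0 h
    have h2 := (le_abs_self (Real.sin t)).trans hs
    have h3 : 2 / Real.pi * t ≤ A := h1.trans h2
    have h4 : 2 * t ≤ A * Real.pi := by
      rw [div_mul_eq_mul_div, div_le_iff₀ hpi] at h3
      exact h3
    nlinarith
  · rcases le_or_gt t (3 * Real.pi / 2) with h' | h'
    · left
      have hc : Real.cos t ≤ 0 := Real.cos_nonpos_of_pi_div_two_le_of_le h.le (by linarith)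
      have h1 : 1 ≤ A := one_le h0 hc
      nlinarith
    · right
      have h1 := Real.mul_le_sin (x := 2 * Real.pi - t) (by linarith) (by linarith)
      rw [Real.sin_two_pi_sub] at h1
      have h2 := (neg_le_abs (Real.sin t)).trans hs
      have h3 : 2 / Real.pi * (2 * Real.pi - t) ≤ A := h1.trans h2
      have h4 : 2 * (2 * Real.pi - t) ≤ A * Real.pi := by
        rw [div_mul_eq_mul_div, div_le_iff₀ hpi] at h3
        exact h3
      nlinarith

/-- the majorant -/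
def ff (K : ℕ) (t : ℝ) : ℝ := (1 / (K : ℝ) + t)⁻¹

theorem ptw {K m n : ℕ} (hK : 2 ≤ K) (hn : n ≤ K) {ρ : ℝ} (h0 : 0 ≤ ρ) (h1 : ρ ≤ 1 + 1 / (K : ℝ)) {t : ℝ}
    (ht0 : 0 ≤ t) (ht1 : t ≤ 2 * Real.pi) :
    ‖∑ k ∈ Finset.Icc m n, ((ρ : ℂ) * Complex.exp (-(Complex.I * t))) ^ k‖ ≤
      Real.exp 2 * (2 + 4 * Real.pi) * (ff K t + ff K (2 * Real.pi - t)) := by
  have hpi := Real.pi_pos
  have hK0 : (2 : ℝ) ≤ K := by exact_mod_cast hK
  have hKi : 0 < 1 / (K : ℝ) := by positivity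
  have hw : ‖(ρ : ℂ) * Complex.exp (-(Complex.I * t))‖ ≤ 1 + 1 / (K : ℝ) := by
    have h2 : -(Complex.I * (t : ℂ)) = ((-t : ℝ) : ℂ) * Complex.I := by push_cast; ring
    rw [norm_mul, h2, Complex.norm_exp_ofReal_mul_I, mul_one, Complex.norm_real, Real.norm_of_nonneg h0]
    exact h1
  set S := ‖∑ k ∈ Finset.Icc m n, ((ρ : ℂ) * Complex.exp (-(Complex.I * t))) ^ k‖ with hS
  have hS0 : 0 ≤ S := norm_nonneg _
  have b1 : S ≤ (K + 1) * Real.exp 2 := sum_bound hK hn hw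
  have b2 : S * ‖1 - (ρ : ℂ) * Complex.exp (-(Complex.I * t))‖ ≤ 2 * Real.exp 2 := geo_bound hK hn hw
  have hE : 0 < Real.exp 2 := Real.exp_pos 2
  have b3 : S * (1 / (K : ℝ)) ≤ 2 * Real.exp 2 := by
    rw [mul_one_div, div_le_iff₀ (by linarith)]
    nlinarith
  have key : ∀ d : ℝ, 0 ≤ d → d ≤ 2 * Real.pi * ‖1 - (ρ : ℂ) * Complex.exp (-(Complex.I * t))‖ →
      S ≤ Real.exp 2 * (2 + 4 * Real.pi) * ff K d := by
    intro d hd0 hd
    have c1 : S * d ≤ 4 * Real.pi * Real.exp 2 := by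
      calc S * d ≤ S * (2 * Real.pi * ‖1 - (ρ : ℂ) * Complex.exp (-(Complex.I * t))‖) :=
            mul_le_mul_of_nonneg_left hd hS0
        _ = 2 * Real.pi * (S * ‖1 - (ρ : ℂ) * Complex.exp (-(Complex.I * t))‖) := by ring
        _ ≤ 2 * Real.pi * (2 * Real.exp 2) := mul_le_mul_of_nonneg_left b2 (by positivity)
        _ = 4 * Real.pi * Real.exp 2 := by ring
    unfold ff
    rw [← div_eq_mul_inv, le_div_iff₀ (by linarith)]
    calc S * (1 / (K : ℝ) + d) = S * (1 / (K : ℝ)) + S * d := by ring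
      _ ≤ 2 * Real.exp 2 + 4 * Real.pi * Real.exp 2 := add_le_add b3 c1
      _ = Real.exp 2 * (2 + 4 * Real.pi) := by ring
  have hf1 : 0 ≤ ff K t := by unfold ff; positivity
  have hf2 : 0 ≤ ff K (2 * Real.pi - t) := by
    unfold ff; exact inv_nonneg.2 (by linarith)
  have hL : 0 ≤ Real.exp 2 * (2 + 4 * Real.pi) := by positivity
  rcases dist h0 ht0 ht1 with h | h
  · refine (key t ht0 h).trans (mul_le_mul_of_nonneg_left ?_ hL)
    linarith
  · refine (key (2 * Real.pi - t) (by linarith) h).trans (mul_le_mul_of_nonneg_left ?_ hL)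
    linarith

theorem ff_cont {K : ℕ} (hK : 2 ≤ K) : ContinuousOn (ff K) (Icc 0 (2 * Real.pi)) := by
  have hK0 : (2 : ℝ) ≤ K := by exact_mod_cast hK
  have hKi : 0 < 1 / (K : ℝ) := by positivity
  intro t ht
  unfold ff
  apply ContinuousAt.continuousWithinAt
  apply ContinuousAt.inv₀
  · fun_prop
  · have := ht.1
    positivity

theorem ff_int {K : ℕ} (hK : 2 ≤ K) : ∫ t in (0 : ℝ)..(2 * Real.pi), ff K t ≤ 3 * (1 + Real.log K) := by
  have hpi := Real.pi_pos
  have hK0 : (2 : ℝ) ≤ K := by exact_mod_cast hK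
  have hKi : 0 < 1 / (K : ℝ) := by positivity
  have h1 : ∫ t in (0 : ℝ)..(2 * Real.pi), ff K t = Real.log ((1 / (K : ℝ) + 2 * Real.pi) / (1 / (K : ℝ) + 0)) := by
    unfold ff
    rw [intervalIntegral.integral_comp_add_left (fun x : ℝ => x⁻¹) (1 / (K : ℝ)),
      integral_inv_of_pos (by linarith) (by linarith)]
  have h2 : (1 / (K : ℝ) + 2 * Real.pi) / (1 / (K : ℝ) + 0) = 1 + 2 * Real.pi * K := by
    rw [add_zero]; field_simp
  have h3 : 1 + 2 * Real.pi * K ≤ 8 * K := by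
    have := Real.pi_lt_d2
    nlinarith
  rw [h1, h2]
  calc Real.log (1 + 2 * Real.pi * K) ≤ Real.log (8 * K) := Real.log_le_log (by positivity) h3
    _ = Real.log 8 + Real.log K := Real.log_mul (by norm_num) (by linarith)
    _ ≤ 3 * (1 + Real.log K) := by
      have h4 : Real.log 8 = 3 * Real.log 2 := by
        rw [show (8 : ℝ) = 2 ^ 3 by norm_num, Real.log_pow]; norm_num
      have h5 := Real.log_two_lt_d9
      have h6 : 0 ≤ Real.log K := Real.log_nonneg (by linarith)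
      linarith

end KER

theorem pKER : S_KER := by
  refine ⟨Real.exp 2 * (2 + 4 * Real.pi) * 6, by positivity, ?_⟩
  intro K hK z hz m n hn
  have hpi := Real.pi_pos
  set ρ : ℝ := ‖z‖ with hρ
  have hρ0 : 0 ≤ ρ := norm_nonneg z
  set F : ℝ → ℝ := fun t => ‖∑ k ∈ Finset.Icc m n, ((ρ : ℂ) * Complex.exp (-(Complex.I * t))) ^ k‖ with hF
  have hshift : ∀ t : ℝ, ‖∑ k ∈ Finset.Icc m n, (z * Complex.exp (-(Complex.I * t))) ^ k‖ = F (t - z.arg) := by
    intro t
    have h1 : z * Complex.exp (-(Complex.I * t)) = (ρ : ℂ) * Complex.exp (-(Complex.I * ((t - z.arg : ℝ) : ℂ))) := by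
      conv_lhs => rw [← Complex.norm_mul_exp_arg_mul_I z]
      rw [mul_assoc, ← Complex.exp_add]
      congr 2
      push_cast
      ring
    simp only [hF, h1]
  have hper : Function.Periodic F (2 * Real.pi) := by
    intro t
    simp only [hF]
    have h1 : Complex.exp (-(Complex.I * ((t + 2 * Real.pi : ℝ) : ℂ))) = Complex.exp (-(Complex.I * t)) := by
      have h2 : -(Complex.I * ((t + 2 * Real.pi : ℝ) : ℂ)) = -(Complex.I * t) - 2 * Real.pi * Complex.I := by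
        push_cast; ring
      rw [h2, Complex.exp_sub, Complex.exp_two_pi_mul_I, div_one]
    rw [h1]
  have hcont : Continuous F := by
    simp only [hF]
    fun_prop
  have e1 : ∫ t in (0 : ℝ)..(2 * Real.pi), ‖∑ k ∈ Finset.Icc m n, (z * Complex.exp (-(Complex.I * t))) ^ k‖ =
      ∫ t in (0 : ℝ)..(2 * Real.pi), F t := by
    have h1 : (fun t : ℝ => ‖∑ k ∈ Finset.Icc m n, (z * Complex.exp (-(Complex.I * t))) ^ k‖) =
        fun t : ℝ => F (t - z.arg) := funext hshift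
    rw [h1, intervalIntegral.integral_comp_sub_right]
    have h2 := hper.intervalIntegral_add_eq (0 - z.arg) 0
    rw [zero_add] at h2
    rw [← h2]
    congr 1
    ring
  have hG1 : IntervalIntegrable (KER.ff K) volume 0 (2 * Real.pi) :=
    ContinuousOn.intervalIntegrable_of_Icc (by positivity) (KER.ff_cont hK)
  have hG2 : IntervalIntegrable (fun t => KER.ff K (2 * Real.pi - t)) volume 0 (2 * Real.pi) := by
    apply ContinuousOn.intervalIntegrable_of_Icc (by positivity)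
    refine (KER.ff_cont hK).comp (by fun_prop) ?_
    intro t ht
    exact ⟨by linarith [ht.2], by linarith [ht.1]⟩
  have e2 : ∫ t in (0 : ℝ)..(2 * Real.pi), KER.ff K (2 * Real.pi - t) = ∫ t in (0 : ℝ)..(2 * Real.pi), KER.ff K t := by
    rw [intervalIntegral.integral_comp_sub_left (KER.ff K) (2 * Real.pi), sub_self, sub_zero]
  rw [e1]
  calc ∫ t in (0 : ℝ)..(2 * Real.pi), F t ≤
      ∫ t in (0 : ℝ)..(2 * Real.pi), Real.exp 2 * (2 + 4 * Real.pi) * (KER.ff K t + KER.ff K (2 * Real.pi - t)) := by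
        apply intervalIntegral.integral_mono_on (by positivity) (hcont.intervalIntegrable _ _)
          ((hG1.add hG2).const_mul _)
        intro t ht
        exact KER.ptw hK hn hρ0 hz ht.1 ht.2
    _ = Real.exp 2 * (2 + 4 * Real.pi) * (2 * ∫ t in (0 : ℝ)..(2 * Real.pi), KER.ff K t) := by
        rw [intervalIntegral.integral_const_mul, intervalIntegral.integral_add hG1 hG2, e2]
        ring
    _ ≤ Real.exp 2 * (2 + 4 * Real.pi) * (2 * (3 * (1 + Real.log K))) := by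
        apply mul_le_mul_of_nonneg_left _ (by positivity)
        exact mul_le_mul_of_nonneg_left (KER.ff_int hK) (by norm_num)
    _ = Real.exp 2 * (2 + 4 * Real.pi) * 6 * (1 + Real.log K) := by ring

end Pool.Agent.T2H01.QI
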