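import Pool.Agent.T2H01.QI.Stm3
import Pool.Agent.T2H01.QI.KEY

/-!
# Package KEY2
-/

set_option autoImplicit false

noncomputable section

open MeasureTheory Metric Set Filter Topology
open scoped NNReal ENNReal

namespace Pool.Agent.T2H01.QI

namespace KEY2x

theorem contDiff_one : ContDiff ℝ (⊤ : ℕ∞) (fun _ : E2 => (1 : ℝ)) := contDiff_const

theorem contDiff_zero : ContDiff ℝ (⊤ : ℕ∞) (fun _ : E2 => (0 : E2)) := contDiff_const

theorem fderiv_one (x v : E2) :
    fderiv ℝ (fun _ : E2 => (1 : ℝ)) x v = inner ℝ ((fun _ : E2 => (0 : E2)) x) v := by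
  simp

theorem dvg_zero (x : E2) : dvg (fun _ : E2 => (0 : E2)) x = 0 := by
  simp [dvg]

end KEY2x

open KEY KEY2x in
theorem pKEY2 (hPERF : S_PERF) (hTR2 : S_TR2) : S_KEY2 := by
  intro Ω hΩ β c₀ hβ u hu hcu φ Φ B hφs hgs hgd hg0 hB0
  have hper := hPERF Ω hΩ
  have hfinH := finH hper
  have hfinV : IsFiniteMeasure (volume.restrict Ω) := ⟨by
    rw [Measure.restrict_apply_univ]
    exact hΩ.2.1.measure_lt_top⟩
  obtain ⟨G, g, ν, ⟨hνm, hν1, hdiv⟩, hH1, hTr, hGr, hid⟩ := hu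
  have hcg := hTR2 Ω hΩ.1 hΩ.2.1 u g c₀ hH1.1 hTr hcu
  have hgi : Integrable g ((μH[1] : Measure E2).restrict (frontier Ω)) :=
    hTr.1.integrable (by norm_num)
  set μ : Measure E2 := (μH[1] : Measure E2).restrict (frontier Ω) with hμ
  have hae : ∀ᵐ x ∂μ, x ∈ frontier Ω := by
    rw [hμ]
    exact ae_restrict_mem isClosed_frontier.measurableSet
  -- the identity (A)
  have hA : ∀ (ψ : E2 → ℝ) (Ψ : E2 → E2), ContDiff ℝ (⊤ : ℕ∞) ψ → ContDiff ℝ (⊤ : ℕ∞) Ψ →
      (∀ x v, fderiv ℝ ψ x v = inner ℝ (Ψ x) v) → (∀ x, dvg Ψ x = 0) →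
      (∫ x, g x * inner ℝ (Ψ x) (ν x) ∂μ) + β * (∫ x, g x * ψ x ∂μ) =
        ∫ x in Ω, ψ x := by
    intro ψ Ψ hφs hgs hgd hg0
    have h1 := hid ψ Ψ ψ
      (h1_smooth hΩ.1.measurableSet hΩ.2.1 hφs hgs hgd) (tr_smooth hΩ.2.1 hper hφs.continuous)
    have h2 := hGr Ψ hgs
    simp only [hg0, mul_zero, integral_zero, zero_add] at h2
    rw [h2] at h1
    exact h1
  have hper' : (per Ω).toReal = ∫ _x, (1 : ℝ) ∂μ := by
    rw [integral_const, smul_eq_mul, mul_one, hμ, Measure.real, Measure.restrict_apply_univ]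
    rfl
  have hA0 : β * ∫ x, g x ∂μ = volume.real Ω := by
    have h1 := hA (fun _ => 1) (fun _ => 0) contDiff_one contDiff_zero fderiv_one dvg_zero
    simp only [inner_zero_left, mul_zero, integral_zero, zero_add, mul_one] at h1
    rw [h1]
    simp
  have hγ : ∫ x, (g x - c₀) ∂μ = volume.real Ω / β - c₀ * (per Ω).toReal := by
    have hc0 : ∫ _x, c₀ ∂μ = c₀ * (per Ω).toReal := by
      rw [hper', integral_const, integral_const, smul_eq_mul, smul_eq_mul]
      ring
    rw [integral_sub hgi (integrable_const _), hc0, ← hA0]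
    field_simp
  have hγi : Integrable (fun x => g x - c₀) μ := hgi.sub (integrable_const _)
  have hγ0 : ∀ᵐ x ∂μ, 0 ≤ g x - c₀ := by
    filter_upwards [hcg] with x hx
    linarith
  rw [← hγ]
  have hAk := hA φ Φ hφs hgs hgd (fun x => hg0 x)
  -- (B)
  have hB : ∫ x, inner ℝ (Φ x) (ν x) ∂μ = 0 := by
    have h2 := hdiv Φ hgs
    have h3 : ∀ x, dvg Φ x = 0 := fun x => hg0 x
    simp only [h3, integral_zero] at h2
    exact h2.symm
  have hφc : Continuous φ := hφs.continuous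
  set p : E2 → ℝ := fun x => inner ℝ (Φ x) (ν x) with hpdef
  have hpm : AEStronglyMeasurable p μ := (hgs.continuous.aestronglyMeasurable).inner hνm
  have hpΦ : ∀ᵐ x ∂μ, ‖p x‖ ≤ ‖Φ x‖ := by
    filter_upwards [hν1] with x hx1
    have h1 := abs_real_inner_le_norm (Φ x) (ν x)
    rw [hx1, mul_one] at h1
    rw [Real.norm_eq_abs]
    exact h1
  have hpb : ∀ᵐ x ∂μ, ‖p x‖ ≤ B := by
    filter_upwards [hae, hpΦ] with x hx hx1
    have h1 := hB0 x (frontier_subset_closure hx)
    have h2 : 0 ≤ β * |φ x| := by positivity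
    linarith
  have hφbd : ∀ᵐ x ∂μ, ‖φ x‖ ≤ B / β := by
    filter_upwards [hae] with x hx
    have h1 := hB0 x (frontier_subset_closure hx)
    have h2 : 0 ≤ ‖Φ x‖ := norm_nonneg _
    rw [Real.norm_eq_abs, le_div_iff₀ hβ]
    linarith
  have hpi : Integrable p μ := Integrable.of_bound hpm _ hpb
  have hφi : Integrable φ μ := Integrable.of_bound hφc.aestronglyMeasurable _ hφbd
  have hgp : Integrable (fun x => g x * p x) μ := hgi.mul_bdd hpm hpb
  have hgφ : Integrable (fun x => g x * φ x) μ := hgi.mul_bdd hφc.aestronglyMeasurable hφbd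
  have key : β * c₀ * (∫ x, φ x ∂μ) - ∫ x in Ω, φ x =
      -∫ x, (g x - c₀) * (p x + β * φ x) ∂μ := by
    have h1 : ∫ x, (g x - c₀) * (p x + β * φ x) ∂μ =
        (∫ x, g x * p x ∂μ) + β * (∫ x, g x * φ x ∂μ) - c₀ * (∫ x, p x ∂μ) -
          β * c₀ * ∫ x, φ x ∂μ := by
      have e1 : ∫ x, (g x - c₀) * (p x + β * φ x) ∂μ =
          ∫ x, ((g x * p x + β * (g x * φ x)) - (c₀ * p x + β * c₀ * φ x)) ∂μ := by
        refine integral_congr_ae (Eventually.of_forall fun x => ?_)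
        show (g x - c₀) * (p x + β * φ x) =
          (g x * p x + β * (g x * φ x)) - (c₀ * p x + β * c₀ * φ x)
        ring
      have i1 : Integrable (fun x => g x * p x + β * (g x * φ x)) μ :=
        hgp.add (hgφ.const_mul β)
      have i2 : Integrable (fun x => c₀ * p x + β * c₀ * φ x) μ :=
        (hpi.const_mul c₀).add (hφi.const_mul (β * c₀))
      rw [e1, integral_sub i1 i2, integral_add hgp (hgφ.const_mul β),
        integral_add (hpi.const_mul c₀) (hφi.const_mul (β * c₀)), integral_const_mul,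
        integral_const_mul, integral_const_mul]
      ring
    rw [h1, hB, hAk]
    ring
  rw [key, abs_neg, ← integral_const_mul]
  have hbd : ∀ᵐ x ∂μ, ‖(g x - c₀) * (p x + β * φ x)‖ ≤ B * (g x - c₀) := by
    filter_upwards [hpΦ, hae, hγ0] with x hx hx1 hx2
    rw [norm_mul, Real.norm_eq_abs (g x - c₀), abs_of_nonneg hx2, mul_comm]
    refine mul_le_mul_of_nonneg_right ?_ hx2
    refine (norm_add_le _ _).trans (le_trans (add_le_add hx (le_of_eq ?_))
      (hB0 x (frontier_subset_closure hx1)))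
    rw [norm_mul, Real.norm_eq_abs β, abs_of_pos hβ, Real.norm_eq_abs]
  have := norm_integral_le_of_norm_le (hγi.const_mul B) hbd
  rw [Real.norm_eq_abs] at this
  exact this

end Pool.Agent.T2H01.QI
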