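import Pool.Agent.T2H01.QI.Stm3

/-!
# Package L1T of the project QI
-/

set_option autoImplicit false

noncomputable section

open MeasureTheory Metric Set Filter Topology
open scoped NNReal ENNReal

namespace Pool.Agent.T2H01.QI

namespace L1T

theorem exp_re (x : ℝ) : (Complex.exp (Complex.I * x)).re = Real.cos x := by
  rw [mul_comm, Complex.exp_ofReal_mul_I_re]

theorem exp_im (x : ℝ) : (Complex.exp (Complex.I * x)).im = Real.sin x := by
  rw [mul_comm, Complex.exp_ofReal_mul_I_im]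

theorem cf1 (g : ℝ → ℝ) (k : ℕ) :
    cf g k 1 = ∫ θ in (0 : ℝ)..(2 * Real.pi), g θ * Real.cos (k * θ) := by
  unfold cf
  congr 1
  funext θ
  rw [one_mul, show Complex.I * ((k : ℂ) * (θ : ℂ)) = Complex.I * ((k * θ : ℝ) : ℂ) by
    push_cast; ring, exp_re]

theorem cf2 (g : ℝ → ℝ) (k : ℕ) :
    cf g k (-Complex.I) = ∫ θ in (0 : ℝ)..(2 * Real.pi), g θ * Real.sin (k * θ) := by
  unfold cf
  congr 1
  funext θ
  rw [show Complex.I * ((k : ℂ) * (θ : ℂ)) = Complex.I * ((k * θ : ℝ) : ℂ) by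
    push_cast; ring, Complex.mul_re, Complex.neg_re, Complex.neg_im, Complex.I_re, Complex.I_im,
    exp_im]
  ring

theorem int_cos (n : ℤ) (hn : n ≠ 0) :
    ∫ θ in (0 : ℝ)..(2 * Real.pi), Real.cos (n * θ) = 0 := by
  rw [intervalIntegral.integral_comp_mul_left (fun x => Real.cos x)
    (by exact_mod_cast hn : (n : ℝ) ≠ 0), integral_cos]
  have : Real.sin (n * (2 * Real.pi)) = 0 := by
    rw [show (n : ℝ) * (2 * Real.pi) = ((2 * n : ℤ) : ℝ) * Real.pi by push_cast; ring]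
    exact Real.sin_int_mul_pi _
  rw [this]
  simp

theorem int_sin (n : ℤ) : ∫ θ in (0 : ℝ)..(2 * Real.pi), Real.sin (n * θ) = 0 := by
  by_cases hn : n = 0
  · simp [hn]
  · rw [intervalIntegral.integral_comp_mul_left (fun x => Real.sin x)
      (by exact_mod_cast hn : (n : ℝ) ≠ 0), integral_sin]
    have : Real.cos (n * (2 * Real.pi)) = 1 := Real.cos_int_mul_two_pi n
    rw [this]
    simp

theorem ii (f : ℝ → ℝ) (hf : Continuous f) : IntervalIntegrable f volume 0 (2 * Real.pi) :=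
  hf.intervalIntegrable _ _

theorem occ (k l : ℕ) (hk : 1 ≤ k) : ∫ θ in (0 : ℝ)..(2 * Real.pi), Real.cos (k * θ) *
    Real.cos (l * θ) = if k = l then Real.pi else 0 := by
  have e : ∀ θ : ℝ, Real.cos (k * θ) * Real.cos (l * θ) =
      (1 / 2) * Real.cos ((((k : ℤ) - l : ℤ) : ℝ) * θ) +
        (1 / 2) * Real.cos ((((k : ℤ) + l : ℤ) : ℝ) * θ) := by
    intro θ
    push_cast
    rw [sub_mul, add_mul, Real.cos_sub, Real.cos_add]
    ring
  simp only [e]
  rw [intervalIntegral.integral_add (ii _ (by fun_prop)) (ii _ (by fun_prop)),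
    intervalIntegral.integral_const_mul, intervalIntegral.integral_const_mul,
    int_cos ((k : ℤ) + l) (by omega)]
  split_ifs with h
  · subst h
    simp
  · rw [int_cos _ (by omega)]
    simp

theorem oss (k l : ℕ) (hk : 1 ≤ k) : ∫ θ in (0 : ℝ)..(2 * Real.pi), Real.sin (k * θ) *
    Real.sin (l * θ) = if k = l then Real.pi else 0 := by
  have e : ∀ θ : ℝ, Real.sin (k * θ) * Real.sin (l * θ) =
      (1 / 2) * Real.cos ((((k : ℤ) - l : ℤ) : ℝ) * θ) +
        (-(1 / 2)) * Real.cos ((((k : ℤ) + l : ℤ) : ℝ) * θ) := by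
    intro θ
    push_cast
    rw [sub_mul, add_mul, Real.cos_sub, Real.cos_add]
    ring
  simp only [e]
  rw [intervalIntegral.integral_add (ii _ (by fun_prop)) (ii _ (by fun_prop)),
    intervalIntegral.integral_const_mul, intervalIntegral.integral_const_mul,
    int_cos ((k : ℤ) + l) (by omega)]
  split_ifs with h
  · subst h
    simp
  · rw [int_cos _ (by omega)]
    simp

theorem ocs (k l : ℕ) : ∫ θ in (0 : ℝ)..(2 * Real.pi), Real.cos (k * θ) *
    Real.sin (l * θ) = 0 := by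
  have e : ∀ θ : ℝ, Real.cos (k * θ) * Real.sin (l * θ) =
      (1 / 2) * Real.sin ((((k : ℤ) + l : ℤ) : ℝ) * θ) +
        (-(1 / 2)) * Real.sin ((((k : ℤ) - l : ℤ) : ℝ) * θ) := by
    intro θ
    push_cast
    rw [sub_mul, add_mul, Real.sin_sub, Real.sin_add]
    ring
  simp only [e]
  rw [intervalIntegral.integral_add (ii _ (by fun_prop)) (ii _ (by fun_prop)),
    intervalIntegral.integral_const_mul, intervalIntegral.integral_const_mul, int_sin, int_sin]
  simp

/-- a trigonometric polynomial -/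
def tp (A B : ℕ → ℝ) (K : ℕ) (θ : ℝ) : ℝ :=
  ∑ k ∈ Finset.Icc 2 K, (A k * Real.cos (k * θ) + B k * Real.sin (k * θ))

theorem tp_cont (A B : ℕ → ℝ) (K : ℕ) : Continuous (tp A B K) := by
  unfold tp
  fun_prop

theorem lin (f : ℝ → ℝ) (hf : IntervalIntegrable f volume 0 (2 * Real.pi)) (A B : ℕ → ℝ) (K : ℕ) :
    ∫ θ in (0 : ℝ)..(2 * Real.pi), f θ * tp A B K θ =
      ∑ k ∈ Finset.Icc 2 K, (A k * (∫ θ in (0 : ℝ)..(2 * Real.pi), f θ * Real.cos (k * θ)) +
        B k * ∫ θ in (0 : ℝ)..(2 * Real.pi), f θ * Real.sin (k * θ)) := by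
  have e : ∀ θ : ℝ, f θ * tp A B K θ = ∑ k ∈ Finset.Icc 2 K,
      (A k * (f θ * Real.cos (k * θ)) + B k * (f θ * Real.sin (k * θ))) := by
    intro θ
    unfold tp
    rw [Finset.mul_sum]
    exact Finset.sum_congr rfl fun k _ => by ring
  have i1 : ∀ k : ℕ, IntervalIntegrable (fun θ => f θ * Real.cos (k * θ)) volume 0 (2 * Real.pi) :=
    fun k => hf.mul_continuousOn (by fun_prop)
  have i2 : ∀ k : ℕ, IntervalIntegrable (fun θ => f θ * Real.sin (k * θ)) volume 0 (2 * Real.pi) :=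
    fun k => hf.mul_continuousOn (by fun_prop)
  simp only [e]
  rw [intervalIntegral.integral_finsetSum
    (fun k _ => ((i1 k).const_mul (A k)).add ((i2 k).const_mul (B k)))]
  refine Finset.sum_congr rfl fun k _ => ?_
  rw [intervalIntegral.integral_add ((i1 k).const_mul (A k)) ((i2 k).const_mul (B k)),
    intervalIntegral.integral_const_mul, intervalIntegral.integral_const_mul]

theorem tp_cos (A B : ℕ → ℝ) (K l : ℕ) (hl : l ∈ Finset.Icc 2 K) :
    ∫ θ in (0 : ℝ)..(2 * Real.pi), tp A B K θ * Real.cos (l * θ) = Real.pi * A l := by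
  have hl1 : 1 ≤ l := by have := Finset.mem_Icc.1 hl; omega
  have e : ∀ θ : ℝ, tp A B K θ * Real.cos (l * θ) = Real.cos (l * θ) * tp A B K θ :=
    fun θ => mul_comm _ _
  simp only [e]
  rw [lin _ (ii _ (by fun_prop))]
  have h : ∀ k : ℕ, A k * (∫ θ in (0 : ℝ)..(2 * Real.pi), Real.cos (l * θ) * Real.cos (k * θ)) +
      B k * (∫ θ in (0 : ℝ)..(2 * Real.pi), Real.cos (l * θ) * Real.sin (k * θ)) =
      if l = k then Real.pi * A k else 0 := by
    intro k
    rw [occ l k hl1, ocs]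
    split_ifs <;> ring
  rw [Finset.sum_congr rfl fun k _ => h k, Finset.sum_ite_eq, if_pos hl]

theorem tp_sin (A B : ℕ → ℝ) (K l : ℕ) (hl : l ∈ Finset.Icc 2 K) :
    ∫ θ in (0 : ℝ)..(2 * Real.pi), tp A B K θ * Real.sin (l * θ) = Real.pi * B l := by
  have hl1 : 1 ≤ l := by have := Finset.mem_Icc.1 hl; omega
  have e : ∀ θ : ℝ, tp A B K θ * Real.sin (l * θ) = Real.sin (l * θ) * tp A B K θ :=
    fun θ => mul_comm _ _
  simp only [e]
  rw [lin _ (ii _ (by fun_prop))]
  have h : ∀ k : ℕ, A k * (∫ θ in (0 : ℝ)..(2 * Real.pi), Real.sin (l * θ) * Real.cos (k * θ)) +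
      B k * (∫ θ in (0 : ℝ)..(2 * Real.pi), Real.sin (l * θ) * Real.sin (k * θ)) =
      if l = k then Real.pi * B k else 0 := by
    intro k
    have e2 : ∀ θ : ℝ, Real.sin (l * θ) * Real.cos (k * θ) = Real.cos (k * θ) * Real.sin (l * θ) :=
      fun θ => mul_comm _ _
    simp only [e2]
    rw [oss l k hl1, ocs]
    split_ifs <;> ring
  rw [Finset.sum_congr rfl fun k _ => h k, Finset.sum_ite_eq, if_pos hl]

theorem cs (h : ℝ → ℝ) (hh : Continuous h) : ∫ θ in (0 : ℝ)..(2 * Real.pi), |h θ| ≤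
    Real.sqrt (2 * Real.pi * ∫ θ in (0 : ℝ)..(2 * Real.pi), h θ ^ 2) := by
  have hpi := Real.pi_pos
  set J := ∫ θ in (0 : ℝ)..(2 * Real.pi), |h θ| with hJ
  set m := J / (2 * Real.pi) with hm
  have hJm : J = 2 * Real.pi * m := by rw [hm]; field_simp
  have h0 : 0 ≤ ∫ θ in (0 : ℝ)..(2 * Real.pi), (|h θ| - m) ^ 2 :=
    intervalIntegral.integral_nonneg (by positivity) fun θ _ => sq_nonneg _
  have e : ∀ θ : ℝ, (|h θ| - m) ^ 2 = h θ ^ 2 + (-(2 * m)) * |h θ| + m ^ 2 := by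
    intro θ
    rw [sub_sq, sq_abs]
    ring
  simp only [e] at h0
  rw [intervalIntegral.integral_add (ii _ (by fun_prop)) (ii _ (by fun_prop)),
    intervalIntegral.integral_add (ii _ (by fun_prop)) (ii _ (by fun_prop)),
    intervalIntegral.integral_const_mul, intervalIntegral.integral_const, ← hJ, hJm] at h0
  simp only [sub_zero, smul_eq_mul] at h0
  refine (le_abs_self J).trans (Real.abs_le_sqrt ?_)
  rw [hJm]
  nlinarith [h0, hpi]

theorem meas_sign : Measurable Real.sign := by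
  unfold Real.sign
  exact Measurable.ite measurableSet_Iio measurable_const
    (Measurable.ite measurableSet_Ioi measurable_const measurable_const)

theorem abs_sign (x : ℝ) : |Real.sign x| ≤ 1 := by
  rcases Real.sign_apply_eq x with h | h | h <;> rw [h] <;> norm_num

theorem sign_mul (x : ℝ) : Real.sign x * x = |x| := by
  rcases lt_trichotomy x 0 with h | h | h
  · rw [Real.sign_of_neg h, abs_of_neg h]; ring
  · rw [h]; simp
  · rw [Real.sign_of_pos h, abs_of_pos h]; ring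

theorem io (f : ℝ → ℝ) (a b : ℝ) (hf : IntervalIntegrable f volume a b) :
    IntervalIntegrable (fun t => (f t : ℂ)) volume a b := ⟨hf.1.ofReal, hf.2.ofReal⟩

theorem ec_eq (ε : ℝ → ℝ) (hε : IntervalIntegrable ε volume 0 (2 * Real.pi)) (k : ℕ) :
    ec ε k = (((1 / Real.pi) * ∫ t in (0 : ℝ)..(2 * Real.pi), ε t * Real.cos (k * t) : ℝ) : ℂ) -
      Complex.I * (((1 / Real.pi) * ∫ t in (0 : ℝ)..(2 * Real.pi), ε t * Real.sin (k * t) : ℝ) : ℂ) := by
  unfold ec
  have e : ∀ t : ℝ, (ε t : ℂ) * Complex.exp (-(Complex.I * (k * t))) =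
      ((ε t * Real.cos (k * t) : ℝ) : ℂ) - Complex.I * ((ε t * Real.sin (k * t) : ℝ) : ℂ) := by
    intro t
    rw [show -(Complex.I * ((k : ℂ) * (t : ℂ))) = ((-(k * t) : ℝ) : ℂ) * Complex.I by
      push_cast; ring, Complex.exp_mul_I]
    rw [← Complex.ofReal_cos, ← Complex.ofReal_sin, Real.cos_neg, Real.sin_neg]
    push_cast
    ring
  have i1 : IntervalIntegrable (fun t => ε t * Real.cos (k * t)) volume 0 (2 * Real.pi) :=
    hε.mul_continuousOn (by fun_prop)
  have i2 : IntervalIntegrable (fun t => ε t * Real.sin (k * t)) volume 0 (2 * Real.pi) :=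
    hε.mul_continuousOn (by fun_prop)
  simp only [e]
  rw [intervalIntegral.integral_sub (io _ _ _ i1) ((io _ _ _ i2).const_mul _),
    intervalIntegral.integral_const_mul, intervalIntegral.integral_ofReal,
    intervalIntegral.integral_ofReal]
  push_cast
  ring

theorem PS_re (a b : ℕ → ℝ) (c : ℕ → ℂ) (hc : ∀ k, c k = (a k : ℂ) - Complex.I * (b k : ℂ)) (K : ℕ)
    (θ : ℝ) : (PS K c (Complex.exp (Complex.I * θ))).re = tp a b K θ := by
  unfold PS tp
  rw [Complex.re_sum]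
  refine Finset.sum_congr rfl fun k _ => ?_
  rw [hc, ← Complex.exp_nat_mul, show (k : ℂ) * (Complex.I * (θ : ℂ)) =
    Complex.I * ((k * θ : ℝ) : ℂ) by push_cast; ring, Complex.mul_re, exp_re, exp_im]
  simp

end L1T

theorem pL1T : S_L1T := by
  intro g hg K
  have hpi := Real.pi_pos
  set ε : ℝ → ℝ := fun t => Real.sign (g t) with hε
  have hm : Measurable ε := L1T.meas_sign.comp hg.measurable
  have hi : IntervalIntegrable ε volume 0 (2 * Real.pi) := by
    rw [intervalIntegrable_iff]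
    refine Measure.integrableOn_of_bounded (M := 1) ?_ hm.aestronglyMeasurable ?_
    · rw [Set.uIoc]; exact measure_Ioc_lt_top.ne
    · exact Eventually.of_forall fun t => L1T.abs_sign _
  have hgi := L1T.ii g hg
  set α : ℕ → ℝ := fun k => (1 / Real.pi) * ∫ t in (0 : ℝ)..(2 * Real.pi), ε t * Real.cos (k * t)
  set β : ℕ → ℝ := fun k => (1 / Real.pi) * ∫ t in (0 : ℝ)..(2 * Real.pi), ε t * Real.sin (k * t)
  set A : ℕ → ℝ := fun k => (1 / Real.pi) * ∫ t in (0 : ℝ)..(2 * Real.pi), g t * Real.cos (k * t)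
  set B : ℕ → ℝ := fun k => (1 / Real.pi) * ∫ t in (0 : ℝ)..(2 * Real.pi), g t * Real.sin (k * t)
  have hα : ∀ k : ℕ, (∫ t in (0 : ℝ)..(2 * Real.pi), ε t * Real.cos (k * t)) = Real.pi * α k := by
    intro k; simp only [α]; field_simp
  have hβ : ∀ k : ℕ, (∫ t in (0 : ℝ)..(2 * Real.pi), ε t * Real.sin (k * t)) = Real.pi * β k := by
    intro k; simp only [β]; field_simp
  have hA : ∀ k : ℕ, (∫ t in (0 : ℝ)..(2 * Real.pi), g t * Real.cos (k * t)) = Real.pi * A k := by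
    intro k; simp only [A]; field_simp
  have hB : ∀ k : ℕ, (∫ t in (0 : ℝ)..(2 * Real.pi), g t * Real.sin (k * t)) = Real.pi * B k := by
    intro k; simp only [B]; field_simp
  have hPS : ∀ θ : ℝ, (PS K (ec ε) (Complex.exp (Complex.I * θ))).re = L1T.tp α β K θ :=
    fun θ => L1T.PS_re α β _ (fun k => L1T.ec_eq ε hi k) K θ
  simp only [hPS]
  have h1 : ∫ θ in (0 : ℝ)..(2 * Real.pi), g θ * L1T.tp α β K θ =
      Real.pi * ∑ k ∈ Finset.Icc 2 K, (α k * A k + β k * B k) := by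
    rw [L1T.lin g hgi, Finset.mul_sum]
    exact Finset.sum_congr rfl fun k _ => by rw [hA, hB]; ring
  have h2 : ∫ θ in (0 : ℝ)..(2 * Real.pi), ε θ * L1T.tp A B K θ =
      Real.pi * ∑ k ∈ Finset.Icc 2 K, (α k * A k + β k * B k) := by
    rw [L1T.lin ε hi, Finset.mul_sum]
    exact Finset.sum_congr rfl fun k _ => by rw [hα, hβ]; ring
  have h3 : ∫ θ in (0 : ℝ)..(2 * Real.pi), g θ * L1T.tp A B K θ =
      Real.pi * ∑ k ∈ Finset.Icc 2 K, (A k ^ 2 + B k ^ 2) := by
    rw [L1T.lin g hgi, Finset.mul_sum]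
    exact Finset.sum_congr rfl fun k _ => by rw [hA, hB]; ring
  have hS := L1T.tp_cont A B K
  have h4 : ∫ θ in (0 : ℝ)..(2 * Real.pi), L1T.tp A B K θ * L1T.tp A B K θ =
      Real.pi * ∑ k ∈ Finset.Icc 2 K, (A k ^ 2 + B k ^ 2) := by
    rw [L1T.lin _ (L1T.ii _ hS), Finset.mul_sum]
    exact Finset.sum_congr rfl fun k hk => by rw [L1T.tp_cos _ _ _ _ hk, L1T.tp_sin _ _ _ _ hk]; ring
  have hQ : (∫ θ in (0 : ℝ)..(2 * Real.pi), (g θ - L1T.tp A B K θ) ^ 2) =
      (∫ θ in (0 : ℝ)..(2 * Real.pi), g θ ^ 2) -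
          (1 / Real.pi) * ∑ k ∈ Finset.Icc 2 K, (cf g k 1 ^ 2 + cf g k (-Complex.I) ^ 2) := by
    have e : ∀ θ : ℝ, (g θ - L1T.tp A B K θ) ^ 2 = g θ ^ 2 + (-2) * (g θ * L1T.tp A B K θ) +
        L1T.tp A B K θ * L1T.tp A B K θ := fun θ => by ring
    simp only [e]
    rw [intervalIntegral.integral_add (L1T.ii _ (by fun_prop)) (L1T.ii _ (by fun_prop)),
      intervalIntegral.integral_add (L1T.ii _ (by fun_prop)) (L1T.ii _ (by fun_prop)),
      intervalIntegral.integral_const_mul, h3, h4]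
    have e3 : ∑ k ∈ Finset.Icc 2 K, (cf g k 1 ^ 2 + cf g k (-Complex.I) ^ 2) =
        Real.pi ^ 2 * ∑ k ∈ Finset.Icc 2 K, (A k ^ 2 + B k ^ 2) := by
      rw [Finset.mul_sum]
      exact Finset.sum_congr rfl fun k _ => by rw [L1T.cf1, L1T.cf2, hA, hB]; ring
    rw [e3]
    field_simp
    ring
  rw [← hQ, h1, ← h2]
  have i1 : IntervalIntegrable (fun θ => ε θ * L1T.tp A B K θ) volume 0 (2 * Real.pi) :=
    hi.mul_continuousOn hS.continuousOn
  have i2 : IntervalIntegrable (fun θ => ε θ * (g θ - L1T.tp A B K θ)) volume 0 (2 * Real.pi) :=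
    hi.mul_continuousOn (hg.sub hS).continuousOn
  have h5 : ∫ θ in (0 : ℝ)..(2 * Real.pi), |g θ| =
      (∫ θ in (0 : ℝ)..(2 * Real.pi), ε θ * L1T.tp A B K θ) +
        ∫ θ in (0 : ℝ)..(2 * Real.pi), ε θ * (g θ - L1T.tp A B K θ) := by
    rw [← intervalIntegral.integral_add i1 i2]
    congr 1
    funext θ
    rw [← mul_add, add_sub_cancel, L1T.sign_mul]
  have h6 : ∫ θ in (0 : ℝ)..(2 * Real.pi), ε θ * (g θ - L1T.tp A B K θ) ≤
      ∫ θ in (0 : ℝ)..(2 * Real.pi), |g θ - L1T.tp A B K θ| := by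
    refine intervalIntegral.integral_mono_on (by positivity) i2
      (L1T.ii _ (hg.sub hS).abs) fun θ _ => ?_
    refine (le_abs_self _).trans ?_
    rw [abs_mul]
    exact mul_le_of_le_one_left (abs_nonneg _) (L1T.abs_sign _)
  rw [h5]
  exact add_le_add (le_abs_self _) (h6.trans (L1T.cs _ (hg.sub hS)))

end Pool.Agent.T2H01.QI
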