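import Pool.Agent.T2H01.QI.Stm3

set_option autoImplicit false

noncomputable section

open MeasureTheory Metric Set Filter Topology

namespace Pool.Agent.T2H01.QI

theorem pOPT2b : S_OPT2 := by
  intro q C₀ C₂ hq1 hq2 h0 h2
  have t1 : Tendsto (fun δ : ℝ => δ ^ (q - 1 / 2)) (𝓝[>] 0) (𝓝 0) := by
    have h : ContinuousAt (fun δ : ℝ => δ ^ (q - 1 / 2)) 0 :=
      Real.continuousAt_rpow_const 0 _ (Or.inr (by linarith))
    have h' := h.tendsto
    rw [Real.zero_rpow (by linarith)] at h'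
    exact h'.mono_left nhdsWithin_le_nhds
  have t2 : Tendsto (fun δ : ℝ => δ ^ (1 - q)) (𝓝[>] 0) (𝓝 0) := by
    have h : ContinuousAt (fun δ : ℝ => δ ^ (1 - q)) 0 :=
      Real.continuousAt_rpow_const 0 _ (Or.inr (by linarith))
    have h' := h.tendsto
    rw [Real.zero_rpow (by linarith)] at h'
    exact h'.mono_left nhdsWithin_le_nhds
  have t3 : Tendsto (fun δ : ℝ => Real.log δ * δ ^ (1 - q)) (𝓝[>] 0) (𝓝 0) :=
    tendsto_log_mul_rpow_nhdsGT_zero (by linarith)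
  have t4 : Tendsto (fun δ : ℝ => (1 + (-(q - 1 / 2)) * Real.log δ) * δ ^ (1 - q)) (𝓝[>] 0) (𝓝 0) := by
    have := t2.add (t3.const_mul (-(q - 1 / 2)))
    simp only [mul_zero, add_zero] at this
    refine this.congr fun δ => ?_
    ring
  have ev : ∀ᶠ δ : ℝ in 𝓝[>] 0, δ ^ (q - 1 / 2) < 1 / 4 ∧ δ ^ (1 - q) < 1 / C₂ ∧
      (1 + (-(q - 1 / 2)) * Real.log δ) * δ ^ (1 - q) < min 1 (1 / (2 * C₀)) := by
    refine (t1.eventually_lt_const (by norm_num)).and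
      ((t2.eventually_lt_const (by positivity)).and (t4.eventually_lt_const ?_))
    exact lt_min one_pos (by positivity)
  obtain ⟨u, hu, hsub⟩ := mem_nhdsGT_iff_exists_Ioo_subset.1 ev
  have hu0 : (0 : ℝ) < u := hu
  refine ⟨u / 2, 6 * C₀, by positivity, by positivity, ?_⟩
  intro δ N hδ hδs hN hK
  obtain ⟨e1, e2, e3⟩ := hsub (⟨hδ, by linarith⟩ : δ ∈ Ioo 0 u)
  set κ : ℝ := δ ^ (-(q - 1 / 2)) with hκ
  have hκ0 : 0 < κ := Real.rpow_pos_of_pos hδ _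
  have hκinv : κ * δ ^ (q - 1 / 2) = 1 := by
    rw [hκ, ← Real.rpow_add hδ]; norm_num
  have hκ4 : 4 ≤ κ := by
    have h : κ * δ ^ (q - 1 / 2) ≤ κ * (1 / 4) := mul_le_mul_of_nonneg_left e1.le hκ0.le
    linarith
  have hκs : κ * Real.sqrt δ = δ ^ (1 - q) := by
    rw [hκ, Real.sqrt_eq_rpow, ← Real.rpow_add hδ]; congr 1; ring
  have hsκ : Real.sqrt δ / κ = δ ^ q := by
    rw [hκ, Real.sqrt_eq_rpow, ← Real.rpow_sub hδ]; congr 1; ring
  have hδq : δ = δ ^ (1 - q) * δ ^ q := by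
    rw [← Real.rpow_add hδ]; simp
  have hlogκ : Real.log κ = (-(q - 1 / 2)) * Real.log δ := by rw [hκ, Real.log_rpow hδ]
  have hK4 : 4 ≤ ⌊κ⌋₊ := Nat.le_floor (by exact_mod_cast hκ4)
  have hKle : ((⌊κ⌋₊ : ℕ) : ℝ) ≤ κ := Nat.floor_le hκ0.le
  have hKlt : κ < (⌊κ⌋₊ : ℕ) + 1 := Nat.lt_floor_add_one κ
  have hs0 : 0 < Real.sqrt δ := Real.sqrt_pos.2 hδ
  have h := hK ⌊κ⌋₊ hK4 (by
    have h5 : C₂ * (⌊κ⌋₊ : ℕ) * Real.sqrt δ ≤ C₂ * (κ * Real.sqrt δ) := by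
      rw [mul_assoc]
      exact mul_le_mul_of_nonneg_left (mul_le_mul_of_nonneg_right hKle hs0.le) h2.le
    refine h5.trans ?_
    rw [hκs]
    have h6 : C₂ * δ ^ (1 - q) ≤ C₂ * (1 / C₂) := mul_le_mul_of_nonneg_left e2.le h2.le
    refine h6.trans (le_of_eq ?_)
    field_simp)
  generalize ⌊κ⌋₊ = K at h hK4 hKle hKlt
  have hK4' : (4 : ℝ) ≤ K := by exact_mod_cast hK4
  have hL0 : 0 ≤ 1 + Real.log K := by
    have := Real.log_nonneg (by linarith : (1 : ℝ) ≤ K)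
    linarith
  have hL : 1 + Real.log K ≤ 1 + (-(q - 1 / 2)) * Real.log δ := by
    have := Real.log_le_log (by linarith : (0 : ℝ) < K) hKle
    rw [hlogκ] at this
    linarith
  have hp0 : 0 ≤ δ ^ (1 - q) := (Real.rpow_pos_of_pos hδ _).le
  have hq0 : 0 < δ ^ q := Real.rpow_pos_of_pos hδ _
  have hA : (1 + Real.log K) * δ ^ (1 - q) ≤ min 1 (1 / (2 * C₀)) :=
    (mul_le_mul_of_nonneg_right hL hp0).trans e3.le
  have hA1 : (1 + Real.log K) * δ ≤ δ ^ q := by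
    calc (1 + Real.log K) * δ = (1 + Real.log K) * δ ^ (1 - q) * δ ^ q := by
          rw [mul_assoc, ← hδq]
      _ ≤ 1 * δ ^ q := mul_le_mul_of_nonneg_right (hA.trans (min_le_left _ _)) hq0.le
      _ = δ ^ q := one_mul _
  have hA2 : C₀ * ((1 + Real.log K) * (K * Real.sqrt δ)) ≤ 1 / 2 := by
    have h7 : (1 + Real.log K) * (K * Real.sqrt δ) ≤ (1 + Real.log K) * δ ^ (1 - q) := by
      refine mul_le_mul_of_nonneg_left ?_ hL0
      rw [← hκs]
      exact mul_le_mul_of_nonneg_right hKle hs0.le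
    have h8 := h7.trans (hA.trans (min_le_right _ _))
    calc C₀ * ((1 + Real.log K) * (K * Real.sqrt δ)) ≤ C₀ * (1 / (2 * C₀)) :=
          mul_le_mul_of_nonneg_left h8 h0.le
      _ = 1 / 2 := by field_simp
  have hA3 : Real.sqrt δ / K ≤ 2 * δ ^ q := by
    rw [← hsκ, ← mul_div_assoc, div_le_div_iff₀ (by linarith) hκ0]
    have : κ ≤ 2 * K := by linarith
    nlinarith
  have hfin : N ≤ C₀ * δ ^ q + 1 / 2 * N + C₀ * (2 * δ ^ q) := by
    calc N ≤ C₀ * ((1 + Real.log K) * (δ + K * Real.sqrt δ * N) + Real.sqrt δ / K) := h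
      _ = C₀ * ((1 + Real.log K) * δ) + C₀ * ((1 + Real.log K) * (K * Real.sqrt δ)) * N +
          C₀ * (Real.sqrt δ / K) := by ring
      _ ≤ C₀ * δ ^ q + 1 / 2 * N + C₀ * (2 * δ ^ q) := by
          refine add_le_add (add_le_add (mul_le_mul_of_nonneg_left hA1 h0.le)
            (mul_le_mul_of_nonneg_right hA2 hN)) (mul_le_mul_of_nonneg_left hA3 h0.le)
  linarith

end Pool.Agent.T2H01.QI
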