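import Pool.Agent.T2H01.QI.Stm3
import Pool.Agent.T2H01.QI.HARM

set_option autoImplicit false

noncomputable section

open MeasureTheory Metric Set Filter Topology
open scoped NNReal ENNReal

namespace Pool.Agent.T2H01.QI

theorem pSUPF (hTST : S_TST) : S_SUPF := by
  intro K c B hK hPB a r b hr hb0 hbr x hx
  have hK2 : (2 : ℝ) ≤ K := by exact_mod_cast hK
  have hK0 : (0 : ℝ) < K := by linarith
  obtain ⟨z, hz⟩ : ∃ z : ℂ, z = (zc x - zc a) / r := ⟨_, rfl⟩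
  obtain ⟨s, hs⟩ : ∃ s : ℝ, s = ‖x - a‖ / r := ⟨_, rfl⟩
  have hs0 : 0 ≤ s := by rw [hs]; positivity
  have hzs : ‖z‖ = s := by
    rw [hz, hs, norm_div, HARM.zc_sub, HARM.norm_zc, Complex.norm_real, Real.norm_of_nonneg hr.le]
  have hs1 : s ≤ 1 + 1 / K := by
    rw [hs, div_le_iff₀ hr]
    linarith
  have hKi : 1 / (K : ℝ) ≤ 1 / 2 := one_div_le_one_div_of_le (by norm_num) hK2
  have hs2 : s ≤ 3 / 2 := by linarith
  obtain ⟨hP0, hP1, -⟩ := hPB z (by rw [hzs]; exact hs1)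
  have hB0 : 0 ≤ B := (norm_nonneg _).trans hP0
  have hdiv := (hTST K c a r hr).2.2.2.2.2 x
  rw [← hz] at hdiv
  have hsq : ‖x - a‖ ^ 2 / r ^ 2 = s ^ 2 := by rw [hs, div_pow]
  obtain ⟨u, hu⟩ : ∃ u : ℝ, u = (z * P1 K c z).re := ⟨_, rfl⟩
  obtain ⟨v, hv⟩ : ∃ v : ℝ, v = (P0 K c z).re := ⟨_, rfl⟩
  have hub : |u| ≤ 3 / 2 * B := by
    rw [hu]
    refine (Complex.abs_re_le_norm _).trans ?_
    rw [norm_mul, hzs]
    exact mul_le_mul hs2 hP1 (norm_nonneg _) (by norm_num)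
  have hvb : |v| ≤ B := by
    rw [hv]
    exact (Complex.abs_re_le_norm _).trans hP0
  have hq : b / r ≤ 1 := (div_le_one hr).2 hbr
  have hq0 : 0 ≤ b / r := by positivity
  have hFF : FF K c a r b x =
      (b / r) * ((3 - s ^ 2) / 2 * u + (3 - 2 * s ^ 2) * v) - v := by
    unfold FF
    have hph : ph K c a r x = v := by
      rw [hv, hz]
      rfl
    have h2 : 2 * ‖x - a‖ ^ 2 / r ^ 2 = 2 * s ^ 2 := by rw [← hsq]; ring
    rw [hdiv, hph, ← hu, ← hv, hsq, h2]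
    field_simp
  rw [hFF]
  have h1 : |(3 - s ^ 2) / 2 * u| ≤ 9 / 4 * B := by
    rw [abs_mul]
    have h3 : |(3 - s ^ 2) / 2| ≤ 3 / 2 := by
      rw [abs_le]
      constructor <;> nlinarith
    calc |(3 - s ^ 2) / 2| * |u| ≤ 3 / 2 * (3 / 2 * B) :=
          mul_le_mul h3 hub (abs_nonneg _) (by norm_num)
      _ = 9 / 4 * B := by ring
  have h2 : |(3 - 2 * s ^ 2) * v| ≤ 3 * B := by
    rw [abs_mul]
    have h3 : |3 - 2 * s ^ 2| ≤ 3 := by
      rw [abs_le]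
      constructor <;> nlinarith
    exact mul_le_mul h3 hvb (abs_nonneg _) (by norm_num)
  have h4 : |(b / r) * ((3 - s ^ 2) / 2 * u + (3 - 2 * s ^ 2) * v)| ≤ 21 / 4 * B := by
    rw [abs_mul, abs_of_nonneg hq0]
    have h5 : |(3 - s ^ 2) / 2 * u + (3 - 2 * s ^ 2) * v| ≤ 21 / 4 * B := by
      refine (abs_add_le _ _).trans ?_
      linarith
    calc b / r * |(3 - s ^ 2) / 2 * u + (3 - 2 * s ^ 2) * v| ≤ 1 * (21 / 4 * B) :=
          mul_le_mul hq h5 (abs_nonneg _) (by norm_num)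
      _ = _ := one_mul _
  refine (abs_sub _ _).trans ?_
  linarith

end Pool.Agent.T2H01.QI
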