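import Pool.Agent.T2H01.QI.Stm3
import Pool.Agent.T2H01.QI.HARM

/-! Package TST of the project QI (helper1), by helper57. -/

set_option autoImplicit false

noncomputable section

open MeasureTheory Metric Set Filter Topology
open scoped NNReal ENNReal

namespace Pool.Agent.T2H01.QI

namespace TST

theorem hasP0 (K : ℕ) (c : ℕ → ℂ) (z : ℂ) : HasDerivAt (P0 K c) (P1 K c z) z := by
  have h : HasDerivAt (fun z => ∑ k ∈ Finset.Icc 2 K, c k * (1 / ((k : ℂ) - 1)) * z ^ k)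
      (∑ k ∈ Finset.Icc 2 K, c k * (1 / ((k : ℂ) - 1)) * (k * z ^ (k - 1))) z := by
    apply HasDerivAt.fun_sum
    intro k _
    exact (hasDerivAt_pow k z).const_mul _
  have e : ∑ k ∈ Finset.Icc 2 K, c k * (1 / ((k : ℂ) - 1)) * (k * z ^ (k - 1)) = P1 K c z := by
    unfold P1
    refine Finset.sum_congr rfl fun k _ => ?_
    ring
  rw [e] at h
  exact h

theorem hasP1 (K : ℕ) (c : ℕ → ℂ) (z : ℂ) : HasDerivAt (P1 K c) (P2 K c z) z := by
  have h : HasDerivAt (fun z => ∑ k ∈ Finset.Icc 2 K, c k * ((k : ℂ) / ((k : ℂ) - 1)) * z ^ (k - 1))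
      (∑ k ∈ Finset.Icc 2 K, c k * ((k : ℂ) / ((k : ℂ) - 1)) * ((k - 1 : ℕ) * z ^ (k - 1 - 1))) z := by
    apply HasDerivAt.fun_sum
    intro k _
    exact (hasDerivAt_pow (k - 1) z).const_mul _
  have e : ∑ k ∈ Finset.Icc 2 K, c k * ((k : ℂ) / ((k : ℂ) - 1)) * ((k - 1 : ℕ) * z ^ (k - 1 - 1)) =
      P2 K c z := by
    unfold P2
    refine Finset.sum_congr rfl fun k hk => ?_
    have h2 : 2 ≤ k := (Finset.mem_Icc.1 hk).1
    have h3 : ((k - 1 : ℕ) : ℂ) = (k : ℂ) - 1 := by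
      rw [Nat.cast_sub (by omega)]
      simp
    have h4 : (k : ℂ) - 1 ≠ 0 := by
      rw [← h3]
      exact_mod_cast (by omega : k - 1 ≠ 0)
    rw [h3, Nat.sub_sub]
    field_simp
  rw [e] at h
  exact h

theorem hasC (f : ℂ → ℂ) (f' : ℂ) (a x : E2) (r : ℝ) (h : HasDerivAt f f' ((zc x - zc a) / r)) :
    ∃ L : E2 →L[ℝ] ℝ, HasFDerivAt (fun y => (f ((zc y - zc a) / r)).re) L x ∧
      ∀ v, L v = (f' * (zc v / r)).re := by
  have h0 : HasFDerivAt (fun y : E2 => (zc y - zc a) / (r : ℂ)) (((r : ℂ)⁻¹) • HARM.zl) x := by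
    simp only [HARM.zc_eq]
    have h1 := (HARM.zl.hasFDerivAt (x := x)).sub_const (HARM.zl a)
    have h2 := h1.const_mul ((r : ℂ)⁻¹)
    have e : (fun y : E2 => (HARM.zl y - HARM.zl a) / (r : ℂ)) =
        fun y => (r : ℂ)⁻¹ * (HARM.zl y - HARM.zl a) := by
      funext y
      rw [div_eq_inv_mul]
    rw [e]
    exact h2
  have h1 := (h.hasFDerivAt.restrictScalars ℝ).comp x h0
  have h2 := Complex.reCLM.hasFDerivAt.comp x h1
  refine ⟨_, h2, fun v => ?_⟩
  simp only [ContinuousLinearMap.comp_apply, _root_.smul_apply,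
    ContinuousLinearMap.coe_restrictScalars', Complex.reCLM_apply, smul_eq_mul,
    ← HARM.zc_eq]
  simp
  ring

theorem cont0 (K : ℕ) (c : ℕ → ℂ) : ContDiff ℝ (⊤ : ℕ∞) (P0 K c) := by
  unfold P0
  exact ContDiff.sum fun k _ => contDiff_const.mul (contDiff_id.pow k)

theorem cont1 (K : ℕ) (c : ℕ → ℂ) : ContDiff ℝ (⊤ : ℕ∞) (P1 K c) := by
  unfold P1
  exact ContDiff.sum fun k _ => contDiff_const.mul (contDiff_id.pow (k - 1))

theorem contw (a : E2) (r : ℝ) : ContDiff ℝ (⊤ : ℕ∞) (fun y : E2 => (zc y - zc a) / (r : ℂ)) := by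
  simp only [HARM.zc_eq]
  exact (HARM.zl.contDiff.sub contDiff_const).div_const _

theorem contP (K : ℕ) (c : ℕ → ℂ) (a : E2) (r : ℝ) : ContDiff ℝ (⊤ : ℕ∞) (ph K c a r) := by
  have h2 : ContDiff ℝ (⊤ : ℕ∞) (fun z : ℂ => Complex.reCLM z) := Complex.reCLM.contDiff
  exact h2.comp ((cont0 K c).comp (contw a r))

theorem contG (K : ℕ) (c : ℕ → ℂ) (a : E2) (r : ℝ) : ContDiff ℝ (⊤ : ℕ∞) (gh K c a r) := by
  have h2 : ContDiff ℝ (⊤ : ℕ∞) (fun z : ℂ => Complex.reCLM z) := Complex.reCLM.contDiff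
  have h3 := (cont1 K c).comp (contw a r)
  refine contDiff_euclidean.2 fun i => ?_
  fin_cases i
  · exact h2.comp (h3.div_const (r : ℂ))
  · exact h2.comp ((contDiff_const.mul h3).div_const (r : ℂ))

theorem fderiv_comp (G : E2 → E2) (x v : E2) (i : Fin 2) (hd : DifferentiableAt ℝ G x) :
    fderiv ℝ G x v i = fderiv ℝ (fun y => G y i) x v := by
  have h1 := ((EuclideanSpace.proj i : E2 →L[ℝ] ℝ).hasFDerivAt.comp x hd.hasFDerivAt).fderiv
  have h2 : fderiv ℝ (fun y => G y i) x =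
      (EuclideanSpace.proj i : E2 →L[ℝ] ℝ).comp (fderiv ℝ G x) := h1
  rw [h2]
  rfl

theorem grad (K : ℕ) (c : ℕ → ℂ) (a : E2) (r : ℝ) (x v : E2) :
    inner ℝ (gh K c a r x) v = (P1 K c ((zc x - zc a) / r) * (zc v / r)).re := by
  rw [PiLp.inner_apply, Fin.sum_univ_two]
  obtain ⟨w, hw⟩ : ∃ w : ℂ, w = P1 K c ((zc x - zc a) / r) / r := ⟨_, rfl⟩
  have e0 : gh K c a r x 0 = w.re := by rw [hw]; rfl
  have e1 : gh K c a r x 1 = (Complex.I * w).re := by
    rw [hw, ← mul_div_assoc]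
    rfl
  have e2 : P1 K c ((zc x - zc a) / r) * (zc v / r) = w * zc v := by rw [hw]; ring
  rw [e0, e1, e2]
  simp [zc]
  ring

end TST

open TST in
theorem pTST (hHARM : S_HARM) (hDIVX : S_DIVX) : S_TST := by
  intro K c a r hr
  have hgr : ∀ x v, fderiv ℝ (ph K c a r) x v = inner ℝ (gh K c a r x) v := by
    intro x v
    obtain ⟨L, hL, hv⟩ := hasC (P0 K c) _ a x r (hasP0 K c _)
    have h0 : fderiv ℝ (ph K c a r) x = L := hL.fderiv
    rw [h0, hv, grad]
  refine ⟨contP K c a r, contG K c a r, hgr, fun x => ?_, fun x => ?_, fun x => ?_⟩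
  · unfold divg
    have hd : DifferentiableAt ℝ (gh K c a r) x := (contG K c a r).differentiable (by simp) x
    rw [Fin.sum_univ_two, fderiv_comp _ _ _ _ hd, fderiv_comp _ _ _ _ hd]
    obtain ⟨L0, hL0, hv0⟩ := hasC (fun z => P1 K c z / r) _ a x r ((hasP1 K c _).div_const (r : ℂ))
    obtain ⟨L1, hL1, hv1⟩ := hasC (fun z => Complex.I * P1 K c z / r) _ a x r
      (((hasP1 K c _).const_mul Complex.I).div_const (r : ℂ))
    have h0 : fderiv ℝ (fun y => gh K c a r y 0) x = L0 := hL0.fderiv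
    have h1 : fderiv ℝ (fun y => gh K c a r y 1) x = L1 := hL1.fderiv
    rw [h0, h1, hv0, hv1, HARM.zc_e0, HARM.zc_e1, ← Complex.add_re]
    have h2 : ∀ w s : ℂ, w / s * (1 / s) + Complex.I * w / s * (Complex.I / s) = 0 := by
      intro w s
      have : Complex.I * w / s * (Complex.I / s) = (Complex.I * Complex.I) * (w / s * (1 / s)) := by
        ring
      rw [this, Complex.I_mul_I]
      ring
    rw [h2]
    rfl
  · obtain ⟨w, hw⟩ : ∃ w : ℂ, w = P1 K c ((zc x - zc a) / r) / r := ⟨_, rfl⟩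
    have e0 : gh K c a r x 0 = w.re := by rw [hw]; rfl
    have e1 : gh K c a r x 1 = (Complex.I * w).re := by
      rw [hw, ← mul_div_assoc]
      rfl
    have h1 : ‖gh K c a r x‖ = ‖w‖ := by
      rw [EuclideanSpace.norm_eq, Complex.norm_eq_sqrt_sq_add_sq, Fin.sum_univ_two, e0, e1]
      simp
    rw [h1, hw, norm_div, Complex.norm_real, Real.norm_of_nonneg hr.le]
  · have dφ : HasFDerivAt (ph K c a r) (fderiv ℝ (ph K c a r) x) x :=
      ((contP K c a r).differentiable (by simp) x).hasFDerivAt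
    obtain ⟨L, ds, hL⟩ : ∃ L : E2 →L[ℝ] ℝ,
        HasFDerivAt (fun y : E2 => (3 - ‖y - a‖ ^ 2 / r ^ 2) / (2 * r)) L x ∧
        ∀ v, L v = -(2 * inner ℝ (x - a) v * (r ^ 2)⁻¹) * (2 * r)⁻¹ := by
      have ds : HasFDerivAt (fun y : E2 => (3 - ‖y - a‖ ^ 2 / r ^ 2) / (2 * r)) _ x :=
        (((((hasFDerivAt_id x).sub_const a).norm_sq).mul_const ((r ^ 2)⁻¹)).const_sub 3).mul_const
          ((2 * r)⁻¹)
      refine ⟨_, ds, fun v => ?_⟩
      simp
      rw [inner_sub_left]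
      ring
    have dall := (dφ.mul ds).smul ((hasFDerivAt_id x).sub_const a)
    have hfun : (fun y => ph K c a r y • Xf a r y) =
        fun y => (ph K c a r y * ((3 - ‖y - a‖ ^ 2 / r ^ 2) / (2 * r))) • (id y - a) := by
      funext y
      rw [Xf, smul_smul]
      rfl
    have hG0 : fderiv ℝ (ph K c a r) x (EuclideanSpace.single 0 1) = gh K c a r x 0 := by
      rw [hgr, EuclideanSpace.inner_single_right]
      simp
    have hG1 : fderiv ℝ (ph K c a r) x (EuclideanSpace.single 1 1) = gh K c a r x 1 := by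
      rw [hgr, EuclideanSpace.inner_single_right]
      simp
    have hL0 : L (EuclideanSpace.single 0 1) = -(2 * (x 0 - a 0) * (r ^ 2)⁻¹) * (2 * r)⁻¹ := by
      rw [hL, EuclideanSpace.inner_single_right]
      simp
    have hL1 : L (EuclideanSpace.single 1 1) = -(2 * (x 1 - a 1) * (r ^ 2)⁻¹) * (2 * r)⁻¹ := by
      rw [hL, EuclideanSpace.inner_single_right]
      simp
    obtain ⟨A, hA⟩ : ∃ A : ℝ, A = ((zc x - zc a) / r * P1 K c ((zc x - zc a) / r)).re := ⟨_, rfl⟩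
    have hin : gh K c a r x 0 * (x 0 - a 0) + gh K c a r x 1 * (x 1 - a 1) = A := by
      have h1 := grad K c a r x (x - a)
      rw [← HARM.zc_sub, mul_comm, ← hA] at h1
      rw [← h1, PiLp.inner_apply, Fin.sum_univ_two]
      simp
      ring
    have hB : (P0 K c ((zc x - zc a) / r)).re = ph K c a r x := rfl
    have hnorm : ‖x - a‖ ^ 2 = (x 0 - a 0) ^ 2 + (x 1 - a 1) ^ 2 := by
      rw [EuclideanSpace.real_norm_sq_eq, Fin.sum_univ_two]
      simp
    rw [divg, hfun, hB, ← hA]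
    have hF : HasFDerivAt (fun y => (ph K c a r y * ((3 - ‖y - a‖ ^ 2 / r ^ 2) / (2 * r))) •
        (id y - a)) _ x := dall
    rw [hF.fderiv, Fin.sum_univ_two]
    simp only [_root_.add_apply, _root_.smul_apply, Pi.mul_apply,
      ContinuousLinearMap.smulRight_apply, ContinuousLinearMap.id_apply, PiLp.add_apply,
      PiLp.smul_apply, smul_eq_mul, id, PiLp.sub_apply, hG0, hG1, hL0, hL1]
    rw [hnorm]
    have e0 : (EuclideanSpace.single (0 : Fin 2) (1 : ℝ)) 0 = 1 := by simp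
    have e1 : (EuclideanSpace.single (1 : Fin 2) (1 : ℝ)) 1 = 1 := by simp
    rw [e0, e1]
    have hr' : r ≠ 0 := hr.ne'
    field_simp
    linear_combination (3 * r ^ 2 - ((x 0 - a 0) ^ 2 + (x 1 - a 1) ^ 2)) * hin

end Pool.Agent.T2H01.QI
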