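import Pool.Agent.T2H01.QI.Asm
import Pool.Agent.T2H01.QI.KEY2
import Pool.Agent.T2H01.QI.BDY2
import Pool.Agent.T2H01.QI.TST
import Pool.Agent.T2H01.QI.INTS
import Pool.Agent.T2H01.QI.SUPF
import Pool.Agent.T2H01.QI.CMB2
import Pool.Agent.T2H01.QI.KER
import Pool.Agent.T2H01.QI.ABL
import Pool.Agent.T2H01.QI.L1T
import Pool.Agent.T2H01.QI.OPT2b
import Pool.Agent.T2H01.QI.ASY2
import Pool.Agent.T2H01.QI.CONN2
import Pool.Agent.T2H01.QI.ALL2b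

/-!
# Assembly of the project QI, part 3
-/

set_option autoImplicit false

namespace Pool.Agent.T2H01.QI.Asm

open Pool.Agent.T2H01.QI

theorem aKEY2 : S_KEY2 := pKEY2 aPERF aTR2
theorem aBDY2 : S_BDY2 := pBDY2 aDIVX
theorem aTST : S_TST := pTST aHARM aDIVX
theorem aINTS : S_INTS := pINTS aPOL aTST
theorem aSUPF : S_SUPF := pSUPF aTST
theorem aCMB2 : S_CMB2 := pCMB2 aPERF aGE0 aGE1 aGE2 aDM aSO aMO aKEY aKEY2 aBDY2 aTST aINTS aSUPF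
theorem aKER : S_KER := pKER
theorem aABL : S_ABL := pABL aKER
theorem aL1T : S_L1T := pL1T
theorem aOPT2 : S_OPT2 := pOPT2b
theorem aASY2 : S_ASY2 := pASY2 aGE0 aGE2 aPOL aSO aDM
theorem aCONN2 : S_CONN2 := pCONN2 aPERF aGE0 aGE1 aGE2 aDM aKEY aCMB2 aABL aL1T aOPT2 aASY2
theorem aALL2 : S_ALL2 := pALL2b aPOS aFLX aRES aCMP aBIG aCONN2 aSHP

end Pool.Agent.T2H01.QI.Asm
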