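import Mathlib

/-!
# Definitions for the project QI (MP_832dec_an)

The plane is `E2 = EuclideanSpace ℝ (Fin 2)`, the length of the boundary is the Hausdorff measure
`μH[1]` of the frontier.
-/

set_option autoImplicit false

noncomputable section

open MeasureTheory Metric Set Filter Topology
open scoped NNReal ENNReal

namespace Pool.Agent.T2H01.QI

/-- The plane. -/
abbrev E2 : Type := EuclideanSpace ℝ (Fin 2)

/-- `Chart Ω x e r f`: in the ball `ball x r` the set `Ω` is the part below the graph of `f` in the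
Cartesian coordinates given by the rigid motion `e`. -/
def Chart (Ω : Set E2) (x : E2) (e : E2 ≃ᵃⁱ[ℝ] E2) (r : ℝ) (f : ℝ → ℝ) : Prop :=
  0 < r ∧ (∃ K : ℝ≥0, LipschitzWith K f) ∧
    ∀ y : E2, dist y x < r → (y ∈ Ω ↔ (e y) 1 < f ((e y) 0))

/-- Bounded open sets with Lipschitz boundary: locally the part below the graph of a Lipschitz
function, in suitable Cartesian coordinates. -/
def IsLip (Ω : Set E2) : Prop :=
  IsOpen Ω ∧ Bornology.IsBounded Ω ∧
    ∀ x ∈ frontier Ω, ∃ (e : E2 ≃ᵃⁱ[ℝ] E2) (r : ℝ) (f : ℝ → ℝ), Chart Ω x e r f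

/-- The length of the boundary. -/
def per (Ω : Set E2) : ℝ≥0∞ := μH[1] (frontier Ω)

/-- The radius of the discs of area `|Ω|`. -/
def rad (Ω : Set E2) : ℝ := Real.sqrt (volume.real Ω / Real.pi)

/-- The Fraenkel asymmetry. -/
def asym (Ω : Set E2) : ℝ :=
  ⨅ x : E2, volume.real (symmDiff Ω (ball x (rad Ω))) / volume.real (ball x (rad Ω))

/-- `u` belongs to the Sobolev space `H¹(Ω)`, with weak gradient `G`. -/
def IsH1 (Ω : Set E2) (u : E2 → ℝ) (G : E2 → E2) : Prop :=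
  MemLp u 2 (volume.restrict Ω) ∧ MemLp G 2 (volume.restrict Ω) ∧
    ∀ ψ : E2 → ℝ, ContDiff ℝ (⊤ : ℕ∞) ψ → HasCompactSupport ψ → tsupport ψ ⊆ Ω → ∀ i : Fin 2,
      ∫ x in Ω, u x * fderiv ℝ ψ x (EuclideanSpace.single i 1) = -∫ x in Ω, G x i * ψ x

/-- `g` is the trace of `u` on the boundary: `g` is square integrable for the length and, at almost
every boundary point `x`, `g x` is the limit of `u` in the mean over `ball x r ∩ Ω` as `r → 0`. -/
def IsTrace (Ω : Set E2) (u g : E2 → ℝ) : Prop :=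
  MemLp g 2 (μH[1].restrict (frontier Ω)) ∧
    ∀ᵐ x ∂(μH[1].restrict (frontier Ω) : Measure E2),
      Tendsto (fun r : ℝ => ⨍ y in ball x r ∩ Ω, |u y - g x|) (𝓝[>] 0) (𝓝 0)

/-- `u` is the weak solution of `-Δu = 1` in `Ω`, `∂u/∂ν + β u = 0` on the boundary. -/
def IsSol (Ω : Set E2) (β : ℝ) (u : E2 → ℝ) : Prop :=
  ∃ (G : E2 → E2) (g : E2 → ℝ), IsH1 Ω u G ∧ IsTrace Ω u g ∧
    ∀ (φ : E2 → ℝ) (Φ : E2 → E2) (γ : E2 → ℝ), IsH1 Ω φ Φ → IsTrace Ω φ γ →
      (∫ x in Ω, inner ℝ (G x) (Φ x)) + β * (∫ x in frontier Ω, g x * γ x ∂μH[1]) = ∫ x in Ω, φ x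

/-- The solution on the disc of radius `R` centred at the origin. -/
def vsol (β R : ℝ) (x : E2) : ℝ := (R ^ 2 - ‖x‖ ^ 2) / 4 + R / (2 * β)

/-- The Schwarz rearrangement of `u : Ω → ℝ`. -/
def usharp (Ω : Set E2) (u : E2 → ℝ) (x : E2) : ℝ :=
  sSup {t : ℝ | 0 ≤ t ∧ Real.pi * ‖x‖ ^ 2 < volume.real {y ∈ Ω | t < |u y|}}

end Pool.Agent.T2H01.QI
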