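import Pool.Agent.T2H01.QI.Defs

/-!
# The Robin problem: normal, trace and solution
-/

set_option autoImplicit false

noncomputable section

open MeasureTheory Metric Set Filter Topology
open scoped NNReal ENNReal

namespace Pool.Agent.T2H01.QI

/-- The divergence of a vector field. -/
def dvg (φ : E2 → E2) (x : E2) : ℝ := ∑ i : Fin 2, fderiv ℝ φ x (EuclideanSpace.single i 1) i

/-- `ν` is the outer unit normal of the boundary: the unit field with the divergence theorem. -/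
def IsNormal (Ω : Set E2) (ν : E2 → E2) : Prop :=
  AEStronglyMeasurable ν (μH[1].restrict (frontier Ω)) ∧
    (∀ᵐ x ∂(μH[1].restrict (frontier Ω) : Measure E2), ‖ν x‖ = 1) ∧
    ∀ X : E2 → E2, ContDiff ℝ (⊤ : ℕ∞) X →
      ∫ x in Ω, dvg X x = ∫ x in frontier Ω, inner ℝ (X x) (ν x) ∂μH[1]

/-- Green's formula for `u ∈ H¹(Ω)` with gradient `G` and trace `g`. -/
def Green (Ω : Set E2) (u : E2 → ℝ) (G : E2 → E2) (g : E2 → ℝ) (ν : E2 → E2) : Prop :=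
  ∀ X : E2 → E2, ContDiff ℝ (⊤ : ℕ∞) X →
    (∫ x in Ω, u x * dvg X x) + (∫ x in Ω, inner ℝ (G x) (X x)) =
      ∫ x in frontier Ω, g x * inner ℝ (X x) (ν x) ∂μH[1]

/-- `u` is the weak solution of `-Δu = 1` in `Ω`, `∂u/∂ν + β u = 0` on the boundary. -/
def IsRobin (Ω : Set E2) (β : ℝ) (u : E2 → ℝ) : Prop :=
  ∃ (G : E2 → E2) (g : E2 → ℝ) (ν : E2 → E2), IsNormal Ω ν ∧ IsH1 Ω u G ∧ IsTrace Ω u g ∧
    Green Ω u G g ν ∧
    ∀ (φ : E2 → ℝ) (Φ : E2 → E2) (γ : E2 → ℝ), IsH1 Ω φ Φ → IsTrace Ω φ γ →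
      (∫ x in Ω, inner ℝ (G x) (Φ x)) + β * (∫ x in frontier Ω, g x * γ x ∂μH[1]) = ∫ x in Ω, φ x

end Pool.Agent.T2H01.QI
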