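import Pool.Agent.T2H01.QI.Stm
import Pool.Agent.T2H01.QI.Rob

/-!
# Definitions for the second part of the project QI
-/

set_option autoImplicit false

noncomputable section

open MeasureTheory Metric Set Filter Topology
open scoped NNReal ENNReal

namespace Pool.Agent.T2H01.QI

/-- The two names of the divergence agree. -/
theorem divg_eq_dvg : divg = dvg := rfl

/-- The support function of `Ω` seen from `a`, as a function of the angle. -/
def hc (Ω : Set E2) (a : E2) (θ : ℝ) : ℝ := hs Ω (dir θ) - inner ℝ a (dir θ)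

/-- The mean of the support function. -/
def mr (Ω : Set E2) : ℝ := (∫ θ in (0 : ℝ)..(2 * Real.pi), hs Ω (dir θ)) / (2 * Real.pi)

/-- The centre (Steiner point). -/
def ctr (Ω : Set E2) : E2 :=
  (1 / Real.pi) • ∫ θ in (0 : ℝ)..(2 * Real.pi), hs Ω (dir θ) • dir θ

/-- The support function seen from the centre, minus its mean. -/
def gg (Ω : Set E2) (θ : ℝ) : ℝ := hc Ω (ctr Ω) θ - mr Ω

/-- Fourier coefficients. -/
def cf (g : ℝ → ℝ) (k : ℕ) (c : ℂ) : ℝ :=
  ∫ θ in (0 : ℝ)..(2 * Real.pi), g θ * (c * Complex.exp (Complex.I * (k * θ))).re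

/-- The square of the `L²` norm of `gg`. -/
def MM (Ω : Set E2) : ℝ := ∫ θ in (0 : ℝ)..(2 * Real.pi), gg Ω θ ^ 2

/-- The star shaped set with the radial function `ρ` around `a`. -/
def star (a : E2) (ρ : ℝ → ℝ) : Set E2 :=
  {x | ∃ s θ : ℝ, 0 ≤ s ∧ s ≤ ρ θ ∧ x = a + s • dir θ}

/-- The plane as complex numbers. -/
def zc (x : E2) : ℂ := ⟨x 0, x 1⟩

/-- The harmonic polynomial `Re (c (z - z_a)^k)`. -/
def hp (k : ℕ) (c : ℂ) (a x : E2) : ℝ := (c * (zc x - zc a) ^ k).re

/-- The gradient of `hp k c a`. -/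
def gp (k : ℕ) (c : ℂ) (a x : E2) : E2 :=
  !₂[(c * k * (zc x - zc a) ^ (k - 1)).re, (Complex.I * c * k * (zc x - zc a) ^ (k - 1)).re]

/-- A field which is close to the unit radial field near the circle of radius `r`. -/
def Xf (a : E2) (r : ℝ) (x : E2) : E2 := ((3 - ‖x - a‖ ^ 2 / r ^ 2) / (2 * r)) • (x - a)

end Pool.Agent.T2H01.QI
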