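import Pool.Agent.T2H01.QI.Stm

set_option autoImplicit false

noncomputable section

open MeasureTheory Metric Set Filter Topology
open scoped NNReal ENNReal

namespace Pool.Agent.T2H01.QI

namespace FIN

lemma vball (x : E2) (r : ℝ) (hr : 0 ≤ r) : volume.real (ball x r) = Real.pi * r ^ 2 := by
  rw [Measure.real, EuclideanSpace.volume_ball_fin_two]
  rw [ENNReal.toReal_mul, ENNReal.toReal_pow, ENNReal.toReal_ofReal hr,
    ENNReal.toReal_ofReal Real.pi_pos.le]
  ring

lemma rad_sq (Ω : Set E2) (m : ℝ) (hm : 0 < m) (h : volume.real Ω = m) :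
    0 < rad Ω ∧ Real.pi * rad Ω ^ 2 = m := by
  have hp := Real.pi_pos
  unfold rad
  rw [h]
  constructor
  · positivity
  · rw [Real.sq_sqrt (by positivity)]
    field_simp

lemma asym_bd (Ω : Set E2) (hb : Bornology.IsBounded Ω) (m : ℝ) (hm : 0 < m) (h : volume.real Ω = m) :
    0 ≤ asym Ω ∧ asym Ω ≤ 2 := by
  obtain ⟨hR, hR2⟩ := rad_sq Ω m hm h
  constructor
  · exact Real.iInf_nonneg fun x => by positivity
  · have hbd : BddBelow (Set.range fun x : E2 =>
        volume.real (symmDiff Ω (ball x (rad Ω))) / volume.real (ball x (rad Ω))) :=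
      ⟨0, by rintro _ ⟨x, rfl⟩; positivity⟩
    refine (ciInf_le hbd (0 : E2)).trans ?_
    have hv := vball (0 : E2) (rad Ω) hR.le
    rw [hv, hR2, div_le_iff₀ hm]
    have hsub : symmDiff Ω (ball (0:E2) (rad Ω)) ⊆ Ω ∪ ball (0:E2) (rad Ω) :=
      fun x hx => by
        rcases hx with hx | hx
        · exact Or.inl hx.1
        · exact Or.inr hx.1
    have hfin1 : volume Ω ≠ ⊤ := hb.measure_lt_top.ne
    have hfin2 : volume (ball (0:E2) (rad Ω)) ≠ ⊤ := measure_ball_lt_top.ne
    have h1 : volume.real (symmDiff Ω (ball (0:E2) (rad Ω))) ≤ volume.real (Ω ∪ ball (0:E2) (rad Ω)) :=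
      measureReal_mono hsub (measure_union_lt_top hfin1.lt_top hfin2.lt_top).ne
    have h2 := measureReal_union_le (μ := (volume : Measure E2)) Ω (ball (0:E2) (rad Ω))
    rw [h, hv, hR2] at h2
    linarith

end FIN

open FIN in
theorem pFIN (hISO : S_ISO) (hPERF : S_PERF) (hFLX : S_FLX) (hSHP : S_SHP) : S_FIN := by
  obtain ⟨c, hc, hI⟩ := hISO
  intro β m hβ hm
  have hp := Real.pi_pos
  have hsq : 0 < Real.sqrt (m / Real.pi) := by positivity
  refine ⟨Real.sqrt (m / Real.pi) * c / (2 * β * (1 + 4 * c)), by positivity, fun Ω u hL hV hS => ?_⟩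
  obtain ⟨hR, hR2⟩ := rad_sq Ω m hm hV
  obtain ⟨ha0, ha2⟩ := asym_bd Ω hL.2.1 m hm hV
  have hRe : rad Ω = Real.sqrt (m / Real.pi) := by unfold rad; rw [hV]
  rw [← hRe]
  set R := rad Ω with hRdef
  set a := asym Ω with hadef
  have hne : Ω.Nonempty := by
    by_contra h
    rw [Set.not_nonempty_iff_eq_empty] at h
    rw [h] at hV
    simp at hV
    linarith
  have hper := hPERF Ω hL
  have hiso := hI Ω hL hne
  have hP : 2 * Real.pi * R * (1 + c * a ^ 2) ≤ (per Ω).toReal := by
    have := ENNReal.toReal_mono hper.ne hiso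
    rwa [ENNReal.toReal_ofReal (by positivity)] at this
  have hPpos : 0 < (per Ω).toReal := lt_of_lt_of_le (by positivity) hP
  obtain ⟨G, g, hH1, -⟩ := id hS
  have hshp := hSHP Ω hL.1 hL.2.1 hne u β (m / (β * (per Ω).toReal)) hβ (by positivity) hH1.1
    (fun c' hc' => by
      have := hFLX Ω hL β hβ u hS c' hc'
      rw [hV] at this
      rw [le_div_iff₀ (by positivity)]
      nlinarith)
  refine le_trans (ENNReal.ofReal_le_ofReal ?_) hshp
  have h1 : m / (β * (per Ω).toReal) ≤ R / (2 * β * (1 + c * a ^ 2)) := by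
    rw [div_le_div_iff₀ (by positivity) (by positivity), ← hR2]
    have := mul_le_mul_of_nonneg_left hP (show 0 ≤ R * β by positivity)
    nlinarith
  have h2 : R / (2 * β) - R / (2 * β * (1 + c * a ^ 2)) = R * c * a ^ 2 / (2 * β * (1 + c * a ^ 2)) := by
    have : (1 + c * a ^ 2) ≠ 0 := by positivity
    field_simp
    ring
  have h3 : R * c / (2 * β * (1 + 4 * c)) * a ^ 2 ≤ R * c * a ^ 2 / (2 * β * (1 + c * a ^ 2)) := by
    rw [div_mul_eq_mul_div]
    apply div_le_div_of_nonneg_left (by positivity) (by positivity)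
    have ha4 : a ^ 2 ≤ 4 := by nlinarith
    have : c * a ^ 2 ≤ 4 * c := by nlinarith
    have h2β : 0 < 2 * β := by positivity
    nlinarith
  linarith

end Pool.Agent.T2H01.QI
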