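import Pool.Agent.T2H01.QI.Stm3

set_option autoImplicit false

noncomputable section

open MeasureTheory Metric Set Filter Topology

namespace Pool.Agent.T2H01.QI

namespace INTS

lemma tay (G G' : ℝ → ℝ) (r δ L : ℝ) (hG : ∀ s, HasDerivAt G (G' s) s)
    (hL : ∀ s, |s - r| ≤ |δ| → |G' s| ≤ L) :
    |(∫ s in r..(r + δ), G s) - δ * G r| ≤ L * δ ^ 2 / 2 := by
  have hc : Continuous G := continuous_iff_continuousAt.2 fun s => (hG s).continuousAt
  have h1 : (∫ s in r..(r + δ), G s) = δ * ∫ u in (0 : ℝ)..1, G (r + δ * u) := by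
    have := intervalIntegral.smul_integral_comp_add_mul (f := G) (a := 0) (b := 1) δ r
    simp only [smul_eq_mul, mul_zero, add_zero, mul_one] at this
    exact this.symm
  have h2 : ∀ u ∈ Set.Icc (0 : ℝ) 1, |G (r + δ * u) - G r| ≤ L * (|δ| * u) := by
    intro u hu
    have := Convex.norm_image_sub_le_of_norm_hasDerivWithin_le (f := G) (f' := G') (C := L)
      (s := closedBall r |δ|) (x := r) (y := r + δ * u)
      (fun x _ => (hG x).hasDerivWithinAt)
      (fun x hx => by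
        rw [Real.norm_eq_abs]; exact hL x (by simpa [Real.dist_eq] using hx))
      (convex_closedBall _ _) (mem_closedBall_self (abs_nonneg _))
      (by
        rw [mem_closedBall, Real.dist_eq, add_sub_cancel_left, abs_mul, abs_of_nonneg hu.1]
        exact mul_le_of_le_one_right (abs_nonneg _) hu.2)
    rw [Real.norm_eq_abs, Real.norm_eq_abs, add_sub_cancel_left, abs_mul, abs_of_nonneg hu.1] at this
    exact this
  have h3 : (∫ u in (0 : ℝ)..1, G (r + δ * u)) - G r = ∫ u in (0 : ℝ)..1, (G (r + δ * u) - G r) := by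
    rw [intervalIntegral.integral_sub]
    · simp
    · exact (hc.comp (by fun_prop)).intervalIntegrable _ _
    · exact continuous_const.intervalIntegrable _ _
  have h4 : |∫ u in (0 : ℝ)..1, (G (r + δ * u) - G r)| ≤ ∫ u in (0 : ℝ)..1, L * (|δ| * u) := by
    rw [← Real.norm_eq_abs]
    refine intervalIntegral.norm_integral_le_of_norm_le (g := fun u => L * (|δ| * u)) zero_le_one ?_ ?_
    · refine Filter.Eventually.of_forall fun u hu => ?_
      exact h2 u ⟨hu.1.le, hu.2⟩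
    · exact (by fun_prop : Continuous fun u : ℝ => L * (|δ| * u)).intervalIntegrable _ _
  have h5 : ∫ u in (0 : ℝ)..1, L * (|δ| * u) = L * |δ| / 2 := by
    rw [intervalIntegral.integral_const_mul, intervalIntegral.integral_const_mul, integral_id]
    ring
  rw [h1, ← mul_sub, abs_mul, h3]
  calc |δ| * |∫ u in (0 : ℝ)..1, (G (r + δ * u) - G r)| ≤ |δ| * (L * |δ| / 2) := by
        rw [← h5]; exact mul_le_mul_of_nonneg_left h4 (abs_nonneg _)
    _ = L * (|δ| ^ 2) / 2 := by ring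
    _ = L * δ ^ 2 / 2 := by rw [sq_abs]

lemma ab {x y X Y : ℝ} (hx : |x| ≤ X) (hy : |y| ≤ Y) : |x * y| ≤ X * Y := by
  rw [abs_mul]
  exact mul_le_mul hx hy (abs_nonneg _) ((abs_nonneg _).trans hx)

lemma bd (t β K B A Q q α : ℝ) (ht0 : 0 ≤ t) (ht : t ≤ 3 / 2) (hβ0 : 0 ≤ β) (hβ : β ≤ 1)
    (hK : 2 ≤ K) (hA : |A| ≤ B) (hQ : |Q| ≤ 3 / 2 * B) (hα : |α| ≤ B)
    (hq : |q| ≤ B + 3 / 2 * (K * B)) :
    |β * ((3 - t ^ 2) / 2 * Q + (3 - 2 * t ^ 2) * A) - A +
      t * (β * (-(t * Q) + (3 - t ^ 2) / 2 * q - 4 * t * A + (3 - 2 * t ^ 2) * α) - α)| ≤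
      18 * K * B := by
  have hB : 0 ≤ B := (abs_nonneg _).trans hA
  have hKB : 2 * B ≤ K * B := mul_le_mul_of_nonneg_right hK hB
  have e1 : |β| ≤ 1 := by rw [abs_of_nonneg hβ0]; exact hβ
  have e2 : |t| ≤ 3 / 2 := by rw [abs_of_nonneg ht0]; exact ht
  have e3 : |(3 - t ^ 2) / 2| ≤ 3 / 2 := by rw [abs_le]; constructor <;> nlinarith
  have e4 : |3 - 2 * t ^ 2| ≤ 3 := by rw [abs_le]; constructor <;> nlinarith
  have e5 : |4 * t| ≤ 6 := by rw [abs_le]; constructor <;> linarith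
  have T1 := ab e1 (ab e3 hQ)
  have T2 := ab e1 (ab e4 hA)
  have T4 := ab e2 (ab e1 (ab e2 hQ))
  have T5 := ab e2 (ab e1 (ab e3 hq))
  have T6 := ab e2 (ab e1 (ab e5 hA))
  have T7 := ab e2 (ab e1 (ab e4 hα))
  have T8 := ab e2 hα
  rw [abs_le] at *
  constructor <;> nlinarith [T1.1, T1.2, T2.1, T2.2, T4.1, T4.2, T5.1, T5.2, T6.1, T6.2, T7.1, T7.2,
    T8.1, T8.2, hA.1, hA.2]

lemma dP0 (K : ℕ) (c : ℕ → ℂ) (z : ℂ) : HasDerivAt (P0 K c) (P1 K c z) z := by
  unfold P0 P1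
  refine HasDerivAt.fun_sum fun k hk => ?_
  have := ((hasDerivAt_pow k z).const_mul (c k * (1 / ((k : ℂ) - 1))))
  refine this.congr_deriv ?_
  ring

lemma dP1 (K : ℕ) (c : ℕ → ℂ) (z : ℂ) : HasDerivAt (P1 K c) (P2 K c z) z := by
  unfold P1 P2
  refine HasDerivAt.fun_sum fun k hk => ?_
  have hk2 : 2 ≤ k := (Finset.mem_Icc.1 hk).1
  have := ((hasDerivAt_pow (k - 1) z).const_mul (c k * ((k : ℂ) / ((k : ℂ) - 1))))
  refine this.congr_deriv ?_
  have h1 : ((k - 1 : ℕ) : ℂ) = (k : ℂ) - 1 := by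
    rw [Nat.cast_sub (by omega)]; simp
  have h2 : (k : ℂ) - 1 ≠ 0 := by
    intro h
    have : (k : ℂ) = 1 := by linear_combination h
    have h3 : k = 1 := by exact_mod_cast this
    omega
  rw [h1, show k - 1 - 1 = k - 2 by omega]
  field_simp

lemma cP0 (K : ℕ) (c : ℕ → ℂ) : Continuous (P0 K c) :=
  continuous_iff_continuousAt.2 fun z => (dP0 K c z).continuousAt

lemma cP1 (K : ℕ) (c : ℕ → ℂ) : Continuous (P1 K c) :=
  continuous_iff_continuousAt.2 fun z => (dP1 K c z).continuousAt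

lemma PS_eq (K : ℕ) (c : ℕ → ℂ) (z : ℂ) : PS K c z = z * P1 K c z - P0 K c z := by
  unfold PS P1 P0
  rw [Finset.mul_sum, ← Finset.sum_sub_distrib]
  refine Finset.sum_congr rfl fun k hk => ?_
  have hk2 : 2 ≤ k := (Finset.mem_Icc.1 hk).1
  have h2 : (k : ℂ) - 1 ≠ 0 := by
    intro h
    have : (k : ℂ) = 1 := by linear_combination h
    have h3 : k = 1 := by exact_mod_cast this
    omega
  obtain ⟨m, rfl⟩ : ∃ m, k = m + 1 := ⟨k - 1, by omega⟩
  rw [Nat.add_sub_cancel, pow_succ]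
  push_cast at h2 ⊢
  have h3 : (m : ℂ) ≠ 0 := by simpa using h2
  field_simp

/-- The mean of a harmonic polynomial without constant term. -/
lemma mean (K : ℕ) (d : ℕ → ℂ) (t : ℝ) :
    ∫ θ in (0 : ℝ)..(2 * Real.pi),
      (∑ k ∈ Finset.Icc 2 K, d k * ((t : ℂ) * Complex.exp (Complex.I * θ)) ^ k).re = 0 := by
  have h1 : ∀ k : ℕ, 2 ≤ k → ∫ θ in (0 : ℝ)..(2 * Real.pi),
      d k * ((t : ℂ) * Complex.exp (Complex.I * θ)) ^ k = 0 := by
    intro k hk
    have hk0 : (k : ℂ) * Complex.I ≠ 0 :=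
      mul_ne_zero (by exact_mod_cast (by omega : k ≠ 0)) Complex.I_ne_zero
    have e : ∀ θ : ℝ, d k * ((t : ℂ) * Complex.exp (Complex.I * θ)) ^ k =
        (d k * (t : ℂ) ^ k) * Complex.exp ((k : ℂ) * Complex.I * θ) := by
      intro θ
      rw [mul_pow, ← Complex.exp_nat_mul]
      ring_nf
    simp_rw [e]
    rw [intervalIntegral.integral_const_mul, integral_exp_mul_complex hk0]
    have : Complex.exp ((k : ℂ) * Complex.I * ((2 * Real.pi : ℝ) : ℂ)) = 1 := by
      rw [Complex.exp_eq_one_iff]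
      exact ⟨k, by push_cast; ring⟩
    rw [this]
    simp
  have hcont : ∀ k : ℕ, Continuous fun θ : ℝ =>
      d k * ((t : ℂ) * Complex.exp (Complex.I * θ)) ^ k := fun k => by fun_prop
  have h2 : ∫ θ in (0 : ℝ)..(2 * Real.pi),
      (∑ k ∈ Finset.Icc 2 K, d k * ((t : ℂ) * Complex.exp (Complex.I * θ)) ^ k) = 0 := by
    rw [intervalIntegral.integral_finsetSum fun k _ => (hcont k).intervalIntegrable _ _]
    exact Finset.sum_eq_zero fun k hk => h1 k (Finset.mem_Icc.1 hk).1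
  have hi : IntervalIntegrable (fun θ : ℝ =>
      (∑ k ∈ Finset.Icc 2 K, d k * ((t : ℂ) * Complex.exp (Complex.I * θ)) ^ k))
      volume 0 (2 * Real.pi) :=
    (continuous_finsetSum _ fun k _ => hcont k).intervalIntegrable _ _
  have h3 := Complex.reCLM.intervalIntegral_comp_comm hi
  simp only [Complex.reCLM_apply] at h3
  rw [h3, h2]
  simp

end INTS

end Pool.Agent.T2H01.QI
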