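import Pool.Agent.T2H01.QI.Stm

/-! Package ISO of the project QI: the quantitative isoperimetric inequality in the plane. -/

set_option autoImplicit false

noncomputable section

open MeasureTheory Metric Set Filter Topology
open scoped NNReal ENNReal

namespace Pool.Agent.T2H01.QI

namespace ISO

theorem vol_ball (x : E2) {r : ℝ} (hr : 0 ≤ r) : volume.real (ball x r) = Real.pi * r ^ 2 := by
  rw [Measure.real, EuclideanSpace.volume_ball_fin_two, ENNReal.toReal_mul, ENNReal.toReal_pow,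
    ENNReal.toReal_ofReal hr, ENNReal.toReal_ofReal Real.pi_pos.le]
  ring

theorem vol_cball (x : E2) {r : ℝ} (hr : 0 ≤ r) :
    volume.real (closedBall x r) = Real.pi * r ^ 2 := by
  rw [Measure.real, EuclideanSpace.volume_closedBall_fin_two, ENNReal.toReal_mul,
    ENNReal.toReal_pow, ENNReal.toReal_ofReal hr, ENNReal.toReal_ofReal Real.pi_pos.le]
  ring

theorem core (hSUM : S_SUM) (hVOL : S_VOL) (hCMP : S_CMP) (hPERF : S_PERF) (hLIM : S_LIM)
    (Ω : Set E2) (hΩ : IsLip Ω) (τ : ℝ) (hτ : 0 < τ) (hτR : Real.pi * τ < volume.real Ω) :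
    ∃ (C : Set E2) (q : ℝ), C ⊆ Ω ∧ IsOpen C ∧ 0 ≤ q ∧ q ≤ (per Ω).toReal / (2 * Real.pi) ∧
      volume.real C ≤ Real.pi * q ^ 2 ∧
      volume.real Ω - Real.pi * τ ≤ Real.pi * (Real.sqrt (volume.real C / Real.pi) *
        ((per Ω).toReal / (2 * Real.pi))) ∧
      ∀ η : ℝ, 0 < η → ∃ a : E2,
        C ⊆ closedBall a (q + 5 * Real.sqrt (Real.pi * q ^ 2 - volume.real C) + η) := by
  have hpi := Real.pi_pos
  obtain ⟨F, hF, h1, h2⟩ := hVOL Ω hΩ.1 hΩ.2.1 (Real.pi * τ) (by positivity)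
  have hne : F.Nonempty := by
    rw [Finset.nonempty_iff_ne_empty]
    intro h0
    rw [h0, Finset.sum_empty] at h1
    linarith
  have hfac : ∀ C ∈ F, IsLip C ∧ IsConnected C ∧ per C < ⊤ ∧ C ⊆ Ω ∧ per C ≤ per Ω := by
    intro C hC
    obtain ⟨z, hz, rfl⟩ := hF C hC
    obtain ⟨a1, a2, a3, _⟩ := hCMP Ω hΩ z hz
    exact ⟨a1, a2, hPERF _ a1, connectedComponentIn_subset _ _, measure_mono a3⟩
  have hperΩ := hPERF Ω hΩ
  set q : Set E2 → ℝ := fun C => (per C).toReal / (2 * Real.pi) with hq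
  have hq0 : ∀ C, 0 ≤ q C := fun C => by rw [hq]; positivity
  have hlim : ∀ C ∈ F, volume.real C ≤ Real.pi * (q C) ^ 2 ∧ ∀ η : ℝ, 0 < η → ∃ a : E2,
      C ⊆ closedBall a (q C + 5 * Real.sqrt (Real.pi * (q C) ^ 2 - volume.real C) + η) := by
    intro C hC
    obtain ⟨a1, a2, a3, _, _⟩ := hfac C hC
    exact hLIM C a1 a2 a3
  obtain ⟨C₁, hC₁, hmax⟩ := Finset.exists_max_image F (fun C => volume.real C) hne
  obtain ⟨b1, b2, b3, b4, b5⟩ := hfac C₁ hC₁
  have hqle : ∀ C ∈ F, q C ≤ (per Ω).toReal / (2 * Real.pi) := by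
    intro C hC
    obtain ⟨_, _, _, _, c5⟩ := hfac C hC
    have := ENNReal.toReal_mono hperΩ.ne c5
    show (per C).toReal / (2 * Real.pi) ≤ _
    gcongr
  have hsum : ∑ C ∈ F, q C ≤ (per Ω).toReal / (2 * Real.pi) := by
    have e1 : ∑ C ∈ F, q C = (∑ C ∈ F, (per C).toReal) / (2 * Real.pi) := by
      rw [Finset.sum_div]
    rw [e1, ← ENNReal.toReal_sum (fun C hC => (hfac C hC).2.2.1.ne)]
    have := ENNReal.toReal_mono hperΩ.ne (hSUM Ω hΩ F hF)
    gcongr
  have hs : ∀ C ∈ F, Real.sqrt (volume.real C / Real.pi) ≤ q C := by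
    intro C hC
    rw [Real.sqrt_le_iff]
    refine ⟨hq0 C, ?_⟩
    rw [div_le_iff₀ hpi]
    linarith [(hlim C hC).1]
  have hv : ∀ C : Set E2, volume.real C = Real.pi * (Real.sqrt (volume.real C / Real.pi) *
      Real.sqrt (volume.real C / Real.pi)) := by
    intro C
    rw [Real.mul_self_sqrt (by positivity)]
    field_simp
  refine ⟨C₁, q C₁, b4, b1.1, hq0 C₁, hqle C₁ hC₁, (hlim C₁ hC₁).1, ?_, (hlim C₁ hC₁).2⟩
  refine h1.trans ?_
  calc ∑ C ∈ F, volume.real C
      ≤ ∑ C ∈ F, Real.pi * (Real.sqrt (volume.real C₁ / Real.pi) * q C) := by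
        refine Finset.sum_le_sum fun C hC => ?_
        rw [hv C]
        have g1 : Real.sqrt (volume.real C / Real.pi) ≤ Real.sqrt (volume.real C₁ / Real.pi) :=
          Real.sqrt_le_sqrt (by have := hmax C hC; gcongr)
        have g2 := hs C hC
        gcongr
    _ = Real.pi * (Real.sqrt (volume.real C₁ / Real.pi) * ∑ C ∈ F, q C) := by
        rw [Finset.mul_sum, Finset.mul_sum]
    _ ≤ _ := by gcongr

theorem asym_le {Ω : Set E2} (x : E2) :
    asym Ω ≤ volume.real (symmDiff Ω (ball x (rad Ω))) / volume.real (ball x (rad Ω)) := by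
  unfold asym
  refine ciInf_le ⟨0, ?_⟩ x
  rintro _ ⟨y, rfl⟩
  positivity

theorem asym_nonneg (Ω : Set E2) : 0 ≤ asym Ω := by
  unfold asym
  exact Real.iInf_nonneg fun x => by positivity

theorem rad_nonneg (Ω : Set E2) : 0 ≤ rad Ω := Real.sqrt_nonneg _

theorem rad_sq (Ω : Set E2) : Real.pi * rad Ω ^ 2 = volume.real Ω := by
  unfold rad
  rw [Real.sq_sqrt (by positivity)]
  field_simp

theorem symm_le {Ω C : Set E2} (hΩm : MeasurableSet Ω) (hΩf : volume Ω ≠ ⊤) (hC : C ⊆ Ω)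
    (hCm : MeasurableSet C) {a : E2} {R ρ : ℝ} (hR : 0 ≤ R) (hRρ : R ≤ ρ)
    (hCρ : C ⊆ closedBall a ρ) :
    volume.real (symmDiff Ω (ball a R)) ≤
      (volume.real Ω - volume.real C) + (Real.pi * ρ ^ 2 - volume.real C) +
        (Real.pi * ρ ^ 2 - Real.pi * R ^ 2) := by
  have hρ : 0 ≤ ρ := hR.trans hRρ
  have hBf : volume (closedBall a ρ) ≠ ⊤ := measure_closedBall_lt_top.ne
  have hbf : volume (ball a R) ≠ ⊤ := measure_ball_lt_top.ne
  have hCf : volume C ≠ ⊤ := ((measure_mono hC).trans_lt (lt_top_iff_ne_top.2 hΩf)).ne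
  have hbB : ball a R ⊆ closedBall a ρ := ball_subset_closedBall.trans (closedBall_subset_closedBall hRρ)
  have h1 : volume.real (symmDiff Ω C) = volume.real Ω - volume.real C := by
    rw [symmDiff_comm, symmDiff_of_le hC, measureReal_sdiff hC hCm hΩf]
  have h2 : volume.real (symmDiff C (closedBall a ρ)) = Real.pi * ρ ^ 2 - volume.real C := by
    rw [symmDiff_of_le hCρ, measureReal_sdiff hCρ hCm hBf, vol_cball a hρ]
  have h3 : volume.real (symmDiff (closedBall a ρ) (ball a R)) =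
      Real.pi * ρ ^ 2 - Real.pi * R ^ 2 := by
    rw [symmDiff_comm, symmDiff_of_le hbB, measureReal_sdiff hbB measurableSet_ball hBf,
      vol_cball a hρ, vol_ball a hR]
  have t1 := measureReal_symmDiff_le (μ := volume) (s := Ω) (t := C) (ball a R) hΩf hCf
  have t2 := measureReal_symmDiff_le (μ := volume) (s := C) (t := closedBall a ρ) (ball a R)
    hCf hBf
  linarith

end ISO

open ISO in
theorem pISO (hSUM : S_SUM) (hVOL : S_VOL) (hCMP : S_CMP) (hPERF : S_PERF) (hLIM : S_LIM) :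
    S_ISO := by
  refine ⟨1 / 2500000, by norm_num, ?_⟩
  intro Ω hΩ hne
  have hpi := Real.pi_pos
  have hperΩ := hPERF Ω hΩ
  have hΩm : MeasurableSet Ω := hΩ.1.measurableSet
  have hΩf : volume Ω ≠ ⊤ := hΩ.2.1.measure_lt_top.ne
  have hV0 : 0 < volume.real Ω := ENNReal.toReal_pos (hΩ.1.measure_pos volume hne).ne' hΩf
  obtain ⟨R, hR⟩ : ∃ R : ℝ, R = rad Ω := ⟨_, rfl⟩
  obtain ⟨P, hP⟩ : ∃ P : ℝ, P = (per Ω).toReal / (2 * Real.pi) := ⟨_, rfl⟩
  obtain ⟨A, hA⟩ : ∃ A : ℝ, A = asym Ω := ⟨_, rfl⟩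
  have hRV : Real.pi * R ^ 2 = volume.real Ω := by rw [hR]; exact rad_sq Ω
  have hR0 : 0 < R := by
    have h0 : 0 ≤ R := by rw [hR]; exact rad_nonneg Ω
    rcases h0.lt_or_eq with h | h
    · exact h
    · rw [← h] at hRV
      simp at hRV
      linarith
  have hP0 : 0 ≤ P := by rw [hP]; positivity
  have hA0 : 0 ≤ A := by rw [hA]; exact asym_nonneg Ω
  -- first: `R ≤ P`
  have hRP : R ≤ P := by
    by_contra hc
    push Not at hc
    obtain ⟨τ, hτ⟩ : ∃ τ : ℝ, τ = R * (R - P) / 2 := ⟨_, rfl⟩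
    have hτ0 : 0 < τ := by
      rw [hτ]
      have : 0 < R - P := by linarith
      positivity
    have hτR : τ < R ^ 2 := by rw [hτ]; nlinarith
    obtain ⟨C, q, c1, c2, c3, c4, c5, c6, _⟩ := core hSUM hVOL hCMP hPERF hLIM Ω hΩ τ hτ0
      (by rw [← hRV]; exact mul_lt_mul_of_pos_left hτR hpi)
    rw [← hP, ← hRV] at c6
    have c7 : Real.sqrt (volume.real C / Real.pi) ≤ R := by
      rw [Real.sqrt_le_iff]
      refine ⟨hR0.le, ?_⟩
      rw [div_le_iff₀ hpi]
      have := measureReal_mono c1 hΩf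
      linarith
    have c8 : Real.sqrt (volume.real C / Real.pi) * P ≤ R * P := by gcongr
    have c9 : Real.pi * (R ^ 2 - τ) ≤ Real.pi * (R * P) := by
      have := mul_le_mul_of_nonneg_left c8 hpi.le
      linarith
    have c10 : R ^ 2 - τ ≤ R * P := le_of_mul_le_mul_left c9 hpi
    rw [hτ] at c10
    nlinarith
  -- second: the asymmetry
  have key : ∀ t : ℝ, 0 < t → t ≤ 1 → P ≤ R * (1 + t) → A ≤ 1572 * Real.sqrt t := by
    intro t ht0 ht1 hPt
    obtain ⟨w, hw⟩ : ∃ w : ℝ, w = Real.sqrt t := ⟨_, rfl⟩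
    have hw0 : 0 < w := by rw [hw]; exact Real.sqrt_pos.2 ht0
    have hwt : w ^ 2 = t := by rw [hw]; exact Real.sq_sqrt ht0.le
    have hw1 : w ≤ 1 := by
      by_contra hc
      push Not at hc
      nlinarith
    rw [← hw]
    obtain ⟨C, q, c1, c2, c3, c4, c5, c6, c7⟩ := core hSUM hVOL hCMP hPERF hLIM Ω hΩ
      (t * R ^ 2 / 2) (by positivity) (by
        rw [← hRV]
        have : t * R ^ 2 / 2 < R ^ 2 := by nlinarith [sq_nonneg R, pow_pos hR0 2]
        exact mul_lt_mul_of_pos_left this hpi)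
    rw [← hP] at c4 c6
    rw [← hRV] at c6
    obtain ⟨s, hs⟩ : ∃ s : ℝ, s = Real.sqrt (volume.real C / Real.pi) := ⟨_, rfl⟩
    have hs0 : 0 ≤ s := by rw [hs]; exact Real.sqrt_nonneg _
    have hsV : volume.real C = Real.pi * s ^ 2 := by
      rw [hs, Real.sq_sqrt (by positivity)]
      field_simp
    rw [← hs] at c6
    have d1 : R ^ 2 - t * R ^ 2 / 2 ≤ s * P := by
      refine le_of_mul_le_mul_left ?_ hpi
      linarith
    have d2 : R * (1 - t / 2) ≤ s * (1 + t) := by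
      have h1 : s * P ≤ s * (R * (1 + t)) := by gcongr
      have h2 : R * (R * (1 - t / 2)) ≤ R * (s * (1 + t)) := by nlinarith
      exact le_of_mul_le_mul_left h2 hR0
    have d3 : R ^ 2 * (1 - 3 * t) ≤ s ^ 2 := by
      have h1 : R * (1 - 3 * t / 2) ≤ s := by
        have h2 : R * (1 - 3 * t / 2) * (1 + t) ≤ R * (1 - t / 2) := by nlinarith [sq_nonneg t]
        have h3 : R * (1 - 3 * t / 2) * (1 + t) ≤ s * (1 + t) := h2.trans d2
        exact le_of_mul_le_mul_right h3 (by linarith)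
      rcases le_or_gt 0 (1 - 3 * t / 2) with h4 | h4
      · have h5 : (R * (1 - 3 * t / 2)) ^ 2 ≤ s ^ 2 := pow_le_pow_left₀ (by positivity) h1 2
        nlinarith [sq_nonneg (R * t)]
      · have : R ^ 2 * (1 - 3 * t) ≤ 0 := by
          have h6 : 1 - 3 * t ≤ 0 := by linarith
          nlinarith [sq_nonneg R]
        nlinarith [sq_nonneg s]
    have hqP : q ^ 2 ≤ (R * (1 + t)) ^ 2 := pow_le_pow_left₀ c3 (c4.trans hPt) 2
    have d4 : Real.sqrt (Real.pi * q ^ 2 - volume.real C) ≤ 5 * w * R := by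
      rw [Real.sqrt_le_iff]
      refine ⟨by positivity, ?_⟩
      rw [hsV]
      have h1 : q ^ 2 - s ^ 2 ≤ 6 * t * R ^ 2 := by nlinarith [sq_nonneg R]
      have h2 : Real.pi * (q ^ 2 - s ^ 2) ≤ Real.pi * (6 * t * R ^ 2) := by gcongr
      have h3 : Real.pi * (6 * t * R ^ 2) ≤ 4 * (6 * t * R ^ 2) := by
        have := Real.pi_le_four
        gcongr
      have h4 : (5 * w * R) ^ 2 = 25 * t * R ^ 2 := by rw [← hwt]; ring
      rw [h4]
      have : 0 ≤ t * R ^ 2 := by positivity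
      nlinarith
    obtain ⟨a, ha⟩ := c7 (t * R) (by positivity)
    have htw : t ≤ w := by nlinarith
    have d5 : q + 5 * Real.sqrt (Real.pi * q ^ 2 - volume.real C) + t * R ≤ R * (1 + 27 * w) := by
      have h1 : q ≤ R * (1 + t) := c4.trans hPt
      have h2 : t * R ≤ w * R := by gcongr
      nlinarith
    have d6 : C ⊆ closedBall a (R * (1 + 27 * w)) := ha.trans (closedBall_subset_closedBall d5)
    have d7 := symm_le hΩm hΩf c1 c2.measurableSet hR0.le (ρ := R * (1 + 27 * w))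
      (by nlinarith) d6
    have d8 := asym_le (Ω := Ω) a
    rw [← hR, ← hA, vol_ball a hR0.le] at d8
    refine d8.trans ?_
    rw [div_le_iff₀ (by positivity)]
    refine d7.trans ?_
    rw [hsV, ← hRV]
    have h1 : (R * (1 + 27 * w)) ^ 2 ≤ R ^ 2 * (1 + 783 * w) := by
      have : R ^ 2 * w ^ 2 ≤ R ^ 2 * w := by
        have : w ^ 2 ≤ w := by nlinarith
        gcongr
      nlinarith
    have h2 : R ^ 2 * t ≤ R ^ 2 * w := by gcongr
    have h3 : (R ^ 2 - s ^ 2) + ((R * (1 + 27 * w)) ^ 2 - s ^ 2) +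
        ((R * (1 + 27 * w)) ^ 2 - R ^ 2) ≤ 1572 * w * R ^ 2 := by nlinarith
    have h4 := mul_le_mul_of_nonneg_left h3 hpi.le
    nlinarith
  -- the asymmetry is at most two
  have hA2 : A ≤ 2 := by
    have d8 := asym_le (Ω := Ω) 0
    rw [← hR, ← hA, vol_ball 0 hR0.le] at d8
    refine d8.trans ?_
    rw [div_le_iff₀ (by positivity)]
    have h1 : volume.real (symmDiff Ω (ball (0 : E2) R)) ≤
        volume.real (Ω ∪ ball (0 : E2) R) :=
      measureReal_mono symmDiff_subset_union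
        (measure_union_lt_top (lt_top_iff_ne_top.2 hΩf) measure_ball_lt_top).ne
    have h2 := measureReal_union_le (μ := volume) Ω (ball (0 : E2) R)
    rw [vol_ball 0 hR0.le] at h2
    linarith
  -- conclusion
  have fin : R * (1 + 1 / 2500000 * A ^ 2) ≤ P := by
    rcases hA0.eq_or_lt with h0 | h0
    · rw [← h0]
      simpa using hRP
    · by_contra hc
      push Not at hc
      have ht0 : 0 < 1 / 2500000 * A ^ 2 := by positivity
      have ht1 : 1 / 2500000 * A ^ 2 ≤ 1 := by nlinarith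
      have h1 := key _ ht0 ht1 hc.le
      have h2 : Real.sqrt (1 / 2500000 * A ^ 2) ≤ A / 1581 := by
        rw [Real.sqrt_le_iff]
        refine ⟨by positivity, ?_⟩
        nlinarith [sq_nonneg A]
      nlinarith
  have hfin2 : 2 * Real.pi * R * (1 + 1 / 2500000 * A ^ 2) ≤ (per Ω).toReal := by
    have h1 : P * (2 * Real.pi) = (per Ω).toReal := by
      rw [hP]
      field_simp
    rw [← h1]
    nlinarith
  rw [hR, hA] at hfin2
  exact (ENNReal.ofReal_le_ofReal hfin2).trans ENNReal.ofReal_toReal_le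

end Pool.Agent.T2H01.QI
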