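import Pool.Agent.T2H01.QI.Stm

set_option autoImplicit false

noncomputable section

open MeasureTheory Metric Set Filter Topology
open scoped NNReal ENNReal

namespace Pool.Agent.T2H01.QI

theorem pLEN1 : S_LEN1 := by
  intro f B a δ hδ0 hδ hB
  have hc : 0 < ‖a‖ - δ := by linarith
  set c : ℝ := ‖a‖ - δ with hcdef
  have hlow : ∀ s ∈ B, ∀ s' ∈ B, c * |s - s'| ≤ ‖gph f s - gph f s'‖ := by
    intro s hs s' hs'
    have h1 := hB s hs s' hs'
    have h2 : ‖(s - s') • a‖ ≤ ‖gph f s - gph f s'‖ + ‖gph f s - gph f s' - (s - s') • a‖ := by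
      have := norm_sub_le (gph f s - gph f s') (gph f s - gph f s' - (s - s') • a)
      simpa using this
    rw [norm_smul, Real.norm_eq_abs] at h2
    have : c * |s - s'| = |s - s'| * ‖a‖ - δ * |s - s'| := by rw [hcdef]; ring
    linarith
  let K : ℝ≥0 := ⟨c⁻¹, (inv_pos.2 hc).le⟩
  have hL : LipschitzOnWith K (fun y : E2 => y 0) (gph f '' B) := by
    refine LipschitzOnWith.of_dist_le_mul ?_
    rintro _ ⟨s, hs, rfl⟩ _ ⟨s', hs', rfl⟩
    have h1 := hlow s hs s' hs'
    have e : dist ((gph f s) 0) ((gph f s') 0) = |s - s'| := by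
      simp [gph, Real.dist_eq]
    change dist ((gph f s) 0) ((gph f s') 0) ≤ c⁻¹ * dist (gph f s) (gph f s')
    rw [e, dist_eq_norm, inv_mul_eq_div, le_div_iff₀ hc]
    linarith
  have himg : (fun y : E2 => y 0) '' (gph f '' B) = B := by
    rw [image_image]
    have : (fun s => (gph f s) 0) = id := by
      funext s
      simp [gph]
    rw [this, image_id]
  have hH := hL.hausdorffMeasure_image_le (d := 1) zero_le_one
  rw [himg, hausdorffMeasure_real] at hH
  have hK : ENNReal.ofReal c * (K : ℝ≥0∞) ^ (1 : ℝ) = 1 := by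
    rw [ENNReal.rpow_one]
    have : (K : ℝ≥0∞) = ENNReal.ofReal c⁻¹ := by
      rw [ENNReal.ofReal, Real.toNNReal_of_nonneg (inv_pos.2 hc).le]
      rfl
    rw [this, ← ENNReal.ofReal_mul hc.le, mul_inv_cancel₀ hc.ne', ENNReal.ofReal_one]
  calc ENNReal.ofReal c * volume B
      ≤ ENNReal.ofReal c * ((K : ℝ≥0∞) ^ (1 : ℝ) * μH[1] (gph f '' B)) := by gcongr
    _ = μH[1] (gph f '' B) := by rw [← mul_assoc, hK, one_mul]

end Pool.Agent.T2H01.QI
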