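import Pool.Agent.T2H01.QI.Stm3

set_option autoImplicit false

/-!
# Package OPT2
-/

noncomputable section

namespace Pool.Agent.T2H01.QI

namespace OPT2

theorem small (A a B : ℝ) (hA : 0 < A) (ha : 0 < a) (hB : 0 < B) :
    ∃ d : ℝ, 0 < d ∧ ∀ δ : ℝ, 0 < δ → δ ≤ d → A * δ ^ a ≤ B := by
  refine ⟨(B / A) ^ (1 / a), Real.rpow_pos_of_pos (div_pos hB hA) _, fun δ h0 h1 => ?_⟩
  have h2 : δ ^ a ≤ ((B / A) ^ (1 / a)) ^ a := Real.rpow_le_rpow h0.le h1 ha.le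
  rw [← Real.rpow_mul (div_pos hB hA).le, one_div_mul_cancel ha.ne', Real.rpow_one] at h2
  calc A * δ ^ a ≤ A * (B / A) := mul_le_mul_of_nonneg_left h2 hA.le
    _ = B := by field_simp

end OPT2

open OPT2 in
theorem pOPT2 : S_OPT2 := by
  intro q C₀ C₂ hq hq1 hC₀ hC₂
  set s : ℝ := q - 1 / 2 with hs
  set η : ℝ := (1 - q) / 2 with hη
  have hs0 : 0 < s := by rw [hs]; linarith
  have hs1 : s < 1 := by rw [hs]; linarith
  have hη0 : 0 < η := by rw [hη]; linarith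
  have hE : 0 < 1 + 1 / η := by positivity
  obtain ⟨d1, hd1, h1⟩ := small 4 s 1 (by norm_num) hs0 one_pos
  obtain ⟨d2, hd2, h2⟩ := small C₂ (1 - q) 1 hC₂ (by linarith) one_pos
  obtain ⟨d3, hd3, h3⟩ := small (C₀ * (1 + 1 / η)) η (1 / 2) (mul_pos hC₀ hE) hη0 (by norm_num)
  refine ⟨min (min d1 d2) (min d3 1), 2 * C₀ * (3 + 1 / η), by positivity, by positivity, ?_⟩
  intro δ N hδ hδs hN h
  have a1 := h1 δ hδ (hδs.trans ((min_le_left _ _).trans (min_le_left _ _)))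
  have a2 := h2 δ hδ (hδs.trans ((min_le_left _ _).trans (min_le_right _ _)))
  have a3 := h3 δ hδ (hδs.trans ((min_le_right _ _).trans (min_le_left _ _)))
  have a4 : δ ≤ 1 := hδs.trans ((min_le_right _ _).trans (min_le_right _ _))
  set y : ℝ := δ ^ (-s) with hy
  have hy0 : 0 < y := Real.rpow_pos_of_pos hδ _
  have hy4 : 4 ≤ y := by
    rw [hy, Real.rpow_neg hδ.le]
    have hp : 0 < δ ^ s := Real.rpow_pos_of_pos hδ _
    rw [← one_div, le_div_iff₀ hp]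
    exact a1
  set K : ℕ := ⌊y⌋₊ with hK
  have hKy : (K : ℝ) ≤ y := Nat.floor_le hy0.le
  have hK4 : 4 ≤ K := Nat.le_floor (by exact_mod_cast hy4)
  have hK4' : (4 : ℝ) ≤ K := by exact_mod_cast hK4
  have hyK : y ≤ 2 * K := by
    have := Nat.lt_floor_add_one y
    rw [← hK] at this
    linarith
  have hK0 : (0 : ℝ) < K := by linarith
  have hsq : Real.sqrt δ = δ ^ (1 / 2 : ℝ) := Real.sqrt_eq_rpow δ
  have hKs : K * Real.sqrt δ ≤ δ ^ (1 - q) := by
    calc K * Real.sqrt δ ≤ y * Real.sqrt δ := mul_le_mul_of_nonneg_right hKy (Real.sqrt_nonneg _)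
      _ = δ ^ (1 - q) := by
        rw [hy, hsq, ← Real.rpow_add hδ]
        congr 1
        rw [hs]; ring
  have hlog : 1 + Real.log K ≤ (1 + 1 / η) * δ ^ (-η) := by
    have b1 : Real.log K ≤ (K : ℝ) ^ η / η := Real.log_le_rpow_div hK0.le hη0
    have b2 : (K : ℝ) ^ η ≤ y ^ η := Real.rpow_le_rpow hK0.le hKy hη0.le
    have b3 : y ^ η ≤ δ ^ (-η) := by
      rw [hy, ← Real.rpow_mul hδ.le]
      apply Real.rpow_le_rpow_of_exponent_ge hδ a4
      nlinarith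
    have b4 : 1 ≤ δ ^ (-η) := Real.one_le_rpow_of_pos_of_le_one_of_nonpos hδ a4 (by linarith)
    calc 1 + Real.log K ≤ δ ^ (-η) + δ ^ (-η) / η := by
          refine add_le_add b4 (b1.trans ?_)
          exact div_le_div_of_nonneg_right (b2.trans b3) hη0.le
      _ = (1 + 1 / η) * δ ^ (-η) := by ring
  have hlog0 : 0 ≤ 1 + Real.log K := by
    have : 0 ≤ Real.log K := Real.log_nonneg (by linarith)
    linarith
  have hmain := h K hK4 (by
    calc C₂ * K * Real.sqrt δ = C₂ * (K * Real.sqrt δ) := by ring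
      _ ≤ C₂ * δ ^ (1 - q) := mul_le_mul_of_nonneg_left hKs hC₂.le
      _ ≤ 1 := a2)
  have hq0 : 0 < δ ^ q := Real.rpow_pos_of_pos hδ _
  have c1 : (1 + Real.log K) * δ ≤ (1 + 1 / η) * δ ^ q := by
    have e1 : δ ^ (-η) * δ = δ ^ (1 - η) := by
      rw [show (1 - η : ℝ) = -η + 1 by ring, Real.rpow_add hδ, Real.rpow_one]
    have e2 : δ ^ (1 - η) ≤ δ ^ q := by
      apply Real.rpow_le_rpow_of_exponent_ge hδ a4
      rw [hη]; linarith
    calc (1 + Real.log K) * δ ≤ ((1 + 1 / η) * δ ^ (-η)) * δ :=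
          mul_le_mul_of_nonneg_right hlog hδ.le
      _ = (1 + 1 / η) * δ ^ (1 - η) := by rw [mul_assoc, e1]
      _ ≤ (1 + 1 / η) * δ ^ q := mul_le_mul_of_nonneg_left e2 hE.le
  have c2 : C₀ * ((1 + Real.log K) * (K * Real.sqrt δ)) ≤ 1 / 2 := by
    have e1 : δ ^ (-η) * δ ^ (1 - q) = δ ^ η := by
      rw [← Real.rpow_add hδ]
      congr 1
      rw [hη]; ring
    calc C₀ * ((1 + Real.log K) * (K * Real.sqrt δ))
        ≤ C₀ * (((1 + 1 / η) * δ ^ (-η)) * δ ^ (1 - q)) := by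
          refine mul_le_mul_of_nonneg_left ?_ hC₀.le
          exact mul_le_mul hlog hKs (by positivity) (by positivity)
      _ = C₀ * (1 + 1 / η) * δ ^ η := by rw [mul_assoc, mul_assoc, e1]
      _ ≤ 1 / 2 := a3
  have c3 : Real.sqrt δ / K ≤ 2 * δ ^ q := by
    rw [div_le_iff₀ hK0]
    have e1 : δ ^ q * y = Real.sqrt δ := by
      rw [hy, hsq, ← Real.rpow_add hδ]
      congr 1
      rw [hs]; ring
    calc Real.sqrt δ = δ ^ q * y := e1.symm
      _ ≤ δ ^ q * (2 * K) := mul_le_mul_of_nonneg_left hyK hq0.le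
      _ = 2 * δ ^ q * K := by ring
  have c4 : C₀ * ((1 + Real.log K) * (K * Real.sqrt δ)) * N ≤ 1 / 2 * N :=
    mul_le_mul_of_nonneg_right c2 hN
  have c5 : C₀ * ((1 + Real.log K) * δ) ≤ C₀ * ((1 + 1 / η) * δ ^ q) :=
    mul_le_mul_of_nonneg_left c1 hC₀.le
  have c6 : C₀ * (Real.sqrt δ / K) ≤ C₀ * (2 * δ ^ q) := mul_le_mul_of_nonneg_left c3 hC₀.le
  have e : C₀ * ((1 + Real.log K) * (δ + K * Real.sqrt δ * N) + Real.sqrt δ / K) =
      C₀ * ((1 + Real.log K) * δ) + C₀ * ((1 + Real.log K) * (K * Real.sqrt δ)) * N +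
        C₀ * (Real.sqrt δ / K) := by ring
  rw [e] at hmain
  have f : 2 * C₀ * (3 + 1 / η) * δ ^ q =
      2 * (C₀ * ((1 + 1 / η) * δ ^ q) + C₀ * (2 * δ ^ q)) := by ring
  rw [f]
  linarith

end Pool.Agent.T2H01.QI
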