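import Pool.Agent.T2H01.QI.Stm2

/-!
# Package PARS of the project QI
-/

set_option autoImplicit false

noncomputable section

open MeasureTheory Metric Set Filter Topology
open scoped NNReal ENNReal

namespace Pool.Agent.T2H01.QI

namespace PARS

/-- The complex Fourier integral in terms of the real ones. -/
lemma re_one (k : ℕ) (θ : ℝ) :
    ((1 : ℂ) * Complex.exp (Complex.I * (k * θ))).re = Real.cos (k * θ) := by
  have h : Complex.I * ((k : ℂ) * (θ : ℂ)) = ((k * θ : ℝ) : ℂ) * Complex.I := by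
    push_cast
    ring
  rw [one_mul, h, Complex.exp_ofReal_mul_I_re]

lemma re_negI (k : ℕ) (θ : ℝ) :
    ((-Complex.I) * Complex.exp (Complex.I * (k * θ))).re = Real.sin (k * θ) := by
  have h : Complex.I * ((k : ℂ) * (θ : ℂ)) = ((k * θ : ℝ) : ℂ) * Complex.I := by
    push_cast
    ring
  rw [h, Complex.mul_re, Complex.exp_ofReal_mul_I_re, Complex.exp_ofReal_mul_I_im]
  simp

/-- The square of the absolute value of the Fourier coefficient. -/
lemma coeff (g : ℝ → ℝ) (hg : Continuous g) (hab : (0 : ℝ) < 2 * Real.pi) (n : ℤ) :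
    ‖fourierCoeffOn hab (fun θ => (g θ : ℂ)) n‖ ^ 2 =
      (1 / (2 * Real.pi)) ^ 2 * ((∫ θ in (0 : ℝ)..(2 * Real.pi), g θ * Real.cos (n * θ)) ^ 2 +
        (∫ θ in (0 : ℝ)..(2 * Real.pi), g θ * Real.sin (n * θ)) ^ 2) := by
  have hpi : (0 : ℝ) < Real.pi := Real.pi_pos
  have h1 : ∀ θ : ℝ, (fourier (-n) (θ : AddCircle (2 * Real.pi - 0)) : ℂ) • (g θ : ℂ) =
      ((g θ * Real.cos (n * θ) : ℝ) : ℂ) + ((-(g θ * Real.sin (n * θ)) : ℝ) : ℂ) * Complex.I := by
    intro θ
    have h2 : (fourier (-n) (θ : AddCircle (2 * Real.pi - 0)) : ℂ) =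
        Complex.exp (((-(n * θ) : ℝ) : ℂ) * Complex.I) := by
      rw [fourier_coe_apply]
      congr 1
      push_cast
      have hpc : (Real.pi : ℂ) ≠ 0 := by exact_mod_cast hpi.ne'
      field_simp
      ring
    rw [h2, Complex.exp_mul_I, ← Complex.ofReal_cos, ← Complex.ofReal_sin, Real.cos_neg,
      Real.sin_neg, smul_eq_mul]
    push_cast
    ring
  have hA : IntervalIntegrable (fun θ => ((g θ * Real.cos (n * θ) : ℝ) : ℂ)) volume 0
      (2 * Real.pi) := by
    apply Continuous.intervalIntegrable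
    fun_prop
  have hB : IntervalIntegrable
      (fun θ => ((-(g θ * Real.sin (n * θ)) : ℝ) : ℂ) * Complex.I) volume 0
      (2 * Real.pi) := by
    apply Continuous.intervalIntegrable
    fun_prop
  have h3 : ∫ θ in (0 : ℝ)..(2 * Real.pi),
      (fourier (-n) (θ : AddCircle (2 * Real.pi - 0)) : ℂ) • (g θ : ℂ) =
      ((∫ θ in (0 : ℝ)..(2 * Real.pi), g θ * Real.cos (n * θ) : ℝ) : ℂ) +
        ((-(∫ θ in (0 : ℝ)..(2 * Real.pi), g θ * Real.sin (n * θ)) : ℝ) : ℂ) * Complex.I := by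
    rw [intervalIntegral.integral_congr (fun θ _ => h1 θ),
      intervalIntegral.integral_add hA hB, intervalIntegral.integral_ofReal,
      intervalIntegral.integral_mul_const, intervalIntegral.integral_ofReal,
      intervalIntegral.integral_neg]
  rw [fourierCoeffOn_eq_integral, h3]
  rw [norm_smul, mul_pow, ← Complex.normSq_eq_norm_sq, Complex.normSq_add_mul_I]
  rw [sub_zero, Real.norm_eq_abs, sq_abs]
  ring

end PARS

theorem pPARS : S_PARS := by
  intro g hg hper h0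
  have hpi : (0 : ℝ) < Real.pi := Real.pi_pos
  have hab : (0 : ℝ) < 2 * Real.pi := by positivity
  have hL2 : MemLp (fun θ => (g θ : ℂ)) 2 (volume.restrict (Ioc (0 : ℝ) (2 * Real.pi))) := by
    have hc : Continuous (fun θ => (g θ : ℂ)) := by fun_prop
    obtain ⟨C, hC⟩ := (isCompact_Icc (a := (0 : ℝ)) (b := 2 * Real.pi)).exists_bound_of_continuousOn
      hc.continuousOn
    refine MemLp.of_bound hc.aestronglyMeasurable C ?_
    refine (ae_restrict_iff' measurableSet_Ioc).mpr (Filter.Eventually.of_forall ?_)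
    intro θ hθ
    exact hC θ (Ioc_subset_Icc_self hθ)
  have hS := hasSum_sq_fourierCoeffOn hab hL2
  have hN := hS.nat_add_neg
  have hcos : ∀ k : ℕ, cf g k 1 = ∫ θ in (0 : ℝ)..(2 * Real.pi), g θ * Real.cos (k * θ) := by
    intro k
    unfold cf
    apply intervalIntegral.integral_congr
    intro θ _
    simp only
    rw [PARS.re_one]
  have hsin : ∀ k : ℕ, cf g k (-Complex.I) =
      ∫ θ in (0 : ℝ)..(2 * Real.pi), g θ * Real.sin (k * θ) := by
    intro k
    unfold cf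
    apply intervalIntegral.integral_congr
    intro θ _
    simp only
    rw [PARS.re_negI]
  have hpos : ∀ k : ℕ, ‖fourierCoeffOn hab (fun θ => (g θ : ℂ)) (k : ℤ)‖ ^ 2 =
      (1 / (2 * Real.pi)) ^ 2 * (cf g k 1 ^ 2 + cf g k (-Complex.I) ^ 2) := by
    intro k
    rw [PARS.coeff g hg hab, hcos, hsin]
    simp only [Int.cast_natCast]
  have hneg : ∀ k : ℕ, ‖fourierCoeffOn hab (fun θ => (g θ : ℂ)) (-(k : ℤ))‖ ^ 2 =
      (1 / (2 * Real.pi)) ^ 2 * (cf g k 1 ^ 2 + cf g k (-Complex.I) ^ 2) := by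
    intro k
    rw [PARS.coeff g hg hab, hcos, hsin]
    simp only [Int.cast_neg, Int.cast_natCast, neg_mul, Real.cos_neg, Real.sin_neg, mul_neg,
      intervalIntegral.integral_neg, neg_sq]
  have hzero : ‖fourierCoeffOn hab (fun θ => (g θ : ℂ)) 0‖ ^ 2 = 0 := by
    have h1 := hpos 0
    rw [h0, h0] at h1
    simpa using h1
  have hm : ∫ θ in (0 : ℝ)..(2 * Real.pi), ‖(g θ : ℂ)‖ ^ 2 =
      ∫ θ in (0 : ℝ)..(2 * Real.pi), g θ ^ 2 := by
    apply intervalIntegral.integral_congr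
    intro θ _
    simp only
    rw [Complex.norm_real, Real.norm_eq_abs, sq_abs]
  rw [hm, hzero, add_zero, sub_zero, smul_eq_mul] at hN
  have hN2 : HasSum (fun k : ℕ => (1 / (2 * Real.pi)) ^ 2 * (cf g k 1 ^ 2 +
      cf g k (-Complex.I) ^ 2) + (1 / (2 * Real.pi)) ^ 2 * (cf g k 1 ^ 2 +
      cf g k (-Complex.I) ^ 2)) ((2 * Real.pi)⁻¹ * ∫ θ in (0 : ℝ)..(2 * Real.pi), g θ ^ 2) := by
    refine hN.congr_fun ?_
    intro k
    rw [hpos, hneg]
  have hN3 := (hasSum_nat_add_iff' 1).mpr hN2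
  have hN4 := hN3.mul_left (2 * Real.pi)
  simp only [Finset.range_one, Finset.sum_singleton, h0] at hN4
  have hval : (2 * Real.pi) * (((2 * Real.pi)⁻¹ * ∫ θ in (0 : ℝ)..(2 * Real.pi), g θ ^ 2) -
      ((1 / (2 * Real.pi)) ^ 2 * ((0 : ℝ) ^ 2 + 0 ^ 2) +
        (1 / (2 * Real.pi)) ^ 2 * ((0 : ℝ) ^ 2 + 0 ^ 2))) =
      ∫ θ in (0 : ℝ)..(2 * Real.pi), g θ ^ 2 := by
    generalize (∫ θ in (0 : ℝ)..(2 * Real.pi), g θ ^ 2) = y
    field_simp
    ring
  rw [hval] at hN4
  refine hN4.congr_fun ?_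
  intro k
  generalize cf g (k + 1) 1 = y
  generalize cf g (k + 1) (-Complex.I) = z
  field_simp
  ring

end Pool.Agent.T2H01.QI
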