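import Pool.Agent.T2H01.QI.Defs

/-!
# Packages of the project QI (MP_832dec_an)

Goal: for every `β, m > 0` there is `C > 0` with `‖v - u♯‖_∞ ≥ C α(Ω)²` for all bounded Lipschitz open
sets `Ω` of area `m` (Robin problem, right hand side one). Proof: test function one and the quantitative
isoperimetric inequality in the plane, which is proved here with `N` directions.

Each package `XX` is the statement `S_XX`. Write it in a file `Pool/Agent/T2H01/QI/XX.lean`
(`import Pool.Agent.T2H01.QI.Stm`, `namespace Pool.Agent.T2H01.QI`, own lemmas in a sub-namespace `XX`),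
as `theorem pXX (h : S_DEP) .. : S_XX`, with the dependencies (column deps) as hypotheses in the order
listed. No straight double quotes anywhere.
-/

set_option autoImplicit false

noncomputable section

open MeasureTheory Metric Set Filter Topology
open scoped NNReal ENNReal

namespace Pool.Agent.T2H01.QI

/-- The unit vector with angle `θ`. -/
def dir (θ : ℝ) : E2 := !₂[Real.cos θ, Real.sin θ]

/-- The direction number `j` out of `N`. -/
def nd (N j : ℕ) : E2 := dir (2 * Real.pi * j / N)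

/-- The support function of `Ω`. -/
def hs (Ω : Set E2) (n : E2) : ℝ := sSup ((fun x : E2 => inner ℝ x n) '' Ω)

/-- The divergence of a vector field. -/
def divg (φ : E2 → E2) (x : E2) : ℝ := ∑ i : Fin 2, fderiv ℝ φ x (EuclideanSpace.single i 1) i

/-- The graph of `f`, as a curve. -/
def gph (f : ℝ → ℝ) (s : ℝ) : E2 := !₂[s, f s]

/-- The set below the graph of `f`. -/
def Below (f : ℝ → ℝ) : Set E2 := {x | x 1 < f (x 0)}

/-- The points of `Ω` with distance at least `ε` from the complement. -/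
def inn (Ω : Set E2) (ε : ℝ) : Set E2 := {x | ball x ε ⊆ Ω}

/-- The speed of the curve `gph f`. -/
def spd (f : ℝ → ℝ) (s : ℝ) : ℝ := Real.sqrt (1 + (deriv f s) ^ 2)

/-- The area of the polygon with the support numbers `h j` in the directions `nd N j`. -/
def Q (N : ℕ) (h : ℕ → ℝ) : ℝ :=
  (1 / (2 * Real.sin (2 * Real.pi / N))) *
    ∑ j ∈ Finset.range N, h j * (h (j + 1) + h (j + (N - 1)) - 2 * Real.cos (2 * Real.pi / N) * h j)

/-- The triangle with one vertex at the origin and the opposite side on the line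
`⟨x, dir θ⟩ = h`, from the parameter `-s'` to the parameter `s`. -/
def tri (θ h s s' : ℝ) : Set E2 :=
  {x | ∃ l ∈ Icc (0 : ℝ) 1, ∃ t ∈ Icc (-s') s, x = l • (h • dir θ + t • dir (θ + Real.pi / 2))}

/-! ## A. Structure of Lipschitz sets -/

/-- GRF (20 min). In a chart the frontier is the graph. (In the open ball the set `Ω` coincides with the
preimage under `e` of the open set `Below f`; near a point of the graph there are points of the ball
below and above it, vertically; `f` is continuous.) -/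
def S_GRF : Prop :=
  ∀ (Ω : Set E2) (x : E2) (e : E2 ≃ᵃⁱ[ℝ] E2) (r : ℝ) (f : ℝ → ℝ), IsOpen Ω → Chart Ω x e r f →
    ∀ y : E2, dist y x < r → (y ∈ frontier Ω ↔ (e y) 1 = f ((e y) 0))

/-- LOC (40 min, deps GRF). Near a boundary point only one component of `Ω` is present. Proof: take the
chart at `x`, `s₀ = (e x) 0`, so that `(e x) 1 = f s₀` (GRF), `K ≥ 1` a Lipschitz constant, and
`ρ = r / (10 K)`. For `y ∈ ball x ρ ∩ Ω` with coordinates `(s, t)`, `|s - s₀| < ρ`, `|t - f s₀| < ρ`,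
the vertical segment from `(s,t)` down to `(s, f s₀ - 3 K ρ)` and the horizontal segment from there to
`(s₀, f s₀ - 3 K ρ)` lie in `ball x r` and below the graph (`f s' ≥ f s₀ - K ρ` for `|s' - s₀| ≤ ρ`),
hence in `Ω`. So every such `y` is in the connected component of `z = e⁻¹ (s₀, f s₀ - 3 K ρ)`. -/
def S_LOC : Prop :=
  ∀ Ω : Set E2, IsLip Ω → ∀ x ∈ frontier Ω, ∃ ρ : ℝ, 0 < ρ ∧ ∃ z ∈ Ω,
    ball x ρ ∩ Ω ⊆ connectedComponentIn Ω z

/-- CMP (45 min, deps LOC). Components `C` of a Lipschitz set are open, connected, Lipschitz, with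
boundary contained in that of `Ω`, and different components have disjoint boundaries. (`C` is open
because `Ω` is. If `x ∈ frontier C` then `x ∉ Ω`: otherwise the component of `x` would be open and
disjoint from `C`; so `x ∈ frontier Ω`. With `ρ, z` from LOC the points of `C` near `x` are in the
component of `z`, so `C` is that component and `ball x ρ ∩ Ω = ball x ρ ∩ C`: the chart of `Ω` with the
radius `min r ρ` is a chart of `C`. Disjointness is the same argument.) -/
def S_CMP : Prop :=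
  ∀ Ω : Set E2, IsLip Ω → ∀ z ∈ Ω, IsLip (connectedComponentIn Ω z) ∧
    IsConnected (connectedComponentIn Ω z) ∧ frontier (connectedComponentIn Ω z) ⊆ frontier Ω ∧
      ∀ w ∈ Ω, connectedComponentIn Ω w ≠ connectedComponentIn Ω z →
        Disjoint (frontier (connectedComponentIn Ω w)) (frontier (connectedComponentIn Ω z))

/-- SUM (20 min, deps CMP). The sum of the lengths of the boundaries of finitely many different
components is at most the length of the boundary (`measure_biUnion_finset`, frontiers are closed). -/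
def S_SUM : Prop :=
  ∀ Ω : Set E2, IsLip Ω → ∀ F : Finset (Set E2), (∀ C ∈ F, ∃ z ∈ Ω, C = connectedComponentIn Ω z) →
    ∑ C ∈ F, per C ≤ per Ω

/-- VOL (30 min). Finitely many components carry almost all the area. (The components of an open set of
the plane are open, pairwise disjoint, hence countably many (separable space), and cover it; countable
additivity.) -/
def S_VOL : Prop :=
  ∀ Ω : Set E2, IsOpen Ω → Bornology.IsBounded Ω → ∀ η : ℝ, 0 < η → ∃ F : Finset (Set E2),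
    (∀ C ∈ F, ∃ z ∈ Ω, C = connectedComponentIn Ω z) ∧
      volume.real Ω - η ≤ ∑ C ∈ F, volume.real C ∧ ∑ C ∈ F, volume.real C ≤ volume.real Ω

/-- PERF (30 min, deps GRF). The boundary has finite length: it is compact, and in the ball of each
chart it is contained in the image of the curve `e⁻¹ ∘ gph f` over a bounded interval
(`LipschitzOnWith.hausdorffMeasure_image_le`; `μH[1]` on `ℝ` is the Lebesgue measure:
`hausdorffMeasure_real`). -/
def S_PERF : Prop := ∀ Ω : Set E2, IsLip Ω → per Ω < ⊤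

/-! ## B. Length of graphs -/

/-- LEN1 (25 min). If the curve is almost linear on `B` with velocity `a`, the length of its image is at
least `(‖a‖ - δ) |B|`: the inverse map on the image is Lipschitz with the constant
`(‖a‖ - δ)⁻¹`. -/
def S_LEN1 : Prop :=
  ∀ (f : ℝ → ℝ) (B : Set ℝ) (a : E2) (δ : ℝ), 0 ≤ δ → δ < ‖a‖ →
    (∀ s ∈ B, ∀ s' ∈ B, ‖gph f s - gph f s' - (s - s') • a‖ ≤ δ * |s - s'|) →
      ENNReal.ofReal (‖a‖ - δ) * volume B ≤ μH[1] (gph f '' B)

/-- LEN (60 min, deps LEN1). Lower bound for the length of a Lipschitz graph over a measurable set.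
Proof: `f` is differentiable almost everywhere (`LipschitzWith.ae_differentiableAt`). For `δ ∈ (0,1)`
apply `exists_partition_approximatesLinearOn_of_hasFDerivWithinAt` to `gph f` on the set of
differentiability points in `B`, with the constant `δ`: countably many disjoint measurable pieces on
which `gph f` is approximated by a linear map `A n` (which is one of the derivatives, so on the piece
`‖A n - derivative‖ ≤ δ`, e.g. `ApproximatesLinearOn.norm_fderiv_sub_le`, almost everywhere). On each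
piece the integral of the speed is at most `(‖a‖ + δ) |piece|` with `a = A n 1`, `‖a‖ ≥ 1`, and the
length at least `(‖a‖ - δ) |piece|`. `gph f` is injective, the images of the pieces are measurable
(`MeasurableSet.image_of_continuousOn_injOn`) and disjoint. Let `δ → 0`; first restrict to bounded `B`
or note `(‖a‖ + δ) ≤ (1 + δ)/(1 - δ) (‖a‖ - δ)`. -/
def S_LEN : Prop :=
  ∀ (f : ℝ → ℝ) (K : ℝ≥0), LipschitzWith K f → ∀ B : Set ℝ, MeasurableSet B →
    ∫⁻ s in B, ENNReal.ofReal (spd f s) ≤ μH[1] (gph f '' B)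

/-- INT (25 min, deps LEN). The same with a weight: the push forward under `gph f` of the measure with
density `spd f` is at most `μH[1]` restricted to the graph. -/
def S_INT : Prop :=
  ∀ (f : ℝ → ℝ) (K : ℝ≥0), LipschitzWith K f → ∀ g : E2 → ℝ≥0∞, Measurable g →
    ∀ A : Set E2, MeasurableSet A →
      ∫⁻ s in gph f ⁻¹' A, g (gph f s) * ENNReal.ofReal (spd f s) ≤
        ∫⁻ y in A ∩ range (gph f), g y ∂μH[1]

/-! ## C. The divergence theorem -/

/-- VER (25 min). Fubini in the coordinates `(x 0, x 1)` and the fundamental theorem on half lines. -/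
def S_VER : Prop :=
  ∀ (f : ℝ → ℝ) (K : ℝ≥0), LipschitzWith K f → ∀ ψ : E2 → ℝ, ContDiff ℝ 1 ψ → HasCompactSupport ψ →
    ∫ x in Below f, fderiv ℝ ψ x (EuclideanSpace.single 1 1) = ∫ s, ψ (gph f s)

/-- HOR (60 min). The function `W s = ∫_{t < f s} ψ (s, t) dt` is Lipschitz with compact support, and at
every differentiability point of `f` it has the derivative
`f' s ψ (s, f s) + ∫_{t < f s} ∂₀ψ (s, t) dt`; the integral of the derivative of a Lipschitz function
with compact support is zero (absolutely continuous functions,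
`Mathlib.MeasureTheory.Integral.IntervalIntegral.AbsolutelyContinuousFun`, or
`LipschitzWith.integral_lineDeriv_mul_eq`); Fubini. -/
def S_HOR : Prop :=
  ∀ (f : ℝ → ℝ) (K : ℝ≥0), LipschitzWith K f → ∀ ψ : E2 → ℝ, ContDiff ℝ 1 ψ → HasCompactSupport ψ →
    ∫ x in Below f, fderiv ℝ ψ x (EuclideanSpace.single 0 1) = -∫ s, deriv f s * ψ (gph f s)

/-- GG1 (25 min, deps VER HOR). Cauchy-Schwarz. -/
def S_GG1 : Prop :=
  ∀ (f : ℝ → ℝ) (K : ℝ≥0), LipschitzWith K f → ∀ ψ : E2 → E2, ContDiff ℝ 1 ψ → HasCompactSupport ψ →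
    ∫ x in Below f, divg ψ x ≤ ∫ s, ‖ψ (gph f s)‖ * spd f s

/-- GG2 (50 min, deps GRF INT GG1). The chart version. Apply GG1 to `y ↦ L (ψ (e⁻¹ y))`, `L` the linear
part of `e`: the divergence is invariant (trace of `L A L⁻¹`), the Lebesgue measure and `μH[1]` are
invariant under isometries, `Ω` and `e⁻¹ (Below f)` agree on the ball which contains the support of `ψ`,
and the frontier there is the graph. -/
def S_GG2 : Prop :=
  ∀ (Ω : Set E2) (x : E2) (e : E2 ≃ᵃⁱ[ℝ] E2) (r : ℝ) (f : ℝ → ℝ), IsOpen Ω → Chart Ω x e r f →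
    ∀ ψ : E2 → E2, ContDiff ℝ 1 ψ → HasCompactSupport ψ → tsupport ψ ⊆ ball x r →
      ENNReal.ofReal (∫ y in Ω, divg ψ y) ≤ ∫⁻ y in frontier Ω, ‖ψ y‖ₑ ∂μH[1]

/-- IN0 (15 min). The integral of the divergence of a field with compact support is zero. -/
def S_IN0 : Prop :=
  ∀ ψ : E2 → E2, ContDiff ℝ 1 ψ → HasCompactSupport ψ → ∫ x, divg ψ x = 0

/-- GG3 (50 min, deps GG2 IN0). Partition of unity (`SmoothPartitionOfUnity` or by hand with smooth bump
functions) on a neighbourhood of the compact closure of `Ω`, subordinate to the balls of finitely many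
charts and the set `Ω` itself; the field `χ φ` with support in `Ω` has integral zero, the others are
estimated with GG2, and `∑ χ_j ‖φ‖ ≤ 1` on the frontier. -/
def S_GG3 : Prop :=
  ∀ Ω : Set E2, IsLip Ω → ∀ φ : E2 → E2, ContDiff ℝ (⊤ : ℕ∞) φ → HasCompactSupport φ →
    (∀ x, ‖φ x‖ ≤ 1) → ENNReal.ofReal (∫ y in Ω, divg φ y) ≤ per Ω

/-! ## D. Variation and projections -/

/-- MOL1 (50 min). Mollification of the indicator function: `u = 1_Ω ⋆ ρ` with a normed bump `ρ`
(even, `ContDiffBump`) of radius `< ε`. `∫ u div φ = ∫_Ω div (φ ⋆ ρ)` and `φ ⋆ ρ` is smooth with compact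
support and norm at most one. -/
def S_MOL1 : Prop :=
  ∀ Ω : Set E2, IsOpen Ω → Bornology.IsBounded Ω → ∀ P : ℝ,
    (∀ φ : E2 → E2, ContDiff ℝ (⊤ : ℕ∞) φ → HasCompactSupport φ → (∀ x, ‖φ x‖ ≤ 1) →
      ∫ y in Ω, divg φ y ≤ P) →
    ∀ ε : ℝ, 0 < ε → ∃ u : E2 → ℝ, ContDiff ℝ (⊤ : ℕ∞) u ∧ HasCompactSupport u ∧ (∀ x, 0 ≤ u x) ∧
      (∀ x ∈ inn Ω ε, 1 ≤ u x) ∧
      ∀ φ : E2 → E2, ContDiff ℝ (⊤ : ℕ∞) φ → HasCompactSupport φ → (∀ x, ‖φ x‖ ≤ 1) →
        ∫ y, u y * divg φ y ≤ P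

/-- MOL2 (40 min). Total variation of a smooth function: take `φ = -∇u / √(‖∇u‖² + δ²)` (smooth, support
in that of `u`), integrate by parts, `δ → 0`. (`gradient u` or the vector with coordinates
`fderiv ℝ u x (single i 1)`; its norm is `‖fderiv ℝ u x‖`.) -/
def S_MOL2 : Prop :=
  ∀ (u : E2 → ℝ) (P : ℝ), ContDiff ℝ (⊤ : ℕ∞) u → HasCompactSupport u →
    (∀ φ : E2 → E2, ContDiff ℝ (⊤ : ℕ∞) φ → HasCompactSupport φ → (∀ x, ‖φ x‖ ≤ 1) →
      ∫ y, u y * divg φ y ≤ P) → ∫ x, ‖fderiv ℝ u x‖ ≤ P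

/-- DIRV (40 min). Variation in one direction: on each line in the direction `n` through a point of `A`
the function rises from zero to one and falls back to zero. (Rotate: `dir θ = L (single 0 1)` and
`dir (θ + π/2) = L (single 1 1)` for a linear isometry `L`; the lines `⟨x, dir θ⟩ = p` are parallel to
`dir (θ + π/2)`. The set of the `p` with some `x`, `⟨x, dir θ⟩ = p`, `u x ≥ 1` is compact.) -/
def S_DIRV : Prop :=
  ∀ u : E2 → ℝ, ContDiff ℝ 1 u → HasCompactSupport u → (∀ x, 0 ≤ u x) → ∀ θ : ℝ,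
    ∀ A : Set E2, (∀ x ∈ A, 1 ≤ u x) →
      2 * volume ((fun x : E2 => inner ℝ x (dir θ)) '' A) ≤
        ∫⁻ x, ‖fderiv ℝ u x (dir (θ + Real.pi / 2))‖ₑ

/-- KN (25 min). `∑ |⟨v, nd N j⟩| ≤ (2 N / π + π) ‖v‖`: with `v = ‖v‖ dir φ` the terms are
`‖v‖ |cos (φ - 2 π j / N)|`; compare the Riemann sum with `∫_0^{2π} |cos| = 4`, Lipschitz constant one.
The shift by a quarter turn is included. -/
def S_KN : Prop :=
  ∀ (N : ℕ), 0 < N → ∀ (v : E2) (c : ℝ),
    ∑ j ∈ Finset.range N, |inner ℝ v (dir (2 * Real.pi * j / N + c))| ≤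
      (2 * N / Real.pi + Real.pi) * ‖v‖

/-- PRJ (35 min). The projection of a connected open bounded set is an interval of length
`hs Ω n + hs Ω (-n)`, and the projections of `inn Ω ε` increase to it as `ε → 0`: take two points of `Ω`
with almost extreme values and a path (compact connected set) in `Ω` joining them; it is contained in
`inn Ω ε` for small `ε`, and its projection contains the interval between the values. -/
def S_PRJ : Prop :=
  ∀ Ω : Set E2, IsOpen Ω → Bornology.IsBounded Ω → IsConnected Ω → ∀ n : E2, ∀ η : ℝ, 0 < η →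
    ∃ ε₀ : ℝ, 0 < ε₀ ∧ ∀ ε : ℝ, 0 < ε → ε ≤ ε₀ →
      ENNReal.ofReal (hs Ω n + hs Ω (-n) - η) ≤ volume ((fun x : E2 => inner ℝ x n) '' inn Ω ε)

/-- WID (45 min, deps GG3 MOL1 MOL2 DIRV KN PRJ). With `N = 2 M` directions: the directions `nd N j` and
`nd N (j + M)` are opposite, so `∑_j (h_j + h_{j+M}) = 2 ∑ h_j`; for the mollified function
`(2 N / π + π) per ≥ ∑_j ∫ |∂_{j}u| ≥ ∑_j 2 |proj_j (inn Ω ε)|`. -/
def S_WID : Prop :=
  ∀ Ω : Set E2, IsLip Ω → IsConnected Ω → per Ω < ⊤ → ∀ M : ℕ, 0 < M →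
    4 * ∑ j ∈ Finset.range (2 * M), hs Ω (nd (2 * M) j) ≤
      (2 * (2 * M : ℕ) / Real.pi + Real.pi) * (per Ω).toReal

/-! ## E. Areas of polygons -/

/-- TRI (25 min). The area of a triangle: linear image of `{(a,b) : 0 ≤ a ≤ 1, ..}`; for instance
`tri` is the image of `[0,1] × [-s', s]` under `(l, t) ↦ l (h dir θ + t dir (θ + π/2))`, with Jacobian
`h l`; or in rotated coordinates it is `{(x, y) : 0 ≤ x ≤ h, -s' x / h ≤ y ≤ s x / h}`. -/
def S_TRI : Prop :=
  ∀ θ h s s' : ℝ, 0 < h → 0 ≤ s + s' → volume (tri θ h s s') ≤ ENNReal.ofReal (h * (s + s') / 2)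

/-- COV (35 min). The triangles cover the polygon: for `x ≠ 0` take the index `j` with the greatest
`⟨x, nd N j⟩ / h j`, which is positive and at most one; `x` is this number times a point
`h j nd_j + t dir(θ_j + π/2)`, and the inequalities for `j ± 1` give the bounds for `t`. -/
def S_COV : Prop :=
  ∀ N : ℕ, 5 ≤ N → ∀ h : ℕ → ℝ, (∀ j, h (j + N) = h j) → (∀ j, 0 < h j) →
    (∀ j, 2 * Real.cos (2 * Real.pi / N) * h j ≤ h (j + 1) + h (j + (N - 1))) →
    ∀ x : E2, (∀ j, inner ℝ x (nd N j) ≤ h j) → ∃ j < N,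
      x ∈ tri (2 * Real.pi * j / N) (h j)
        ((h (j + 1) - h j * Real.cos (2 * Real.pi / N)) / Real.sin (2 * Real.pi / N))
        ((h (j + (N - 1)) - h j * Real.cos (2 * Real.pi / N)) / Real.sin (2 * Real.pi / N))

/-- QTR (25 min). `Q` does not change under translations: the vectors satisfy
`nd (j+1) + nd (j+N-1) = 2 cos (2π/N) nd j`, and summation by parts over one period. -/
def S_QTR : Prop :=
  ∀ N : ℕ, 5 ≤ N → ∀ h : ℕ → ℝ, (∀ j, h (j + N) = h j) → ∀ a : E2,
    Q N (fun j => h j - inner ℝ a (nd N j)) = Q N h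

/-- ARE (40 min, deps TRI COV QTR). The area of a bounded open set is at most `Q`. Translate so that
`0 ∈ Ω`; then `h_j > 0`, the inequality `2 cos δ h_j ≤ h_{j+1} + h_{j-1}` holds because
`⟨x, n_{j+1}⟩ + ⟨x, n_{j-1}⟩ = 2 cos δ ⟨x, n_j⟩` for all `x ∈ Ω`, and `Ω` is covered by the triangles. -/
def S_ARE : Prop :=
  ∀ Ω : Set E2, IsOpen Ω → Bornology.IsBounded Ω → Ω.Nonempty → ∀ N : ℕ, 5 ≤ N →
    volume.real Ω ≤ Q N (fun j => hs Ω (nd N j))

/-- ORT (45 min, deps QTR). Orthogonal decomposition: `a = (2/N) ∑ h_j nd_j` (the vectors satisfy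
`∑ nd_j = 0`, `∑ ⟨a, nd_j⟩ nd_j = (N/2) a`), `r` the mean; by QTR `Q h = Q (r + g)`, and the mixed term
vanishes because `∑ g = 0`; `Q (constant r) = N tan (π/N) r²`. -/
def S_ORT : Prop :=
  ∀ N : ℕ, 5 ≤ N → ∀ h : ℕ → ℝ, (∀ j, h (j + N) = h j) → ∃ a : E2,
    let r := (∑ j ∈ Finset.range N, h j) / N
    let g := fun j => h j - r - inner ℝ a (nd N j)
    ∑ j ∈ Finset.range N, g j = 0 ∧ ∑ j ∈ Finset.range N, g j • nd N j = 0 ∧
      Q N h = N * Real.tan (Real.pi / N) * r ^ 2 + Q N g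

/-- WIR (45 min). Discrete Wirtinger inequality, by the discrete Fourier transform on `ZMod N`
(Parseval), since the coefficients number `0, 1, -1` of `g` vanish and
`|e^{2 π i k/N} - 1|² = 2 (1 - cos (2 π k/N)) ≥ 2 (1 - cos (4 π/N))` for the other `k`. -/
def S_WIR : Prop :=
  ∀ N : ℕ, 5 ≤ N → ∀ g : ℕ → ℝ, (∀ j, g (j + N) = g j) → ∑ j ∈ Finset.range N, g j = 0 →
    ∑ j ∈ Finset.range N, g j • nd N j = 0 →
      2 * (1 - Real.cos (4 * Real.pi / N)) * ∑ j ∈ Finset.range N, g j ^ 2 ≤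
        ∑ j ∈ Finset.range N, (g (j + 1) - g j) ^ 2

/-- SUPB (50 min, deps ARE ORT WIR). With `g` from ORT for `h_j = hs Ω (nd N j)`, `δ = 2π/N`:
`Q g = -(1/(2 sin δ)) (∑ (Δg)² - 2 (1 - cos δ) ∑ g²) ≤ -(3/10) / sin δ ∑ (Δg)²` by WIR
(`(1 - cos δ)/(1 - cos 2δ) = 1/(4 cos² (δ/2)) ≤ 0.382`, as `δ/2 ≤ π/5`), and
`g_j² ≤ N ∑ (Δg)²` because the mean is zero, and `N sin δ ≤ 2π`; so
`g_j² ≤ (20 π/3) (-Q g) ≤ 25 (N tan (π/N) r² - |Ω|)`. -/
def S_SUPB : Prop :=
  ∀ Ω : Set E2, IsOpen Ω → Bornology.IsBounded Ω → Ω.Nonempty → ∀ N : ℕ, 5 ≤ N → ∃ a : E2,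
    let r := (∑ j ∈ Finset.range N, hs Ω (nd N j)) / N
    ∀ j < N, (hs Ω (nd N j) - r - inner ℝ a (nd N j)) ^ 2 ≤
      25 * (N * Real.tan (Real.pi / N) * r ^ 2 - volume.real Ω)

/-- CON (25 min). A point `x ≠ a` has a direction `nd N j` at angle at most `π/N` from `x - a`. -/
def S_CON : Prop :=
  ∀ Ω : Set E2, Bornology.IsBounded Ω → ∀ N : ℕ, 5 ≤ N → ∀ (a : E2) (ρ : ℝ), 0 ≤ ρ →
    (∀ j < N, hs Ω (nd N j) ≤ ρ + inner ℝ a (nd N j)) →
      Ω ⊆ closedBall a (ρ / Real.cos (Real.pi / N))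

/-- LIM (50 min, deps WID SUPB CON). Let `N = 2M → ∞`: with `r = per/(2π)`, the means satisfy
`0 ≤ r_N ≤ r + π per/(4N)`, and `N tan (π/N) → π`, `cos (π/N) → 1`. -/
def S_LIM : Prop :=
  ∀ Ω : Set E2, IsLip Ω → IsConnected Ω → per Ω < ⊤ →
    volume.real Ω ≤ Real.pi * ((per Ω).toReal / (2 * Real.pi)) ^ 2 ∧
    ∀ η : ℝ, 0 < η → ∃ a : E2, Ω ⊆ closedBall a ((per Ω).toReal / (2 * Real.pi) +
      5 * Real.sqrt (Real.pi * ((per Ω).toReal / (2 * Real.pi)) ^ 2 - volume.real Ω) + η)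

/-- ISO (60 min, deps SUM VOL CMP PERF LIM). The quantitative isoperimetric inequality. Let
`R = rad Ω`, `per = 2 π R (1 + η)` (all finite), `η < 1` without loss of generality (`asym ≤ 2`). For
small `τ > 0` take `F` from VOL with `τ`; components `C` with `r_C = per C/(2π)`,
`ρ_C = rad C ≤ r_C` (LIM), `∑ r_C ≤ R (1 + η)` (SUM), `∑ ρ_C² ≥ R² - τ`. If `C₁` has the greatest
`ρ`, then `ρ₁ ≥ (R² - τ)/(R (1 + η))`; so `|Ω \ C₁| ≤ 2π η R² + small` and
`D = r₁² - ρ₁² ≤ 10 η R² + small`, `C₁ ⊆ closedBall a (R (1 + η) + 5 √(π D) + small)`; hence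
`|Ω Δ ball a R| = 2 |Ω \ ball a R| ≤ C √η R² + small`. Any constant `c` is fine. -/
def S_ISO : Prop :=
  ∃ c : ℝ, 0 < c ∧ ∀ Ω : Set E2, IsLip Ω → Ω.Nonempty →
    ENNReal.ofReal (2 * Real.pi * rad Ω * (1 + c * asym Ω ^ 2)) ≤ per Ω

/-! ## F. The Robin problem -/

/-- CHN (60 min). Chain rule in `H¹`: `F` is `C¹` with bounded derivative, `Ω` open and bounded.
Mollify `u` (extended by zero): on the compact support of a test function `∇(u ⋆ ρ_δ) = G ⋆ ρ_δ` for
small `δ`, `u ⋆ ρ_δ → u`, `G ⋆ ρ_δ → G` in `L²` (or almost everywhere at Lebesgue points,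
`ContDiffBump.ae_convolution_tendsto_right_of_locallyIntegrable`, together with convergence in `L¹`),
pass to the limit in the identity for smooth functions. -/
def S_CHN : Prop :=
  ∀ (Ω : Set E2), IsOpen Ω → Bornology.IsBounded Ω → ∀ (u : E2 → ℝ) (G : E2 → E2), IsH1 Ω u G →
    ∀ (F : ℝ → ℝ) (K : ℝ), ContDiff ℝ 1 F → (∀ t, |deriv F t| ≤ K) →
      IsH1 Ω (fun x => F (u x)) (fun x => deriv F (u x) • G x)

/-- NEG (35 min, deps CHN). The negative part, with `F_ε t = √(t² + ε²) - ε` for `t < 0` and zero for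
`t ≥ 0` (which is `C¹`), dominated convergence. -/
def S_NEG : Prop :=
  ∀ (Ω : Set E2), IsOpen Ω → Bornology.IsBounded Ω → ∀ (u : E2 → ℝ) (G : E2 → E2), IsH1 Ω u G →
    IsH1 Ω (fun x => max (-u x) 0) (fun x => if u x < 0 then -G x else 0)

/-- TR1 (20 min). The trace of the negative part; the function `t ↦ max (-t) 0` is 1-Lipschitz. -/
def S_TR1 : Prop :=
  ∀ (Ω : Set E2), IsOpen Ω → Bornology.IsBounded Ω → ∀ u g : E2 → ℝ,
    MemLp u 2 (volume.restrict Ω) → IsTrace Ω u g →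
      IsTrace Ω (fun x => max (-u x) 0) (fun x => max (-g x) 0)

/-- TR2 (25 min). Lower bounds pass to the trace: `c - g x ≤` mean of `|u - g x|` over
`ball x r ∩ Ω`, a set of positive finite measure. -/
def S_TR2 : Prop :=
  ∀ (Ω : Set E2), IsOpen Ω → Bornology.IsBounded Ω → ∀ (u g : E2 → ℝ) (c : ℝ),
    MemLp u 2 (volume.restrict Ω) → IsTrace Ω u g → (∀ᵐ x ∂volume.restrict Ω, c ≤ u x) →
      ∀ᵐ x ∂(μH[1].restrict (frontier Ω) : Measure E2), c ≤ g x

/-- POS (30 min, deps NEG TR1). The solution is nonnegative: test with the negative part,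
`-∫_{u<0} |G|² - β ∫ (g⁻)² = ∫ u⁻`. -/
def S_POS : Prop :=
  ∀ (Ω : Set E2), IsLip Ω → ∀ β : ℝ, 0 < β → ∀ u : E2 → ℝ, IsSol Ω β u →
    ∀ᵐ x ∂volume.restrict Ω, 0 ≤ u x

/-- FLX (35 min, deps PERF POS TR2). Test with the constant one (which is in `H¹` with gradient zero and
trace one): `β ∫ g = |Ω|`, and `g ≥ c`. -/
def S_FLX : Prop :=
  ∀ (Ω : Set E2), IsLip Ω → ∀ β : ℝ, 0 < β → ∀ u : E2 → ℝ, IsSol Ω β u → ∀ c : ℝ,
    (∀ᵐ x ∂volume.restrict Ω, c ≤ |u x|) → β * c * (per Ω).toReal ≤ volume.real Ω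

/-- SHP (40 min). Lower bound for the supremum norm: for `t > c₀` (`t ≥ 0`) the number
`m_t = |{|u| > t}|` is less than `|Ω|`, and `u♯ ≤ t` where `π ‖x‖² ≥ m_t`; on this ring in the disc
`v - u♯ ≥ R/(2β) - t`. -/
def S_SHP : Prop :=
  ∀ (Ω : Set E2), IsOpen Ω → Bornology.IsBounded Ω → Ω.Nonempty → ∀ (u : E2 → ℝ) (β c₀ : ℝ),
    0 < β → 0 ≤ c₀ → MemLp u 2 (volume.restrict Ω) →
    (∀ c : ℝ, (∀ᵐ x ∂volume.restrict Ω, c ≤ |u x|) → c ≤ c₀) →
      ENNReal.ofReal (rad Ω / (2 * β) - c₀) ≤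
        eLpNorm (fun x => vsol β (rad Ω) x - usharp Ω u x) ⊤ (volume.restrict (ball 0 (rad Ω)))

/-- VSC (25 min). `v` is the classical solution on the disc. -/
def S_VSC : Prop :=
  ∀ β R : ℝ, 0 < β → 0 < R → ContDiff ℝ (⊤ : ℕ∞) (vsol β R) ∧
    (∀ x, ∑ i : Fin 2, fderiv ℝ (fun y => fderiv ℝ (vsol β R) y (EuclideanSpace.single i 1)) x
      (EuclideanSpace.single i 1) = -1) ∧
    ∀ x : E2, ‖x‖ = R → fderiv ℝ (vsol β R) x (R⁻¹ • x) + β * vsol β R x = 0

/-- FIN (30 min, deps ISO PERF FLX SHP). The answer (`0 ≤ asym ≤ 2`). -/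
def S_FIN : Prop :=
  ∀ β m : ℝ, 0 < β → 0 < m → ∃ C : ℝ, 0 < C ∧ ∀ (Ω : Set E2) (u : E2 → ℝ), IsLip Ω →
    volume.real Ω = m → IsSol Ω β u →
      ENNReal.ofReal (C * asym Ω ^ 2) ≤
        eLpNorm (fun x => vsol β (rad Ω) x - usharp Ω u x) ⊤ (volume.restrict (ball 0 (rad Ω)))

end Pool.Agent.T2H01.QI
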