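import Pool.Agent.T2H01.QI.Defs3
import Pool.Agent.T2H01.QI.Stm

/-!
# Second part of the project QI: exponent 6/5

Notation: `hc Ω a θ` support function of `Ω` seen from `a`, `mr Ω` its mean, `gg` the difference,
`cf g k c = ∫ g(θ) Re (c e^{ikθ}) dθ`. `D = π mr² - |Ω|`, `M = ∫ g²`.
-/

set_option autoImplicit false

noncomputable section

open MeasureTheory Metric Set Filter Topology
open scoped NNReal ENNReal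

namespace Pool.Agent.T2H01.QI

/-- HCT (25 min). The support function is continuous and periodic (and `‖a - b‖`-Lipschitz ideas:
`|hs Ω n - hs Ω n'| ≤ sup ‖x‖ ‖n - n'‖`). -/
def S_HCT : Prop :=
  ∀ Ω : Set E2, Bornology.IsBounded Ω → Ω.Nonempty → Continuous (fun θ => hs Ω (dir θ)) ∧
    ∀ θ, hs Ω (dir (θ + 2 * Real.pi)) = hs Ω (dir θ)

/-- GE1 (25 min, deps WID HCT). Let the number of directions tend to infinity in WID. -/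
def S_GE1 : Prop :=
  ∀ Ω : Set E2, IsLip Ω → IsConnected Ω → per Ω < ⊤ → 2 * Real.pi * mr Ω ≤ (per Ω).toReal

/-- GE2 (50 min, deps HCT ARE ORT WIR). The limit `N → ∞` of the estimate of package SUPB, with the
centre `ctr Ω = (1/π) ∫ h(θ) dir θ dθ` (the `a` of ORT is `(2/N) ∑ h_j nd_j`, because of the
orthogonality relations, and tends to `ctr Ω`); see SUPB for the computation: `g_j² ≤ 25 (..)`. -/
def S_GE2 : Prop :=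
  ∀ Ω : Set E2, IsOpen Ω → Bornology.IsBounded Ω → Ω.Nonempty →
    ∀ θ, gg Ω θ ^ 2 ≤ 25 * (Real.pi * mr Ω ^ 2 - volume.real Ω)

/-- GE0 (20 min, deps HCT). Orthogonality relations of `gg`. -/
def S_GE0 : Prop :=
  ∀ Ω : Set E2, Bornology.IsBounded Ω → Ω.Nonempty → Continuous (gg Ω) ∧
    (∀ θ, gg Ω (θ + 2 * Real.pi) = gg Ω θ) ∧ (∀ c, cf (gg Ω) 0 c = 0) ∧ (∀ c, cf (gg Ω) 1 c = 0)

/-- GE3 (60 min, deps HCT GE0 ARE ORT). Hurwitz inequality for the support function. For large `N` write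
`g_j = h_j - r - ⟨a, nd_j⟩` (ORT), so that
`|Ω| ≤ N tan(π/N) r_N² - (1/(2 sin δ)) ∑_j ((g_{j+1} - g_j)² - 2 (1 - cos δ) g_j²)`, `δ = 2π/N`; by the
discrete Fourier transform the sum is `(2/N) ∑_k |ĝ k|² (cos δ - cos (k δ))` over `k mod N`, all terms
with `k ≠ 0` are `≥ 0` and the term `k = 0` vanishes; keep `2 ≤ |k| ≤ K`. Riemann sums:
`(2π/N) ĝ k → ∫ g e^{-ikθ}`, and `N² (cos δ - cos kδ) → 2π² (k² - 1)`. -/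
def S_GE3 : Prop :=
  ∀ Ω : Set E2, IsOpen Ω → Bornology.IsBounded Ω → Ω.Nonempty → ∀ K : ℕ,
    (1 / (2 * Real.pi)) * ∑ k ∈ Finset.Icc 2 K,
        ((k : ℝ) ^ 2 - 1) * (cf (gg Ω) k 1 ^ 2 + cf (gg Ω) k (-Complex.I) ^ 2) ≤
      Real.pi * mr Ω ^ 2 - volume.real Ω

/-- PARS (40 min). Parseval for continuous periodic functions of mean zero. -/
def S_PARS : Prop :=
  ∀ g : ℝ → ℝ, Continuous g → (∀ θ, g (θ + 2 * Real.pi) = g θ) → (∀ c, cf g 0 c = 0) →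
    HasSum (fun k : ℕ => (1 / Real.pi) * (cf g (k + 1) 1 ^ 2 + cf g (k + 1) (-Complex.I) ^ 2))
      (∫ θ in (0 : ℝ)..(2 * Real.pi), g θ ^ 2)

/-- STR (20 min). `Ω` is contained in the star shaped set with the radial function `hc`: a point
`x = a + s dir θ` of `Ω` has `s = ⟨x - a, dir θ⟩ ≤ hc Ω a θ`. -/
def S_STR : Prop :=
  ∀ Ω : Set E2, Bornology.IsBounded Ω → ∀ a : E2, Ω ⊆ star a (hc Ω a)

/-- POL (60 min). Polar coordinates (`integral_comp_polarCoord_symm` on `ℝ × ℝ` or `ℂ`, with the measure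
preserving equivalence to `E2`, and a translation). -/
def S_POL : Prop :=
  ∀ (a : E2) (ρ : ℝ → ℝ), Continuous ρ → (∀ θ, ρ (θ + 2 * Real.pi) = ρ θ) → (∀ θ, 0 < ρ θ) →
    IsCompact (star a ρ) ∧ ∀ f : E2 → ℝ, Continuous f →
      ∫ x in star a ρ, f x =
        ∫ θ in (0 : ℝ)..(2 * Real.pi), ∫ s in (0 : ℝ)..(ρ θ), s * f (a + s • dir θ)

/-- AREA (20 min, deps POL). The area of a star shaped set. -/
def S_AREA : Prop :=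
  ∀ (a : E2) (ρ : ℝ → ℝ), Continuous ρ → (∀ θ, ρ (θ + 2 * Real.pi) = ρ θ) → (∀ θ, 0 < ρ θ) →
    volume.real (star a ρ) = (1 / 2) * ∫ θ in (0 : ℝ)..(2 * Real.pi), ρ θ ^ 2

/-- TAY (30 min). Second order Taylor estimate for
`V t = α₀ t^{k+2}/(k+2) + α₁ t^{k+4}/(k+4)`: `V'' t = (k+1) t^k α₀ + (k+3) t^{k+2} α₁`, and
`(1 + 1/(k+4))^{k+2} ≤ e ≤ 3`. -/
def S_TAY : Prop :=
  ∀ (k : ℕ) (r α₀ α₁ y : ℝ), 0 < r → |y| ≤ r / (k + 4) →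
    |(α₀ * (r + y) ^ (k + 2) / (k + 2) + α₁ * (r + y) ^ (k + 4) / (k + 4)) -
        (α₀ * r ^ (k + 2) / (k + 2) + α₁ * r ^ (k + 4) / (k + 4)) -
        r ^ (k + 1) * (α₀ + α₁ * r ^ 2) * y| ≤
      (3 / 2) * r ^ k * ((k + 1) * |α₀| + (k + 3) * |α₁| * r ^ 2) * y ^ 2

/-- MOM (45 min, deps POL TAY). Moments of the star shaped set with the radial function `r + g`. With
`V` as in TAY the inner integral in polar coordinates is `Re (c e^{ikθ}) V (r + g θ)`. The constant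
term contributes only for `k = 0`. -/
def S_MOM : Prop :=
  ∀ (a : E2) (g : ℝ → ℝ) (r : ℝ) (k : ℕ) (c : ℂ) (α₀ α₁ : ℝ), Continuous g →
    (∀ θ, g (θ + 2 * Real.pi) = g θ) → 0 < r → (∀ θ, |g θ| ≤ r / (k + 4)) → ‖c‖ ≤ 1 →
      |(∫ x in star a (fun θ => r + g θ), hp k c a x * (α₀ + α₁ * ‖x - a‖ ^ 2)) -
          (if k = 0 then 2 * Real.pi * c.re * (α₀ * r ^ 2 / 2 + α₁ * r ^ 4 / 4) else 0) -
          r ^ (k + 1) * (α₀ + α₁ * r ^ 2) * cf g k c| ≤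
        (3 / 2) * r ^ k * ((k + 1) * |α₀| + (k + 3) * |α₁| * r ^ 2) *
          ∫ θ in (0 : ℝ)..(2 * Real.pi), g θ ^ 2

/-- HARM (35 min). `hp k c a x = Re (c (z - z_a)^k)` is smooth, harmonic, with the stated bounds; `gp` is
its gradient. -/
def S_HARM : Prop :=
  ∀ (k : ℕ) (c : ℂ) (a : E2), ‖c‖ ≤ 1 → ContDiff ℝ (⊤ : ℕ∞) (hp k c a) ∧
    ContDiff ℝ (⊤ : ℕ∞) (gp k c a) ∧ (∀ x, divg (gp k c a) x = 0) ∧
    (∀ x v, fderiv ℝ (hp k c a) x v = inner ℝ (gp k c a x) v) ∧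
    (∀ x, |hp k c a x| ≤ ‖x - a‖ ^ k) ∧ ∀ x, ‖gp k c a x‖ ≤ k * ‖x - a‖ ^ (k - 1)

/-- DIVX (35 min, deps HARM). The field `Xf a r x = (3 - ‖x-a‖²/r²)/(2r) (x - a)`: norm at most one on
the disc of radius `2 r`, and the divergence of `φ Xf` for `φ = hp k c a`
(`⟨∇φ, x - a⟩ = k φ`, `div Xf = (3 - 2 ‖x-a‖²/r²)/r`). -/
def S_DIVX : Prop :=
  ∀ (a : E2) (r : ℝ), 0 < r → ContDiff ℝ (⊤ : ℕ∞) (Xf a r) ∧ (∀ x, ‖x - a‖ ≤ 2 * r → ‖Xf a r x‖ ≤ 1) ∧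
    ∀ (k : ℕ) (c : ℂ), ‖c‖ ≤ 1 → ∀ x, divg (fun y => hp k c a y • Xf a r y) x =
      hp k c a x * ((3 * k / 2 + 3) / r + (-(k / 2 + 2) / r ^ 3) * ‖x - a‖ ^ 2)

/-- BDY (45 min, deps HARM DIVX). `∫_∂ φ - ∫_Ω div (φ X) = ∫_∂ φ (1 - ⟨X, ν⟩)` and
`0 ≤ 1 - ⟨X, ν⟩`, `∫_∂ (1 - ⟨X, ν⟩) = per - ∫_Ω div X` (`k = 0`, `c = 1`); the closure of `Ω` is in the
closed balls. -/
def S_BDY : Prop :=
  ∀ (Ω : Set E2) (ν : E2 → E2), IsOpen Ω → Bornology.IsBounded Ω → per Ω < ⊤ → IsNormal Ω ν →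
    ∀ (a : E2) (r ϱ : ℝ), 0 < r → ϱ ≤ 2 * r → Ω ⊆ closedBall a ϱ → ∀ (k : ℕ) (c : ℂ), ‖c‖ ≤ 1 →
      |(∫ x in frontier Ω, hp k c a x ∂μH[1]) -
          ∫ x in Ω, hp k c a x * ((3 * k / 2 + 3) / r + (-(k / 2 + 2) / r ^ 3) * ‖x - a‖ ^ 2)| ≤
        ϱ ^ k * ((per Ω).toReal - ∫ x in Ω, (3 / r - 2 / r ^ 3 * ‖x - a‖ ^ 2))

/-- KEY (60 min, deps PERF TR2 HARM). The test functions `φ = hp k c a` (smooth functions are in `H¹`,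
with trace equal to the restriction; `Ω` is bounded, `per Ω` finite) and Green's formula with `X = gp`:
`∫_∂ g (⟨gp, ν⟩ + β φ) = ∫_Ω φ`; `∫_∂ ⟨gp, ν⟩ = 0`; write `g = c₀ + γ`, `γ ≥ 0` almost everywhere (TR2),
`∫_∂ γ = |Ω|/β - c₀ per` (test function one). -/
def S_KEY : Prop :=
  ∀ (Ω : Set E2), IsLip Ω → ∀ β c₀ : ℝ, 0 < β → ∀ u : E2 → ℝ, IsRobin Ω β u →
    (∀ᵐ x ∂volume.restrict Ω, c₀ ≤ u x) →
      0 ≤ volume.real Ω / β - c₀ * (per Ω).toReal ∧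
      ∀ (k : ℕ) (c : ℂ) (a : E2) (ϱ : ℝ), ‖c‖ ≤ 1 → 0 < ϱ → Ω ⊆ closedBall a ϱ →
        |β * c₀ * (∫ x in frontier Ω, hp k c a x ∂μH[1]) - ∫ x in Ω, hp k c a x| ≤
          (k * ϱ ^ (k - 1) + β * ϱ ^ k) * (volume.real Ω / β - c₀ * (per Ω).toReal)

/-- DM (30 min, deps GE0 GE2 GE3 PARS). `M ≤ (2/3) D`: since `k² - 1 ≥ 3` for `k ≥ 2`. And the tail
bound: for every `K ≥ 1`, `M ≤ (1/π) ∑_{k=2}^K (..) + 2 D / K²` (`k² - 1 ≥ K²` for `k > K`). -/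
def S_DM : Prop :=
  ∀ Ω : Set E2, IsOpen Ω → Bornology.IsBounded Ω → Ω.Nonempty →
    0 ≤ MM Ω ∧ MM Ω ≤ (2 / 3) * (Real.pi * mr Ω ^ 2 - volume.real Ω) ∧ ∀ K : ℕ, 1 ≤ K →
      MM Ω ≤ (1 / Real.pi) * ∑ k ∈ Finset.Icc 2 K,
          (cf (gg Ω) k 1 ^ 2 + cf (gg Ω) k (-Complex.I) ^ 2) +
        2 * (Real.pi * mr Ω ^ 2 - volume.real Ω) / K ^ 2

/-- SO (35 min, deps GE0 GE2 STR AREA DM). With `D = π mr² - |Ω|`, `5 √D < mr`: the star shaped set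
`S = star a (mr + g)`, `a = ctr Ω`, contains `Ω`, and `|S \ Ω| = D + M/2 ≤ (4/3) D`; moreover
`Ω ⊆ closedBall a (mr + 5 √D)`. -/
def S_SO : Prop :=
  ∀ Ω : Set E2, IsOpen Ω → Bornology.IsBounded Ω → Ω.Nonempty →
    5 * Real.sqrt (Real.pi * mr Ω ^ 2 - volume.real Ω) < mr Ω →
      Ω ⊆ star (ctr Ω) (fun θ => mr Ω + gg Ω θ) ∧
      volume.real (star (ctr Ω) (fun θ => mr Ω + gg Ω θ) \ Ω) ≤
        (4 / 3) * (Real.pi * mr Ω ^ 2 - volume.real Ω) ∧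
      Ω ⊆ closedBall (ctr Ω) (mr Ω + 5 * Real.sqrt (Real.pi * mr Ω ^ 2 - volume.real Ω))

/-- MO (45 min, deps GE0 GE2 POL MOM HARM DM SO). Moments of `Ω`, `D = π r² - |Ω|`, `r = mr Ω`, under
`5 (k+4) √D ≤ r`: replace `Ω` by the star shaped set `S` (on `S` one has `‖x-a‖ ≤ r (1 + 1/(k+4))`,
`|hp| ≤ 3 r^k`), `|S \ Ω| ≤ (4/3) D`, and MOM. Only nonnegative weights up to `W` on `S`:
`|α₀ + α₁ ‖x-a‖²| ≤ W`. -/
def S_MO : Prop :=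
  ∀ Ω : Set E2, IsOpen Ω → Bornology.IsBounded Ω → Ω.Nonempty → 0 < mr Ω → ∀ (k : ℕ) (c : ℂ), ‖c‖ ≤ 1 →
    5 * (k + 4) * Real.sqrt (Real.pi * mr Ω ^ 2 - volume.real Ω) ≤ mr Ω → ∀ α₀ α₁ W : ℝ,
      (∀ s : ℝ, 0 ≤ s → s ≤ (5 / 4) * mr Ω → |α₀ + α₁ * s ^ 2| ≤ W) →
      |(∫ x in Ω, hp k c (ctr Ω) x * (α₀ + α₁ * ‖x - ctr Ω‖ ^ 2)) -
          (if k = 0 then 2 * Real.pi * c.re * (α₀ * mr Ω ^ 2 / 2 + α₁ * mr Ω ^ 4 / 4) else 0) -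
          mr Ω ^ (k + 1) * (α₀ + α₁ * mr Ω ^ 2) * cf (gg Ω) k c| ≤
        4 * mr Ω ^ k * W * (Real.pi * mr Ω ^ 2 - volume.real Ω) +
          (3 / 2) * mr Ω ^ k * ((k + 1) * |α₀| + (k + 3) * |α₁| * mr Ω ^ 2) * MM Ω

/-- CMB (60 min, deps PERF GE0 GE1 DM SO MO BDY KEY). The main estimate, `r = mr Ω`, `a = ctr Ω`,
`D = π r² - |Ω|`, `M = MM Ω`, `Γ = |Ω|/β - c₀ per`, `ϱ = r + 5√D ≤ r (1 + 1/(k+4))`, so that
`ϱ^k ≤ 3 r^k`, `k ϱ^(k-1) ≤ 3 k r^(k-1)`. MO with `(1, 0)`: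
`∫_Ω φ = r^{k+1} G + O(4 r^k D + (3/2)(k+1) r^k M)`. MO with `α₀ = (3k/2+3)/r`, `α₁ = -(k/2+2)/r³`
(`α₀ + α₁ r² = (k+1)/r`, `W = 2 (k+2)/r`): `∫_Ω div(φX) = (k+1) r^k G + O(8 (k+2) r^{k-1} D +
6 (k+2)² r^{k-1} M)`. MO with `k = 0`, `α₀ = 3/r`, `α₁ = -2/r³`:
`per - ∫_Ω div X ≤ per - 2π r + (12 D + 14 M)/r`. BDY and KEY:
`|G| r^k |β c₀ (k+1) - r| ≤ ..`, and `β c₀ (k+1) - r ≥ r (k+1)/12` because
`β c₀ ≥ 5 r/12` and `k ≥ 2`; `β c₀ ≤ 7r/12`. (The constant 1000 is generous.) -/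
def S_CMB : Prop :=
  ∀ (Ω : Set E2), IsLip Ω → IsConnected Ω → ∀ β c₀ : ℝ, 0 < β → ∀ u : E2 → ℝ, IsRobin Ω β u →
    (∀ᵐ x ∂volume.restrict Ω, c₀ ≤ u x) → 0 < mr Ω → |β * c₀ - mr Ω / 2| ≤ mr Ω / 12 →
    ∀ (k : ℕ) (c : ℂ), 2 ≤ k → ‖c‖ ≤ 1 →
      5 * (k + 4) * Real.sqrt (Real.pi * mr Ω ^ 2 - volume.real Ω) ≤ mr Ω →
      |cf (gg Ω) k c| ≤ 1000 * ((1 / mr Ω ^ 2 + β / mr Ω) * (volume.real Ω / β - c₀ * (per Ω).toReal) +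
        ((per Ω).toReal - 2 * Real.pi * mr Ω) + (Real.pi * mr Ω ^ 2 - volume.real Ω) / mr Ω +
        (k + 2) * MM Ω / mr Ω)

/-- OPT (50 min). Optimisation (pure real analysis). With `K = ⌊ε δ^{-1/3}⌋`, `ε` small depending on
`C₀, C₂, r₀`: `M ≤ (1/π) ∑_{k=2}^K a_k + 2D/K²` and
`∑_{k ≤ K} a_k ≤ C₀² (4 K C₂² δ² + 4 (K+2)³ M²/r₀²)`, `M ≤ C₂ δ`, so the second term is at most
`M/2` and `M ≤ C₃ δ^{5/3}`. -/
def S_OPT : Prop :=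
  ∀ C₀ C₂ r₀ : ℝ, 0 < C₀ → 0 < C₂ → 0 < r₀ → ∃ δs C₃ : ℝ, 0 < δs ∧ 0 < C₃ ∧
    ∀ (δ D M : ℝ) (a : ℕ → ℝ), 0 < δ → δ ≤ δs → 0 ≤ D → D ≤ C₂ * δ → 0 ≤ M → M ≤ D →
      (∀ k : ℕ, 2 ≤ k → 5 * (k + 4) * Real.sqrt D ≤ r₀ → a k ≤ C₀ ^ 2 * (C₂ * δ + (k + 2) * M / r₀) ^ 2) →
      (∀ K : ℕ, 1 ≤ K → M ≤ (1 / Real.pi) * ∑ k ∈ Finset.Icc 2 K, a k + 2 * D / K ^ 2) →
        M ≤ C₃ * δ ^ (5 / 3 : ℝ)

/-- ASY (35 min, deps GE0 GE2 POL SO DM). `Ω` and the disc of the same area around `ctr Ω`: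
`|Ω Δ B| = 2 |Ω \ B|`, `B = ball a ρ`, `ρ = rad Ω ≤ r = mr Ω`, and
`|Ω \ B| ≤ |S \ B| = ∫ (1/2) ((r+g)² - ρ²)₊ ≤ ∫ (r |g| + g²/2) + π (r² - ρ²)`, Cauchy-Schwarz
(`√(2π) ≤ 3`). -/
def S_ASY : Prop :=
  ∀ Ω : Set E2, IsOpen Ω → Bornology.IsBounded Ω → Ω.Nonempty →
    5 * Real.sqrt (Real.pi * mr Ω ^ 2 - volume.real Ω) < mr Ω →
      volume.real (symmDiff Ω (ball (ctr Ω) (rad Ω))) ≤
        2 * (3 * mr Ω * Real.sqrt (MM Ω) + MM Ω + (Real.pi * mr Ω ^ 2 - volume.real Ω))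

/-- NRM (30 min). The normal and Green's formula on a component `C` of `Ω`: multiply the fields with a
smooth function equal to one near the closure of `C` and zero near the closure of the rest of `Ω`
(compact disjoint sets: the union of the other components has a closure which does not meet the closure
of `C`, by LOC). (deps LOC CMP) -/
def S_NRM : Prop :=
  ∀ Ω : Set E2, IsLip Ω → ∀ z ∈ Ω, ∃ χ : E2 → ℝ, ContDiff ℝ (⊤ : ℕ∞) χ ∧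
    (∀ x ∈ closure (connectedComponentIn Ω z), ∀ᶠ y in 𝓝 x, χ y = 1) ∧
    ∀ x ∈ closure (Ω \ connectedComponentIn Ω z), ∀ᶠ y in 𝓝 x, χ y = 0

/-- RES (60 min, deps LOC CMP NRM). The restriction of the solution to a component is the solution
there. Test functions on `C` are extended by zero. -/
def S_RES : Prop :=
  ∀ (Ω : Set E2), IsLip Ω → ∀ β : ℝ, ∀ u : E2 → ℝ, IsRobin Ω β u → ∀ z ∈ Ω,
    IsRobin (connectedComponentIn Ω z) β u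

/-- CONN (60 min, deps PERF GE1 DM KEY CMB OPT ASY). The connected case. Let `ρ = rad Ω ∈ [ρ₁, ρ₂]`,
`δ₁ = ρ/(2β) - c₀ ≤ δ`, `P = per`, `r = mr`: `P ≥ 2π r ≥ 2π ρ` (`π r² ≥ |Ω|` from DM), and from KEY
`Γ = πρ²/β - c₀ P ≥ 0`, hence `δ₁ ≥ 0`, `Γ ≤ 2π ρ δ₁`, `P ≤ 2π ρ + 8π β δ₁` and
`D ≤ 12 π β ρ δ₁` for small `δ₁`; CMB, OPT and ASY. -/
def S_CONN : Prop :=
  ∀ β ρ₁ ρ₂ : ℝ, 0 < β → 0 < ρ₁ → ρ₁ ≤ ρ₂ → ∃ δs C : ℝ, 0 < δs ∧ 0 < C ∧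
    ∀ (Ω : Set E2) (u : E2 → ℝ) (c₀ δ : ℝ), IsLip Ω → IsConnected Ω → ρ₁ ≤ rad Ω → rad Ω ≤ ρ₂ →
      IsRobin Ω β u → (∀ᵐ x ∂volume.restrict Ω, c₀ ≤ u x) → rad Ω / (2 * β) - c₀ ≤ δ → 0 < δ → δ ≤ δs →
        ∃ a : E2, volume.real (symmDiff Ω (ball a (rad Ω))) ≤ C * δ ^ (5 / 6 : ℝ)

/-- BIG (50 min, deps SUM VOL CMP PERF LIM). The greatest component: if
`per Ω ≤ 2 π R (1 + η)`, `R = rad Ω`, `η ≤ 1/10`, then there is a component `C` with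
`rad C ≥ R/(1 + η)`, that is `|Ω \ C| ≤ 2π η R²`. (As in ISO: `∑ rad C ≤ ∑ per C/(2π) ≤ R (1+η)` and
`∑ rad C² = R²`, up to `τ`; the areas of components exceeding `R²/2` belong to a finite set, so the
maximum is attained.) -/
def S_BIG : Prop :=
  ∀ Ω : Set E2, IsLip Ω → Ω.Nonempty → ∀ η : ℝ, 0 ≤ η → η ≤ 1 / 10 →
    (per Ω).toReal ≤ 2 * Real.pi * rad Ω * (1 + η) →
      ∃ z ∈ Ω, volume.real (Ω \ connectedComponentIn Ω z) ≤ 2 * Real.pi * η * rad Ω ^ 2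

/-- ALL (60 min, deps PERF POS FLX RES CMP BIG CONN SHP; `IsRobin` implies `IsSol`). The answer with the exponent `6/5`. With `c₀` the
essential infimum of `u` (which is nonnegative, POS), `δ = R/(2β) - c₀`: SHP gives that the norm is at
least `δ`. If `δ` is small: `per ≤ 2πR(1 + 4βδ/R)` (from FLX, `β c₀ per ≤ πR²`), BIG, CONN for the
component, and `|Ω Δ ball a R| ≤ |Ω \ C| + |C Δ ball a (rad C)| + |ball a R \ ball a (rad C)| ≤ C δ^{5/6}`.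
Otherwise `asym ≤ 2`. -/
def S_ALL : Prop :=
  ∀ β m : ℝ, 0 < β → 0 < m → ∃ C : ℝ, 0 < C ∧ ∀ (Ω : Set E2) (u : E2 → ℝ), IsLip Ω →
    volume.real Ω = m → IsRobin Ω β u →
      ENNReal.ofReal (C * asym Ω ^ (6 / 5 : ℝ)) ≤
        eLpNorm (fun x => vsol β (rad Ω) x - usharp Ω u x) ⊤ (volume.restrict (ball 0 (rad Ω)))

end Pool.Agent.T2H01.QI
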