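import Pool.Agent.T2H01.QI.Stm2

/-!
# Third part of the project QI: every exponent p > 1

Idea: the L¹ norm of `g = gg Ω` is tested with the harmonic function whose boundary values are the
`K`-th partial sum of the Fourier series of `sign g` (divided by `k - 1` in mode `k`); partial sums and the
conjugate function cost a factor `1 + log K` only.
-/

set_option autoImplicit false

noncomputable section

open MeasureTheory Metric Set Filter Topology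
open scoped NNReal ENNReal

namespace Pool.Agent.T2H01.QI

/-- Complex Fourier coefficients, normalised. -/
def ec (ε : ℝ → ℝ) (k : ℕ) : ℂ :=
  (1 / Real.pi : ℝ) * ∫ t in (0 : ℝ)..(2 * Real.pi), (ε t : ℂ) * Complex.exp (-(Complex.I * (k * t)))

/-- The polynomial `∑ c_k z^k / (k - 1)`. -/
def P0 (K : ℕ) (c : ℕ → ℂ) (z : ℂ) : ℂ := ∑ k ∈ Finset.Icc 2 K, c k * (1 / ((k : ℂ) - 1)) * z ^ k

/-- Its derivative. -/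
def P1 (K : ℕ) (c : ℕ → ℂ) (z : ℂ) : ℂ :=
  ∑ k ∈ Finset.Icc 2 K, c k * ((k : ℂ) / ((k : ℂ) - 1)) * z ^ (k - 1)

/-- Its second derivative. -/
def P2 (K : ℕ) (c : ℕ → ℂ) (z : ℂ) : ℂ := ∑ k ∈ Finset.Icc 2 K, c k * (k : ℂ) * z ^ (k - 2)

/-- The polynomial `∑ c_k z^k = z P1 z - P0 z`. -/
def PS (K : ℕ) (c : ℕ → ℂ) (z : ℂ) : ℂ := ∑ k ∈ Finset.Icc 2 K, c k * z ^ k

/-- The bounds for the three polynomials near the unit disc. -/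
def PB (K : ℕ) (c : ℕ → ℂ) (B : ℝ) : Prop :=
  ∀ z : ℂ, ‖z‖ ≤ 1 + 1 / (K : ℝ) → ‖P0 K c z‖ ≤ B ∧ ‖P1 K c z‖ ≤ B ∧ ‖P2 K c z‖ ≤ K * B

/-- The test function `Re P0 ((z_x - z_a) / r)`. -/
def ph (K : ℕ) (c : ℕ → ℂ) (a : E2) (r : ℝ) (x : E2) : ℝ := (P0 K c ((zc x - zc a) / r)).re

/-- Its gradient. -/
def gh (K : ℕ) (c : ℕ → ℂ) (a : E2) (r : ℝ) (x : E2) : E2 :=
  !₂[(P1 K c ((zc x - zc a) / r) / r).re, (Complex.I * P1 K c ((zc x - zc a) / r) / r).re]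

/-- The integrand `b div (φ X) - φ`. -/
def FF (K : ℕ) (c : ℕ → ℂ) (a : E2) (r b : ℝ) (x : E2) : ℝ :=
  b * divg (fun y => ph K c a r y • Xf a r y) x - ph K c a r x

/-- KEY2 (15 min, deps PERF TR2). General form of KEY (adapt KEY.lean of helper7): any harmonic smooth test
function `φ` with gradient `Φ`. -/
def S_KEY2 : Prop :=
  ∀ (Ω : Set E2), IsLip Ω → ∀ β c₀ : ℝ, 0 < β → ∀ u : E2 → ℝ, IsRobin Ω β u →
    (∀ᵐ x ∂volume.restrict Ω, c₀ ≤ u x) → ∀ (φ : E2 → ℝ) (Φ : E2 → E2) (B : ℝ),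
      ContDiff ℝ (⊤ : ℕ∞) φ → ContDiff ℝ (⊤ : ℕ∞) Φ → (∀ x v, fderiv ℝ φ x v = inner ℝ (Φ x) v) →
      (∀ x, divg Φ x = 0) → (∀ x ∈ closure Ω, ‖Φ x‖ + β * |φ x| ≤ B) →
        |β * c₀ * (∫ x in frontier Ω, φ x ∂μH[1]) - ∫ x in Ω, φ x| ≤
          B * (volume.real Ω / β - c₀ * (per Ω).toReal)

/-- BDY2 (15 min, deps DIVX). General form of BDY (adapt BDY.lean of helper7). -/
def S_BDY2 : Prop :=
  ∀ (Ω : Set E2) (ν : E2 → E2), IsOpen Ω → Bornology.IsBounded Ω → per Ω < ⊤ → IsNormal Ω ν →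
    ∀ (a : E2) (r ϱ : ℝ), 0 < r → ϱ ≤ 2 * r → Ω ⊆ closedBall a ϱ → ∀ (φ : E2 → ℝ) (B : ℝ),
      ContDiff ℝ (⊤ : ℕ∞) φ → (∀ x ∈ closure Ω, |φ x| ≤ B) →
      |(∫ x in frontier Ω, φ x ∂μH[1]) - ∫ x in Ω, divg (fun y => φ y • Xf a r y) x| ≤
        B * ((per Ω).toReal - ∫ x in Ω, (3 / r - 2 / r ^ 3 * ‖x - a‖ ^ 2))

/-- KER (25 min). The analytic Dirichlet kernel: `|∑_{k=m}^n w^k| ≤ min ((K + 1) e, 2 e² / |1 - w|)` for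
`w = z e^{-it}`, `‖w‖ ≤ 1 + 1/K`, and `|1 - w| ≥ |sin (arg w)|` or `≥ 1`, so it is at least
`|angle| / π`. (First reduce to real `z ≥ 0` by periodicity.) -/
def S_KER : Prop :=
  ∃ C : ℝ, 0 < C ∧ ∀ K : ℕ, 2 ≤ K → ∀ z : ℂ, ‖z‖ ≤ 1 + 1 / (K : ℝ) → ∀ m n : ℕ, n ≤ K →
    ∫ t in (0 : ℝ)..(2 * Real.pi), ‖∑ k ∈ Finset.Icc m n, (z * Complex.exp (-(Complex.I * t))) ^ k‖ ≤
      C * (1 + Real.log K)

/-- ABL (30 min, deps KER). Since `∑_{k=2}^n c_k z^(k-j) = (1/π) ∫ ε(t) e^{-ijt} ∑_{k=2-j}^{n-j} (z e^{-it})^k dt`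
(`c = ec ε`, `j = 0, 1, 2`) all these partial sums are bounded by `C (1 + log K)`; the weights `1/(k-1)`,
`k/(k-1)` (decreasing, at most two) and `k` (increasing) cost a factor `2`, `4`, `2K` by Abel summation. -/
def S_ABL : Prop :=
  ∃ C : ℝ, 0 < C ∧ ∀ K : ℕ, 2 ≤ K → ∀ ε : ℝ → ℝ, Measurable ε → (∀ t, |ε t| ≤ 1) →
    PB K (ec ε) (C * (1 + Real.log K))

/-- TST (30 min, deps HARM DIVX). The test function: a finite sum of functions `hp k (c_k / ((k-1) r^k)) a`.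
(`HARM`, `DIVX` are stated for coefficients of modulus at most one: scale, or use the lemmas in those
files.) With `z = (z_x - z_a)/r`. -/
def S_TST : Prop :=
  ∀ (K : ℕ) (c : ℕ → ℂ) (a : E2) (r : ℝ), 0 < r →
    ContDiff ℝ (⊤ : ℕ∞) (ph K c a r) ∧ ContDiff ℝ (⊤ : ℕ∞) (gh K c a r) ∧
    (∀ x v, fderiv ℝ (ph K c a r) x v = inner ℝ (gh K c a r x) v) ∧ (∀ x, divg (gh K c a r) x = 0) ∧
    (∀ x, ‖gh K c a r x‖ = ‖P1 K c ((zc x - zc a) / r)‖ / r) ∧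
    ∀ x, divg (fun y => ph K c a r y • Xf a r y) x =
      (3 - ‖x - a‖ ^ 2 / r ^ 2) / (2 * r) * ((zc x - zc a) / r * P1 K c ((zc x - zc a) / r)).re +
        (3 - 2 * ‖x - a‖ ^ 2 / r ^ 2) / r * (P0 K c ((zc x - zc a) / r)).re

/-- INTS (45 min, deps POL TST). In polar coordinates, `z = (s/r) e^{iθ}`: the mean over `θ` of `FF` on every
circle vanishes, `r F(r, θ) = (r/2) Re PS + (b - r/2) Re (z P1 + P0)`, and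
`|∂_s (s F)| ≤ 18 K B` for `s ≤ r (1 + 1/K)` (`s ∂_s Re P0 = Re (z P1)`,
`s ∂_s Re (z P1) = Re (z P1 + z² P2)`). Taylor at `s = r`. -/
def S_INTS : Prop :=
  ∀ (K : ℕ) (c : ℕ → ℂ) (B : ℝ), 2 ≤ K → PB K c B → ∀ (a : E2) (g : ℝ → ℝ) (r b : ℝ), Continuous g →
    (∀ θ, g (θ + 2 * Real.pi) = g θ) → 0 < r → (∀ θ, |g θ| ≤ r / K) → 0 ≤ b → b ≤ r →
      |(∫ x in star a (fun θ => r + g θ), FF K c a r b x) -
          (r / 2) * ∫ θ in (0 : ℝ)..(2 * Real.pi), g θ * (PS K c (Complex.exp (Complex.I * θ))).re| ≤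
        10 * B * (|b - r / 2| * (∫ θ in (0 : ℝ)..(2 * Real.pi), |g θ|) +
          K * ∫ θ in (0 : ℝ)..(2 * Real.pi), g θ ^ 2)

/-- SUPF (20 min, deps TST). Pointwise bound of the integrand on `‖x - a‖ ≤ r (1 + 1/K)`. -/
def S_SUPF : Prop :=
  ∀ (K : ℕ) (c : ℕ → ℂ) (B : ℝ), 2 ≤ K → PB K c B → ∀ (a : E2) (r b : ℝ), 0 < r → 0 ≤ b → b ≤ r →
    ∀ x : E2, ‖x - a‖ ≤ r * (1 + 1 / K) → |FF K c a r b x| ≤ 7 * B

/-- CMB2 (50 min, deps PERF GE0 GE1 GE2 DM SO MO KEY KEY2 BDY2 TST INTS SUPF). With `b = β c₀`,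
`Γ = |Ω|/β - c₀ per ≥ 0` (KEY): `|∫_Ω FF| ≤ (B/r + β B) Γ + b B (per - ∫_Ω div X)` (KEY2, BDY2 with
`φ = ph`), `per - ∫_Ω div X ≤ per - 2π r + (12 D + 14 M)/r` (MO with `k = 0`, as in CMB);
`|∫_{S \ Ω} FF| ≤ 7 B (4/3) D` (SUPF, SO), and INTS for `S = star (ctr Ω) (mr + gg)`, `|gg| ≤ 5 √D`. -/
def S_CMB2 : Prop :=
  ∀ (Ω : Set E2), IsLip Ω → IsConnected Ω → ∀ β c₀ : ℝ, 0 < β → ∀ u : E2 → ℝ, IsRobin Ω β u →
    (∀ᵐ x ∂volume.restrict Ω, c₀ ≤ u x) → 0 < mr Ω → |β * c₀ - mr Ω / 2| ≤ mr Ω / 12 →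
    ∀ (K : ℕ) (c : ℕ → ℂ) (B : ℝ), 4 ≤ K → PB K c B →
      5 * K * Real.sqrt (Real.pi * mr Ω ^ 2 - volume.real Ω) ≤ mr Ω →
      |∫ θ in (0 : ℝ)..(2 * Real.pi), gg Ω θ * (PS K c (Complex.exp (Complex.I * θ))).re| ≤
        100 * B / mr Ω * ((1 / mr Ω + β) * (volume.real Ω / β - c₀ * (per Ω).toReal) +
          mr Ω * ((per Ω).toReal - 2 * Real.pi * mr Ω) + (Real.pi * mr Ω ^ 2 - volume.real Ω) +
          |β * c₀ - mr Ω / 2| * (∫ θ in (0 : ℝ)..(2 * Real.pi), |gg Ω θ|) + K * MM Ω)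

/-- L1T (35 min). With `ε = sign g` one has `∫ |g| = ∫ g ε`, and
`∫ g Re PS K (ec ε) (e^{iθ}) = ∫ ε S_K g`, `S_K g = (1/π) ∑_{k=2}^K (cf g k 1 cos kθ + cf g k (-i) sin kθ)`;
`∫ ε (g - S_K g) ≤ √(2π) ‖g - S_K g‖₂`, and `‖g - S_K g‖₂² = ∫ g² - (1/π) ∑ (..)` by orthogonality. -/
def S_L1T : Prop :=
  ∀ g : ℝ → ℝ, Continuous g → ∀ K : ℕ,
    (∫ θ in (0 : ℝ)..(2 * Real.pi), |g θ|) ≤
      |∫ θ in (0 : ℝ)..(2 * Real.pi),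
          g θ * (PS K (ec (fun t => Real.sign (g t))) (Complex.exp (Complex.I * θ))).re| +
        Real.sqrt (2 * Real.pi * ((∫ θ in (0 : ℝ)..(2 * Real.pi), g θ ^ 2) -
          (1 / Real.pi) * ∑ k ∈ Finset.Icc 2 K, (cf g k 1 ^ 2 + cf g k (-Complex.I) ^ 2)))

/-- OPT2 (25 min). Pure real analysis: with `K = ⌊δ^{-(q - 1/2)}⌋` (`1/2 < q < 1`) one has
`K √δ (1 + log K) → 0`, `√δ/K ≤ 2 δ^q`, `δ (1 + log K) ≤ C δ^q`. -/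
def S_OPT2 : Prop :=
  ∀ q C₀ C₂ : ℝ, 1 / 2 < q → q < 1 → 0 < C₀ → 0 < C₂ → ∃ δs C₃ : ℝ, 0 < δs ∧ 0 < C₃ ∧
    ∀ δ N : ℝ, 0 < δ → δ ≤ δs → 0 ≤ N →
      (∀ K : ℕ, 4 ≤ K → C₂ * K * Real.sqrt δ ≤ 1 →
        N ≤ C₀ * ((1 + Real.log K) * (δ + K * Real.sqrt δ * N) + Real.sqrt δ / K)) →
        N ≤ C₃ * δ ^ q

/-- ASY2 (15 min, deps GE0 GE2 POL SO DM). As ASY (adapt ASY.lean of helper55), without
Cauchy-Schwarz. -/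
def S_ASY2 : Prop :=
  ∀ Ω : Set E2, IsOpen Ω → Bornology.IsBounded Ω → Ω.Nonempty →
    5 * Real.sqrt (Real.pi * mr Ω ^ 2 - volume.real Ω) < mr Ω →
      volume.real (symmDiff Ω (ball (ctr Ω) (rad Ω))) ≤
        2 * (mr Ω * (∫ θ in (0 : ℝ)..(2 * Real.pi), |gg Ω θ|) + MM Ω +
          (Real.pi * mr Ω ^ 2 - volume.real Ω))

/-- CONN2 (50 min, deps PERF GE0 GE1 GE2 DM KEY CMB2 ABL L1T OPT2 ASY2). As CONN (adapt CONN.lean of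
helper92); `M ≤ 5 √D ∫|g|` (GE2), `D ≤ C δ`, `|β c₀ - r/2| ≤ C δ`; CMB2 with `c = ec (sign g)`,
`B = C (1 + log K)` (ABL), L1T with the tail bound `2 D/K²` of DM. -/
def S_CONN2 : Prop :=
  ∀ q β ρ₁ ρ₂ : ℝ, 1 / 2 < q → q < 1 → 0 < β → 0 < ρ₁ → ρ₁ ≤ ρ₂ → ∃ δs C : ℝ, 0 < δs ∧ 0 < C ∧
    ∀ (Ω : Set E2) (u : E2 → ℝ) (c₀ δ : ℝ), IsLip Ω → IsConnected Ω → ρ₁ ≤ rad Ω → rad Ω ≤ ρ₂ →
      IsRobin Ω β u → (∀ᵐ x ∂volume.restrict Ω, c₀ ≤ u x) → rad Ω / (2 * β) - c₀ ≤ δ → 0 < δ → δ ≤ δs →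
        ∃ a : E2, volume.real (symmDiff Ω (ball a (rad Ω))) ≤ C * δ ^ q

/-- ALL2 (20 min, deps PERF POS FLX RES CMP BIG CONN2 SHP). As ALL (adapt ALL.lean of helper57), with
`q = 1/p` (for `p ≥ 2` use `asym ≤ 2`, or `q = max (1/p) (3/4)` and `asym ≤ 2`). -/
def S_ALL2 : Prop :=
  ∀ β m p : ℝ, 0 < β → 0 < m → 1 < p → ∃ C : ℝ, 0 < C ∧ ∀ (Ω : Set E2) (u : E2 → ℝ), IsLip Ω →
    volume.real Ω = m → IsRobin Ω β u →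
      ENNReal.ofReal (C * asym Ω ^ p) ≤
        eLpNorm (fun x => vsol β (rad Ω) x - usharp Ω u x) ⊤ (volume.restrict (ball 0 (rad Ω)))

end Pool.Agent.T2H01.QI
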