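import Pool.Agent.T2H01.QI.Stm
set_option autoImplicit false

noncomputable section

open MeasureTheory Metric Set Filter Topology
open scoped NNReal ENNReal

namespace Pool.Agent.T2H01.QI

namespace TRI

/-- rotation -/
def rotL (θ : ℝ) : E2 →ₗᵢ[ℝ] E2 where
  toFun v := v 0 • dir θ + v 1 • dir (θ + Real.pi / 2)
  map_add' := by
    intro v w
    simp only [PiLp.add_apply, add_smul]; abel
  map_smul' := by
    intro c v
    simp only [PiLp.smul_apply, smul_eq_mul, mul_smul, RingHom.id_apply, smul_add]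
  norm_map' := by
    intro v
    rw [EuclideanSpace.norm_eq, EuclideanSpace.norm_eq]
    congr 1
    simp only [Fin.sum_univ_two, Real.norm_eq_abs, sq_abs]
    simp [dir, Real.cos_add_pi_div_two, Real.sin_add_pi_div_two]
    have := Real.sin_sq_add_cos_sq θ
    nlinarith [this, sq_nonneg (v 0), sq_nonneg (v 1)]

def rotE (θ : ℝ) : E2 ≃ₗᵢ[ℝ] E2 := (rotL θ).toLinearIsometryEquiv rfl

theorem rotE_apply (θ : ℝ) (v : E2) :
    rotE θ v = v 0 • dir θ + v 1 • dir (θ + Real.pi / 2) := rfl

/-- the triangle in the coordinates -/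
def S2 (h s s' : ℝ) : Set (ℝ × ℝ) :=
  {p | p.1 ∈ Icc 0 h ∧ p.2 ∈ Icc (-(s' * (p.1 / h))) (s * (p.1 / h))}

theorem S2_meas (h s s' : ℝ) : MeasurableSet (S2 h s s') := by
  have h1 : IsClosed (S2 h s s') := by
    have : S2 h s s' = {p : ℝ × ℝ | 0 ≤ p.1} ∩ {p | p.1 ≤ h} ∩
        ({p | -(s' * (p.1 / h)) ≤ p.2} ∩ {p | p.2 ≤ s * (p.1 / h)}) := by
      ext p; simp only [S2, mem_setOf_eq, mem_Icc, mem_inter_iff]
    rw [this]
    refine ((isClosed_le ?_ ?_).inter (isClosed_le ?_ ?_)).inter
      ((isClosed_le ?_ ?_).inter (isClosed_le ?_ ?_)) <;> fun_prop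
  exact h1.measurableSet

theorem S2_vol {h s s' : ℝ} (hh : 0 < h) (hs : 0 ≤ s + s') :
    volume (S2 h s s') ≤ ENNReal.ofReal (h * (s + s') / 2) := by
  rw [Measure.volume_eq_prod, Measure.prod_apply (S2_meas h s s')]
  have h1 : ∀ a : ℝ, volume (Prod.mk a ⁻¹' S2 h s s') =
      (Icc 0 h).indicator (fun a => ENNReal.ofReal ((s + s') * (a / h))) a := by
    intro a
    by_cases ha : a ∈ Icc 0 h
    · rw [indicator_of_mem ha]
      have : Prod.mk a ⁻¹' S2 h s s' = Icc (-(s' * (a / h))) (s * (a / h)) := by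
        ext b; simp only [S2, mem_preimage, mem_setOf_eq, ha, true_and]
      rw [this, Real.volume_Icc]
      congr 1; ring
    · rw [indicator_of_notMem ha]
      have : Prod.mk a ⁻¹' S2 h s s' = ∅ := by
        ext b; simp only [S2, mem_preimage, mem_setOf_eq, ha, false_and, mem_empty_iff_false]
      rw [this, measure_empty]
  simp only [h1]
  rw [lintegral_indicator measurableSet_Icc,
    ← ofReal_integral_eq_lintegral_ofReal]
  · refine ENNReal.ofReal_le_ofReal (le_of_eq ?_)
    rw [integral_Icc_eq_integral_Ioc, ← intervalIntegral.integral_of_le hh.le]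
    have : ∀ a : ℝ, (s + s') * (a / h) = ((s + s') / h) * a := by intro a; ring
    simp only [this]
    rw [intervalIntegral.integral_const_mul, integral_id]
    field_simp
    ring
  · exact (Continuous.integrableOn_Icc (by fun_prop))
  · refine (ae_restrict_iff' measurableSet_Icc).2 (Eventually.of_forall fun a ha => ?_)
    exact mul_nonneg hs (div_nonneg ha.1 hh.le)

end TRI

open TRI in
theorem pTRI : S_TRI := by
  intro θ h s s' hh hs
  -- coordinates
  let e : E2 ≃ᵐ (Fin 2 → ℝ) := (MeasurableEquiv.toLp 2 (Fin 2 → ℝ)).symm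
  have he : MeasurePreserving e volume volume := PiLp.volume_preserving_ofLp (Fin 2)
  let f : (Fin 2 → ℝ) ≃ᵐ ℝ × ℝ := MeasurableEquiv.finTwoArrow
  have hf : MeasurePreserving f volume volume := volume_preserving_finTwoArrow ℝ
  have hsub : tri θ h s s' ⊆ (rotE θ) '' ((fun v => f (e v)) ⁻¹' S2 h s s') := by
    rintro x ⟨l, hl, t, ht, rfl⟩
    refine ⟨!₂[l * h, l * t], ?_, ?_⟩
    · show (l * h, l * t) ∈ S2 h s s'
      refine ⟨⟨mul_nonneg hl.1 hh.le, mul_le_of_le_one_left hh.le hl.2⟩, ?_, ?_⟩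
      · show -(s' * (l * h / h)) ≤ l * t
        rw [mul_div_cancel_right₀ _ hh.ne']
        nlinarith [mul_nonneg hl.1 (sub_nonneg.2 ht.1)]
      · show l * t ≤ s * (l * h / h)
        rw [mul_div_cancel_right₀ _ hh.ne']
        nlinarith [mul_nonneg hl.1 (sub_nonneg.2 ht.2)]
    · rw [rotE_apply]
      simp [smul_add, mul_smul]
  have hfe : MeasurePreserving (fun v => f (e v)) volume volume := hf.comp he
  calc volume (tri θ h s s') ≤ volume ((rotE θ) '' ((fun v => f (e v)) ⁻¹' S2 h s s')) :=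
        measure_mono hsub
    _ = volume ((rotE θ).symm ⁻¹' ((fun v => f (e v)) ⁻¹' S2 h s s')) := by
        congr 1
        exact (rotE θ).toEquiv.image_eq_preimage_symm _
    _ = volume ((fun v => f (e v)) ⁻¹' S2 h s s') :=
        (rotE θ).symm.measurePreserving.measure_preimage
          (hfe.measurable (S2_meas h s s')).nullMeasurableSet
    _ = volume (S2 h s s') := hfe.measure_preimage (S2_meas h s s').nullMeasurableSet
    _ ≤ ENNReal.ofReal (h * (s + s') / 2) := S2_vol hh hs

end Pool.Agent.T2H01.QI
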